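import Pool.Agent.Lib.MP_bc3ae6_ag.Moll

set_option autoImplicit false
set_option linter.unusedSectionVars false

/-! Hilbert space part of Hoermander's theorem. -/

namespace Pool.Agent.Lib.MP_bc3ae6_ag

open MeasureTheory Filter Set Metric Topology Complex
open scoped ContDiff ComplexConjugate ENNReal InnerProductSpace

lemma proj1 {H : Type*} [NormedAddCommGroup H] [InnerProductSpace ℂ H] [CompleteSpace H]
    (S : Set H) (a : H) : ∃ a1 : H, (∀ s ∈ S, ⟪s, a1⟫_ℂ = ⟪s, a⟫_ℂ) ∧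
      ∀ l : H →L[ℂ] ℂ, (∀ s ∈ S, l s = 0) → l a1 = 0 := by
  let K := (Submodule.span ℂ S).topologicalClosure
  refine ⟨K.starProjection a, fun s hs => ?_, fun l hl => ?_⟩
  · have h := K.starProjection_inner_eq_zero a s
      ((Submodule.le_topologicalClosure _) (Submodule.subset_span hs))
    rw [inner_eq_zero_symm, inner_sub_right, sub_eq_zero] at h
    exact h.symm
  · have : K ≤ l.ker :=
      Submodule.topologicalClosure_minimal _ (Submodule.span_le.2 fun s hs => hl s hs)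
        l.isClosed_ker
    exact this (K.starProjection_apply_mem a)

lemma proj2 {H : Type*} [NormedAddCommGroup H] [InnerProductSpace ℂ H] [CompleteSpace H]
    (K : Submodule ℂ H) (g : H) (Q : ℝ) (h : ∀ r ∈ K, 2 * ‖⟪g, r⟫_ℂ‖ ≤ Q + ‖r‖ ^ 2) :
    ∃ u : H, ‖u‖ ^ 2 ≤ Q ∧ ∀ r ∈ K, ⟪r, g⟫_ℂ = ⟪r, u⟫_ℂ := by
  let K' := K.topologicalClosure
  have h' : ∀ r ∈ K', 2 * ‖⟪g, r⟫_ℂ‖ ≤ Q + ‖r‖ ^ 2 := by
    intro r hr
    have hc : IsClosed {r : H | 2 * ‖⟪g, r⟫_ℂ‖ ≤ Q + ‖r‖ ^ 2} :=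
      isClosed_le (by fun_prop) (by fun_prop)
    exact closure_minimal (s := (K : Set H)) h hc hr
  have h0 : ∀ r ∈ K', ⟪r, g⟫_ℂ = ⟪r, K'.starProjection g⟫_ℂ := by
    intro r hr
    have h := K'.starProjection_inner_eq_zero g r hr
    rwa [inner_eq_zero_symm, inner_sub_right, sub_eq_zero] at h
  refine ⟨K'.starProjection g, ?_, fun r hr => h0 r (Submodule.le_topologicalClosure _ hr)⟩
  have h1 := h' _ (K'.starProjection_apply_mem g)
  rw [norm_inner_symm, h0 _ (K'.starProjection_apply_mem g), inner_self_eq_norm_sq_to_K] at h1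
  simp at h1
  linarith

variable {ι : Type} [Fintype ι] [DecidableEq ι]

/-- Square integrable functions. -/
noncomputable abbrev H0 (ι : Type) [Fintype ι] := Lp ℂ 2 (volume : Measure (ι → ℂ))

lemma enorm_sq_H0 (b : H0 ι) : ‖b‖ₑ ^ 2 = ∫⁻ z, ‖b z‖ₑ ^ 2 := by
  rw [Lp.enorm_def, eLpNorm_eq_lintegral_rpow_enorm_toReal two_ne_zero ENNReal.ofNat_ne_top,
    ← ENNReal.rpow_two, ← ENNReal.rpow_mul]
  simp

/-- Square root of the weight. -/
noncomputable def om (φ : (ι → ℂ) → ℝ) (z : ι → ℂ) : ℂ := cexp (-(φ z : ℂ) / 2)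

/-- Inverse square root of the weight. -/
noncomputable def omi (φ : (ι → ℂ) → ℝ) (z : ι → ℂ) : ℂ := cexp ((φ z : ℂ) / 2)

open Classical in
/-- The class of `om * f`. -/
noncomputable def L (φ : (ι → ℂ) → ℝ) (f : (ι → ℂ) → ℂ) : H0 ι :=
  if h : MemLp (fun z => om φ z * f z) 2 volume then h.toLp _ else 0

variable {φ : (ι → ℂ) → ℝ}

lemma om_omi (z : ι → ℂ) : om φ z * omi φ z = 1 := by
  rw [om, omi, ← Complex.exp_add]; ring_nf; simp

lemma om_om (z : ι → ℂ) : om φ z * om φ z = Wt φ z := by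
  rw [om, Wt, ← Complex.exp_add]; ring_nf

lemma conj_om (z : ι → ℂ) : conj (om φ z) = om φ z := by
  simp [om, ← exp_conj, map_ofNat]

lemma conj_omi (z : ι → ℂ) : conj (omi φ z) = omi φ z := by
  simp [omi, ← exp_conj, map_ofNat]

lemma norm_om (z : ι → ℂ) : ‖om φ z‖ = Real.exp (-φ z / 2) := by
  simp [om, norm_exp]

lemma norm_omi (z : ι → ℂ) : ‖omi φ z‖ = Real.exp (φ z / 2) := by
  simp [omi, norm_exp]

lemma norm_om_sq (z : ι → ℂ) : ‖om φ z‖ ^ 2 = Real.exp (-φ z) := by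
  rw [norm_om, sq, ← Real.exp_add]; ring_nf

variable (hφ : ContDiff ℝ ∞ φ)
include hφ

lemma sm_om : Sm (om φ) := ((sm_phi hφ).neg.div_const _).cexp

lemma sm_omi : Sm (omi φ) := ((sm_phi hφ).div_const _).cexp

lemma P_omi2 (c : ℂ) (j : ι) (z : ι → ℂ) :
    P c j (fun z => omi φ z * omi φ z) z
      = P c j (fun z => (φ z : ℂ)) z * (omi φ z * omi φ z) := by
  have e : ∀ z, omi φ z * omi φ z = cexp (φ z) := fun z => by
    rw [omi, ← Complex.exp_add]; ring_nf
  simp only [e]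
  rw [P_comp ((sm_phi hφ).dAt z) (Complex.hasDerivAt_exp _), mul_comm]

lemma L_ae {f : (ι → ℂ) → ℂ} (hf : Tst f) : L φ f =ᵐ[volume] fun z => om φ z * f z := by
  have h : MemLp (fun z => om φ z * f z) 2 volume :=
    (hf.mul_left (sm_om hφ)).sm.continuous.memLp_of_hasCompactSupport (hf.mul_left (sm_om hφ)).cs
  rw [L, dif_pos h]
  exact h.coeFn_toLp

lemma L_add {f g : (ι → ℂ) → ℂ} (hf : Tst f) (hg : Tst g) :
    L φ (fun z => f z + g z) = L φ f + L φ g := by
  apply Lp.ext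
  filter_upwards [L_ae hφ hf, L_ae hφ hg, L_ae hφ (hf.add hg), Lp.coeFn_add (L φ f) (L φ g)]
    with z h1 h2 h3 h4
  rw [h3, h4, Pi.add_apply, h1, h2, mul_add]

lemma L_sub {f g : (ι → ℂ) → ℂ} (hf : Tst f) (hg : Tst g) :
    L φ (fun z => f z - g z) = L φ f - L φ g := by
  apply Lp.ext
  filter_upwards [L_ae hφ hf, L_ae hφ hg, L_ae hφ (hf.sub hg), Lp.coeFn_sub (L φ f) (L φ g)]
    with z h1 h2 h3 h4
  rw [h3, h4, Pi.sub_apply, h1, h2, mul_sub]

lemma L_smul {f : (ι → ℂ) → ℂ} (hf : Tst f) (c : ℂ) :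
    L φ (fun z => c * f z) = c • L φ f := by
  apply Lp.ext
  filter_upwards [L_ae hφ hf, L_ae hφ (hf.mul_left (g := fun _ => c) contDiff_const),
    Lp.coeFn_smul c (L φ f)] with z h1 h2 h3
  rw [h2, h3, Pi.smul_apply, h1, smul_eq_mul]; ring

lemma inner_L {f : (ι → ℂ) → ℂ} (hf : Tst f) (b : H0 ι) :
    ⟪L φ f, b⟫_ℂ = ∫ z, b z * (om φ z * conj (f z)) := by
  rw [L2.inner_def]
  refine integral_congr_ae ?_
  filter_upwards [L_ae hφ hf] with z h
  rw [h]; simp [conj_om]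

lemma inner_LL {f g : (ι → ℂ) → ℂ} (hf : Tst f) (hg : Tst g) :
    ⟪L φ f, L φ g⟫_ℂ = ∫ z, g z * conj (f z) * Wt φ z := by
  rw [inner_L hφ hf]
  refine integral_congr_ae ?_
  filter_upwards [L_ae hφ hg] with z h
  rw [h, ← om_om]; ring

lemma norm_L_sq {f : (ι → ℂ) → ℂ} (hf : Tst f) :
    ‖L φ f‖ ^ 2 = ∫ z, ‖f z‖ ^ 2 * Real.exp (-φ z) := by
  have h := inner_LL hφ hf hf
  rw [inner_self_eq_norm_sq_to_K] at h
  simp only [mul_conj', Wt_eq] at h
  norm_cast at h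
  exact ofReal_injective h

lemma enorm_L_sq {f : (ι → ℂ) → ℂ} (hf : Tst f) :
    ‖L φ f‖ₑ ^ 2 = ∫⁻ z, ‖om φ z * f z‖ₑ ^ 2 := by
  rw [enorm_sq_H0]
  refine lintegral_congr_ae ?_
  filter_upwards [L_ae hφ hf] with z h
  rw [h]

omit hφ in
lemma ibp0 {h v : (ι → ℂ) → ℂ} (hh : Tst h) (hv : Sm v) (c : ℂ) (j : ι) :
    ∫ z, P c j h z * v z = - ∫ z, h z * P c j v z := by
  have h0 := (hh.mul_right hv).integral_P c j
  rw [eq_neg_iff_add_eq_zero, ← integral_add ((hh.P c j).mul_right hv).integrable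
    (hh.mul_right (hv.P c j)).integrable, ← h0]
  congr 1; funext z
  rw [P_mul (hh.sm.dAt z) (hv.dAt z)]

omit hφ in
lemma locInt_mul {a v : (ι → ℂ) → ℂ} (ha : MemLp a 2 volume) (hv : Continuous v) :
    LocallyIntegrable (fun z => a z * v z) :=
  (ha.locallyIntegrable (by norm_num)).mul_continuous hv

/-- The closed part of a test form. -/
lemma exists_closed_part {α : ι → (ι → ℂ) → ℂ} (hα : ∀ j, Tst (α j)) :
    ∃ a : ι → H0 ι,
      (∀ ψ, Tst ψ → ∑ j, ∫ y, a j y * omi φ y *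
        (P (-I) j ψ y + ψ y * P (-I) j (fun z => (φ z : ℂ)) y)
          = - ∫ y, (∑ j, del φ j (α j) y) * ψ y) ∧
      ∀ ψ, Tst ψ → ∀ j k, ∫ y, a j y * omi φ y * P I k ψ y = ∫ y, a k y * omi φ y * P I j ψ y := by
  let H1 := PiLp 2 (fun _ : ι => H0 ι)
  let Db : ((ι → ℂ) → ℂ) → H1 := fun h => WithLp.toLp 2 fun j => L φ (P I j h)
  obtain ⟨a1, h1, h2⟩ := proj1 {b : H1 | ∃ h, Tst h ∧ b = Db h}
    (WithLp.toLp 2 fun j => L φ (α j))
  have hi := (sm_omi hφ).mul (sm_omi hφ)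
  refine ⟨fun j => a1 j, fun ψ hψ => ?_, fun ψ hψ j k => ?_⟩
  · have hh : Tst (fun z => conj (ψ z * (omi φ z * omi φ z))) := (hψ.mul_right hi).conj
    have this : ∑ j, ⟪L φ (P I j (fun z => conj (ψ z * (omi φ z * omi φ z)))), a1 j⟫_ℂ
        = ∑ j, ⟪L φ (P I j (fun z => conj (ψ z * (omi φ z * omi φ z)))), L φ (α j)⟫_ℂ :=
      h1 _ ⟨_, hh, rfl⟩
    simp only [inner_L hφ (hh.P I _)] at this
    have e1 : ∀ j y, conj (P I j (fun z => conj (ψ z * (omi φ z * omi φ z))) y)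
        = (P (-I) j ψ y + ψ y * P (-I) j (fun z => (φ z : ℂ)) y) * (omi φ y * omi φ y) := by
      intro j y
      rw [P_conj_I, conj_conj, P_mul (hψ.sm.dAt y) (Sm.dAt hi y), P_omi2 hφ]
      ring
    have e2 : ∀ j, ∫ y, a1 j y * omi φ y *
        (P (-I) j ψ y + ψ y * P (-I) j (fun z => (φ z : ℂ)) y) = ∫ z, a1 j z * (om φ z *
          conj (P I j (fun z => conj (ψ z * (omi φ z * omi φ z))) z)) := by
      intro j
      congr 1; funext y
      rw [e1]
      linear_combination (-(a1 j y * omi φ y *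
        (P (-I) j ψ y + ψ y * P (-I) j (fun z => (φ z : ℂ)) y))) * om_omi (φ := φ) y
    simp only [e2]
    rw [this]
    simp only [Finset.sum_mul]
    rw [integral_finsetSum _ fun j _ => (((hα j).del hφ j).mul_right hψ.sm).integrable,
      ← Finset.sum_neg_distrib]
    refine Finset.sum_congr rfl fun j _ => ?_
    have h3 := ibp hφ (hα j) hh.sm j
    rw [← neg_eq_iff_eq_neg] at h3
    rw [← inner_L hφ (hh.P I j), inner_LL hφ (hh.P I j) (hα j), ← h3]
    congr 2; funext y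
    rw [conj_conj, ← om_om]
    linear_combination (del φ j (α j) y * ψ y * (om φ y * omi φ y + 1)) * om_omi (φ := φ) y
  · have t : ∀ k, Tst (fun z => conj (P I k ψ z * (omi φ z * omi φ z))) := fun k =>
      ((hψ.P I k).mul_right hi).conj
    have e : ∀ (k : ι) (b : H0 ι), ⟪L φ (fun z => conj (P I k ψ z * (omi φ z * omi φ z))), b⟫_ℂ
        = ∫ y, b y * omi φ y * P I k ψ y := by
      intro k b
      rw [inner_L hφ (t k)]
      congr 1; funext y
      rw [conj_conj]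
      linear_combination (b y * omi φ y * P I k ψ y) * om_omi (φ := φ) y
    have := h2 ((innerSL ℂ (L φ (fun z => conj (P I k ψ z * (omi φ z * omi φ z))))).comp
        (PiLp.proj 2 (fun _ : ι => H0 ι) j) -
      (innerSL ℂ (L φ (fun z => conj (P I j ψ z * (omi φ z * omi φ z))))).comp
        (PiLp.proj 2 (fun _ : ι => H0 ι) k)) ?_
    · simp only [sub_apply, ContinuousLinearMap.comp_apply, innerSL_apply_apply, e,
        sub_eq_zero] at this
      exact this
    · rintro _ ⟨h, hh, rfl⟩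
      simp only [sub_apply, ContinuousLinearMap.comp_apply, innerSL_apply_apply, e,
        sub_eq_zero]
      change ∫ y, L φ (P I j h) y * omi φ y * P I k ψ y = ∫ y, L φ (P I k h) y * omi φ y * P I j ψ y
      have e3 : ∀ j k, ∫ y, L φ (P I j h) y * omi φ y * P I k ψ y
          = - ∫ y, h y * P I j (P I k ψ) y := by
        intro j k
        rw [← ibp0 hh (hψ.sm.P I k)]
        refine integral_congr_ae ?_
        filter_upwards [L_ae hφ (hh.P I j)] with y hy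
        rw [hy]
        linear_combination (P I j h y * P I k ψ y) * om_omi (φ := φ) y
      rw [e3, e3]
      simp only [P_comm hψ.sm I I j k]

end Pool.Agent.Lib.MP_bc3ae6_ag
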