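import Pool.Agent.Lib.MP_bc3ae6_ag.Liou

set_option autoImplicit false
set_option linter.unusedSectionVars false

/-! Levi forms of logarithms of sums of squares, cut-offs. -/

namespace Pool.Agent.Lib.MP_bc3ae6_ag

open MeasureTheory Filter Set Metric Topology Complex
open scoped ContDiff ComplexConjugate ENNReal

variable {ι : Type} [Fintype ι] [DecidableEq ι] {κ : Type} [Fintype κ]

/-- Entire functions. -/
structure Hol (f : (ι → ℂ) → ℂ) : Prop where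
  sm : Sm f
  cr : ∀ j z, P I j f z = 0

lemma Hol.const (a : ℂ) : Hol (fun _ : ι → ℂ => a) := ⟨contDiff_const, fun j z => P_const a I j z⟩

lemma Hol.add {f g : (ι → ℂ) → ℂ} (hf : Hol f) (hg : Hol g) : Hol (fun z => f z + g z) :=
  ⟨hf.sm.add hg.sm, fun j z => by rw [P_add (hf.sm.dAt z) (hg.sm.dAt z), hf.cr, hg.cr, add_zero]⟩

lemma Hol.mul {f g : (ι → ℂ) → ℂ} (hf : Hol f) (hg : Hol g) : Hol (fun z => f z * g z) :=
  ⟨hf.sm.mul hg.sm, fun j z => by
    rw [P_mul (hf.sm.dAt z) (hg.sm.dAt z), hf.cr, hg.cr]; simp⟩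

lemma Hol.coord (i : ι) : Hol (fun z : ι → ℂ => z i) := by
  refine ⟨contDiff_apply ℝ ℂ i, fun j z => ?_⟩
  have : fderiv ℝ (fun z : ι → ℂ => z i) z = ContinuousLinearMap.proj i :=
    (ContinuousLinearMap.proj (R := ℝ) (φ := fun _ : ι => ℂ) i).fderiv
  simp only [P, this, ContinuousLinearMap.proj_apply]
  by_cases h : i = j
  · subst h; simp
  · simp [h]

lemma Hol.poly (p : MvPolynomial ι ℂ) : Hol (fun z => MvPolynomial.eval z p) := by
  induction p using MvPolynomial.induction_on with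
  | C a => simpa using Hol.const a
  | add p q hp hq => simpa using hp.add hq
  | mul_X p i hp => simpa using hp.mul (Hol.coord i)

lemma Hol.P {f : (ι → ℂ) → ℂ} (hf : Hol f) (j : ι) : Hol (P (-I) j f) :=
  ⟨hf.sm.P _ j, fun k z => by
    rw [P_comm hf.sm, show MP_bc3ae6_ag.P I k f = fun _ => 0 from funext (hf.cr k), P_const]⟩

/-- Sum of squares. -/
noncomputable def Qs (f : κ → (ι → ℂ) → ℂ) (z : ι → ℂ) : ℝ := ∑ i, ‖f i z‖ ^ 2

/-- Holomorphic directional derivative. -/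
noncomputable def Dv (f : (ι → ℂ) → ℂ) (z ξ : ι → ℂ) : ℂ := ∑ j, P (-I) j f z * ξ j

/-- Logarithm of a regularised sum of squares. -/
noncomputable def ls (t : ℝ) (f : κ → (ι → ℂ) → ℂ) (z : ι → ℂ) : ℝ := Real.log (Qs f z + t)

lemma Qs_nonneg (f : κ → (ι → ℂ) → ℂ) (z : ι → ℂ) : 0 ≤ Qs f z :=
  Finset.sum_nonneg fun _ _ => sq_nonneg _

lemma Qs_coe (f : κ → (ι → ℂ) → ℂ) :
    (fun z => (Qs f z : ℂ)) = fun z => ∑ i, f i z * conj (f i z) := by
  funext z; simp [Qs, mul_conj']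

section
variable {f : κ → (ι → ℂ) → ℂ} (hf : ∀ i, Hol (f i))
include hf

lemma sm_Qs : ContDiff ℝ ∞ (Qs f) :=
  ContDiff.sum fun i _ => (hf i).sm.norm_sq ℂ

lemma P_Qs_negI (j : ι) (z : ι → ℂ) :
    P (-I) j (fun z => (Qs f z : ℂ)) z = ∑ i, P (-I) j (f i) z * conj (f i z) := by
  rw [Qs_coe, P_sum _ fun i _ => Sm.dAt ((hf i).sm.mul (hf i).sm.conj) z]
  refine Finset.sum_congr rfl fun i _ => ?_
  rw [P_mul ((hf i).sm.dAt z) ((hf i).sm.conj.dAt z), P_conj_negI, (hf i).cr]; simp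

lemma P_Qs_I (j : ι) (z : ι → ℂ) :
    P I j (fun z => (Qs f z : ℂ)) z = ∑ i, f i z * conj (P (-I) j (f i) z) := by
  rw [Qs_coe, P_sum _ fun i _ => Sm.dAt ((hf i).sm.mul (hf i).sm.conj) z]
  refine Finset.sum_congr rfl fun i _ => ?_
  rw [P_mul ((hf i).sm.dAt z) ((hf i).sm.conj.dAt z), P_conj_I, (hf i).cr]; simp

lemma sm_ls {t : ℝ} (ht : 0 < t) : ContDiff ℝ ∞ (ls t f) :=
  ((sm_Qs hf).add contDiff_const).log fun z => (add_pos_of_nonneg_of_pos (Qs_nonneg f z) ht).ne'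

lemma cs_Dv (z ξ : ι → ℂ) :
    ‖∑ i, Dv (f i) z ξ * conj (f i z)‖ ^ 2 ≤ Qs f z * ∑ i, ‖Dv (f i) z ξ‖ ^ 2 := by
  have h1 : ‖∑ i, Dv (f i) z ξ * conj (f i z)‖ ≤ ∑ i, ‖f i z‖ * ‖Dv (f i) z ξ‖ :=
    (norm_sum_le _ _).trans (le_of_eq (Finset.sum_congr rfl fun i _ => by simp [mul_comm]))
  exact (pow_le_pow_left₀ (norm_nonneg _) h1 2).trans (Finset.sum_mul_sq_le_sq_mul_sq _ _ _)

lemma Levi_ls {t : ℝ} (ht : 0 < t) (z ξ : ι → ℂ) :
    t * (∑ i, ‖Dv (f i) z ξ‖ ^ 2) / (Qs f z + t) ^ 2 ≤ Levi (ls t f) z ξ := by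
  have hq : ∀ z, 0 < Qs f z + t := fun z => add_pos_of_nonneg_of_pos (Qs_nonneg f z) ht
  have hQ : Sm (fun z => (Qs f z : ℂ)) := sm_phi (sm_Qs hf)
  have e1 : ∀ j, P (-I) j (fun z => (ls t f z : ℂ)) = fun z =>
      ((Qs f z : ℂ) + t)⁻¹ * ∑ i, P (-I) j (f i) z * conj (f i z) := by
    intro j; funext z
    have h1 : HasDerivAt (fun s => Real.log (s + t)) (Qs f z + t)⁻¹ (Qs f z) := by
      simpa using ((hasDerivAt_id (Qs f z)).add_const t).log (hq z).ne'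
    have := P_comp_real ((sm_Qs hf).differentiable (by simp) z) h1 (-I) j
    rw [P_Qs_negI hf] at this
    simpa [ls] using this
  have hne : ((Qs f z : ℂ) + t) ≠ 0 := by exact_mod_cast (hq z).ne'
  have e2 : ∀ k, P I k (fun z => ((Qs f z : ℂ) + t)⁻¹) z
      = -(((Qs f z : ℂ) + t) ^ 2)⁻¹ * ∑ i, f i z * conj (P (-I) k (f i) z) := by
    intro k
    have h1 : HasDerivAt (fun s : ℂ => (s + t)⁻¹) (-(((Qs f z : ℂ) + t) ^ 2)⁻¹) (Qs f z) := by
      have := (hasDerivAt_inv hne).comp (Qs f z : ℂ) ((hasDerivAt_id _).add_const (t : ℂ))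
      rw [mul_one] at this
      exact this
    rw [P_comp (hQ.dAt z) h1, P_Qs_I hf]
  have d1 : DifferentiableAt ℝ (fun z => ((Qs f z : ℂ) + t)⁻¹) z :=
    ((hQ.dAt z).add_const _).inv hne
  have s2 : ∀ j i, Sm (fun z => P (-I) j (f i) z * conj (f i z)) := fun j i =>
    ((hf i).sm.P _ j).mul (hf i).sm.conj
  have e3 : ∀ j k, P I k (P (-I) j (fun z => (ls t f z : ℂ))) z =
      -(((Qs f z : ℂ) + t) ^ 2)⁻¹ * (∑ i, f i z * conj (P (-I) k (f i) z))
        * (∑ i, P (-I) j (f i) z * conj (f i z))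
      + ((Qs f z : ℂ) + t)⁻¹ * ∑ i, P (-I) j (f i) z * conj (P (-I) k (f i) z) := by
    intro j k
    rw [e1, P_mul d1 (Sm.dAt (ContDiff.sum fun i _ => s2 j i) z), e2,
      P_sum _ fun i _ => (s2 j i).dAt z]
    congr 2
    refine Finset.sum_congr rfl fun i _ => ?_
    rw [P_mul (((hf i).sm.P _ j).dAt z) ((hf i).sm.conj.dAt z), ((hf i).P j).cr, P_conj_I]
    simp
  have a1 : ∑ j, (∑ i, P (-I) j (f i) z * conj (f i z)) * ξ j
      = ∑ i, Dv (f i) z ξ * conj (f i z) := by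
    simp only [Dv, Finset.sum_mul]
    rw [Finset.sum_comm]
    exact Finset.sum_congr rfl fun i _ => Finset.sum_congr rfl fun j _ => by ring
  have a2 : ∑ k, (∑ i, f i z * conj (P (-I) k (f i) z)) * conj (ξ k)
      = conj (∑ i, Dv (f i) z ξ * conj (f i z)) := by
    rw [← a1]
    simp only [map_sum, map_mul, conj_conj, mul_comm (f _ z)]
  have a3 : ∑ j, ∑ k, (∑ i, P (-I) j (f i) z * conj (P (-I) k (f i) z)) * ξ j * conj (ξ k)
      = ∑ i, Dv (f i) z ξ * conj (Dv (f i) z ξ) := by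
    simp only [Dv, map_sum, map_mul, Finset.sum_mul_sum]
    simp only [Finset.sum_mul]
    rw [Finset.sum_comm (s := Finset.univ (α := κ))]
    refine Finset.sum_congr rfl fun j _ => ?_
    rw [Finset.sum_comm (s := Finset.univ (α := κ))]
    exact Finset.sum_congr rfl fun k _ => Finset.sum_congr rfl fun i _ => by ring
  have e4 : ∑ j, ∑ k, P I k (P (-I) j (fun z => (ls t f z : ℂ))) z * ξ j * conj (ξ k) =
      ((-((Qs f z + t) ^ 2)⁻¹ * ‖∑ i, Dv (f i) z ξ * conj (f i z)‖ ^ 2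
        + (Qs f z + t)⁻¹ * ∑ i, ‖Dv (f i) z ξ‖ ^ 2 : ℝ) : ℂ) := by
    push_cast
    simp only [← mul_conj']
    rw [← a3, ← a2, ← a1, Finset.sum_mul_sum, Finset.mul_sum, Finset.mul_sum,
      ← Finset.sum_add_distrib]
    refine Finset.sum_congr rfl fun j _ => ?_
    rw [Finset.mul_sum, Finset.mul_sum, ← Finset.sum_add_distrib]
    refine Finset.sum_congr rfl fun k _ => ?_
    rw [e3]; ring
  rw [Levi, e4, ofReal_re]
  have h5 := cs_Dv hf z ξ
  have h6 := hq z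
  rw [div_le_iff₀ (by positivity)]
  field_simp
  nlinarith

lemma Levi_ls_nonneg {t : ℝ} (ht : 0 < t) (z ξ : ι → ℂ) : 0 ≤ Levi (ls t f) z ξ :=
  le_trans (by positivity) (Levi_ls hf ht z ξ)

end

lemma Levi_add {φ ψ : (ι → ℂ) → ℝ} (hφ : ContDiff ℝ ∞ φ) (hψ : ContDiff ℝ ∞ ψ) (z ξ : ι → ℂ) :
    Levi (fun z => φ z + ψ z) z ξ = Levi φ z ξ + Levi ψ z ξ := by
  have e : ∀ j, P (-I) j (fun z => ((φ z + ψ z : ℝ) : ℂ)) = fun z =>
      P (-I) j (fun z => (φ z : ℂ)) z + P (-I) j (fun z => (ψ z : ℂ)) z := by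
    intro j; funext z
    simp only [ofReal_add]
    exact P_add ((sm_phi hφ).dAt z) ((sm_phi hψ).dAt z) _ _
  simp only [Levi, e, P_add (((sm_phi hφ).P _ _).dAt z) (((sm_phi hψ).P _ _).dAt z), add_mul,
    Finset.sum_add_distrib, add_re]

lemma Levi_smul {φ : (ι → ℂ) → ℝ} (hφ : ContDiff ℝ ∞ φ) (c : ℝ) (z ξ : ι → ℂ) :
    Levi (fun z => c * φ z) z ξ = c * Levi φ z ξ := by
  have e : ∀ j, P (-I) j (fun z => ((c * φ z : ℝ) : ℂ)) = fun z =>
      c * P (-I) j (fun z => (φ z : ℂ)) z := by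
    intro j; funext z
    simp only [ofReal_mul]
    exact P_const_mul ((sm_phi hφ).dAt z) _ _ _
  simp only [Levi, e, P_const_mul (((sm_phi hφ).P _ _).dAt z), mul_assoc, ← Finset.mul_sum,
    re_ofReal_mul]

/-- Smooth plurisubharmonic weights of logarithmic growth. -/
structure PW (K : ℝ) (φ : (ι → ℂ) → ℝ) : Prop where
  sm : ContDiff ℝ ∞ φ
  psh : ∀ z ξ, 0 ≤ Levi φ z ξ
  gr : ∃ C, ∀ z, Real.exp (φ z / 2) ≤ C * (1 + ‖z‖) ^ K

lemma PW.add {K K' : ℝ} {φ ψ : (ι → ℂ) → ℝ} (hφ : PW K φ) (hψ : PW K' ψ) :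
    PW (K + K') (fun z => φ z + ψ z) := by
  refine ⟨hφ.sm.add hψ.sm, fun z ξ => ?_, ?_⟩
  · rw [Levi_add hφ.sm hψ.sm]; exact add_nonneg (hφ.psh z ξ) (hψ.psh z ξ)
  · obtain ⟨C, hC⟩ := hφ.gr
    obtain ⟨C', hC'⟩ := hψ.gr
    refine ⟨C * C', fun z => ?_⟩
    rw [add_div, Real.exp_add, Real.rpow_add (by positivity), mul_mul_mul_comm]
    exact mul_le_mul (hC z) (hC' z) (Real.exp_pos _).le ((Real.exp_pos _).le.trans (hC z))

lemma PW.mono {K K' : ℝ} {φ : (ι → ℂ) → ℝ} (hφ : PW K φ) (h : K ≤ K') : PW K' φ := by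
  obtain ⟨C, hC⟩ := hφ.gr
  have hC0 : 0 ≤ C := by simpa using (Real.exp_pos _).le.trans (hC 0)
  refine ⟨hφ.sm, hφ.psh, C, fun z => (hC z).trans ?_⟩
  gcongr
  linarith [norm_nonneg z]

lemma PW.const (c : ℝ) : PW 0 (fun _ : ι → ℂ => c) :=
  ⟨contDiff_const, fun z ξ => by
    have : ∀ j : ι, P (-I) j (fun _ : ι → ℂ => (c : ℂ)) = fun _ => 0 := fun j =>
      funext fun z => P_const _ _ _ _
    simp [Levi, this, P_const], Real.exp (c / 2), fun z => by simp⟩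

lemma poly_growth (p : MvPolynomial ι ℂ) {d : ℕ} (hp : p.totalDegree ≤ d) :
    ∃ C, 0 ≤ C ∧ ∀ z : ι → ℂ, ‖MvPolynomial.eval z p‖ ≤ C * (1 + ‖z‖) ^ d := by
  refine ⟨∑ u ∈ p.support, ‖p.coeff u‖, by positivity, fun z => ?_⟩
  rw [MvPolynomial.eval_eq', Finset.sum_mul]
  refine (norm_sum_le _ _).trans (Finset.sum_le_sum fun u hu => ?_)
  rw [norm_mul, norm_prod]
  gcongr
  have h1 : ∑ i, u i ≤ d := by
    have := MvPolynomial.le_totalDegree hu
    rw [Finsupp.sum_fintype _ _ (by simp)] at this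
    exact this.trans hp
  calc ∏ i, ‖z i ^ u i‖ ≤ ∏ i, (1 + ‖z‖) ^ u i := by
        refine Finset.prod_le_prod (fun _ _ => norm_nonneg _) fun i _ => ?_
        rw [norm_pow]
        gcongr
        linarith [norm_le_pi_norm z i]
    _ = (1 + ‖z‖) ^ ∑ i, u i := Finset.prod_pow_eq_pow_sum _ _ _
    _ ≤ _ := pow_le_pow_right₀ (by linarith [norm_nonneg z]) h1

lemma PW.ls (p : κ → MvPolynomial ι ℂ) {d : ℕ} (hp : ∀ i, (p i).totalDegree ≤ d) {t c : ℝ}
    (ht : 0 < t) (hc : 0 ≤ c) :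
    PW (c * d) (fun z => c * ls t (fun i z => MvPolynomial.eval z (p i)) z) := by
  have hf : ∀ i, Hol (fun z => MvPolynomial.eval z (p i)) := fun i => Hol.poly _
  refine ⟨contDiff_const.mul (sm_ls hf ht), fun z ξ => ?_, ?_⟩
  · rw [Levi_smul (sm_ls hf ht)]; exact mul_nonneg hc (Levi_ls_nonneg hf ht z ξ)
  · choose C hC0 hC using fun i => poly_growth (p i) (hp i)
    refine ⟨(∑ i, C i ^ 2 + t) ^ (c / 2), fun z => ?_⟩
    have hq := add_pos_of_nonneg_of_pos (Qs_nonneg (fun i z => MvPolynomial.eval z (p i)) z) ht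
    have h1 : 1 ≤ (1 + ‖z‖) ^ (2 * d) := one_le_pow₀ (by linarith [norm_nonneg z])
    have h2 : Qs (fun i z => MvPolynomial.eval z (p i)) z + t
        ≤ (∑ i, C i ^ 2 + t) * (1 + ‖z‖) ^ (2 * d) := by
      rw [add_mul, Finset.sum_mul]
      refine add_le_add (Finset.sum_le_sum fun i _ => ?_) (le_mul_of_one_le_right ht.le h1)
      rw [pow_mul', ← mul_pow]
      exact pow_le_pow_left₀ (norm_nonneg _) (hC i z) 2
    rw [MP_bc3ae6_ag.ls, show ∀ a : ℝ, c * a / 2 = a * (c / 2) from fun a => by ring,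
      ← Real.rpow_def_of_pos hq]
    refine (Real.rpow_le_rpow hq.le h2 (by positivity)).trans (le_of_eq ?_)
    rw [Real.mul_rpow (by positivity) (by positivity), ← Real.rpow_natCast,
      ← Real.rpow_mul (by positivity)]
    congr 2; push_cast; ring

lemma exp_neg_ls (f : κ → (ι → ℂ) → ℂ) {t : ℝ} (ht : 0 < t) (c : ℝ) (z : ι → ℂ) :
    Real.exp (-(c * ls t f z)) = (Qs f z + t) ^ (-c) := by
  rw [Real.rpow_def_of_pos (add_pos_of_nonneg_of_pos (Qs_nonneg f z) ht), ls]; ring_nf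

/-- A fixed cut-off function on the line. -/
noncomputable def chi (s : ℝ) : ℝ := Real.smoothTransition ((1 - s) * (4 / 3))

lemma chi_sm : ContDiff ℝ ∞ chi :=
  Real.smoothTransition.contDiff.comp ((contDiff_const.sub contDiff_id).mul contDiff_const)

lemma chi_one {s : ℝ} (h : s ≤ 1 / 4) : chi s = 1 :=
  Real.smoothTransition.one_of_one_le (by linarith)

lemma chi_zero {s : ℝ} (h : 1 ≤ s) : chi s = 0 :=
  Real.smoothTransition.zero_of_nonpos (by linarith)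

lemma chi_nonneg (s : ℝ) : 0 ≤ chi s := Real.smoothTransition.nonneg _

lemma chi_le_one (s : ℝ) : chi s ≤ 1 := Real.smoothTransition.le_one _

lemma dchi_cont : Continuous (deriv chi) := chi_sm.continuous_deriv (by exact_mod_cast le_top)

lemma dchi_lt {s : ℝ} (h : s < 1 / 4) : deriv chi s = 0 := by
  have : chi =ᶠ[𝓝 s] fun _ => 1 := by
    filter_upwards [Iio_mem_nhds h] with x hx using chi_one (le_of_lt hx)
  rw [this.deriv_eq]; simp

lemma dchi_gt {s : ℝ} (h : 1 < s) : deriv chi s = 0 := by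
  have : chi =ᶠ[𝓝 s] fun _ => 0 := by
    filter_upwards [Ioi_mem_nhds h] with x hx using chi_zero (le_of_lt hx)
  rw [this.deriv_eq]; simp

lemma dchi_bdd : ∃ C : ℝ, 0 < C ∧ ∀ s, deriv chi s ^ 2 ≤ C := by
  obtain ⟨C, hC⟩ := (isCompact_Icc (a := (0 : ℝ)) (b := 1)).exists_bound_of_continuousOn
    (dchi_cont.pow 2).continuousOn
  refine ⟨|C| + 1, by positivity, fun s => ?_⟩
  by_cases h : s ∈ Icc (0 : ℝ) 1
  · have := hC s h
    rw [Pi.pow_apply, Real.norm_of_nonneg (sq_nonneg _)] at this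
    linarith [le_abs_self C]
  · rw [mem_Icc, not_and_or, not_le, not_le] at h
    rcases h with h | h
    · rw [dchi_lt (by linarith)]; linarith [abs_nonneg C]
    · rw [dchi_gt h]; linarith [abs_nonneg C]

/-- Cut-off along the common zero set of `f`. -/
noncomputable def cut (f : κ → (ι → ℂ) → ℂ) (r : ℝ) (z : ι → ℂ) : ℂ := (chi (Qs f z / r ^ 2) : ℝ)

lemma sm_cut {f : κ → (ι → ℂ) → ℂ} (hf : ∀ i, Hol (f i)) (r : ℝ) : Sm (cut f r) :=
  sm_phi (chi_sm.comp ((sm_Qs hf).div_const _))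

lemma norm_cut_le (f : κ → (ι → ℂ) → ℂ) (r : ℝ) (z : ι → ℂ) : ‖cut f r z‖ ≤ 1 := by
  rw [cut, norm_real, Real.norm_of_nonneg (chi_nonneg _)]; exact chi_le_one _

lemma cut_levi {f : κ → (ι → ℂ) → ℂ} (hf : ∀ i, Hol (f i)) {r k : ℝ} (hr : 0 < r) (hk : 0 < k)
    (a : ℂ) (z ξ : ι → ℂ) :
    2 * ‖a * ∑ j, conj (P I j (cut f r) z) * ξ j‖ ≤
      ‖a‖ ^ 2 * (4 / k) * deriv chi (Qs f z / r ^ 2) ^ 2 + k * Levi (ls (r ^ 2) f) z ξ := by
  have h1 : HasDerivAt (fun s => chi (s / r ^ 2)) (deriv chi (Qs f z / r ^ 2) / r ^ 2) (Qs f z) := by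
    have := ((chi_sm.differentiable (by simp)) (Qs f z / r ^ 2)).hasDerivAt.comp (Qs f z)
      ((hasDerivAt_id (Qs f z)).div_const (r ^ 2))
    rw [mul_one_div] at this
    exact this
  have e1 : ∑ j, conj (P I j (cut f r) z) * ξ j = (deriv chi (Qs f z / r ^ 2) / r ^ 2 : ℝ)
      * ∑ i, Dv (f i) z ξ * conj (f i z) := by
    have e : ∀ j, P I j (cut f r) z = _ := fun j =>
      P_comp_real ((sm_Qs hf).differentiable (by simp) z) h1 I j
    simp only [e, P_Qs_I hf, map_mul, conj_ofReal, map_sum, conj_conj, Dv, Finset.sum_mul,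
      Finset.mul_sum]
    rw [Finset.sum_comm]
    exact Finset.sum_congr rfl fun i _ => Finset.sum_congr rfl fun j _ => by ring
  have hL := Levi_ls hf (t := r ^ 2) (by positivity) z ξ
  have hL0 := Levi_ls_nonneg hf (t := r ^ 2) (by positivity) z ξ
  by_cases hq : Qs f z ≤ r ^ 2
  · have hc := cs_Dv hf z ξ
    have hq0 := Qs_nonneg f z
    set S := ∑ i, ‖Dv (f i) z ξ‖ ^ 2
    have hS : 0 ≤ S := by positivity
    have h2 : S / (4 * r ^ 2) ≤ Levi (ls (r ^ 2) f) z ξ := by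
      refine le_trans ?_ hL
      rw [div_le_div_iff₀ (by positivity) (by positivity)]
      have : (Qs f z + r ^ 2) ^ 2 ≤ (2 * r ^ 2) ^ 2 := by gcongr; linarith
      nlinarith
    set A := ‖a‖ ^ 2 * (4 / k) * deriv chi (Qs f z / r ^ 2) ^ 2
    set B := k * Levi (ls (r ^ 2) f) z ξ
    have hA : 0 ≤ A := by positivity
    have hB : 0 ≤ B := by positivity
    have h3 : ‖a * ∑ j, conj (P I j (cut f r) z) * ξ j‖ ^ 2 ≤ A * B := by
      rw [e1, norm_mul, norm_mul, mul_pow, mul_pow, norm_real, Real.norm_eq_abs, sq_abs]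
      calc _ ≤ ‖a‖ ^ 2 * ((deriv chi (Qs f z / r ^ 2) / r ^ 2) ^ 2 * (r ^ 2 * S)) := by
            gcongr; exact hc.trans (by gcongr)
        _ = A * (k * (S / (4 * r ^ 2))) := by simp only [A]; field_simp
        _ ≤ _ := by simp only [B]; gcongr
    exact (abs_le_of_sq_le_sq' (a := 2 * ‖a * ∑ j, conj (P I j (cut f r) z) * ξ j‖) (b := A + B)
        (by nlinarith [sq_nonneg (A - B)]) (by positivity)).2
  · rw [e1, dchi_gt (by rw [lt_div_iff₀ (by positivity)]; linarith)]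
    simp; positivity

end Pool.Agent.Lib.MP_bc3ae6_ag
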