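import Mathlib

set_option autoImplicit false
set_option linter.unusedSectionVars false

/-! Finite covers of affine space: minimal polynomials and a triangular complete intersection. -/

namespace Pool.Agent.Lib.MP_bc3ae6_ag

open MvPolynomial Function
open scoped Polynomial

/-- Polynomial rings. -/
abbrev MP (k : ℕ) : Type := MvPolynomial (Fin k) ℂ

variable {n M : ℕ}

/-- The polynomial map given by `θ`. -/
noncomputable def pr (θ : Fin n → MP M) (x : Fin M → ℂ) : Fin n → ℂ := fun i => eval x (θ i)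

/-- Graph embedding. -/
noncomputable def emb (θ : Fin n → MP M) (x : Fin M → ℂ) : Fin n ⊕ Fin M → ℂ := Sum.elim (pr θ x) x

/-- Pull-back along the graph embedding. -/
noncomputable def pull (θ : Fin n → MP M) : MvPolynomial (Fin n ⊕ Fin M) ℂ →ₐ[ℂ] MP M :=
  aeval (Sum.elim θ X)

/-- Specialisation of the coefficients. -/
noncomputable def sp (Q : (MP n)[X]) (w : Fin n → ℂ) : ℂ[X] := Q.map (eval w)

/-- A polynomial in the variable `l` over the base, as a polynomial on the product. -/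
noncomputable def up (l : Fin M) (Q : (MP n)[X]) : MvPolynomial (Fin n ⊕ Fin M) ℂ :=
  Q.eval₂ (rename Sum.inl).toRingHom (X (Sum.inr l))

lemma ev_aeval {σ τ : Type*} (x : τ → ℂ) (θ : σ → MvPolynomial τ ℂ) (p : MvPolynomial σ ℂ) :
    eval x (aeval θ p) = eval (fun i => eval x (θ i)) p := by
  induction p using MvPolynomial.induction_on with
  | C a => simp
  | add p q hp hq => simp only [map_add, hp, hq]
  | mul_X p i hp => simp only [map_mul, hp, aeval_X, eval_X]

lemma pull_inl (θ : Fin n → MP M) (a : MP n) : pull θ (rename Sum.inl a) = aeval θ a := by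
  rw [pull, aeval_rename]; rfl

lemma pull_inr (θ : Fin n → MP M) (a : MP M) : pull θ (rename Sum.inr a) = a := by
  rw [pull, aeval_rename]
  exact aeval_X_left_apply a

lemma ev_pull (θ : Fin n → MP M) (x : Fin M → ℂ) (p : MvPolynomial (Fin n ⊕ Fin M) ℂ) :
    eval x (pull θ p) = eval (emb θ x) p := by
  rw [pull, ev_aeval]
  congr 2; funext i
  rcases i with i | i <;> simp [emb, pr]

lemma ev_up (l : Fin M) (Q : (MP n)[X]) (ζ : Fin n ⊕ Fin M → ℂ) :
    eval ζ (up l Q) = (sp Q (ζ ∘ Sum.inl)).eval (ζ (Sum.inr l)) := by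
  rw [up, Polynomial.hom_eval₂, sp, Polynomial.eval_map, eval_X]
  congr 1
  ext a <;> simp

lemma mem_Z {I : Ideal (MP M)} {x : Fin M → ℂ} : x ∈ zeroLocus ℂ I ↔ ∀ p ∈ I, eval x p = 0 :=
  Iff.rfl

/-- The data extracted from a finite cover. -/
structure Geo (I : Ideal (MP M)) (θ : Fin n → MP M) (d : ℕ) (F : Fin M → (MP n)[X])
    (h : MvPolynomial (Fin n ⊕ Fin M) ℂ) : Prop where
  prime : I.IsPrime
  mon : ∀ l, (F l).Monic
  deg : ∀ l, (F l).natDegree ≤ d
  root : ∀ x ∈ zeroLocus ℂ I, ∀ l, (sp (F l) (pr θ x)).eval (x l) = 0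
  van : ∀ w z, (∀ l, (sp (F l) w).eval (z l) = 0) → eval (Sum.elim w z) h ≠ 0 →
    z ∈ zeroLocus ℂ I ∧ pr θ z = w
  nzh : pull θ h ∉ I
  nzF : ∀ l, pull θ (up l (F l).derivative) ∉ I
  nrm : ∀ a : MP M, ∃ Q : (MP n)[X], Q.Monic ∧ 0 < Q.natDegree ∧ Q.natDegree ≤ d ∧
    (∀ x ∈ zeroLocus ℂ I, (sp Q (pr θ x)).eval (eval x a) = 0) ∧
    (∀ w t, (sp Q w).eval t = 0 → ∃ q ∈ zeroLocus ℂ I, pr θ q = w ∧ eval q a = t) ∧
    (a ∉ I → Q.coeff 0 ≠ 0)

variable {I : Ideal (MP M)} {θ : Fin n → MP M}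

/-- Evaluation on the coordinate ring. -/
noncomputable def evR {x : Fin M → ℂ} (hx : x ∈ zeroLocus ℂ I) : MP M ⧸ I →+* ℂ :=
  Ideal.Quotient.lift I (eval x) hx

lemma evR_mk {x : Fin M → ℂ} (hx : x ∈ zeroLocus ℂ I) (a : MP M) :
    evR hx (Ideal.Quotient.mk I a) = eval x a := rfl

variable [Algebra (MP n) (MP M ⧸ I)]

variable (I θ) in
/-- Finite injective algebra structure given by `θ`. -/
structure AS : Prop where
  prime : I.IsPrime
  alg : ∀ p, algebraMap (MP n) (MP M ⧸ I) p = Ideal.Quotient.mk I (aeval θ p)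
  fin : Module.Finite (MP n) (MP M ⧸ I)
  inj : Injective (algebraMap (MP n) (MP M ⧸ I))

namespace AS

variable (hA : AS I θ)
include hA

lemma evR_alg {x : Fin M → ℂ} (hx : x ∈ zeroLocus ℂ I) (p : MP n) :
    evR hx (algebraMap (MP n) (MP M ⧸ I) p) = eval (pr θ x) p := by
  rw [hA.alg, evR_mk, ev_aeval]; rfl

lemma evR_aeval {x : Fin M → ℂ} (hx : x ∈ zeroLocus ℂ I) (u : MP M ⧸ I) (Q : (MP n)[X]) :
    evR hx (Polynomial.aeval u Q) = (sp Q (pr θ x)).eval (evR hx u) := by
  rw [Polynomial.aeval_def, Polynomial.hom_eval₂, sp, Polynomial.eval_map]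
  congr 1
  exact RingHom.ext (hA.evR_alg hx)

lemma int (u : MP M ⧸ I) : IsIntegral (MP n) u :=
  have := hA.fin
  IsIntegral.of_finite _ u

lemma tf : Module.IsTorsionFree (MP n) (MP M ⧸ I) :=
  have := hA.prime
  have := (faithfulSMul_iff_algebraMap_injective _ _).2 hA.inj
  inferInstance

lemma root_lift (u : MP M ⧸ I) {w : Fin n → ℂ} {t : ℂ}
    (ht : (sp (minpoly (MP n) u) w).eval t = 0) :
    ∃ q, ∃ hq : q ∈ zeroLocus ℂ I, pr θ q = w ∧ evR hq u = t := by
  have := hA.prime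
  have := hA.fin
  have := hA.tf
  let ψ : (MP n)[X] →+* ℂ := Polynomial.eval₂RingHom (eval w) t
  have hψ : Surjective ψ := fun a => ⟨Polynomial.C (C a), by simp [ψ]⟩
  have hm := RingHom.ker_isMaximal_of_surjective ψ hψ
  let φ : (MP n)[X] →+* MP M ⧸ I := (Polynomial.aeval u).toRingHom
  let : Algebra (MP n)[X] (MP M ⧸ I) := φ.toAlgebra
  have : IsScalarTower (MP n) (MP n)[X] (MP M ⧸ I) :=
    IsScalarTower.of_algebraMap_eq fun a => by
      change _ = Polynomial.aeval u (Polynomial.C a)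
      simp
  have : Algebra.IsIntegral (MP n)[X] (MP M ⧸ I) := ⟨fun y => (hA.int y).tower_top⟩
  obtain ⟨P, hP, hP'⟩ := Ideal.exists_ideal_over_maximal_of_isIntegral (S := MP M ⧸ I)
    (RingHom.ker ψ) (by
      change RingHom.ker φ ≤ _
      rw [minpoly.ker_eval (hA.int u), Ideal.span_singleton_le_iff_mem, RingHom.mem_ker]
      simpa [ψ, sp, Polynomial.eval_map] using ht)
  obtain ⟨q, hq⟩ := isMaximal_iff_eq_vanishingIdeal_singleton.1
    (Ideal.comap_isMaximal_of_surjective (Ideal.Quotient.mk I) Ideal.Quotient.mk_surjective (K := P))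
  have h1 : ∀ a, Ideal.Quotient.mk I a ∈ P → eval q a = 0 := fun a ha =>
    (mem_vanishingIdeal_singleton_iff q a).1 (hq ▸ ha)
  have hqZ : q ∈ zeroLocus ℂ I := fun a ha => h1 a (by
    rw [Ideal.Quotient.eq_zero_iff_mem.2 ha]; exact P.zero_mem)
  have h2 : ∀ Q : (MP n)[X], ψ Q = 0 → evR hqZ (Polynomial.aeval u Q) = 0 := by
    intro Q hQ
    obtain ⟨a, ha⟩ := Ideal.Quotient.mk_surjective (Polynomial.aeval u Q)
    rw [← ha, evR_mk]
    apply h1
    rw [ha]
    have : Q ∈ P.comap (algebraMap (MP n)[X] (MP M ⧸ I)) := hP' ▸ hQ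
    exact this
  refine ⟨q, hqZ, funext fun i => ?_, ?_⟩
  · have := h2 (Polynomial.C (X i - C (w i))) (by simp [ψ])
    rw [hA.evR_aeval] at this
    simpa [sp, sub_eq_zero] using this
  · have := h2 (Polynomial.X - Polynomial.C (C t)) (by simp [ψ])
    rw [hA.evR_aeval] at this
    simpa [sp, sub_eq_zero] using this

lemma coeff_ne {u : MP M ⧸ I} (hu : u ≠ 0) : (minpoly (MP n) u).coeff 0 ≠ 0 := by
  have := hA.prime
  intro h
  obtain ⟨Q, hQ⟩ := Polynomial.X_dvd_iff.2 h
  have h1 := minpoly.aeval (MP n) u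
  have hm := minpoly.monic (hA.int u)
  rw [hQ] at hm
  have hQm : Q.Monic := Polynomial.monic_X.of_mul_monic_left hm
  rw [hQ, map_mul, Polynomial.aeval_X] at h1
  have h2 := Polynomial.natDegree_le_natDegree
    (minpoly.min _ _ hQm ((mul_eq_zero.1 h1).resolve_left hu))
  rw [hQ, Polynomial.natDegree_X_mul hQm.ne_zero] at h2
  omega

lemma deriv_ne (u : MP M ⧸ I) : Polynomial.aeval u (minpoly (MP n) u).derivative ≠ 0 := by
  have := hA.prime
  have := hA.tf
  intro h
  have h1 := minpoly.natDegree_pos (hA.int u)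
  have h2 := Polynomial.natDegree_le_of_dvd (minpoly.isIntegrallyClosed_dvd (hA.int u) h)
    (fun h3 => h1.ne' (Polynomial.derivative_eq_zero.1 h3))
  exact h2.not_gt (Polynomial.natDegree_derivative_lt h1.ne')

lemma mk_up (l : Fin M) (Q : (MP n)[X]) : Ideal.Quotient.mk I (pull θ (up l Q))
    = Polynomial.aeval (Ideal.Quotient.mk I (X l)) Q := by
  have := Polynomial.hom_eval₂ Q (rename Sum.inl).toRingHom
    ((Ideal.Quotient.mk I).comp (pull θ).toRingHom) (X (Sum.inr l))
  refine this.trans ?_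
  rw [Polynomial.aeval_def]
  congr 1
  · refine RingHom.ext fun a => ?_
    rw [hA.alg, ← pull_inl]; rfl
  · simp [pull]

lemma exists_h {F : Fin M → (MP n)[X]} (hF : ∀ l, (F l).Monic)
    (hF' : ∀ l, pull θ (up l (F l)) ∈ I) : ∃ h : MvPolynomial (Fin n ⊕ Fin M) ℂ, pull θ h ∉ I ∧
      ∀ w z, (∀ l, (sp (F l) w).eval (z l) = 0) → eval (Sum.elim w z) h ≠ 0 →
        z ∈ zeroLocus ℂ I ∧ pr θ z = w := by
  classical
  have := hA.prime
  let J : Ideal (MvPolynomial (Fin n ⊕ Fin M) ℂ) := Ideal.span (Set.range fun l => up l (F l))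
  let p : Ideal (MvPolynomial (Fin n ⊕ Fin M) ℂ) := I.comap (pull θ)
  have hp : p.IsPrime := Ideal.comap_isPrime _ _
  have key : ∀ P ∈ J.minimalPrimes, P ≠ p → ∃ a ∈ P, a ∉ p := by
    intro P hP hne
    by_contra hcon
    push Not at hcon
    have hPp : P.IsPrime := hP.1.1
    obtain ⟨x, hx, hx'⟩ := SetLike.exists_of_lt (lt_of_le_of_ne (show P ≤ p from hcon) hne)
    let φ : MP n →+* MvPolynomial (Fin n ⊕ Fin M) ℂ ⧸ P :=
      (Ideal.Quotient.mk P).comp (rename Sum.inl).toRingHom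
    let := φ.toAlgebra
    have hint : ∀ y : MvPolynomial (Fin n ⊕ Fin M) ℂ,
        IsIntegral (MP n) (Ideal.Quotient.mk P y) := by
      intro y
      induction y using MvPolynomial.induction_on with
      | C a =>
        have : Ideal.Quotient.mk P (C a) = algebraMap (MP n) _ (C a) := by
          change _ = φ _; simp [φ]
        rw [this]; exact isIntegral_algebraMap
      | add p q hp hq => rw [map_add]; exact hp.add hq
      | mul_X p i hp =>
        rw [map_mul]
        refine hp.mul ?_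
        rcases i with i | l
        · have : Ideal.Quotient.mk P (X (Sum.inl i)) = algebraMap (MP n) _ (X i) := by
            change _ = φ _; simp [φ]
          rw [this]; exact isIntegral_algebraMap
        · refine ⟨F l, hF l, ?_⟩
          have := Polynomial.hom_eval₂ (F l) (rename Sum.inl).toRingHom
            (Ideal.Quotient.mk P) (X (Sum.inr l))
          refine this.symm.trans (Ideal.Quotient.eq_zero_iff_mem.2 (hP.1.2 ?_))
          exact Ideal.subset_span ⟨l, rfl⟩
    refine Ideal.comap_ne_bot_of_integral_mem (R := MP n) (I := p.map (Ideal.Quotient.mk P))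
      (mt Ideal.Quotient.eq_zero_iff_mem.1 hx') (Ideal.mem_map_of_mem _ hx) (hint x) ?_
    refine eq_bot_iff.2 fun a ha => ?_
    have h1 : rename Sum.inl a ∈ (p.map (Ideal.Quotient.mk P)).comap (Ideal.Quotient.mk P) := ha
    rw [Ideal.comap_map_of_surjective _ Ideal.Quotient.mk_surjective, ← RingHom.ker_eq_comap_bot,
      Ideal.mk_ker, sup_eq_left.2 (show P ≤ p from hcon)] at h1
    have h2 : pull θ (rename Sum.inl a) ∈ I := h1
    apply hA.inj
    rw [hA.alg, map_zero, Ideal.Quotient.eq_zero_iff_mem]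
    rwa [pull_inl] at h2
  choose! a ha ha' using key
  have hfin := J.finite_minimalPrimes_of_isNoetherianRing
  refine ⟨∏ P ∈ hfin.toFinset.erase p, a P, fun h => ?_, fun w z hz h => ?_⟩
  · obtain ⟨P, hP, hP'⟩ := (Ideal.IsPrime.prod_mem_iff (hp := hp)).1 (show _ ∈ p from h)
    rw [Finset.mem_erase, Set.Finite.mem_toFinset] at hP
    exact ha' P hP.2 hP.1 hP'
  · let m := RingHom.ker (eval (Sum.elim w z) : MvPolynomial (Fin n ⊕ Fin M) ℂ →+* ℂ)
    have hm : m.IsPrime := RingHom.ker_isPrime _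
    obtain ⟨P, hP, hPm⟩ := Ideal.exists_minimalPrimes_le (I := J) (J := m) (by
      rw [Ideal.span_le]
      rintro _ ⟨l, rfl⟩
      change MvPolynomial.eval _ _ = 0
      rw [ev_up]; exact hz l)
    by_cases e : P = p
    · subst e
      have h1 : ∀ b, pull θ b ∈ I → eval (Sum.elim w z) b = 0 := fun b hb => hPm hb
      refine ⟨fun b hb => ?_, funext fun i => ?_⟩
      · have := h1 (rename Sum.inr b) (by rwa [pull_inr])
        rwa [eval_rename] at this
      · have := h1 (rename Sum.inr (θ i) - X (Sum.inl i)) (by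
          rw [map_sub, pull_inr]; simp [pull])
        rw [map_sub, eval_rename, sub_eq_zero, eval_X] at this
        exact this
    · refine absurd ?_ h
      rw [map_prod]
      exact Finset.prod_eq_zero (Finset.mem_erase.2 ⟨e, hfin.mem_toFinset.2 hP⟩) (hPm (ha P hP e))

theorem exists_geo : ∃ d F h, Geo I θ d F h := by
  have := hA.fin
  have := hA.prime
  let F : Fin M → (MP n)[X] := fun l => minpoly (MP n) (Ideal.Quotient.mk I (X l))
  have hF : ∀ l, (F l).Monic := fun l => minpoly.monic (hA.int _)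
  obtain ⟨h, h1, h2⟩ := hA.exists_h hF fun l => by
    rw [← Ideal.Quotient.eq_zero_iff_mem, hA.mk_up]; exact minpoly.aeval _ _
  have hr : ∀ (a : MP M), ∀ x ∈ zeroLocus ℂ I,
      (sp (minpoly (MP n) (Ideal.Quotient.mk I a)) (pr θ x)).eval (eval x a) = 0 := by
    intro a x hx
    rw [← evR_mk hx, ← hA.evR_aeval, minpoly.aeval, map_zero]
  refine ⟨_, F, h, hA.prime, hF, fun l => minpoly.natDegree_le_spanFinrank _ _, fun x hx l => ?_,
    h2, h1, fun l => ?_, fun a => ⟨minpoly (MP n) (Ideal.Quotient.mk I a), minpoly.monic (hA.int _),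
      minpoly.natDegree_pos (hA.int _), minpoly.natDegree_le_spanFinrank _ _, hr a,
      fun w t ht => ?_, fun ha => hA.coeff_ne (mt Ideal.Quotient.eq_zero_iff_mem.1 ha)⟩⟩
  · simpa using hr (X l) x hx
  · rw [← Ideal.Quotient.eq_zero_iff_mem, hA.mk_up]; exact hA.deriv_ne _
  · obtain ⟨q, hq, e1, e2⟩ := hA.root_lift _ ht
    exact ⟨q, hq, e1, e2⟩

end AS

end Pool.Agent.Lib.MP_bc3ae6_ag
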