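import Pool.Agent.Lib.MP_bc3ae6_ag.Bas

set_option autoImplicit false
set_option linter.unusedSectionVars false

/-! Uniform sublevel set estimates for linear systems on the cone. -/

namespace Pool.Agent.Lib.MP_bc3ae6_ag

open MvPolynomial Set Metric MeasureTheory Filter Topology
open scoped Polynomial ENNReal NNReal

variable {n M : ℕ} {I : Ideal (MP M)} {θ : Fin n → MP M} {d : ℕ} {F : Fin M → (MP n)[X]}
  {h : MvPolynomial (Fin n ⊕ Fin M) ℂ}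

theorem Geo.good_pt (hG : Geo I θ d F h) {a : MP M} (ha : a ∉ I) :
    ∃ z : Fin n → ℂ, ‖z‖ ≤ 1 ∧ ∀ q ∈ zeroLocus ℂ I, pr θ q = z → eval q a ≠ 0 := by
  obtain ⟨P, h1, h2, -⟩ := hG.exists_nm a
  obtain ⟨z, hz, hz'⟩ := Measure.exists_mem_of_measure_ne_zero_of_ae
    (measure_closedBall_pos volume (0 : Fin n → ℂ) one_pos).ne'
    (ae_restrict_of_ae (ae_poly_ne (h1 ha)))
  refine ⟨z, mem_closedBall_zero_iff.1 hz, ?_⟩
  rintro x hx rfl h0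
  obtain ⟨B, hB⟩ := (hG.compact (isCompact_singleton (x := pr θ x))).exists_bound_of_continuousOn
    (cont_ev a).continuousOn
  have := h2 x hx (max 1 B) (le_max_left _ _) fun q hq e => (hB q ⟨hq, e⟩).trans (le_max_right _ _)
  rw [h0, norm_zero, zero_mul] at this
  exact hz' (norm_le_zero_iff.1 this)

theorem Geo.unif_pt (hG : Geo I θ d F h) {N : ℕ} {s : Fin N → MP M}
    (hs : ∀ a, lc s a ∈ I → a = 0) : ∃ t : ℝ, 0 < t ∧ t ≤ 1 ∧ ∀ a ∈ sphere (0 : Fin N → ℂ) 1,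
      ∃ z : Fin n → ℂ, ‖z‖ ≤ 1 ∧ ∀ q ∈ zeroLocus ℂ I, pr θ q = z → t ≤ ‖eval q (lc s a)‖ := by
  refine (isCompact_sphere (0 : Fin N → ℂ) 1).induction_on (p := fun S => ∃ t : ℝ, 0 < t ∧ t ≤ 1 ∧
    ∀ a ∈ S, ∃ z : Fin n → ℂ, ‖z‖ ≤ 1 ∧ ∀ q ∈ zeroLocus ℂ I, pr θ q = z → t ≤ ‖eval q (lc s a)‖)
    ⟨1, one_pos, le_rfl, by simp⟩ (fun S T hST ⟨t, h1, h2, h3⟩ => ⟨t, h1, h2, fun a ha => h3 a (hST ha)⟩)
    (fun S T ⟨t, h1, h2, h3⟩ ⟨u, h4, _, h5⟩ => ⟨min t u, lt_min h1 h4, min_le_of_left_le h2, ?_⟩)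
    fun a0 ha0 => ?_
  · rintro a (ha | ha)
    · obtain ⟨z, hz, hz'⟩ := h3 a ha
      exact ⟨z, hz, fun q hq e => min_le_of_left_le (hz' q hq e)⟩
    · obtain ⟨z, hz, hz'⟩ := h5 a ha
      exact ⟨z, hz, fun q hq e => min_le_of_right_le (hz' q hq e)⟩
  obtain ⟨z, hz, hz'⟩ := hG.good_pt (a := lc s a0) fun h0 => by simp [hs a0 h0] at ha0
  have hf := hG.ff.fin z
  have e1 : ∀ᶠ t in 𝓝[>] (0 : ℝ), ∀ q ∈ fibr (zeroLocus ℂ I) (pr θ) z, t < ‖eval q (lc s a0)‖ :=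
    (eventually_all_finite hf).2 fun q hq =>
      nhdsWithin_le_nhds (gt_mem_nhds (norm_pos_iff.2 (hz' q hq.1 hq.2)))
  obtain ⟨t, ⟨h1, h2⟩, h3⟩ := ((e1.and (nhdsWithin_le_nhds (gt_mem_nhds one_pos))).and
    self_mem_nhdsWithin).exists
  have e2 : ∀ᶠ a in 𝓝 a0, ∀ q ∈ fibr (zeroLocus ℂ I) (pr θ) z, t < ‖eval q (lc s a)‖ :=
    (eventually_all_finite hf).2 fun q hq =>
      (show Continuous fun a => ‖eval q (lc s a)‖ by simp only [ev_lc]; fun_prop).continuousAt.eventually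
        (lt_mem_nhds (h1 q hq))
  exact ⟨_, nhdsWithin_le_nhds e2, t, h3, le_of_lt h2, fun a ha =>
    ⟨z, hz, fun q hq e => (ha q ⟨hq, e⟩).le⟩⟩

theorem Geo.nm_unif (hG : Geo I θ d F h) : ∃ D1 : ℕ, 0 < D1 ∧ ∀ (m N : ℕ) (s : Fin N → MP M),
    0 < m → (∀ i, (s i).totalDegree ≤ m) → (∀ a, lc s a ∈ I → a = 0) →
    ∃ C t : ℝ, 0 ≤ C ∧ 0 < t ∧ ∀ a : Fin N → ℂ, ‖a‖ = 1 → ∃ P : MP n,
      (∀ w, ‖eval w P‖ ≤ C * (1 + ‖w‖) ^ (D1 * m)) ∧ (∃ z, ‖z‖ ≤ 1 ∧ t ≤ ‖eval z P‖) ∧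
      (∀ x ∈ zeroLocus ℂ I, ∀ B : ℝ, 1 ≤ B →
        (∀ q ∈ zeroLocus ℂ I, pr θ q = pr θ x → ‖eval q (lc s a)‖ ≤ B) →
        ‖eval (pr θ x) P‖ ≤ ‖eval x (lc s a)‖ * B ^ d) ∧
      ∀ w (t : ℝ), 0 ≤ t → t ≤ 1 → (∀ q ∈ zeroLocus ℂ I, pr θ q = w → t ≤ ‖eval q (lc s a)‖) →
        t ^ d ≤ ‖eval w P‖ := by
  obtain ⟨C0, D0, hC0, hg⟩ := hG.growth
  refine ⟨(D0 + 1) * (d + 1), by positivity, fun m N s _ hd hs => ?_⟩
  obtain ⟨t, ht, ht1, hu⟩ := hG.unif_pt hs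
  choose C hC hC' using fun j => poly_growth (s j) (hd j)
  have h0 : 0 ≤ ∑ j, C j := Finset.sum_nonneg fun j _ => hC j
  refine ⟨((∑ j, C j + 1) * (1 + C0) ^ m) ^ (d + 1), t ^ d, by positivity, by positivity,
    fun a ha => ?_⟩
  obtain ⟨P, -, h1, h2⟩ := hG.exists_nm (lc s a)
  obtain ⟨z, hz, hz'⟩ := hu a (mem_sphere_zero_iff_norm.2 ha)
  refine ⟨P, fun w => ?_, ⟨z, hz, h2 z t ht.le ht1 hz'⟩, h1, h2⟩
  obtain ⟨x, hx, rfl⟩ := hG.surj w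
  have hw : 1 ≤ 1 + ‖pr θ x‖ := le_add_of_nonneg_right (norm_nonneg _)
  have hw' : 1 ≤ (1 + ‖pr θ x‖) ^ D0 := one_le_pow₀ hw
  have key : ∀ q ∈ zeroLocus ℂ I, pr θ q = pr θ x → ‖eval q (lc s a)‖ ≤
      (∑ j, C j + 1) * ((1 + C0) * (1 + ‖pr θ x‖) ^ D0) ^ m := fun q hq e => by
    have h3 := hg _ q (hG.root q hq)
    rw [e] at h3
    rw [ev_lc]
    calc _ ≤ ∑ j, C j * (1 + ‖q‖) ^ m := norm_sum_le_of_le _ fun j _ => by
          rw [norm_mul]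
          exact (mul_le_of_le_one_left (norm_nonneg _) (ha ▸ norm_le_pi_norm a j)).trans (hC' j q)
      _ ≤ _ := by
          rw [← Finset.sum_mul]
          gcongr
          · linarith
          · linarith
  have hB : 1 ≤ (∑ j, C j + 1) * ((1 + C0) * (1 + ‖pr θ x‖) ^ D0) ^ m :=
    one_le_mul_of_one_le_of_one_le (by linarith)
      (one_le_pow₀ (one_le_mul_of_one_le_of_one_le (by linarith) hw'))
  refine (h1 x hx _ hB key).trans ((mul_le_mul_of_nonneg_right (key x hx rfl)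
    (by positivity)).trans ?_)
  rw [← pow_succ', mul_pow (1 + C0), ← mul_assoc, mul_pow _ _ (d + 1), ← pow_mul, ← pow_mul]
  exact mul_le_mul_of_nonneg_left (pow_le_pow_right₀ hw (by nlinarith [Nat.zero_le (m * (d + 1))]))
    (by positivity)

theorem Geo.alpha (hG : Geo I θ d F h) : ∃ D1 : ℕ, 0 < D1 ∧ ∀ (m N : ℕ) (s : Fin N → MP M),
    0 < m → (∀ i, (s i).totalDegree ≤ m) → (∀ a, lc s a ∈ I → a = 0) →
    ∀ (ν : Measure (Fin M → ℂ)) (η ρ : ℝ), 0 < η → HP I θ ν η ρ → ∃ C : ℝ≥0∞, C < ⊤ ∧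
      ∀ a : Fin N → ℂ, ‖a‖ = 1 → ∀ δ : ℝ, 0 < δ →
        ν {y | ‖eval y (lc s a)‖ ≤ δ} ≤ C * ENNReal.ofReal (δ ^ (η / (D1 * m))) := by
  obtain ⟨D1, hD1, h1⟩ := hG.nm_unif
  refine ⟨D1, hD1, fun m N s hm hd hs ν η ρ hη hν => ?_⟩
  obtain ⟨C, t, -, ht, h2⟩ := h1 m N s hm hd hs
  obtain ⟨C1, hC1, h3⟩ := sub_unif (ι := Fin n) C (Nat.mul_pos hD1 hm) ht
    (ρ := max ρ 1) (by positivity)
  obtain ⟨C2, hC2, h4⟩ := hν.le
  obtain ⟨R, hR⟩ := (hG.compact_Sh ρ).isBounded.exists_norm_le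
  obtain ⟨L, -, h5⟩ := lip_lc s R
  have hB : 0 < max 1 L ^ d := by positivity
  refine ⟨C2 * C1 ^ η * ENNReal.ofReal ((max 1 L ^ d) ^ (η / (D1 * m))), ENNReal.mul_lt_top
    (ENNReal.mul_lt_top hC2 (ENNReal.rpow_lt_top_of_nonneg hη.le hC1.ne)) ENNReal.ofReal_lt_top,
    fun a ha δ hδ => ?_⟩
  obtain ⟨P, h6, ⟨z, hz, hz'⟩, h7, -⟩ := h2 a ha
  have h8 := h3 _ (diff_ev P) h6 ⟨z, le_max_of_le_right hz, hz'⟩ (δ * max 1 L ^ d) (by positivity)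
  calc _ ≤ ν (pr θ ⁻¹' {w ∈ closedBall (0 : Fin n → ℂ) (max ρ 1) |
          ‖eval w P‖ ≤ δ * max 1 L ^ d}) := by
        refine measure_mono_ae (hν.ae.mono fun y hy hy' => ⟨mem_closedBall_zero_iff.2
          (le_max_of_le_left hy.2.2), (h7 y hy.1 _ (le_max_left 1 L) fun q hq e => ?_).trans
            (mul_le_mul_of_nonneg_right hy' hB.le)⟩)
        refine le_max_of_le_right ((h5 a fun j => ha ▸ norm_le_pi_norm a j).1 q (hR q ⟨hq, ?_⟩))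
        simpa only [Sh, mem_ofPred_eq, e] using hy.2
    _ ≤ C2 * (C1 * ENNReal.ofReal ((δ * max 1 L ^ d) ^ (1 / (D1 * m : ℕ) : ℝ))) ^ η :=
        (h4 _ (measurableSet_closedBall.inter
          (measurableSet_le (cont_ev P).norm.measurable measurable_const))).trans (by gcongr; exact h8)
    _ = _ := by
        rw [ENNReal.mul_rpow_of_nonneg _ _ hη.le, ENNReal.ofReal_rpow_of_nonneg (by positivity) hη.le,
          ← Real.rpow_mul (by positivity), one_div_mul_eq_div, Real.mul_rpow hδ.le hB.le,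
          ENNReal.ofReal_mul (by positivity), Nat.cast_mul]
        ring

theorem Geo.lb (hG : Geo I θ d F h) {N : ℕ} {s : Fin N → MP M} (hs : ∀ a, lc s a ∈ I → a = 0) :
    ∃ c : ℝ, 0 < c ∧ ∀ a : Fin N → ℂ, ∃ x ∈ zeroLocus ℂ I, ‖pr θ x‖ ≤ 1 ∧
      c * ‖a‖ ≤ ‖eval x (lc s a)‖ := by
  obtain ⟨t, ht, -, hu⟩ := hG.unif_pt hs
  refine ⟨t, ht, fun a => ?_⟩
  rcases eq_or_ne a 0 with rfl | ha
  · obtain ⟨x, hx, e⟩ := hG.surj 0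
    exact ⟨x, hx, by simp [e], by simp⟩
  have h0 := norm_pos_iff.2 ha
  obtain ⟨z, hz, hz'⟩ := hu (((‖a‖⁻¹ : ℝ) : ℂ) • a) (by simp [norm_smul, h0.ne'])
  obtain ⟨x, hx, rfl⟩ := hG.surj z
  refine ⟨x, hx, hz, ?_⟩
  have h1 := hz' x hx rfl
  rw [show eval x (lc s (((‖a‖⁻¹ : ℝ) : ℂ) • a)) = ((‖a‖⁻¹ : ℝ) : ℂ) * eval x (lc s a) by
    simp [ev_lc, Finset.mul_sum, mul_assoc], norm_mul, Complex.norm_real,
    Real.norm_of_nonneg (by positivity), le_inv_mul_iff₀ h0] at h1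
  linarith

/-- a fixed polynomial not in `I` has a locally integrable negative power -/
theorem Geo.neg_int (hG : Geo I θ d F h) {a : MP M} (ha : a ∉ I) {η : ℝ} (hη : 0 < η) :
    ∃ x0 : ℝ, 0 < x0 ∧ ∀ (ν : Measure (Fin M → ℂ)) [IsFiniteMeasure ν] (ρ : ℝ), HP I θ ν η ρ →
      ∀ x : ℝ, 0 ≤ x → x ≤ x0 → ∫⁻ y, ‖eval y a‖ₑ ^ (-x) ∂ν < ⊤ := by
  obtain ⟨D1, hD1, h1⟩ := hG.alpha
  have hp : 0 < η / (D1 * (a.totalDegree + 1 : ℕ)) := by positivity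
  refine ⟨_, half_pos hp, fun ν _ ρ hν x hx hx' => ?_⟩
  rcases hx.eq_or_lt with rfl | hx
  · simp
  obtain ⟨C, hC, h2⟩ := h1 (a.totalDegree + 1) 1 (fun _ => a) (Nat.succ_pos _)
    (fun _ => Nat.le_succ _) (fun b hb => by
      funext j
      by_contra h0
      rw [lc, Fin.sum_univ_one, Subsingleton.elim 0 j] at hb
      have := I.mul_mem_left (C (b j)⁻¹) hb
      rw [← mul_assoc, ← map_mul, inv_mul_cancel₀ h0, map_one, one_mul] at this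
      exact ha this) ν η ρ hη hν
  obtain ⟨G, hG', h3⟩ := lint_neg_le hx (hx'.trans_lt (half_lt_self hp))
  refine (h3 ν _ 1 C (cont_ev a).measurable one_pos (fun τ hτ => ?_) hC).trans_lt
    (ENNReal.mul_lt_top ENNReal.ofReal_lt_top
      (ENNReal.add_lt_top.2 ⟨measure_lt_top _ _, ENNReal.mul_lt_top hC hG'⟩))
  simpa only [ev_lc, Fin.sum_univ_one, one_mul, div_one] using h2 (fun _ => 1) (by simp) τ hτ

end Pool.Agent.Lib.MP_bc3ae6_ag
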