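import Pool.Agent.Lib.MP_bc3ae6_ag.DK1

set_option autoImplicit false
set_option linter.unusedSectionVars false

/-! Bases of graded pieces, and measures dominated by a power of the volume downstairs. -/

namespace Pool.Agent.Lib.MP_bc3ae6_ag

open MvPolynomial Set Metric MeasureTheory Filter Topology
open scoped Polynomial ENNReal

variable {n M : ℕ}

/-- `s` is a basis of the degree `m` part of the quotient by `I`. -/
structure Bas (I : Ideal (MP M)) (wt : Fin M → ℕ) (m : ℕ) {N : ℕ} (s : Fin N → MP M) : Prop where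
  hom : ∀ i, (s i).IsWeightedHomogeneous wt m
  li : ∀ a, lc s a ∈ I → a = 0
  sp : ∀ p : MP M, p.IsWeightedHomogeneous wt m → ∃ a, p - lc s a ∈ I

/-- `ν` lives on a shell of the cone and is dominated by a power of the volume downstairs. -/
structure HP (I : Ideal (MP M)) (θ : Fin n → MP M) (ν : Measure (Fin M → ℂ)) (η ρ : ℝ) : Prop where
  pos : 0 < ρ
  ae : ∀ᵐ y ∂ν, y ∈ zeroLocus ℂ I ∩ Sh θ ρ
  le : ∃ C : ℝ≥0∞, C < ⊤ ∧ ∀ U : Set (Fin n → ℂ), MeasurableSet U →
    ν (pr θ ⁻¹' U) ≤ C * volume U ^ η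

lemma hom_lc {wt : Fin M → ℕ} {m N : ℕ} {s : Fin N → MP M}
    (h : ∀ i, (s i).IsWeightedHomogeneous wt m) (a : Fin N → ℂ) :
    (lc s a).IsWeightedHomogeneous wt m :=
  IsWeightedHomogeneous.sum _ _ _ fun i _ => by
    simpa using (isWeightedHomogeneous_C wt (a i)).mul (h i)

end Pool.Agent.Lib.MP_bc3ae6_ag
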