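import Pool.Agent.Lib.MP_bc3ae6_ag.Bas

set_option autoImplicit false
set_option linter.unusedSectionVars false

/-! Linear algebra of bases modulo an ideal, and one order-theoretic glue lemma. -/

namespace Pool.Agent.Lib.MP_bc3ae6_ag

open MvPolynomial Set Metric MeasureTheory Filter Topology
open scoped Polynomial ENNReal NNReal

variable {n M : ℕ} {I : Ideal (MP M)} {θ : Fin n → MP M} {d : ℕ} {F : Fin M → (MP n)[X]}
  {h : MvPolynomial (Fin n ⊕ Fin M) ℂ}

variable {wt : Fin M → ℕ} {m N : ℕ} {s : Fin N → MP M}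

namespace BasL

lemma mk_lc (s : Fin N → MP M) (a : Fin N → ℂ) :
    Ideal.Quotient.mk I (lc s a) = ∑ j, a j • Ideal.Quotient.mk I (s j) := by
  unfold lc
  rw [map_sum]
  refine Finset.sum_congr rfl fun j _ => ?_
  rw [← smul_eq_C_mul]
  rfl

lemma lc_lc (s : Fin N → MP M) (A : Matrix (Fin N) (Fin N) ℂ) (b : Fin N → ℂ) :
    lc (fun i => lc s (A i)) b = lc s (Matrix.vecMul b A) := by
  unfold lc
  simp only [Matrix.vecMul, dotProduct, map_sum, map_mul, Finset.mul_sum, Finset.sum_mul,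
    mul_assoc]
  exact Finset.sum_comm

lemma lc_zero (s : Fin N → MP M) : lc s 0 = 0 := by simp [lc]

lemma lc_single (s : Fin N → MP M) (i : Fin N) (τ : ℂ) : lc s (Pi.single i τ) = C τ * s i := by
  unfold lc
  rw [Finset.sum_eq_single i]
  · simp
  · intro j _ hj
    simp [hj]
  · simp

lemma lc_sub_mem {t t' : Fin N → MP M} (h : ∀ k, t k - t' k ∈ I) (b : Fin N → ℂ) :
    lc t b - lc t' b ∈ I := by
  unfold lc
  rw [← Finset.sum_sub_distrib]
  refine Ideal.sum_mem _ fun j _ => ?_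
  rw [← mul_sub]
  exact Ideal.mul_mem_left _ _ (h j)

lemma bas_congr {t t' : Fin N → MP M} (ht : Bas I wt m t) (h : ∀ k, t k - t' k ∈ I)
    (h' : ∀ k, (t' k).IsWeightedHomogeneous wt m) : Bas I wt m t' := by
  refine ⟨h', fun a ha => ht.li a ?_, fun p hp => ?_⟩
  · simpa using I.add_mem (lc_sub_mem h a) ha
  · obtain ⟨a, ha⟩ := ht.sp p hp
    exact ⟨a, by simpa using I.add_mem ha (lc_sub_mem h a)⟩

lemma bas_mat (hs : Bas I wt m s) (A : Matrix (Fin N) (Fin N) ℂ) (hA : A.det ≠ 0) :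
    Bas I wt m fun i => lc s (A i) := by
  refine ⟨fun i => hom_lc hs.hom _, fun b hb => ?_, fun p hp => ?_⟩
  · rw [lc_lc] at hb
    exact Matrix.eq_zero_of_vecMul_eq_zero hA (hs.li _ hb)
  · obtain ⟨a, ha⟩ := hs.sp p hp
    refine ⟨Matrix.vecMul a A⁻¹, ?_⟩
    rwa [lc_lc, Matrix.vecMul_vecMul, Matrix.nonsing_inv_mul _ (Ne.isUnit hA), Matrix.vecMul_one]

end BasL

open BasL

theorem bas_iff : Bas I wt m s ↔ (∀ i, (s i).IsWeightedHomogeneous wt m) ∧
    LinearIndependent ℂ (fun i => Ideal.Quotient.mk I (s i)) ∧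
    ∀ p : MP M, p.IsWeightedHomogeneous wt m →
      Ideal.Quotient.mk I p ∈ Submodule.span ℂ (range fun i => Ideal.Quotient.mk I (s i)) := by
  constructor
  · intro hs
    refine ⟨hs.hom, Fintype.linearIndependent_iff.2 fun a ha i => ?_, fun p hp => ?_⟩
    · rw [← mk_lc, Ideal.Quotient.eq_zero_iff_mem] at ha
      rw [hs.li a ha]
      rfl
    · obtain ⟨a, ha⟩ := hs.sp p hp
      rw [Submodule.mem_span_range_iff_exists_fun]
      refine ⟨a, ?_⟩
      rw [← mk_lc]
      exact (Ideal.Quotient.eq.2 ha).symm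
  · rintro ⟨h1, h2, h3⟩
    refine ⟨h1, fun a ha => ?_, fun p hp => ?_⟩
    · rw [← Ideal.Quotient.eq_zero_iff_mem, mk_lc] at ha
      exact funext (Fintype.linearIndependent_iff.1 h2 a ha)
    · obtain ⟨a, ha⟩ := (Submodule.mem_span_range_iff_exists_fun ℂ).1 (h3 p hp)
      rw [← mk_lc] at ha
      exact ⟨a, Ideal.Quotient.eq.1 ha.symm⟩

theorem Bas.orth (hs : Bas I wt m s) {a : Fin N → Fin N → ℂ}
    (ha : ∀ i j, star (a i) ⬝ᵥ a j = if i = j then 1 else 0) :
    Bas I wt m fun i => lc s (a i) := by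
  refine bas_mat hs (Matrix.of a) ?_
  have h1 : (Matrix.of fun i => star (a i)) * (Matrix.of a).transpose = 1 := by
    ext i j
    rw [Matrix.one_apply, ← ha i j]
    rfl
  intro h0
  have h2 := congrArg Matrix.det h1
  rw [Matrix.det_mul, Matrix.det_transpose, h0, mul_zero, Matrix.det_one] at h2
  exact zero_ne_one h2

theorem Bas.smul (hs : Bas I wt m s) {τ : ℂ} (hτ : τ ≠ 0) : Bas I wt m fun i => C τ * s i := by
  have h1 := bas_mat hs (Matrix.diagonal fun _ => τ) (by
    rw [Matrix.det_diagonal]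
    exact Finset.prod_ne_zero_iff.2 fun _ _ => hτ)
  have h2 : ∀ i, lc s ((Matrix.diagonal fun _ : Fin N => τ) i) = C τ * s i := fun i => by
    rw [← lc_single]
    congr 1
    funext j
    by_cases hj : j = i
    · subst hj
      simp
    · simp [hj, Matrix.diagonal_apply_ne' _ hj]
  simpa only [h2] using h1

theorem Bas.update (hs : Bas I wt m s) {g : MP M} (hg : g.IsWeightedHomogeneous wt m) (hg' : g ∉ I) :
    ∃ i, Bas I wt m (Function.update s i g) := by
  obtain ⟨a, ha⟩ := hs.sp g hg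
  have ha0 : a ≠ 0 := by
    rintro rfl
    rw [lc_zero, sub_zero] at ha
    exact hg' ha
  obtain ⟨i, hi⟩ := Function.ne_iff.1 ha0
  have hdet : ((1 : Matrix (Fin N) (Fin N) ℂ).updateRow i a).det ≠ 0 := by
    have h1 : a = ∑ k, a k • (1 : Matrix (Fin N) (Fin N) ℂ) k := by
      funext j
      simp [Finset.sum_apply, Matrix.one_apply]
    rw [h1, Matrix.det_updateRow_sum, Matrix.det_one, smul_eq_mul, mul_one]
    exact hi
  refine ⟨i, bas_congr (bas_mat hs _ hdet) (fun k => ?_) fun k => ?_⟩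
  · by_cases hk : k = i
    · subst hk
      rw [Matrix.updateRow_self, Function.update_self]
      simpa using I.neg_mem ha
    · rw [Matrix.updateRow_ne hk, Function.update_of_ne hk]
      have h2 : (1 : Matrix (Fin N) (Fin N) ℂ) k = Pi.single k 1 := by
        funext j
        simp [Matrix.one_apply, Pi.single_apply, eq_comm]
      rw [h2, lc_single]
      simp
  · by_cases hk : k = i
    · subst hk
      rwa [Function.update_self]
    · rw [Function.update_of_ne hk]
      exact hs.hom k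

theorem Bas.det (hs : Bas I wt m s) {t : Fin N → MP M} (ht : Bas I wt m t) :
    ∃ c : ℂ, c ≠ 0 ∧ ∀ x : Fin N → Fin M → ℂ, (∀ j, x j ∈ zeroLocus ℂ I) →
      (Matrix.of fun i j => eval (x j) (t i)).det = c * (Matrix.of fun i j => eval (x j) (s i)).det := by
  choose A hA using fun i => hs.sp (t i) (ht.hom i)
  refine ⟨(Matrix.of A).det, fun h0 => ?_, fun x hx => ?_⟩
  · obtain ⟨b, hb0, hb⟩ := Matrix.exists_vecMul_eq_zero_iff.2 h0
    have h1 := lc_sub_mem (t' := fun i => lc s (Matrix.of A i)) hA b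
    rw [lc_lc, hb, lc_zero, sub_zero] at h1
    exact hb0 (ht.li b h1)
  · rw [← Matrix.det_mul]
    congr 1
    ext i j
    have h1 : eval (x j) (t i - lc s (A i)) = 0 := (mem_zeroLocus_iff.1 (hx j)) _ (hA i)
    rw [map_sub, sub_eq_zero, ev_lc] at h1
    simpa [Matrix.mul_apply] using h1

theorem compact_orth (N : ℕ) : IsCompact {a : Fin N → Fin N → ℂ |
    ∀ i j, star (a i) ⬝ᵥ a j = if i = j then 1 else 0} := by
  refine (isCompact_closedBall (0 : Fin N → Fin N → ℂ) 1).of_isClosed_subset ?_ ?_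
  · simp only [ofPred_forall]
    refine isClosed_iInter fun i => isClosed_iInter fun j => isClosed_eq ?_ continuous_const
    simp only [dotProduct, Pi.star_apply]
    fun_prop
  · intro a ha
    rw [mem_closedBall_zero_iff, pi_norm_le_iff_of_nonneg zero_le_one]
    intro i
    rw [pi_norm_le_iff_of_nonneg zero_le_one]
    intro j
    have h1 : star (a i) ⬝ᵥ a i = 1 := by simpa using ha i i
    have h2 : ∑ k, ‖a i k‖ ^ 2 = 1 := by
      have h3 : ((∑ k, ‖a i k‖ ^ 2 : ℝ) : ℂ) = star (a i) ⬝ᵥ a i := by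
        simp only [dotProduct, Pi.star_apply, Complex.star_def, Complex.conj_mul']
        push_cast
        rfl
      rw [h1] at h3
      exact_mod_cast h3
    have h4 : ‖a i j‖ ^ 2 ≤ ∑ k, ‖a i k‖ ^ 2 :=
      Finset.single_le_sum (f := fun k => ‖a i k‖ ^ 2) (fun k _ => sq_nonneg _) (Finset.mem_univ j)
    rw [h2] at h4
    nlinarith [norm_nonneg (a i j)]

theorem lim_glue {u v : ℕ → ℝ≥0∞} (h1 : ∀ᶠ m in atTop, u m ≤ v m)
    (h2 : ∀ c c' : ℝ≥0, 0 < c → c < c' → ∀ᶠ m in atTop, (c' : ℝ≥0∞) ≤ v m → (c : ℝ≥0∞) ≤ u m) :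
    liminf u atTop = liminf v atTop ∧ limsup u atTop = limsup v atTop := by
  constructor
  · refine le_antisymm (liminf_le_liminf h1) (le_of_forall_lt_imp_le_of_dense fun c hc => ?_)
    rcases eq_or_ne c 0 with rfl | hc0
    · exact zero_le
    lift c to ℝ≥0 using hc.ne_top
    obtain ⟨c', h3, h4⟩ := ENNReal.lt_iff_exists_nnreal_btwn.1 hc
    refine le_liminf_of_le (by isBoundedDefault) ?_
    filter_upwards [h2 c c' (by simpa [pos_iff_ne_zero] using hc0) (by exact_mod_cast h3),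
      eventually_lt_of_lt_liminf h4] with k h5 h6
    exact h5 h6.le
  · refine le_antisymm (limsup_le_limsup h1) (le_of_forall_lt_imp_le_of_dense fun c hc => ?_)
    rcases eq_or_ne c 0 with rfl | hc0
    · exact zero_le
    lift c to ℝ≥0 using hc.ne_top
    obtain ⟨c', h3, h4⟩ := ENNReal.lt_iff_exists_nnreal_btwn.1 hc
    refine le_limsup_of_frequently_le ?_
    refine ((frequently_lt_of_lt_limsup (by isBoundedDefault) h4).and_eventually
      (h2 c c' (by simpa [pos_iff_ne_zero] using hc0) (by exact_mod_cast h3))).mono ?_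
    rintro k ⟨h6, h5⟩
    exact h5 h6.le

end Pool.Agent.Lib.MP_bc3ae6_ag
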