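import Pool.Agent.Lib.MP_bc3ae6_ag.DK3

set_option autoImplicit false
set_option linter.unusedSectionVars false

/-! Uniform semicontinuity of integrability. -/

namespace Pool.Agent.Lib.MP_bc3ae6_ag

open MvPolynomial Set Metric MeasureTheory Filter Topology
open scoped Polynomial ENNReal NNReal ComplexConjugate

variable {n M : ℕ} {I : Ideal (MP M)} {θ : Fin n → MP M} {d : ℕ} {F : Fin M → (MP n)[X]}
  {h : MvPolynomial (Fin n ⊕ Fin M) ℂ}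

lemma exists_w {C η : ℝ≥0∞} (hC : C < ⊤) (hη : 0 < η) {κ : ℝ} (hκ : 0 < κ) :
    ∃ w : ℝ, 0 < w ∧ w ≤ 1 ∧ C * ENNReal.ofReal ((w ^ 2) ^ κ) ≤ η := by
  have h0 : Tendsto (fun w : ℝ => (w ^ 2) ^ κ) (𝓝 0) (𝓝 ((0 ^ 2) ^ κ)) :=
    ((continuous_pow 2).tendsto 0).rpow_const (Or.inr hκ.le)
  have h1 := ENNReal.Tendsto.const_mul (a := C) (ENNReal.tendsto_ofReal h0) (Or.inr hC.ne)
  rw [zero_pow two_ne_zero, Real.zero_rpow hκ.ne', ENNReal.ofReal_zero, mul_zero] at h1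
  obtain ⟨w, ⟨h2, h3⟩, h4⟩ := ((((h1.eventually (ge_mem_nhds hη)).and
    (ge_mem_nhds one_pos)).filter_mono (nhdsWithin_le_nhds (s := Ioi 0))).and
      self_mem_nhdsWithin).exists
  exact ⟨w, h4, h3, h2⟩

lemma meas_reg (b : MP M) (ε c : ℝ) :
    Measurable fun x => ENNReal.ofReal ((‖eval x b‖ ^ 2 + ε) ^ c) :=
  ((((cont_ev b).norm.measurable.pow_const 2).add_const _).pow_const _).ennreal_ofReal

lemma g_le {b : MP M} {A : ℕ} {K c0 κ w B : ℝ} (hK : 0 ≤ K) (hκ : κ ≤ c0) (hc0 : 0 ≤ c0)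
    (hw : 0 < w) (hw1 : w ≤ 1) {x : Fin M → ℂ} {g : ℂ} (h1 : ‖g‖ ≤ ‖pr θ x‖ ^ A)
    (h2 : w ≤ ‖eval x b‖ → g = 0) (hB : nsq (emb θ x) ≤ B) :
    ‖g‖ₑ ^ 2 ≤ ENNReal.ofReal ((B + 1) ^ K * 2 ^ c0) * ENNReal.ofReal ((w ^ 2) ^ κ) *
      (ENNReal.ofReal ((‖eval x b‖ ^ 2 + w ^ 2) ^ (-c0)) * ENNReal.ofReal (gw θ A K x)) := by
  by_cases hx : w ≤ ‖eval x b‖
  · simp [h2 hx]
  have a1 := nsq_nonneg (emb θ x)
  have a2 : 0 < w ^ 2 := by positivity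
  have a3 : 0 < B + 1 := by linarith
  rw [enorm_sq, ← ENNReal.ofReal_mul (by positivity), ← ENNReal.ofReal_mul (by positivity),
    ← ENNReal.ofReal_mul (by positivity)]
  refine ENNReal.ofReal_le_ofReal ?_
  have b1 : (2 * w ^ 2) ^ (-c0) ≤ (‖eval x b‖ ^ 2 + w ^ 2) ^ (-c0) :=
    Real.rpow_le_rpow_of_nonpos (by positivity)
      (by nlinarith [norm_nonneg (eval x b), not_le.1 hx]) (by linarith)
  have b2 : (B + 1) ^ (-K) ≤ (nsq (emb θ x) + 1) ^ (-K) :=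
    Real.rpow_le_rpow_of_nonpos (by positivity) (by linarith) (by linarith)
  have b3 : (w ^ 2) ^ c0 ≤ (w ^ 2) ^ κ :=
    Real.rpow_le_rpow_of_exponent_ge a2 (pow_le_one₀ hw.le hw1) hκ
  calc ‖g‖ ^ 2 ≤ ‖pr θ x‖ ^ (2 * A) := by rw [pow_mul']; gcongr
    _ = (B + 1) ^ K * 2 ^ c0 * (w ^ 2) ^ c0 * ((2 * w ^ 2) ^ (-c0) *
        (‖pr θ x‖ ^ (2 * A) * (B + 1) ^ (-K))) := by
        rw [Real.mul_rpow zero_le_two a2.le, Real.rpow_neg a3.le, Real.rpow_neg a2.le,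
          Real.rpow_neg zero_le_two]
        field_simp
    _ ≤ _ := by unfold gw; gcongr

lemma one_le_dist {t : ℝ} (ht : 0 < t) {g u : ℂ} (hg : t ≤ ‖g‖)
    (hu : ‖u‖ₑ ^ 2 ≤ ENNReal.ofReal ((t / 2) ^ 2)) :
    1 ≤ ENNReal.ofReal ((t / 2)⁻¹ ^ 2) * ‖g - u‖ₑ ^ 2 := by
  rw [enorm_sq, ENNReal.ofReal_le_ofReal_iff (by positivity),
    pow_le_pow_iff_left₀ (norm_nonneg _) (by positivity) two_ne_zero] at hu
  rw [enorm_sq, ← ENNReal.ofReal_mul (by positivity), ENNReal.one_le_ofReal, ← mul_pow]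
  refine one_le_pow₀ ?_
  rw [← div_eq_inv_mul, one_le_div (by positivity)]
  linarith [norm_sub_norm_le g u]

namespace Geo

variable (hG : Geo I θ d F h) {f : MP M} (hf : f ∉ I) {s : ℝ}
include hG hf

lemma dk_C0 (hN : NB I θ f s) {c κ K : ℝ} (hc : 0 ≤ c) (hκ : 0 < κ) (hK : 0 ≤ K) (A K' : ℕ)
    {ρ B : ℝ} (hρ : 0 < ρ) (hB0 : 0 ≤ B) (hfin : ∀ ρ' > 0, mu I θ f s (Sh θ ρ') < ⊤)
    {J0 C1 η : ℝ≥0∞} (hJ : J0 < ⊤) (hC1 : C1 < ⊤) (hη : 0 < η) : ∃ w : ℝ, 0 < w ∧ w ≤ 1 ∧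
      ∀ (b : MP M) (ε R : ℝ) a (g : (Fin M → ℂ) → ℂ), 0 < ε → ε ≤ 1 → 1 ≤ R → Continuous g →
      (∀ x ∈ zeroLocus ℂ I ∩ Sh θ ρ, ‖eval x b‖ ^ 2 ≤ B ∧ nsq (emb θ x) ≤ B) →
      (∀ x, ‖g x‖ ≤ ‖pr θ x‖ ^ A) → (∀ x, w ≤ ‖eval x b‖ → g x = 0) →
      ∫⁻ x, ENNReal.ofReal ((‖eval x b‖ ^ 2 + w ^ 2) ^ (-(c + 2 * κ))) *
        ENNReal.ofReal (gw θ A K x) ∂(mu I θ f s) ≤ J0 →
      ∫⁻ x, ‖g x - pc (uq θ F h K') x a‖ₑ ^ 2 * ⨆ k, ENNReal.ofReal (dw θ b f c κ s K w ε R k x)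
        ∂(lam I θ) ≤ C1 * ENNReal.ofReal ((w ^ 2) ^ κ) →
      ∀ᵐ x ∂(mu I θ f s).restrict (Sh θ ρ), ‖pc (uq θ F h K') x a‖ₑ ^ 2 ≤ η := by
  obtain ⟨CF, hCF, h1⟩ := hG.fd_shell hN K' hρ
  obtain ⟨w, hw, hw1, h2⟩ := exists_w (C := CF * (2 * (ENNReal.ofReal ((B + 1) ^ c) *
    (ENNReal.ofReal ((B + 1) ^ (κ + K + 1)) * C1)) +
      2 * (ENNReal.ofReal ((B + 1) ^ K * 2 ^ (c + 2 * κ)) * J0))) (by finiteness) hη hκ
  refine ⟨w, hw, hw1, fun b ε R a g hε hε1 hR hg hB g1 g2 hJ' hΦ => ?_⟩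
  have mu' : Measurable fun x => pc (uq θ F h K') x a := meas_pc (meas_uq K') a
  have h3 : a ∈ shS θ (mu I θ f s) (meas_uq (θ := θ) (F := F) (h := h) K') := fun ρ' hρ' => by
    obtain ⟨B', hB1, hB2⟩ := hG.exists_shB b ρ'
    refine (hG.dk_B' hf hε hε1 hc hκ.le hK hw hw1 hR hB2 hB1 hg.measurable mu').trans_lt ?_
    have h4 : ∫⁻ x in Sh θ ρ', ‖g x‖ₑ ^ 2 ∂(mu I θ f s) < ⊤ := by
      refine (setLIntegral_mono' (g := fun _ => ENNReal.ofReal (ρ' ^ A) ^ 2) (meas_Sh ρ')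
        fun x hx => ?_).trans_lt ?_
      · rw [← ofReal_norm]
        gcongr
        exact (g1 x).trans (pow_le_pow_left₀ (norm_nonneg _) hx.2 A)
      · rw [setLIntegral_const]
        have := hfin ρ' hρ'
        finiteness
    have h5 := hΦ.trans_lt (ENNReal.mul_lt_top hC1 ENNReal.ofReal_lt_top)
    finiteness
  have h4 : ∫⁻ x in Sh θ ρ, ‖g x‖ₑ ^ 2 ∂(mu I θ f s) ≤
      ENNReal.ofReal ((B + 1) ^ K * 2 ^ (c + 2 * κ)) * ENNReal.ofReal ((w ^ 2) ^ κ) * J0 := by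
    refine le_trans ?_ (mul_le_mul_right hJ' _)
    rw [← lintegral_const_mul' _ _ (by finiteness)]
    refine le_trans (setLIntegral_mono_ae' (meas_Sh ρ) ?_) (setLIntegral_le_lintegral (Sh θ ρ) _)
    filter_upwards [hG.ae_mu] with x x1 x2
    exact g_le hK (by linarith) (by linarith) hw hw1 (g1 x) (g2 x) (hB x ⟨x1, x2⟩).2
  filter_upwards [h1 a h3] with x hx
  refine hx.trans (le_trans ?_ h2)
  rw [mul_assoc]
  refine mul_le_mul_right ((hG.dk_B' hf hε hε1 hc hκ.le hK hw hw1 hR hB hB0 hg.measurable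
    mu').trans (le_trans (add_le_add (mul_le_mul_right (mul_le_mul_right
      (mul_le_mul_right hΦ _) _) _) (mul_le_mul_right h4 _)) (le_of_eq ?_))) _
  ring

lemma dk_C (hN : NB I θ f s) (hs : 0 ≤ s) {c κ K : ℝ} (hc : 0 ≤ c) (hκ : 0 < κ) (hK : 0 ≤ K)
    (A D : ℕ) {ρ B : ℝ} (hρ : 0 < ρ) (hB0 : 0 ≤ B) (hfin : ∀ ρ' > 0, mu I θ f s (Sh θ ρ') < ⊤)
    (hg : ∫⁻ x, ENNReal.ofReal (gw θ A K x) ∂(mu I θ f s) < ⊤) {J0 : ℝ≥0∞} (hJ : J0 < ⊤) :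
    ∃ w : ℝ, 0 < w ∧ ∃ C : ℝ≥0∞, C < ⊤ ∧ ∀ b : MP M, b.totalDegree ≤ D →
      (∀ x ∈ zeroLocus ℂ I ∩ Sh θ ρ, ‖eval x b‖ ^ 2 ≤ B ∧ nsq (emb θ x) ≤ B) →
      ∫⁻ x, ENNReal.ofReal ((‖eval x b‖ ^ 2 + w ^ 2) ^ (-(c + 2 * κ))) *
        ENNReal.ofReal (gw θ A K x) ∂(mu I θ f s) ≤ J0 → ∀ ε : ℝ, 0 < ε → ε ≤ 1 →
      ∫⁻ x in Sh θ ρ, ENNReal.ofReal ((‖eval x b‖ ^ 2 + ε) ^ (-c)) ∂(mu I θ f s) ≤ C := by
  obtain ⟨CA, hCA, h1⟩ := hG.dk_A (f := f) (c0 := c + 2 * κ) hc (by positivity) hκ hs hK A D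
  set K' := Kd F h (c * D + κ * D + s * f.totalDegree + K * (1 : ℕ) + 1 * (1 : ℕ))
  have ht : 0 < ρ⁻¹ ^ A := by positivity
  obtain ⟨w, hw, hw1, h2⟩ := hG.dk_C0 hf hN hc hκ hK A K' hρ hB0 hfin hJ (C1 := CA * (J0 + 1))
    (η := ENNReal.ofReal ((ρ⁻¹ ^ A / 2) ^ 2)) (by finiteness) (by simp; positivity)
  have := hfin ρ hρ
  refine ⟨w, hw, n * (ENNReal.ofReal ((ρ⁻¹ ^ A / 2)⁻¹ ^ 2) * (ENNReal.ofReal ((B + 1) ^ (κ + K + 1))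
    * (CA * (J0 + 1) * ENNReal.ofReal ((w ^ 2) ^ κ)))) + ENNReal.ofReal (((w / 2) ^ 2) ^ (-c)) *
      mu I θ f s (Sh θ ρ), by finiteness, fun b hb hB hJ' ε hε hε1 => ?_⟩
  obtain ⟨R, hR, hR1, hR2⟩ := exists_R hg (a := ENNReal.ofReal (ε ^ (-c) * (w ^ 2) ^ (-κ)))
    (η := ENNReal.ofReal ((w ^ 2) ^ κ)) ENNReal.ofReal_ne_top (by simp; positivity) B
  choose a g g0 g1 g2 g3 g4 using fun i => h1 b hb i w ε R hw hε (by linarith)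
  have g5 := fun i => (g4 i).trans (show _ ≤ CA * (J0 + 1) * ENNReal.ofReal ((w ^ 2) ^ κ) by
    rw [mul_assoc, add_mul, one_mul, mul_comm J0, show c + 2 * κ - c - κ = κ by ring]
    exact mul_le_mul_right (add_le_add (mul_le_mul_right hJ' _) hR2) _)
  have h3 := fun i => h2 b ε R (a i) (g i) hε hε1 hR (g0 i) hB (g1 i) (g2 i) hJ' (g5 i)
  have m1 : ∀ i, Measurable fun x => g i x - pc (uq θ F h K') x (a i) := fun i =>
    (g0 i).measurable.sub (meas_pc (meas_uq K') (a i))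
  have m2 : ∀ i, Measurable fun x => ENNReal.ofReal ((ρ⁻¹ ^ A / 2)⁻¹ ^ 2) *
      (‖g i x - pc (uq θ F h K') x (a i)‖ₑ ^ 2 * ENNReal.ofReal ((‖eval x b‖ ^ 2 + ε) ^ (-c))) :=
    fun i => (((m1 i).enorm.pow_const 2).mul (meas_reg b ε _)).const_mul _
  refine le_trans (lintegral_mono_ae (g := fun x => ∑ i, ENNReal.ofReal ((ρ⁻¹ ^ A / 2)⁻¹ ^ 2) *
    (‖g i x - pc (uq θ F h K') x (a i)‖ₑ ^ 2 * ENNReal.ofReal ((‖eval x b‖ ^ 2 + ε) ^ (-c))) +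
      ENNReal.ofReal (((w / 2) ^ 2) ^ (-c))) ?_) ?_
  · filter_upwards [ae_all_iff.2 h3, ae_restrict_mem (meas_Sh ρ), ae_restrict_of_ae hG.ae_mu]
      with x x1 x2 x3
    by_cases hx : ‖eval x b‖ ≤ w / 2
    · have x4 : 0 < ‖pr θ x‖ := (inv_pos.2 hρ).trans_le x2.1
      obtain ⟨i, hi⟩ : ∃ i, ‖pr θ x‖ ≤ ‖pr θ x i‖ := by
        by_contra h0
        push Not at h0
        exact lt_irrefl _ ((pi_norm_lt_iff x4).2 h0)
      refine le_add_right (le_trans ?_ (Finset.single_le_sum (f := fun i =>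
        ENNReal.ofReal ((ρ⁻¹ ^ A / 2)⁻¹ ^ 2) * (‖g i x - pc (uq θ F h K') x (a i)‖ₑ ^ 2 *
          ENNReal.ofReal ((‖eval x b‖ ^ 2 + ε) ^ (-c)))) (fun _ _ => bot_le) (Finset.mem_univ i)))
      rw [← mul_assoc]
      refine le_mul_of_one_le_left' (one_le_dist ht ?_ (x1 i))
      rw [g3 i x hx ((hB x ⟨x3, x2⟩).2.trans hR1), norm_pow]
      exact pow_le_pow_left₀ (by positivity) (x2.1.trans hi) A
    · refine le_add_left (ENNReal.ofReal_le_ofReal (Real.rpow_le_rpow_of_nonpos (by positivity)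
        ?_ (by linarith)))
      linarith [pow_le_pow_left₀ (by positivity) (not_le.1 hx).le 2]
  rw [lintegral_add_right _ measurable_const, setLIntegral_const,
    lintegral_finsetSum _ fun i _ => m2 i]
  have key : ∀ (X : ℝ≥0∞) (G : Fin n → ℝ≥0∞), (∀ i, G i ≤ X) → ∑ i, G i ≤ n * X := fun X G h =>
    (Finset.sum_le_card_nsmul _ _ X fun i _ => h i).trans (by simp)
  refine add_le_add_left (key _ _ fun i => ?_) _
  rw [lintegral_const_mul' _ _ ENNReal.ofReal_ne_top]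
  exact mul_le_mul_right ((hG.dk_B hf hε hκ.le hK hw hw1 hR hB hB0 (m1 i)).trans
    (mul_le_mul_right (g5 i) _)) _

omit hG hf in
lemma fatou_reg (ν : Measure (Fin M → ℂ)) (b : MP M) (c : ℝ) {C : ℝ≥0∞} (h : ∀ ε : ℝ, 0 < ε →
    ε ≤ 1 → ∫⁻ x, ENNReal.ofReal ((‖eval x b‖ ^ 2 + ε) ^ (-c)) ∂ν ≤ C) :
    ∫⁻ x, ‖eval x b‖ₑ ^ (-(2 * c)) ∂ν ≤ C := by
  have h1 : ∀ z : ℂ, Tendsto (fun k => ENNReal.ofReal ((‖z‖ ^ 2 + tk k) ^ (-c))) atTop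
      (𝓝 (‖z‖ₑ ^ (-(2 * c)))) := fun z => by
    have h2 := (ENNReal.continuous_rpow_const (y := -c)).continuousAt.tendsto.comp
      (ENNReal.tendsto_ofReal ((tendsto_const_nhds (x := ‖z‖ ^ 2)).add tk_lim))
    rw [add_zero, ← enorm_sq, ← ENNReal.rpow_two, ← ENNReal.rpow_mul, mul_neg] at h2
    refine h2.congr fun k => ENNReal.ofReal_rpow_of_pos ?_
    have := tk_pos k
    positivity
  simp only [← (h1 _).liminf_eq]
  refine (lintegral_liminf_le fun k => meas_reg b _ _).trans ?_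
  exact liminf_le_of_frequently_le' (Frequently.of_forall fun k => h _ (tk_pos k) (tk_le k))

theorem dk (hN : NB I θ f s) (hs : 0 ≤ s) {wt : Fin M → ℕ} {e : ℕ} (hH : Hom I θ wt e) {df : ℕ}
    (hfh : f.IsWeightedHomogeneous wt df) {P : Type} [TopologicalSpace P]
    [FirstCountableTopology P] {Θ : P → MP M} {D : ℕ} (hΘ : ∀ a, (Θ a).IsWeightedHomogeneous wt D)
    (hct : Continuous fun p : P × (Fin M → ℂ) => eval p.2 (Θ p.1)) {a0 : P} {c c0 : ℝ}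
    (hc : 0 ≤ c) (hcc : c < c0)
    (hI : ∀ ρ > 0, ∫⁻ x in Sh θ ρ, ‖eval x (Θ a0)‖ₑ ^ (-(2 * c0)) ∂(mu I θ f s) < ⊤) {ρ : ℝ}
    (hρ : 0 < ρ) : ∃ C : ℝ≥0∞, C < ⊤ ∧ ∀ᶠ a in 𝓝 a0,
      ∫⁻ x in Sh θ ρ, ‖eval x (Θ a)‖ₑ ^ (-(2 * c)) ∂(mu I θ f s) ≤ C := by
  have hc0 : 0 ≤ c0 := by linarith
  have hfin : ∀ ρ' > 0, mu I θ f s (Sh θ ρ') < ⊤ := fun ρ' h => hG.fin_of_lint hc0 (hI ρ' h)
  obtain ⟨A, hA⟩ := exists_nat_ge (|2 * c0 * D + 2 * s * df| + 1)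
  set K : ℝ := A + n + |2 * c0 * D + 2 * s * df| + 1
  have h0 : |2 * 0 * D + 2 * s * df| ≤ |2 * c0 * D + 2 * s * df| := by
    rw [abs_of_nonneg (by positivity), abs_of_nonneg (by positivity)]; gcongr
  have h1 := hG.global hH hfh (hΘ a0) (hI _ (by positivity)) hA (K := K) le_rfl
  have h2 := hG.global hH hfh (hΘ a0) (c := 0) (A := A) (K := K)
    (by simpa using hfin _ (by positivity)) (by linarith) (by linarith)
  simp only [mul_zero, neg_zero, ENNReal.rpow_zero, one_mul] at h2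
  obtain ⟨B, hB0, hB⟩ := hG.exists_shB (Θ a0) ρ
  obtain ⟨w, hw, C, hC, h3⟩ := hG.dk_C hf hN hs hc (κ := (c0 - c) / 2) (K := K) (by linarith)
    (by positivity) A D hρ (B := B + 1) (by linarith) hfin h2
    (ENNReal.add_lt_top.2 ⟨h1, ENNReal.one_lt_top⟩)
  rw [show c + 2 * ((c0 - c) / 2) = c0 by ring] at h3
  have h4 : ∀ᶠ a in 𝓝 a0, ∀ x ∈ zeroLocus ℂ I ∩ Sh θ ρ, ‖eval x (Θ a)‖ ^ 2 < B + 1 :=
    (hG.compact_Sh ρ).eventually_forall_of_forall_eventually fun x hx =>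
      (hct.norm.pow 2).continuousAt.eventually_lt continuousAt_const
        (by simpa using (hB x hx).1.trans_lt (lt_add_one B))
  have m : Measurable fun x => ENNReal.ofReal (gw θ A K x) := meas_gw A K
  have h5 := tendsto_lintegral_filter_of_dominated_convergence (μ := mu I θ f s) (l := 𝓝 a0)
    (F := fun a x => ENNReal.ofReal ((‖eval x (Θ a)‖ ^ 2 + w ^ 2) ^ (-c0)) *
      ENNReal.ofReal (gw θ A K x)) (fun x => ENNReal.ofReal ((w ^ 2) ^ (-c0)) *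
      ENNReal.ofReal (gw θ A K x)) (Eventually.of_forall fun a => (meas_reg _ _ _).mul m)
    (Eventually.of_forall fun a => Eventually.of_forall fun x => mul_le_mul_left
      (ENNReal.ofReal_le_ofReal (Real.rpow_le_rpow_of_nonpos (by positivity)
        (le_add_of_nonneg_left (by positivity)) (by linarith))) _)
    (by rw [lintegral_const_mul' _ _ ENNReal.ofReal_ne_top]; finiteness)
    (Eventually.of_forall fun x => ENNReal.Tendsto.mul_const (ENNReal.tendsto_ofReal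
      (((((hct.comp (Continuous.prodMk_left x)).tendsto a0).norm.pow 2).add_const _).rpow_const
        (Or.inl (by positivity)))) (Or.inr ENNReal.ofReal_ne_top))
  refine ⟨C, hC, ?_⟩
  filter_upwards [h4, h5.eventually (ge_mem_nhds (lt_of_le_of_lt (lintegral_mono fun x =>
    mul_le_mul_left (ofReal_rpow_neg_le (le_add_of_nonneg_right (by positivity)) (by positivity)
      hc0) _) (ENNReal.lt_add_right h1.ne one_ne_zero)))] with a a1 a2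
  exact fatou_reg _ _ _ (h3 _ (deg_le hH.hw (hΘ a))
    (fun x hx => ⟨(a1 x hx).le, by linarith [(hB x hx).2]⟩) a2)

theorem dk_unif (hN : NB I θ f s) (hs : 0 ≤ s) {wt : Fin M → ℕ} {e : ℕ} (hH : Hom I θ wt e)
    {df : ℕ} (hfh : f.IsWeightedHomogeneous wt df) {P : Type} [TopologicalSpace P]
    [FirstCountableTopology P] {Θ : P → MP M} {D : ℕ} (hΘ : ∀ a, (Θ a).IsWeightedHomogeneous wt D)
    (hct : Continuous fun p : P × (Fin M → ℂ) => eval p.2 (Θ p.1)) {O : Set P} (hO : IsCompact O)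
    {c c0 : ℝ} (hc : 0 ≤ c) (hcc : c < c0) (hI : ∀ a ∈ O, ∀ ρ > 0,
      ∫⁻ x in Sh θ ρ, ‖eval x (Θ a)‖ₑ ^ (-(2 * c0)) ∂(mu I θ f s) < ⊤) {ρ : ℝ}
    (hρ : 0 < ρ) : ∃ C : ℝ≥0∞, C < ⊤ ∧ ∀ a ∈ O,
      ∫⁻ x in Sh θ ρ, ‖eval x (Θ a)‖ₑ ^ (-(2 * c)) ∂(mu I θ f s) ≤ C := by
  refine hO.induction_on (p := fun U => ∃ C : ℝ≥0∞, C < ⊤ ∧ ∀ a ∈ U,
    ∫⁻ x in Sh θ ρ, ‖eval x (Θ a)‖ₑ ^ (-(2 * c)) ∂(mu I θ f s) ≤ C) ⟨0, by simp, by simp⟩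
    (fun _ _ h1 ⟨C, h2, h3⟩ => ⟨C, h2, fun a ha => h3 a (h1 ha)⟩)
    (fun _ _ ⟨C, h1, h2⟩ ⟨C', h3, h4⟩ => ⟨C + C', ENNReal.add_lt_top.2 ⟨h1, h3⟩, fun a ha =>
      ha.elim (fun h => le_add_right (h2 a h)) fun h => le_add_left (h4 a h)⟩) fun a ha => ?_
  obtain ⟨C, h1, h2⟩ := hG.dk hf hN hs hH hfh hΘ hct hc hcc (hI a ha) hρ
  exact ⟨_, mem_nhdsWithin_of_mem_nhds h2, C, h1, fun _ h => h⟩

end Geo

end Pool.Agent.Lib.MP_bc3ae6_ag
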