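import Mathlib

set_option autoImplicit false

namespace Pool.Agent.Lib.MP_bc3ae6_ag

open MeasureTheory Set Filter Topology Matrix
open scoped ENNReal

namespace RatL2

/-- A nonunit coprime to `P` has a nonzero root that is not a root of `P`. -/
theorem exists_point {n : ℕ} (hn : 2 ≤ n) {P Q : MvPolynomial (Fin n) ℂ} (hPQ : IsRelPrime P Q)
    (hQ0 : Q ≠ 0) (hQ : ¬ IsUnit Q) :
    ∃ w : Fin n → ℂ, w ≠ 0 ∧ MvPolynomial.eval w Q = 0 ∧ MvPolynomial.eval w P ≠ 0 := by
  by_contra hcon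
  push Not at hcon
  obtain ⟨q, hq, hqQ⟩ := WfDvdMonoid.exists_irreducible_factor hQ hQ0
  have hqp : Prime q := hq.prime
  have key : ∀ i : Fin n, q ∣ MvPolynomial.X i := by
    intro i
    have hmem : MvPolynomial.X i * P ∈
        MvPolynomial.vanishingIdeal ℂ (MvPolynomial.zeroLocus ℂ (Ideal.span {Q})) := by
      intro x hx
      have hxQ : MvPolynomial.eval x Q = 0 := by
        have := hx Q (Ideal.mem_span_singleton_self Q)
        simpa [MvPolynomial.coe_aeval_eq_eval] using this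
      by_cases hx0 : x = 0
      · subst hx0; simp
      · have := hcon x hx0 hxQ
        simp [this]
    rw [MvPolynomial.vanishingIdeal_zeroLocus_eq_radical] at hmem
    obtain ⟨k, hk⟩ := hmem
    rw [Ideal.mem_span_singleton] at hk
    have h1 : q ∣ MvPolynomial.X i * P := hqp.dvd_of_dvd_pow (hqQ.trans hk)
    rcases hqp.dvd_or_dvd h1 with h | h
    · exact h
    · exact absurd (hPQ h hqQ) hq.not_isUnit
  let i0 : Fin n := ⟨0, by omega⟩
  let i1 : Fin n := ⟨1, by omega⟩
  have h0 : Associated q (MvPolynomial.X i0) :=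
    hq.associated_of_dvd (MvPolynomial.X_prime (i := i0)).irreducible (key i0)
  have h1 : (MvPolynomial.X i0 : MvPolynomial (Fin n) ℂ) ∣ MvPolynomial.X i1 :=
    h0.symm.dvd.trans (key i1)
  rw [MvPolynomial.X_dvd_X] at h1
  simp [i0, i1, Fin.ext_iff] at h1

/-- Restriction of a polynomial to a complex line. -/
noncomputable def lp {n : ℕ} (w e : Fin n → ℂ) (Q : MvPolynomial (Fin n) ℂ) : Polynomial ℂ :=
  MvPolynomial.aeval (fun i => Polynomial.C (w i) + Polynomial.C (e i) * Polynomial.X) Q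

theorem eval_lp {n : ℕ} (w e : Fin n → ℂ) (Q : MvPolynomial (Fin n) ℂ) (t : ℂ) :
    (lp w e Q).eval t = MvPolynomial.eval (w + t • e) Q := by
  unfold lp
  induction Q using MvPolynomial.induction_on with
  | C a => simp
  | add p q hp hq => simp [hp, hq]
  | mul_X p i hp => simp [hp, mul_comm t]

theorem diff_line {n : ℕ} (w e : Fin n → ℂ) (Q : MvPolynomial (Fin n) ℂ) :
    Differentiable ℂ fun t : ℂ => MvPolynomial.eval (w + t • e) Q := by
  have : (fun t : ℂ => MvPolynomial.eval (w + t • e) Q) = fun t => (lp w e Q).eval t := by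
    funext t; rw [eval_lp]
  rw [this]
  exact (lp w e Q).differentiable

theorem finite_line {n : ℕ} (w e : Fin n → ℂ) (Q : MvPolynomial (Fin n) ℂ) {t0 : ℂ}
    (h : MvPolynomial.eval (w + t0 • e) Q ≠ 0) :
    {t : ℂ | MvPolynomial.eval (w + t • e) Q = 0}.Finite := by
  have hne : lp w e Q ≠ 0 := by
    intro h0
    apply h
    rw [← eval_lp, h0, Polynomial.eval_zero]
  refine (Polynomial.finite_setOfPred_isRoot hne).subset ?_
  intro t ht
  simpa [Polynomial.IsRoot, eval_lp] using ht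

/-- A function bounded below by `K / |t - t0|^2` almost everywhere near `t0` has infinite
integral. -/
theorem lint_top {F : ℂ → ℝ≥0∞} {D : Set ℂ} {t0 : ℂ} (hD : D ∈ 𝓝 t0) {K : ℝ} (hK : 0 < K)
    {Z : Set ℂ} (hZ : Z.Finite)
    (hF : ∀ᶠ t in 𝓝 t0, t ∉ Z → t ≠ t0 → ENNReal.ofReal (K / ‖t - t0‖ ^ 2) ≤ F t) :
    ∫⁻ t in D, F t = ⊤ := by
  by_contra hfin
  have hl : Tendsto ((volume.restrict D) ∘ fun s : ℝ => Metric.ball t0 s) (𝓝[>] 0) (𝓝 0) := by
    have h1 : Tendsto (fun s : ℝ => ENNReal.ofReal s ^ 2 * (NNReal.pi : ℝ≥0∞)) (𝓝[>] 0) (𝓝 0) := by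
      have h2 : Tendsto (fun s : ℝ => ENNReal.ofReal s ^ 2) (𝓝 0) (𝓝 (ENNReal.ofReal 0 ^ 2)) :=
        (ENNReal.continuous_pow 2).continuousAt.tendsto.comp
          ENNReal.continuous_ofReal.continuousAt.tendsto
      have h3 := ENNReal.Tendsto.mul_const (b := (NNReal.pi : ℝ≥0∞)) h2 (Or.inr ENNReal.coe_ne_top)
      simp only [ENNReal.ofReal_zero, ne_eq, OfNat.ofNat_ne_zero, not_false_eq_true, zero_pow,
        zero_mul] at h3
      exact h3.mono_left nhdsWithin_le_nhds
    refine tendsto_of_tendsto_of_tendsto_of_le_of_le tendsto_const_nhds h1 (fun _ => zero_le) ?_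
    intro s
    simp only [Function.comp]
    rw [← Complex.volume_ball t0 s]
    exact Measure.restrict_le_self _
  have hlim := tendsto_setLIntegral_zero hfin hl
  obtain ⟨ε, hε, hball⟩ := Metric.mem_nhds_iff.1 (inter_mem hD hF)
  have hpos : (0 : ℝ≥0∞) < ENNReal.ofReal K * (NNReal.pi : ℝ≥0∞) := by
    apply ENNReal.mul_pos
    · simpa using hK
    · have : (NNReal.pi) ≠ 0 := NNReal.pi_ne_zero
      exact_mod_cast this
  have hev : ∀ᶠ s : ℝ in 𝓝[>] 0, ENNReal.ofReal K * (NNReal.pi : ℝ≥0∞) ≤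
      ∫⁻ x in Metric.ball t0 s, F x ∂(volume.restrict D) := by
    filter_upwards [Ioo_mem_nhdsGT hε] with s hs
    have hsub : Metric.ball t0 s ⊆ D :=
      fun x hx => (hball (Metric.ball_subset_ball hs.2.le hx)).1
    rw [Measure.restrict_restrict_of_subset hsub]
    have hae : ∀ᵐ x ∂(volume.restrict (Metric.ball t0 s)), ENNReal.ofReal (K / s ^ 2) ≤ F x := by
      have hnull : volume (insert t0 Z) = 0 := (hZ.insert t0).measure_zero _
      have h1 : ∀ᵐ x ∂(volume : Measure ℂ), x ∉ insert t0 Z := measure_eq_zero_iff_ae_notMem.1 hnull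
      rw [ae_restrict_iff' Metric.isOpen_ball.measurableSet]
      filter_upwards [h1] with x hx hxb
      have hx0 : x ≠ t0 := fun h => hx (by simp [h])
      have hxZ : x ∉ Z := fun h => hx (by simp [h])
      refine le_trans ?_ ((hball (Metric.ball_subset_ball hs.2.le hxb)).2 hxZ hx0)
      apply ENNReal.ofReal_le_ofReal
      have hn : 0 < ‖x - t0‖ := norm_pos_iff.2 (sub_ne_zero.2 hx0)
      have hlt : ‖x - t0‖ < s := by simpa [dist_eq_norm] using hxb
      apply div_le_div_of_nonneg_left hK.le (by positivity)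
      exact pow_le_pow_left₀ hn.le hlt.le 2
    calc ENNReal.ofReal K * (NNReal.pi : ℝ≥0∞)
        = ENNReal.ofReal (K / s ^ 2) * volume (Metric.ball t0 s) := by
          rw [Complex.volume_ball, ← mul_assoc, ← ENNReal.ofReal_pow hs.1.le,
            ← ENNReal.ofReal_mul (by have := hs.1; positivity),
            div_mul_cancel₀ _ (pow_ne_zero 2 hs.1.ne')]
      _ = ∫⁻ _ in Metric.ball t0 s, ENNReal.ofReal (K / s ^ 2) := by
          rw [setLIntegral_const]
      _ ≤ _ := lintegral_mono_ae hae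
  have := ge_of_tendsto hlim hev
  exact absurd this (not_le.2 hpos)

/-- On a line through a pole the integral is infinite. -/
theorem line_top {n : ℕ} {c P Q : MvPolynomial (Fin n) ℂ} {w e : Fin n → ℂ} {D : Set ℂ} {t0 t1 : ℂ}
    (hD : D ∈ 𝓝 t0) (h0 : MvPolynomial.eval (w + t0 • e) Q = 0)
    (hP : MvPolynomial.eval (w + t0 • e) P ≠ 0) (h1 : MvPolynomial.eval (w + t1 • e) (c * Q) ≠ 0) :
    ∫⁻ t in D, ‖MvPolynomial.eval (w + t • e) (c * P) /
      MvPolynomial.eval (w + t • e) (c * Q)‖ₑ ^ 2 = ⊤ := by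
  set a : ℝ := ‖MvPolynomial.eval (w + t0 • e) P‖ with ha
  have ha0 : 0 < a := norm_pos_iff.2 hP
  obtain ⟨C, hC0, hC⟩ := ((diff_line w e Q) t0).hasDerivAt.isBigO_sub.exists_pos
  have hC' := hC.bound
  have hPc : ∀ᶠ t in 𝓝 t0, a / 2 < ‖MvPolynomial.eval (w + t • e) P‖ := by
    have hc : ContinuousAt (fun t : ℂ => ‖MvPolynomial.eval (w + t • e) P‖) t0 :=
      ((diff_line w e P).continuous.norm).continuousAt
    exact hc.eventually (lt_mem_nhds (by simp only [← ha]; linarith))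
  refine lint_top hD (K := (a / 2 / C) ^ 2) (by positivity) (finite_line w e (c * Q) h1) ?_
  filter_upwards [hC', hPc] with t ht1 ht2 htZ ht0
  have hcQ : MvPolynomial.eval (w + t • e) c * MvPolynomial.eval (w + t • e) Q ≠ 0 := by
    simpa using htZ
  have hc0 := left_ne_zero_of_mul hcQ
  have hQ0 := right_ne_zero_of_mul hcQ
  rw [map_mul, map_mul, mul_div_mul_left _ _ hc0, ← ofReal_norm,
    ← ENNReal.ofReal_pow (norm_nonneg _)]
  apply ENNReal.ofReal_le_ofReal
  rw [← div_pow, norm_div]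
  have hn : 0 < ‖t - t0‖ := norm_pos_iff.2 (sub_ne_zero.2 ht0)
  apply pow_le_pow_left₀ (by positivity)
  rw [h0, sub_zero] at ht1
  rw [div_div, div_le_div_iff₀ (by positivity) (norm_pos_iff.2 hQ0)]
  exact mul_le_mul ht2.le ht1 (norm_nonneg _) (norm_nonneg _)

/-- Minimum modulus. -/
theorem exists_root {g : ℂ → ℂ} (hg : Differentiable ℂ g) {r m : ℝ} (hr : 0 < r) (hm : 0 < m)
    (h1 : ∀ t ∈ Metric.sphere (0 : ℂ) r, m < ‖g t‖) (h0 : ‖g 0‖ < m) :
    ∃ t ∈ Metric.ball (0 : ℂ) r, g t = 0 := by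
  by_contra hcon
  push Not at hcon
  have hne : ∀ t ∈ Metric.closedBall (0 : ℂ) r, g t ≠ 0 := by
    intro t ht
    rcases (Metric.mem_closedBall.1 ht).lt_or_eq with h | h
    · exact hcon t h
    · intro hz
      have := h1 t h
      rw [hz, norm_zero] at this
      linarith
  have hd : DiffContOnCl ℂ (fun t => (g t)⁻¹) (Metric.ball 0 r) := by
    apply DifferentiableOn.diffContOnCl
    rw [closure_ball _ hr.ne']
    exact hg.differentiableOn.inv hne
  have := Complex.norm_le_of_forall_mem_frontier_norm_le (C := m⁻¹) Metric.isBounded_ball hd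
    (fun z hz => by
      rw [frontier_ball _ hr.ne'] at hz
      rw [norm_inv]
      exact inv_anti₀ hm (h1 z hz).le)
    (z := 0) (subset_closure (Metric.mem_ball_self hr))
  rw [norm_inv] at this
  have hg0 : 0 < ‖g 0‖ := norm_pos_iff.2 (hcon 0 (Metric.mem_ball_self hr))
  have := (inv_le_inv₀ hg0 hm).1 this
  linarith

end RatL2

open RatL2 in
/-- JOB A (file RatL2.lean). A rational function on `ℂ^n`, `n ≥ 2`, locally square integrable away
from the origin is a polynomial. -/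
theorem rat_L2 {n : ℕ} (hn : 2 ≤ n) {P Q : MvPolynomial (Fin n) ℂ} (hQ : Q ≠ 0)
    (h : ∀ w0 : Fin n → ℂ, w0 ≠ 0 → ∃ U ∈ 𝓝 w0,
      ∫⁻ w in U, ‖MvPolynomial.eval w P / MvPolynomial.eval w Q‖ₑ ^ 2 < ⊤) : Q ∣ P := by
  obtain ⟨P', Q', c, hrel, rfl, rfl⟩ := UniqueFactorizationMonoid.exists_reduced_factors' P Q hQ
  by_cases hu : IsUnit Q'
  · exact mul_dvd_mul_left c hu.dvd
  exfalso
  obtain ⟨w0, hw0, hQw, hPw⟩ := exists_point hn hrel (right_ne_zero_of_mul hQ) hu
  obtain ⟨U, hU, hfin⟩ := h w0 hw0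
  have cont : ∀ R : MvPolynomial (Fin n) ℂ, Continuous fun w : Fin n → ℂ => MvPolynomial.eval w R :=
    fun R => MvPolynomial.continuous_eval R
  have hPn : ∀ᶠ w in 𝓝 w0, MvPolynomial.eval w P' ≠ 0 := (cont P').continuousAt.eventually_ne hPw
  obtain ⟨ρ, hρ, hball⟩ := Metric.mem_nhds_iff.1 (inter_mem hU hPn)
  obtain ⟨z, hz⟩ : ∃ z : Fin n → ℂ, MvPolynomial.eval z (c * Q') ≠ 0 := by
    by_contra hcon
    push Not at hcon
    exact hQ (MvPolynomial.funext fun x => by rw [hcon x, map_zero])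
  set e : Fin n → ℂ := z - w0 with he
  have hz1 : MvPolynomial.eval (w0 + (1 : ℂ) • e) (c * Q') ≠ 0 := by simpa [he] using hz
  have hZ := finite_line w0 e (c * Q') hz1
  obtain ⟨r, hr, hrZ⟩ : ∃ r ∈ Ioo (0 : ℝ) (ρ / 2 / (‖e‖ + 1)),
      r ∉ (fun t : ℂ => ‖t‖) '' {t : ℂ | MvPolynomial.eval (w0 + t • e) (c * Q') = 0} := by
    have hinf : (Ioo (0 : ℝ) (ρ / 2 / (‖e‖ + 1))).Infinite := Ioo_infinite (by positivity)
    exact hinf.exists_notMem_finite (hZ.image _)
  have hsph : ∀ t ∈ Metric.sphere (0 : ℂ) r, MvPolynomial.eval (w0 + t • e) (c * Q') ≠ 0 := by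
    intro t ht h0
    exact hrZ ⟨t, h0, by simpa using ht⟩
  have hrs : (r : ℂ) ∈ Metric.sphere (0 : ℂ) r := by simp [abs_of_pos hr.1]
  obtain ⟨t1, ht1, hmin⟩ := (isCompact_sphere (0 : ℂ) r).exists_isMinOn ⟨_, hrs⟩
    ((diff_line w0 e Q').continuous.norm.continuousOn)
  set m : ℝ := ‖MvPolynomial.eval (w0 + t1 • e) Q'‖ with hm
  have hm0 : 0 < m := by
    have := hsph t1 ht1
    rw [map_mul] at this
    exact norm_pos_iff.2 (right_ne_zero_of_mul this)
  have cont2 : ∀ R : MvPolynomial (Fin n) ℂ,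
      Continuous fun p : (Fin n → ℂ) × ℂ => MvPolynomial.eval (p.1 + p.2 • e) R :=
    fun R => (cont R).comp (by fun_prop)
  have ev1 : ∀ᶠ w in 𝓝 w0, ∀ t ∈ Metric.sphere (0 : ℂ) r,
      m / 2 < ‖MvPolynomial.eval (w + t • e) Q'‖ := by
    apply (isCompact_sphere (0 : ℂ) r).eventually_forall_of_forall_eventually
    intro t ht
    have hc : ContinuousAt (fun p : (Fin n → ℂ) × ℂ => ‖MvPolynomial.eval (p.1 + p.2 • e) Q'‖)
        (w0, t) := (cont2 Q').norm.continuousAt
    have hle : m ≤ ‖MvPolynomial.eval (w0 + t • e) Q'‖ := hmin ht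
    exact hc.eventually (lt_mem_nhds (by simp only; linarith))
  have ev2 : ∀ᶠ w in 𝓝 w0, ‖MvPolynomial.eval w Q'‖ < m / 2 := by
    have hc : ContinuousAt (fun w => ‖MvPolynomial.eval w Q'‖) w0 := (cont Q').norm.continuousAt
    exact hc.eventually (gt_mem_nhds (by simp only [hQw, norm_zero]; linarith))
  have ev3 : ∀ᶠ w in 𝓝 w0, MvPolynomial.eval (w + t1 • e) (c * Q') ≠ 0 := by
    have hc : Continuous (fun w : Fin n → ℂ => MvPolynomial.eval (w + t1 • e) (c * Q')) :=
      (cont _).comp (by fun_prop)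
    exact hc.continuousAt.eventually_ne (hsph t1 ht1)
  obtain ⟨ε, hε, hεb⟩ := Metric.mem_nhds_iff.1
    (inter_mem (inter_mem ev1 ev2) (inter_mem ev3 (Metric.ball_mem_nhds w0 (half_pos hρ))))
  have hin : ∀ w ∈ Metric.ball w0 ε, ∀ t ∈ Metric.ball (0 : ℂ) r,
      w + t • e ∈ Metric.ball w0 ρ := by
    intro w hw t ht
    have h1 : dist w w0 < ρ / 2 := (hεb hw).2.2
    have h2 : ‖t‖ < r := by simpa using ht
    have h3 : r * (‖e‖ + 1) < ρ / 2 := (lt_div_iff₀ (by positivity)).1 hr.2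
    have h4 : ‖t • e‖ ≤ r * (‖e‖ + 1) := by
      rw [norm_smul]
      exact mul_le_mul h2.le (by linarith) (norm_nonneg _) hr.1.le
    rw [Metric.mem_ball, dist_eq_norm] at *
    calc ‖w + t • e - w0‖ = ‖(w - w0) + t • e‖ := by congr 1; abel
      _ ≤ ‖w - w0‖ + ‖t • e‖ := norm_add_le _ _
      _ < ρ := by linarith
  set F : (Fin n → ℂ) → ℝ≥0∞ :=
    fun w => ‖MvPolynomial.eval w (c * P') / MvPolynomial.eval w (c * Q')‖ₑ ^ 2 with hF
  have hFm : Measurable F :=
    (((cont _).measurable.div (cont _).measurable).enorm).pow_const 2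
  have htop : ∀ w ∈ Metric.ball w0 ε, ∫⁻ t in Metric.ball (0 : ℂ) r, F (w + t • e) = ⊤ := by
    intro w hw
    obtain ⟨⟨h1, h2⟩, h3, -⟩ := hεb hw
    obtain ⟨t0, ht0, hroot⟩ := exists_root (diff_line w e Q') hr.1 (half_pos hm0) h1
      (by simpa using h2)
    exact line_top (Metric.isOpen_ball.mem_nhds ht0) hroot (hball (hin w hw t0 ht0)).2 h3
  have hswap : ∫⁻ w in Metric.ball w0 ε, ∫⁻ t in Metric.ball (0 : ℂ) r, F (w + t • e) =
      ∫⁻ t in Metric.ball (0 : ℂ) r, ∫⁻ w in Metric.ball w0 ε, F (w + t • e) := by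
    apply lintegral_lintegral_swap
    have : Measurable fun p : (Fin n → ℂ) × ℂ => F (p.1 + p.2 • e) :=
      hFm.comp (Continuous.measurable (by fun_prop))
    exact this.aemeasurable
  have hL : ∫⁻ w in Metric.ball w0 ε, ∫⁻ t in Metric.ball (0 : ℂ) r, F (w + t • e) = ⊤ := by
    rw [setLIntegral_congr_fun Metric.isOpen_ball.measurableSet htop, setLIntegral_const,
      ENNReal.top_mul (Metric.measure_ball_pos volume w0 hε).ne']
  have hR : ∀ t ∈ Metric.ball (0 : ℂ) r,
      ∫⁻ w in Metric.ball w0 ε, F (w + t • e) ≤ ∫⁻ w in U, F w := by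
    intro t ht
    calc ∫⁻ w in Metric.ball w0 ε, F (w + t • e)
        = ∫⁻ w, (Metric.ball w0 ε).indicator (fun w => F (w + t • e)) w := by
          rw [lintegral_indicator Metric.isOpen_ball.measurableSet]
      _ ≤ ∫⁻ w, (Metric.ball w0 ρ).indicator F (w + t • e) := by
          apply lintegral_mono
          intro w
          by_cases hw : w ∈ Metric.ball w0 ε
          · simp only [indicator_of_mem hw, indicator_of_mem (hin w hw t ht), le_refl]
          · simp only [indicator_of_notMem hw, zero_le]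
      _ = ∫⁻ w, (Metric.ball w0 ρ).indicator F w :=
          lintegral_add_right_eq_self ((Metric.ball w0 ρ).indicator F) (t • e)
      _ = ∫⁻ w in Metric.ball w0 ρ, F w := lintegral_indicator Metric.isOpen_ball.measurableSet _
      _ ≤ ∫⁻ w in U, F w := lintegral_mono_set fun x hx => (hball hx).1
  have hlt : ∫⁻ t in Metric.ball (0 : ℂ) r, ∫⁻ w in Metric.ball w0 ε, F (w + t • e) < ⊤ := by
    refine lt_of_le_of_lt (setLIntegral_mono' Metric.isOpen_ball.measurableSet hR) ?_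
    rw [setLIntegral_const]
    exact ENNReal.mul_lt_top hfin measure_ball_lt_top
  rw [← hswap, hL] at hlt
  exact lt_irrefl _ hlt

end Pool.Agent.Lib.MP_bc3ae6_ag
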