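import Pool.Agent.Lib.MP_bc3ae6_ag.OT1
import Pool.Agent.Lib.MP_bc3ae6_ag.RatL2

set_option autoImplicit false
set_option linter.unusedSectionVars false

/-! Square integrable rational functions are integral. -/

namespace Pool.Agent.Lib.MP_bc3ae6_ag

open MvPolynomial Set Metric MeasureTheory Filter Topology
open scoped Polynomial ENNReal nonZeroDivisors IntermediateField

section
variable {A R K L : Type*} [CommRing A] [IsDomain A] [IsIntegrallyClosed A] [IsNoetherianRing A]
  [CharZero A] [CommRing R] [IsDomain R] [Algebra A R] [Module.Finite A R] [FaithfulSMul A R]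
  [Field K] [Field L] [Algebra A K] [IsFractionRing A K] [Algebra R L] [IsFractionRing R L]
  [Algebra K L] [Algebra A L] [IsScalarTower A K L] [IsScalarTower A R L]

variable (A R) in
lemma clear_den (y : L) : ∃ (u : R) (Q : A), Q ≠ 0 ∧ y * algebraMap A L Q = algebraMap R L u := by
  obtain ⟨⟨u, _, Q, hQ, rfl⟩, h⟩ := IsLocalization.surj (Algebra.algebraMapSubmonoid R A⁰) y
  exact ⟨u, Q, nonZeroDivisors.ne_zero hQ, by rwa [IsScalarTower.algebraMap_apply A R L]⟩

variable (A K L) in
lemma trace_int (u : R) : ∃ k : ℕ,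
    Algebra.trace K L (algebraMap R L u) = algebraMap A K (k * -(minpoly A u).nextCoeff) := by
  have : Module.Finite K L := .of_isLocalization A R A⁰
  refine ⟨Module.finrank K⟮algebraMap R L u⟯ L, (trace_eq_finrank_mul_minpoly_nextCoeff K _).trans ?_⟩
  rw [minpoly.isIntegrallyClosed_eq_field_fractions K L (IsIntegral.of_finite A u),
    Polynomial.nextCoeff_map (IsFractionRing.injective A K), map_mul, map_neg, map_natCast]

lemma integral_of {H : L} (h : ∀ g ∈ Submodule.traceDual A K (1 : Submodule R L),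
    Algebra.trace K L (H * g) ∈ (algebraMap A K).range) : IsIntegral A H := by
  classical
  have : Module.Finite K L := .of_isLocalization A R A⁰
  have : CharZero K := charZero_of_injective_algebraMap (IsFractionRing.injective A K)
  refine isIntegral_of_smul_mem_submodule
    ((Submodule.traceDual A K (1 : Submodule R L)).restrictScalars A) ?_ ?_ H fun g hg => ?_
  · refine (Submodule.ne_bot_iff _).2 ⟨1, Submodule.mem_traceDual.2 fun a ha => ?_, one_ne_zero⟩
    obtain ⟨u, rfl⟩ := Submodule.mem_one.1 ha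
    obtain ⟨k, hk⟩ := trace_int A K L u
    rw [Algebra.traceForm_apply, one_mul, hk]
    exact ⟨_, rfl⟩
  · let b := Module.finBasis K L
    choose u Q hQ hu using fun i => clear_den A R (b i)
    refine (Submodule.fg_span (finite_range
      fun i => (algebraMap A K (Q i))⁻¹ • b.traceDual i)).of_le fun x hx => ?_
    rw [← b.traceDual.sum_repr x]
    refine Submodule.sum_mem _ fun i _ => ?_
    obtain ⟨a, ha⟩ := Submodule.mem_traceDual.1 hx _ (Submodule.mem_one.2 ⟨u i, rfl⟩)
    have h1 : algebraMap A K (Q i) ≠ 0 := (map_ne_zero_iff _ (IsFractionRing.injective A K)).2 (hQ i)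
    have h2 : b.traceDual.repr x i = algebraMap A K a * (algebraMap A K (Q i))⁻¹ := by
      rw [ha, ← hu, mul_comm (b i), IsScalarTower.algebraMap_apply A K L, ← Algebra.smul_def,
        map_smul, Module.Basis.traceDual_repr_apply, smul_eq_mul, mul_right_comm,
        mul_inv_cancel₀ h1, one_mul]
    rw [h2, mul_smul, algebraMap_smul]
    exact Submodule.smul_mem _ _ (Submodule.subset_span ⟨i, rfl⟩)
  · refine Submodule.mem_traceDual.2 fun a ha => ?_
    obtain ⟨u, rfl⟩ := Submodule.mem_one.1 ha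
    have := h _ (Submodule.smul_mem _ u hg)
    rwa [Algebra.smul_def, mul_comm _ g, ← mul_assoc] at this

end

variable {n M : ℕ} {I : Ideal (MP M)} {θ : Fin n → MP M} {d : ℕ} {F : Fin M → (MP n)[X]}
  {h : MvPolynomial (Fin n ⊕ Fin M) ℂ}

variable (I θ) in
/-- Locally square integrable rational functions are locally bounded. -/
def NB (f : MP M) (s : ℝ) : Prop := ∀ p q : MP M, q ∉ I →
  (∀ w : Fin n → ℂ, w ≠ 0 → ∃ U ∈ 𝓝 w,
    ∫⁻ x in pr θ ⁻¹' U, ‖eval x p / eval x q‖ₑ ^ 2 ∂(mu I θ f s) < ⊤) →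
  ∀ ρ : ℝ, ∃ B, ∀ x ∈ zeroLocus ℂ I, ‖pr θ x‖ ≤ ρ → eval x q ≠ 0 → ‖eval x p / eval x q‖ ≤ B

variable [Algebra (MP n) (MP M ⧸ I)] {K L : Type*} [Field K] [Field L] [Algebra (MP n) K]
  [IsFractionRing (MP n) K] [Algebra (MP M ⧸ I) L] [IsFractionRing (MP M ⧸ I) L] [Algebra K L]
  [Algebra (MP n) L] [IsScalarTower (MP n) K L] [IsScalarTower (MP n) (MP M ⧸ I) L]

lemma AS.next_le (hA : AS I θ) (u : MP M) (Q : MP n) (w : Fin n → ℂ) :
    ‖eval w (minpoly (MP n) (Ideal.Quotient.mk I u)).nextCoeff / eval w Q‖ₑ ^ 2 ≤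
      (minpoly (MP n) (Ideal.Quotient.mk I u)).natDegree ^ 2 *
        fs (zeroLocus ℂ I) (pr θ) (fun x => ‖eval x u / eval (pr θ x) Q‖ₑ ^ 2) w := by
  have := hA.prime
  set P := minpoly (MP n) (Ideal.Quotient.mk I u)
  have hP : P.Monic := minpoly.monic (hA.int _)
  have hd : 0 < P.natDegree := minpoly.natDegree_pos (hA.int _)
  have hc := (IsAlgClosed.splits (sp P w)).natDegree_eq_card_roots
  rw [sp_deg hP] at hc
  obtain ⟨t, ht, ht'⟩ := (sp P w).roots.toFinset.exists_max_image (fun t => ‖t‖)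
    (by rw [Multiset.toFinset_nonempty, ← Multiset.card_pos, ← hc]; exact hd)
  obtain ⟨q, hq, rfl, e⟩ := hA.root_lift _
    ((Polynomial.mem_roots (sp_monic hP w).ne_zero).1 (Multiset.mem_toFinset.1 ht))
  have h1 := norm_sum_le' fun t h => ht' t (Multiset.mem_toFinset.2 h)
  rw [← norm_neg, ← (IsAlgClosed.splits _).nextCoeff_eq_neg_sum_roots_of_monic (sp_monic hP _),
    ← hc, sp, Polynomial.nextCoeff_map_of_leadingCoeff_ne_zero _ (by simp [hP]), ← e, evR_mk] at h1
  refine le_trans ?_ (mul_le_mul_right (le_fs _ hq) _)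
  rw [← mul_pow, ← ofReal_norm, ← ofReal_norm, ← ENNReal.ofReal_natCast,
    ← ENNReal.ofReal_mul (Nat.cast_nonneg _), norm_div, norm_div, ← mul_div_assoc]
  gcongr

theorem AS.nb (hA : AS I θ) (hG : Geo I θ d F h) (hn : 2 ≤ n) {f : MP M} (hf : f ∉ I) {r : ℕ}
    (hr : 0 < r) (hd : ∀ g ∈ Submodule.traceDual (MP n) K (1 : Submodule (MP M ⧸ I) L),
      algebraMap _ L (Ideal.Quotient.mk I f) * g ^ r ∈ (1 : Submodule (MP M ⧸ I) L)) :
    NB I θ f (1 / r) := by
  have := hA.prime
  have := hA.fin
  have := (faithfulSMul_iff_algebraMap_injective _ _).2 hA.inj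
  intro p q hq hL ρ
  have inj := IsFractionRing.injective (MP M ⧸ I) L
  have hq' : algebraMap _ L (Ideal.Quotient.mk I q) ≠ 0 :=
    (map_ne_zero_iff _ inj).2 (mt Ideal.Quotient.eq_zero_iff_mem.1 hq)
  set H := algebraMap _ L (Ideal.Quotient.mk I p) / algebraMap _ L (Ideal.Quotient.mk I q)
  have hH : H * algebraMap _ L (Ideal.Quotient.mk I q) = algebraMap _ L (Ideal.Quotient.mk I p) :=
    div_mul_cancel₀ _ hq'
  have st := IsScalarTower.algebraMap_apply (MP n) (MP M ⧸ I) L
  have hint : IsIntegral (MP n) H := integral_of (R := MP M ⧸ I) (K := K) fun g hg => by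
    obtain ⟨u, Q, hQ, hu⟩ := clear_den (MP n) (MP M ⧸ I) (H * g)
    obtain ⟨g1, g2, hg2, hg1⟩ := clear_den (MP n) (MP M ⧸ I) g
    obtain ⟨b, hb⟩ := Submodule.mem_one.1 (hd g hg)
    obtain ⟨u, rfl⟩ := Ideal.Quotient.mk_surjective u
    obtain ⟨g1, rfl⟩ := Ideal.Quotient.mk_surjective g1
    obtain ⟨b, rfl⟩ := Ideal.Quotient.mk_surjective b
    obtain ⟨k, hk⟩ := trace_int (MP n) K L (Ideal.Quotient.mk I u)
    have e1 : ∀ x ∈ zeroLocus ℂ I, eval x u * eval x q * eval (pr θ x) g2
        = eval (pr θ x) Q * eval x p * eval x g1 := fun x hx => by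
      have : Ideal.Quotient.mk I u * Ideal.Quotient.mk I q * algebraMap _ _ g2 =
          algebraMap _ _ Q * Ideal.Quotient.mk I p * Ideal.Quotient.mk I g1 := inj (by
        simp only [map_mul, ← st, ← hu, ← hg1, ← hH]; ring)
      simpa only [map_mul, evR_mk, hA.evR_alg] using congrArg (evR hx) this
    have e2 : ∀ x ∈ zeroLocus ℂ I, eval x f * eval x g1 ^ r = eval x b * eval (pr θ x) g2 ^ r :=
      fun x hx => by
      have : Ideal.Quotient.mk I f * Ideal.Quotient.mk I g1 ^ r =
          Ideal.Quotient.mk I b * algebraMap _ _ g2 ^ r := inj (by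
        simp only [map_mul, map_pow, ← st, ← hg1, hb]; ring)
      simpa only [map_mul, map_pow, evR_mk, hA.evR_alg] using congrArg (evR hx) this
    obtain ⟨T, hT⟩ := rat_L2 hn (P := (minpoly (MP n) (Ideal.Quotient.mk I u)).nextCoeff) hQ
      fun w hw => by
      obtain ⟨U, hU, hU'⟩ := hL w hw
      obtain ⟨δ, hδ, hδ'⟩ := Metric.nhds_basis_closedBall.mem_iff.1 hU
      refine ⟨closedBall w δ, closedBall_mem_nhds w hδ, ?_⟩
      obtain ⟨B, hB⟩ := (hG.compact (isCompact_closedBall w δ)).exists_bound_of_continuousOn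
        (cont_ev b).continuousOn
      have m0 : MeasurableSet (pr θ ⁻¹' closedBall w δ) :=
        (cont_pr θ).measurable measurableSet_closedBall
      have m1 : Measurable fun x => ‖eval x u / eval (pr θ x) Q‖ₑ ^ 2 :=
        ((cont_ev u).measurable.div ((cont_ev Q).comp (cont_pr θ)).measurable).enorm.pow_const 2
      have m2 : Measurable fun x => ‖eval x p / eval x q‖ₑ ^ 2 :=
        ((cont_ev p).measurable.div (cont_ev q).measurable).enorm.pow_const 2
      refine (lintegral_mono fun w => hA.next_le u Q w).trans_lt ?_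
      rw [lintegral_const_mul' _ _ (by finiteness)]
      refine ENNReal.mul_lt_top (by finiteness) (lt_of_le_of_lt ?_ (ENNReal.mul_lt_top
        (a := ENNReal.ofReal B ^ (2 * (1 / r : ℝ))) (ENNReal.rpow_lt_top_of_nonneg (by positivity)
          ENNReal.ofReal_ne_top) ((lintegral_mono_set (preimage_mono hδ')).trans_lt hU')))
      rw [← lintegral_indicator m0, lint_mu _ _ (m2.indicator m0), ← lintegral_const_mul' _ _
        (ENNReal.rpow_ne_top_of_nonneg (by positivity) ENNReal.ofReal_ne_top)]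
      calc _ ≤ ∫⁻ x, (pr θ ⁻¹' closedBall w δ).indicator
            (fun x => ‖eval x u / eval (pr θ x) Q‖ₑ ^ 2) x ∂(lam I θ) := by
            rw [lam, hG.ff.lint_fm _ (m1.indicator m0), ← lintegral_indicator measurableSet_closedBall]
            refine lintegral_mono fun v => ?_
            by_cases hv : v ∈ closedBall w δ
            · rw [indicator_of_mem hv]
              exact fs_mono fun x _ e => by
                rw [indicator_of_mem (show x ∈ pr θ ⁻¹' closedBall w δ by
                  rwa [mem_preimage, e])]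
            · simp [hv]
        _ ≤ _ := by
            refine lintegral_mono_ae ?_
            filter_upwards [hG.ff.ae_mem volume, hG.ae_ne hq, hG.ae_ne hf, hG.ff.ae_of volume
              (p := fun x => eval (pr θ x) Q ≠ 0 ∧ eval (pr θ x) g2 ≠ 0)
              (((ae_poly_ne hQ).and (ae_poly_ne hg2)).mono fun v hv x _ e => e ▸ hv)]
              with x hx h1 h2 h3
            by_cases hv : x ∈ pr θ ⁻¹' closedBall w δ
            swap
            · simp [hv]
            have h4 : eval x u / eval (pr θ x) Q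
                = eval x p / eval x q * (eval x g1 / eval (pr θ x) g2) := by
              rw [div_mul_div_comm, div_eq_div_iff h3.1 (mul_ne_zero h1 h3.2), ← mul_assoc, e1 x hx]
              ring
            have h5 : (eval x g1 / eval (pr θ x) g2) ^ r = eval x b / eval x f := by
              rw [div_pow, div_eq_div_iff (pow_ne_zero _ h3.2) h2, ← e2 x hx, mul_comm]
            rw [indicator_of_mem hv, indicator_of_mem hv, h4, enorm_mul, mul_pow, mul_left_comm]
            refine mul_le_mul_right ?_ _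
            have h6 : (r : ℝ) * (2 * (1 / r)) = (2 : ℕ) := by field_simp; norm_num
            rw [← ENNReal.rpow_natCast, ← h6, ENNReal.rpow_mul, ENNReal.rpow_natCast, ← enorm_pow, h5,
              div_eq_mul_inv, enorm_mul, enorm_inv h2,
              ENNReal.mul_rpow_of_nonneg _ _ (by positivity), ENNReal.inv_rpow, ← ENNReal.rpow_neg,
              ← ofReal_norm (eval x b)]
            gcongr
            exact hB x ⟨hx, hv⟩
    refine ⟨k * -T, mul_right_cancel₀
      ((map_ne_zero_iff _ (IsFractionRing.injective (MP n) K)).2 hQ) ?_⟩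
    rw [mul_comm (Algebra.trace K L _), ← smul_eq_mul (algebraMap _ K Q), ← map_smul,
      Algebra.smul_def, ← IsScalarTower.algebraMap_apply, mul_comm _ (H * g), hu, hk, hT, ← map_mul]
    exact congrArg _ (by ring)
  obtain ⟨P, hP, hP'⟩ := hint
  obtain ⟨C, D, hC, hC'⟩ := root_growth hP
  refine ⟨C * (1 + ρ) ^ D, fun x hx hρ hxq => (hC' (pr θ x) _ ?_).trans (by gcongr)⟩
  have h1 : Polynomial.eval₂ (RingHom.id _) (Ideal.Quotient.mk I p) (Polynomial.scaleRoots
      (P.map (algebraMap _ (MP M ⧸ I))) (Ideal.Quotient.mk I q)) = 0 := by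
    apply inj
    rw [Polynomial.hom_eval₂, RingHom.comp_id, map_zero, ← hH, mul_comm]
    refine Polynomial.scaleRoots_eval₂_eq_zero _ ?_
    rwa [Polynomial.eval₂_map, ← IsScalarTower.algebraMap_eq]
  have h2 := congrArg (evR hx) h1
  rw [Polynomial.hom_eval₂, RingHom.comp_id,
    map_zero, evR_mk, ← mul_div_cancel₀ (eval x p) hxq, ← evR_mk hx q,
    Polynomial.scaleRoots_eval₂_mul, mul_eq_zero, Polynomial.eval₂_map,
    show (evR hx).comp (algebraMap _ _) = eval (pr θ x) from RingHom.ext (hA.evR_alg hx)] at h2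
  rw [sp, Polynomial.eval_map]
  exact h2.resolve_left (pow_ne_zero _ hxq)

end Pool.Agent.Lib.MP_bc3ae6_ag
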