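import Pool.Agent.Lib.MP_bc3ae6_ag.DK2
import Pool.Agent.Lib.MP_bc3ae6_ag.Nrm

set_option autoImplicit false
set_option linter.unusedSectionVars false

/-! Semicontinuity of integrability exponents, with uniform bounds. -/

namespace Pool.Agent.Lib.MP_bc3ae6_ag

open MvPolynomial Set Metric MeasureTheory Filter Topology
open scoped Polynomial ENNReal NNReal ComplexConjugate

variable {n M : ℕ} {I : Ideal (MP M)} {θ : Fin n → MP M} {d : ℕ} {F : Fin M → (MP n)[X]}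
  {h : MvPolynomial (Fin n ⊕ Fin M) ℂ}

lemma mu_ac (f : MP M) (s : ℝ) : mu I θ f s ≪ lam I θ := withDensity_absolutelyContinuous _ _

lemma lint_mu_set (f : MP M) (s : ℝ) {H : (Fin M → ℂ) → ℝ≥0∞} (hH : Measurable H)
    {S : Set (Fin M → ℂ)} (hS : MeasurableSet S) : ∫⁻ x in S, H x ∂(mu I θ f s)
      = ∫⁻ x in S, H x * ‖eval x f‖ₑ ^ (-(2 * s)) ∂(lam I θ) := by
  rw [mu, setLIntegral_withDensity_eq_setLIntegral_mul _ (meas_dens f s) hH hS]; simp [mul_comm]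

lemma Sh_nhds {w : Fin n → ℂ} (hw : w ≠ 0) : ∃ ρ > 0, ∃ U ∈ 𝓝 w, pr θ ⁻¹' U = Sh θ ρ := by
  have h0 := norm_pos_iff.2 hw
  refine ⟨‖w‖ + 1 + ‖w‖⁻¹, by positivity, norm ⁻¹' Icc (‖w‖ + 1 + ‖w‖⁻¹)⁻¹ (‖w‖ + 1 + ‖w‖⁻¹),
    continuous_norm.continuousAt.preimage_mem_nhds (Icc_mem_nhds ?_ ?_), rfl⟩
  · rw [inv_lt_comm₀ (by positivity) h0]; linarith
  · linarith [inv_pos.2 h0]

/-- Combinations that are square integrable on all shells. -/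
def shS {κ : Type} [Fintype κ] (θ : Fin n → MP M) (μ : Measure (Fin M → ℂ))
    {u : κ → (Fin M → ℂ) → ℂ} (hu : ∀ a, Measurable (u a)) : Submodule ℂ (κ → ℂ) where
  carrier := {c | ∀ ρ > 0, ∫⁻ x in Sh θ ρ, ‖pc u x c‖ₑ ^ 2 ∂μ < ⊤}
  add_mem' := fun {a b} ha hb ρ hρ => by
    have m : Measurable fun x => 2 * ‖pc u x a‖ₑ ^ 2 :=
      ((meas_pc hu a).enorm.pow_const 2).const_mul 2
    refine lt_of_le_of_lt (lintegral_mono fun x => (map_add (pc u x) a b).symm ▸ sq_add_le _ _) ?_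
    rw [lintegral_add_left m, lintegral_const_mul' _ _ (by simp), lintegral_const_mul' _ _ (by simp)]
    have := ha ρ hρ
    have := hb ρ hρ
    finiteness
  zero_mem' := fun ρ _ => by simp
  smul_mem' := fun r c hc ρ hρ => by
    simp only [map_smul, smul_eq_mul, enorm_mul, mul_pow]
    rw [lintegral_const_mul' _ _ (by finiteness)]
    have := hc ρ hρ
    finiteness

namespace Geo

variable (hG : Geo I θ d F h) {f : MP M} (hf : f ∉ I) {s : ℝ}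
include hG

lemma ae_mu : ∀ᵐ x ∂(mu I θ f s), x ∈ zeroLocus ℂ I := (mu_ac f s).ae_le (hG.ff.ae_mem volume)

lemma fin_of_lint {b : MP M} {c ρ : ℝ} (hc : 0 ≤ c)
    (hI : ∫⁻ x in Sh θ ρ, ‖eval x b‖ₑ ^ (-(2 * c)) ∂(mu I θ f s) < ⊤) : mu I θ f s (Sh θ ρ) < ⊤ := by
  obtain ⟨B, hB⟩ := (hG.compact_Sh ρ).exists_bound_of_continuousOn (cont_ev b).continuousOn
  have h1 : ∫⁻ _ in Sh θ ρ, ENNReal.ofReal ((B ^ 2 + 1) ^ (-c)) ∂(mu I θ f s) < ⊤ := by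
    refine lt_of_le_of_lt (setLIntegral_mono_ae' (meas_Sh ρ) ?_) hI
    filter_upwards [hG.ae_mu] with x hx hx'
    exact ofReal_rpow_neg_le (by
      linarith [pow_le_pow_left₀ (norm_nonneg _) (hB x ⟨hx, hx'⟩) 2]) (by positivity) hc
  rw [setLIntegral_const] at h1
  exact ENNReal.lt_top_of_mul_ne_top_right h1.ne (by simp; positivity)

lemma fd_shell (hN : NB I θ f s) (K : ℕ) {ρ : ℝ} (hρ : 0 < ρ) : ∃ C : ℝ≥0∞, C < ⊤ ∧
    ∀ c ∈ shS θ (mu I θ f s) (meas_uq (θ := θ) (F := F) (h := h) K),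
      ∀ᵐ x ∂(mu I θ f s).restrict (Sh θ ρ), ‖pc (uq θ F h K) x c‖ₑ ^ 2 ≤
        C * ∫⁻ x in Sh θ ρ, ‖pc (uq θ F h K) x c‖ₑ ^ 2 ∂(mu I θ f s) := by
  refine fd_sup (meas_uq K) _ (fun c hc => hc ρ hρ) fun c hc => ?_
  have e : ∀ x, pc (uq θ F h K) x c = eval x (pull θ (∑ a, C (c a) * PB K a)) /
      eval x (pull θ (den F h)) := fun x => by
    rw [pc_uq]; simp [ev_pull, pc_apply, ub]
  obtain ⟨B, hB⟩ := hN (pull θ (∑ a, C (c a) * PB K a)) _ hG.nz_den (fun w hw => by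
    obtain ⟨ρ', h1, U, hU, h2⟩ := Sh_nhds (θ := θ) hw
    exact ⟨U, hU, by simpa only [h2, ← e] using hc ρ' h1⟩) ρ
  refine ⟨B, ?_⟩
  filter_upwards [ae_restrict_mem (meas_Sh ρ), ae_restrict_of_ae hG.ae_mu,
    ae_restrict_of_ae ((mu_ac f s).ae_le (hG.ae_ne hG.nz_den))] with x h1 h2 h3
  rw [e]; exact hB x h2 h1.2 h3

include hf

lemma dk_B {b : MP M} {c κ K w ε R B ρ : ℝ} (hε : 0 < ε) (hκ : 0 ≤ κ) (hK : 0 ≤ K) (hw : 0 < w)
    (hw1 : w ≤ 1) (hR : 1 ≤ R)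
    (hB : ∀ x ∈ zeroLocus ℂ I ∩ Sh θ ρ, ‖eval x b‖ ^ 2 ≤ B ∧ nsq (emb θ x) ≤ B) (hB0 : 0 ≤ B)
    {u : (Fin M → ℂ) → ℂ} (hu : Measurable u) :
    ∫⁻ x in Sh θ ρ, ‖u x‖ₑ ^ 2 * ENNReal.ofReal ((‖eval x b‖ ^ 2 + ε) ^ (-c)) ∂(mu I θ f s) ≤
      ENNReal.ofReal ((B + 1) ^ (κ + K + 1)) * ∫⁻ x, ‖u x‖ₑ ^ 2 *
        ⨆ k, ENNReal.ofReal (dw θ b f c κ s K w ε R k x) ∂(lam I θ) := by
  have m : Measurable fun x => ‖u x‖ₑ ^ 2 * ENNReal.ofReal ((‖eval x b‖ ^ 2 + ε) ^ (-c)) :=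
    (hu.enorm.pow_const 2).mul ((((cont_ev b).norm.measurable.pow_const 2).add_const
      _).pow_const _).ennreal_ofReal
  rw [lint_mu_set _ _ m (meas_Sh ρ), ← lintegral_const_mul' _ _ ENNReal.ofReal_ne_top]
  refine le_trans (setLIntegral_mono_ae' (meas_Sh ρ) ?_) (setLIntegral_le_lintegral (Sh θ ρ) _)
  filter_upwards [hG.ff.ae_mem volume, hG.ae_ne hf] with x h1 h2 h3
  rw [mul_assoc, mul_left_comm (ENNReal.ofReal ((B + 1) ^ (κ + K + 1)))]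
  refine mul_le_mul_right (le_trans (le_of_eq ?_) (mul_le_mul_right (le_dw h2 hε hκ hK hw hw1 hR
    (hB x ⟨h1, h3⟩).1 (hB x ⟨h1, h3⟩).2) _)) _
  rw [← mul_assoc, ← ENNReal.ofReal_mul (by positivity), Real.rpow_neg (x := B + 1) (by positivity)]
  congr 2; field_simp

lemma dk_B' {b : MP M} {c κ K w ε R B ρ : ℝ} (hε : 0 < ε) (hε1 : ε ≤ 1) (hc : 0 ≤ c) (hκ : 0 ≤ κ)
    (hK : 0 ≤ K) (hw : 0 < w) (hw1 : w ≤ 1) (hR : 1 ≤ R)
    (hB : ∀ x ∈ zeroLocus ℂ I ∩ Sh θ ρ, ‖eval x b‖ ^ 2 ≤ B ∧ nsq (emb θ x) ≤ B) (hB0 : 0 ≤ B)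
    {g u : (Fin M → ℂ) → ℂ} (hg : Measurable g) (hu : Measurable u) :
    ∫⁻ x in Sh θ ρ, ‖u x‖ₑ ^ 2 ∂(mu I θ f s) ≤ 2 * (ENNReal.ofReal ((B + 1) ^ c) *
      (ENNReal.ofReal ((B + 1) ^ (κ + K + 1)) * ∫⁻ x, ‖g x - u x‖ₑ ^ 2 *
        ⨆ k, ENNReal.ofReal (dw θ b f c κ s K w ε R k x) ∂(lam I θ))) +
      2 * ∫⁻ x in Sh θ ρ, ‖g x‖ₑ ^ 2 ∂(mu I θ f s) := by
  have m : Measurable fun x => 2 * ‖g x‖ₑ ^ 2 := (hg.enorm.pow_const 2).const_mul 2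
  have m' : Measurable fun x => g x - u x := hg.sub hu
  refine (lintegral_mono fun x => sq_le_sub (g x) (u x)).trans ?_
  rw [lintegral_add_right _ m, lintegral_const_mul' _ _ (by simp), lintegral_const_mul' _ _ (by simp)]
  refine add_le_add_left (mul_le_mul_right (le_trans ?_ (mul_le_mul_right
    (hG.dk_B hf hε hκ hK hw hw1 hR hB hB0 m') _)) _) _
  rw [← lintegral_const_mul' _ _ ENNReal.ofReal_ne_top]
  refine setLIntegral_mono_ae' (meas_Sh ρ) ?_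
  filter_upwards [hG.ae_mu] with x h1 h2
  rw [mul_left_comm, ← ENNReal.ofReal_mul (by positivity)]
  refine le_mul_of_one_le_right' (ENNReal.one_le_ofReal.2 ?_)
  rw [Real.rpow_neg (by positivity), ← div_eq_mul_inv, one_le_div (by positivity)]
  gcongr
  exact (hB x ⟨h1, h2⟩).1

omit hf in
lemma exists_shB (b : MP M) (ρ : ℝ) : ∃ B, 0 ≤ B ∧
    ∀ x ∈ zeroLocus ℂ I ∩ Sh θ ρ, ‖eval x b‖ ^ 2 ≤ B ∧ nsq (emb θ x) ≤ B := by
  obtain ⟨B, hB⟩ := (hG.compact_Sh ρ).exists_bound_of_continuousOn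
    (((cont_ev b).norm.pow 2).add (cont_nsq.comp (cont_emb θ))).continuousOn
  refine ⟨|B|, abs_nonneg _, fun x hx => ?_⟩
  have := ((le_abs_self _).trans (hB x hx)).trans (le_abs_self B)
  simp only [Pi.add_apply, Pi.pow_apply, Function.comp_apply] at this
  exact ⟨by linarith [nsq_nonneg (emb θ x)], by linarith [sq_nonneg ‖eval x b‖]⟩

omit hG hf in
lemma exists_R {A : ℕ} {K : ℝ} (hI : ∫⁻ x, ENNReal.ofReal (gw θ A K x) ∂(mu I θ f s) < ⊤)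
    {a η : ℝ≥0∞} (ha : a ≠ ⊤) (hη : 0 < η) (B : ℝ) : ∃ R, 1 ≤ R ∧ B ≤ R ^ 2 / 4 ∧
      a * ∫⁻ x in {x | R ^ 2 / 4 ≤ nsq (emb θ x)}, ENNReal.ofReal (gw θ A K x) ∂(mu I θ f s) ≤ η := by
  have m : ∀ R : ℕ, MeasurableSet {x | (R : ℝ) ^ 2 / 4 ≤ nsq (emb θ x)} := fun R =>
    measurableSet_le measurable_const (cont_nsq.comp (cont_emb θ)).measurable
  have h0 : Tendsto (fun R : ℕ => (R : ℝ) ^ 2 / 4) atTop atTop :=
    ((tendsto_pow_atTop two_ne_zero).comp tendsto_natCast_atTop_atTop).atTop_div_const (by norm_num)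
  have h1 := tendsto_lintegral_of_dominated_convergence (μ := mu I θ f s) (f := fun _ => 0)
    (F := fun (R : ℕ) => {x | (R : ℝ) ^ 2 / 4 ≤ nsq (emb θ x)}.indicator
      fun x => ENNReal.ofReal (gw θ A K x)) _
    (fun R => (meas_gw A K).indicator (m R))
    (fun R => Eventually.of_forall fun x => indicator_le_self _ _ x) hI.ne
    (Eventually.of_forall fun x => tendsto_const_nhds.congr' (by
      filter_upwards [h0.eventually_gt_atTop (nsq (emb θ x))] with R hR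
      exact (indicator_of_notMem (s := {x | (R : ℝ) ^ 2 / 4 ≤ nsq (emb θ x)}) (not_le.2 hR) _).symm))
  simp only [lintegral_zero, lintegral_indicator (m _)] at h1
  have h2 := ENNReal.Tendsto.const_mul (a := a) h1 (Or.inr ha)
  rw [mul_zero] at h2
  obtain ⟨R, h3, h4, h5⟩ := ((eventually_ge_atTop 1).and ((h0.eventually_ge_atTop B).and
    (h2.eventually (ge_mem_nhds hη)))).exists
  exact ⟨R, by exact_mod_cast h3, h4, h5⟩

end Geo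

end Pool.Agent.Lib.MP_bc3ae6_ag
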