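import Pool.Agent.Lib.MP_bc3ae6_ag.Bas
import Pool.Agent.Lib.MP_bc3ae6_ag.DK3

set_option autoImplicit false
set_option linter.unusedSectionVars false

/-! Local integrability on the punctured cone versus integrability on shells. -/

namespace Pool.Agent.Lib.MP_bc3ae6_ag

open MvPolynomial Set Metric MeasureTheory Filter Topology
open scoped Polynomial ENNReal NNReal

variable {n M : ℕ} {I : Ideal (MP M)} {θ : Fin n → MP M} {d : ℕ} {F : Fin M → (MP n)[X]}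
  {h : MvPolynomial (Fin n ⊕ Fin M) ℂ}

theorem Geo.sigmaFinite_mu (hG : Geo I θ d F h) {f : MP M} (hf : f ∉ I) (s : ℝ) :
    SigmaFinite (mu I θ f s) := by
  have : IsFiniteMeasureOnCompacts (lam I θ) := ⟨fun _ hK => hG.lam_lt hK⟩
  refine SigmaFinite.withDensity_of_ne_top ?_
  filter_upwards [hG.ae_ne hf] with x hx
  rw [enorm_rpow_neg hx]
  exact ENNReal.ofReal_ne_top

theorem Hom.pr_zero {wt : Fin M → ℕ} {e : ℕ} (hH : Hom I θ wt e) : pr θ 0 = 0 := by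
  funext i
  have h1 := ev_sc (t := 2) two_ne_zero (hH.hθ i) 0
  have h2 : sc wt (t := 2) two_ne_zero 0 = 0 := funext fun l => by simp [sc_apply]
  rw [h2] at h1
  have h3 : ((2 : ℝ) : ℂ) ^ e ≠ 1 := by
    have : (1 : ℝ) < 2 ^ e := one_lt_pow₀ one_lt_two hH.he.ne'
    exact_mod_cast this.ne'
  have h4 : (((2 : ℝ) : ℂ) ^ e - 1) * eval 0 (θ i) = 0 := by rw [sub_mul, ← h1, one_mul, sub_self]
  exact (mul_eq_zero.1 h4).resolve_left (sub_ne_zero.2 h3)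

theorem Geo.eq_zero (hG : Geo I θ d F h) {wt : Fin M → ℕ} {e : ℕ} (hH : Hom I θ wt e)
    {x : Fin M → ℂ} (hx : x ∈ zeroLocus ℂ I) (h0 : pr θ x = 0) : x = 0 := by
  obtain ⟨R, hR⟩ := (hG.compact (isCompact_singleton (x := 0))).isBounded.exists_norm_le
  funext l
  by_contra hl
  have h1 : 0 < ‖x l‖ := norm_pos_iff.2 hl
  have ht : 1 ≤ |R| / ‖x l‖ + 1 := le_add_of_nonneg_left (by positivity)
  have h2 : |R| < (|R| / ‖x l‖ + 1) * ‖x l‖ := by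
    rw [add_mul, div_mul_cancel₀ _ h1.ne']; linarith
  generalize |R| / ‖x l‖ + 1 = t at ht h2
  have ht0 : t ≠ 0 := by linarith
  have h3 := hR (sc wt ht0 x) ⟨sc_mem hH.hI ht0 hx, funext fun i => by
    have := congrFun h0 i
    simp only [pr, Pi.zero_apply] at this ⊢
    rw [ev_sc ht0 (hH.hθ i), this, mul_zero]⟩
  have h4 := (norm_le_pi_norm _ l).trans h3
  rw [sc_apply, norm_mul, norm_pow, Complex.norm_real, Real.norm_of_nonneg (by linarith)] at h4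
  have h5 : t ≤ t ^ wt l := le_self_pow₀ ht (hH.hw l).ne'
  have h6 := mul_le_mul_of_nonneg_right h5 h1.le
  linarith [le_abs_self R]

lemma Sh_mono {ρ ρ' : ℝ} (hρ : 0 < ρ) (h : ρ ≤ ρ') : Sh θ ρ ⊆ Sh θ ρ' := fun _ hx =>
  ⟨(inv_anti₀ hρ h).trans hx.1, hx.2.trans h⟩

lemma Hom.ne_of_Sh {wt : Fin M → ℕ} {e : ℕ} (hH : Hom I θ wt e) {ρ : ℝ} (hρ : 0 < ρ)
    {x : Fin M → ℂ} (hx : x ∈ zeroLocus ℂ I ∩ Sh θ ρ) : x ∈ zeroLocus ℂ I \ {0} := by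
  refine ⟨hx.1, fun h0 => ?_⟩
  have h1 := hx.2.1
  rw [mem_singleton_iff.1 h0, hH.pr_zero, norm_zero] at h1
  exact h1.not_gt (inv_pos.2 hρ)

lemma Geo.Sh_mem_nhds (hG : Geo I θ d F h) {wt : Fin M → ℕ} {e : ℕ} (hH : Hom I θ wt e)
    {x : Fin M → ℂ} (hx : x ∈ zeroLocus ℂ I \ {0}) : ∃ ρ > 0, Sh θ ρ ∈ 𝓝 x := by
  obtain ⟨ρ, hρ, U, hU, e1⟩ := Sh_nhds (θ := θ) (w := pr θ x) fun h0 => hx.2 (hG.eq_zero hH hx.1 h0)
  exact ⟨ρ, hρ, e1 ▸ (cont_pr θ).continuousAt.preimage_mem_nhds hU⟩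

lemma lint_compact {E : Type*} [TopologicalSpace E] [MeasurableSpace E] {μ : Measure E}
    {H : E → ℝ≥0∞} {K : Set E} (hK : IsCompact K)
    (h : ∀ x ∈ K, ∃ V ∈ 𝓝 x, ∫⁻ y in V, H y ∂μ < ⊤) : ∫⁻ y in K, H y ∂μ < ⊤ := by
  refine hK.induction_on (p := fun S => ∫⁻ y in S, H y ∂μ < ⊤) (by simp)
    (fun S T hST hT => (lintegral_mono_set hST).trans_lt hT)
    (fun S T hS hT => (lintegral_union_le _ _ _).trans_lt (ENNReal.add_lt_top.2 ⟨hS, hT⟩))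
    fun x hx => ?_
  obtain ⟨V, hV, hV'⟩ := h x hx
  exact ⟨V, mem_nhdsWithin_of_mem_nhds hV, hV'⟩

lemma Geo.Sh_le (hG : Geo I θ d F h) (f : MP M) (s ρ : ℝ) :
    Sh θ ρ ≤ᵐ[mu I θ f s] (zeroLocus ℂ I ∩ Sh θ ρ : Set _) := by
  filter_upwards [hG.ae_mu (f := f) (s := s)] with x hx hx' using ⟨hx, hx'⟩

theorem Geo.li_iff (hG : Geo I θ d F h) {wt : Fin M → ℕ} {e : ℕ} (hH : Hom I θ wt e) (f : MP M)
    (s : ℝ) (H : (Fin M → ℂ) → ℝ≥0∞) :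
    (∀ x ∈ zeroLocus ℂ I \ {0}, ∃ V ∈ 𝓝 x, ∫⁻ y in V, H y ∂(mu I θ f s) < ⊤) ↔
      ∀ ρ > 0, ∫⁻ y in Sh θ ρ, H y ∂(mu I θ f s) < ⊤ := by
  refine ⟨fun h1 ρ hρ => (lintegral_mono_set' (hG.Sh_le f s ρ)).trans_lt
    (lint_compact (hG.compact_Sh ρ) fun x hx => h1 x (hH.ne_of_Sh hρ hx)), fun h1 x hx => ?_⟩
  obtain ⟨ρ, hρ, h2⟩ := hG.Sh_mem_nhds hH hx
  exact ⟨_, h2, h1 ρ hρ⟩

theorem Geo.li_pi_iff (hG : Geo I θ d F h) {wt : Fin M → ℕ} {e : ℕ} (hH : Hom I θ wt e) {f : MP M}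
    (hf : f ∉ I) (s : ℝ) {N : ℕ} (H : (Fin N → Fin M → ℂ) → ℝ≥0∞) :
    (∀ x ∈ Set.pi univ (fun _ : Fin N => zeroLocus ℂ I \ {0}), ∃ V ∈ 𝓝 x,
      ∫⁻ y in V, H y ∂(Measure.pi fun _ => mu I θ f s) < ⊤) ↔
      ∀ ρ > 0, ∫⁻ y, H y ∂(Measure.pi fun _ => (mu I θ f s).restrict (Sh θ ρ)) < ⊤ := by
  have := hG.sigmaFinite_mu hf s
  have e1 : ∀ ρ, (Measure.pi fun _ : Fin N => (mu I θ f s).restrict (Sh θ ρ)) =
      (Measure.pi fun _ : Fin N => mu I θ f s).restrict (Set.pi univ fun _ => Sh θ ρ) :=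
    fun ρ => (Measure.restrict_pi_pi _ _).symm
  simp only [e1]
  refine ⟨fun h1 ρ hρ => (lintegral_mono_set' (Measure.ae_le_set_pi
    (t := fun _ => zeroLocus ℂ I ∩ Sh θ ρ) fun _ _ => hG.Sh_le f s ρ)).trans_lt
    (lint_compact (isCompact_univ_pi fun _ => hG.compact_Sh ρ) fun x hx =>
      h1 x fun i hi => hH.ne_of_Sh hρ (hx i hi)), fun h1 x hx => ?_⟩
  choose ρ hρ h2 using fun i => hG.Sh_mem_nhds hH (hx i (mem_univ i))
  have h3 : 0 ≤ ∑ i, ρ i := Finset.sum_nonneg fun i _ => (hρ i).le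
  refine ⟨_, set_pi_mem_nhds finite_univ fun i _ => mem_of_superset (h2 i) (Sh_mono (hρ i) ?_),
    h1 (1 + ∑ i, ρ i) (by positivity)⟩
  linarith [Finset.single_le_sum (fun i _ => (hρ i).le) (Finset.mem_univ i)]

lemma neg_rpow_add (a : ℝ≥0∞) {s x : ℝ} (hs : 0 < s) (hx : 0 < x) :
    (a ^ (-(2 * s))) ^ ((s + x) / s) = a ^ (-(2 * x)) * a ^ (-(2 * s)) := by
  rw [← ENNReal.rpow_mul, ENNReal.rpow_neg, ENNReal.rpow_neg, ← ENNReal.inv_rpow,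
    ← ENNReal.inv_rpow, ← ENNReal.rpow_add_of_nonneg _ _ (by positivity) (by positivity),
    ENNReal.inv_rpow, ← ENNReal.rpow_neg]
  congr 1; field_simp; ring

theorem Geo.hp (hG : Geo I θ d F h) {f : MP M} {s x ρ : ℝ} (hs : 0 < s) (hx : 0 < x) (hρ : 0 < ρ)
    (hI : ∫⁻ y in Sh θ ρ, ‖eval y f‖ₑ ^ (-(2 * x)) ∂(mu I θ f s) < ⊤) {c : ℝ≥0∞} (hc : c ≠ ⊤) :
    HP I θ (c • (mu I θ f s).restrict (Sh θ ρ)) (x / (s + x)) ρ := by
  refine ⟨hρ, Measure.ae_smul_measure ?_ c, ?_⟩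
  · filter_upwards [ae_restrict_of_ae hG.ae_mu, ae_restrict_mem (meas_Sh ρ)] with y h1 h2
    exact ⟨h1, h2⟩
  rw [lint_mu_set _ _ (meas_dens f x) (meas_Sh ρ)] at hI
  set J := ∫⁻ y in Sh θ ρ, ‖eval y f‖ₑ ^ (-(2 * x)) * ‖eval y f‖ₑ ^ (-(2 * s)) ∂(lam I θ) with hJ
  have hpq : ((s + x) / s).HolderConjugate ((s + x) / x) :=
    ⟨by field_simp, by positivity, by positivity⟩
  have h0 : 0 ≤ x / (s + x) := by positivity
  refine ⟨c * (J ^ (1 / ((s + x) / s)) * ((d ^ M : ℕ) : ℝ≥0∞) ^ (x / (s + x))),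
    ENNReal.mul_lt_top hc.lt_top (ENNReal.mul_lt_top
      (ENNReal.rpow_lt_top_of_nonneg (by positivity) hI.ne)
      (ENNReal.rpow_lt_top_of_nonneg h0 (ENNReal.natCast_ne_top _))), fun U hU => ?_⟩
  have hm : MeasurableSet (pr θ ⁻¹' U) := (cont_pr θ).measurable hU
  have hi : Measurable ((pr θ ⁻¹' U).indicator (1 : (Fin M → ℂ) → ℝ≥0∞)) :=
    measurable_one.indicator hm
  rw [Measure.smul_apply, smul_eq_mul, mul_assoc, mul_assoc, ← ENNReal.mul_rpow_of_nonneg _ _ h0,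
    ← lintegral_indicator_one hm, lint_mu_set _ _ hi (meas_Sh ρ)]
  refine mul_le_mul_right ?_ c
  have h1 := ENNReal.lintegral_mul_le_Lp_mul_Lq ((lam I θ).restrict (Sh θ ρ)) hpq
    (meas_dens f s).aemeasurable hi.aemeasurable
  simp only [Pi.mul_apply, neg_rpow_add _ hs hx, ← hJ] at h1
  simp only [mul_comm ((pr θ ⁻¹' U).indicator _ _)]
  refine h1.trans (mul_le_mul_right ?_ _)
  rw [one_div_div]
  refine ENNReal.rpow_le_rpow ?_ h0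
  have h2 : ∀ y, (pr θ ⁻¹' U).indicator (1 : (Fin M → ℂ) → ℝ≥0∞) y ^ ((s + x) / x)
      = (pr θ ⁻¹' U).indicator 1 y := fun y => by
    by_cases hy : y ∈ pr θ ⁻¹' U
    · simp [indicator_of_mem hy]
    · rw [indicator_of_notMem hy, ENNReal.zero_rpow_of_pos (by positivity)]
  simp only [h2]
  refine (setLIntegral_le_lintegral _ _).trans ?_
  rw [lintegral_indicator_one hm]
  exact hG.ff.fm_le _ fun _ _ hy => hy

end Pool.Agent.Lib.MP_bc3ae6_ag
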