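import Pool.Agent.Lib.MP_bc3ae6_ag.OT2

set_option autoImplicit false
set_option linter.unusedSectionVars false

/-! Extension from a point: final form. -/

namespace Pool.Agent.Lib.MP_bc3ae6_ag

open MvPolynomial Set Metric MeasureTheory Filter Topology
open scoped Polynomial ENNReal NNReal ComplexConjugate Real

lemma radius_aux {ρ φ A B β s κ : ℝ} (hρ : 0 < ρ) (hφ : 0 < φ) (hA : 1 ≤ A) (hρB : ρ ≤ B)
    (hφB : φ ≤ B) (hB : 1 ≤ B) (hκ : 0 < κ) (hsκ : s + 2 * κ ≤ 2) (hs : 0 ≤ s) :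
    ∃ r, 0 < r ∧ r ≤ 1 ∧ A * r ^ 2 ≤ ρ ∧ A * r ^ 2 ≤ φ ∧
      (ρ / 4) ^ (-β) * (φ / 4) ^ (-s) * (r ^ 2) ^ (-(2 * κ)) ≤
        4 ^ β * 4 ^ s * (A * B ^ 2) ^ (2 * κ) * B ^ 2 * (φ ^ 2)⁻¹ * ρ ^ (-(β + 2 * κ)) := by
  have h0 : 0 < ρ * φ / (A * B ^ 2) := by positivity
  have h1 : ρ * φ ≤ B ^ 2 := by nlinarith
  refine ⟨√(ρ * φ / (A * B ^ 2)), Real.sqrt_pos.2 h0, Real.sqrt_le_one.2 ?_, ?_, ?_, ?_⟩
  · rw [div_le_one (by positivity)]; nlinarith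
  · rw [Real.sq_sqrt h0.le, mul_div_assoc', div_le_iff₀ (by positivity)]
    have : φ ≤ B ^ 2 := by nlinarith
    nlinarith [mul_pos hρ (by linarith : 0 < A)]
  · rw [Real.sq_sqrt h0.le, mul_div_assoc', div_le_iff₀ (by positivity)]
    have : ρ ≤ B ^ 2 := by nlinarith
    nlinarith [mul_pos hφ (by linarith : 0 < A)]
  · have h2 : φ ^ (-s) * φ ^ (-(2 * κ)) ≤ B ^ 2 * (φ ^ 2)⁻¹ := by
      rw [← div_eq_mul_inv, le_div_iff₀ (by positivity), ← Real.rpow_natCast φ,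
        ← Real.rpow_add hφ, ← Real.rpow_add hφ, ← Real.rpow_natCast B]
      exact (Real.rpow_le_rpow hφ.le hφB (by push_cast; linarith)).trans
        (Real.rpow_le_rpow_of_exponent_le hB (by push_cast; linarith))
    rw [Real.sq_sqrt h0.le, Real.div_rpow hρ.le (by norm_num), Real.div_rpow hφ.le (by norm_num),
      Real.div_rpow (by positivity) (by positivity), Real.mul_rpow hρ.le hφ.le, neg_add,
      Real.rpow_add hρ, Real.rpow_neg (x := 4) (by norm_num), Real.rpow_neg (x := 4) (by norm_num),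
      Real.rpow_neg (x := A * B ^ 2) (by positivity)]
    calc _ = 4 ^ β * 4 ^ s * (A * B ^ 2) ^ (2 * κ) * (φ ^ (-s) * φ ^ (-(2 * κ)))
          * (ρ ^ (-β) * ρ ^ (-(2 * κ))) := by field_simp
      _ ≤ 4 ^ β * 4 ^ s * (A * B ^ 2) ^ (2 * κ) * (B ^ 2 * (φ ^ 2)⁻¹)
          * (ρ ^ (-β) * ρ ^ (-(2 * κ))) := by gcongr
      _ = _ := by ring

/-- The null combinations. -/
def nullS {Ω κ : Type} [MeasurableSpace Ω] [Fintype κ] (ν : Measure Ω) (u : κ → Ω → ℂ) :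
    Submodule ℂ (κ → ℂ) where
  carrier := {c | ∀ᵐ y ∂ν, pc u y c = 0}
  add_mem' := fun ha hb => by
    rw [mem_ofPred_eq] at ha hb ⊢
    filter_upwards [ha, hb] with y h1 h2
    rw [map_add, h1, h2, add_zero]
  zero_mem' := by rw [mem_ofPred_eq]; exact Eventually.of_forall fun y => map_zero _
  smul_mem' := fun r c hc => by
    rw [mem_ofPred_eq] at hc ⊢
    filter_upwards [hc] with y h1
    rw [map_smul, h1, smul_zero]

lemma fd_ot {Ω κ : Type} [MeasurableSpace Ω] [Fintype κ] (ν : Measure Ω) {u : κ → Ω → ℂ}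
    (hu : ∀ a, Measurable (u a)) (hV : ∀ c, ∫⁻ y, ‖pc u y c‖ₑ ^ 2 ∂ν < ⊤) {B : ℝ} (hB : 0 < B) :
    ∃ C : ℝ, 0 ≤ C ∧ ∀ᵐ y ∂ν, ∀ w : Ω → ℝ, Measurable w → (∀ᵐ x ∂ν, B ≤ w x) → ∀ c (J : ℝ), 0 ≤ J →
      ∫⁻ x, ENNReal.ofReal (w x) * ‖pc u x c‖ₑ ^ 2 ∂ν ≤ ENNReal.ofReal J →
      ∃ c', pc u y c' = pc u y c ∧ nsq c' + ∫ x, w x * ‖pc u x c'‖ ^ 2 ∂ν ≤ C * J := by
  obtain ⟨C, hC, hC'⟩ := fd0 (ν := ν) hu ⊤ fun c _ => hV c
  refine ⟨Fintype.card κ * (C.toReal / B) + 1, by positivity, ?_⟩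
  filter_upwards [ae_null (nullS ν u) fun c hc => hc] with y hy w hw hwB c J hJ0 hJ
  obtain ⟨c', -, h1, h2⟩ := hC' c trivial
  refine ⟨c', sub_eq_zero.1 ((map_sub _ _ _).symm.trans (hy _ ?_)), ?_⟩
  · change ∀ᵐ y ∂ν, _
    filter_upwards [h1] with x hx
    rw [map_sub, hx, sub_self]
  have h3 : ∫ x, w x * ‖pc u x c'‖ ^ 2 ∂ν ≤ J := by
    rw [integral_eq_lintegral_of_nonneg_ae (hwB.mono fun x hx => mul_nonneg (hB.le.trans hx)
      (sq_nonneg _)) (hw.mul ((meas_pc hu c').norm.pow_const 2)).aestronglyMeasurable]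
    refine ENNReal.toReal_le_of_le_ofReal hJ0 (le_trans (lintegral_mono_ae ?_) hJ)
    filter_upwards [h1, hwB] with x hx hx'
    rw [hx, ENNReal.ofReal_mul (hB.le.trans hx'), enorm_sq]
  have h4 : ENNReal.ofReal B * ‖c'‖ₑ ^ 2 ≤ C * ENNReal.ofReal J := by
    refine (mul_le_mul_right h2 _).trans ?_
    rw [mul_left_comm, ← lintegral_const_mul' _ _ ENNReal.ofReal_ne_top]
    refine mul_le_mul_right (le_trans (lintegral_mono_ae ?_) hJ) _
    filter_upwards [hwB] with x hx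
    gcongr
  have h5 := ENNReal.toReal_mono (by finiteness) h4
  simp only [ENNReal.toReal_mul, ENNReal.toReal_pow, toReal_enorm, ENNReal.toReal_ofReal hB.le,
    ENNReal.toReal_ofReal hJ0] at h5
  have h6 : ‖c'‖ ^ 2 ≤ C.toReal / B * J := by
    rw [div_mul_eq_mul_div, le_div_iff₀ hB]; linarith
  have h7 := (nsq_le fun i => norm_le_pi_norm c' i).trans
    (mul_le_mul_of_nonneg_left h6 (Nat.cast_nonneg _))
  linarith

variable {n M : ℕ} {I : Ideal (MP M)} {θ : Fin n → MP M} {d : ℕ} {F : Fin M → (MP n)[X]}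
  {h : MvPolynomial (Fin n ⊕ Fin M) ℂ}

lemma ac_of_le {f : MP M} {s R : ℝ} {ν : Measure (Fin M → ℂ)} {c0 : ℝ≥0∞}
    (hν : ν ≤ c0 • (mu I θ f s).restrict (closedBall 0 R)) :
    ν ≪ lam I θ ∧ ∀ᵐ x ∂ν, ‖x‖ ≤ R := by
  have h1 := Measure.absolutelyContinuous_of_le_smul hν
  refine ⟨h1.trans (Measure.restrict_le_self.absolutelyContinuous.trans
    (withDensity_absolutelyContinuous _ _)), h1.ae_le ?_⟩
  filter_upwards [ae_restrict_mem measurableSet_closedBall] with x hx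
  exact mem_closedBall_zero_iff.1 hx

theorem Geo.ot (hG : Geo I θ d F h) {f : MP M} (hf : f ∉ I) {s β κ : ℝ} (hs : 0 ≤ s) (hβ : 0 ≤ β)
    (hκ : 0 < κ) (hsκ : s + 2 * κ ≤ 2) {D : ℕ} {K : ℝ}
    (hK : β * D + s * f.totalDegree + (n + κ) * (1 : ℕ) + κ * (1 : ℕ) ≤ K) (R : ℝ) {N : ℕ}
    {sv : Fin N → MP M} (hsv : ∀ i, (sv i).totalDegree ≤ D) {ν : Measure (Fin M → ℂ)}
    [IsFiniteMeasure ν] {c0 : ℝ≥0∞} (hc0 : c0 < ⊤)
    (hν : ν ≤ c0 • (mu I θ f s).restrict (closedBall 0 R)) :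
    ∃ C : ℝ, ∀ ε : ℝ, 0 < ε → ε ≤ 1 → ∀ B : Fin N → Fin N → ℂ, (∀ i j, ‖B i j‖ ≤ 1) →
      ∀ᵐ y ∂ν, ∃ c, pc (ub θ (Kd F h K)) y c = 1 ∧ nsq c +
        ∫ x, rh (fun i => lc sv (B i)) ε x ^ (-β) * ‖pc (ub θ (Kd F h K)) x c‖ ^ 2 ∂ν ≤
          C * (‖eval y (pull θ (den F h) * f ^ 2)‖ ^ 2)⁻¹ *
            rh (fun i => lc sv (B i)) ε y ^ (-(β + 2 * κ)) := by
  obtain ⟨C1, hC1, h1⟩ := hG.ot_A hs hβ hκ hK N
  obtain ⟨C2, C3, hC2, hC3, h2⟩ := hG.ot_C hs hβ hκ hf R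
  obtain ⟨L, hL, h3⟩ := lip_lc sv (R + 1)
  obtain ⟨Lf, hLf, h4, h5⟩ := exists_lip f (R + 1)
  obtain ⟨hac, hR⟩ := ac_of_le hν
  set B0 := N * L ^ 2 + Lf ^ 2 + 1
  have hB0 : 1 ≤ B0 := le_add_of_nonneg_left (by positivity)
  obtain ⟨C4, hC4, h6⟩ := fd_ot ν (fun a => (cont_ub (θ := θ) (Kd F h K) a).measurable) (fun c => by
    obtain ⟨b, hb⟩ := (isCompact_closedBall (0 : Fin M → ℂ) R).exists_bound_of_continuousOn
      (cont_pc (θ := θ) _ c).continuousOn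
    refine lt_of_le_of_lt (lintegral_mono_ae (g := fun _ => ENNReal.ofReal b ^ 2) ?_) ?_
    · filter_upwards [hR] with x hx
      rw [← ofReal_norm]
      gcongr
      exact hb x (mem_closedBall_zero_iff.2 hx)
    · rw [lintegral_const]; finiteness) (B := B0 ^ (-β)) (by positivity)
  set C5 := (c0 * (C2 * C1 + C3)).toReal
  refine ⟨C4 * C5 * (4 ^ β * 4 ^ s * (4 * B0 * B0 ^ 2) ^ (2 * κ) * B0 ^ 2), fun ε hε hε1 B hB => ?_⟩
  set t := fun i => lc sv (B i)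
  have hρ : ∀ x, ‖x‖ ≤ R → rh t ε x ≤ B0 := fun x hx => by
    have := nsq_le (ζ := fun i => eval x (t i)) fun i => (h3 _ (hB i)).1 x (by linarith)
    simp only [nsq, Fintype.card_fin] at this
    simp only [rh, B0]; linarith [sq_nonneg Lf]
  filter_upwards [h6, hR, hac.ae_le (hG.ff.ae_mem volume), hac.ae_le (hG.ae_ne hG.nz_den),
    hac.ae_le (hG.ae_ne hf)] with y hy hyR hyZ hy1 hy2
  replace hy1 : eval (emb θ y) (den F h) ≠ 0 := by rw [← ev_pull]; exact hy1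
  have a1 := rh_pos t hε y
  have a2 : 0 < ‖eval y f‖ ^ 2 := pow_pos (norm_pos_iff.2 hy2) 2
  have a0 : 0 ≤ N * L ^ 2 := by positivity
  obtain ⟨r, hr, hr1, hr2, hr3, hr4⟩ := radius_aux (β := β) a1 a2 (A := 4 * B0) (by linarith)
    (hρ y hyR) (by have := pow_le_pow_left₀ (norm_nonneg _) (h4 y (by linarith)) 2
                   simp only [B0]; linarith) hB0 hκ hsκ hs
  have hab : ∀ x, ‖emb θ x - emb θ y‖ ≤ r →
      rh t ε y / 4 ≤ rh t ε x ∧ ‖eval y f‖ ^ 2 / 4 ≤ ‖eval x f‖ ^ 2 := fun x hx => by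
    have b1 := (norm_le_emb x y).trans hx
    have b2 : ‖x‖ ≤ R + 1 := by linarith [norm_le_norm_add_norm_sub' x y]
    have b3 : ∀ (u v : ℂ) (l : ℝ), 0 ≤ l → ‖u - v‖ ≤ l * ‖x - y‖ →
        ‖v‖ ^ 2 ≤ 2 * ‖u‖ ^ 2 + 2 * (l ^ 2 * r ^ 2) := fun u v l hl h => by
      have h7 : ‖v‖ ≤ ‖u‖ + l * r := by
        have := norm_le_norm_add_norm_sub u v
        have := mul_le_mul_of_nonneg_left b1 hl
        linarith
      linarith [pow_le_pow_left₀ (norm_nonneg _) h7 2, sq_nonneg (‖u‖ - l * r)]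
    have b4 := Finset.sum_le_sum fun i (_ : i ∈ Finset.univ) =>
      b3 _ _ L hL ((h3 _ (hB i)).2 x y b2 (by linarith))
    have b5 := b3 _ _ Lf hLf (h5 x y b2 (by linarith))
    have b6 := mul_nonneg a0 (sq_nonneg r)
    have b7 := mul_nonneg (sq_nonneg Lf) (sq_nonneg r)
    simp only [Finset.sum_add_distrib, ← Finset.mul_sum, Finset.sum_const, Finset.card_univ,
      Fintype.card_fin, nsmul_eq_mul] at b4
    simp only [rh, B0, t] at hr2 hr3 ⊢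
    constructor <;> linarith [sq_nonneg r]
  obtain ⟨c, g, g1, g2, g3, g4, hc⟩ := h1 t (fun i => deg_lc hsv _) ε hε y r _ _ hr
    (by positivity) (by positivity) hab
  have h7 := hG.ot_B hs hβ hκ (cont_rh t ε) (rh_pos t hε) hyZ hy1 hr
    ((((cont_ev _).comp (cont_emb θ)).mul g1).sub (cont_pc _ c)) (hc.trans_lt (by finiteness))
  have h8 := h2 _ (cont_rh t ε) (rh_pos t hε) y hyR r _ _ hr hr1 (by positivity) (by positivity) hab
    g _ (cont_pc (θ := θ) _ c) g3 g4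
  simp only [Pi.sub_apply, Pi.mul_apply, Function.comp_apply, g2, mul_one, sub_eq_zero] at h7
  set A := (rh t ε y / 4) ^ (-β) * (‖eval y f‖ ^ 2 / 4) ^ (-s)
  have hA : 0 < A := by positivity
  have h9 : A ≤ A * (r ^ 2) ^ (-(2 * κ)) := le_mul_of_one_le_right hA.le
    (Real.one_le_rpow_of_pos_of_le_one_of_nonpos (by positivity) (pow_le_one₀ hr.le hr1) (by linarith))
  have hD := norm_pos_iff.2 hy1
  have hC5 : 0 ≤ C5 := ENNReal.toReal_nonneg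
  obtain ⟨c', e1, e2⟩ := hy (fun x => rh t ε x ^ (-β)) ((cont_rh t ε).measurable.pow_const _)
    (hR.mono fun x hx => Real.rpow_le_rpow_of_nonpos (rh_pos t hε x) (hρ x hx) (by linarith))
    ((eval (emb θ y) (den F h))⁻¹ • c) ((‖eval (emb θ y) (den F h)‖ ^ 2)⁻¹ *
      (C5 * (A * (r ^ 2) ^ (-(2 * κ))))) (by positivity) (by
      simp only [map_smul, smul_eq_mul, enorm_mul, mul_pow, mul_left_comm (ENNReal.ofReal _)]
      rw [lintegral_const_mul' _ _ (by finiteness), ENNReal.ofReal_mul (by positivity), enorm_sq,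
        norm_inv, inv_pow, ENNReal.ofReal_mul hC5, ENNReal.ofReal_toReal (by finiteness)]
      refine mul_le_mul_right ((lintegral_mono' hν le_rfl).trans ?_) _
      rw [lintegral_smul_measure, smul_eq_mul, mul_assoc, add_mul, mul_assoc]
      refine mul_le_mul_right (h8.trans ?_) _
      gcongr)
  refine ⟨c', by rw [e1, map_smul, ← h7, smul_eq_mul, inv_mul_cancel₀ hy1], e2.trans ?_⟩
  rw [map_mul, ev_pull, map_pow, norm_mul, norm_pow, mul_pow, mul_inv]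
  calc _ ≤ C4 * ((‖eval (emb θ y) (den F h)‖ ^ 2)⁻¹ * (C5 * (4 ^ β * 4 ^ s *
        (4 * B0 * B0 ^ 2) ^ (2 * κ) * B0 ^ 2 * ((‖eval y f‖ ^ 2) ^ 2)⁻¹ *
          rh t ε y ^ (-(β + 2 * κ))))) := by gcongr
    _ = _ := by ring

end Pool.Agent.Lib.MP_bc3ae6_ag
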