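import Pool.Agent.Lib.MP_bc3ae6_ag.J3

set_option autoImplicit false
set_option linter.unusedSectionVars false

namespace Pool.Agent.Lib.MP_bc3ae6_ag

open MeasureTheory Function Set Matrix Complex Filter Topology
open scoped ENNReal ComplexOrder ComplexConjugate

/-! The abstract integrability theorem with bounds required only on a set of full measure. -/

theorem abstract_main' {Y : Type*} [MeasurableSpace Y] {μ : Measure Y} [IsProbabilityMeasure μ]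
    {N : ℕ} {v : Y → Fin (N + 1) → ℂ} {κ : Type} [Fintype κ] [DecidableEq κ] {u : Y → κ → ℂ}
    {β Cu : ℝ} {K : Set Y} (hK : MeasurableSet K) (hK' : ∀ᵐ y ∂μ, y ∈ K)
    (hv : ∀ i, Measurable fun y => v y i) (hu : ∀ i, Measurable fun y => u y i)
    (hub : ∀ y ∈ K, ∀ i, ‖u y i‖ ≤ Cu) (hu0 : ∀ y, u y ≠ 0) (hβ : 0 < β)
    (hv1 : ∀ y ∈ K, nsq (v y) ≤ 1) {n0 T : ℕ} (hn : 0 < n0)
    (hNT : N ≤ n0 * T) {γ p q q' β' A CT : ℝ} (hγ : 0 < γ) (hp : 0 < p) (hq : 0 < q)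
    (hpq : 2 / p + 1 / q = 1) (hpβ : p * γ ≤ β) (hq' : 1 < q') (hβ' : 0 ≤ β') (hA2 : 2 ≤ A)
    (hA : 2 * T * (Fintype.card κ : ℝ) ^ 2 + 1 ≤ A * (1 - 1 / q')) (hCT : 0 ≤ CT) {l : Y → ℝ}
    (hOT : ∀ ε : ℝ, 0 < ε → ε ≤ 1 →
      ∀ B : Matrix (Fin (N + 1)) (Fin (N + 1)) ℂ, (∀ i j, ‖B i j‖ ≤ 1) → ∀ᵐ y ∂μ, ∃ c : κ → ℂ,
      1 ≤ ‖star (u y) ⬝ᵥ c‖ ∧ nsq c + ∫ y', (ε + nsq (B *ᵥ v y')) ^ (-β) * ‖star (u y') ⬝ᵥ c‖ ^ 2 ∂μ
        ≤ l y * (ε + nsq (B *ᵥ v y)) ^ (-β'))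
    {CM : ℝ≥0∞} (hCM : CM < ⊤) (hM : ∀ a : Fin (N + 1) → Fin (N + 1) → ℂ,
      (∀ i j, star (a i) ⬝ᵥ a j = if i = j then 1 else 0) →
      ∫⁻ y, ENNReal.ofReal (l y) ^ (q * γ / (β * (N + 1)) * q' * N) *
        ((∏ i, ‖star (v y) ⬝ᵥ a i‖ₑ ^ (-(2 * (β' * (q * γ / (β * (N + 1)) * q'))))) *
        (‖star (v y) ⬝ᵥ a (Fin.last N)‖ₑ ^ (-(2 * (β' * (q * γ / (β * (N + 1)) * q'))))) ^ n0) ∂μ
          ≤ CM)
    (hT : ∀ L : ℕ, (Measure.pi fun _ => μ) {x : Fin (N + 1) → Y | ∃ a, nsq a = 1 ∧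
      (∀ j, j ≠ Fin.last N → star (v (x j)) ⬝ᵥ a = 0) ∧
        ENNReal.ofReal (Real.exp L) ≤ 1 + ∫⁻ y, ‖star (v y) ⬝ᵥ a‖ₑ ^ (-(2 * β)) ∂μ}
      ≤ ENNReal.ofReal (CT * Real.exp (-(A * L)))) :
    ∫⁻ x, ‖(Matrix.of fun i j => v (x j) i).det‖ₑ ^ (-(2 * γ)) ∂(Measure.pi fun _ => μ) < ⊤ := by
  classical
  obtain ⟨y0, hy0⟩ := hK'.exists
  let r : Y → Y := K.piecewise id fun _ => y0
  have hrm : Measurable r := Measurable.piecewise hK measurable_id measurable_const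
  have hrK : ∀ y, r y ∈ K := fun y => by
    by_cases h : y ∈ K
    · simp [r, h]
    · simpa [r, h] using hy0
  have hr : ∀ᵐ y ∂μ, r y = y := hK'.mono fun y h => by simp [r, h]
  have hrπ : ∀ᵐ x ∂(Measure.pi fun _ : Fin (N + 1) => μ), ∀ j, r (x j) = x j :=
    ae_all_iff.2 fun j =>
      (Measure.quasiMeasurePreserving_eval (fun _ : Fin (N + 1) => μ) j).ae hr
  have hJ : JD (fun y => v (r y)) (fun y => u (r y)) β 1 Cu :=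
    ⟨fun i => (hv i).comp hrm, fun i => (hu i).comp hrm, fun y i => hub _ (hrK y) i,
      fun y => hu0 _, hβ, one_pos⟩
  have key := abstract_main (μ := μ) (l := l) (CM := CM) hJ (fun y => hv1 _ (hrK y)) hn hNT hγ hp
    hq hpq hpβ hq' hβ' hA2 hA hCT ?_ hCM ?_ ?_
  · refine lt_of_eq_of_lt (lintegral_congr_ae ?_) key
    filter_upwards [hrπ] with x hx
    simp only [hx]
  · intro ε hε hε1 B hB
    filter_upwards [hOT ε hε hε1 B hB, hr] with y ⟨c, h1, h2⟩ hy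
    refine ⟨c, by simpa only [hy] using h1, ?_⟩
    have e : ∫ y', (ε + nsq (B *ᵥ v (r y'))) ^ (-β) * ‖star (u (r y')) ⬝ᵥ c‖ ^ 2 ∂μ =
        ∫ y', (ε + nsq (B *ᵥ v y')) ^ (-β) * ‖star (u y') ⬝ᵥ c‖ ^ 2 ∂μ :=
      integral_congr_ae (hr.mono fun y' h' => by simp only [h'])
    simp only [hy]
    rw [e]
    exact h2
  · intro a ha
    refine le_of_eq_of_le (lintegral_congr_ae ?_) (hM a ha)
    filter_upwards [hr] with y hy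
    simp only [hy]
  · intro L
    refine le_trans (measure_mono_ae ?_) (hT L)
    filter_upwards [hrπ] with x hx
    rintro ⟨a, h1, h2, h3⟩
    refine ⟨a, h1, fun j hj => by simpa only [hx] using h2 j hj, ?_⟩
    have e : ∫⁻ y, ‖star (v (r y)) ⬝ᵥ a‖ₑ ^ (-(2 * β)) ∂μ =
        ∫⁻ y, ‖star (v y) ⬝ᵥ a‖ₑ ^ (-(2 * β)) ∂μ :=
      lintegral_congr_ae (hr.mono fun y' h' => by simp only [h'])
    rwa [e] at h3

end Pool.Agent.Lib.MP_bc3ae6_ag
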