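import Pool.Agent.Lib.MP_bc3ae6_ag.Tail
import Pool.Agent.Lib.MP_bc3ae6_ag.DK4
import Pool.Agent.Lib.MP_bc3ae6_ag.LocInt
import Pool.Agent.Lib.MP_bc3ae6_ag.BasL
import Pool.Agent.Lib.MP_bc3ae6_ag.Wrap
import Pool.Agent.Lib.MP_bc3ae6_ag.OT3

set_option autoImplicit false
set_option linter.unusedSectionVars false

/-! The inputs of the abstract integrability theorem. -/

namespace Pool.Agent.Lib.MP_bc3ae6_ag

open MvPolynomial Set Metric MeasureTheory Filter Topology Matrix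
open scoped Polynomial ENNReal NNReal ComplexConjugate

variable {n M : ℕ} {I : Ideal (MP M)} {θ : Fin n → MP M} {d : ℕ} {F : Fin M → (MP n)[X]}
  {h : MvPolynomial (Fin n ⊕ Fin M) ℂ}

lemma young3 (X Y Z : ℝ≥0∞) {p q : ℝ} (hp : 0 < p) (hq : 0 < q) (hpq : 2 / p + 1 / q = 1) :
    X * (Y * Z) ≤ X ^ p + Y ^ q + Z ^ p := by
  have k : ∀ (W : ℝ≥0∞) {r : ℝ}, 0 < r → W ^ r ≤ X ^ p + Y ^ q + Z ^ p →
      W ≤ (X ^ p + Y ^ q + Z ^ p) ^ (1 / r) := fun W r hr h => by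
    rwa [one_div, ENNReal.le_rpow_inv_iff hr]
  refine (mul_le_mul' (k X hp (le_add_right le_self_add)) (mul_le_mul'
    (k Y hq (le_add_right le_add_self)) (k Z hp le_add_self))).trans (le_of_eq ?_)
  rw [← ENNReal.rpow_add_of_nonneg _ _ (by positivity) (by positivity),
    ← ENNReal.rpow_add_of_nonneg _ _ (by positivity) (by positivity),
    show 1 / p + (1 / q + 1 / p) = 1 by linear_combination hpq, ENNReal.rpow_one]

lemma enorm_prod' {ι : Type} [Fintype ι] (f : ι → ℂ) : ‖∏ i, f i‖ₑ = ∏ i, ‖f i‖ₑ := by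
  simp [enorm_eq_nnnorm]

lemma ub_ne (K : ℕ) (y : Fin M → ℂ) : (fun a => conj (ub θ K a y)) ≠ 0 := fun h0 => by
  have h1 := eq_interp (K := K) (f := fun _ : Fin n ⊕ Fin M → ℂ => (1 : ℂ))
    (fun z j => ⟨1, by simp, by simp⟩) (emb θ y)
  have h2 : ∀ a, eval (emb θ y) (PB K a) = 0 := fun a => by simpa [ub] using congrFun h0 a
  simp [h2] at h1

/-- Conjugate evaluation vectors. -/
noncomputable def cv {N : ℕ} (s : Fin N → MP M) (y : Fin M → ℂ) (i : Fin N) : ℂ :=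
  conj (eval y (s i))

lemma cv_dot {N : ℕ} (s : Fin N → MP M) (y : Fin M → ℂ) (a : Fin N → ℂ) :
    star (cv s y) ⬝ᵥ a = eval y (lc s a) := by
  simp [cv, ev_lc, dotProduct, mul_comm]

lemma cv_rh {N : ℕ} (s : Fin N → MP M) (y : Fin M → ℂ) (B : Matrix (Fin N) (Fin N) ℂ) (ε : ℝ) :
    ε + nsq (B *ᵥ cv s y) = rh (fun i => lc s fun j => conj (B i j)) ε y := by
  rw [add_comm, rh, nsq]
  congr 1
  refine Finset.sum_congr rfl fun i _ => ?_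
  rw [← Complex.norm_conj]
  simp [cv, ev_lc, mulVec, dotProduct]

lemma ub_dot (K : ℕ) (y : Fin M → ℂ) (c : (Fin n ⊕ Fin M → Fin (K + 1)) → ℂ) :
    star (fun a => conj (ub θ K a y)) ⬝ᵥ c = pc (ub θ K) y c := by
  simp [pc_apply, dotProduct, mul_comm]

lemma l_le (C : ℝ) (z : ℂ) {t : ℝ} (ht : 0 ≤ t) : ENNReal.ofReal (C * (‖z‖ ^ 2)⁻¹) ^ t ≤
    ENNReal.ofReal C ^ t * ‖z‖ₑ ^ (-(2 * t)) := by
  rw [ENNReal.ofReal_mul' (by positivity), ENNReal.mul_rpow_of_nonneg _ _ ht]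
  refine mul_le_mul_right ?_ _
  rw [show -(2 * t) = -(2 * 1) * t by ring, ENNReal.rpow_mul]
  refine ENNReal.rpow_le_rpow ?_ ht
  by_cases hz : z = 0
  · simp [hz]
  · rw [enorm_rpow_neg hz, Real.rpow_neg_one]

namespace Geo

variable (hG : Geo I θ d F h)
include hG

lemma dim_ge {wt : Fin M → ℕ} {e : ℕ} (hH : Hom I θ wt e) (hn : 2 ≤ n)
    (hb : ∀ᶠ m in atTop, ∀ x ∈ zeroLocus ℂ I, x ≠ 0 →
      ∃ p : MP M, p.IsWeightedHomogeneous wt m ∧ eval x p ≠ 0) (T : ℕ) :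
    ∀ᶠ m : ℕ in atTop, ∀ (N : ℕ) (s : Fin N → MP M), Bas I wt m s → T < N := by
  filter_upwards [(tendsto_sub_atTop_nat (e * T)).eventually hb, eventually_ge_atTop (e * T)]
    with m h1 h2 N s hs
  obtain ⟨c, hc, h3⟩ := hG.lb hs.li
  rw [← Nat.sub_add_cancel h2] at hs
  obtain ⟨C, -, h4⟩ := hG.lagr hH hn hs h1 hc h3 one_pos
  have : Nonempty (Fin n) := ⟨⟨0, by omega⟩⟩
  obtain ⟨w, -, h5⟩ := h4 (fun _ => 1) (by simp) (by simp) 1 one_pos le_rfl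
  choose q h6 h7 using fun i => hG.surj (w i)
  obtain ⟨V, h8, -⟩ := h5 q fun i => ⟨h6 i, h7 i⟩
  omega

lemma alpha_int : ∃ D1 : ℕ, 0 < D1 ∧ ∀ (m N : ℕ) (s : Fin N → MP M),
    0 < m → (∀ i, (s i).totalDegree ≤ m) → (∀ a, lc s a ∈ I → a = 0) →
    ∀ (ν : Measure (Fin M → ℂ)) [IsFiniteMeasure ν] (η ρ x : ℝ), 0 < η → HP I θ ν η ρ → 0 < x →
      x < η / (D1 * m) → ∃ C : ℝ≥0∞, C < ⊤ ∧ ∀ a : Fin N → ℂ, nsq a = 1 →
        ∫⁻ y, ‖eval y (lc s a)‖ₑ ^ (-x) ∂ν ≤ C := by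
  obtain ⟨D1, h1, h2⟩ := hG.alpha
  refine ⟨D1, h1, fun m N s hm hd hs ν _ η ρ x hη hν hx hx' => ?_⟩
  obtain ⟨C, hC, h3⟩ := h2 m N s hm hd hs ν η ρ hη hν
  obtain ⟨G, hG', h4⟩ := lint_neg_le hx hx'
  refine ⟨ENNReal.ofReal ((N + 1 : ℝ)⁻¹ ^ (-x)) * (ν univ + C * G), by finiteness, fun a ha => ?_⟩
  have a1 : ‖a‖ ≤ 1 := (pow_le_one_iff_of_nonneg (norm_nonneg _) two_ne_zero).1
    ((sq_le_nsq a).trans ha.le)
  have a2 : 1 ≤ (N + 1) * ‖a‖ := by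
    have := nsq_le (norm_le_pi_norm a)
    rw [ha, Fintype.card_fin] at this
    nlinarith [norm_nonneg a, mul_le_mul_of_nonneg_left (pow_le_of_le_one (norm_nonneg a) a1
      two_ne_zero) (Nat.cast_nonneg (α := ℝ) N)]
  have a3 : 0 < ‖a‖ := (norm_nonneg a).lt_of_ne' fun h => by rw [h] at a2; norm_num at a2
  refine h4 ν _ _ C (cont_ev _).measurable (by positivity) (fun τ hτ => le_trans
    (measure_mono fun y hy => ?_) (h3 ((‖a‖ : ℂ)⁻¹ • a) (by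
      rw [norm_smul, norm_inv, Complex.norm_real, norm_norm, inv_mul_cancel₀ a3.ne']) _
        (by positivity))) hC
  have e : eval y (lc s ((‖a‖ : ℂ)⁻¹ • a)) = (‖a‖ : ℂ)⁻¹ * eval y (lc s a) := by
    simp [ev_lc, Finset.mul_sum, mul_assoc]
  simp only [mem_ofPred_eq] at hy ⊢
  rw [e, norm_mul, norm_inv, Complex.norm_real, norm_norm, div_inv_eq_mul, mul_comm]
  gcongr
  rwa [inv_le_iff_one_le_mul₀ a3]

lemma hM_le {f : MP M} (hf : f ∉ I) {s : ℝ} (hN : NB I θ f s) (hs : 0 ≤ s) {wt : Fin M → ℕ}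
    {e : ℕ} (hH : Hom I θ wt e) {df : ℕ} (hfh : f.IsWeightedHomogeneous wt df) {m N : ℕ}
    {sv : Fin (N + 1) → MP M} (hsv : Bas I wt m sv) {c0 : ℝ}
    (hδ : ∀ t : Fin (N + 1) → MP M, Bas I wt m t → ∀ ρ > 0,
      ∫⁻ y in Sh θ ρ, ‖eval y (∏ i, t i)‖ₑ ^ (-(2 * c0)) ∂(mu I θ f s) < ⊤)
    {ρ : ℝ} (hρ : 0 < ρ) {c : ℝ≥0∞} (hc : c ≠ ⊤) {p q z y C : ℝ} {n0 : ℕ} (hp : 0 < p) (hq : 0 < q)
    (hpq : 2 / p + 1 / q = 1) (hz : 0 ≤ z) (hy : 0 ≤ y) (hyq : y * q < c0) {a0 : MP M}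
    (h1 : ∫⁻ x, ‖eval x a0‖ₑ ^ (-(2 * (z * p))) ∂(c • (mu I θ f s).restrict (Sh θ ρ)) < ⊤)
    {C3 : ℝ≥0∞} (hC3 : C3 < ⊤) (h3 : ∀ a : Fin (N + 1) → ℂ, nsq a = 1 → ∫⁻ x,
      ‖eval x (lc sv a)‖ₑ ^ (-(2 * y * n0 * p)) ∂(c • (mu I θ f s).restrict (Sh θ ρ)) ≤ C3) :
    ∃ CM : ℝ≥0∞, CM < ⊤ ∧ ∀ a : Fin (N + 1) → Fin (N + 1) → ℂ,
      (∀ i j, star (a i) ⬝ᵥ a j = if i = j then 1 else 0) →
      ∫⁻ x, ENNReal.ofReal (C * (‖eval x a0‖ ^ 2)⁻¹) ^ z *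
        ((∏ i, ‖star (cv sv x) ⬝ᵥ a i‖ₑ ^ (-(2 * y))) *
        (‖star (cv sv x) ⬝ᵥ a (Fin.last N)‖ₑ ^ (-(2 * y))) ^ n0)
          ∂(c • (mu I θ f s).restrict (Sh θ ρ)) ≤ CM := by
  obtain ⟨Θ, hΘ⟩ : ∃ Θ : (Fin (N + 1) → Fin (N + 1) → ℂ) → MP M, ∀ a, Θ a = ∏ i, lc sv (a i) :=
    ⟨_, fun _ => rfl⟩
  have hct : Continuous fun p : (Fin (N + 1) → Fin (N + 1) → ℂ) × (Fin M → ℂ) =>
      eval p.2 (Θ p.1) := by
    simp only [hΘ, map_prod, ev_lc]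
    refine continuous_finsetProd _ fun i _ => continuous_finsetSum _ fun j _ => ?_
    exact Continuous.mul (by fun_prop) ((cont_ev _).comp continuous_snd)
  obtain ⟨C2, hC2, h2⟩ := hG.dk_unif hf hN hs hH hfh (D := ∑ _i : Fin (N + 1), m)
    (fun a => hΘ a ▸ IsWeightedHomogeneous.prod _ _ _ fun i _ => hom_lc hsv.hom _) hct
    (compact_orth (N + 1)) (c := y * q) (by positivity) hyq
    (fun a ha => by rw [hΘ]; exact hδ _ (hsv.orth ha)) hρ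
  simp only [hΘ] at h2
  refine ⟨ENNReal.ofReal C ^ (z * p) * ∫⁻ x, ‖eval x a0‖ₑ ^ (-(2 * (z * p)))
    ∂(c • (mu I θ f s).restrict (Sh θ ρ)) + c * C2 + C3, by finiteness, fun a ha => ?_⟩
  refine (lintegral_mono (g := fun x => ENNReal.ofReal C ^ (z * p) * ‖eval x a0‖ₑ ^ (-(2 * (z * p)))
    + ‖eval x (∏ i, lc sv (a i))‖ₑ ^ (-(2 * (y * q))) +
      ‖eval x (lc sv (a (Fin.last N)))‖ₑ ^ (-(2 * y * n0 * p))) fun x => ?_).trans ?_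
  · refine (young3 _ _ _ hp hq hpq).trans (add_le_add (add_le_add ?_ (le_of_eq ?_)) (le_of_eq ?_))
    · rw [← ENNReal.rpow_mul]; exact l_le _ _ (by positivity)
    · simp only [cv_dot, ENNReal.rpow_neg]
      rw [← ENNReal.prod_inv_distrib (fun _ _ _ _ _ => Or.inr (by finiteness)),
        ENNReal.prod_rpow_of_nonneg (by positivity), ENNReal.inv_rpow, ← ENNReal.rpow_mul,
        map_prod, enorm_prod', mul_assoc]
    · rw [cv_dot, ← ENNReal.rpow_natCast, ← ENNReal.rpow_mul, ← ENNReal.rpow_mul]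
      congr 1; ring
  have m1 : Measurable fun x => ‖eval x (lc sv (a (Fin.last N)))‖ₑ ^ (-(2 * y * n0 * p)) :=
    (cont_ev _).measurable.enorm.pow_const _
  rw [lintegral_add_right _ m1, lintegral_add_right _ (meas_dens _ _),
    lintegral_const_mul' _ _ (by finiteness)]
  refine add_le_add (add_le_add_right ?_ _) (h3 _ ?_)
  · rw [lintegral_smul_measure]
    exact mul_le_mul_right (h2 a ha) _
  · have := ha (Fin.last N) (Fin.last N)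
    rw [if_pos rfl, star_dot_self] at this
    exact_mod_cast this

end Geo

end Pool.Agent.Lib.MP_bc3ae6_ag
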