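import Pool.Agent.Lib.MP_bc3ae6_ag.Core1

set_option autoImplicit false
set_option linter.unusedSectionVars false

/-! From basis type divisors to the determinant divisor. -/

namespace Pool.Agent.Lib.MP_bc3ae6_ag

open MvPolynomial Set Metric MeasureTheory Filter Topology Matrix
open scoped Polynomial ENNReal NNReal ComplexConjugate

variable {n M : ℕ} {I : Ideal (MP M)} {θ : Fin n → MP M} {d : ℕ} {F : Fin M → (MP n)[X]}
  {h : MvPolynomial (Fin n ⊕ Fin M) ℂ}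

lemma params {c c' x0 : ℝ} (hcc : c < c') (hx : 0 < x0) : ∃ q p b : ℝ, 1 < q ∧ 0 < p ∧
    0 < b ∧ 2 / p + 1 / q = 1 ∧ p * c ≤ b ∧ 2 * (q * q * c * p) ≤ x0 * b ∧
    (b + 1) * (q * q * q * c) < c' * b := by
  have h1 : ∀ᶠ q in 𝓝 (1 : ℝ), q * q * q * c < c' :=
    ContinuousAt.eventually_lt (by fun_prop) continuousAt_const (by simpa)
  obtain ⟨q, h2, h3⟩ := ((h1.filter_mono (nhdsWithin_le_nhds (s := Ioi 1))).and
    self_mem_nhdsWithin).exists
  have h4 : 0 < q - 1 := sub_pos.2 h3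
  have h5 : 0 < q := one_pos.trans h3
  set p := 2 * q / (q - 1) with hp
  have h6 : 0 < p := by positivity
  have h7 := sub_pos.2 h2
  obtain ⟨b, ⟨b1, b2⟩, b3, b4⟩ := (((eventually_gt_atTop 0).and (eventually_ge_atTop (p * c))).and
    ((eventually_ge_atTop (2 * (q * q * c * p) / x0)).and
      (eventually_gt_atTop (q * q * q * c / (c' - q * q * q * c))))).exists
  rw [div_le_iff₀ hx] at b3
  rw [div_lt_iff₀ h7] at b4
  exact ⟨q, p, b, h3, h6, b1, by rw [hp]; field_simp; ring, b2, by linarith, by linarith⟩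

lemma params2 {c c' b q p η D : ℝ} {m N T : ℕ} (hc : 0 < c) (hq : 1 < q) (hp : 0 < p) (hb : 0 < b)
    (hD : 0 < D) (hm : 0 < m) (h1 : (b + 1) * (q * q * q * c) < c' * b) (hT0 : 0 < T) (hT : T ≤ N)
    (h2 : 4 * c' * p * D ≤ η * T) {y : ℝ}
    (hy : y = (b / m + 2 * (1 / (2 * m))) * (q * (c / m) / (b / m * (N + 1)) * q)) :
    0 < y ∧ y * q < c' / (m * (N + 1)) ∧ 2 * y * (N / T + 1 : ℕ) * p < η / (D * m) := by
  have hm' : (0 : ℝ) < m := by exact_mod_cast hm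
  have hT' : (0 : ℝ) < T := by exact_mod_cast hT0
  have hq0 : 0 < q := by linarith
  have a1 : 0 < y := by rw [hy]; positivity
  have a2 : y * q < c' / (m * (N + 1)) := by
    rw [lt_div_iff₀ (by positivity), ← mul_lt_mul_iff_left₀ hb]
    refine lt_of_eq_of_lt ?_ h1
    rw [hy]; field_simp
  refine ⟨a1, a2, ?_⟩
  have a3 : ((N / T + 1 : ℕ) : ℝ) * T ≤ 2 * (N + 1) := by
    have := Nat.div_mul_le_self N T
    exact_mod_cast (by nlinarith : (N / T + 1) * T ≤ 2 * (N + 1))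
  have a4 : y * (m * (N + 1)) < c' := (lt_div_iff₀ (by positivity)).1
    ((le_mul_of_one_le_right a1.le hq.le).trans_lt a2)
  rw [lt_div_iff₀ (by positivity), ← mul_lt_mul_iff_left₀ hT']
  calc _ = 2 * y * p * D * m * (((N / T + 1 : ℕ) : ℝ) * T) := by ring
    _ ≤ 2 * y * p * D * m * (2 * (N + 1)) := by gcongr
    _ = 4 * (y * (m * (N + 1))) * p * D := by ring
    _ < 4 * c' * p * D := by gcongr
    _ ≤ _ := h2

namespace Geo

variable (hG : Geo I θ d F h) {f : MP M} (hf : f ∉ I) {s : ℝ} (hN : NB I θ f s) (hs : 0 < s)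
  (hs1 : s ≤ 1) {wt : Fin M → ℕ} {e : ℕ} (hH : Hom I θ wt e) (hn : 2 ≤ n) {df : ℕ}
  (hfh : f.IsWeightedHomogeneous wt df) (hb : ∀ᶠ m in atTop, ∀ x ∈ zeroLocus ℂ I, x ≠ 0 →
    ∃ p : MP M, p.IsWeightedHomogeneous wt m ∧ eval x p ≠ 0) {x : ℝ} (hx : 0 < x)
  (hfx : ∀ ρ > 0, ∫⁻ y in Sh θ ρ, ‖eval y f‖ₑ ^ (-(2 * x)) ∂(mu I θ f s) < ⊤)
  {c c' : ℝ} (hc : 0 < c) (hcc : c < c')
include hG hf hN hs hs1 hH hn hfh hb hx hfx hc hcc

lemma core1 : ∀ᶠ m : ℕ in atTop, ∀ (N : ℕ) (sv : Fin (N + 1) → MP M), Bas I wt m sv →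
    (∀ t : Fin (N + 1) → MP M, Bas I wt m t → ∀ ρ > 0, ∫⁻ y in Sh θ ρ,
      ‖eval y (∏ i, t i)‖ₑ ^ (-(2 * (c' / (m * (N + 1))))) ∂(mu I θ f s) < ⊤) →
    ∀ ρ > 0, (∀ y ∈ zeroLocus ℂ I ∩ Sh θ ρ, nsq (cv sv y) ≤ 1) → ∀ k : ℝ≥0∞, k ≠ ⊤ →
      IsProbabilityMeasure (k • (mu I θ f s).restrict (Sh θ ρ)) →
      ∫⁻ x, ‖(Matrix.of fun i j => cv sv (x j) i).det‖ₑ ^ (-(2 * (c / m)))
        ∂(Measure.pi fun _ => k • (mu I θ f s).restrict (Sh θ ρ)) < ⊤ := by
  have hη : 0 < x / (s + x) := by positivity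
  have ha0 : pull θ (den F h) * f ^ 2 ∉ I := fun h0 => (hG.prime.mem_or_mem h0).elim hG.nz_den
    fun h1 => hf (hG.prime.mem_of_pow_mem 2 h1)
  obtain ⟨x0, hx0, h1⟩ := hG.neg_int ha0 hη
  obtain ⟨D1, hD1, h2⟩ := hG.alpha_int
  obtain ⟨q, p, b, hq, hp, hb0, hpq, p1, p2, p3⟩ := params hcc hx0
  have hq0 : 0 < q := by linarith
  obtain ⟨T, hT⟩ := exists_nat_gt (4 * c' * p * D1 / (x / (s + x)))
  have hT0 : 0 < T := by
    have : 0 < c' := by linarith
    exact_mod_cast lt_trans (a := (0 : ℝ)) (by positivity) hT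
  rw [div_lt_iff₀' hη] at hT
  set K := Kd F h (b + s * f.totalDegree + n + 1)
  have hq1 : 0 < 1 - 1 / q := sub_pos.2 ((div_lt_one hq0).2 hq)
  set A := (2 * T * (Fintype.card (Fin n ⊕ Fin M → Fin (K + 1)) : ℝ) ^ 2 + 1) / (1 - 1 / q) + 2
    with hA
  filter_upwards [hG.tail hH hn hb hη hb0 A, hG.dim_ge hH hn hb T, eventually_gt_atTop 0]
    with m h3 h4 hm N sv hsv hδ ρ hρ hv k hk hprob
  have hm' : (1 : ℝ) ≤ m := by exact_mod_cast hm
  have hν := hG.hp hs hx hρ (hfx ρ hρ) hk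
  have hd := fun i => deg_le hH.hw (hsv.hom i)
  obtain ⟨y0, y1, y2⟩ := params2 hc hq hp hb0 (D := D1) (by exact_mod_cast hD1) hm p3 hT0
    (Nat.lt_succ_iff.1 (h4 _ _ hsv)) hT.le rfl
  obtain ⟨CT, hCT, h5⟩ := h3 N sv hsv _ ρ hν
  obtain ⟨C3, hC3, h6⟩ := h2 m _ sv hm hd hsv.li _ _ ρ _ hη hν (by positivity) y2
  obtain ⟨R, hR⟩ := (hG.compact_Sh ρ).isBounded.subset_closedBall 0
  obtain ⟨C, h7⟩ := hG.ot hf hs.le (β := b / m) (κ := 1 / (2 * m)) (by positivity) (by positivity)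
    (by rw [mul_one_div, ← div_div, div_self two_ne_zero]; linarith [(div_le_one (by positivity)).2 hm'])
    (D := m) (K := b + s * f.totalDegree + n + 1) (by
      have : 1 / (2 * (m : ℝ)) ≤ 1 / 2 := by gcongr; linarith
      rw [div_mul_cancel₀ _ (by positivity)]; push_cast; linarith) R hd
    (ν := k • (mu I θ f s).restrict (Sh θ ρ)) hk.lt_top (smul_le_smul_left _
      (Measure.restrict_mono_ae (hG.ae_mu.mono fun y h1 h2 => hR ⟨h1, h2⟩)))
  obtain ⟨CM, hCM, h8⟩ := hG.hM_le hf hN hs.le hH hfh hsv hδ hρ hk (C := C)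
    (z := q * (c / m) / (b / m * (N + 1)) * q * N) hp hq0 hpq (by positivity) y0.le y1
    (h1 _ ρ hν _ (by positivity) (by
      rw [← mul_le_mul_iff_left₀ hb0]
      refine le_trans ?_ p2
      calc _ = 2 * (q * q * c * p) * (N / (N + 1)) := by field_simp
        _ ≤ _ := mul_le_of_le_one_right (by positivity)
          ((div_le_one (by positivity)).2 (by linarith)))) hC3 h6
  obtain ⟨Cu, hCu⟩ := (hG.compact_Sh ρ).exists_bound_of_continuousOn
    (continuous_pi fun a => cont_ub (θ := θ) K a).continuousOn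
  refine abstract_main' (v := cv sv) (u := fun y a => conj (ub θ K a y)) (Cu := Cu) (T := T)
    ((closed_Z I).measurableSet.inter (meas_Sh ρ)) hν.ae
    (fun i => (Complex.continuous_conj.comp (cont_ev _)).measurable)
    (fun a => (Complex.continuous_conj.comp (cont_ub K a)).measurable)
    (fun y hy a => by rw [Complex.norm_conj]; exact (norm_le_pi_norm _ a).trans (hCu y hy))
    (ub_ne K) (β := b / m) (by positivity) hv (Nat.succ_pos _) ?_ (by positivity) hp hq0 hpq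
    (by rw [mul_div_assoc']; gcongr) hq (by positivity) (A := A)
    (le_add_of_nonneg_left (by positivity)) ?_ hCT ?_ hCM h8 (by simpa only [cv_dot] using h5)
  · rw [Nat.succ_mul]
    exact (Nat.lt_div_mul_add hT0).le
  · rw [hA, add_mul, div_mul_cancel₀ _ hq1.ne']; linarith
  · intro ε hε hε1 B hB
    simp only [cv_rh, ub_dot]
    filter_upwards [h7 ε hε hε1 (fun i j => conj (B i j)) fun i j => by simpa using hB i j]
      with y ⟨c, h1, h2⟩
    exact ⟨c, by simp [K, h1], h2⟩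

theorem core : ∀ᶠ m : ℕ in atTop, ∀ (N : ℕ) (sv : Fin (N + 1) → MP M), Bas I wt m sv →
    (∀ t : Fin (N + 1) → MP M, Bas I wt m t → ∀ ρ > 0, ∫⁻ y in Sh θ ρ,
      ‖eval y (∏ i, t i)‖ₑ ^ (-(2 * (c' / (m * (N + 1))))) ∂(mu I θ f s) < ⊤) →
    ∀ ρ > 0, ∫⁻ x, ‖(Matrix.of fun i j => eval (x j) (sv i)).det‖ₑ ^ (-(2 * (c / m)))
        ∂(Measure.pi fun _ => (mu I θ f s).restrict (Sh θ ρ)) < ⊤ := by
  filter_upwards [hG.core1 hf hN hs hs1 hH hn hfh hb hx hfx hc hcc] with m h1 N sv hsv hδ ρ hρ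
  have hfin := hG.fin_of_lint hx.le (hfx ρ hρ)
  have : IsFiniteMeasure ((mu I θ f s).restrict (Sh θ ρ)) := isFiniteMeasure_restrict.2 hfin.ne
  by_cases h0 : mu I θ f s (Sh θ ρ) = 0
  · have : (Measure.pi fun _ : Fin (N + 1) => (mu I θ f s).restrict (Sh θ ρ)) = 0 := by
      rw [← Measure.measure_univ_eq_zero, Measure.pi_univ]; simp [h0]
    simp [this]
  have hc1 : Continuous fun y => nsq (cv sv y) :=
    cont_nsq.comp (continuous_pi fun i => Complex.continuous_conj.comp (cont_ev _))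
  obtain ⟨B, hB⟩ := (hG.compact_Sh ρ).exists_bound_of_continuousOn hc1.continuousOn
  have hτ : (0 : ℝ) < (|B| + 1)⁻¹ := by positivity
  have hs' := hsv.smul (τ := ((|B| + 1)⁻¹ : ℝ)) (by exact_mod_cast hτ.ne')
  have hpr : IsProbabilityMeasure ((mu I θ f s (Sh θ ρ))⁻¹ • (mu I θ f s).restrict (Sh θ ρ)) :=
    ⟨by simp [ENNReal.inv_mul_cancel h0 hfin.ne]⟩
  have h2 := h1 N _ hs' hδ ρ hρ (fun y hy => by
    have h3 : nsq (cv sv y) ≤ |B| := ((le_abs_self _).trans (hB y hy)).trans (le_abs_self B)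
    have h4 : nsq (cv (fun i => C (((|B| + 1)⁻¹ : ℝ) : ℂ) * sv i) y) =
        (|B| + 1)⁻¹ ^ 2 * nsq (cv sv y) := by
      simp only [nsq, cv, Complex.norm_conj, map_mul, eval_C, norm_mul, mul_pow, Complex.norm_real,
        Real.norm_of_nonneg hτ.le, Finset.mul_sum]
    rw [h4, inv_pow, inv_mul_le_iff₀ (by positivity)]
    nlinarith [abs_nonneg B]) _ (ENNReal.inv_ne_top.2 h0) hpr
  rw [pi_smul_meas (ENNReal.inv_ne_top.2 h0), lintegral_smul_measure] at h2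
  have h3 := ENNReal.lt_top_of_mul_ne_top_right h2.ne
    (pow_ne_zero _ (ENNReal.inv_ne_zero.2 hfin.ne))
  obtain ⟨a, ha, h4⟩ := hs'.det hsv
  refine lt_of_le_of_lt (lintegral_mono_ae ?_) (lt_of_eq_of_lt (lintegral_const_mul'
    (‖a‖ₑ ^ (-(2 * (c / m)))) _ (by simp [ha])) (ENNReal.mul_lt_top (by simp [ha, lt_top_iff_ne_top]) h3))
  filter_upwards [ae_all_iff.2 fun j => (Measure.quasiMeasurePreserving_eval _ j).ae
    (ae_restrict_of_ae (s := Sh θ ρ) (hG.ae_mu (f := f) (s := s)))] with x hx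
  rw [h4 x hx, enorm_mul, ENNReal.mul_rpow_of_ne_top enorm_ne_top enorm_ne_top]
  refine le_of_eq ?_
  congr 2
  rw [← ofReal_norm, ← ofReal_norm, ← Complex.norm_conj, RingHom.map_det]
  rfl

end Geo

end Pool.Agent.Lib.MP_bc3ae6_ag
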