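import Mathlib

set_option autoImplicit false

namespace Pool.Agent.Lib.MP_bc3ae6_ag

open MeasureTheory Set Filter Topology Matrix
open scoped ENNReal

namespace Fuj

theorem tsum_pow_sum (ρ : ℝ≥0∞) (N : ℕ) :
    ∑' k : Fin N → ℕ, ρ ^ (∑ i, k i) = (∑' n : ℕ, ρ ^ n) ^ N := by
  induction N with
  | zero => simp
  | succ N ih =>
    rw [← (Fin.consEquiv fun _ : Fin (N + 1) => ℕ).tsum_eq, ENNReal.tsum_prod', pow_succ',
      ← ih, ← ENNReal.tsum_mul_right]
    refine tsum_congr fun n => ?_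
    rw [← ENNReal.tsum_mul_left]
    refine tsum_congr fun k => ?_
    rw [Fin.sum_univ_succ, pow_add]
    simp [Fin.consEquiv]

theorem norm_det_le {N : ℕ} (M : Matrix (Fin N) (Fin N) ℂ) (b : Fin N → ℝ)
    (h : ∀ i j, ‖M i j‖ ≤ b i) : ‖M.det‖ ≤ N.factorial * ∏ i, b i := by
  rw [Matrix.det_apply]
  refine (norm_sum_le _ _).trans ?_
  have : ∀ σ : Equiv.Perm (Fin N), ‖Equiv.Perm.sign σ • ∏ i, M (σ i) i‖ ≤ ∏ i, b i := by
    intro σ
    have h1 : ‖Equiv.Perm.sign σ • ∏ i, M (σ i) i‖ = ‖∏ i, M (σ i) i‖ := by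
      rcases Int.units_eq_one_or (Equiv.Perm.sign σ) with h | h <;> simp [h]
    rw [h1, norm_prod, ← Equiv.prod_comp σ b]
    exact Finset.prod_le_prod (fun i _ => norm_nonneg _) fun i _ => h _ _
  refine (Finset.sum_le_sum fun σ _ => this σ).trans ?_
  simp [Fintype.card_perm]

end Fuj

/-- JOB C (file Fuj.lean). Integrability of a Slater determinant gives integrability of the
product. -/
theorem fujita {Y : Type} [MeasurableSpace Y] (μ : Measure Y) [SigmaFinite μ] {N : ℕ} (hN : 0 < N)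
    (t : Fin N → Y → ℂ) (ht : ∀ i, Measurable (t i)) {B : ℝ} (hB : ∀ i y, ‖t i y‖ ≤ B)
    {c c' : ℝ} (hc' : 0 < c') (hc : c' < c)
    (h : ∫⁻ x, ‖(Matrix.of fun i j => t i (x j)).det‖ₑ ^ (-c) ∂(Measure.pi fun _ : Fin N => μ) < ⊤) :
    ∫⁻ y, ‖∏ i, t i y‖ₑ ^ (-(c' / N)) ∂μ < ⊤ := by
  obtain ⟨B, hB1, hB⟩ : ∃ B : ℝ, 1 ≤ B ∧ ∀ i y, ‖t i y‖ ≤ B :=
    ⟨max B 1, le_max_right _ _, fun i y => (hB i y).trans (le_max_left _ _)⟩
  have hNr : (0 : ℝ) < N := by exact_mod_cast hN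
  have hc0 : 0 < c := hc'.trans hc
  set I := ∫⁻ x, ‖(Matrix.of fun i j => t i (x j)).det‖ₑ ^ (-c) ∂(Measure.pi fun _ : Fin N => μ)
    with hI
  set E : (Fin N → ℕ) → Set Y := fun k => {y | ∀ i, ‖t i y‖ ≤ B * (1 / 2) ^ (k i)} with hE
  have hEm : ∀ k, MeasurableSet (E k) := by
    intro k
    have : E k = ⋂ i, {y | ‖t i y‖ ≤ B * (1 / 2) ^ (k i)} := by
      ext y; simp [hE]
    rw [this]
    exact MeasurableSet.iInter fun i => measurableSet_le (ht i).norm measurable_const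
  set D : ℝ≥0∞ := ENNReal.ofReal (N.factorial * B ^ N) with hD
  have hDpos : D ≠ 0 := by
    rw [hD, ne_eq, ENNReal.ofReal_eq_zero, not_le]
    have := Nat.factorial_pos N
    positivity
  have hDtop : D ≠ ⊤ := ENNReal.ofReal_ne_top
  set q : ℝ≥0∞ := (2 : ℝ≥0∞) ^ (-(c / N)) with hq
  set r : ℝ≥0∞ := (2 : ℝ≥0∞) ^ (c' / N) with hr
  set K : ℝ≥0∞ := (I * D ^ c) ^ ((N : ℝ)⁻¹) with hK
  have hKtop : K ≠ ⊤ := ENNReal.rpow_ne_top_of_nonneg (by positivity)
    (ENNReal.mul_ne_top h.ne (ENNReal.rpow_ne_top_of_nonneg hc0.le hDtop))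
  have hrtop : r ≠ ⊤ := ENNReal.rpow_ne_top_of_nonneg (by positivity) ENNReal.ofNat_ne_top
  have hr1 : 1 ≤ r := ENNReal.one_le_rpow one_le_two (by positivity)
  have hhalf : ∀ s : ℕ, ENNReal.ofReal ((1 / 2) ^ s) = (2 : ℝ≥0∞) ^ (-(s : ℝ)) := by
    intro s
    rw [ENNReal.ofReal_pow (by norm_num), ENNReal.rpow_neg, ENNReal.rpow_natCast,
      ENNReal.inv_pow, one_div, ENNReal.ofReal_inv_of_pos two_pos, ENNReal.ofReal_ofNat]
  -- measure of the boxes
  have hμ : ∀ k, μ (E k) ≤ K * q ^ (∑ i, k i) := by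
    intro k
    set s := ∑ i, k i with hs
    set a : ℝ≥0∞ := D * (2 : ℝ≥0∞) ^ (-(s : ℝ)) with ha
    have h2 : (2 : ℝ≥0∞) ^ (-(s : ℝ)) ≠ 0 := by simp
    have h3 : (2 : ℝ≥0∞) ^ (-(s : ℝ)) ≠ ⊤ := by simp
    have ha0 : a ≠ 0 := mul_ne_zero hDpos h2
    have hat : a ≠ ⊤ := ENNReal.mul_ne_top hDtop h3
    have h1 : a ^ (-c) * μ (E k) ^ N ≤ I := by
      have hp : (Measure.pi fun _ : Fin N => μ) (Set.pi univ fun _ => E k) = μ (E k) ^ N := by
        rw [Measure.pi_pi]; simp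
      rw [← hp, ← setLIntegral_const]
      refine le_trans (setLIntegral_mono' (MeasurableSet.univ_pi fun _ => hEm k) fun x hx => ?_)
        (setLIntegral_le_lintegral _ _)
      have hb := Fuj.norm_det_le (Matrix.of fun i j => t i (x j)) (fun i => B * (1 / 2) ^ (k i))
        fun i j => hx j (mem_univ j) i
      rw [Finset.prod_mul_distrib, Finset.prod_pow_eq_pow_sum, Finset.prod_const, Finset.card_univ,
        Fintype.card_fin, ← mul_assoc, ← hs] at hb
      have hb2 : ‖(Matrix.of fun i j => t i (x j)).det‖ₑ ≤ a := by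
        rw [← ofReal_norm, ha, ← hhalf, hD, ← ENNReal.ofReal_mul (by positivity)]
        exact ENNReal.ofReal_le_ofReal hb
      rw [ENNReal.rpow_neg, ENNReal.rpow_neg]
      exact ENNReal.inv_le_inv.2 (ENNReal.rpow_le_rpow hb2 hc0.le)
    have h4 : μ (E k) ^ N ≤ I * a ^ c := by
      have h5 : a ^ c * a ^ (-c) = 1 := by
        rw [← ENNReal.rpow_add _ _ ha0 hat, add_neg_cancel, ENNReal.rpow_zero]
      calc μ (E k) ^ N = a ^ c * (a ^ (-c) * μ (E k) ^ N) := by rw [← mul_assoc, h5, one_mul]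
        _ ≤ a ^ c * I := by gcongr
        _ = _ := mul_comm _ _
    have h6 : (K * q ^ s) ^ N = I * a ^ c := by
      rw [mul_pow, hK, ENNReal.rpow_inv_natCast_pow hN.ne', ha, ENNReal.mul_rpow_of_nonneg _ _ hc0.le,
        mul_assoc, hq, ← ENNReal.rpow_natCast, ← ENNReal.rpow_natCast, ← ENNReal.rpow_mul,
        ← ENNReal.rpow_mul, ← ENNReal.rpow_mul]
      congr 3
      field_simp
    rw [← h6] at h4
    exact (ENNReal.pow_le_pow_left_iff hN.ne').1 h4
  -- pointwise bound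
  have hpt : ∀ y, ‖∏ i, t i y‖ₑ ^ (-(c' / N)) ≤
      ∑' k : Fin N → ℕ, (E k).indicator (fun _ => r ^ N * r ^ (∑ i, k i)) y := by
    intro y
    by_cases hy : ∀ i, t i y ≠ 0
    · have hk : ∀ i, ∃ n : ℕ, (1 / 2 : ℝ) ^ (n + 1) < ‖t i y‖ / B ∧ ‖t i y‖ / B ≤ (1 / 2) ^ n :=
        fun i => exists_nat_pow_near_of_lt_one (div_pos (norm_pos_iff.2 (hy i)) (by linarith))
          ((div_le_one (by linarith)).2 (hB i y)) (by norm_num) (by norm_num)
      choose k hk1 hk2 using hk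
      refine le_trans ?_ (ENNReal.le_tsum k)
      have hyE : y ∈ E k := fun i => by
        have := hk2 i
        rwa [div_le_iff₀' (by linarith)] at this
      rw [indicator_of_mem hyE]
      have h1 : (1 / 2 : ℝ) ^ (N + ∑ i, k i) ≤ ‖∏ i, t i y‖ := by
        have e : N + ∑ i, k i = ∑ i, (k i + 1) := by
          rw [Finset.sum_add_distrib]; simp [add_comm]
        rw [norm_prod, e, ← Finset.prod_pow_eq_pow_sum]
        refine Finset.prod_le_prod (fun i _ => by positivity) fun i _ => ?_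
        exact (hk1 i).le.trans (div_le_self (norm_nonneg _) hB1)
      have h2 : (2 : ℝ≥0∞) ^ (-((N + ∑ i, k i : ℕ) : ℝ)) ≤ ‖∏ i, t i y‖ₑ := by
        rw [← hhalf, ← ofReal_norm]
        exact ENNReal.ofReal_le_ofReal h1
      have h3 : r ^ N * r ^ (∑ i, k i) =
          (((2 : ℝ≥0∞) ^ (-((N + ∑ i, k i : ℕ) : ℝ))) ^ (c' / N))⁻¹ := by
        rw [← pow_add, hr, ← ENNReal.rpow_natCast, ← ENNReal.rpow_mul, ← ENNReal.rpow_mul,
          ← ENNReal.rpow_neg]
        congr 1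
        ring
      rw [h3, ENNReal.rpow_neg]
      exact ENNReal.inv_le_inv.2 (ENNReal.rpow_le_rpow h2 (by positivity))
    · rw [not_forall] at hy
      obtain ⟨i, hi⟩ := hy
      rw [not_not] at hi
      have hinj : Function.Injective fun L : ℕ => (Pi.single i L : Fin N → ℕ) :=
        Pi.single_injective (M := fun _ : Fin N => ℕ) i
      refine le_trans ?_ (ENNReal.tsum_comp_le_tsum_of_injective hinj _)
      have h1 : ∑' _L : ℕ, (1 : ℝ≥0∞) = ⊤ := ENNReal.tsum_const_eq_top_of_ne_zero one_ne_zero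
      refine le_top.trans (h1.ge.trans (ENNReal.tsum_le_tsum fun L => ?_))
      have hyE : y ∈ E (Pi.single i L) := fun j => by
        by_cases hj : j = i
        · subst hj
          rw [hi, norm_zero]
          positivity
        · rw [Pi.single_eq_of_ne hj, pow_zero, mul_one]
          exact hB j y
      rw [indicator_of_mem hyE]
      exact one_le_mul (one_le_pow₀ hr1) (one_le_pow₀ hr1)
  have hρ : r * q < 1 := by
    rw [hr, hq, ← ENNReal.rpow_add _ _ two_ne_zero ENNReal.ofNat_ne_top]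
    refine ENNReal.rpow_lt_one_of_one_lt_of_neg ENNReal.one_lt_two ?_
    have : c' / N < c / N := div_lt_div_of_pos_right hc hNr
    linarith
  calc ∫⁻ y, ‖∏ i, t i y‖ₑ ^ (-(c' / N)) ∂μ
      ≤ ∫⁻ y, ∑' k : Fin N → ℕ, (E k).indicator (fun _ => r ^ N * r ^ (∑ i, k i)) y ∂μ :=
        lintegral_mono hpt
    _ = ∑' k : Fin N → ℕ, r ^ N * r ^ (∑ i, k i) * μ (E k) := by
        rw [lintegral_tsum fun k => (measurable_const.indicator (hEm k)).aemeasurable]
        exact tsum_congr fun k => lintegral_indicator_const (hEm k) _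
    _ ≤ ∑' k : Fin N → ℕ, r ^ N * K * (r * q) ^ (∑ i, k i) := by
        refine ENNReal.tsum_le_tsum fun k => ?_
        calc _ ≤ r ^ N * r ^ (∑ i, k i) * (K * q ^ (∑ i, k i)) := by gcongr; exact hμ k
          _ = _ := by rw [mul_pow]; ring
    _ = r ^ N * K * ((1 - r * q)⁻¹) ^ N := by
        rw [ENNReal.tsum_mul_left, Fuj.tsum_pow_sum, ENNReal.tsum_geometric]
    _ < ⊤ := by
        refine ENNReal.mul_lt_top (ENNReal.mul_lt_top (ENNReal.pow_lt_top hrtop.lt_top) hKtop.lt_top)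
          (ENNReal.pow_lt_top ?_)
        exact ENNReal.inv_lt_top.2 (tsub_pos_of_lt hρ)

end Pool.Agent.Lib.MP_bc3ae6_ag
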