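import Pool.Agent.Lib.MP_bc3ae6_ag.Core2
import Pool.Agent.Lib.MP_bc3ae6_ag.Fuj

set_option autoImplicit false
set_option linter.unusedSectionVars false

/-! The two comparison statements on shells. -/

namespace Pool.Agent.Lib.MP_bc3ae6_ag

open MvPolynomial Set Metric MeasureTheory Filter Topology Matrix
open scoped Polynomial ENNReal NNReal ComplexConjugate

variable {n M : ℕ} {I : Ideal (MP M)} {θ : Fin n → MP M} {d : ℕ} {F : Fin M → (MP n)[X]}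
  {h : MvPolynomial (Fin n ⊕ Fin M) ℂ}

lemma lint_mul_lt {Y : Type} [MeasurableSpace Y] {ν : Measure Y} {u v w : Y → ℂ} {B x : ℝ}
    (hx : 0 ≤ x) (h1 : ∀ᵐ y ∂ν, w y = u y * v y ∧ ‖u y‖ ≤ B)
    (h2 : ∫⁻ y, ‖w y‖ₑ ^ (-x) ∂ν < ⊤) : ∫⁻ y, ‖v y‖ₑ ^ (-x) ∂ν < ⊤ := by
  have h3 : ENNReal.ofReal (|B| + 1) ^ (-x) ≠ 0 :=
    (ENNReal.rpow_pos (by simp; positivity) ENNReal.ofReal_ne_top).ne'
  refine ENNReal.lt_top_of_mul_ne_top_right (ne_of_lt (lt_of_le_of_lt ?_ h2)) h3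
  refine (lintegral_const_mul_le _ _).trans (lintegral_mono_ae ?_)
  filter_upwards [h1] with y ⟨y1, y2⟩
  rw [y1, enorm_mul, ENNReal.mul_rpow_of_ne_top enorm_ne_top enorm_ne_top]
  refine mul_le_mul_left (rpow_neg_anti ?_ hx) _
  rw [← ofReal_norm]
  exact ENNReal.ofReal_le_ofReal (by linarith [le_abs_self B])

namespace Geo

variable (hG : Geo I θ d F h) {f : MP M} {s : ℝ} {wt : Fin M → ℕ}
include hG

lemma ae_Sh (ρ : ℝ) : ∀ᵐ y ∂(mu I θ f s).restrict (Sh θ ρ), y ∈ zeroLocus ℂ I ∩ Sh θ ρ :=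
  (ae_restrict_of_ae hG.ae_mu).and (ae_restrict_mem (meas_Sh ρ))

lemma mono_exp {b : MP M} {c c' ρ : ℝ} (hc : 0 ≤ c) (hcc : c ≤ c')
    (hI : ∫⁻ y in Sh θ ρ, ‖eval y b‖ₑ ^ (-(2 * c')) ∂(mu I θ f s) < ⊤) :
    ∫⁻ y in Sh θ ρ, ‖eval y b‖ₑ ^ (-(2 * c)) ∂(mu I θ f s) < ⊤ := by
  have h1 := hG.fin_of_lint (hc.trans hcc) hI
  refine (lintegral_mono (g := fun y => ‖eval y b‖ₑ ^ (-(2 * c')) + 1) fun y => ?_).trans_lt ?_
  · rcases le_total ‖eval y b‖ₑ 1 with h | h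
    · exact le_add_right (ENNReal.rpow_le_rpow_of_exponent_ge h (by linarith))
    · exact le_add_left (by simpa using rpow_neg_anti h (t := 2 * c) (by positivity))
  · rw [lintegral_add_right _ measurable_const, setLIntegral_one]
    exact ENNReal.add_lt_top.2 ⟨hI, h1⟩

lemma fuj_sh (hf : f ∉ I) {m N : ℕ} (hN : 0 < N) {sv t : Fin N → MP M} (hs : Bas I wt m sv)
    (ht : Bas I wt m t) {a a' : ℝ} (ha : 0 < a) (haa : a < a') (ρ : ℝ)
    (hI : ∫⁻ x, ‖(Matrix.of fun i j => eval (x j) (sv i)).det‖ₑ ^ (-a')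
      ∂(Measure.pi fun _ => (mu I θ f s).restrict (Sh θ ρ)) < ⊤) :
    ∫⁻ y in Sh θ ρ, ‖eval y (∏ i, t i)‖ₑ ^ (-(a / N)) ∂(mu I θ f s) < ⊤ := by
  have := hG.sigmaFinite_mu hf s
  obtain ⟨c, hc, h1⟩ := ht.det hs
  have hK := (closed_Z I).measurableSet.inter (meas_Sh (θ := θ) ρ)
  obtain ⟨B, hB⟩ := (hG.compact_Sh ρ).exists_bound_of_continuousOn
    (continuous_pi fun i => cont_ev (t i)).continuousOn
  have h2 := fujita ((mu I θ f s).restrict (Sh θ ρ)) hN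
    (fun i => (zeroLocus ℂ I ∩ Sh θ ρ).indicator fun y => eval y (t i))
    (fun i => (cont_ev _).measurable.indicator hK) (B := |B|) (fun i y => by
      by_cases hy : y ∈ zeroLocus ℂ I ∩ Sh θ ρ
      · rw [indicator_of_mem hy]
        exact ((norm_le_pi_norm _ i).trans (hB y hy)).trans (le_abs_self B)
      · simp [hy]) ha haa (lint_mul_lt (u := fun _ => c) (B := ‖c‖) (by linarith) ?_ hI)
  · refine lt_of_eq_of_lt (lintegral_congr_ae ?_) h2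
    filter_upwards [hG.ae_Sh ρ] with y hy
    simp only [indicator_of_mem hy, map_prod]
  · filter_upwards [ae_all_iff.2 fun j => (Measure.quasiMeasurePreserving_eval _ j).ae
      (hG.ae_Sh (f := f) (s := s) ρ)] with x hx
    simp only [indicator_of_mem (hx _)]
    exact ⟨h1 x fun j => (hx j).1, le_rfl⟩

lemma klt_of (hf : f ∉ I) {df m0 N : ℕ} (hfh : f.IsWeightedHomogeneous wt df) {p : MP M}
    (hp : p.IsWeightedHomogeneous wt m0) (hp' : p ∉ I) {sv : Fin N → MP M}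
    (hs : Bas I wt (m0 + df) sv) (hδ : ∀ t : Fin N → MP M, Bas I wt (m0 + df) t → ∃ x > (0 : ℝ),
      ∀ ρ > 0, ∫⁻ y in Sh θ ρ, ‖eval y (∏ i, t i)‖ₑ ^ (-(2 * x)) ∂(mu I θ f s) < ⊤) :
    ∃ x > (0 : ℝ), ∀ ρ > 0, ∫⁻ y in Sh θ ρ, ‖eval y f‖ₑ ^ (-(2 * x)) ∂(mu I θ f s) < ⊤ := by
  obtain ⟨i, hi⟩ := hs.update (hp.mul hfh) fun h => (hG.prime.mem_or_mem h).elim hp' hf
  obtain ⟨x, hx, h1⟩ := hδ _ hi
  refine ⟨x, hx, fun ρ hρ => ?_⟩
  obtain ⟨B, hB⟩ := (hG.compact_Sh ρ).exists_bound_of_continuousOn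
    (cont_ev ((∏ j ∈ Finset.univ \ {i}, sv j) * p)).continuousOn
  refine lint_mul_lt (B := B) (by positivity) ((hG.ae_Sh ρ).mono fun y hy => ⟨?_, hB y hy⟩) (h1 ρ hρ)
  rw [Finset.prod_update_of_mem (Finset.mem_univ i)]
  simp only [map_mul]; ring

end Geo

end Pool.Agent.Lib.MP_bc3ae6_ag
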