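import Pool.Agent.Lib.MP_bc3ae6_ag.OT1

set_option autoImplicit false
set_option linter.unusedSectionVars false

/-! Scaling and global integrability on the cone. -/

namespace Pool.Agent.Lib.MP_bc3ae6_ag

open MvPolynomial Set Metric MeasureTheory Filter Topology
open scoped Polynomial ENNReal

variable {n M : ℕ} {I : Ideal (MP M)} {θ : Fin n → MP M} {d : ℕ} {F : Fin M → (MP n)[X]}
  {h : MvPolynomial (Fin n ⊕ Fin M) ℂ}

variable (θ) in
/-- Shells. -/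
def Sh (ρ : ℝ) : Set (Fin M → ℂ) := {x | ρ⁻¹ ≤ ‖pr θ x‖ ∧ ‖pr θ x‖ ≤ ρ}

lemma closed_Sh (ρ : ℝ) : IsClosed (Sh θ ρ) :=
  (isClosed_le continuous_const (cont_pr θ).norm).inter
    (isClosed_le (cont_pr θ).norm continuous_const)

lemma meas_Sh (ρ : ℝ) : MeasurableSet (Sh θ ρ) := (closed_Sh ρ).measurableSet

lemma Geo.compact_Sh (hG : Geo I θ d F h) (ρ : ℝ) : IsCompact (zeroLocus ℂ I ∩ Sh θ ρ) :=
  (hG.compact (isCompact_closedBall 0 ρ)).of_isClosed_subset ((closed_Z I).inter (closed_Sh ρ))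
    fun _ hx => ⟨hx.1, mem_closedBall_zero_iff.2 hx.2.2⟩

variable (θ) in
/-- The global weight. -/
noncomputable def gw (A : ℕ) (K : ℝ) (x : Fin M → ℂ) : ℝ :=
  ‖pr θ x‖ ^ (2 * A) * (nsq (emb θ x) + 1) ^ (-K)

lemma meas_gw (A : ℕ) (K : ℝ) : Measurable fun x => ENNReal.ofReal (gw θ A K x) :=
  (((cont_pr θ).norm.measurable.pow_const _).mul
    (((cont_nsq.comp (cont_emb θ)).measurable.add_const 1).pow_const _)).ennreal_ofReal

lemma pr_sq_le (x : Fin M → ℂ) : ‖pr θ x‖ ^ 2 ≤ nsq (emb θ x) :=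
  le_trans (pow_le_pow_left₀ (norm_nonneg _) ((pi_norm_le_iff_of_nonneg (norm_nonneg _)).2
    fun j => norm_le_pi_norm (emb θ x) (Sum.inl j)) 2) (sq_le_nsq _)

lemma gw_le {e n A : ℕ} {α K u N : ℝ} {k : ℤ} (he0 : 0 < e) (hA : |α| + 1 ≤ A)
    (hK : A + n + |α| + 1 ≤ K) (hu : 0 ≤ u) (hN : u ^ 2 ≤ N) (h1 : ((2 : ℝ) ^ k) ^ e ≤ u)
    (h2 : u ≤ (2 ^ k) ^ e * 2 ^ e) : u ^ (2 * A) * (N + 1) ^ (-K) * ((2 : ℝ) ^ k) ^ (2 * n * e - α)
      ≤ (2 ^ e) ^ (2 * A) * (1 / 2) ^ k.natAbs := by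
  have he : (1 : ℝ) ≤ e := by exact_mod_cast he0
  have b1 : k ≤ 0 → (2 : ℝ) ^ k ≤ 1 ∧ (1 / 2 : ℝ) ^ k.natAbs = ((2 : ℝ) ^ k) ^ (1 : ℝ) := fun hk =>
    ⟨zpow_le_one_of_nonpos₀ one_le_two hk, by
      rw [Real.rpow_one, one_div, inv_pow, ← zpow_natCast, ← zpow_neg]; congr 1; omega⟩
  have b2 : 0 ≤ k → 1 ≤ (2 : ℝ) ^ k ∧ (1 / 2 : ℝ) ^ k.natAbs = ((2 : ℝ) ^ k) ^ (-1 : ℝ) := fun hk =>
    ⟨one_le_zpow₀ one_le_two hk, by
      rw [Real.rpow_neg_one, one_div, inv_pow, ← zpow_natCast]; congr 2; omega⟩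
  have a0 : 0 < (2 : ℝ) ^ k := by positivity
  generalize (2 : ℝ) ^ k = t at *
  have a1 : u ^ (2 * A) ≤ (2 ^ e) ^ (2 * A) * t ^ (2 * A * e : ℝ) := by
    rw [show (2 * A * e : ℝ) = (e * (2 * A) : ℕ) by push_cast; ring, Real.rpow_natCast,
      pow_mul t, ← mul_pow, mul_comm (2 ^ e)]
    gcongr
  have a2 : 0 ≤ N := (sq_nonneg u).trans hN
  have a3 : 0 ≤ (n : ℝ) * e := by positivity
  have a4 := le_abs_self α
  have a5 := neg_abs_le α
  have a6 := abs_nonneg α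
  have a7 := mul_le_mul_of_nonneg_left he (show (0 : ℝ) ≤ A by positivity)
  rcases le_total k 0 with hk | hk
  · calc _ ≤ (2 ^ e) ^ (2 * A) * t ^ (2 * A * e : ℝ) * 1 * t ^ (2 * n * e - α) := by
          gcongr
          exact Real.rpow_le_one_of_one_le_of_nonpos (by linarith) (by linarith)
      _ ≤ _ := by
          rw [mul_one, mul_assoc, ← Real.rpow_add a0, (b1 hk).2]
          gcongr _ * ?_
          exact Real.rpow_le_rpow_of_exponent_ge a0 (b1 hk).1 (by linarith)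
  · have b3 : (N + 1) ^ (-K) ≤ t ^ (2 * e * -K) := by
      rw [Real.rpow_mul a0.le, show (2 * e : ℝ) = (e * 2 : ℕ) by push_cast; ring,
        Real.rpow_natCast, pow_mul]
      refine Real.rpow_le_rpow_of_nonpos (by positivity) ?_ (by linarith)
      have := pow_le_pow_left₀ (by positivity) h1 2
      linarith
    have a8 := mul_le_mul_of_nonneg_left he (show 0 ≤ K - A - n by linarith)
    calc _ ≤ (2 ^ e) ^ (2 * A) * t ^ (2 * A * e : ℝ) * t ^ (2 * e * -K) * t ^ (2 * n * e - α) := by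
          gcongr
      _ ≤ _ := by
          rw [mul_assoc, mul_assoc, ← Real.rpow_add a0, ← Real.rpow_add a0, (b2 hk).2]
          gcongr _ * ?_
          exact Real.rpow_le_rpow_of_exponent_le (b2 hk).1 (by linarith)

/-- Homogeneity data. -/
structure Hom (I : Ideal (MP M)) (θ : Fin n → MP M) (wt : Fin M → ℕ) (e : ℕ) : Prop where
  hw : ∀ l, 0 < wt l
  hI : ∀ p ∈ I, ∀ k, weightedHomogeneousComponent wt k p ∈ I
  hθ : ∀ i, (θ i).IsWeightedHomogeneous wt e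
  he : 0 < e

lemma Geo.shell_le (hG : Geo I θ d F h) {wt : Fin M → ℕ} {e : ℕ} (hH : Hom I θ wt e)
    {H : (Fin M → ℂ) → ℝ≥0∞} (hm : Measurable H) {α : ℝ}
    (hs : ∀ (t : ℝ) (ht : 0 < t) x, H (sc wt ht.ne' x) = ENNReal.ofReal (t ^ (-α)) * H x)
    {t : ℝ} (ht : 0 < t) : ∫⁻ x in {x | ‖pr θ x‖ ∈ Icc (t ^ e) (t ^ e * 2 ^ e)}, H x ∂(lam I θ)
      ≤ ENNReal.ofReal (t ^ (2 * n * e - α)) * ∫⁻ x in Sh θ (2 ^ e), H x ∂(lam I θ) := by
  have h2 : (1 : ℝ) ≤ 2 ^ e := one_le_pow₀ one_le_two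
  set S := {x | ‖pr θ x‖ ∈ Icc (t ^ e) (t ^ e * 2 ^ e)}
  have hS : MeasurableSet S := (cont_pr θ).norm.measurable measurableSet_Icc
  have h3 := hG.lint_sc hH.hI hH.hθ ht (hm.indicator hS)
  have h5 := pow_pos ht e
  have h4 : ∀ x, S.indicator H (sc wt ht.ne' x) ≤ ENNReal.ofReal (t ^ (-α)) *
      (Sh θ (2 ^ e)).indicator H x := fun x => by
    by_cases hx : sc wt ht.ne' x ∈ S
    · have e1 : ‖pr θ (sc wt ht.ne' x)‖ = t ^ e * ‖pr θ x‖ := by
        rw [← Real.norm_of_nonneg h5.le, ← norm_smul]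
        congr 1; funext i; simp [pr, ev_sc _ (hH.hθ i)]
      simp only [S, mem_ofPred_eq, e1, mem_Icc, le_mul_iff_one_le_right h5,
        mul_le_mul_iff_right₀ h5] at hx
      rw [indicator_of_mem (show x ∈ Sh θ (2 ^ e) from
        ⟨(inv_le_one_of_one_le₀ h2).trans hx.1, hx.2⟩), ← hs t ht]
      exact indicator_le_self _ _ _
    · rw [indicator_of_notMem hx]; exact bot_le
  have h6 := lintegral_mono (μ := lam I θ) h4
  rw [h3, lintegral_const_mul' _ _ ENNReal.ofReal_ne_top, lintegral_indicator hS,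
    lintegral_indicator (meas_Sh _)] at h6
  calc _ = ENNReal.ofReal ((t ^ e) ^ (2 * n)) * (ENNReal.ofReal ((t ^ e) ^ (2 * n))⁻¹ *
        ∫⁻ x in S, H x ∂(lam I θ)) := by
        rw [← mul_assoc, ← ENNReal.ofReal_mul (by positivity), mul_inv_cancel₀ (by positivity),
          ENNReal.ofReal_one, one_mul]
    _ ≤ _ := by
        refine (mul_le_mul_right h6 _).trans (le_of_eq ?_)
        rw [← mul_assoc, ← ENNReal.ofReal_mul (by positivity), ← pow_mul, ← Real.rpow_natCast,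
          ← Real.rpow_add ht]
        congr 3; push_cast; ring

lemma Geo.scale_sum (hG : Geo I θ d F h) {wt : Fin M → ℕ} {e : ℕ} (hH : Hom I θ wt e)
    {H : (Fin M → ℂ) → ℝ≥0∞} (hm : Measurable H) {α : ℝ}
    (hs : ∀ (t : ℝ) (ht : 0 < t) x, H (sc wt ht.ne' x) = ENNReal.ofReal (t ^ (-α)) * H x)
    (hI : ∫⁻ x in Sh θ (2 ^ e), H x ∂(lam I θ) < ⊤) {A : ℕ} {K : ℝ} (hA : |α| + 1 ≤ A)
    (hK : A + n + |α| + 1 ≤ K) :
    ∫⁻ x, H x * ENNReal.ofReal (gw θ A K x) ∂(lam I θ) < ⊤ := by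
  have h2 : (1 : ℝ) < 2 ^ e := one_lt_pow₀ one_lt_two hH.he.ne'
  have hA0 : 2 * A ≠ 0 := by
    have : (0 : ℝ) < A := by linarith [abs_nonneg α]
    have : 0 < A := by exact_mod_cast this
    omega
  let S : ℤ → Set (Fin M → ℂ) := fun k =>
    {x | ‖pr θ x‖ ∈ Icc (((2 : ℝ) ^ k) ^ e) (((2 : ℝ) ^ k) ^ e * 2 ^ e)}
  have hS : ∀ k, MeasurableSet (S k) := fun k => (cont_pr θ).norm.measurable measurableSet_Icc
  have h4 : Summable fun k : ℤ => ((2 : ℝ) ^ e) ^ (2 * A) * (1 / 2 : ℝ) ^ k.natAbs := by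
    refine Summable.mul_left _ (f := fun k : ℤ => (1 / 2 : ℝ) ^ k.natAbs) ?_
    refine Summable.of_nat_of_neg ?_ ?_
    · simpa only [Int.natAbs_natCast] using summable_geometric_two
    · simpa only [Int.natAbs_neg, Int.natAbs_natCast] using summable_geometric_two
  have h5 : Function.support (fun x => H x * ENNReal.ofReal (gw θ A K x)) ⊆ ⋃ k, S k := by
    intro x hx
    have h5 : 0 < ‖pr θ x‖ := (norm_nonneg _).lt_of_ne' fun h0 => hx (by
      simp only [gw, h0, zero_pow hA0, zero_mul, ENNReal.ofReal_zero, mul_zero])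
    obtain ⟨k, hk⟩ := exists_mem_Ico_zpow h5 h2
    have e1 : ((2 : ℝ) ^ k) ^ e = (2 ^ e) ^ k := by
      rw [← zpow_natCast, ← zpow_natCast, ← zpow_mul, ← zpow_mul, mul_comm]
    refine mem_iUnion.2 ⟨k, ?_⟩
    simp only [S, mem_ofPred_eq, e1]
    exact ⟨hk.1, by rw [← zpow_add_one₀ (by positivity)]; exact hk.2.le⟩
  have h6 : ∀ k, ∫⁻ x in S k, H x * ENNReal.ofReal (gw θ A K x) ∂(lam I θ) ≤
      ENNReal.ofReal ((2 ^ e) ^ (2 * A) * (1 / 2) ^ k.natAbs) *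
        ∫⁻ x in Sh θ (2 ^ e), H x ∂(lam I θ) := fun k => by
    have ht : 0 < (2 : ℝ) ^ k := by positivity
    have a0 := Real.rpow_pos_of_pos ht (2 * n * e - α)
    have a1 : ∀ x ∈ S k, H x * ENNReal.ofReal (gw θ A K x) ≤ ENNReal.ofReal ((2 ^ e) ^ (2 * A)
        * (1 / 2) ^ k.natAbs / ((2 : ℝ) ^ k) ^ (2 * n * e - α)) * H x := fun x hx => by
      rw [mul_comm]
      exact mul_le_mul_left (ENNReal.ofReal_le_ofReal ((le_div_iff₀ a0).2
        (gw_le hH.he hA hK (norm_nonneg _) (pr_sq_le x) hx.1 hx.2))) _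
    refine (setLIntegral_mono' (hS k) a1).trans ?_
    rw [lintegral_const_mul' _ _ ENNReal.ofReal_ne_top]
    refine (mul_le_mul_right (hG.shell_le hH hm hs ht) _).trans (le_of_eq ?_)
    rw [← mul_assoc, ← ENNReal.ofReal_mul (by positivity), div_mul_cancel₀ _ a0.ne']
  rw [← setLIntegral_eq_of_support_subset h5]
  refine ((lintegral_iUnion_le _ _).trans (ENNReal.tsum_le_tsum h6)).trans_lt ?_
  rw [ENNReal.tsum_mul_right, ← ENNReal.ofReal_tsum_of_nonneg (fun _ => by positivity) h4]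
  exact ENNReal.mul_lt_top ENNReal.ofReal_lt_top hI

lemma enorm_sc {wt : Fin M → ℕ} {p : MP M} {m : ℕ} (hp : p.IsWeightedHomogeneous wt m) (s : ℝ)
    {t : ℝ} (ht : 0 < t) (x : Fin M → ℂ) : ‖eval (sc wt ht.ne' x) p‖ₑ ^ (-(2 * s))
      = ENNReal.ofReal (t ^ (-(2 * s * m))) * ‖eval x p‖ₑ ^ (-(2 * s)) := by
  rw [ev_sc _ hp, enorm_mul, ENNReal.mul_rpow_of_ne_top enorm_ne_top enorm_ne_top, ← ofReal_norm,
    norm_pow, Complex.norm_real, Real.norm_of_nonneg ht.le, ENNReal.ofReal_rpow_of_pos (by positivity),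
    ← Real.rpow_natCast, ← Real.rpow_mul ht.le]
  congr 3; ring

lemma Geo.global (hG : Geo I θ d F h) {wt : Fin M → ℕ} {e : ℕ} (hH : Hom I θ wt e) {f b : MP M}
    {df D : ℕ} (hf : f.IsWeightedHomogeneous wt df) (hb : b.IsWeightedHomogeneous wt D) {s c : ℝ}
    (hI : ∫⁻ x in Sh θ (2 ^ e), ‖eval x b‖ₑ ^ (-(2 * c)) ∂(mu I θ f s) < ⊤) {A : ℕ} {K : ℝ}
    (hA : |2 * c * D + 2 * s * df| + 1 ≤ A) (hK : A + n + |2 * c * D + 2 * s * df| + 1 ≤ K) :
    ∫⁻ x, ‖eval x b‖ₑ ^ (-(2 * c)) * ENNReal.ofReal (gw θ A K x) ∂(mu I θ f s) < ⊤ := by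
  have hm : Measurable fun x => ‖eval x b‖ₑ ^ (-(2 * c)) * ENNReal.ofReal (gw θ A K x) :=
    (meas_dens b c).mul (meas_gw A K)
  rw [lint_mu _ _ hm]
  simp only [mul_right_comm _ (ENNReal.ofReal _)]
  have hm' : Measurable fun x => ‖eval x b‖ₑ ^ (-(2 * c)) * ‖eval x f‖ₑ ^ (-(2 * s)) :=
    (meas_dens b c).mul (meas_dens f s)
  refine hG.scale_sum hH hm' (fun t ht x => ?_) ?_ hA hK
  · rw [enorm_sc hb c ht, enorm_sc hf s ht, neg_add, Real.rpow_add ht,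
      ENNReal.ofReal_mul (by positivity)]
    ring
  · rw [← lintegral_indicator (meas_Sh _), lint_mu _ _ ((meas_dens b c).indicator (meas_Sh _))] at hI
    rw [← lintegral_indicator (meas_Sh _)]
    refine lt_of_le_of_lt (le_of_eq (lintegral_congr fun x => ?_)) hI
    by_cases hx : x ∈ Sh θ (2 ^ e) <;> simp [hx]

end Pool.Agent.Lib.MP_bc3ae6_ag
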