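import Pool.Agent.Lib.MP_bc3ae6_ag.DK1

set_option autoImplicit false
set_option linter.unusedSectionVars false

/-! The approximation step for semicontinuity of integrability. -/

namespace Pool.Agent.Lib.MP_bc3ae6_ag

open MvPolynomial Set Metric MeasureTheory Filter Topology
open scoped Polynomial ENNReal ComplexConjugate

section
variable {ι κ : Type} [Fintype ι] [DecidableEq ι] [Fintype κ] {p : κ → (ι → ℂ) → ℂ} {r : ℝ}
  (hr : 0 < r) {z : ι → ℂ}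
include hr

lemma cut_zero (h : r ^ 2 ≤ Qs p z) : cut p r z = 0 := by
  rw [cut, chi_zero ((one_le_div (by positivity)).2 h)]; simp

lemma cut_one (h : Qs p z ≤ r ^ 2 / 4) : cut p r z = 1 := by
  rw [cut, chi_one (by rw [div_le_iff₀ (by positivity)]; linarith)]; simp

lemma dchi_supp (h : deriv chi (Qs p z / r ^ 2) ≠ 0) : r ^ 2 / 4 ≤ Qs p z ∧ Qs p z ≤ r ^ 2 :=
  ⟨le_of_not_gt fun h' => h (dchi_lt (by rw [div_lt_iff₀ (by positivity)]; linarith)),
    le_of_not_gt fun h' => h (dchi_gt ((one_lt_div (by positivity)).2 h'))⟩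

end

lemma two_cut {ι κ κ' : Type} [Fintype ι] [DecidableEq ι] [Fintype κ] [Fintype κ']
    {p : κ → (ι → ℂ) → ℂ} {q : κ' → (ι → ℂ) → ℂ} (hp : ∀ i, Hol (p i)) (hq : ∀ i, Hol (q i))
    {a : (ι → ℂ) → ℂ} (ha : Hol a) {r k : ℝ} (hr : 0 < r) (hk : 0 < k) (z ξ : ι → ℂ) :
    2 * ‖∑ j, conj (P Complex.I j (fun z => a z * (cut p 1 z * cut q r z)) z) * ξ j‖ ≤
      (‖a z * cut p 1 z‖ ^ 2 * (4 / k) * deriv chi (Qs q z / r ^ 2) ^ 2
        + ‖a z‖ ^ 2 * 4 * deriv chi (Qs p z / 1 ^ 2) ^ 2)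
      + (k * Levi (ls (r ^ 2) q) z ξ + 1 * Levi (ls 1 p) z ξ) := by
  have h1 := cut_levi hq hr hk (conj (a z * cut p 1 z)) z ξ
  have h2 := cut_levi hp one_pos one_pos (conj (a z * cut q r z)) z ξ
  have h3 : ‖a z * cut q r z‖ ^ 2 ≤ ‖a z‖ ^ 2 := by
    rw [norm_mul]; gcongr; exact mul_le_of_le_one_right (norm_nonneg _) (norm_cut_le _ _ _)
  have e : ∑ j, conj (P Complex.I j (fun z => a z * (cut p 1 z * cut q r z)) z) * ξ j =
      conj (a z * cut p 1 z) * ∑ j, conj (P Complex.I j (cut q r) z) * ξ j +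
      conj (a z * cut q r z) * ∑ j, conj (P Complex.I j (cut p 1) z) * ξ j := by
    rw [Finset.mul_sum, Finset.mul_sum, ← Finset.sum_add_distrib]
    refine Finset.sum_congr rfl fun j _ => ?_
    rw [P_mul (ha.sm.dAt z) (Sm.dAt ((sm_cut hp 1).mul (sm_cut hq r)) z), ha.cr,
      P_mul ((sm_cut hp 1).dAt z) ((sm_cut hq r).dAt z)]
    simp only [map_add, map_mul, map_zero]; ring
  rw [e]
  rw [Complex.norm_conj] at h1 h2
  rw [one_pow, div_one 4] at h2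
  have h4 := mul_le_mul_of_nonneg_right h3
    (show 0 ≤ 4 * deriv chi (Qs p z / 1) ^ 2 by positivity)
  rw [one_pow]
  linarith [norm_add_le (conj (a z * cut p 1 z) * ∑ j, conj (P Complex.I j (cut q r) z) * ξ j)
    (conj (a z * cut q r z) * ∑ j, conj (P Complex.I j (cut p 1) z) * ξ j)]

variable {n M : ℕ} {I : Ideal (MP M)} {θ : Fin n → MP M} {d : ℕ} {F : Fin M → (MP n)[X]}
  {h : MvPolynomial (Fin n ⊕ Fin M) ℂ}

variable (θ) in
/-- The weight used for semicontinuity. -/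
noncomputable def dw (b f : MP M) (c κ s K w ε R : ℝ) (k : ℕ) (x : Fin M → ℂ) : ℝ :=
  (‖eval x b‖ ^ 2 + ε) ^ (-c) * (‖eval x b‖ ^ 2 + w ^ 2) ^ (-κ) * (‖eval x f‖ ^ 2 + tk k) ^ (-s)
    * (nsq (emb θ x) + 1) ^ (-K) * (nsq (emb θ x) / R ^ 2 + 1) ^ (-1 : ℝ)

variable (θ F h) in
/-- Rational functions with the universal denominator. -/
noncomputable def uq (K : ℕ) (a : Fin n ⊕ Fin M → Fin (K + 1)) (x : Fin M → ℂ) : ℂ :=
  ub θ K a x / eval (emb θ x) (den F h)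

lemma meas_uq (K : ℕ) (a : Fin n ⊕ Fin M → Fin (K + 1)) : Measurable (uq θ F h K a) :=
  (cont_ub K a).measurable.div ((cont_ev _).comp (cont_emb θ)).measurable

lemma pc_uq (K : ℕ) (x : Fin M → ℂ) (c : (Fin n ⊕ Fin M → Fin (K + 1)) → ℂ) :
    pc (uq θ F h K) x c = pc (ub θ K) x c / eval (emb θ x) (den F h) := by
  simp [pc_apply, uq, Finset.sum_div, mul_div_assoc]

lemma dw_le {b f : MP M} {c κ s K w ε R : ℝ} (hs : 0 ≤ s) {x : Fin M → ℂ} {u v : ℝ} (hu : 0 < u)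
    (hv : 0 < v) (hc : 0 ≤ c) (hκ : 0 ≤ κ) (h1 : u ≤ ‖eval x b‖ ^ 2 + ε)
    (h2 : v ≤ ‖eval x b‖ ^ 2 + w ^ 2) : ⨆ k, ENNReal.ofReal (dw θ b f c κ s K w ε R k x) ≤
      ENNReal.ofReal (u ^ (-c) * v ^ (-κ) * (nsq (emb θ x) + 1) ^ (-K))
        * ‖eval x f‖ₑ ^ (-(2 * s)) := by
  refine iSup_le fun k => ?_
  have a1 := tk_pos k
  have a2 := nsq_nonneg (emb θ x)
  refine le_trans ?_ (mul_le_mul_right (ofReal_rpow_neg_le (r := ‖eval x f‖ ^ 2 + tk k)
    (by linarith) (by positivity) hs) _)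
  rw [← ENNReal.ofReal_mul (by positivity), mul_right_comm]
  refine ENNReal.ofReal_le_ofReal ((mul_le_of_le_one_right (by
    have := hu.trans_le h1; have := hv.trans_le h2; positivity) ?_).trans ?_)
  · exact Real.rpow_le_one_of_one_le_of_nonpos (le_add_of_nonneg_left (by positivity)) (by norm_num)
  · gcongr ?_ * _ * _
    exact rpow_two_le hu hv h1 h2 hκ hc

lemma le_dw {b f : MP M} {c κ s K w ε R B : ℝ} {x : Fin M → ℂ} (hf : eval x f ≠ 0) (hε : 0 < ε)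
    (hκ : 0 ≤ κ) (hK : 0 ≤ K) (hw : 0 < w) (hw1 : w ≤ 1) (hR : 1 ≤ R) (h1 : ‖eval x b‖ ^ 2 ≤ B)
    (h2 : nsq (emb θ x) ≤ B) : ENNReal.ofReal ((‖eval x b‖ ^ 2 + ε) ^ (-c) * (B + 1) ^ (-(κ + K + 1)))
      * ‖eval x f‖ₑ ^ (-(2 * s)) ≤ ⨆ k, ENNReal.ofReal (dw θ b f c κ s K w ε R k x) := by
  have a2 := nsq_nonneg (emb θ x)
  have a3 := norm_pos_iff.2 hf
  have a4 : 0 < B + 1 := by linarith
  have h3 : Tendsto (fun k => ENNReal.ofReal ((‖eval x b‖ ^ 2 + ε) ^ (-c) * (B + 1) ^ (-(κ + K + 1))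
      * (‖eval x f‖ ^ 2 + tk k) ^ (-s))) atTop (𝓝 (ENNReal.ofReal ((‖eval x b‖ ^ 2 + ε) ^ (-c) *
        (B + 1) ^ (-(κ + K + 1)) * (‖eval x f‖ ^ 2 + 0) ^ (-s)))) :=
    ENNReal.tendsto_ofReal (((tendsto_const_nhds.add tk_lim).rpow_const
      (Or.inl (by positivity))).const_mul _)
  rw [add_zero] at h3
  rw [enorm_rpow_neg hf, ← ENNReal.ofReal_mul (by positivity)]
  refine le_of_tendsto' h3 fun k => le_trans (ENNReal.ofReal_le_ofReal ?_)
    (le_iSup (fun k => ENNReal.ofReal (dw θ b f c κ s K w ε R k x)) k)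
  have a1 := tk_pos k
  have b1 : (B + 1) ^ (-κ) ≤ (‖eval x b‖ ^ 2 + w ^ 2) ^ (-κ) :=
    Real.rpow_le_rpow_of_nonpos (by positivity) (by nlinarith) (by linarith)
  have b2 : (B + 1) ^ (-K) ≤ (nsq (emb θ x) + 1) ^ (-K) :=
    Real.rpow_le_rpow_of_nonpos (by positivity) (by linarith) (by linarith)
  have b3 : (B + 1) ^ (-1 : ℝ) ≤ (nsq (emb θ x) / R ^ 2 + 1) ^ (-1 : ℝ) :=
    Real.rpow_le_rpow_of_nonpos (by positivity)
      (by linarith [div_le_self a2 (one_le_pow₀ hR (n := 2))]) (by norm_num)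
  rw [neg_add, neg_add, Real.rpow_add a4, Real.rpow_add a4]
  calc _ = (‖eval x b‖ ^ 2 + ε) ^ (-c) * (B + 1) ^ (-κ) * (‖eval x f‖ ^ 2 + tk k) ^ (-s)
        * (B + 1) ^ (-K) * (B + 1) ^ (-1 : ℝ) := by ring
    _ ≤ _ := by unfold dw; gcongr

lemma dk_weight {b f : MP M} {D : ℕ} (hb : b.totalDegree ≤ D) {c κ s K w ε R : ℝ} (hc : 0 ≤ c)
    (hκ : 0 ≤ κ) (hs : 0 ≤ s) (hK : 0 ≤ K) (hw : 0 < w) (hε : 0 < ε) (hR : 0 < R) :
    ∃ e, WS (c * D + κ * D + s * f.totalDegree + K * (1 : ℕ) + 1 * (1 : ℕ)) e (fun z ξ =>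
      κ * Levi (ls (w ^ 2) fun (_ : Unit) z => eval z (rename Sum.inr b)) z ξ +
      1 * Levi (ls 1 fun j z => eval z (C (R : ℂ)⁻¹ * X j : MvPolynomial (Fin n ⊕ Fin M) ℂ)) z ξ) ∧
      ∀ k x, e k (emb θ x) = dw θ b f c κ s K w ε R k x := by
  have hb' : ∀ _ : Unit, (rename (Sum.inr : Fin M → Fin n ⊕ Fin M) b).totalDegree ≤ D :=
    fun _ => (totalDegree_rename_le _ _).trans hb
  have hW := ((((WS.fix0 _ hb' hc hε).add (WS.fix _ hb' hκ (t := w ^ 2) (by positivity))).add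
    (WS.reg (fun _ : Unit => rename Sum.inr f) (fun _ => totalDegree_rename_le _ _) hs)).add
    (WS.fix0 X (fun j => (totalDegree_X j).le) hK one_pos)).add
    (WS.fix (fun j => C (R : ℂ)⁻¹ * X j) (d := 1) (fun j => (totalDegree_mul _ _).trans (by simp))
      zero_le_one one_pos)
  simp only [zero_add, add_zero] at hW
  refine ⟨_, hW, fun k x => ?_⟩
  simp [dw, ev_inr, nsq, mul_pow, ← Finset.mul_sum, div_eq_inv_mul]

lemma Geo.dk_A (hG : Geo I θ d F h) {f : MP M} {c c0 κ s K : ℝ} (hc : 0 ≤ c) (hc0 : 0 ≤ c0)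
    (hκ : 0 < κ) (hs : 0 ≤ s) (hK : 0 ≤ K) (A D : ℕ) : ∃ C : ℝ≥0∞, C < ⊤ ∧ ∀ b : MP M,
      b.totalDegree ≤ D → ∀ (i : Fin n) (w ε R : ℝ), 0 < w → 0 < ε → 0 < R →
      ∃ (a : _) (g : (Fin M → ℂ) → ℂ), Continuous g ∧ (∀ x, ‖g x‖ ≤ ‖pr θ x‖ ^ A) ∧
        (∀ x, w ≤ ‖eval x b‖ → g x = 0) ∧
        (∀ x, ‖eval x b‖ ≤ w / 2 → nsq (emb θ x) ≤ R ^ 2 / 4 → g x = pr θ x i ^ A) ∧
        ∫⁻ x, ‖g x - pc (uq θ F h (Kd F h
          (c * D + κ * D + s * f.totalDegree + K * (1 : ℕ) + 1 * (1 : ℕ)))) x a‖ₑ ^ 2 *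
            ⨆ k, ENNReal.ofReal (dw θ b f c κ s K w ε R k x) ∂(lam I θ) ≤
          C * (ENNReal.ofReal ((w ^ 2) ^ (c0 - c - κ)) * (∫⁻ x, ENNReal.ofReal
            ((‖eval x b‖ ^ 2 + w ^ 2) ^ (-c0)) * ENNReal.ofReal (gw θ A K x) ∂(mu I θ f s)) +
          ENNReal.ofReal (ε ^ (-c) * (w ^ 2) ^ (-κ)) * ∫⁻ x in {x | R ^ 2 / 4 ≤ nsq (emb θ x)},
            ENNReal.ofReal (gw θ A K x) ∂(mu I θ f s)) := by
  obtain ⟨Cχ, hχ0, hχ⟩ := dchi_bdd
  have hCx := Cx_lt M d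
  let C1 : ℝ := 4 / κ * Cχ * 4 ^ c * 2 ^ c0 + 4 * Cχ
  refine ⟨Cx M d * ENNReal.ofReal C1, by finiteness, fun b hb i w ε R hw hε hR => ?_⟩
  obtain ⟨e, hW, he⟩ := dk_weight (θ := θ) (f := f) hb hc hκ.le hs hK hw hε hR
  set p : Fin n ⊕ Fin M → (Fin n ⊕ Fin M → ℂ) → ℂ := fun j z => eval z (C (R : ℂ)⁻¹ * X j)
  set q : Unit → (Fin n ⊕ Fin M → ℂ) → ℂ := fun _ z => eval z (rename Sum.inr b)
  have hp : ∀ j, Hol (p j) := fun _ => Hol.poly _
  have hq : ∀ j, Hol (q j) := fun _ => Hol.poly _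
  have ep : ∀ z, Qs p z = nsq z / R ^ 2 := fun z => by
    simp [Qs, p, nsq, mul_pow, ← Finset.mul_sum, div_eq_inv_mul]
  have eq : ∀ x, Qs q (emb θ x) = ‖eval x b‖ ^ 2 := fun x => by simp [Qs, q, ev_inr]
  let a : (Fin n ⊕ Fin M → ℂ) → ℂ := fun z => eval z (X (Sum.inl i) ^ A)
  have ha : Hol a := Hol.poly _
  have ea : ∀ x, a (emb θ x) = pr θ x i ^ A := fun x => by simp [a, emb]
  have ea' : ∀ x, ‖a (emb θ x)‖ ≤ ‖pr θ x‖ ^ A := fun x => by
    rw [ea, norm_pow]; gcongr; exact norm_le_pi_norm _ i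
  have h1 : ∀ z, z ∉ closedBall 0 R → 1 ^ 2 < Qs p z := fun z hz => by
    rw [mem_closedBall_zero_iff, not_le] at hz
    rw [ep, lt_div_iff₀ (by positivity)]; nlinarith [sq_le_nsq z]
  have hg : Tst fun z => a z * (cut p 1 z * cut q w z) :=
    ⟨ha.sm.mul ((sm_cut hp 1).mul (sm_cut hq w)), HasCompactSupport.intro
      (isCompact_closedBall 0 R) fun z hz => by simp [cut_zero one_pos (h1 z hz).le]⟩
  let G : (Fin n ⊕ Fin M → ℂ) → ℝ := fun z =>
    ‖a z * cut p 1 z‖ ^ 2 * (4 / κ) * deriv chi (Qs q z / w ^ 2) ^ 2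
      + ‖a z‖ ^ 2 * 4 * deriv chi (Qs p z / 1 ^ 2) ^ 2
  have hG1 : Continuous G :=
    ((((ha.sm.continuous.mul (sm_cut hp 1).continuous).norm.pow 2).mul continuous_const).mul
      ((dchi_cont.comp ((sm_Qs hq).continuous.div_const _)).pow 2)).add
    (((ha.sm.continuous.norm.pow 2).mul continuous_const).mul
      ((dchi_cont.comp ((sm_Qs hp).continuous.div_const _)).pow 2))
  have hG2 : HasCompactSupport G := HasCompactSupport.intro (isCompact_closedBall 0 R)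
    fun z hz => by
      simp only [G]
      rw [cut_zero one_pos (h1 z hz).le, dchi_gt (s := Qs p z / 1 ^ 2) (by simpa using h1 z hz)]
      simp
  have hG3 : ∀ z, 0 ≤ G z := fun z => by positivity
  obtain ⟨v, hv⟩ := hG.hx' hW hg hG1 hG2 hG3 (two_cut hp hq ha hw hκ)
  simp only [he] at hv
  refine ⟨v, fun x => a (emb θ x) * (cut p 1 (emb θ x) * cut q w (emb θ x)),
    hg.sm.continuous.comp (cont_emb θ), fun x => ?_, fun x hx => ?_, fun x hx hx' => ?_,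
    le_trans (lintegral_mono_ae ?_) (hv.trans ?_)⟩
  · rw [norm_mul, norm_mul]
    exact (mul_le_of_le_one_right (norm_nonneg _) (mul_le_one₀ (norm_cut_le _ _ _) (norm_nonneg _)
      (norm_cut_le _ _ _))).trans (ea' x)
  · simp only
    rw [cut_zero hw (p := q) (by rw [eq]; gcongr)]; simp
  · simp only
    rw [cut_one hw (p := q) (by rw [eq]; nlinarith [norm_nonneg (eval x b)]), cut_one one_pos
      (by rw [ep, div_le_iff₀ (by positivity)]; linarith), ea]; simp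
  · filter_upwards [hG.ae_ne hG.nz_den] with x hx
    rw [ev_pull] at hx
    rw [pc_uq, ← mul_assoc (‖_‖ₑ ^ 2), ENNReal.inv_pow, ← enorm_inv hx, ← mul_pow, ← enorm_mul, sub_mul,
      mul_comm (eval _ (den F h)), mul_inv_cancel_right₀ hx, div_eq_mul_inv]
  have m1 : Measurable fun x => ENNReal.ofReal ((‖eval x b‖ ^ 2 + w ^ 2) ^ (-c0)) *
      ENNReal.ofReal (gw θ A K x) := ((((cont_ev b).norm.measurable.pow_const 2).add_const
        _).pow_const _).ennreal_ofReal.mul (meas_gw A K)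
  have m2 : MeasurableSet {x | R ^ 2 / 4 ≤ nsq (emb θ x)} :=
    measurableSet_le measurable_const (cont_nsq.comp (cont_emb θ)).measurable
  have m3 : Measurable fun x => ENNReal.ofReal ((w ^ 2) ^ (c0 - c - κ)) * (ENNReal.ofReal
      ((‖eval x b‖ ^ 2 + w ^ 2) ^ (-c0)) * ENNReal.ofReal (gw θ A K x) *
        ‖eval x f‖ₑ ^ (-(2 * s))) := (m1.mul (meas_dens f s)).const_mul _
  rw [mul_assoc, ← lintegral_indicator m2, lint_mu _ _ m1, lint_mu _ _ ((meas_gw A K).indicator m2),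
    ← lintegral_const_mul' _ _ ENNReal.ofReal_ne_top, ← lintegral_const_mul' _ _ ENNReal.ofReal_ne_top,
    ← lintegral_add_left m3, ← lintegral_const_mul' _ _ ENNReal.ofReal_ne_top]
  refine mul_le_mul_right (lintegral_mono fun x => ?_) _
  clear hv hW hG1 hG2 hg m1 m2 m3
  have a1 := nsq_nonneg (emb θ x)
  have a2 : ‖a (emb θ x)‖ ^ 2 ≤ ‖pr θ x‖ ^ (2 * A) := by rw [pow_mul']; gcongr; exact ea' x
  simp only [G]
  rw [ENNReal.ofReal_add (by positivity) (by positivity), add_mul, mul_add]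
  refine add_le_add ?_ ?_
  · by_cases hx : deriv chi (Qs q (emb θ x) / w ^ 2) = 0
    · simp [hx]
    obtain ⟨b1, b2⟩ := dchi_supp hw hx
    rw [eq] at b1 b2
    refine (mul_le_mul_right (dw_le hs (u := w ^ 2 / 4) (v := w ^ 2) (by positivity) (by positivity)
      hc hκ.le (by linarith) (by linarith)) _).trans ?_
    rw [← mul_assoc, ← mul_assoc, ← mul_assoc, ← ENNReal.ofReal_mul (by positivity),
      ← ENNReal.ofReal_mul (by positivity), ← ENNReal.ofReal_mul (by positivity),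
      ← ENNReal.ofReal_mul (by positivity)]
    refine mul_le_mul_left (ENNReal.ofReal_le_ofReal ?_) _
    have b3 : ‖a (emb θ x) * cut p 1 (emb θ x)‖ ^ 2 ≤ ‖pr θ x‖ ^ (2 * A) := by
      refine le_trans ?_ a2
      rw [norm_mul]; gcongr; exact mul_le_of_le_one_right (norm_nonneg _) (norm_cut_le _ _ _)
    have b4 : (2 * w ^ 2) ^ (-c0) ≤ (‖eval x b‖ ^ 2 + w ^ 2) ^ (-c0) :=
      Real.rpow_le_rpow_of_nonpos (by positivity) (by linarith) (by linarith)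
    have b5 : 0 < w ^ 2 := by positivity
    calc _ ≤ ‖pr θ x‖ ^ (2 * A) * (4 / κ) * Cχ * ((w ^ 2 / 4) ^ (-c) * (w ^ 2) ^ (-κ) *
          (nsq (emb θ x) + 1) ^ (-K)) := by gcongr; exact hχ _
      _ = 4 / κ * Cχ * 4 ^ c * 2 ^ c0 * (w ^ 2) ^ (c0 - c - κ) *
          ((2 * w ^ 2) ^ (-c0) * gw θ A K x) := by
          rw [Real.div_rpow b5.le (by norm_num), Real.mul_rpow zero_le_two b5.le, Real.rpow_sub b5,
            Real.rpow_sub b5, gw]
          simp only [Real.rpow_neg b5.le, Real.rpow_neg zero_le_two,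
            Real.rpow_neg (show (0 : ℝ) ≤ 4 by norm_num)]
          field_simp
      _ ≤ _ := by
          have : 0 ≤ gw θ A K x := by unfold gw; positivity
          gcongr
          exact le_add_of_nonneg_right (by positivity)
  · by_cases hx : deriv chi (Qs p (emb θ x) / 1 ^ 2) = 0
    · simp only [hx]; simp
    have b1 := (dchi_supp one_pos hx).1
    rw [ep, le_div_iff₀ (by positivity)] at b1
    rw [indicator_of_mem (show x ∈ {x | R ^ 2 / 4 ≤ nsq (emb θ x)} from by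
      rw [mem_ofPred_eq]; linarith)]
    refine (mul_le_mul_right (dw_le hs (u := ε) (v := w ^ 2) hε (by positivity)
      hc hκ.le (by nlinarith) (by nlinarith)) _).trans ?_
    rw [← mul_assoc, ← mul_assoc, ← mul_assoc, ← ENNReal.ofReal_mul (by positivity),
      ← ENNReal.ofReal_mul (by positivity), ← ENNReal.ofReal_mul (by positivity)]
    refine mul_le_mul_left (ENNReal.ofReal_le_ofReal ?_) _
    calc _ ≤ ‖pr θ x‖ ^ (2 * A) * 4 * Cχ * (ε ^ (-c) * (w ^ 2) ^ (-κ) *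
          (nsq (emb θ x) + 1) ^ (-K)) := by gcongr; exact hχ _
      _ = 4 * Cχ * (ε ^ (-c) * (w ^ 2) ^ (-κ)) * gw θ A K x := by unfold gw; ring
      _ ≤ _ := by
          have : 0 ≤ gw θ A K x := by unfold gw; positivity
          gcongr
          exact le_add_of_nonneg_left (by positivity)

end Pool.Agent.Lib.MP_bc3ae6_ag
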