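import Mathlib

set_option autoImplicit false
set_option linter.unusedSectionVars false

/-! Finite dimensional spaces of measurable functions. -/

namespace Pool.Agent.Lib.MP_bc3ae6_ag

open MeasureTheory Set Filter Topology Metric
open scoped ENNReal

lemma sq_add_le (a b : ℂ) : ‖a + b‖ₑ ^ 2 ≤ 2 * ‖a‖ₑ ^ 2 + 2 * ‖b‖ₑ ^ 2 := by
  have h : ‖a + b‖ ^ 2 ≤ 2 * ‖a‖ ^ 2 + 2 * ‖b‖ ^ 2 := by
    have := pow_le_pow_left₀ (norm_nonneg _) (norm_add_le a b) 2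
    nlinarith [sq_nonneg (‖a‖ - ‖b‖)]
  simp only [← ofReal_norm, ← ENNReal.ofReal_pow (norm_nonneg _)]
  rw [← ENNReal.ofReal_ofNat 2, ← ENNReal.ofReal_mul zero_le_two, ← ENNReal.ofReal_mul zero_le_two,
    ← ENNReal.ofReal_add (by positivity) (by positivity)]
  exact ENNReal.ofReal_le_ofReal h

lemma sq_le_sub (a b : ℂ) : ‖b‖ₑ ^ 2 ≤ 2 * ‖a - b‖ₑ ^ 2 + 2 * ‖a‖ₑ ^ 2 := by
  simpa [enorm_sub_rev b a] using sq_add_le (b - a) a

variable {Ω κ : Type} [MeasurableSpace Ω] [Fintype κ] {ν : Measure Ω} {u : κ → Ω → ℂ}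

variable (u) in
/-- Linear combinations. -/
noncomputable def pc (y : Ω) : (κ → ℂ) →ₗ[ℂ] ℂ where
  toFun c := ∑ a, c a * u a y
  map_add' c c' := by simp [add_mul, Finset.sum_add_distrib]
  map_smul' r c := by simp [Finset.mul_sum, mul_assoc]

lemma pc_apply (y : Ω) (c : κ → ℂ) : pc u y c = ∑ a, c a * u a y := rfl

lemma meas_pc (hu : ∀ a, Measurable (u a)) (c : κ → ℂ) : Measurable fun y => pc u y c :=
  Finset.measurable_sum _ fun a _ => (hu a).const_mul _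

lemma ae_null (V : Submodule ℂ (κ → ℂ)) (h : ∀ c ∈ V, ∀ᵐ y ∂ν, pc u y c = 0) :
    ∀ᵐ y ∂ν, ∀ c ∈ V, pc u y c = 0 := by
  obtain ⟨s, rfl⟩ : V.FG := IsNoetherian.noetherian V
  filter_upwards [(eventually_all_finset s).2 fun c hc => h c (Submodule.subset_span hc)] with y hy
  exact fun c hc => (Submodule.span_le (p := LinearMap.ker (pc u y))).2 hy hc

lemma ae_bdd (V : Submodule ℂ (κ → ℂ)) (h : ∀ c ∈ V, ∃ B, ∀ᵐ y ∂ν, ‖pc u y c‖ ≤ B) :
    ∃ B : ℝ, ∀ᵐ y ∂ν, ∀ c ∈ V, ‖pc u y c‖ ≤ B * ‖c‖ := by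
  let b := Module.finBasis ℂ V
  choose B hB using fun i => h (b i) (b i).2
  refine ⟨∑ i, ‖(b.coord i).toContinuousLinearMap‖ * B i, ?_⟩
  filter_upwards [eventually_all.2 hB] with y hy c hc
  have e : c = ∑ i, b.repr ⟨c, hc⟩ i • (b i : κ → ℂ) := by
    have := congrArg V.subtype (b.sum_repr ⟨c, hc⟩)
    rw [map_sum] at this
    exact this.symm
  conv_lhs => rw [e, map_sum]
  rw [Finset.sum_mul]
  refine (norm_sum_le _ _).trans (Finset.sum_le_sum fun i _ => ?_)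
  rw [map_smul, norm_smul, mul_right_comm]
  exact mul_le_mul ((b.coord i).toContinuousLinearMap.le_opNorm ⟨c, hc⟩) (hy i) (norm_nonneg _)
    (by positivity)

lemma fd0 (hu : ∀ a, Measurable (u a)) (V : Submodule ℂ (κ → ℂ))
    (hV : ∀ c ∈ V, ∫⁻ y, ‖pc u y c‖ₑ ^ 2 ∂ν < ⊤) : ∃ C : ℝ≥0∞, C < ⊤ ∧ ∀ c ∈ V, ∃ c' ∈ V,
      (∀ᵐ y ∂ν, pc u y c' = pc u y c) ∧ ‖c'‖ₑ ^ 2 ≤ C * ∫⁻ y, ‖pc u y c‖ₑ ^ 2 ∂ν := by
  have hm : ∀ c : V, MemLp (fun y => pc u y c) 2 ν := fun c =>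
    ⟨(meas_pc hu c).aestronglyMeasurable, (eLpNorm_lt_top_iff_lintegral_rpow_enorm_lt_top
      two_ne_zero ENNReal.ofNat_ne_top).2 (by simpa using hV c c.2)⟩
  let T : V →ₗ[ℂ] Lp ℂ 2 ν :=
    { toFun := fun c => (hm c).toLp _
      map_add' := fun c c' => by
        rw [← MemLp.toLp_add]; exact MemLp.toLp_congr _ _ (Eventually.of_forall fun y => map_add (pc u y) _ _)
      map_smul' := fun r c => by
        rw [RingHom.id_apply, ← MemLp.toLp_const_smul]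
        exact MemLp.toLp_congr _ _ (Eventually.of_forall fun y => map_smul (pc u y) _ _) }
  obtain ⟨g, hg⟩ := T.rangeRestrict.exists_rightInverse_of_surjective T.range_rangeRestrict
  refine ⟨‖g.toContinuousLinearMap‖ₑ ^ 2, ENNReal.pow_lt_top enorm_lt_top, fun c hc => ?_⟩
  let t : LinearMap.range T := T.rangeRestrict ⟨c, hc⟩
  have h1 : T (g t) = T ⟨c, hc⟩ := congrArg Subtype.val (LinearMap.congr_fun hg t)
  refine ⟨g t, (g t).2, (MemLp.toLp_eq_toLp_iff (hm (g t)) (hm ⟨c, hc⟩)).1 h1, ?_⟩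
  have h2 : ‖T ⟨c, hc⟩‖ₑ ^ 2 = ∫⁻ y, ‖pc u y c‖ₑ ^ 2 ∂ν := by
    change ‖(hm ⟨c, hc⟩).toLp _‖ₑ ^ 2 = _
    rw [Lp.enorm_toLp, eLpNorm_eq_lintegral_rpow_enorm_toReal two_ne_zero ENNReal.ofNat_ne_top,
      ← ENNReal.rpow_two, ← ENNReal.rpow_mul]
    simp
  rw [← h2, ← mul_pow]
  gcongr
  exact g.toContinuousLinearMap.le_opENorm t

lemma fd_sup (hu : ∀ a, Measurable (u a)) (V : Submodule ℂ (κ → ℂ))
    (hV : ∀ c ∈ V, ∫⁻ y, ‖pc u y c‖ₑ ^ 2 ∂ν < ⊤) (h : ∀ c ∈ V, ∃ B, ∀ᵐ y ∂ν, ‖pc u y c‖ ≤ B) :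
    ∃ C : ℝ≥0∞, C < ⊤ ∧ ∀ c ∈ V, ∀ᵐ y ∂ν, ‖pc u y c‖ₑ ^ 2 ≤ C * ∫⁻ y, ‖pc u y c‖ₑ ^ 2 ∂ν := by
  obtain ⟨C, hC, h1⟩ := fd0 hu V hV
  obtain ⟨B, hB⟩ := ae_bdd V h
  refine ⟨ENNReal.ofReal |B| ^ 2 * C,
    ENNReal.mul_lt_top (ENNReal.pow_lt_top ENNReal.ofReal_lt_top) hC, fun c hc => ?_⟩
  obtain ⟨c', hc', h2, h3⟩ := h1 c hc
  filter_upwards [h2, hB] with y hy hy'
  rw [← hy, mul_assoc]
  refine le_trans ?_ (mul_le_mul_right h3 _)
  rw [← mul_pow, ← ofReal_norm, ← ofReal_norm, ← ENNReal.ofReal_mul (abs_nonneg _)]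
  gcongr
  exact (hy' c' hc').trans (by gcongr; exact le_abs_self B)

lemma lim_lemma (hu : ∀ a, Measurable (u a)) {g : Ω → ℂ} (hg : Measurable g)
    {W : ℕ → Ω → ℝ≥0∞} (hW : ∀ k, Measurable (W k)) (hW' : Monotone W)
    (h1 : ∀ k c, ∫⁻ y, ‖pc u y c‖ₑ ^ 2 * W k y ∂ν < ⊤) (h2 : ∀ k, ∫⁻ y, ‖g y‖ₑ ^ 2 * W k y ∂ν < ⊤)
    {B : ℝ≥0∞} (h : ∀ k, ∀ η : ℝ≥0∞, 0 < η →
      ∃ c, ∫⁻ y, ‖g y - pc u y c‖ₑ ^ 2 * W k y ∂ν ≤ B + η) :
    ∃ c, ∫⁻ y, ‖g y - pc u y c‖ₑ ^ 2 * ⨆ k, W k y ∂ν ≤ B := by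
  rcases eq_top_or_lt_top B with rfl | hB
  · exact ⟨0, le_top⟩
  have hm : ∀ c, Measurable fun y => ‖g y - pc u y c‖ₑ ^ 2 := fun c =>
    (hg.sub (meas_pc hu c)).enorm.pow_const 2
  have hm' : ∀ c k, Measurable fun y => ‖g y - pc u y c‖ₑ ^ 2 * W k y := fun c k =>
    (hm c).mul (hW k)
  let N : ℕ →o (Submodule ℂ (κ → ℂ))ᵒᵈ :=
    { toFun := fun k =>
        (({ carrier := {c | ∀ᵐ y ∂ν, W k y ≠ 0 → pc u y c = 0}
            add_mem' := fun ha hb => by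
              rw [mem_ofPred_eq] at ha hb ⊢
              filter_upwards [ha, hb] with y h1 h2 h3
              rw [map_add, h1 h3, h2 h3, add_zero]
            zero_mem' := by
              rw [mem_ofPred_eq]; exact Eventually.of_forall fun y _ => map_zero _
            smul_mem' := fun r c hc => by
              rw [mem_ofPred_eq] at hc ⊢
              filter_upwards [hc] with y h1 h3
              rw [map_smul, h1 h3, smul_zero] } : Submodule ℂ (κ → ℂ)))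
      monotone' := fun k l hkl c hc => by
        change ∀ᵐ y ∂ν, _ at hc ⊢
        filter_upwards [hc] with y h1 h3
        exact h1 fun h4 => h3 (nonpos_iff_eq_zero.1 (h4 ▸ hW' hkl y)) }
  obtain ⟨k0, hk0⟩ := IsArtinian.monotone_stabilizes N
  have wd : ∀ {f : Ω → ℝ≥0∞}, Measurable f →
      ∫⁻ y, f y ∂(ν.withDensity (W k0)) = ∫⁻ y, f y * W k0 y ∂ν := fun hf => by
    rw [lintegral_withDensity_eq_lintegral_mul _ (hW k0) hf]; simp [mul_comm]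
  have hp : ∀ c, Measurable fun y => ‖pc u y c‖ₑ ^ 2 := fun c => (meas_pc hu c).enorm.pow_const 2
  obtain ⟨C, hC, hC'⟩ := fd0 (ν := ν.withDensity (W k0)) hu ⊤ fun c _ => by
    rw [wd (hp c)]; exact h1 k0 c
  choose c hc using fun k : ℕ => h (k + k0) ((k + 1 : ℕ) : ℝ≥0∞)⁻¹ (by simp)
  choose c' _ hc1 hc2 using fun k => hC' (c k) trivial
  have hc3 : ∀ k, ∫⁻ y, ‖g y - pc u y (c' k)‖ₑ ^ 2 * W (k + k0) y ∂ν
      ≤ B + ((k + 1 : ℕ) : ℝ≥0∞)⁻¹ := by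
    intro k
    refine le_trans (le_of_eq (lintegral_congr_ae ?_)) (hc k)
    have h3 : c' k - c k ∈ OrderDual.ofDual (N k0) := by
      filter_upwards [(ae_withDensity_iff (hW k0)).1 (hc1 k)] with y hy h3
      rw [map_sub, hy h3, sub_self]
    rw [hk0 (k + k0) (by omega)] at h3
    filter_upwards [h3] with y hy
    by_cases h4 : W (k + k0) y = 0
    · simp [h4]
    · rw [sub_eq_zero.1 ((map_sub _ _ _).symm.trans (hy h4))]
  have hb : ∀ k, ‖c' k‖ₑ ^ 2 ≤ C * (2 * (B + 1) + 2 * ∫⁻ y, ‖g y‖ₑ ^ 2 * W k0 y ∂ν) := by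
    intro k
    refine (hc2 k).trans (mul_le_mul_right ?_ _)
    rw [wd (hp _)]
    calc _ ≤ ∫⁻ y, 2 * (‖g y - pc u y (c k)‖ₑ ^ 2 * W (k + k0) y) + 2 * (‖g y‖ₑ ^ 2 * W k0 y) ∂ν := by
          refine lintegral_mono fun y => (mul_le_mul_left (sq_le_sub (g y) _) _).trans ?_
          rw [add_mul, mul_assoc, mul_assoc]
          gcongr
          exact hW' (by omega) y
      _ ≤ _ := by
          rw [lintegral_add_left ((hm' _ _).const_mul 2), lintegral_const_mul' _ _ (by simp),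
            lintegral_const_mul' _ _ (by simp)]
          gcongr
          exact (hc k).trans (by gcongr; simp)
  set K := C * (2 * (B + 1) + 2 * ∫⁻ y, ‖g y‖ₑ ^ 2 * W k0 y ∂ν)
  have hK : K ≠ ⊤ := by
    have := h2 k0
    simp only [K]; finiteness
  obtain ⟨a, -, φ, hφ, ha⟩ := tendsto_subseq_of_bounded (x := c')
    (isBounded_closedBall (x := 0) (r := 1 + K.toReal)) fun k => by
      have h3 := ENNReal.toReal_mono hK (hb k)
      rw [ENNReal.toReal_pow, toReal_enorm] at h3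
      rw [mem_closedBall_zero_iff]
      nlinarith [sq_nonneg (‖c' k‖ - 1), norm_nonneg (c' k)]
  refine ⟨a, ?_⟩
  simp only [ENNReal.mul_iSup]
  rw [lintegral_iSup (hm' a) fun k l hkl y => mul_le_mul_right (hW' hkl y) _]
  refine iSup_le fun j => ?_
  have h3 : Tendsto (fun i => B + ((φ i + 1 : ℕ) : ℝ≥0∞)⁻¹) atTop (𝓝 (B + 0)) :=
    tendsto_const_nhds.add (ENNReal.tendsto_inv_nat_nhds_zero.comp
      ((tendsto_add_atTop_nat 1).comp hφ.tendsto_atTop))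
  rw [add_zero] at h3
  calc _ ≤ ∫⁻ y, liminf (fun i => ‖g y - pc u y (c' (φ i))‖ₑ ^ 2 * W j y) atTop ∂ν := by
        refine lintegral_mono fun y => ?_
        have h4 : Tendsto (fun i => ‖g y - pc u y (c' (φ i))‖ₑ ^ 2) atTop
            (𝓝 (‖g y - pc u y a‖ₑ ^ 2)) :=
          ENNReal.Tendsto.pow (tendsto_const_nhds.sub
            (((pc u y).toContinuousLinearMap.continuous.tendsto a).comp ha)).enorm
        by_cases h5 : ‖g y - pc u y a‖ₑ ^ 2 = 0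
        · simp [h5]
        · exact (ENNReal.Tendsto.mul_const h4 (Or.inl h5)).liminf_eq.ge
    _ ≤ liminf (fun i => ∫⁻ y, ‖g y - pc u y (c' (φ i))‖ₑ ^ 2 * W j y ∂ν) atTop :=
        lintegral_liminf_le fun i => (hm _).mul (hW j)
    _ ≤ _ := by
        rw [← h3.liminf_eq]
        refine liminf_le_liminf ?_
        filter_upwards [eventually_ge_atTop j] with i hi
        refine le_trans (lintegral_mono fun y => ?_) (hc3 (φ i))
        exact mul_le_mul_right (hW' (by have := hφ.id_le i; simp at this; omega) y) _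

end Pool.Agent.Lib.MP_bc3ae6_ag
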