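import Mathlib

set_option autoImplicit false
set_option linter.unusedSectionVars false

/-! Fibre counting measures of finite-to-one continuous maps, and the area inequality. -/

namespace Pool.Agent.Lib.MP_bc3ae6_ag

open MeasureTheory Set Function Metric Measure Filter
open scoped ENNReal

variable {E E' : Type*} [MetricSpace E] [ProperSpace E] [MeasurableSpace E] [BorelSpace E]
  [MetricSpace E'] [MeasurableSpace E'] [BorelSpace E']

/-- The fibre of `f` in `s`. -/
def fibr (s : Set E) (f : E → E') (w : E') : Set E := {x ∈ s | f x = w}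

/-- The fibre counting measure. -/
noncomputable def fm (ν : Measure E') (s : Set E) (f : E → E') : Measure E :=
  ν.bind fun w => count.restrict (fibr s f w)

/-- Fibre sums. -/
noncomputable def fs (s : Set E) (f : E → E') (H : E → ℝ≥0∞) (w : E') : ℝ≥0∞ :=
  ∑' x, (fibr s f w).indicator H x

/-- Finite-to-one continuous maps on a closed set. -/
structure FF (s : Set E) (f : E → E') (D : ℕ) : Prop where
  cl : IsClosed s
  ct : Continuous f
  bd : ∀ w, (fibr s f w).encard ≤ D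

lemma le_fs {s : Set E} {f : E → E'} (H : E → ℝ≥0∞) {x : E} (hx : x ∈ s) : H x ≤ fs s f H (f x) := by
  refine le_trans ?_ (ENNReal.le_tsum x)
  rw [indicator_of_mem (show x ∈ fibr s f (f x) from ⟨hx, rfl⟩)]

lemma fs_mono {s : Set E} {f : E → E'} {H H' : E → ℝ≥0∞} {w : E'}
    (h : ∀ x ∈ s, f x = w → H x ≤ H' x) : fs s f H w ≤ fs s f H' w :=
  ENNReal.tsum_le_tsum fun x => by
    by_cases hx : x ∈ fibr s f w
    · rw [indicator_of_mem hx, indicator_of_mem hx]; exact h x hx.1 hx.2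
    · rw [indicator_of_notMem hx]; exact bot_le

namespace FF

variable {s : Set E} {f : E → E'} {D : ℕ} (h : FF s f D)
include h

lemma fin (w : E') : (fibr s f w).Finite := finite_of_encard_le_coe (h.bd w)

lemma mfib (w : E') : MeasurableSet (fibr s f w) := (h.fin w).measurableSet

lemma fs_eq (H : E → ℝ≥0∞) (w : E') : fs s f H w = ∑ x ∈ (h.fin w).toFinset, H x := by
  rw [fs, tsum_eq_sum (s := (h.fin w).toFinset)]
  · exact Finset.sum_congr rfl fun x hx => indicator_of_mem ((h.fin w).mem_toFinset.1 hx) _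
  · exact fun x hx => indicator_of_notMem (fun hx' => hx ((h.fin w).mem_toFinset.2 hx')) _

lemma card_le (w : E') : (h.fin w).toFinset.card ≤ D := by
  have := h.bd w
  rw [(h.fin w).encard_eq_coe_toFinset_card] at this
  exact_mod_cast this

lemma fs_le {H : E → ℝ≥0∞} {w : E'} {c : ℝ≥0∞} (hc : ∀ x ∈ s, f x = w → H x ≤ c) :
    fs s f H w ≤ D * c := by
  rw [h.fs_eq]
  refine (Finset.sum_le_card_nsmul _ _ c fun x hx => ?_).trans ?_
  · have := (h.fin w).mem_toFinset.1 hx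
    exact hc x this.1 this.2
  · rw [nsmul_eq_mul]; gcongr; exact_mod_cast h.card_le w

lemma exists_pieces : ∃ S : ℕ → Set E, (∀ k, MeasurableSet (S k)) ∧ (∀ k, InjOn f (S k)) ∧
    Pairwise (Disjoint on S) ∧ ⋃ k, S k = s := by
  rcases isEmpty_or_nonempty E with hE | hE
  · exact ⟨fun _ => ∅, fun _ => MeasurableSet.empty, fun _ => injOn_empty _,
      fun _ _ _ => disjoint_empty _, Subsingleton.elim _ _⟩
  let c := TopologicalSpace.denseSeq E
  let B : ℕ × ℕ → Set E := fun p => s ∩ closedBall (c p.1) (1 / (p.2 + 1 : ℝ))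
  let T : ℕ × ℕ → Set E := fun p => B p \ ⋃ k : ℕ, Prod.fst ''
    ((B p ×ˢ B p) ∩ {q : E × E | f q.1 = f q.2 ∧ 1 / (k + 1 : ℝ) ≤ dist q.1 q.2})
  have hB : ∀ p, IsCompact (B p) := fun p => (isCompact_closedBall _ _).inter_left h.cl
  have hT : ∀ p, MeasurableSet (T p) := fun p => (hB p).measurableSet.diff
    (MeasurableSet.iUnion fun k => ((((hB p).prod (hB p)).inter_right
      ((isClosed_eq (h.ct.comp continuous_fst) (h.ct.comp continuous_snd)).inter
        (isClosed_le continuous_const continuous_dist))).image continuous_fst).measurableSet)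
  have hI : ∀ p, InjOn f (T p) := by
    intro p x hx y hy e
    by_contra hne
    obtain ⟨k, hk⟩ := exists_nat_one_div_lt (dist_pos.2 hne)
    exact hx.2 (mem_iUnion.2 ⟨k, (x, y), ⟨⟨hx.1, hy.1⟩, e, hk.le⟩, rfl⟩)
  have hc : ∀ x ∈ s, ∃ p, x ∈ T p := by
    intro x hx
    obtain ⟨r, hr, hr'⟩ : ∃ r > 0, ∀ y ∈ fibr s f (f x), dist x y < r → y = x := by
      have h1 : IsOpen (fibr s f (f x) \ {x})ᶜ := ((h.fin _).diff).isClosed.isOpen_compl
      obtain ⟨r, hr, hr'⟩ := Metric.isOpen_iff.1 h1 x (by simp)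
      refine ⟨r, hr, fun y hy hxy => ?_⟩
      by_contra hne
      exact hr' (mem_ball'.2 hxy) ⟨hy, hne⟩
    obtain ⟨k, hk⟩ := exists_nat_one_div_lt (half_pos hr)
    obtain ⟨i, hi⟩ := (TopologicalSpace.denseRange_denseSeq E).exists_dist_lt x
      (Nat.one_div_pos_of_nat (α := ℝ) (n := k))
    refine ⟨(i, k), ⟨hx, mem_closedBall.2 hi.le⟩, fun hx' => ?_⟩
    obtain ⟨j, ⟨a, b⟩, ⟨⟨ha, hb⟩, e, hd⟩, rfl⟩ := mem_iUnion.1 hx'
    have h2 : dist a b < r := by
      have := dist_triangle_right a b (c i)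
      have h3 : dist a (c i) ≤ _ := ha.2
      have h4 : dist b (c i) ≤ _ := hb.2
      simp only at h3 h4
      linarith
    have h5 := hr' b ⟨hb.1, e.symm⟩ h2
    simp only at hd h5
    rw [h5, dist_self] at hd
    exact hd.not_gt Nat.one_div_pos_of_nat
  let e : ℕ ≃ ℕ × ℕ := Nat.pairEquiv.symm
  refine ⟨disjointed (T ∘ e), MeasurableSet.disjointed fun k => hT _,
    fun k => (hI _).mono (disjointed_subset _ k), disjoint_disjointed _, ?_⟩
  rw [iUnion_disjointed]
  refine Subset.antisymm (iUnion_subset fun k x hx => hx.1.1) fun x hx => ?_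
  obtain ⟨p, hp⟩ := hc x hx
  exact mem_iUnion.2 ⟨e.symm p, by simpa using hp⟩

lemma count_pieces {S : ℕ → Set E} (h1 : ∀ k, MeasurableSet (S k)) (h2 : ∀ k, InjOn f (S k))
    (h3 : Pairwise (Disjoint on S)) (h4 : ⋃ k, S k = s) (B : Set E) (w : E') :
    count (B ∩ fibr s f w) = ∑' k, (f '' (S k ∩ B)).indicator 1 w := by
  have e : B ∩ fibr s f w = ⋃ k, S k ∩ (B ∩ fibr s f w) := by
    rw [← iUnion_inter, h4]
    exact (inter_eq_right.2 fun x hx => hx.2.1).symm
  rw [e, measure_iUnion (fun i j hij => (h3 hij).mono inter_subset_left inter_subset_left)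
    fun k => (((h.fin w).inter_of_right B).inter_of_right _).measurableSet]
  refine tsum_congr fun k => ?_
  by_cases hw : w ∈ f '' (S k ∩ B)
  · rw [indicator_of_mem hw]
    obtain ⟨x, hx, rfl⟩ := hw
    have : S k ∩ (B ∩ fibr s f (f x)) = {x} := by
      refine eq_singleton_iff_unique_mem.2 ⟨⟨hx.1, hx.2, h4 ▸ mem_iUnion.2 ⟨k, hx.1⟩, rfl⟩, ?_⟩
      exact fun y hy => h2 k hy.1 hx.1 hy.2.2.2
    rw [this]; simp
  · rw [indicator_of_notMem hw]
    have : S k ∩ (B ∩ fibr s f w) = ∅ :=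
      eq_empty_of_forall_notMem fun y hy => hw ⟨y, ⟨hy.1, hy.2.1⟩, hy.2.2.2⟩
    rw [this]; simp

lemma meas_ker : Measurable fun w => (count.restrict (fibr s f w) : Measure E) := by
  obtain ⟨S, h1, h2, h3, h4⟩ := h.exists_pieces
  refine measurable_of_measurable_coe _ fun B hB => ?_
  simp only [restrict_apply hB, h.count_pieces h1 h2 h3 h4]
  refine Measurable.ennreal_tsum fun k => measurable_one.indicator ?_
  exact ((h1 k).inter hB).image_of_continuousOn_injOn h.ct.continuousOn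
    ((h2 k).mono inter_subset_left)

lemma lint_ker (H : E → ℝ≥0∞) (w : E') : ∫⁻ x in fibr s f w, H x ∂count = fs s f H w := by
  rw [← lintegral_indicator (h.mfib w), lintegral_count, fs]

lemma meas_fs {H : E → ℝ≥0∞} (hH : Measurable H) : Measurable (fs s f H) := by
  rw [← funext (h.lint_ker H)]
  exact (measurable_lintegral hH).comp h.meas_ker

lemma lint_fm (ν : Measure E') {H : E → ℝ≥0∞} (hH : Measurable H) :
    ∫⁻ x, H x ∂(fm ν s f) = ∫⁻ w, fs s f H w ∂ν := by
  rw [fm, lintegral_bind h.meas_ker.aemeasurable hH.aemeasurable]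
  simp only [h.lint_ker]

lemma lint_fm_le (ν : Measure E') (H : E → ℝ≥0∞) :
    ∫⁻ x, H x ∂(fm ν s f) ≤ ∫⁻ w, fs s f H w ∂ν := by
  refine (lintegral_bind_le _ _ _).trans (le_of_eq ?_)
  simp only [h.lint_ker]

lemma fm_apply (ν : Measure E') {B : Set E} (hB : MeasurableSet B) :
    fm ν s f B = ∫⁻ w, ((B ∩ fibr s f w).encard : ℝ≥0∞) ∂ν := by
  rw [fm, bind_apply hB h.meas_ker.aemeasurable]
  refine lintegral_congr fun w => ?_
  rw [restrict_apply hB, count_apply (hB.inter (h.mfib w))]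

lemma fm_compl (ν : Measure E') : fm ν s f sᶜ = 0 := by
  rw [h.fm_apply ν h.cl.measurableSet.compl]
  have : ∀ w, sᶜ ∩ fibr s f w = ∅ := fun w => eq_empty_of_forall_notMem fun x hx => hx.1 hx.2.1
  simp [this]

lemma ae_mem (ν : Measure E') : ∀ᵐ x ∂(fm ν s f), x ∈ s := h.fm_compl ν

lemma lint_comp_le (ν : Measure E') (G : E' → ℝ≥0∞) :
    ∫⁻ x, G (f x) ∂(fm ν s f) ≤ D * ∫⁻ w, G w ∂ν := by
  refine (h.lint_fm_le ν _).trans ?_
  rw [← lintegral_const_mul' _ _ (ENNReal.natCast_ne_top D)]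
  exact lintegral_mono fun w => h.fs_le fun x _ hx => by rw [hx]

lemma fm_le (ν : Measure E') {B : Set E} {U : Set E'} (hU : ∀ x ∈ s, x ∈ B → f x ∈ U) :
    fm ν s f B ≤ D * ν U := by
  have hm := measurableSet_toMeasurable ν U
  have h1 := h.lint_comp_le ν ((toMeasurable ν U).indicator 1)
  rw [lintegral_indicator_one hm, measure_toMeasurable] at h1
  refine le_trans ?_ h1
  have e : (fun x => (toMeasurable ν U).indicator (1 : E' → ℝ≥0∞) (f x))
      = (f ⁻¹' toMeasurable ν U).indicator 1 := by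
    funext x; exact (indicator_comp_right f (g := (1 : E' → ℝ≥0∞))).symm
  rw [e, lintegral_indicator_one (h.ct.measurable hm)]
  refine measure_mono_ae ?_
  filter_upwards [h.ae_mem ν] with x hx hB using subset_toMeasurable _ _ (hU x hx hB)

lemma ae_of (ν : Measure E') {p : E → Prop} (hp : ∀ᵐ w ∂ν, ∀ x ∈ s, f x = w → p x) :
    ∀ᵐ x ∂(fm ν s f), p x := by
  rw [ae_iff] at hp ⊢
  refine nonpos_iff_eq_zero.1 ((h.fm_le ν (U := {w | ¬∀ x ∈ s, f x = w → p x}) ?_).trans ?_)
  · exact fun x hx hB hw => hB (hw x hx rfl)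
  · rw [hp, mul_zero]

lemma le_fm (ν : Measure E') {B : Set E} (hB : MeasurableSet B) {U : Set E'}
    (hU : ∀ w ∈ U, ∃ x ∈ s, x ∈ B ∧ f x = w) : ν U ≤ fm ν s f B := by
  rw [← lintegral_indicator_one hB, h.lint_fm ν (measurable_one.indicator hB)]
  refine le_trans ?_ (mul_meas_ge_le_lintegral₀
    (h.meas_fs (measurable_one.indicator hB)).aemeasurable 1)
  rw [one_mul]
  refine measure_mono fun w hw => ?_
  obtain ⟨x, hx, hxB, rfl⟩ := hU w hw
  have := le_fs (f := f) (B.indicator (1 : E → ℝ≥0∞)) hx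
  rwa [indicator_of_mem hxB] at this

lemma lint_scale (ν : Measure E') (σ : E ≃ₜ E) {τ : E' → E'} (h1 : ∀ x, σ x ∈ s ↔ x ∈ s)
    (hτ : Injective τ) (h2 : ∀ x, f (σ x) = τ (f x)) {c : ℝ≥0∞}
    (h3 : ∀ G : E' → ℝ≥0∞, Measurable G → ∫⁻ w, G (τ w) ∂ν = c * ∫⁻ w, G w ∂ν)
    {H : E → ℝ≥0∞} (hH : Measurable H) :
    ∫⁻ x, H (σ x) ∂(fm ν s f) = c * ∫⁻ x, H x ∂(fm ν s f) := by
  have hH' : Measurable fun x => H (σ x) := hH.comp σ.continuous.measurable
  rw [h.lint_fm ν hH', h.lint_fm ν hH, ← h3 _ (h.meas_fs hH)]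
  refine lintegral_congr fun w => ?_
  rw [fs, fs, ← σ.toEquiv.tsum_eq ((fibr s f (τ w)).indicator H)]
  refine tsum_congr fun x => ?_
  have : x ∈ fibr s f w ↔ σ.toEquiv x ∈ fibr s f (τ w) :=
    and_congr (h1 x).symm (by rw [Homeomorph.coe_toEquiv, h2]; exact hτ.eq_iff.symm)
  by_cases hx : x ∈ fibr s f w
  · rw [indicator_of_mem hx, indicator_of_mem (this.1 hx)]; rfl
  · rw [indicator_of_notMem hx, indicator_of_notMem (mt this.2 hx)]

end FF

lemma area_le {E : Type*} [NormedAddCommGroup E] [NormedSpace ℝ E] [FiniteDimensional ℝ E]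
    [MeasurableSpace E] [BorelSpace E] (μ : Measure E) [IsAddHaarMeasure μ] {Φ : E → E}
    {Φ' : E → E →L[ℝ] E} (hΦ : ∀ x, HasFDerivAt Φ (Φ' x) x) {D : ℕ}
    (hD : ∀ w, (fibr univ Φ w).encard ≤ D) {Ψ : E → ℝ≥0∞} (hΨ : Measurable Ψ) :
    ∫⁻ x, ENNReal.ofReal |(Φ' x).det| * Ψ (Φ x) ∂μ ≤ D * ∫⁻ w, Ψ w ∂μ := by
  have : ProperSpace E := FiniteDimensional.proper ℝ E
  have h : FF univ Φ D :=
    ⟨isClosed_univ, continuous_iff_continuousAt.2 fun x => (hΦ x).continuousAt, hD⟩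
  obtain ⟨S, h1, h2, h3, h4⟩ := h.exists_pieces
  have h5 : ∀ k, MeasurableSet (Φ '' S k) := fun k =>
    (h1 k).image_of_continuousOn_injOn h.ct.continuousOn (h2 k)
  rw [← setLIntegral_univ, ← h4, lintegral_iUnion h1 h3]
  simp only [← fun k => lintegral_image_eq_lintegral_abs_det_fderiv_mul μ (h1 k)
    (fun x _ => (hΦ x).hasFDerivWithinAt) (h2 k) Ψ, ← lintegral_indicator (h5 _)]
  rw [← lintegral_tsum fun k => (hΨ.indicator (h5 k)).aemeasurable,
    ← lintegral_const_mul' _ _ (ENNReal.natCast_ne_top D)]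
  refine lintegral_mono fun w => ?_
  have h6 := h.count_pieces h1 h2 h3 h4 univ w
  simp only [inter_univ, univ_inter, count_apply (h.mfib w)] at h6
  have h7 : ∀ k, (Φ '' S k).indicator Ψ w = (Φ '' S k).indicator 1 w * Ψ w := fun k => by
    by_cases hw : w ∈ Φ '' S k
    · simp [indicator_of_mem hw]
    · simp [indicator_of_notMem hw]
  simp only [h7]
  rw [ENNReal.tsum_mul_right, ← h6]
  gcongr
  exact_mod_cast hD w

end Pool.Agent.Lib.MP_bc3ae6_ag
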