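import Pool.Agent.Lib.MP_bc3ae6_ag.J3

set_option autoImplicit false
set_option linter.unusedSectionVars false

/-! Remez type sublevel set estimates for entire functions. -/

namespace Pool.Agent.Lib.MP_bc3ae6_ag

open MeasureTheory Set Function Metric Measure Filter Topology
open scoped ENNReal

lemma newton {σ R : ℝ} (hσ : 0 < σ) (hσ5 : σ ≤ 5) (hR : 1 < R) {z : ℂ} (hz : ‖z‖ ≤ 1)
    (s : Finset ℂ) : ∀ {g : ℂ → ℂ} {τ M : ℝ}, Differentiable ℂ g → 0 ≤ τ → (∀ t ∈ s, ‖t‖ ≤ 1) →
      (∀ t ∈ s, ∀ t' ∈ s, t ≠ t' → σ ≤ ‖t - t'‖) → (∀ t ∈ s, ‖g t‖ ≤ τ) →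
      (∀ t, ‖t‖ = R → ‖g t‖ ≤ M) →
      ‖g z‖ ≤ τ * σ * (5 / σ) ^ s.card + M * (4 / (R - 1)) ^ s.card := by
  classical
  have mm : ∀ {g : ℂ → ℂ} {M : ℝ}, Differentiable ℂ g → (∀ t, ‖t‖ = R → ‖g t‖ ≤ M) →
      ∀ t, ‖t‖ ≤ 1 → ‖g t‖ ≤ M := fun hg hM t ht =>
    Complex.norm_le_of_forall_mem_frontier_norm_le (U := ball 0 R) isBounded_ball hg.diffContOnCl
      (fun y hy => hM y (by simpa [frontier_ball (0 : ℂ) (by linarith : R ≠ 0)] using hy))
      (subset_closure (by simp; linarith))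
  induction s using Finset.induction_on with
  | empty =>
    intro g τ M hg hτ _ _ _ hM
    have := mm hg hM z hz
    simp only [Finset.card_empty, pow_zero, mul_one]
    nlinarith
  | insert a s ha ih =>
    intro g τ M hg hτ h1 h2 h3 hM
    have ha1 := h1 a (Finset.mem_insert_self _ _)
    have ha3 := h3 a (Finset.mem_insert_self _ _)
    have haM := mm hg hM a ha1
    have e : ∀ t, ‖t - a‖ * ‖dslope g a t‖ = ‖g t - g a‖ := fun t => by
      rw [← sub_smul_dslope, norm_smul]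
    have hR1 : 0 < R - 1 := by linarith
    have h4 := ih (g := dslope g a) (τ := 2 * τ / σ) (M := 2 * M / (R - 1))
      (differentiableOn_univ.1 ((Complex.differentiableOn_dslope univ_mem).2 hg.differentiableOn))
      (by positivity) (fun t ht => h1 t (Finset.mem_insert_of_mem ht))
      (fun t ht t' ht' => h2 t (Finset.mem_insert_of_mem ht) t' (Finset.mem_insert_of_mem ht'))
      (fun t ht => by
        have h5 := h2 t (Finset.mem_insert_of_mem ht) a (Finset.mem_insert_self _ _)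
          (fun h => ha (h ▸ ht))
        have h6 := norm_sub_le (g t) (g a)
        have h7 := h3 t (Finset.mem_insert_of_mem ht)
        rw [le_div_iff₀ hσ]
        nlinarith [e t, norm_nonneg (dslope g a t)])
      (fun t ht => by
        have h5 := norm_sub_norm_le t a
        have h6 := norm_sub_le (g t) (g a)
        have h7 := hM t ht
        rw [le_div_iff₀ hR1]
        nlinarith [e t, norm_nonneg (dslope g a t)])
    have h5 : ‖g z‖ ≤ τ + 2 * ‖dslope g a z‖ := by
      have h6 := norm_sub_le z a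
      have h7 := norm_le_norm_add_norm_sub' (g z) (g a)
      nlinarith [e z, norm_nonneg (dslope g a z)]
    have h6 : 1 ≤ (5 / σ) ^ s.card := one_le_pow₀ (by rw [le_div_iff₀ hσ]; linarith)
    rw [Finset.card_insert_of_notMem ha, pow_succ, pow_succ]
    have e1 : τ * σ * ((5 / σ) ^ s.card * (5 / σ)) = 5 * τ * (5 / σ) ^ s.card := by field_simp
    have e2 : 2 * τ / σ * σ = 2 * τ := by field_simp
    have e3 : M * ((4 / (R - 1)) ^ s.card * (4 / (R - 1)))
      = 2 * (2 * M / (R - 1) * (4 / (R - 1)) ^ s.card) := by field_simp; ring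
    rw [e1, e3]
    rw [e2] at h4
    nlinarith

lemma exists_sep {E : Set ℝ} {σ : ℝ} (k : ℕ) (h : k * ENNReal.ofReal (2 * σ) < volume E) :
    ∃ s : Finset ℝ, s.card = k + 1 ∧ (∀ t ∈ s, t ∈ E) ∧ ∀ t ∈ s, ∀ t' ∈ s, t ≠ t' → σ ≤ |t - t'| := by
  classical
  induction k with
  | zero =>
    obtain ⟨t, ht⟩ := nonempty_of_measure_ne_zero (ne_of_gt (lt_of_le_of_lt bot_le h))
    exact ⟨{t}, rfl, by simpa, by simp⟩
  | succ k ih =>
    obtain ⟨s, h1, h2, h3⟩ := ih (lt_of_le_of_lt (by gcongr; omega) h)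
    rcases le_or_gt σ 0 with hσ | hσ
    · have hE : E.Infinite := fun hE => by simp [hE.measure_zero] at h
      obtain ⟨s, hs, hs'⟩ := hE.exists_subset_card_eq (k + 1 + 1)
      exact ⟨s, hs', fun t ht => hs ht, fun _ _ _ _ _ => hσ.trans (abs_nonneg _)⟩
    have h4 : ¬ E ⊆ ⋃ t ∈ s, ball t σ := fun h4 => by
      refine h.not_ge ((measure_mono h4).trans ((measure_biUnion_finset_le _ _).trans ?_))
      simp [Real.volume_ball, h1]
    obtain ⟨a, ha, ha'⟩ := not_subset.1 h4
    simp only [mem_iUnion, mem_ball, not_exists, not_lt, Real.dist_eq] at ha'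
    have has : a ∉ s := fun h => by simpa [hσ.not_ge] using ha' a h
    refine ⟨insert a s, by rw [Finset.card_insert_of_notMem has, h1], ?_, ?_⟩
    · intro t ht
      rcases Finset.mem_insert.1 ht with rfl | ht
      exacts [ha, h2 t ht]
    · intro t ht t' ht' hne
      rcases Finset.mem_insert.1 ht with rfl | ht1 <;> rcases Finset.mem_insert.1 ht' with rfl | ht2
      · exact absurd rfl hne
      · exact ha' _ ht2
      · rw [abs_sub_comm]; exact ha' _ ht1
      · exact h3 t ht1 t' ht2 hne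

variable {ι : Type} [Fintype ι]

lemma line_le {E : Set (ι → ℂ)} (hE : MeasurableSet E) {w0 z : ι → ℂ} {ρ : ℝ}
    (hE' : E ⊆ closedBall w0 ρ) (hz : z ∈ closedBall w0 ρ) {c : ℝ≥0∞}
    (h : ∀ w ∈ closedBall z (4 * ρ), volume {t : ℝ | t ∈ Icc (1 / 2) 1 ∧ z + t • (w - z) ∈ E} ≤ c) :
    volume E ≤ 2 * c * volume (closedBall (0 : ι → ℂ) (4 * ρ)) := by
  let S : Set (ℝ × (ι → ℂ)) := {p | p.1 ∈ Icc (1 / 2) 1 ∧ z + p.1 • (p.2 - z) ∈ E}
  have hS : MeasurableSet S := (measurable_fst measurableSet_Icc).inter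
    ((by fun_prop : Continuous fun p : ℝ × (ι → ℂ) => z + p.1 • (p.2 - z)).measurable hE)
  have h1 : ∀ t ∈ Icc (1 / 2 : ℝ) 1, volume E ≤ volume (Prod.mk t ⁻¹' S) := by
    intro t ht
    have ht0 : 0 < t := by linarith [ht.1]
    have e : E = AffineMap.homothety z t '' (Prod.mk t ⁻¹' S) := by
      ext v
      constructor
      · intro hv
        have e1 : z + t • (z + t⁻¹ • (v - z) - z) = v := by
          rw [add_sub_cancel_left, smul_inv_smul₀ ht0.ne', add_sub_cancel]
        refine ⟨z + t⁻¹ • (v - z), ⟨ht, by rwa [e1]⟩, ?_⟩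
        rw [AffineMap.homothety_apply, vsub_eq_sub, vadd_eq_add, add_comm, e1]
      · rintro ⟨w, hw, rfl⟩
        rw [AffineMap.homothety_apply, vsub_eq_sub, vadd_eq_add, add_comm]
        exact hw.2
    conv_lhs => rw [e, addHaar_image_homothety]
    refine mul_le_of_le_one_left' (ENNReal.ofReal_le_one.2 ?_)
    rw [abs_of_nonneg (by positivity)]
    exact pow_le_one₀ ht0.le ht.2
  have h2 : ENNReal.ofReal (1 / 2) * volume E ≤ (volume.prod volume) S := by
    rw [Measure.prod_apply hS]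
    calc _ = ∫⁻ _ in Icc (1 / 2 : ℝ) 1, volume E := by
          rw [setLIntegral_const, Real.volume_Icc, mul_comm]; norm_num
      _ ≤ ∫⁻ t in Icc (1 / 2 : ℝ) 1, volume (Prod.mk t ⁻¹' S) :=
          setLIntegral_mono' measurableSet_Icc h1
      _ ≤ _ := setLIntegral_le_lintegral _ _
  have h3 : (volume.prod volume) S ≤ c * volume (closedBall (0 : ι → ℂ) (4 * ρ)) := by
    rw [prod_apply_symm hS, ← addHaar_closedBall_center volume z, ← setLIntegral_const,
      ← lintegral_indicator measurableSet_closedBall]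
    refine lintegral_mono fun w => ?_
    by_cases hw : w ∈ closedBall z (4 * ρ)
    · rw [indicator_of_mem hw]; exact h w hw
    · have : (fun t => (t, w)) ⁻¹' S = ∅ := eq_empty_of_forall_notMem fun t ht => hw (by
        have h4 := dist_triangle_right _ _ w0 |>.trans (add_le_add (hE' ht.2) hz)
        rw [dist_eq_norm, add_sub_cancel_left, norm_smul, Real.norm_of_nonneg
          (by linarith [ht.1.1])] at h4
        rw [mem_closedBall, dist_eq_norm]
        nlinarith [ht.1.1, norm_nonneg (w - z)])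
      rw [this]; simp
  calc volume E = 2 * (ENNReal.ofReal (1 / 2) * volume E) := by
        rw [← mul_assoc, ← ENNReal.ofReal_ofNat, ← ENNReal.ofReal_mul (by norm_num)]; simp
    _ ≤ _ := by rw [mul_assoc 2 c]; exact mul_le_mul_right (h2.trans h3) _

lemma loc {P : (ι → ℂ) → ℂ} (hP : Differentiable ℂ P) {w0 z : ι → ℂ} {ρ R M t : ℝ} (hR : 1 < R)
    (hz : z ∈ closedBall w0 ρ) (hM : ∀ w ∈ closedBall w0 ((4 * R + 1) * ρ), ‖P w‖ ≤ M) {j : ℕ}
    (hj : 0 < j) (ht : 0 < t) (h : M * (4 / (R - 1)) ^ (j + 1) + t < ‖P z‖) {τ : ℝ} (hτ : 0 < τ) :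
    volume {w ∈ closedBall w0 ρ | ‖P w‖ ≤ τ} ≤
      ENNReal.ofReal (4 * j * (5 ^ (j + 1) * τ / t) ^ (1 / j : ℝ))
        * volume (closedBall (0 : ι → ℂ) (4 * ρ)) := by
  classical
  set σ := (5 ^ (j + 1) * τ / t) ^ (1 / j : ℝ) with hσ
  have hσ0 : 0 < σ := by positivity
  have hj1 : (1 : ℝ) ≤ j := by exact_mod_cast hj
  have hρ : 0 ≤ ρ := dist_nonneg.trans hz
  rcases le_or_gt σ 5 with h5 | h5
  · have e : ENNReal.ofReal (4 * j * σ) = 2 * (j * ENNReal.ofReal (2 * σ)) := by
      rw [← ENNReal.ofReal_natCast, ← ENNReal.ofReal_ofNat 2, ← ENNReal.ofReal_mul (by positivity),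
        ← ENNReal.ofReal_mul (by positivity)]
      congr 1; ring
    rw [e]
    refine line_le (measurableSet_closedBall.inter
      (measurableSet_le hP.continuous.norm.measurable measurable_const)) (sep_subset _ _) hz ?_
    intro w hw
    by_contra hc
    obtain ⟨s, h1, h2, h3⟩ := exists_sep j (not_le.1 hc)
    have h4 := newton hσ0 h5 hR (z := 0) (by simp) (s.map ⟨(↑), Complex.ofReal_injective⟩)
      (g := fun u => P (z + u • (w - z))) (τ := τ) (M := M) (by fun_prop) hτ.le ?_ ?_ ?_ ?_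
    · have e2 : σ ^ j = 5 ^ (j + 1) * τ / t := by
        rw [hσ, one_div, Real.rpow_inv_natCast_pow (by positivity) hj.ne']
      have e3 : τ * σ * (5 / σ) ^ (j + 1) = t := by
        rw [div_pow, pow_succ σ, e2]; field_simp
      simp only [Finset.card_map, h1, zero_smul, add_zero, e3] at h4
      linarith
    · simp only [Finset.mem_map, Embedding.coeFn_mk]
      rintro _ ⟨u, hu, rfl⟩
      rw [Complex.norm_real, Real.norm_of_nonneg (by linarith [(h2 u hu).1.1])]
      exact (h2 u hu).1.2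
    · simp only [Finset.mem_map, Embedding.coeFn_mk]
      rintro _ ⟨u, hu, rfl⟩ _ ⟨u', hu', rfl⟩ hne
      rw [← Complex.ofReal_sub, Complex.norm_real]
      exact h3 u hu u' hu' fun h => hne (by rw [h])
    · simp only [Finset.mem_map, Embedding.coeFn_mk]
      rintro _ ⟨u, hu, rfl⟩
      simpa using (h2 u hu).2.2
    · intro u hu
      refine hM _ ?_
      rw [mem_closedBall, dist_eq_norm] at hz hw ⊢
      rw [add_sub_right_comm]
      refine (norm_add_le _ _).trans ?_
      rw [norm_smul, hu]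
      nlinarith
  · refine (measure_mono (sep_subset _ _)).trans ?_
    rw [addHaar_closedBall_center]
    refine le_mul_of_one_le_of_le (ENNReal.one_le_ofReal.2 (by nlinarith))
      (measure_mono (closedBall_subset_closedBall (by linarith)))

lemma sub_unif (C : ℝ) {D : ℕ} (hD : 0 < D) {t ρ : ℝ} (ht : 0 < t) (hρ : 0 < ρ) :
    ∃ C' : ℝ≥0∞, C' < ⊤ ∧ ∀ P : (ι → ℂ) → ℂ, Differentiable ℂ P →
      (∀ w, ‖P w‖ ≤ C * (1 + ‖w‖) ^ D) → (∃ z, ‖z‖ ≤ ρ ∧ t ≤ ‖P z‖) → ∀ τ : ℝ, 0 < τ →
      volume {w ∈ closedBall (0 : ι → ℂ) ρ | ‖P w‖ ≤ τ} ≤ C' * ENNReal.ofReal (τ ^ (1 / D : ℝ)) := by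
  obtain ⟨R, hR, hR'⟩ : ∃ R : ℝ, 2 ≤ R ∧
      |C| * (1 + (4 * R + 1) * ρ) ^ D * (4 / (R - 1)) ^ (D + 1) + t / 2 < t := by
    let K := |C| * ((1 + 9 * ρ) * 4) ^ D * 4
    refine ⟨2 + 2 * K / t, le_add_of_nonneg_right (by positivity), ?_⟩
    set R := 2 + 2 * K / t with hR
    have h0 : 0 ≤ 2 * K / t := by positivity
    have h1 : 0 < R - 1 := by linarith
    have h2 : (1 + (4 * R + 1) * ρ) * (4 / (R - 1)) ≤ (1 + 9 * ρ) * 4 := by
      rw [← mul_div_assoc, div_le_iff₀ h1]; nlinarith [mul_nonneg h0 hρ.le]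
    have h3 : |C| * (1 + (4 * R + 1) * ρ) ^ D * (4 / (R - 1)) ^ (D + 1) ≤ K / (R - 1) := by
      rw [pow_succ, ← mul_assoc, mul_assoc |C|, ← mul_pow]
      simp only [K]
      rw [mul_div_assoc (_ * _)]
      gcongr
    have h4 : K / (R - 1) < t / 2 := by
      rw [div_lt_iff₀ h1, hR]
      have : t / 2 * (2 + 2 * K / t - 1) = t / 2 + K := by field_simp; ring
      linarith
    linarith
  refine ⟨ENNReal.ofReal (4 * D * (5 ^ (D + 1) / (t / 2)) ^ (1 / D : ℝ))
    * volume (closedBall (0 : ι → ℂ) (4 * ρ)),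
    ENNReal.mul_lt_top ENNReal.ofReal_lt_top measure_closedBall_lt_top, ?_⟩
  rintro P hP hg ⟨z, hz, hz'⟩ τ hτ
  refine (loc hP (R := R) (by linarith) (mem_closedBall_zero_iff.2 hz)
    (M := |C| * (1 + (4 * R + 1) * ρ) ^ D) (fun w hw => (hg w).trans ?_) hD (half_pos ht)
    (hR'.trans_le hz') hτ).trans (le_of_eq ?_)
  · gcongr
    · exact le_abs_self C
    · exact mem_closedBall_zero_iff.1 hw
  · rw [mul_right_comm _ _ (ENNReal.ofReal _), ← ENNReal.ofReal_mul (by positivity), mul_assoc _ _ (τ ^ _),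
      ← Real.mul_rpow (by positivity) hτ.le, mul_div_right_comm]

lemma lint_neg_le {x a : ℝ} (hx : 0 < x) (hxa : x < a) : ∃ G : ℝ≥0∞, G < ⊤ ∧
    ∀ {Ω : Type} [MeasurableSpace Ω] (ν : Measure Ω) (g : Ω → ℂ) (t : ℝ) (C : ℝ≥0∞),
      Measurable g → 0 < t → (∀ τ : ℝ, 0 < τ → ν {y | ‖g y‖ ≤ τ} ≤ C * ENNReal.ofReal ((τ / t) ^ a)) →
      C < ⊤ → ∫⁻ y, ‖g y‖ₑ ^ (-x) ∂ν ≤ ENNReal.ofReal (t ^ (-x)) * (ν univ + C * G) := by
  refine ⟨ENNReal.ofReal (Real.exp (x / (a - x))) * geo,
    ENNReal.mul_lt_top ENNReal.ofReal_lt_top geo_lt_top, ?_⟩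
  intro Ω _ ν g t C hg ht h hC
  have hax : 0 < a - x := by linarith
  let τ : ℝ → ℝ := fun L => t * Real.exp (-L / (a - x))
  have hτ : ∀ L, 0 < τ L := fun L => by positivity
  have hm : ∀ s : ℝ, MeasurableSet {y | ‖g y‖ ≤ s} := fun s =>
    measurableSet_le hg.norm measurable_const
  have hτa : ∀ L, (τ L / t) ^ a = Real.exp (-L / (a - x) * a) := fun L => by
    rw [Real.exp_mul]; simp [τ, ht.ne']
  have h0 : ∀ᵐ y ∂ν, g y ≠ 0 := by
    rw [ae_iff, ← nonpos_iff_eq_zero]
    have h1 : Tendsto (fun L : ℕ => C * ENNReal.ofReal (Real.exp (-L / (a - x) * a))) atTop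
        (𝓝 (C * ENNReal.ofReal 0)) := by
      refine ENNReal.Tendsto.const_mul (ENNReal.tendsto_ofReal (Real.tendsto_exp_atBot.comp ?_))
        (Or.inr hC.ne)
      exact (((tendsto_neg_atTop_atBot.comp tendsto_natCast_atTop_atTop).atBot_div_const
        hax)).atBot_mul_const (by linarith)
    simp only [ENNReal.ofReal_zero, mul_zero] at h1
    refine ge_of_tendsto' h1 fun L => le_trans (measure_mono fun y hy => ?_) (hτa L ▸ h _ (hτ L))
    simp only [ne_eq, not_not, mem_ofPred_eq] at hy ⊢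
    rw [hy, norm_zero]; exact (hτ L).le
  have key : ∀ {y} {s : ℝ}, 0 < s → s ≤ ‖g y‖ → ‖g y‖ₑ ^ (-x) ≤ ENNReal.ofReal (s ^ (-x)) := by
    intro y s hs hs'
    rw [← ENNReal.ofReal_rpow_of_pos hs, ← ofReal_norm]
    exact rpow_neg_anti (ENNReal.ofReal_le_ofReal hs') hx.le
  let G : ℕ → Ω → ℝ≥0∞ := fun L =>
    {y | ‖g y‖ ≤ τ L}.indicator fun _ => ENNReal.ofReal (τ (L + 1) ^ (-x))
  have hG : ∀ L, Measurable (G L) := fun L => measurable_const.indicator (hm _)
  calc _ ≤ ∫⁻ y, ENNReal.ofReal (t ^ (-x)) + ∑' L, G L y ∂ν := by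
        refine lintegral_mono_ae (h0.mono fun y hy => ?_)
        rcases le_total t ‖g y‖ with h1 | h1
        · exact le_add_right (key ht h1)
        · have hy0 := norm_pos_iff.2 hy
          set l := (a - x) * Real.log (t / ‖g y‖) with hl
          have hl0 : 0 ≤ l := mul_nonneg hax.le (Real.log_nonneg ((one_le_div hy0).2 h1))
          have e : ‖g y‖ = τ l := by
            simp only [τ, hl]
            rw [neg_div, mul_div_cancel_left₀ _ hax.ne', Real.exp_neg, Real.exp_log (by positivity)]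
            field_simp
          refine le_add_left (le_trans ?_ (ENNReal.le_tsum ⌊l⌋₊))
          have h2 : y ∈ {y | ‖g y‖ ≤ τ ⌊l⌋₊} := by
            rw [mem_ofPred_eq, e]; simp only [τ]; gcongr; exact Nat.floor_le hl0
          simp only [G]
          rw [indicator_of_mem h2]
          refine key (hτ _) ?_
          rw [e]; simp only [τ]; gcongr; exact (Nat.lt_floor_add_one l).le
    _ = ENNReal.ofReal (t ^ (-x)) * ν univ + ∑' L, ∫⁻ y, G L y ∂ν := by
        rw [lintegral_add_left measurable_const, lintegral_const,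
          lintegral_tsum fun L => (hG L).aemeasurable]
    _ ≤ _ := by
        rw [mul_add, geo, ← ENNReal.tsum_mul_left, ← ENNReal.tsum_mul_left, ← ENNReal.tsum_mul_left]
        gcongr with L
        simp only [G]
        rw [lintegral_indicator_const (hm _)]
        refine (mul_le_mul_right (h _ (hτ L)) _).trans (le_of_eq ?_)
        rw [hτa, mul_left_comm, mul_left_comm _ C, ← ENNReal.ofReal_mul (by positivity),
          ← ENNReal.ofReal_mul (by positivity), ← ENNReal.ofReal_mul (by positivity)]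
        congr 2
        simp only [τ]
        rw [Real.mul_rpow ht.le (Real.exp_pos _).le, ← Real.exp_mul, mul_assoc, ← Real.exp_add,
          ← Real.exp_add]
        congr 2
        field_simp; ring

end Pool.Agent.Lib.MP_bc3ae6_ag
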