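import Pool.Agent.Lib.MP_bc3ae6_ag.Alg
import Pool.Agent.Lib.MP_bc3ae6_ag.Fib
import Pool.Agent.Lib.MP_bc3ae6_ag.Loc
import Pool.Agent.Lib.MP_bc3ae6_ag.Levi

set_option autoImplicit false
set_option linter.unusedSectionVars false

/-! Analytic consequences of finiteness. -/

namespace Pool.Agent.Lib.MP_bc3ae6_ag

open MvPolynomial Set Metric MeasureTheory Filter Topology
open scoped Polynomial ENNReal

lemma diff_ev {σ : Type} [Fintype σ] (p : MvPolynomial σ ℂ) :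
    Differentiable ℂ fun x : σ → ℂ => eval x p := by
  induction p using MvPolynomial.induction_on with
  | C a => simp
  | add p q hp hq => simp only [map_add]; exact hp.add hq
  | mul_X p i hp => simp only [map_mul, eval_X]; exact hp.mul (differentiable_apply i)

lemma cont_ev {σ : Type} [Fintype σ] (p : MvPolynomial σ ℂ) :
    Continuous fun x : σ → ℂ => eval x p := (diff_ev p).continuous

lemma norm_prod_le {s : Multiset ℂ} {B : ℝ} (hB : 0 ≤ B) (h : ∀ t ∈ s, ‖t‖ ≤ B) :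
    ‖s.prod‖ ≤ B ^ s.card := by
  induction s using Multiset.induction_on with
  | empty => simp
  | cons a s ih =>
    rw [Multiset.prod_cons, Multiset.card_cons, norm_mul, pow_succ']
    exact mul_le_mul (h a (by simp)) (ih fun t ht => h t (by simp [ht])) (norm_nonneg _) hB

lemma le_norm_prod {s : Multiset ℂ} {B : ℝ} (hB : 0 ≤ B) (h : ∀ t ∈ s, B ≤ ‖t‖) :
    B ^ s.card ≤ ‖s.prod‖ := by
  induction s using Multiset.induction_on with
  | empty => simp
  | cons a s ih =>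
    rw [Multiset.prod_cons, Multiset.card_cons, norm_mul, pow_succ']
    exact mul_le_mul (h a (by simp)) (ih fun t ht => h t (by simp [ht])) (by positivity)
      (norm_nonneg _)

lemma norm_sum_le' {s : Multiset ℂ} {B : ℝ} (h : ∀ t ∈ s, ‖t‖ ≤ B) : ‖s.sum‖ ≤ s.card * B := by
  induction s using Multiset.induction_on with
  | empty => simp
  | cons a s ih =>
    rw [Multiset.sum_cons, Multiset.card_cons]
    have := norm_add_le a s.sum
    have := h a (by simp)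
    have := ih fun t ht => h t (by simp [ht])
    push_cast; linarith

lemma norm_coeff_zero {p : ℂ[X]} (hp : p.Monic) : ‖p.coeff 0‖ = ‖p.roots.prod‖ := by
  rw [(IsAlgClosed.splits p).coeff_zero_eq_prod_roots_of_monic hp]; simp

lemma near_root {p : ℂ[X]} (hp : p.Monic) (hd : 0 < p.natDegree) (a : ℂ) :
    ∃ t, p.eval t = 0 ∧ ‖a - t‖ * ‖p.derivative.eval a‖ ≤ p.natDegree * ‖p.eval a‖ := by
  by_cases ha : p.eval a = 0
  · exact ⟨a, ha, by simp [ha]⟩
  have hc := (IsAlgClosed.splits p).natDegree_eq_card_roots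
  obtain ⟨t, ht, ht'⟩ := p.roots.toFinset.exists_min_image (fun t => ‖a - t‖)
    (by rw [Multiset.toFinset_nonempty, ← Multiset.card_pos, ← hc]; exact hd)
  have h0 : p.eval t = 0 := (Polynomial.mem_roots hp.ne_zero).1 (Multiset.mem_toFinset.1 ht)
  have h1 : 0 < ‖a - t‖ := norm_pos_iff.2 (sub_ne_zero.2 fun h => ha (h ▸ h0))
  refine ⟨t, h0, ?_⟩
  have h2 := norm_sum_le' (s := p.roots.map fun z => 1 / (a - z)) (B := 1 / ‖a - t‖) (by
    intro u hu
    obtain ⟨z, hz, rfl⟩ := Multiset.mem_map.1 hu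
    rw [norm_div, norm_one]
    exact one_div_le_one_div_of_le h1 (ht' z (Multiset.mem_toFinset.2 hz)))
  rw [← (IsAlgClosed.splits p).eval_derivative_div_eval_of_ne_zero ha, Multiset.card_map, ← hc,
    norm_div, mul_one_div, div_le_div_iff₀ (norm_pos_iff.2 ha) h1] at h2
  linarith

lemma root_le {p : ℂ[X]} (hp : p.Monic) {t : ℂ} (ht : p.eval t = 0) {B : ℝ} (hB : 0 ≤ B)
    (h : ∀ i < p.natDegree, ‖p.coeff i‖ ≤ B) : ‖t‖ ≤ B + 1 := by
  have h1 := Polynomial.IsRoot.norm_lt_cauchyBound hp.ne_zero ht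
  rw [Polynomial.cauchyBound, hp.leadingCoeff, nnnorm_one, div_one] at h1
  have h2 : (Finset.range p.natDegree).sup (‖p.coeff ·‖₊) ≤ ⟨B, hB⟩ :=
    Finset.sup_le fun i hi => h i (Finset.mem_range.1 hi)
  exact_mod_cast (h1.le.trans (add_le_add_left h2 1))

lemma encard_roots {M d : ℕ} {q : Fin M → ℂ[X]} (hq : ∀ l, q l ≠ 0) (hd : ∀ l, (q l).natDegree ≤ d) :
    {z : Fin M → ℂ | ∀ l, (q l).eval (z l) = 0}.encard ≤ (d ^ M : ℕ) := by
  have e : {z : Fin M → ℂ | ∀ l, (q l).eval (z l) = 0}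
      = ↑(Fintype.piFinset fun l => (q l).roots.toFinset) := by
    ext z; simp [hq]
  rw [e, encard_coe_eq_coe_finsetCard, Fintype.card_piFinset]
  norm_cast
  refine (Finset.prod_le_pow_card _ _ d fun l _ => ?_).trans (by simp)
  exact (Multiset.toFinset_card_le _).trans ((Polynomial.card_roots' _).trans (hd l))

variable {n M : ℕ}

lemma sp_monic {Q : (MP n)[X]} (hQ : Q.Monic) (w : Fin n → ℂ) : (sp Q w).Monic := hQ.map _

lemma sp_deg {Q : (MP n)[X]} (hQ : Q.Monic) (w : Fin n → ℂ) : (sp Q w).natDegree = Q.natDegree :=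
  hQ.natDegree_map _

lemma sp_coeff (Q : (MP n)[X]) (w : Fin n → ℂ) (i : ℕ) : (sp Q w).coeff i = eval w (Q.coeff i) :=
  Polynomial.coeff_map _ _

lemma sp_deriv (Q : (MP n)[X]) (w : Fin n → ℂ) : sp Q.derivative w = (sp Q w).derivative :=
  (Polynomial.derivative_map _ _).symm

lemma root_growth {Q : (MP n)[X]} (hQ : Q.Monic) : ∃ (C : ℝ) (D : ℕ), 0 ≤ C ∧
    ∀ w t, (sp Q w).eval t = 0 → ‖t‖ ≤ C * (1 + ‖w‖) ^ D := by
  let D := (Finset.range Q.natDegree).sup fun i => (Q.coeff i).totalDegree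
  choose C hC0 hC using fun i : Fin Q.natDegree => poly_growth (Q.coeff i) (d := D)
    (Finset.le_sup (f := fun i => (Q.coeff i).totalDegree) (Finset.mem_range.2 i.2))
  have h0 : 0 ≤ ∑ i, C i := Finset.sum_nonneg fun i _ => hC0 i
  refine ⟨∑ i, C i + 1, D, by positivity, fun w t ht => ?_⟩
  have h1 : 1 ≤ (1 + ‖w‖) ^ D := one_le_pow₀ (by linarith [norm_nonneg w])
  refine (root_le (sp_monic hQ w) ht (B := (∑ i, C i) * (1 + ‖w‖) ^ D) (by positivity)
    fun i hi => ?_).trans (by linarith)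
  rw [sp_deg hQ] at hi
  rw [sp_coeff]
  refine (hC ⟨i, hi⟩ w).trans ?_
  gcongr
  exact Finset.single_le_sum (fun i _ => hC0 i) (Finset.mem_univ _)

lemma cont_pr (θ : Fin n → MP M) : Continuous (pr θ) := continuous_pi fun _ => cont_ev _

lemma cont_emb (θ : Fin n → MP M) : Continuous (emb θ) := continuous_pi fun i => by
  rcases i with i | i
  · exact cont_ev (θ i)
  · exact continuous_apply i

lemma closed_Z (I : Ideal (MP M)) : IsClosed (zeroLocus ℂ I) := by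
  have : zeroLocus ℂ I = ⋂ p ∈ I, {x | eval x p = 0} := by ext x; simp
  rw [this]
  exact isClosed_biInter fun p _ => isClosed_eq (cont_ev p) continuous_const

lemma finrank_pi_C (ι : Type) [Fintype ι] : Module.finrank ℝ (ι → ℂ) = 2 * Fintype.card ι := by
  simp [Module.finrank_pi_fintype, mul_comm]

lemma vol_cB {ι : Type} [Fintype ι] (x : ι → ℂ) {r : ℝ} (hr : 0 ≤ r) : volume (closedBall x r)
    = ENNReal.ofReal (r ^ (2 * Fintype.card ι)) * volume (ball (0 : ι → ℂ) 1) := by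
  rw [Measure.addHaar_closedBall _ _ hr, finrank_pi_C]

lemma sub_poly {P : MP n} (hP : P ≠ 0) : ∃ a : ℝ, 0 < a ∧ ∀ ρ : ℝ, ∃ C : ℝ≥0∞, C < ⊤ ∧
    ∀ τ : ℝ, 0 < τ → volume {w ∈ closedBall (0 : Fin n → ℂ) ρ | ‖eval w P‖ ≤ τ}
      ≤ C * ENNReal.ofReal (τ ^ a) := by
  obtain ⟨z, hz⟩ : ∃ z, eval z P ≠ 0 := by
    by_contra h
    push Not at h
    exact hP (MvPolynomial.funext fun x => by simp [h])
  obtain ⟨C, -, hC⟩ := poly_growth P (d := P.totalDegree + 1) (Nat.le_succ _)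
  refine ⟨1 / (P.totalDegree + 1 : ℕ), by positivity, fun ρ => ?_⟩
  obtain ⟨C', h1, h2⟩ := sub_unif (ι := Fin n) C (Nat.succ_pos P.totalDegree) (norm_pos_iff.2 hz)
    (ρ := |ρ| + ‖z‖ + 1) (by positivity)
  refine ⟨C', h1, fun τ hτ => le_trans (measure_mono fun w hw => ?_)
    (h2 _ (diff_ev P) hC ⟨z, by linarith [abs_nonneg ρ], le_rfl⟩ τ hτ)⟩
  exact ⟨closedBall_subset_closedBall (by linarith [le_abs_self ρ, norm_nonneg z]) hw.1, hw.2⟩

lemma zero_of_sub {C m : ℝ≥0∞} (hC : C < ⊤) {a : ℝ} (ha : 0 < a)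
    (h : ∀ τ : ℝ, 0 < τ → m ≤ C * ENNReal.ofReal (τ ^ a)) : m = 0 := by
  have h1 : Tendsto (fun τ : ℝ => C * ENNReal.ofReal (τ ^ a)) (𝓝[>] 0)
      (𝓝 (C * ENNReal.ofReal (0 ^ a))) :=
    ENNReal.Tendsto.const_mul (ENNReal.tendsto_ofReal (((Real.continuousAt_rpow_const 0 a
      (Or.inr ha.le)).tendsto).mono_left nhdsWithin_le_nhds)) (Or.inr hC.ne)
  rw [Real.zero_rpow ha.ne', ENNReal.ofReal_zero, mul_zero] at h1
  exact nonpos_iff_eq_zero.1 (ge_of_tendsto h1 (eventually_nhdsWithin_of_forall h))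

lemma ae_poly_ne {P : MP n} (hP : P ≠ 0) : ∀ᵐ w : Fin n → ℂ, eval w P ≠ 0 := by
  obtain ⟨a, ha, h⟩ := sub_poly hP
  have : {w : Fin n → ℂ | ¬eval w P ≠ 0} ⊆ ⋃ k : ℕ, {w ∈ closedBall 0 k | eval w P = 0} := by
    intro w hw
    obtain ⟨k, hk⟩ := exists_nat_ge ‖w‖
    exact mem_iUnion.2 ⟨k, mem_closedBall_zero_iff.2 hk, not_not.1 hw⟩
  refine measure_mono_null this (measure_iUnion_null fun k => ?_)
  obtain ⟨C, hC, hC'⟩ := h k
  refine zero_of_sub hC ha fun τ hτ => le_trans (measure_mono fun w hw => ?_) (hC' τ hτ)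
  exact ⟨hw.1, by rw [hw.2, norm_zero]; exact hτ.le⟩

variable {I : Ideal (MP M)} {θ : Fin n → MP M} {d : ℕ} {F : Fin M → (MP n)[X]}
  {h : MvPolynomial (Fin n ⊕ Fin M) ℂ}

variable (I θ) in
/-- The fibre counting measure of the cover. -/
noncomputable def lam : Measure (Fin M → ℂ) := fm volume (zeroLocus ℂ I) (pr θ)

namespace Geo

variable (hG : Geo I θ d F h)
include hG

lemma ff : FF (zeroLocus ℂ I) (pr θ) (d ^ M) := by
  refine ⟨closed_Z I, cont_pr θ, fun w => le_trans (encard_le_encard ?_)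
    (encard_roots (q := fun l => sp (F l) w) (fun l => (sp_monic (hG.mon l) w).ne_zero)
      fun l => (sp_deg (hG.mon l) w).trans_le (hG.deg l))⟩
  rintro x ⟨hx, rfl⟩
  exact hG.root x hx

lemma growth : ∃ (C : ℝ) (D : ℕ), 0 ≤ C ∧ ∀ w (z : Fin M → ℂ), (∀ l, (sp (F l) w).eval (z l) = 0) →
    ‖z‖ ≤ C * (1 + ‖w‖) ^ D := by
  choose C D hC0 hC using fun l => root_growth (hG.mon l)
  have h0 : 0 ≤ ∑ l, C l := Finset.sum_nonneg fun i _ => hC0 i
  refine ⟨∑ l, C l, ∑ l, D l, h0, fun w z hz => (pi_norm_le_iff_of_nonneg (by positivity)).2 ?_⟩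
  refine fun l => (hC l w _ (hz l)).trans (mul_le_mul ?_ ?_ (by positivity) h0)
  · exact Finset.single_le_sum (fun i _ => hC0 i) (Finset.mem_univ _)
  · exact pow_le_pow_right₀ (by linarith [norm_nonneg w])
      (Finset.single_le_sum (fun i _ => Nat.zero_le (D i)) (Finset.mem_univ _))

lemma compact {U : Set (Fin n → ℂ)} (hU : IsCompact U) :
    IsCompact {x ∈ zeroLocus ℂ I | pr θ x ∈ U} := by
  obtain ⟨C, D, hC, h⟩ := hG.growth
  obtain ⟨R, hR⟩ := hU.isBounded.exists_norm_le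
  refine (isCompact_closedBall 0 (C * (1 + R) ^ D)).of_isClosed_subset
    ((closed_Z I).inter (hU.isClosed.preimage (cont_pr θ))) fun x hx => ?_
  refine mem_closedBall_zero_iff.2 ((h _ x (hG.root x hx.1)).trans ?_)
  gcongr
  exact hR _ hx.2

lemma surj (w : Fin n → ℂ) : ∃ x ∈ zeroLocus ℂ I, pr θ x = w := by
  obtain ⟨Q, h1, h2, -, -, h3, -⟩ := hG.nrm 0
  obtain ⟨t, ht, -⟩ := near_root (sp_monic h1 w) (by rwa [sp_deg h1]) 0
  obtain ⟨q, hq, e, -⟩ := h3 w t ht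
  exact ⟨q, hq, e⟩

lemma exists_nm (a : MP M) : ∃ P : MP n, (a ∉ I → P ≠ 0) ∧
    (∀ x ∈ zeroLocus ℂ I, ∀ B : ℝ, 1 ≤ B → (∀ q ∈ zeroLocus ℂ I, pr θ q = pr θ x → ‖eval q a‖ ≤ B) →
      ‖eval (pr θ x) P‖ ≤ ‖eval x a‖ * B ^ d) ∧
    ∀ w (t : ℝ), 0 ≤ t → t ≤ 1 → (∀ q ∈ zeroLocus ℂ I, pr θ q = w → t ≤ ‖eval q a‖) →
      t ^ d ≤ ‖eval w P‖ := by
  obtain ⟨Q, h1, h2, h3, h4, h5, h6⟩ := hG.nrm a
  have hc : ∀ w, (sp Q w).roots.card ≤ d := fun w =>
    (Polynomial.card_roots' _).trans ((sp_deg h1 w).trans_le h3)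
  have hr : ∀ w, ∀ t ∈ (sp Q w).roots, ∃ q ∈ zeroLocus ℂ I, pr θ q = w ∧ eval q a = t :=
    fun w t ht => h5 w t ((Polynomial.mem_roots (sp_monic h1 w).ne_zero).1 ht)
  refine ⟨Q.coeff 0, h6, fun x hx B hB hB' => ?_, fun w t ht ht1 ht' => ?_⟩
  · rw [← sp_coeff, norm_coeff_zero (sp_monic h1 _)]
    obtain ⟨s, hs⟩ := Multiset.exists_cons_of_mem
      ((Polynomial.mem_roots (sp_monic h1 _).ne_zero).2 (h4 x hx))
    have h7 := hc (pr θ x)
    have h8 := hr (pr θ x)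
    rw [hs] at h7 h8 ⊢
    rw [Multiset.prod_cons, norm_mul]
    gcongr
    refine (norm_prod_le (B := B) (by linarith) fun t ht => ?_).trans
      (pow_le_pow_right₀ hB (by simp at h7; omega))
    obtain ⟨q, hq, e, rfl⟩ := h8 t (Multiset.mem_cons_of_mem ht)
    exact hB' q hq e
  · rw [← sp_coeff, norm_coeff_zero (sp_monic h1 _)]
    refine (pow_le_pow_of_le_one ht ht1 (hc w)).trans (le_norm_prod ht fun u hu => ?_)
    obtain ⟨q, hq, e, rfl⟩ := hr w u hu
    exact ht' q hq e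

lemma ae_ne {a : MP M} (ha : a ∉ I) : ∀ᵐ x ∂(lam I θ), eval x a ≠ 0 := by
  obtain ⟨P, h1, h2, -⟩ := hG.exists_nm a
  refine hG.ff.ae_of _ ((ae_poly_ne (h1 ha)).mono ?_)
  rintro _ hw x hx rfl h0
  obtain ⟨B, hB⟩ := (hG.compact (isCompact_singleton (x := pr θ x))).exists_bound_of_continuousOn
    (cont_ev a).continuousOn
  have := h2 x hx (max 1 B) (le_max_left _ _) fun q hq e => (hB q ⟨hq, e⟩).trans (le_max_right _ _)
  rw [h0, norm_zero, zero_mul] at this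
  exact hw (norm_le_zero_iff.1 this)

lemma lam_lt {K : Set (Fin M → ℂ)} (hK : IsCompact K) : lam I θ K < ⊤ :=
  (hG.ff.fm_le _ (U := pr θ '' K) fun x _ hx => mem_image_of_mem _ hx).trans_lt
    (ENNReal.mul_lt_top (ENNReal.natCast_lt_top _) (hK.image (cont_pr θ)).measure_lt_top)

lemma near {y : Fin M → ℂ} (hy : y ∈ zeroLocus ℂ I) (h1 : eval (emb θ y) h ≠ 0)
    (h2 : ∀ l, eval (emb θ y) (up l (F l).derivative) ≠ 0) : ∃ C : ℝ, 1 ≤ C ∧
    ∀ᶠ w in 𝓝 (pr θ y), ∃ x ∈ zeroLocus ℂ I, pr θ x = w ∧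
      ‖emb θ x - emb θ y‖ ≤ C * ‖w - pr θ y‖ := by
  let e : (Fin n → ℂ) → Fin n ⊕ Fin M → ℂ := fun w => Sum.elim w y
  have he : Differentiable ℂ e := differentiable_pi.2 fun i => by
    rcases i with i | i
    · exact differentiable_apply i
    · exact differentiable_const _
  have key : ∀ l, ∃ C : ℝ, 0 ≤ C ∧ ∀ᶠ w in 𝓝 (pr θ y), ∃ t, (sp (F l) w).eval t = 0 ∧
      ‖t - y l‖ ≤ C * ‖w - pr θ y‖ := by
    intro l
    have hd : 0 < (F l).natDegree := by
      refine Nat.pos_of_ne_zero fun h0 => ?_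
      have := hG.root y hy l
      rw [(hG.mon l).natDegree_eq_zero.1 h0] at this
      simp [sp] at this
    have a1 := (((diff_ev (up l (F l))).comp he) (pr θ y)).isBigO_sub
    obtain ⟨L, hL0, hL⟩ := a1.exists_pos
    have a2 : ∀ᶠ w in 𝓝 (pr θ y), ‖eval (emb θ y) (up l (F l).derivative)‖ / 2
        < ‖eval (e w) (up l (F l).derivative)‖ :=
      ((cont_ev _).comp he.continuous).norm.continuousAt.eventually (lt_mem_nhds
        (half_lt_self (norm_pos_iff.2 (h2 l))))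
    have a3 := norm_pos_iff.2 (h2 l)
    refine ⟨d * L / (‖eval (emb θ y) (up l (F l).derivative)‖ / 2), by positivity, ?_⟩
    filter_upwards [hL.bound, a2] with w hw hw'
    obtain ⟨t, ht, ht'⟩ := near_root (sp_monic (hG.mon l) w) (by rwa [sp_deg (hG.mon l)]) (y l)
    refine ⟨t, ht, ?_⟩
    simp only [Function.comp_apply, ev_up, e, Sum.elim_comp_inl, Sum.elim_inr, hG.root y hy l,
      sub_zero] at hw
    rw [ev_up _ _ (e w), sp_deriv] at hw'
    simp only [e, Sum.elim_comp_inl, Sum.elim_inr] at hw'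
    rw [sp_deg (hG.mon l), norm_sub_rev] at ht'
    have h3 : ((F l).natDegree : ℝ) ≤ d := by exact_mod_cast hG.deg l
    rw [div_mul_eq_mul_div, le_div_iff₀ (by positivity)]
    calc _ ≤ ‖t - y l‖ * ‖Polynomial.eval (y l) (sp (F l) w).derivative‖ := by gcongr
      _ ≤ _ := ht'.trans (by rw [mul_assoc]; gcongr)
  choose C hC0 hC using key
  have h0 : 0 ≤ ∑ l, C l := Finset.sum_nonneg fun i _ => hC0 i
  refine ⟨1 + ∑ l, C l, by linarith, ?_⟩
  obtain ⟨r, hr, hr'⟩ := Metric.eventually_nhds_iff.1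
    ((cont_ev h).continuousAt.eventually_ne h1)
  have a4 : ∀ᶠ w in 𝓝 (pr θ y), (1 + ∑ l, C l) * ‖w - pr θ y‖ < r :=
    (by fun_prop : Continuous fun w => (1 + ∑ l, C l) * ‖w - pr θ y‖).continuousAt.eventually
      (gt_mem_nhds (by simpa using hr))
  filter_upwards [eventually_all.2 hC, a4] with w hw hw'
  choose z hz hz' using hw
  have h3 : ‖Sum.elim w z - emb θ y‖ ≤ (1 + ∑ l, C l) * ‖w - pr θ y‖ := by
    refine (pi_norm_le_iff_of_nonneg (by positivity)).2 fun i => ?_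
    rcases i with i | l
    · exact (norm_le_pi_norm (w - pr θ y) i).trans (le_mul_of_one_le_left (norm_nonneg _)
        (by linarith))
    · refine (hz' l).trans ?_
      gcongr
      linarith [Finset.single_le_sum (fun i _ => hC0 i) (Finset.mem_univ l)]
  obtain ⟨h4, h5⟩ := hG.van w z hz (hr' (by rw [dist_eq_norm]; linarith))
  exact ⟨z, h4, h5, by rwa [emb, h5]⟩

end Geo

/-- The scaling action. -/
noncomputable def sc (wt : Fin M → ℕ) {t : ℝ} (ht : t ≠ 0) : (Fin M → ℂ) ≃ₜ (Fin M → ℂ) :=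
  Homeomorph.piCongrRight fun l =>
    Homeomorph.mulLeft₀ ((t : ℂ) ^ wt l) (pow_ne_zero _ (Complex.ofReal_ne_zero.2 ht))

lemma sc_apply (wt : Fin M → ℕ) {t : ℝ} (ht : t ≠ 0) (x : Fin M → ℂ) (l : Fin M) :
    sc wt ht x l = (t : ℂ) ^ wt l * x l := rfl

lemma ev_sc {wt : Fin M → ℕ} {t : ℝ} (ht : t ≠ 0) {p : MP M} {m : ℕ}
    (hp : p.IsWeightedHomogeneous wt m) (x : Fin M → ℂ) :
    eval (sc wt ht x) p = (t : ℂ) ^ m * eval x p := by
  induction hp using IsWeightedHomogeneous.induction_on with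
  | zero => simp
  | add p q hp hq h1 h2 => simp [h1, h2, mul_add]
  | monomial u r hr =>
    rw [eval_monomial, eval_monomial, ← hr, Finsupp.weight_apply, Finsupp.prod_fintype _ _ (by simp),
      Finsupp.prod_fintype _ _ (by simp), Finsupp.sum_fintype _ _ (by simp)]
    simp only [sc_apply, mul_pow, Finset.prod_mul_distrib, ← pow_mul, Finset.prod_pow_eq_pow_sum,
      smul_eq_mul, mul_comm (wt _)]
    ring

lemma sc_mem {wt : Fin M → ℕ} (hI : ∀ p ∈ I, ∀ k, weightedHomogeneousComponent wt k p ∈ I)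
    {t : ℝ} (ht : t ≠ 0) {x : Fin M → ℂ} (hx : x ∈ zeroLocus ℂ I) : sc wt ht x ∈ zeroLocus ℂ I := by
  refine mem_Z.2 fun p hp => ?_
  rw [← sum_weightedHomogeneousComponent wt p,
    finsum_eq_sum _ (weightedHomogeneousComponent_finsupp p), map_sum]
  refine Finset.sum_eq_zero fun k _ => ?_
  rw [ev_sc ht (weightedHomogeneousComponent_isWeightedHomogeneous k p), mem_Z.1 hx _ (hI p hp k),
    mul_zero]

lemma sc_inv (wt : Fin M → ℕ) {t : ℝ} (ht : t ≠ 0) (x : Fin M → ℂ) :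
    sc wt (inv_ne_zero ht) (sc wt ht x) = x := by
  funext l
  have := Complex.ofReal_ne_zero.2 ht
  simp only [sc_apply]; push_cast
  rw [← mul_assoc, ← mul_pow, inv_mul_cancel₀ this, one_pow, one_mul]

lemma deg_le {wt : Fin M → ℕ} (hw : ∀ l, 0 < wt l) {p : MP M} {m : ℕ}
    (hp : p.IsWeightedHomogeneous wt m) : p.totalDegree ≤ m := by
  refine Finset.sup_le fun u hu => ?_
  rw [← hp (mem_support_iff.1 hu), Finsupp.weight_apply]
  exact Finset.sum_le_sum fun l _ => Nat.le_mul_of_pos_right _ (hw l)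

lemma Geo.lint_sc (hG : Geo I θ d F h) {wt : Fin M → ℕ}
    (hI : ∀ p ∈ I, ∀ k, weightedHomogeneousComponent wt k p ∈ I) {e : ℕ}
    (hθ : ∀ i, (θ i).IsWeightedHomogeneous wt e) {t : ℝ} (ht : 0 < t)
    {H : (Fin M → ℂ) → ℝ≥0∞} (hH : Measurable H) :
    ∫⁻ x, H (sc wt ht.ne' x) ∂(lam I θ)
      = ENNReal.ofReal (((t ^ e) ^ (2 * n))⁻¹) * ∫⁻ x, H x ∂(lam I θ) := by
  have hte : t ^ e ≠ 0 := by positivity
  refine hG.ff.lint_scale _ _ (τ := fun w => (t ^ e) • w) (fun x => ⟨fun hx => ?_, sc_mem hI _⟩)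
    (smul_right_injective _ hte) (fun x => funext fun i => ?_) (fun G hG => ?_) hH
  · rw [← sc_inv wt ht.ne' x]; exact sc_mem hI _ hx
  · simp [pr, ev_sc ht.ne' (hθ i)]
  · rw [← lintegral_map hG (measurable_const_smul _), Measure.map_addHaar_smul _ hte,
      lintegral_smul_measure, finrank_pi_C, Fintype.card_fin, abs_of_pos (by positivity), smul_eq_mul]

end Pool.Agent.Lib.MP_bc3ae6_ag
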