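import Pool.Agent.Lib.MP_bc3ae6_ag.GeoA
import Pool.Agent.Lib.MP_bc3ae6_ag.FD

set_option autoImplicit false
set_option linter.unusedSectionVars false

/-! Tools for concentrating weighted estimates on a complete intersection. -/

namespace Pool.Agent.Lib.MP_bc3ae6_ag

open MvPolynomial Set Metric MeasureTheory Filter Topology
open scoped Polynomial ENNReal ComplexConjugate Real

lemma cont_elim {α β : Type} : Continuous fun p : (α → ℂ) × (β → ℂ) => Sum.elim p.1 p.2 :=
  continuous_pi fun i => by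
    rcases i with i | i
    · exact (continuous_apply i).comp continuous_fst
    · exact (continuous_apply i).comp continuous_snd

lemma lint_split {α β : Type} [Fintype α] [Fintype β] {f : (α ⊕ β → ℂ) → ℝ≥0∞}
    (hf : Measurable f) : ∫⁻ v, f v = ∫⁻ w : α → ℂ, ∫⁻ z : β → ℂ, f (Sum.elim w z) := by
  have h := (measurePreserving_sumPiEquivProdPi_symm
    (fun _ : α ⊕ β => (volume : Measure ℂ))).lintegral_comp hf
  have hm : Measurable fun p : (α → ℂ) × (β → ℂ) => f (Sum.elim p.1 p.2) :=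
    hf.comp cont_elim.measurable
  rw [volume_pi, ← h, ← lintegral_prod _ hm.aemeasurable]
  refine lintegral_congr fun p => ?_
  congr 1

lemma submean {κ : Type} [Fintype κ] {f : (κ → ℂ) → ℂ} (hf : Differentiable ℂ f) (x : κ → ℂ)
    (r : κ → ℝ) : ‖f x‖ₑ ^ 2 * volume (pi univ fun l => closedBall (x l) (r l))
      ≤ ∫⁻ z in pi univ fun l => closedBall (x l) (r l), ‖f z‖ₑ ^ 2 := by
  set D := pi univ fun l => closedBall (x l) (r l)
  have hD : MeasurableSet D := MeasurableSet.univ_pi fun _ => measurableSet_closedBall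
  let T : ℝ → (κ → ℂ) → κ → ℂ := fun t u => x + circleMap 0 1 t • (u - x)
  have hT : ∀ t, MeasurePreserving (T t) := fun t => by
    have := volume_preserving_pi (ι := κ) fun l => (measurePreserving_add_left volume (x l)).comp
      ((rotation (Circle.exp t)).measurePreserving.comp (measurePreserving_sub_right volume (x l)))
    refine (congrArg (MeasurePreserving · volume volume) ?_).mp this
    funext u l
    simp [T, circleMap, rotation_apply]
  have hTD : ∀ t, T t ⁻¹' D = D := fun t => by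
    ext u; simp [T, D, dist_eq_norm]
  have hm : Measurable fun z => ‖f z‖ₑ ^ 2 := hf.continuous.measurable.enorm.pow_const 2
  have h1 : ∀ u, ENNReal.ofReal (2 * π) * ‖f x‖ₑ ^ 2 ≤ ∫⁻ t in Ioc 0 (2 * π), ‖f (T t u)‖ₑ ^ 2 := by
    intro u
    have hd : Differentiable ℂ fun s : ℂ => f (x + s • (u - x)) ^ 2 := by fun_prop
    have h2 := (hd.diffContOnCl (s := ball 0 |1|)).circleAverage
    rw [Real.circleAverage_def, intervalIntegral.integral_of_le (by positivity), zero_smul,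
      add_zero] at h2
    rw [← enorm_pow, ← h2, enorm_smul, ← mul_assoc, Real.enorm_of_nonneg (by positivity),
      ← ENNReal.ofReal_mul (by positivity), mul_inv_cancel₀ (by positivity), ENNReal.ofReal_one,
      one_mul]
    exact (enorm_integral_le_lintegral_enorm _).trans (le_of_eq (by simp only [enorm_pow, T]))
  have hc : Continuous fun p : (κ → ℂ) × ℝ => T p.2 p.1 := by
    have := continuous_circleMap 0 1
    simp only [T]; fun_prop
  have h2 : ENNReal.ofReal (2 * π) * (‖f x‖ₑ ^ 2 * volume D)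
      ≤ ENNReal.ofReal (2 * π) * ∫⁻ z in D, ‖f z‖ₑ ^ 2 := by
    calc _ = ∫⁻ _ in D, ENNReal.ofReal (2 * π) * ‖f x‖ₑ ^ 2 := by rw [setLIntegral_const, mul_assoc]
      _ ≤ ∫⁻ u in D, ∫⁻ t in Ioc 0 (2 * π), ‖f (T t u)‖ₑ ^ 2 := lintegral_mono h1
      _ = ∫⁻ t in Ioc 0 (2 * π), ∫⁻ u in D, ‖f (T t u)‖ₑ ^ 2 :=
          lintegral_lintegral_swap (hm.comp hc.measurable).aemeasurable
      _ = ∫⁻ _ in Ioc 0 (2 * π), ∫⁻ z in D, ‖f z‖ₑ ^ 2 := lintegral_congr fun t => by
          rw [← (hT t).setLIntegral_comp_preimage hD hm, hTD]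
      _ = _ := by rw [setLIntegral_const, Real.volume_Ioc, sub_zero, mul_comm]
  exact (ENNReal.mul_le_mul_iff_right (by simp [Real.pi_pos]) ENNReal.ofReal_ne_top).1 h2

lemma Levi_scale {ι : Type} [Fintype ι] [DecidableEq ι] (φ : (ι → ℂ) → ℝ) (z ξ : ι → ℂ) (s : ℝ) :
    Levi φ z (fun j => s * ξ j) = s ^ 2 * Levi φ z ξ := by
  rw [Levi, Levi, ← Complex.re_ofReal_mul]
  congr 1
  simp only [Finset.mul_sum, map_mul, Complex.conj_ofReal]
  exact Finset.sum_congr rfl fun j _ => Finset.sum_congr rfl fun k _ => by push_cast; ring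

lemma hyp_scale {ι : Type} [Fintype ι] [DecidableEq ι] {φ : (ι → ℂ) → ℝ} {z : ι → ℂ} {b : ι → ℂ}
    {G : ℝ} (h0 : ∀ ξ, 0 ≤ Levi φ z ξ) (h : ∀ ξ, 2 * ‖∑ j, conj (b j) * ξ j‖ ≤ G + Levi φ z ξ)
    (a : ℂ) (ξ : ι → ℂ) : 2 * ‖∑ j, conj (a * b j) * ξ j‖ ≤ ‖a‖ ^ 2 * G + Levi φ z ξ := by
  by_cases ha : a = 0
  · simpa [ha] using h0 ξ
  have ha' := norm_pos_iff.2 ha
  have h1 := h fun j => (‖a‖⁻¹ : ℝ) * ξ j
  simp only [Levi_scale, mul_left_comm (conj _), ← Finset.mul_sum, norm_mul, Complex.norm_real,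
    norm_inv, norm_norm] at h1
  simp only [map_mul, mul_assoc, ← Finset.mul_sum, norm_mul, Complex.norm_conj]
  have h2 := mul_le_mul_of_nonneg_left h1 (sq_nonneg ‖a‖)
  field_simp at h2
  linarith

/-- The concentrating kernel. -/
noncomputable def ps {M : ℕ} (ζ : Fin M → ℂ) : ℝ≥0∞ := ENNReal.ofReal ((nsq ζ + 1) ^ (-(M + 1 : ℝ)))

lemma cont_nsq {κ : Type} [Fintype κ] : Continuous (nsq : (κ → ℂ) → ℝ) := by
  unfold nsq; fun_prop

lemma sq_le_nsq {κ : Type} [Fintype κ] (ζ : κ → ℂ) : ‖ζ‖ ^ 2 ≤ nsq ζ := by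
  classical
  have h0 := nsq_nonneg ζ
  rw [← Real.le_sqrt (norm_nonneg _) h0, pi_norm_le_iff_of_nonneg (Real.sqrt_nonneg _)]
  intro i
  rw [Real.le_sqrt (norm_nonneg _) h0]
  exact Finset.single_le_sum (f := fun i => ‖ζ i‖ ^ 2) (fun _ _ => sq_nonneg _) (Finset.mem_univ i)

lemma nsq_le {κ : Type} [Fintype κ] {ζ : κ → ℂ} {r : ℝ} (h : ∀ i, ‖ζ i‖ ≤ r) :
    nsq ζ ≤ Fintype.card κ * r ^ 2 := by
  refine (Finset.sum_le_card_nsmul _ _ (r ^ 2) fun i _ => ?_).trans (by simp)
  exact pow_le_pow_left₀ (norm_nonneg _) (h i) 2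

lemma meas_ps {M : ℕ} : Measurable (ps : (Fin M → ℂ) → ℝ≥0∞) :=
  ((cont_nsq.measurable.add_const 1).pow_const _).ennreal_ofReal

lemma lint_ps (M : ℕ) : ∫⁻ ζ : Fin M → ℂ, ps ζ < ⊤ := by
  have h := (integrable_rpow_neg_one_add_norm_sq (E := Fin M → ℂ) (μ := volume)
    (r := 2 * M + 2) (by rw [finrank_pi_C]; simp)).lintegral_lt_top
  refine lt_of_le_of_lt (lintegral_mono fun ζ => ENNReal.ofReal_le_ofReal ?_) h
  rw [show -(2 * (M : ℝ) + 2) / 2 = -(M + 1) by ring]
  exact Real.rpow_le_rpow_of_nonpos (by positivity) (by linarith [sq_le_nsq ζ])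
    (by have : (0 : ℝ) ≤ M := by positivity
        linarith)

variable {n M : ℕ}

/-- The triangular map. -/
noncomputable def Phi (F : Fin M → (MP n)[X]) (ε : ℝ) (z : Fin n ⊕ Fin M → ℂ) :
    Fin n ⊕ Fin M → ℂ :=
  Sum.elim (z ∘ Sum.inl) fun l => eval z (up l (F l)) / ε

lemma diff_Phi (F : Fin M → (MP n)[X]) (ε : ℝ) : Differentiable ℂ (Phi F ε) :=
  differentiable_pi.2 fun i => by
    rcases i with i | i
    · exact differentiable_apply _
    · simp only [Phi, Sum.elim_inr, div_eq_mul_inv]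
      exact (diff_ev _).mul_const _

lemma det_Phi (F : Fin M → (MP n)[X]) (ε : ℝ) (z : Fin n ⊕ Fin M → ℂ) :
    |((fderiv ℂ (Phi F ε) z).restrictScalars ℝ).det|
      = (∏ l, ‖eval z (up l (F l).derivative)‖ ^ 2) / ε ^ (2 * M) := by
  set A := fderiv ℂ (Phi F ε) z
  have key : ∀ j i a, HasDerivAt (fun t : ℂ => Phi F ε (z + t • Pi.single j 1) i) a 0 →
      LinearMap.toMatrix' A.toLinearMap i j = a := by
    intro j i a ha
    have h1 : HasFDerivAt (Phi F ε) A (z + (0 : ℂ) • Pi.single j 1) := by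
      simpa using (diff_Phi F ε z).hasFDerivAt
    have h2 := h1.comp_hasDerivAt (0 : ℂ)
      (((hasDerivAt_id (0 : ℂ)).smul_const (Pi.single j (1 : ℂ) : Fin n ⊕ Fin M → ℂ)).const_add z)
    rw [one_smul] at h2
    rw [LinearMap.toMatrix'_apply]
    exact (hasDerivAt_pi.1 h2 i).unique ha
  have e : LinearMap.toMatrix' A.toLinearMap = Matrix.fromBlocks 1 0
      (LinearMap.toMatrix' A.toLinearMap).toBlocks₂₁
      (Matrix.diagonal fun l => eval z (up l (F l).derivative) / ε) := by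
    ext i j
    rcases i with i | l <;> rcases j with j | k
    · refine key _ _ _ ?_
      simpa [Phi, Pi.single_apply, Matrix.one_apply] using
        ((hasDerivAt_id (0 : ℂ)).mul_const (if i = j then 1 else 0)).const_add (z (Sum.inl i))
    · refine key _ _ _ ?_
      simpa [Phi] using hasDerivAt_const (0 : ℂ) (z (Sum.inl i))
    · rfl
    · refine key _ _ _ ?_
      have e1 : ∀ t : ℂ, (z + t • Pi.single (Sum.inr k) 1) ∘ Sum.inl = z ∘ Sum.inl := fun t => by
        funext i; simp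
      simp only [Phi, Sum.elim_inr, ev_up, e1, sp_deriv, Matrix.fromBlocks_apply₂₂,
        Matrix.diagonal_apply]
      have h1 := (Polynomial.hasDerivAt (sp (F l) (z ∘ Sum.inl)) _).comp (0 : ℂ)
        (((hasDerivAt_id (0 : ℂ)).mul_const (if l = k then 1 else 0)).const_add (z (Sum.inr l)))
      have h2 := h1.div_const (ε : ℂ)
      simpa [Pi.single_apply, Function.comp_def, ite_div] using h2
  have h1 : (A.restrictScalars ℝ).det = Algebra.norm ℝ (LinearMap.det A.toLinearMap) :=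
    LinearMap.det_restrictScalars (f := A.toLinearMap)
  rw [h1, ← LinearMap.det_toMatrix', e, Matrix.det_fromBlocks_zero₁₂, Algebra.norm_complex_apply,
    abs_of_nonneg (Complex.normSq_nonneg _), Complex.normSq_eq_norm_sq]
  simp [Finset.prod_pow, div_pow, pow_mul, pow_right_comm _ M 2]

lemma ff_Phi {F : Fin M → (MP n)[X]} {d : ℕ} (hF : ∀ l, (F l).Monic)
    (hd0 : ∀ l, 0 < (F l).natDegree) (hd : ∀ l, (F l).natDegree ≤ d) {ε : ℝ} (hε : ε ≠ 0) :
    FF univ (Phi F ε) (d ^ M) := by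
  refine ⟨isClosed_univ, (diff_Phi F ε).continuous, fun v => ?_⟩
  let q : Fin M → ℂ[X] := fun l => sp (F l) (v ∘ Sum.inl) - Polynomial.C (ε * v (Sum.inr l))
  have hq : ∀ l, (q l).natDegree = (F l).natDegree := fun l => by
    simp only [q]; rw [Polynomial.natDegree_sub_C, sp_deg (hF l)]
  refine le_trans (encard_le_encard_of_injOn (f := fun z => z ∘ Sum.inr) ?_ ?_)
    (encard_roots (q := q) (fun l h => (hd0 l).ne' (by rw [← hq, h]; rfl))
      fun l => (hq l).trans_le (hd l))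
  · rintro z ⟨-, rfl⟩ l
    have : (ε : ℂ) ≠ 0 := Complex.ofReal_ne_zero.2 hε
    simp [q, Phi, ev_up, mul_div_cancel₀ _ this]
  · rintro z ⟨-, hz⟩ z' ⟨-, hz'⟩ e
    funext i
    rcases i with i | i
    · exact (congrFun hz (Sum.inl i)).trans (congrFun hz' (Sum.inl i)).symm
    · exact congrFun e i

end Pool.Agent.Lib.MP_bc3ae6_ag
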