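import Pool.Agent.Lib.MP_bc3ae6_ag.HX1

set_option autoImplicit false
set_option linter.unusedSectionVars false

/-! Upper and lower bounds for concentrated integrals. -/

namespace Pool.Agent.Lib.MP_bc3ae6_ag

open MvPolynomial Set Metric MeasureTheory Filter Topology
open scoped Polynomial ENNReal NNReal ComplexConjugate Real

variable {n M : ℕ} {I : Ideal (MP M)} {θ : Fin n → MP M} {d : ℕ} {F : Fin M → (MP n)[X]}
  {h : MvPolynomial (Fin n ⊕ Fin M) ℂ}

variable (F) in
/-- The squared Jacobian of the triangular system. -/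
noncomputable def Jc (z : Fin n ⊕ Fin M → ℂ) : ℝ := ∏ l, ‖eval z (up l (F l).derivative)‖ ^ 2

lemma cont_Jc : Continuous (Jc F) :=
  continuous_finsetProd _ fun _ _ => (cont_ev _).norm.pow 2

lemma Jc_nonneg (z : Fin n ⊕ Fin M → ℂ) : 0 ≤ Jc F z := Finset.prod_nonneg fun _ _ => sq_nonneg _

lemma lint_prod2 {T : (Fin n → ℂ) → ℝ≥0∞} (hT : Measurable T) :
    ∫⁻ v : Fin n ⊕ Fin M → ℂ, T (v ∘ Sum.inl) * ps (v ∘ Sum.inr)
      = (∫⁻ w, T w) * ∫⁻ ζ : Fin M → ℂ, ps ζ := by
  have hm : Measurable fun v : Fin n ⊕ Fin M → ℂ => T (v ∘ Sum.inl) * ps (v ∘ Sum.inr) :=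
    (hT.comp (by fun_prop)).mul (meas_ps.comp (by fun_prop))
  rw [lint_split hm]
  simp only [Sum.elim_comp_inl, Sum.elim_comp_inr, lintegral_const_mul _ meas_ps]
  rw [lintegral_mul_const _ hT]

namespace Geo

variable (hG : Geo I θ d F h)
include hG

lemma deg_pos (l : Fin M) : 0 < (F l).natDegree := by
  obtain ⟨y, hy, -⟩ := hG.surj 0
  refine Nat.pos_of_ne_zero fun h0 => ?_
  have := hG.root y hy l
  rw [(hG.mon l).natDegree_eq_zero.1 h0] at this
  simp [sp] at this

lemma upper {H : (Fin n ⊕ Fin M → ℂ) → ℝ} (hH : Continuous H) (hc : HasCompactSupport H)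
    (h0 : ∀ z, eval z h = 0 → H z = 0) :
    limsup (fun i : ℕ => ∫⁻ z, ENNReal.ofReal (H z) *
      (ENNReal.ofReal (Jc F z / (1 / (i + 1 : ℝ)) ^ (2 * M)) *
        ps (Phi F (1 / (i + 1 : ℝ)) z ∘ Sum.inr))) atTop
      ≤ (d ^ M : ℕ) * ((d ^ M : ℕ) * (∫⁻ x, ENNReal.ofReal (H (emb θ x)) ∂(lam I θ))
        * ∫⁻ ζ : Fin M → ℂ, ps ζ) := by
  set D : ℕ := d ^ M
  let ε : ℕ → ℝ := fun i => 1 / (i + 1 : ℝ)
  have hε : ∀ i, 0 < ε i := fun i => Nat.one_div_pos_of_nat
  have hf : ∀ i, FF univ (Phi F (ε i)) D := fun i => ff_Phi hG.mon hG.deg_pos hG.deg (hε i).ne'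
  have hm : Measurable fun z => ENNReal.ofReal (H z) := hH.measurable.ennreal_ofReal
  let Ψ : ℕ → (Fin n ⊕ Fin M → ℂ) → ℝ≥0∞ := fun i v =>
    fs univ (Phi F (ε i)) (fun z => ENNReal.ofReal (H z)) v * ps (v ∘ Sum.inr)
  have hΨ : ∀ i, Measurable (Ψ i) := fun i =>
    ((hf i).meas_fs hm).mul (meas_ps.comp (by fun_prop))
  let T := fs (zeroLocus ℂ I) (pr θ) fun x => ENNReal.ofReal (H (emb θ x))
  have hm' : Measurable fun x => ENNReal.ofReal (H (emb θ x)) := hm.comp (cont_emb θ).measurable
  have hT : Measurable T := hG.ff.meas_fs hm'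
  obtain ⟨R, -, hR⟩ := exists_supp_radius hc
  obtain ⟨B, hB⟩ := hc.exists_bound_of_continuous hH
  have h1 : limsup (fun i => ∫⁻ v, D * Ψ i v) atTop ≤ ∫⁻ v, limsup (fun i => D * Ψ i v) atTop := by
    let g : (Fin n → ℂ) → ℝ≥0∞ := (closedBall 0 R).indicator fun _ => D * (D * ENNReal.ofReal B)
    have hg : Measurable g := measurable_const.indicator measurableSet_closedBall
    refine limsup_lintegral_le (fun v => g (v ∘ Sum.inl) * ps (v ∘ Sum.inr))
      (fun i => (hΨ i).const_mul _) (fun i => Eventually.of_forall fun v => ?_) ?_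
    · simp only [Ψ, g]
      rw [← mul_assoc]
      gcongr
      by_cases hv : v ∘ Sum.inl ∈ closedBall 0 R
      · rw [indicator_of_mem hv]
        gcongr
        exact (hf i).fs_le fun z _ _ => ENNReal.ofReal_le_ofReal ((le_abs_self _).trans (hB z))
      · have := (hf i).fs_le (H := fun z => ENNReal.ofReal (H z)) (w := v) (c := 0) fun z _ e => by
          rw [hR z, ENNReal.ofReal_zero]
          rw [mem_closedBall_zero_iff, not_le, ← e] at hv
          exact hv.trans_le ((pi_norm_le_iff_of_nonneg (norm_nonneg _)).2 fun j =>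
            norm_le_pi_norm z (Sum.inl j))
        rw [mul_zero, nonpos_iff_eq_zero] at this
        simp [this]
    · rw [lint_prod2 hg, lintegral_indicator_const measurableSet_closedBall]
      have := lint_ps M
      have := measure_closedBall_lt_top (μ := volume) (x := (0 : Fin n → ℂ)) (r := R)
      finiteness
  refine le_trans (limsup_le_limsup (Eventually.of_forall fun i => ?_)) (h1.trans ?_)
  · have := area_le volume (fun z => ((diff_Phi F (ε i) z).hasFDerivAt).restrictScalars ℝ)
      (hf i).bd (hΨ i)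
    rw [← lintegral_const_mul _ (hΨ i)] at this
    refine le_trans (lintegral_mono fun z => ?_) this
    simp only [Ψ, det_Phi]
    rw [mul_left_comm]
    exact mul_le_mul_right (mul_le_mul_left
      (le_fs (f := Phi F (ε i)) (fun z => ENNReal.ofReal (H z)) (mem_univ z)) _) _
  · rw [lam, hG.ff.lint_fm _ hm', ← lintegral_const_mul _ hT, ← lint_prod2 (hT.const_mul _),
      ← lintegral_const_mul' _ _ (ENNReal.natCast_ne_top _)]
    refine lintegral_mono fun v => ?_
    have hT' : T (v ∘ Sum.inl) ≠ ⊤ := by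
      simp only [T, hG.ff.fs_eq]; exact ENNReal.sum_ne_top.2 fun _ _ => ENNReal.ofReal_ne_top
    rw [show (D : ℝ≥0∞) * (D * T (v ∘ Sum.inl) * ps (v ∘ Sum.inr))
      = (D * D * ps (v ∘ Sum.inr)) * T (v ∘ Sum.inl) by ring]
    refine ENNReal.le_mul_of_forall_lt (Or.inr hT') (Or.inl (by unfold ps; finiteness))
      fun a ha b hb => limsup_le_of_le (by isBoundedDefault) ?_
    have hS : IsCompact {z | b ≤ ENNReal.ofReal (H z)} := by
      refine hc.isCompact.of_isClosed_subset (isClosed_le continuous_const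
        (ENNReal.continuous_ofReal.comp hH)) fun z hz => subset_tsupport _ fun h1 => ?_
      rw [mem_ofPred_eq, h1, ENNReal.ofReal_zero] at hz
      exact (hb.trans_le hz).not_ge bot_le
    have h2 : Tendsto (fun i => Sum.elim (v ∘ Sum.inl) (ε i • (v ∘ Sum.inr))) atTop
        (𝓝 (Sum.elim (v ∘ Sum.inl) ((0 : ℝ) • (v ∘ Sum.inr)))) :=
      (cont_elim.tendsto (_, _)).comp (tendsto_const_nhds.prodMk_nhds
        (tendsto_one_div_add_atTop_nhds_zero_nat.smul_const _))
    have h3 := h2.eventually ((hS.image (diff_Phi F 1).continuous).isClosed.isOpen_compl.mem_nhds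
      (by
        rintro ⟨z, hz, e⟩
        have e1 : z ∘ Sum.inl = v ∘ Sum.inl := funext fun j => congrFun e (Sum.inl j)
        have e2 : z = Sum.elim (z ∘ Sum.inl) (z ∘ Sum.inr) := (Sum.elim_comp_inl_inr z).symm
        obtain ⟨h4, h5⟩ := hG.van (z ∘ Sum.inl) (z ∘ Sum.inr) (fun l => by
          simpa [Phi, ev_up] using congrFun e (Sum.inr l)) (fun h4 => by
            rw [mem_ofPred_eq, h0 z (e2 ▸ h4), ENNReal.ofReal_zero] at hz
            exact (hb.trans_le hz).not_ge bot_le)
        have h6 := le_fs (f := pr θ) (fun x => ENNReal.ofReal (H (emb θ x))) h4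
        simp only [emb, h5, ← e2] at h6
        rw [e1] at h6
        exact (hb.trans_le hz).not_ge h6))
    filter_upwards [h3] with i hi
    have h4 : fs univ (Phi F (ε i)) (fun z => ENNReal.ofReal (H z)) v ≤ D * b :=
      (hf i).fs_le fun z _ e => le_of_not_ge fun hz => hi ⟨z, hz, by
        have : (ε i : ℂ) ≠ 0 := Complex.ofReal_ne_zero.2 (hε i).ne'
        rw [← e]
        funext j
        rcases j with j | j
        · rfl
        · simp [Phi, mul_div_cancel₀ _ this]⟩
    calc D * Ψ i v ≤ D * (D * b * ps (v ∘ Sum.inr)) := by simp only [Ψ]; gcongr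
      _ = (D * D * ps (v ∘ Sum.inr)) * b := by ring
      _ ≤ _ := by gcongr

end Geo

variable (M) in
/-- A dimensional constant. -/
noncomputable def bM : ℝ := (M + 1 : ℝ) ^ (-(M + 1 : ℝ)) * (π / 4) ^ M

lemma bM_pos : 0 < bM M := by unfold bM; positivity

lemma Geo.lower (hG : Geo I θ d F h) {ω : (Fin n ⊕ Fin M → ℂ) → ℝ} (hω : Continuous ω)
    (hω0 : ∀ z, 0 < ω z) {g : (Fin n ⊕ Fin M → ℂ) → ℂ} (hg : Continuous g) {K : Set (Fin M → ℂ)}
    (hK : IsCompact K) (hKZ : K ⊆ zeroLocus ℂ I) {m0 : ℝ} (hm0 : 0 < m0)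
    (hKF : ∀ x ∈ K, ∀ l, m0 ≤ ‖eval (emb θ x) (up l (F l).derivative)‖) {R : ℝ}
    (hR : ∀ x ∈ K, ‖emb θ x‖ < R) {η : ℝ≥0∞} (hη : 0 < η) :
    ∀ᶠ ε : ℝ in 𝓝[>] 0, ∀ p : (Fin n ⊕ Fin M → ℂ) → ℂ, Differentiable ℂ p →
      ∫⁻ x in K, ‖g (emb θ x) - p (emb θ x)‖ₑ ^ 2 *
          ENNReal.ofReal (ω (emb θ x) / Jc F (emb θ x)) ∂(lam I θ)
        ≤ ENNReal.ofReal (4 / bM M) * (d ^ M : ℕ) * (∫⁻ z in closedBall 0 R, ‖g z - p z‖ₑ ^ 2 *
          (ENNReal.ofReal (ω z / ε ^ (2 * M)) * ps (Phi F ε z ∘ Sum.inr))) + η := by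
  have hJ : ∀ x ∈ K, 0 < Jc F (emb θ x) := fun x hx =>
    Finset.prod_pos fun l _ => pow_pos (hm0.trans_le (hKF x hx l)) 2
  have hce := cont_emb θ
  have hq : ContinuousOn (fun x => ω (emb θ x) / Jc F (emb θ x)) K :=
    (hω.comp hce).continuousOn.div (cont_Jc.comp hce).continuousOn fun x hx => (hJ x hx).ne'
  obtain ⟨B, hB⟩ := hK.exists_bound_of_continuousOn hq
  obtain ⟨ν, hν0, hν⟩ := ENNReal.exists_nnreal_pos_mul_lt
    (a := 2 * ENNReal.ofReal B * lam I θ K) (by have := hG.lam_lt hK; finiteness) hη.ne'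
  let e : (Fin M → ℂ) × (Fin M → ℂ) → Fin n ⊕ Fin M → ℂ := fun q =>
    Sum.elim (pr θ q.2) (q.2 + q.1)
  have he : Continuous e := cont_elim.comp
    (((cont_pr θ).comp continuous_snd).prodMk (continuous_snd.add continuous_fst))
  have he0 : ∀ x, e (0, x) = emb θ x := fun x => by simp [e, emb]
  have he2 : Continuous fun q : (Fin M → ℂ) × (Fin M → ℂ) => emb θ q.2 := hce.comp continuous_snd
  obtain ⟨δ, hδ, hδ'⟩ := Metric.eventually_nhds_iff.1 (hK.eventually_forall_of_forall_eventually
    (x₀ := (0 : Fin M → ℂ)) (P := fun t x => (∀ l, ‖eval (e (t, x)) (up l (F l).derivative)‖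
      < 2 * ‖eval (emb θ x) (up l (F l).derivative)‖) ∧ ω (emb θ x) < 2 * ω (e (t, x)) ∧
      ‖g (emb θ x) - g (e (t, x))‖ₑ ^ 2 < ν ∧ ‖e (t, x)‖ < R) fun x hx => by
    refine (eventually_all.2 fun l => ?_).and (Eventually.and ?_ (Eventually.and ?_ ?_))
    · refine ContinuousAt.eventually_lt ((cont_ev _).comp he).norm.continuousAt
        (continuous_const.mul ((cont_ev _).comp he2).norm).continuousAt ?_
      simp only [he0]; linarith [hKF x hx l]
    · refine ContinuousAt.eventually_lt (hω.comp he2).continuousAt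
        (continuous_const.mul (hω.comp he)).continuousAt ?_
      simp only [he0]; linarith [hω0 (emb θ x)]
    · refine ContinuousAt.eventually_lt ((ENNReal.continuous_pow 2).comp
        ((hg.comp he2).sub (hg.comp he)).enorm).continuousAt continuousAt_const ?_
      simpa [he0] using hν0
    · exact ContinuousAt.eventually_lt he.norm.continuousAt continuousAt_const
        (by simpa [he0] using hR x hx))
  filter_upwards [Ioo_mem_nhdsGT (mul_pos hm0 hδ)] with ε hε p hp
  have hε0 := hε.1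
  let J : (Fin n ⊕ Fin M → ℂ) → ℝ≥0∞ := (closedBall 0 R).indicator fun z => ‖g z - p z‖ₑ ^ 2 *
    (ENNReal.ofReal (ω z / ε ^ (2 * M)) * ps (Phi F ε z ∘ Sum.inr))
  have hJm : Measurable J := Measurable.indicator
    (((hg.sub hp.continuous).measurable.enorm.pow_const 2).mul
      ((hω.measurable.div_const _).ennreal_ofReal.mul (meas_ps.comp
        ((by fun_prop : Measurable fun v : Fin n ⊕ Fin M → ℂ => v ∘ Sum.inr).comp
          (diff_Phi F ε).continuous.measurable)))) measurableSet_closedBall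
  have key : ∀ x ∈ K, ‖g (emb θ x) - p (emb θ x)‖ₑ ^ 2 *
      ENNReal.ofReal (ω (emb θ x) / Jc F (emb θ x)) ≤
      ENNReal.ofReal (4 / bM M) * (∫⁻ z, J (Sum.elim (pr θ x) z)) + ν * (2 * ENNReal.ofReal B) := by
    intro x hx
    let r : Fin M → ℝ := fun l => ε / (2 * ‖eval (emb θ x) (up l (F l).derivative)‖)
    have hF0 : ∀ l, 0 < ‖eval (emb θ x) (up l (F l).derivative)‖ := fun l =>
      hm0.trans_le (hKF x hx l)
    have hr0 : ∀ l, 0 < r l := fun l => by have := hF0 l; positivity
    have hr : ∀ l, r l < δ := fun l => by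
      have := hF0 l
      rw [div_lt_iff₀ (by positivity)]; nlinarith [hKF x hx l, hε.2]
    set D := pi univ fun l => closedBall (x l) (r l)
    have hD : MeasurableSet D := MeasurableSet.univ_pi fun _ => measurableSet_closedBall
    have hv : volume D = ENNReal.ofReal ((π / 4) ^ M * ε ^ (2 * M) / Jc F (emb θ x)) := by
      have : ∀ l, volume (closedBall (x l) (r l)) = ENNReal.ofReal
          (π / 4 * ε ^ 2 / ‖eval (emb θ x) (up l (F l).derivative)‖ ^ 2) := fun l => by
        rw [Complex.volume_closedBall, ← ENNReal.ofReal_pow (hr0 l).le, ← ENNReal.ofReal_coe_nnreal,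
          ← ENNReal.ofReal_mul (by positivity)]
        congr 1
        have := hF0 l
        simp only [r, NNReal.coe_real_pi]; field_simp; norm_num
      rw [volume_pi_pi, funext this, ← ENNReal.ofReal_prod_of_nonneg fun _ _ => by positivity]
      simp [Jc, mul_pow, pow_mul]
    have hd : Differentiable ℂ fun z => g (emb θ x) - p (Sum.elim (pr θ x) z) :=
      (differentiable_const _).sub (hp.comp (differentiable_pi.2 fun i => by
        rcases i with i | i
        · exact differentiable_const _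
        · exact differentiable_apply i))
    have h1 := submean hd x r
    let c : ℝ≥0∞ := ENNReal.ofReal (ω (emb θ x) / ε ^ (2 * M) / (π / 4) ^ M)
    have hc : volume D * c = ENNReal.ofReal (ω (emb θ x) / Jc F (emb θ x)) := by
      rw [hv, ← ENNReal.ofReal_mul (by have := hJ x hx; positivity)]
      congr 1; field_simp
    have h2 : ∀ z ∈ D, ‖g (emb θ x) - p (Sum.elim (pr θ x) z)‖ₑ ^ 2 * c
        ≤ ENNReal.ofReal (4 / bM M) * J (Sum.elim (pr θ x) z) + ν * (2 * c) := by
      intro z hz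
      have h3 : ∀ t : Fin M → ℂ, (∀ l, ‖t l‖ ≤ r l) → dist t 0 < δ := fun t ht => by
        rw [dist_zero_right, pi_norm_lt_iff hδ]; exact fun l => (ht l).trans_lt (hr l)
      have hz' : ∀ l, ‖z l - x l‖ ≤ r l := fun l => mem_closedBall_iff_norm.1 (hz l trivial)
      obtain ⟨-, h5, h6, h7⟩ := hδ' (h3 (z - x) hz') x hx
      simp only [e, add_sub_cancel] at h5 h6 h7
      have h8 : ∀ l, ‖(Phi F ε (Sum.elim (pr θ x) z) ∘ Sum.inr) l‖ ≤ 1 := fun l => by
        have h9 := (convex_closedBall (x l) (r l)).norm_image_sub_le_of_norm_hasDerivWithin_le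
          (fun s _ => ((sp (F l) (pr θ x)).hasDerivAt s).hasDerivWithinAt)
          (C := 2 * ‖eval (emb θ x) (up l (F l).derivative)‖) (fun s hs => by
            have := (hδ' (h3 (Pi.single l (s - x l)) fun k => by
              by_cases hk : k = l
              · subst hk; simpa using mem_closedBall_iff_norm.1 hs
              · simpa [hk] using (hr0 k).le) x hx).1 l
            rw [ev_up, sp_deriv] at this
            simpa [e] using this.le) (mem_closedBall_self (hr0 l).le) (hz l trivial)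
        rw [hG.root x (hKZ hx), sub_zero] at h9
        simp only [Phi, Function.comp_apply, Sum.elim_inr, norm_div, Complex.norm_real,
          Real.norm_of_nonneg hε0.le]
        rw [div_le_one hε0, ev_up]
        refine h9.trans ((mul_le_mul_of_nonneg_left (hz' l) (by positivity)).trans (le_of_eq ?_))
        have := hF0 l
        simp only [r]; field_simp
      have h9 : c ≤ ENNReal.ofReal (2 / bM M) * (ENNReal.ofReal (ω (Sum.elim (pr θ x) z)
          / ε ^ (2 * M)) * ps (Phi F ε (Sum.elim (pr θ x) z) ∘ Sum.inr)) := by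
        have := hω0 (Sum.elim (pr θ x) z)
        have := bM_pos (M := M)
        rw [ps, ← ENNReal.ofReal_mul (by positivity), ← ENNReal.ofReal_mul (by positivity)]
        refine ENNReal.ofReal_le_ofReal ?_
        have h10 : (M + 1 : ℝ) ^ (-(M + 1 : ℝ))
            ≤ (nsq (Phi F ε (Sum.elim (pr θ x) z) ∘ Sum.inr) + 1) ^ (-(M + 1 : ℝ)) :=
          Real.rpow_le_rpow_of_nonpos (by linarith [nsq_nonneg (Phi F ε (Sum.elim (pr θ x) z) ∘ Sum.inr)])
            (by simpa using nsq_le h8) (by have : (0 : ℝ) ≤ M := by positivity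
                                           linarith)
        calc _ ≤ 2 * ω (Sum.elim (pr θ x) z) / ε ^ (2 * M) / (π / 4) ^ M := by gcongr
          _ = 2 / bM M * (ω (Sum.elim (pr θ x) z) / ε ^ (2 * M) * (M + 1 : ℝ) ^ (-(M + 1 : ℝ))) := by
            unfold bM; field_simp
          _ ≤ _ := by gcongr
      have h10 := sq_add_le (g (Sum.elim (pr θ x) z) - p (Sum.elim (pr θ x) z))
        (g (emb θ x) - g (Sum.elim (pr θ x) z))
      rw [sub_add_sub_cancel'] at h10
      simp only [J]
      rw [indicator_of_mem (mem_closedBall_zero_iff.2 h7.le), show (4 : ℝ) / bM M = 2 * (2 / bM M) by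
        ring, ENNReal.ofReal_mul zero_le_two, ENNReal.ofReal_ofNat]
      refine (mul_le_mul_left h10 _).trans ?_
      rw [add_mul]
      refine add_le_add ((mul_le_mul_right h9 _).trans (le_of_eq (by ring))) ?_
      rw [mul_left_comm, mul_assoc]
      gcongr
    calc _ = ‖g (emb θ x) - p (emb θ x)‖ₑ ^ 2 * volume D * c := by rw [mul_assoc, hc]
      _ ≤ (∫⁻ z in D, ‖g (emb θ x) - p (Sum.elim (pr θ x) z)‖ₑ ^ 2) * c := mul_le_mul_left h1 _
      _ ≤ ∫⁻ z in D, ENNReal.ofReal (4 / bM M) * J (Sum.elim (pr θ x) z) + ν * (2 * c) := by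
          rw [← lintegral_mul_const' _ _ ENNReal.ofReal_ne_top]
          exact setLIntegral_mono' hD h2
      _ ≤ _ := by
          rw [lintegral_add_right _ measurable_const, lintegral_const_mul' _ _ ENNReal.ofReal_ne_top,
            setLIntegral_const, mul_assoc, mul_assoc, mul_comm c, hc]
          gcongr
          · exact Measure.restrict_le_self
          · exact (le_abs_self _).trans (hB x hx)
  refine (setLIntegral_mono' hK.measurableSet key).trans ?_
  rw [lintegral_add_right _ measurable_const, lintegral_const_mul' _ _ ENNReal.ofReal_ne_top,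
    setLIntegral_const, mul_assoc (ν : ℝ≥0∞), mul_assoc (ENNReal.ofReal _),
    ← lintegral_indicator measurableSet_closedBall, lint_split hJm]
  gcongr
  exact (setLIntegral_le_lintegral _ _).trans
    (hG.ff.lint_comp_le volume fun w => ∫⁻ z, J (Sum.elim w z))

end Pool.Agent.Lib.MP_bc3ae6_ag
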