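import Pool.Agent.Lib.MP_bc3ae6_ag.HX2

set_option autoImplicit false
set_option linter.unusedSectionVars false

/-! Weighted polynomial approximation on a finite cover of affine space. -/

namespace Pool.Agent.Lib.MP_bc3ae6_ag

open MvPolynomial Set Metric MeasureTheory Filter Topology
open scoped Polynomial ENNReal NNReal ComplexConjugate Real

variable {n M : ℕ} {I : Ideal (MP M)} {θ : Fin n → MP M} {d : ℕ} {F : Fin M → (MP n)[X]}
  {h : MvPolynomial (Fin n ⊕ Fin M) ℂ}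

variable (F h) in
/-- The universal denominator. -/
noncomputable def den : MvPolynomial (Fin n ⊕ Fin M) ℂ := h * ∏ l, up l (F l).derivative

variable (θ) in
/-- Spanning family of polynomials of bounded degree, on the cover. -/
noncomputable def ub (K : ℕ) (a : Fin n ⊕ Fin M → Fin (K + 1)) (x : Fin M → ℂ) : ℂ :=
  eval (emb θ x) (PB K a)

lemma cont_ub (K : ℕ) (a : Fin n ⊕ Fin M → Fin (K + 1)) : Continuous (ub θ K a) :=
  (cont_ev _).comp (cont_emb θ)

lemma cont_pc (K : ℕ) (c : (Fin n ⊕ Fin M → Fin (K + 1)) → ℂ) :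
    Continuous fun x => pc (ub θ K) x c :=
  continuous_finsetSum _ fun a _ => continuous_const.mul (cont_ub K a)

lemma norm_den (z : Fin n ⊕ Fin M → ℂ) : ‖eval z (den F h)‖ ^ 2 = ‖eval z h‖ ^ 2 * Jc F z := by
  simp [den, Jc, mul_pow, Finset.prod_pow]

lemma enorm_sq (a : ℂ) : ‖a‖ₑ ^ 2 = ENNReal.ofReal (‖a‖ ^ 2) := by
  rw [← ofReal_norm, ENNReal.ofReal_pow (norm_nonneg _)]

variable (F h) in
/-- The degree bound. -/
noncomputable def Kd (K : ℝ) : ℕ := ⌈K + 1 * h.totalDegree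
  + (M + 1) * (Finset.univ.sup fun l => (up l (F l)).totalDegree : ℕ) + 0⌉₊

/-- The constant. -/
noncomputable def Cx (M d : ℕ) : ℝ≥0∞ := ENNReal.ofReal (4 / bM M) * (d ^ M : ℕ) * 16 *
  ((d ^ M : ℕ) * ((d ^ M : ℕ) * ∫⁻ ζ : Fin M → ℂ, ps ζ))

lemma Cx_lt (M d : ℕ) : Cx M d < ⊤ := by
  have := lint_ps M
  unfold Cx; finiteness

lemma exists_weight {K : ℝ} {φ : (Fin n ⊕ Fin M → ℂ) → ℝ} (hφ : PW K φ) {τ : ℝ} (hτ : 0 < τ)
    {ε : ℝ} (hε : 0 < ε) : ∃ Φ, PW (Kd F h K) Φ ∧ (∀ z ξ, Levi φ z ξ ≤ Levi Φ z ξ) ∧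
      ∀ z, ENNReal.ofReal (Real.exp (-Φ z)) = ENNReal.ofReal (Real.exp (-φ z) /
        (‖eval z h‖ ^ 2 + τ) / ε ^ (2 * M)) * ps (Phi F ε z ∘ Sum.inr) := by
  let dF := Finset.univ.sup fun l => (up l (F l)).totalDegree
  let p : Fin M → MvPolynomial (Fin n ⊕ Fin M) ℂ := fun l => C (ε : ℂ)⁻¹ * up l (F l)
  have w1 := PW.ls (fun _ : Unit => h) (fun _ => le_rfl) hτ zero_le_one
  have w2 := PW.ls p (d := dF) (fun l => (totalDegree_mul _ _).trans (by
    simpa using Finset.le_sup (f := fun l => (up l (F l)).totalDegree) (Finset.mem_univ l)))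
    one_pos (c := M + 1) (by positivity)
  have w3 := PW.const (ι := Fin n ⊕ Fin M) (Real.log (ε ^ (2 * M)))
  refine ⟨_, (((hφ.add w1).add w2).add w3).mono (Nat.le_ceil _), fun z ξ => ?_, fun z => ?_⟩
  · rw [Levi_add ((hφ.add w1).add w2).sm w3.sm, Levi_add (hφ.add w1).sm w2.sm,
      Levi_add hφ.sm w1.sm]
    linarith [w1.psh z ξ, w2.psh z ξ, w3.psh z ξ]
  · have e1 : Qs (fun l z => eval z (p l)) z = nsq (Phi F ε z ∘ Sum.inr) := by
      simp [Qs, nsq, p, Phi, div_eq_inv_mul]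
    rw [ps, ← ENNReal.ofReal_mul (by positivity), neg_add, neg_add, neg_add,
      Real.exp_add, Real.exp_add, Real.exp_add, exp_neg_ls _ hτ, exp_neg_ls _ one_pos, e1,
      Real.exp_neg (Real.log _), Real.exp_log (by positivity), Real.rpow_neg_one]
    simp only [Qs, Finset.univ_unique, Finset.sum_singleton]
    congr 1; ring

namespace Geo

variable (hG : Geo I θ d F h)
include hG

lemma nz_den : pull θ (den F h) ∉ I := by
  rw [den, map_mul, map_prod]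
  refine fun h1 => (hG.prime.mem_or_mem h1).elim hG.nzh fun h2 => ?_
  obtain ⟨l, -, hl⟩ := (Ideal.IsPrime.prod_mem_iff (hp := hG.prime)).1 h2
  exact hG.nzF l hl

lemma lint_cpt {K : Set (Fin M → ℂ)} (hK : IsCompact K) {f : (Fin M → ℂ) → ℝ}
    (hf : ContinuousOn f K) : ∫⁻ x in K, ENNReal.ofReal (f x) ∂(lam I θ) < ⊤ := by
  obtain ⟨B, hB⟩ := hK.exists_bound_of_continuousOn hf
  refine lt_of_le_of_lt (setLIntegral_mono' hK.measurableSet (g := fun _ => ENNReal.ofReal B)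
    fun x hx => ENNReal.ofReal_le_ofReal ((le_abs_self _).trans (hB x hx))) ?_
  rw [setLIntegral_const]
  exact ENNReal.mul_lt_top ENNReal.ofReal_lt_top (hG.lam_lt hK)

lemma step {K : ℝ} {φ : (Fin n ⊕ Fin M → ℂ) → ℝ} (hφ : PW K φ) {τ : ℝ} (hτ : 0 < τ)
    {g : (Fin n ⊕ Fin M → ℂ) → ℂ} (hg : Tst g) {G : (Fin n ⊕ Fin M → ℂ) → ℝ} (hGc : Continuous G)
    (hGs : HasCompactSupport G) (hG0 : ∀ z, 0 ≤ G z)
    (hyp : ∀ z ξ, 2 * ‖∑ j, conj (P Complex.I j g z) * ξ j‖ ≤ G z + Levi φ z ξ)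
    {S : Set (Fin M → ℂ)} (hS : IsCompact S) (hSZ : S ⊆ zeroLocus ℂ I)
    (hSF : ∀ x ∈ S, ∀ l, τ ≤ ‖eval (emb θ x) (up l (F l).derivative)‖) {η : ℝ≥0∞} (hη : 0 < η) :
    ∃ c, ∫⁻ x in S, ‖eval (emb θ x) (den F h) * g (emb θ x) - pc (ub θ (Kd F h K)) x c‖ₑ ^ 2 *
      ENNReal.ofReal (Real.exp (-φ (emb θ x)) / (‖eval (emb θ x) h‖ ^ 2 + τ) / Jc F (emb θ x))
        ∂(lam I θ) ≤ Cx M d * (∫⁻ x, ENNReal.ofReal (G (emb θ x)) *
          ENNReal.ofReal (Real.exp (-φ (emb θ x))) ∂(lam I θ)) + η := by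
  let C1 : ℝ≥0∞ := ENNReal.ofReal (4 / bM M) * (d ^ M : ℕ)
  have hC1 : C1 ≠ ⊤ := by simp only [C1]; finiteness
  have hps := lint_ps M
  have hce := cont_emb θ
  let ω : (Fin n ⊕ Fin M → ℂ) → ℝ := fun z => Real.exp (-φ z) / (‖eval z h‖ ^ 2 + τ)
  have hω0 : ∀ z, 0 < ω z := fun z => by positivity
  have hω : Continuous ω := hφ.sm.continuous.neg.rexp.div
    (((cont_ev h).norm.pow 2).add continuous_const) fun z => by positivity
  let g0 : (Fin n ⊕ Fin M → ℂ) → ℂ := fun z => eval z (den F h) * g z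
  have hg0 : Tst g0 := hg.mul_left (Hol.poly _).sm
  set B := ∫⁻ x, ENNReal.ofReal (G (emb θ x)) * ENNReal.ofReal (Real.exp (-φ (emb θ x))) ∂(lam I θ)
  obtain ⟨ν, hν0, hν⟩ := ENNReal.exists_nnreal_pos_mul_lt (a := C1 * 16 + C1 + 1)
    (by finiteness) hη.ne'
  have hν1 : (0 : ℝ≥0∞) < ν := ENNReal.coe_pos.2 hν0
  obtain ⟨R, hR⟩ := hS.exists_bound_of_continuousOn hce.continuousOn
  have h1 := tendsto_nhdsWithin_iff.2 ⟨tendsto_one_div_add_atTop_nhds_zero_nat,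
    Eventually.of_forall fun i => Nat.one_div_pos_of_nat⟩ |>.eventually (hG.lower hω hω0 hg0.sm.continuous hS
      hSZ hτ hSF (R := R + 1)
      (fun x hx => by linarith [hR x hx]) hν1)
  let H : (Fin n ⊕ Fin M → ℂ) → ℝ := fun z => ‖eval z h‖ ^ 2 * G z * ω z
  have hH : Continuous H := (((cont_ev h).norm.pow 2).mul hGc).mul hω
  have hHs : HasCompactSupport H := hGs.mul_left.mul_right
  have h2 := hG.upper hH hHs fun z hz => by simp [H, hz]
  have h3 : ∫⁻ x, ENNReal.ofReal (H (emb θ x)) ∂(lam I θ) < ⊤ := by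
    obtain ⟨R', -, hR'⟩ := exists_supp_radius hHs
    refine lt_of_le_of_lt (le_of_eq (setLIntegral_eq_of_support_subset fun x hx => ?_).symm)
      (hG.lint_cpt (isCompact_closedBall 0 R') (hH.comp hce).continuousOn)
    by_contra hx'
    rw [mem_closedBall_zero_iff, not_le] at hx'
    refine hx ?_
    simp only
    rw [hR' _ (hx'.trans_le ((pi_norm_le_iff_of_nonneg (norm_nonneg _)).2 fun j =>
      norm_le_pi_norm (emb θ x) (Sum.inr j))), ENNReal.ofReal_zero]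
  have h4 := eventually_lt_of_limsup_lt (h2.trans_lt (ENNReal.lt_add_right (by finiteness) hν1.ne'))
  obtain ⟨i, h5, h6⟩ := (h1.and h4).exists
  set ε := 1 / (i + 1 : ℝ)
  have hε : 0 < ε := Nat.one_div_pos_of_nat
  obtain ⟨Φ, w4, w5, he⟩ := exists_weight (F := F) (h := h) hφ hτ hε
  obtain ⟨C, hC⟩ := w4.gr
  have hyp' : ∀ z ξ, 2 * ‖∑ j, conj (P Complex.I j g0 z) * ξ j‖
      ≤ ‖eval z (den F h)‖ ^ 2 * G z + Levi Φ z ξ := fun z ξ => by
    have e : ∀ j, P Complex.I j g0 z = eval z (den F h) * P Complex.I j g z := fun j => by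
      rw [P_mul ((Hol.poly _).sm.dAt z) (hg.sm.dAt z), (Hol.poly _).cr]; simp
    simp only [e]
    exact (hyp_scale (hφ.psh z) (hyp z) _ ξ).trans (add_le_add_right (w5 z ξ) _)
  have hG1 : Continuous fun z => ‖eval z (den F h)‖ ^ 2 * G z := ((cont_ev _).norm.pow 2).mul hGc
  have hG2 : HasCompactSupport fun z => ‖eval z (den F h)‖ ^ 2 * G z := hGs.mul_left
  simp only [Real.rpow_natCast] at hC
  obtain ⟨c, hc⟩ := hormander_poly w4.sm hC hg0 hG1 hG2
    (fun z => mul_nonneg (sq_nonneg _) (hG0 z)) hyp' (R + 1) hν1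
  refine ⟨c, ?_⟩
  have h7 := h5 (fun z => ∑ a, c a * eval z (PB (Kd F h K) a))
    (Differentiable.fun_sum fun a _ => (diff_ev _).const_mul _)
  refine h7.trans ?_
  simp only [he] at hc
  have h8 : ∀ z, ENNReal.ofReal (‖eval z (den F h)‖ ^ 2 * G z * Real.exp (-Φ z))
      = ENNReal.ofReal (H z) *
        (ENNReal.ofReal (Jc F z / ε ^ (2 * M)) * ps (Phi F ε z ∘ Sum.inr)) := fun z => by
    have := hG0 z
    have := hω0 z
    rw [ENNReal.ofReal_mul (by positivity), he, ← mul_assoc, ← mul_assoc,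
      ← ENNReal.ofReal_mul (by positivity), ← ENNReal.ofReal_mul (by positivity), norm_den]
    congr 2; simp only [H]; ring
  simp only [h8] at hc
  have h9 : ∫⁻ x, ENNReal.ofReal (H (emb θ x)) ∂(lam I θ) ≤ B := lintegral_mono fun x => by
    rw [← ENNReal.ofReal_mul (hG0 _)]
    refine ENNReal.ofReal_le_ofReal ?_
    have := hG0 (emb θ x)
    simp only [H, ω]
    rw [← mul_div_assoc, div_le_iff₀ (by positivity)]
    nlinarith [mul_nonneg (mul_nonneg this (Real.exp_pos (-φ (emb θ x))).le) hτ.le]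
  calc _ ≤ C1 * (16 * ((d ^ M : ℕ) * ((d ^ M : ℕ) * B * ∫⁻ ζ : Fin M → ℂ, ps ζ) + ν) + ν) + ν := by
        refine add_le_add_left (mul_le_mul_right (hc.trans (add_le_add_left
          (mul_le_mul_right (h6.le.trans ?_) _) _)) _) _
        gcongr
    _ = Cx M d * B + ν * (C1 * 16 + C1 + 1) := by simp only [Cx, C1]; ring
    _ ≤ _ := by gcongr

theorem hx {K : ℝ} {φ : ℕ → (Fin n ⊕ Fin M → ℂ) → ℝ} (hφ : ∀ k, PW K (φ k)) (hφ' : Antitone φ)
    {g : (Fin n ⊕ Fin M → ℂ) → ℂ} (hg : Tst g) {G : (Fin n ⊕ Fin M → ℂ) → ℝ} (hGc : Continuous G)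
    (hGs : HasCompactSupport G) (hG0 : ∀ z, 0 ≤ G z)
    (hyp : ∀ k z ξ, 2 * ‖∑ j, conj (P Complex.I j g z) * ξ j‖ ≤ G z + Levi (φ k) z ξ) :
    ∃ c, ∫⁻ x, ‖eval (emb θ x) (den F h) * g (emb θ x) - pc (ub θ (Kd F h K)) x c‖ₑ ^ 2 *
      ((‖eval (emb θ x) (den F h)‖ₑ ^ 2)⁻¹ * ⨆ k, ENNReal.ofReal (Real.exp (-φ k (emb θ x))))
        ∂(lam I θ)
      ≤ Cx M d * ∫⁻ x, ENNReal.ofReal (G (emb θ x)) *
        ⨆ k, ENNReal.ofReal (Real.exp (-φ k (emb θ x))) ∂(lam I θ) := by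
  have hce := cont_emb θ
  let τ : ℕ → ℝ := fun k => 1 / (k + 1 : ℝ)
  have hτ : ∀ k, 0 < τ k := fun k => Nat.one_div_pos_of_nat
  have hτ' : Antitone τ := fun k l hkl => Nat.one_div_le_one_div hkl
  let ω : ℕ → (Fin n ⊕ Fin M → ℂ) → ℝ := fun k z => Real.exp (-φ k z) / (‖eval z h‖ ^ 2 + τ k)
  have hω0 : ∀ k z, 0 < ω k z := fun k z => by have := hτ k; positivity
  have hω : ∀ k, Continuous (ω k) := fun k => (hφ k).sm.continuous.neg.rexp.div
    (((cont_ev h).norm.pow 2).add continuous_const) fun z => by have := hτ k; positivity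
  let S : ℕ → Set (Fin M → ℂ) := fun k => {x ∈ zeroLocus ℂ I | pr θ x ∈ closedBall 0 k} ∩
    ⋂ l, {x | τ k ≤ ‖eval (emb θ x) (up l (F l).derivative)‖}
  have hS : ∀ k, IsCompact (S k) := fun k => (hG.compact (isCompact_closedBall _ _)).inter_right
    (isClosed_iInter fun l => isClosed_le continuous_const ((cont_ev _).comp hce).norm)
  have hJ : ∀ k, ∀ x ∈ S k, 0 < Jc F (emb θ x) := fun k x hx =>
    Finset.prod_pos fun l _ => pow_pos ((hτ k).trans_le (mem_iInter.1 hx.2 l)) 2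
  have hS' : Monotone S := fun k l hkl x hx => ⟨⟨hx.1.1, closedBall_subset_closedBall
    (Nat.cast_le.2 hkl) hx.1.2⟩, mem_iInter.2 fun i => (hτ' hkl).trans (mem_iInter.1 hx.2 i)⟩
  let W : ℕ → (Fin M → ℂ) → ℝ≥0∞ := fun k =>
    (S k).indicator fun x => ENNReal.ofReal (ω k (emb θ x) / Jc F (emb θ x))
  have hWm : ∀ k, Measurable (W k) := fun k => Measurable.indicator
    (((hω k).comp hce).measurable.div (cont_Jc.comp hce).measurable).ennreal_ofReal
    (hS k).measurableSet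
  have hW' : Monotone W := fun k l hkl x => by
    by_cases hx : x ∈ S k
    · simp only [W, indicator_of_mem hx, indicator_of_mem (hS' hkl hx), ω]
      have := hτ l
      gcongr
      · exact Jc_nonneg _
      · exact hφ' hkl _
      · exact hτ' hkl
    · simp [W, indicator_of_notMem hx]
  have hWi : ∀ k (u : (Fin M → ℂ) → ℂ), ∫⁻ x, ‖u x‖ₑ ^ 2 * W k x ∂(lam I θ) = ∫⁻ x in S k,
      ‖u x‖ₑ ^ 2 * ENNReal.ofReal (ω k (emb θ x) / Jc F (emb θ x)) ∂(lam I θ) := fun k u => by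
    rw [← lintegral_indicator (hS k).measurableSet]
    refine lintegral_congr fun x => ?_
    by_cases hx : x ∈ S k <;> simp [W, hx]
  have hfin : ∀ k {u : (Fin M → ℂ) → ℂ}, Continuous u →
      ∫⁻ x, ‖u x‖ₑ ^ 2 * W k x ∂(lam I θ) < ⊤ := fun k u hu => by
    rw [hWi]
    simp only [enorm_sq, ← ENNReal.ofReal_mul (sq_nonneg _)]
    exact hG.lint_cpt (hS k) ((hu.norm.pow 2).continuousOn.mul (((hω k).comp hce).continuousOn.div
      (cont_Jc.comp hce).continuousOn fun x hx => (hJ k x hx).ne'))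
  let g0 : (Fin n ⊕ Fin M → ℂ) → ℂ := fun z => eval z (den F h) * g z
  have hg0 : Tst g0 := hg.mul_left (Hol.poly _).sm
  set B := ∫⁻ x, ENNReal.ofReal (G (emb θ x)) *
    ⨆ k, ENNReal.ofReal (Real.exp (-φ k (emb θ x))) ∂(lam I θ)
  obtain ⟨c, hc⟩ := lim_lemma (ν := lam I θ) (fun a => (cont_ub (θ := θ) (Kd F h K) a).measurable)
    (hg0.sm.continuous.comp hce).measurable hWm hW' (fun k c => hfin k (cont_pc _ c))
    (fun k => hfin k (hg0.sm.continuous.comp hce))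
    (B := Cx M d * B) (by
      intro k η hη
      obtain ⟨c, hc⟩ := hG.step (hφ k) (hτ k) hg hGc hGs hG0 (hyp k) (hS k) (fun x hx => hx.1.1)
        (fun x hx l => mem_iInter.1 hx.2 l) hη
      refine ⟨c, (hWi k _).trans_le (hc.trans ?_)⟩
      gcongr
      exact lintegral_mono fun x => mul_le_mul_right
        (le_iSup (fun k => ENNReal.ofReal (Real.exp (-φ k (emb θ x)))) k) _)
  refine ⟨c, le_trans (lintegral_mono_ae ?_) hc⟩
  filter_upwards [hG.ff.ae_mem volume, hG.ae_ne hG.nz_den] with x hx hx'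
  rw [ev_pull] at hx'
  refine mul_le_mul_right ?_ _
  have h1 : 0 < ‖eval (emb θ x) h‖ ^ 2 * Jc F (emb θ x) := by rw [← norm_den]; positivity
  have h2 : eval (emb θ x) h ≠ 0 ∧ ∀ l, eval (emb θ x) (up l (F l).derivative) ≠ 0 := by
    simpa [den, Finset.prod_ne_zero_iff] using hx'
  rw [ENNReal.mul_iSup]
  refine iSup_le fun j => ?_
  have h3 : Tendsto (fun k => ENNReal.ofReal (Real.exp (-φ j (emb θ x))
      / (‖eval (emb θ x) h‖ ^ 2 + τ k) / Jc F (emb θ x))) atTop (𝓝 (ENNReal.ofReal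
        (Real.exp (-φ j (emb θ x)) / (‖eval (emb θ x) h‖ ^ 2 + 0) / Jc F (emb θ x)))) :=
    ENNReal.tendsto_ofReal ((tendsto_const_nhds.div (tendsto_const_nhds.add
      tendsto_one_div_add_atTop_nhds_zero_nat) (by simpa using h2.1)).div_const _)
  rw [add_zero, div_div, ← norm_den, div_eq_inv_mul, ENNReal.ofReal_mul (by positivity),
    ENNReal.ofReal_inv_of_pos (by positivity), ← enorm_sq] at h3
  refine le_of_tendsto h3 ?_
  have h4 : ∀ᶠ k : ℕ in atTop, ∀ l, τ k ≤ ‖eval (emb θ x) (up l (F l).derivative)‖ :=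
    eventually_all.2 fun l => tendsto_one_div_add_atTop_nhds_zero_nat.eventually
      (ge_mem_nhds (norm_pos_iff.2 (h2.2 l)))
  filter_upwards [eventually_ge_atTop j, h4,
    tendsto_natCast_atTop_atTop.eventually_ge_atTop ‖pr θ x‖] with k hk hk1 hk2
  refine le_trans ?_ (le_iSup _ k)
  have h5 : x ∈ S k := ⟨⟨hx, mem_closedBall_zero_iff.2 hk2⟩, mem_iInter.2 hk1⟩
  simp only [W, indicator_of_mem h5, ω]
  have := hτ k
  gcongr
  · exact Jc_nonneg _
  · exact hφ' hk _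

end Geo

end Pool.Agent.Lib.MP_bc3ae6_ag
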