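import Pool.Agent.Lib.MP_bc3ae6_ag.Hilb

set_option autoImplicit false
set_option linter.unusedSectionVars false

/-! Hoermander's estimate on `ι → ℂ`. -/

namespace Pool.Agent.Lib.MP_bc3ae6_ag

open MeasureTheory Filter Set Metric Topology Complex
open scoped ContDiff ComplexConjugate ENNReal InnerProductSpace

variable {ι : Type} [Fintype ι] [DecidableEq ι] {φ : (ι → ℂ) → ℝ}

lemma exists_supp_radius {X : Type*} [Zero X] {f : (ι → ℂ) → X} (hf : HasCompactSupport f) :
    ∃ R, 0 ≤ R ∧ ∀ z, R < ‖z‖ → f z = 0 := by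
  obtain ⟨R, hR⟩ := hf.isCompact.isBounded.subset_closedBall 0
  refine ⟨|R|, abs_nonneg _, fun z hz => ?_⟩
  by_contra h
  have := hR (subset_tsupport _ h)
  simp only [mem_closedBall, dist_zero_right] at this
  linarith [le_abs_self R]

lemma norm_om_omi {z y : ι → ℂ} (h : dist (φ z) (φ y) ≤ 1) : ‖om φ z * omi φ y‖ ≤ 2 := by
  rw [norm_mul, norm_om, norm_omi, ← Real.exp_add]
  rw [Real.dist_eq, abs_le] at h
  calc _ ≤ Real.exp (1 / 2) := by gcongr; linarith
    _ ≤ 2 := by
      have := Real.exp_one_lt_d9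
      have h2 : Real.exp (1 / 2) * Real.exp (1 / 2) = Real.exp 1 := by
        rw [← Real.exp_add]; norm_num
      nlinarith [Real.exp_pos (1 / 2)]

lemma lint_sq_sum_lt_top {κ : Type*} (s : Finset κ) {b : κ → (ι → ℂ) → ℝ≥0∞}
    (hb : ∀ i, Measurable (b i)) (h : ∀ i ∈ s, ∫⁻ y, b i y ^ 2 < ⊤) :
    ∫⁻ y, (∑ i ∈ s, b i y) ^ 2 < ⊤ := by
  classical
  induction s using Finset.induction_on with
  | empty => simp
  | insert a s ha ih =>
    simp only [Finset.sum_insert ha]
    have h1 := h a (by simp)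
    have h2 := ih fun i hi => h i (by simp [hi])
    calc _ ≤ ∫⁻ y, 4 * (b a y ^ 2 + (∑ i ∈ s, b i y) ^ 2) := lintegral_mono fun y => by
          rcases le_total (b a y) (∑ i ∈ s, b i y) with h | h
          · calc _ ≤ (∑ i ∈ s, b i y + ∑ i ∈ s, b i y) ^ 2 := by gcongr
              _ = 4 * (∑ i ∈ s, b i y) ^ 2 := by ring
              _ ≤ _ := by gcongr; exact le_add_self
          · calc _ ≤ (b a y + b a y) ^ 2 := by gcongr
              _ = 4 * (b a y) ^ 2 := by ring
              _ ≤ _ := by gcongr; exact le_self_add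
      _ < ⊤ := by
          rw [lintegral_const_mul' _ _ (by simp), lintegral_add_left ((hb a).pow_const 2)]
          exact ENNReal.mul_lt_top (by simp) (ENNReal.add_lt_top.2 ⟨h1, h2⟩)

lemma meas_H0 (b : H0 ι) : Measurable fun y => ‖b y‖ₑ :=
  (Lp.stronglyMeasurable b).measurable.enorm

variable (hφ : ContDiff ℝ ∞ φ)
include hφ

lemma approx_aux {α : ι → (ι → ℂ) → ℂ} (hα : ∀ j, Tst (α j)) :
    ∃ C : ℝ≥0∞, C < ⊤ ∧ ∀ η : ℝ, 0 < η → ∃ β : ι → (ι → ℂ) → ℂ, (∀ j, Tst (β j)) ∧
      ‖L φ (fun z => ∑ j, del φ j (β j) z) - L φ (fun z => ∑ j, del φ j (α j) z)‖ₑ ^ 2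
        ≤ ENNReal.ofReal η ^ 2 * C ∧
      ∀ j k, ‖L φ (fun z => P I k (β j) z - P I j (β k) z)‖ₑ ^ 2 ≤ ENNReal.ofReal η ^ 2 * C := by
  obtain ⟨a, h1, h2⟩ := exists_closed_part hφ hα
  have hD : Tst (fun z => ∑ j, del φ j (α j) z) := Tst.sum _ fun j _ => (hα j).del hφ j
  set D : (ι → ℂ) → ℂ := fun z => ∑ j, del φ j (α j) z with hDdef
  obtain ⟨R, hR0, hR⟩ := exists_supp_radius hD.cs
  let b0 : (ι → ℂ) → ℝ≥0∞ := fun y =>
    ∑ o : Option ι, o.elim ((closedBall 0 (R + 1)).indicator 1 y) fun j => 4 * ‖a j y‖ₑ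
  have hb0 : ∀ y, b0 y = (closedBall 0 (R + 1)).indicator 1 y + ∑ j, 4 * ‖a j y‖ₑ := by
    intro y; simp [b0, Fintype.sum_option]
  have hm : ∀ o : Option ι, Measurable fun y : ι → ℂ =>
      o.elim ((closedBall 0 (R + 1)).indicator (1 : (ι → ℂ) → ℝ≥0∞) y) fun j => 4 * ‖a j y‖ₑ := by
    rintro (_ | j)
    · exact measurable_one.indicator measurableSet_closedBall
    · exact (meas_H0 _).const_mul _
  have hb0m : Measurable b0 := Finset.measurable_sum _ fun o _ => hm o
  refine ⟨∫⁻ y, b0 y ^ 2, lint_sq_sum_lt_top _ hm ?_, fun η hη => ?_⟩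
  · rintro (_ | j) -
    · have : ∀ y : ι → ℂ, (closedBall 0 (R + 1)).indicator (1 : (ι → ℂ) → ℝ≥0∞) y ^ 2
          = (closedBall 0 (R + 1)).indicator (1 : (ι → ℂ) → ℝ≥0∞) y := by
        intro y; by_cases h : y ∈ closedBall 0 (R + 1) <;> simp [h]
      simp only [Option.elim, this]
      rw [lintegral_indicator_one measurableSet_closedBall]
      exact measure_closedBall_lt_top
    · simp only [Option.elim, mul_pow]
      rw [lintegral_const_mul' _ _ (by simp), ← enorm_sq_H0]
      exact ENNReal.mul_lt_top (by simp) (ENNReal.pow_lt_top enorm_lt_top)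
  obtain ⟨χ, hχ, hχ1, hχ2, hχ3⟩ := exists_cutoff (ι := ι) (R + 1) hη
  obtain ⟨R', -, hR'⟩ := exists_supp_radius hχ.cs
  obtain ⟨R'', -, hR''⟩ := exists_supp_radius (hχ.cs.fderiv (𝕜 := ℝ))
  obtain ⟨Co, hCo⟩ := (isCompact_closedBall (0 : ι → ℂ) (R + 2)).exists_bound_of_continuousOn
    (sm_om hφ).continuous.continuousOn
  have hCo0 : 0 ≤ Co := (norm_nonneg _).trans (hCo 0 (by simp; linarith))
  let Φ : ι → (ι → ℂ) → ℂ := fun j => P (-I) j (fun z => (φ z : ℂ))
  have hΦ : ∀ j, Sm (Φ j) := fun j => (sm_phi hφ).P _ j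
  obtain ⟨ε1, hε1, hε1', u1⟩ := exists_unif (f := fun _ : Unit => D)
    (fun _ => hD.sm.continuous) (R + 1) (η := η / (Co + 1)) (by positivity)
  obtain ⟨ε2, hε2, -, u2⟩ := exists_unif (f := Φ) (fun j => (hΦ j).continuous) R' hη
  obtain ⟨ε3, hε3, -, u3⟩ := exists_unif (f := fun _ : Unit => φ)
    (fun _ => hφ.continuous) (max R' R'') one_pos
  obtain ⟨ρ, hρ⟩ := exists_ker (ι := ι) (ε := min ε1 (min ε2 ε3)) (by positivity)
  have hA : ∀ j, LocallyIntegrable (fun y => a j y * omi φ y) := fun j =>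
    locInt_mul (Lp.memLp (a j)) (sm_omi hφ).continuous
  have hχA : ∀ j, LocallyIntegrable (fun y => a j y * omi φ y * χ y) := fun j =>
    (hχ.integrable_mul (hA j)).locallyIntegrable
  let β : ι → (ι → ℂ) → ℂ := fun j => moll ρ (fun y => a j y * omi φ y * χ y)
  have hβ : ∀ j, Tst (β j) := fun j => hρ.tst_moll (hχA j) hχ.cs.mul_left
  have hψ : ∀ z, Tst (fun y => (ρ (z - y) : ℂ) * χ y) := fun z => hχ.mul_left (hρ.tst_refl z).sm
  have hP : ∀ c j k z, P c k (β j) z = (∫ y, a j y * omi φ y * P c k χ y * (ρ (z - y) : ℂ))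
      - ∫ y, a j y * omi φ y * P c k (fun y => (ρ (z - y) : ℂ) * χ y) y := by
    intro c j k z
    have i1 : Integrable (fun y => a j y * omi φ y * P c k χ y * (ρ (z - y) : ℂ)) := by
      simpa only [mul_assoc] using ((hχ.P c k).mul_right (hρ.tst_refl z).sm).integrable_mul (hA j)
    rw [hρ.P_moll (hχA j), ← integral_sub i1 (((hψ z).P c k).integrable_mul (hA j)),
      ← integral_neg]
    congr 1; funext y
    rw [P_mul ((hρ.tst_refl z).sm.dAt y) (hχ.sm.dAt y)]
    ring
  have hPχ : ∀ c : ℂ, ‖c‖ ≤ 1 → ∀ j y, ‖P c j χ y‖ ≤ η := fun c hc j y =>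
    (norm_P_le χ hc j y).trans (hχ3 y)
  have hPχ0 : ∀ c j y, R'' < ‖y‖ → P c j χ y = 0 := fun c j y hy => by simp [P, hR'' y hy]
  have fin : ∀ {F : (ι → ℂ) → ℂ}, Tst F → (∀ z, ∃ g : (ι → ℂ) → ℂ,
      F z = ∫ y, g y * (ρ (z - y) : ℂ) ∧ ∀ y, ‖z - y‖ < min ε1 (min ε2 ε3) →
        ‖om φ z * g y‖ ≤ η * ((closedBall 0 (R + 1)).indicator 1 y + ∑ j, 4 * ‖a j y‖)) →
      ‖L φ F‖ₑ ^ 2 ≤ ENNReal.ofReal η ^ 2 * ∫⁻ y, b0 y ^ 2 := by
    intro F hF h
    rw [enorm_L_sq hφ hF, ← lintegral_const_mul' _ _ (by simp)]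
    simp only [← mul_pow]
    refine hρ.schur (hb0m.const_mul _) fun z => ?_
    obtain ⟨g, hg1, hg2⟩ := h z
    rw [hg1, ← integral_const_mul]
    simp only [← mul_assoc]
    simp only [mul_assoc (ENNReal.ofReal _)]
    refine hρ.enorm_integral_le z fun y hy => ?_
    rw [← ofReal_norm]
    refine (ENNReal.ofReal_le_ofReal (hg2 y hy)).trans (le_of_eq ?_)
    rw [ENNReal.ofReal_mul hη.le, hb0, ENNReal.ofReal_add (indicator_nonneg (by simp) _)
      (by positivity), ENNReal.ofReal_sum_of_nonneg (by intros; positivity)]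
    congr 2
    · by_cases h : y ∈ closedBall 0 (R + 1) <;> simp [h]
    · refine Finset.sum_congr rfl fun j _ => ?_
      rw [ENNReal.ofReal_mul (by norm_num), ofReal_norm]; simp
  refine ⟨β, hβ, ?_, fun j k => ?_⟩
  · have hB : Tst (fun z => ∑ j, del φ j (β j) z) := Tst.sum _ fun j _ => (hβ j).del hφ j
    rw [← L_sub hφ hB hD]
    refine fin (hB.sub hD) fun z => ⟨fun y => (χ y * D y - D z) +
      ∑ j, a j y * omi φ y * (χ y * (Φ j y - Φ j z) + P (-I) j χ y), ?_, fun y hy => ?_⟩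
    · have i0 : Integrable (fun y => D y * ((ρ (z - y) : ℂ) * χ y)) :=
        (hD.mul_right (hψ z).sm).integrable
      have i1 : Integrable (fun y => D z * (ρ (z - y) : ℂ)) := (hρ.tst_refl z).integrable.const_mul _
      have t2 : ∀ j, Tst (fun y => (χ y * (Φ j y - Φ j z) + P (-I) j χ y) * (ρ (z - y) : ℂ)) :=
        fun j => (hρ.tst_refl z).mul_left
          ((hχ.sm.mul ((hΦ j).sub contDiff_const)).add (hχ.sm.P _ j))
      have e1 : ∀ j, del φ j (β j) z = (∫ y, a j y * omi φ y *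
          ((χ y * (Φ j y - Φ j z) + P (-I) j χ y) * (ρ (z - y) : ℂ))) - ∫ y, a j y * omi φ y *
            (P (-I) j (fun y => (ρ (z - y) : ℂ) * χ y) y + (ρ (z - y) : ℂ) * χ y * Φ j y) := by
        intro j
        have j1 : Integrable (fun y => a j y * omi φ y * P (-I) j χ y * (ρ (z - y) : ℂ)) := by
          simpa only [mul_assoc] using
            ((hχ.P _ j).mul_right (hρ.tst_refl z).sm).integrable_mul (hA j)
        have j2 := ((hψ z).P (-I) j).integrable_mul (hA j)
        have j3 := ((hρ.tst_refl z).integrable_mul (hχA j)).const_mul (Φ j z)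
        rw [← integral_sub ((t2 j).integrable_mul (hA j))
          ((((hψ z).P _ j).add ((hψ z).mul_right (hΦ j))).integrable_mul (hA j)), del, hP,
          ← integral_sub j1 j2]
        change _ - Φ j z * ∫ y, a j y * omi φ y * χ y * (ρ (z - y) : ℂ) = _
        rw [← integral_const_mul]
        refine (integral_sub (j1.sub j2) j3).symm.trans ?_
        congr 1; funext y
        simp only [Pi.sub_apply]
        ring
      have e2 := h1 _ (hψ z)
      simp only [e1, Finset.sum_sub_distrib]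
      rw [e2, ← integral_finsetSum _ fun j _ => (t2 j).integrable_mul (hA j)]
      have e3 : D z = ∫ y, D z * (ρ (z - y) : ℂ) := by rw [integral_const_mul, hρ.int_refl, mul_one]
      have i2 := integrable_finsetSum Finset.univ fun j _ => (t2 j).integrable_mul (hA j)
      conv_lhs => rw [e3]
      rw [sub_neg_eq_add, ← integral_add i2 i0]
      refine (integral_sub (i2.add i0) i1).symm.trans ?_
      congr 1; funext y
      simp only [add_mul, Finset.sum_mul, mul_assoc, Pi.add_apply]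
      ring
    · have hy1 : ‖z - y‖ < ε1 := hy.trans_le (min_le_left _ _)
      have hy2 : ‖z - y‖ < ε2 := hy.trans_le ((min_le_right _ _).trans (min_le_left _ _))
      have hy3 : ‖z - y‖ < ε3 := hy.trans_le ((min_le_right _ _).trans (min_le_right _ _))
      rw [mul_add, mul_add, Finset.mul_sum _ _ (om φ z), Finset.mul_sum _ _ η]
      refine (norm_add_le _ _).trans (add_le_add ?_ ((norm_sum_le _ _).trans
        (Finset.sum_le_sum fun j _ => ?_)))
      · have hzy := norm_sub_norm_le y z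
        have hzy' := norm_sub_norm_le z y
        rw [norm_sub_rev] at hzy
        by_cases h : y ∈ closedBall 0 (R + 1)
        · have h' : ‖y‖ ≤ R + 1 := by simpa using h
          have h3 := u1 () z y h' hy1
          rw [dist_comm, dist_eq_norm, le_div_iff₀ (by positivity)] at h3
          have h4 := hCo z (by simp; linarith)
          rw [indicator_of_mem h, hχ2 y h', norm_mul, one_mul]
          simp only [Pi.one_apply, mul_one]
          nlinarith [norm_nonneg (D y - D z)]
        · have h' : R + 1 < ‖y‖ := by simpa using h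
          rw [hR y (by linarith), hR z (by linarith), indicator_of_notMem h]
          simp
      · by_cases h : ‖y‖ ≤ max R' R''
        · have h3 := norm_om_omi (u3 () z y h hy3)
          have h4 : ‖χ y * (Φ j y - Φ j z)‖ ≤ η := by
            by_cases h' : ‖y‖ ≤ R'
            · have := u2 j z y h' hy2
              rw [dist_comm, dist_eq_norm] at this
              rw [norm_mul]
              nlinarith [hχ1 y, norm_nonneg (χ y), norm_nonneg (Φ j y - Φ j z)]
            · rw [hR' y (not_le.1 h')]; simpa using hη.le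
          have h5 := (norm_add_le _ _).trans (add_le_add h4 (hPχ (-I) (by simp) j y))
          calc _ = ‖om φ z * omi φ y‖ * ‖a j y‖ * ‖χ y * (Φ j y - Φ j z) + P (-I) j χ y‖ := by
                simp only [norm_mul]; ring
            _ ≤ 2 * ‖a j y‖ * (η + η) := by gcongr
            _ = _ := by ring
        · rw [not_le, max_lt_iff] at h
          rw [hR' y h.1, hPχ0 _ _ _ h.2]
          simp; positivity
  · refine fin (((hβ j).P I k).sub ((hβ k).P I j)) fun z => ⟨fun y =>
      a j y * omi φ y * P I k χ y - a k y * omi φ y * P I j χ y, ?_, fun y hy => ?_⟩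
    · have i1 : ∀ j k, Integrable (fun y => a j y * omi φ y * P I k χ y * (ρ (z - y) : ℂ)) := by
        intro j k
        simpa only [mul_assoc] using ((hχ.P I k).mul_right (hρ.tst_refl z).sm).integrable_mul (hA j)
      rw [hP, hP, h2 _ (hψ z) j k, sub_sub_sub_cancel_right, ← integral_sub (i1 j k) (i1 k j)]
      simp only [sub_mul]
    · have hy3 : ‖z - y‖ < ε3 := hy.trans_le ((min_le_right _ _).trans (min_le_right _ _))
      have h0 : ∀ j k, ‖om φ z * (a j y * omi φ y * P I k χ y)‖ ≤ η * (2 * ∑ j, ‖a j y‖) := by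
        intro j k
        by_cases h : ‖y‖ ≤ max R' R''
        · have h3 := norm_om_omi (u3 () z y h hy3)
          have h4 := hPχ I (by simp) k y
          have h5 : ‖a j y‖ ≤ ∑ j, ‖a j y‖ :=
            Finset.single_le_sum (f := fun j => ‖a j y‖) (fun _ _ => norm_nonneg _) (by simp)
          calc _ = ‖om φ z * omi φ y‖ * ‖a j y‖ * ‖P I k χ y‖ := by
                simp only [norm_mul]; ring
            _ ≤ 2 * (∑ j, ‖a j y‖) * η := by gcongr
            _ = _ := by ring
        · rw [not_le, max_lt_iff] at h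
          rw [hPχ0 _ _ _ h.2]
          simp; positivity
      rw [mul_sub, ← Finset.mul_sum]
      have h6 : 0 ≤ (closedBall (0 : ι → ℂ) (R + 1)).indicator (1 : (ι → ℂ) → ℝ) y :=
        indicator_nonneg (by simp) _
      have := (norm_sub_le _ _).trans (add_le_add (h0 j k) (h0 k j))
      nlinarith

omit hφ in
lemma norm_sq_le_of_enorm {x : H0 ι} {η : ℝ} {C : ℝ≥0∞} (hη : 0 < η) (hC : C < ⊤)
    (h : ‖x‖ₑ ^ 2 ≤ ENNReal.ofReal η ^ 2 * C) : ‖x‖ ^ 2 ≤ η ^ 2 * C.toReal := by
  have := ENNReal.toReal_mono (ENNReal.mul_ne_top (by simp) hC.ne) h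
  simpa [ENNReal.toReal_ofReal hη.le] using this

lemma est_test {g : (ι → ℂ) → ℂ} (hg : Tst g) {G : (ι → ℂ) → ℝ} (hG : Continuous G)
    (hGc : HasCompactSupport G)
    (h : ∀ z ξ : ι → ℂ, 2 * ‖∑ j, conj (P I j g z) * ξ j‖ ≤ G z + Levi φ z ξ)
    {β : ι → (ι → ℂ) → ℂ} (hβ : ∀ j, Tst (β j)) :
    2 * ‖⟪L φ g, L φ (fun z => ∑ j, del φ j (β j) z)⟫_ℂ‖ ≤ (∫ z, G z * Real.exp (-φ z)) +
      (‖L φ (fun z => ∑ j, del φ j (β j) z)‖ ^ 2 +
        ∑ j, ∑ k, ‖L φ (fun z => P I k (β j) z - P I j (β k) z)‖ ^ 2) := by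
  have hB : Tst (fun z => ∑ j, del φ j (β j) z) := Tst.sum _ fun j _ => (hβ j).del hφ j
  have hb := basic hφ hβ
  rw [← norm_L_sq hφ hB] at hb
  simp only [← norm_L_sq hφ (((hβ _).P I _).sub ((hβ _).P I _))] at hb
  refine le_trans ?_ (add_le_add_right hb _)
  have he : Continuous fun z => Real.exp (-φ z) := hφ.continuous.neg.rexp
  have i1 : Integrable fun z => G z * Real.exp (-φ z) :=
    (hG.mul he).integrable_of_hasCompactSupport hGc.mul_right
  have i2 : Integrable fun z => Levi φ z (fun j => β j z) * Real.exp (-φ z) := by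
    have := ((cont_Levi hφ hβ).mul_right (sm_Wt hφ)).integrable.re
    simpa only [Wt_eq, RCLike.re_to_complex, re_mul_ofReal, Levi] using this
  have t : ∀ j, Tst (fun z => β j z * conj (P I j g z) * Wt φ z) := fun j =>
    ((hβ j).mul_right (hg.sm.P I j).conj).mul_right (sm_Wt hφ)
  have e : ⟪L φ g, L φ (fun z => ∑ j, del φ j (β j) z)⟫_ℂ
      = - ∫ z, ∑ j, β j z * conj (P I j g z) * Wt φ z := by
    rw [inner_LL hφ hg hB, integral_finsetSum _ fun j _ => (t j).integrable,
      ← Finset.sum_neg_distrib]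
    simp only [Finset.sum_mul]
    rw [integral_finsetSum _ fun j _ =>
      ((((hβ j).del hφ j).mul_right hg.sm.conj).mul_right (sm_Wt hφ)).integrable]
    exact Finset.sum_congr rfl fun j _ => ibp hφ (hβ j) hg.sm j
  rw [e, norm_neg, ← integral_add i1 i2]
  have h1 := norm_integral_le_integral_norm (μ := volume)
    (fun z => ∑ j, β j z * conj (P I j g z) * Wt φ z)
  refine (mul_le_mul_of_nonneg_left h1 zero_le_two).trans ?_
  rw [← integral_const_mul]
  refine integral_mono (((Tst.sum _ fun j _ => t j).integrable.norm).const_mul _) (i1.add i2)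
    fun z => ?_
  simp only [← Finset.sum_mul, norm_mul, Wt_eq, norm_real, Real.norm_of_nonneg (Real.exp_pos _).le]
  have := h z (fun j => β j z)
  simp only [mul_comm (conj (P I _ g z))] at this
  nlinarith [Real.exp_pos (-φ z)]

theorem hormander_L2 {g : (ι → ℂ) → ℂ} (hg : Tst g) {G : (ι → ℂ) → ℝ} (hG : Continuous G)
    (hGc : HasCompactSupport G)
    (h : ∀ z ξ : ι → ℂ, 2 * ‖∑ j, conj (P I j g z) * ξ j‖ ≤ G z + Levi φ z ξ) :
    ∃ u : H0 ι, ‖u‖ ^ 2 ≤ ∫ z, G z * Real.exp (-φ z) ∧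
      ∀ ψ, Tst ψ → ∀ j, ∫ y, (g y - u y * omi φ y) * P I j ψ y = 0 := by
  have hB : ∀ {β : ι → (ι → ℂ) → ℂ}, (∀ j, Tst (β j)) → Tst (fun z => ∑ j, del φ j (β j) z) :=
    fun hβ => Tst.sum _ fun j _ => (hβ j).del hφ j
  let K : Submodule ℂ (H0 ι) :=
    { carrier := {r | ∃ β : ι → (ι → ℂ) → ℂ, (∀ j, Tst (β j)) ∧
        r = L φ (fun z => ∑ j, del φ j (β j) z)}
      add_mem' := by
        rintro _ _ ⟨β, hβ, rfl⟩ ⟨γ, hγ, rfl⟩
        refine ⟨fun j z => β j z + γ j z, fun j => (hβ j).add (hγ j), ?_⟩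
        rw [← L_add hφ (hB hβ) (hB hγ)]
        congr 1; funext z
        rw [← Finset.sum_add_distrib]
        refine Finset.sum_congr rfl fun j _ => ?_
        simp only [del, P_add ((hβ j).sm.dAt z) ((hγ j).sm.dAt z)]; ring
      zero_mem' := ⟨fun _ _ => 0, fun _ => Tst.zero, by
        have := L_smul hφ (Tst.zero (ι := ι)) 0
        simp only [del, P_const]
        simpa using this.symm⟩
      smul_mem' := by
        rintro c _ ⟨β, hβ, rfl⟩
        refine ⟨fun j z => c * β j z, fun j => (hβ j).mul_left contDiff_const, ?_⟩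
        rw [← L_smul hφ (hB hβ)]
        congr 1; funext z
        rw [Finset.mul_sum]
        refine Finset.sum_congr rfl fun j _ => ?_
        simp only [del, P_const_mul ((hβ j).sm.dAt z)]; ring }
  obtain ⟨u, hu1, hu2⟩ := proj2 K (L φ g) (∫ z, G z * Real.exp (-φ z)) (by
    rintro _ ⟨α, hα, rfl⟩
    obtain ⟨C, hC, hap⟩ := approx_aux hφ hα
    choose β hβ1 hβ2 hβ3 using fun n : ℕ => hap (1 / ((n : ℝ) + 1)) (by positivity)
    have t0 : Tendsto (fun n : ℕ => (1 / ((n : ℝ) + 1)) ^ 2 * C.toReal) atTop (𝓝 0) := by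
      simpa using (tendsto_one_div_add_atTop_nhds_zero_nat.pow 2).mul_const C.toReal
    have t1 : Tendsto (fun n => L φ (fun z => ∑ j, del φ j (β n j) z)) atTop
        (𝓝 (L φ (fun z => ∑ j, del φ j (α j) z))) := by
      rw [tendsto_iff_norm_sub_tendsto_zero]
      have := (squeeze_zero (fun n => sq_nonneg _)
        (fun n => norm_sq_le_of_enorm (by positivity) hC (hβ2 n)) t0).sqrt
      simpa using this
    have t2 : Tendsto (fun n => ∑ j, ∑ k,
        ‖L φ (fun z => P I k (β n j) z - P I j (β n k) z)‖ ^ 2) atTop (𝓝 0) := by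
      have := tendsto_finsetSum Finset.univ fun j _ => tendsto_finsetSum Finset.univ fun k _ =>
        squeeze_zero (fun n => sq_nonneg _)
          (fun n => norm_sq_le_of_enorm (by positivity) hC (hβ3 n j k)) t0
      simpa using this
    have := le_of_tendsto_of_tendsto'
      (((tendsto_const_nhds (x := L φ g)).inner (𝕜 := ℂ) t1).norm.const_mul 2)
      (((t1.norm.pow 2).add t2).const_add _) fun n => est_test hφ hg hG hGc h (hβ1 n)
    simpa using this)
  refine ⟨u, hu1, fun ψ hψ j => ?_⟩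
  have hi := (sm_omi hφ).mul (sm_omi hφ)
  have hb : Tst (fun z => conj (ψ z) * (omi φ z * omi φ z)) := hψ.conj.mul_right hi
  have hβ : ∀ k, Tst ((Pi.single j (fun z => conj (ψ z) * (omi φ z * omi φ z)) :
      ι → (ι → ℂ) → ℂ) k) := by
    intro k
    by_cases hk : k = j
    · subst hk; simpa using hb
    · rw [Pi.single_eq_of_ne hk]; exact Tst.zero
  have h1 := hu2 _ ⟨_, hβ, rfl⟩
  have e : (fun z => ∑ k, del φ k ((Pi.single j (fun z => conj (ψ z) * (omi φ z * omi φ z)) :
      ι → (ι → ℂ) → ℂ) k) z) = fun z => conj (P I j ψ z) * (omi φ z * omi φ z) := by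
    funext z
    rw [Finset.sum_eq_single j]
    · simp only [Pi.single_eq_same, del]
      rw [P_mul (hψ.sm.conj.dAt z) (Sm.dAt hi z), P_omi2 hφ, P_conj_negI]
      ring
    · intro k _ hk
      simp only [Pi.single_eq_of_ne hk, del]
      have : (0 : (ι → ℂ) → ℂ) = fun _ => 0 := rfl
      rw [this, P_const]; simp
    · simp
  have ht : Tst fun z => conj (P I j ψ z) * (omi φ z * omi φ z) := (hψ.P I j).conj.mul_right hi
  rw [e, inner_LL hφ ht hg, inner_L hφ ht] at h1
  simp only [sub_mul]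
  rw [integral_sub ((hg.mul_right (hψ.sm.P I j)).integrable)
    ((hψ.P I j).integrable_mul (locInt_mul (Lp.memLp u) (sm_omi hφ).continuous)), sub_eq_zero]
  simp only [map_mul, conj_conj, conj_omi, ← om_om] at h1
  refine Eq.trans ?_ (h1.trans ?_)
  · congr 1; funext y
    linear_combination (-(g y * P I j ψ y * (om φ y * omi φ y + 1))) * om_omi (φ := φ) y
  · congr 1; funext y
    linear_combination (u y * omi φ y * P I j ψ y) * om_omi (φ := φ) y

end Pool.Agent.Lib.MP_bc3ae6_ag
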