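import Mathlib

set_option autoImplicit false
set_option linter.unusedSectionVars false

/-! Product measures: conditioning on one coordinate, permutations, nets. -/

namespace Pool.Agent.Lib.MP_bc3ae6_ag

open MeasureTheory Function Set
open scoped ENNReal

variable {Y : Type*} [MeasurableSpace Y] {μ : Measure Y} {ι : Type} [Fintype ι] [DecidableEq ι]

lemma meas_upd [SFinite μ] {F : (ι → Y) → ℝ≥0∞} (hF : Measurable F) (i : ι) :
    Measurable fun x => ∫⁻ y, F (update x i y) ∂μ :=
  Measurable.lintegral_prod_right (f := fun x y => F (update x i y)) (hF.comp measurable_update')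

lemma lint_upd [IsProbabilityMeasure μ] {F : (ι → Y) → ℝ≥0∞} (hF : Measurable F) (i : ι) :
    ∫⁻ x, ∫⁻ y, F (update x i y) ∂μ ∂(Measure.pi fun _ => μ)
      = ∫⁻ x, F x ∂(Measure.pi fun _ => μ) := by
  refine lintegral_eq_of_lmarginal_eq {i} (meas_upd hF i) hF ?_
  rw [lmarginal_singleton, lmarginal_singleton]
  funext x
  simp

lemma lint_upd' [IsProbabilityMeasure μ] {F : (ι → Y) → ℝ≥0∞} (hF : Measurable F) (i : ι) :
    ∫⁻ y, ∫⁻ x, F (update x i y) ∂(Measure.pi fun _ => μ) ∂μ
      = ∫⁻ x, F x ∂(Measure.pi fun _ => μ) := by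
  rw [← lint_upd hF i, lintegral_lintegral_swap]
  exact (hF.comp (measurable_update'.comp measurable_swap)).aemeasurable

lemma lint_seq [IsProbabilityMeasure μ] {N : ℕ} {f : Fin N → (Fin N → Y) → ℝ≥0∞}
    (hf : ∀ j, Measurable (f j)) (h1 : ∀ j i x y, j < i → f j (update x i y) = f j x) {C : ℝ≥0∞}
    (h2 : ∀ j x, ∫⁻ y, f j (update x j y) ∂μ ≤ C) :
    ∫⁻ x, ∏ j, f j x ∂(Measure.pi fun _ => μ) ≤ C ^ N := by
  have key : ∀ k, k ≤ N → ∫⁻ x, ∏ j ∈ Finset.univ.filter (fun j : Fin N => j.val < k), f j x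
      ∂(Measure.pi fun _ => μ) ≤ C ^ k := by
    intro k
    induction k with
    | zero => simp
    | succ k ih =>
      intro hk
      have e : Finset.univ.filter (fun j : Fin N => j.val < k + 1)
          = insert ⟨k, hk⟩ (Finset.univ.filter (fun j : Fin N => j.val < k)) := by
        ext j; simp [Fin.ext_iff]; omega
      have hm : Measurable fun x => ∏ j ∈ Finset.univ.filter (fun j : Fin N => j.val < k), f j x :=
        Finset.measurable_prod _ fun j _ => hf j
      simp only [e]
      rw [← lint_upd (Finset.measurable_prod _ fun j _ => hf j) ⟨k, hk⟩]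
      calc _ ≤ ∫⁻ x, C * ∏ j ∈ Finset.univ.filter (fun j : Fin N => j.val < k), f j x
            ∂(Measure.pi fun _ => μ) := by
            refine lintegral_mono fun x => ?_
            have e2 : ∀ y, ∏ j ∈ insert ⟨k, hk⟩ (Finset.univ.filter (fun j : Fin N => j.val < k)),
                f j (update x ⟨k, hk⟩ y) = f ⟨k, hk⟩ (update x ⟨k, hk⟩ y) *
                  ∏ j ∈ Finset.univ.filter (fun j : Fin N => j.val < k), f j x := by
              intro y
              rw [Finset.prod_insert (by simp)]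
              congr 1
              refine Finset.prod_congr rfl fun j hj => h1 _ _ _ _ ?_
              simpa [Fin.lt_def] using hj
            simp only [e2]
            have hm2 : Measurable fun y => f ⟨k, hk⟩ (update x ⟨k, hk⟩ y) :=
              (hf _).comp (measurable_update x)
            rw [lintegral_mul_const _ hm2]
            gcongr
            exact h2 _ _
        _ ≤ _ := by
            rw [lintegral_const_mul _ hm, pow_succ']
            gcongr
            exact ih (by omega)
  simpa using key N le_rfl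

lemma lint_perm [SigmaFinite μ] {F : (ι → Y) → ℝ≥0∞} (hF : Measurable F) (σ : Equiv.Perm ι) :
    ∫⁻ x, F (fun i => x (σ i)) ∂(Measure.pi fun _ => μ) = ∫⁻ x, F x ∂(Measure.pi fun _ => μ) := by
  have h := (measurePreserving_piCongrLeft (fun _ : ι => μ) σ.symm).lintegral_comp hF
  rw [← h]
  congr 1; funext x
  congr 1; funext i
  simp [MeasurableEquiv.coe_piCongrLeft, Equiv.piCongrLeft_apply_eq_cast]

lemma pi_smul_meas [IsFiniteMeasure μ] {c : ℝ≥0∞} (hc : c ≠ ⊤) :
    (Measure.pi fun _ : ι => c • μ) = c ^ Fintype.card ι • Measure.pi fun _ : ι => μ := by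
  have : IsFiniteMeasure (c • μ) := μ.smul_finite hc
  refine Measure.pi_eq fun s _ => ?_
  simp [Measure.pi_pi, Finset.prod_mul_distrib]

lemma meas_pi_finset [IsProbabilityMeasure μ] (T : Finset ι) (A : Set Y) :
    (Measure.pi fun _ : ι => μ) {x | ∀ i ∈ T, x i ∈ A} = μ A ^ T.card := by
  have : {x : ι → Y | ∀ i ∈ T, x i ∈ A} = Set.pi univ fun i => if i ∈ T then A else univ := by
    ext x
    simp only [mem_ofPred_eq, mem_pi, mem_univ, true_imp_iff]
    refine forall_congr' fun i => ?_
    split_ifs with h <;> simp [h]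
  rw [this, Measure.pi_pi]
  simp [apply_ite μ]

lemma exists_net (R : ℝ) {η : ℝ} (hη : 0 < η) :
    ∃ Γ : Finset (ι → ℂ), (Γ.card : ℝ) ≤ (4 * |R| / η + 3) ^ (2 * Fintype.card ι) ∧
      ∀ w : ι → ℂ, ‖w‖ ≤ R → ∃ g ∈ Γ, ‖w - g‖ ≤ η := by
  classical
  let K : ℕ := ⌈2 * |R| / η⌉₊
  let A : Finset ℤ := Finset.Icc (-(K : ℤ)) K
  let emb : ℤ × ℤ → ℂ := fun p => ⟨p.1 * (η / 2), p.2 * (η / 2)⟩
  refine ⟨Fintype.piFinset fun _ => (A ×ˢ A).image emb, ?_, fun w hw => ?_⟩
  · rw [Fintype.card_piFinset, Finset.prod_const, Finset.card_univ, pow_mul]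
    push_cast
    gcongr
    have h1 : (A.card : ℝ) ≤ 4 * |R| / η + 3 := by
      have : A.card = 2 * K + 1 := by simp only [A, Int.card_Icc]; omega
      rw [this]
      have := Nat.ceil_lt_add_one (a := 2 * |R| / η) (by positivity)
      push_cast
      have e : 4 * |R| / η = 2 * (2 * |R| / η) := by ring
      rw [e]; linarith
    calc _ ≤ ((A ×ˢ A).card : ℝ) := by exact_mod_cast Finset.card_image_le
      _ = (A.card : ℝ) ^ 2 := by rw [Finset.card_product]; push_cast; ring
      _ ≤ _ := by gcongr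
  · have h : ∀ t : ℝ, |t| ≤ R → ∃ a ∈ A, |t - a * (η / 2)| ≤ η / 2 := by
      intro t ht
      have h0 := Nat.le_ceil (2 * |R| / η)
      have h1 : |t / (η / 2)| ≤ K := by
        rw [abs_div, abs_of_pos (half_pos hη)]
        refine le_trans ?_ h0
        rw [div_le_div_iff₀ (half_pos hη) hη]
        nlinarith [le_abs_self R]
      rw [abs_le] at h1
      refine ⟨⌊t / (η / 2)⌋, ?_, ?_⟩
      · simp only [A, Finset.mem_Icc]
        constructor
        · exact Int.le_floor.2 (by exact_mod_cast h1.1)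
        · exact Int.floor_le_iff.2 (by push_cast; linarith [h1.2])
      · have h2 := Int.floor_le (t / (η / 2))
        have h3 := Int.lt_floor_add_one (t / (η / 2))
        rw [le_div_iff₀ (half_pos hη)] at h2
        rw [div_lt_iff₀ (half_pos hη)] at h3
        rw [abs_le]; constructor <;> linarith
    have h' : ∀ i, ∃ g ∈ (A ×ˢ A).image emb, ‖w i - g‖ ≤ η := by
      intro i
      have hi := (norm_le_pi_norm w i).trans hw
      obtain ⟨a, ha, ha'⟩ := h _ ((Complex.abs_re_le_norm (w i)).trans hi)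
      obtain ⟨b, hb, hb'⟩ := h _ ((Complex.abs_im_le_norm (w i)).trans hi)
      refine ⟨emb (a, b), Finset.mem_image_of_mem _ (Finset.mem_product.2 ⟨ha, hb⟩), ?_⟩
      refine (Complex.norm_le_abs_re_add_abs_im _).trans ?_
      simp only [emb, Complex.sub_re, Complex.sub_im]
      linarith
    choose g hg hg' using h'
    exact ⟨g, Fintype.mem_piFinset.2 hg, (pi_norm_le_iff_of_nonneg hη.le).2 hg'⟩

end Pool.Agent.Lib.MP_bc3ae6_ag
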