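import Pool.Agent.Lib.MP_bc3ae6_ag.Kq
import Pool.Agent.Lib.MP_bc3ae6_ag.Seq

set_option autoImplicit false
set_option linter.unusedSectionVars false

/-! Bergman type approximation of the conditional densities. -/

namespace Pool.Agent.Lib.MP_bc3ae6_ag

open MeasureTheory Function Set Matrix Complex
open scoped ENNReal ComplexOrder ComplexConjugate

variable {Y : Type*} [MeasurableSpace Y] (μ : Measure Y) {N : ℕ} (v : Y → Fin N → ℂ)
  {κ : Type} [Fintype κ] [DecidableEq κ] (u : Y → κ → ℂ) (β ε : ℝ)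

/-- Initial segments. -/
def Is (N k : ℕ) : Finset (Fin N) := Finset.univ.filter fun i => i.val < k

/-- Conditional density. -/
noncomputable def rS (x : Fin N → Y) (S : Finset (Fin N)) (y : Y) : ℝ :=
  rho ε (fun j => v (x j)) S (v y)

/-- Gram matrix of the approximating space. -/
noncomputable def HH (x : Fin N → Y) (S : Finset (Fin N)) : Matrix κ κ ℂ :=
  1 + Matrix.of fun i j => ∫ y, ((rS v ε x S y ^ (-β) : ℝ) : ℂ) * (u y i * conj (u y j)) ∂μ

/-- Bergman function of the approximating space. -/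
noncomputable def KH (x : Fin N → Y) (S : Finset (Fin N)) (y : Y) : ℝ :=
  Kq (HH μ v u β ε x S) (u y)

/-- Standing assumptions. -/
structure JD (Cu : ℝ) : Prop where
  hv : ∀ i, Measurable fun y => v y i
  hu : ∀ i, Measurable fun y => u y i
  hub : ∀ y i, ‖u y i‖ ≤ Cu
  hu0 : ∀ y, u y ≠ 0
  hβ : 0 < β
  hε : 0 < ε

lemma Is_mono {k l : ℕ} (h : k ≤ l) : Is N k ⊆ Is N l := by
  intro i; simp only [Is, Finset.mem_filter, Finset.mem_univ, true_and]; omega

lemma rS_congr {x x' : Fin N → Y} {S : Finset (Fin N)} (h : ∀ j ∈ S, x j = x' j) :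
    rS v ε x S = rS v ε x' S := by
  funext y
  simp only [rS, rho, Gm]
  rw [Finset.sum_congr rfl fun j hj => by rw [h j hj]]

lemma KH_congr {x x' : Fin N → Y} {S : Finset (Fin N)} (h : ∀ j ∈ S, x j = x' j) :
    KH μ v u β ε x S = KH μ v u β ε x' S := by
  funext y
  simp only [KH, HH, rS_congr v ε h]

lemma rS_perm (x : Fin N → Y) (σ : Equiv.Perm (Fin N)) (S : Finset (Fin N)) :
    rS v ε (fun i => x (σ i)) S = rS v ε x (S.image σ) := by
  funext y
  exact rho_congr ε (fun j => v (x j)) σ σ.injective.injOn _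

lemma KH_perm (x : Fin N → Y) (σ : Equiv.Perm (Fin N)) (S : Finset (Fin N)) :
    KH μ v u β ε (fun i => x (σ i)) S = KH μ v u β ε x (S.image σ) := by
  funext y
  simp only [KH, HH, rS_perm]

variable {μ v u β ε} [IsProbabilityMeasure μ] {Cu : ℝ} (h : JD v u β ε Cu)
include h

lemma JD.meas_Gm {α : Type*} [MeasurableSpace α] {x : α → Fin N → Y} (hx : Measurable x)
    (S : Finset (Fin N)) (i j : Fin N) : Measurable fun a => Gm ε (fun j => v (x a j)) S i j := by
  simp only [Gm, Matrix.add_apply, Matrix.sum_apply, vecMulVec_apply, Pi.star_apply]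
  refine measurable_const.add (Finset.measurable_sum _ fun k _ => ?_)
  have : Measurable fun a => x a k := (measurable_pi_apply k).comp hx
  exact ((h.hv i).comp this).mul (continuous_star.measurable.comp ((h.hv j).comp this))

lemma JD.meas_rS {α : Type*} [MeasurableSpace α] {x : α → Fin N → Y} {y : α → Y}
    (hx : Measurable x) (hy : Measurable y) (S : Finset (Fin N)) :
    Measurable fun a => rS v ε (x a) S (y a) :=
  (measurable_const.add (meas_Kq (h.meas_Gm hx S) fun i => (h.hv i).comp hy)).const_mul _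

lemma JD.rS_pos (x : Fin N → Y) (S : Finset (Fin N)) (y : Y) : 0 < rS v ε x S y :=
  rho_pos h.hε _ _ _

lemma JD.w_le (x : Fin N → Y) (S : Finset (Fin N)) (y : Y) : rS v ε x S y ^ (-β) ≤ ε ^ (-β) :=
  Real.rpow_le_rpow_of_nonpos h.hε (le_rho h.hε _ _ _) (by linarith [h.hβ])

lemma JD.w_pos (x : Fin N → Y) (S : Finset (Fin N)) (y : Y) : 0 < rS v ε x S y ^ (-β) :=
  Real.rpow_pos_of_pos (h.rS_pos x S y) _

lemma JD.w_mono (x : Fin N → Y) {S T : Finset (Fin N)} (hS : S ⊆ T) (y : Y) :
    rS v ε x S y ^ (-β) ≤ rS v ε x T y ^ (-β) :=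
  Real.rpow_le_rpow_of_nonpos (h.rS_pos x T y) (rho_anti h.hε _ hS _) (by linarith [h.hβ])

lemma JD.meas_w (x : Fin N → Y) (S : Finset (Fin N)) : Measurable fun y => rS v ε x S y ^ (-β) :=
  (h.meas_rS measurable_const measurable_id S).pow_const _

lemma JD.int_w (x : Fin N → Y) (S : Finset (Fin N)) :
    Integrable (fun y => rS v ε x S y ^ (-β)) μ :=
  Integrable.of_bound (h.meas_w x S).aestronglyMeasurable (ε ^ (-β))
    (Filter.Eventually.of_forall fun y => by
      rw [Real.norm_of_nonneg (h.w_pos x S y).le]; exact h.w_le x S y)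

lemma JD.norm_uu (y : Y) (i j : κ) : ‖u y i * conj (u y j)‖ ≤ Cu ^ 2 := by
  rw [norm_mul, RCLike.norm_conj, sq]
  exact mul_le_mul (h.hub y i) (h.hub y j) (norm_nonneg _) ((norm_nonneg _).trans (h.hub y i))

lemma JD.int_uu (x : Fin N → Y) (S : Finset (Fin N)) (i j : κ) :
    Integrable (fun y => ((rS v ε x S y ^ (-β) : ℝ) : ℂ) * (u y i * conj (u y j))) μ :=
  (h.int_w x S).ofReal.mul_bdd (c := Cu ^ 2)
    ((h.hu i).mul (continuous_star.measurable.comp (h.hu j))).aestronglyMeasurable
    (Filter.Eventually.of_forall fun y => h.norm_uu y i j)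

lemma JD.meas_HH {α : Type*} [MeasurableSpace α] {x : α → Fin N → Y} (hx : Measurable x)
    (S : Finset (Fin N)) (i j : κ) : Measurable fun a => HH μ v u β ε (x a) S i j := by
  simp only [HH, Matrix.add_apply, of_apply]
  refine measurable_const.add ?_
  refine (StronglyMeasurable.integral_prod_right (f := fun a y =>
    ((rS v ε (x a) S y ^ (-β) : ℝ) : ℂ) * (u y i * conj (u y j))) ?_).measurable
  refine Measurable.stronglyMeasurable ?_
  exact (measurable_ofReal.comp ((h.meas_rS (hx.comp measurable_fst) measurable_snd S).pow_const _)).mul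
    (((h.hu i).comp measurable_snd).mul
      (continuous_star.measurable.comp ((h.hu j).comp measurable_snd)))

lemma JD.meas_KH {α : Type*} [MeasurableSpace α] {x : α → Fin N → Y} {y : α → Y}
    (hx : Measurable x) (hy : Measurable y) (S : Finset (Fin N)) :
    Measurable fun a => KH μ v u β ε (x a) S (y a) :=
  meas_Kq (h.meas_HH hx S) fun i => (h.hu i).comp hy

lemma JD.dot_HH (x : Fin N → Y) (S : Finset (Fin N)) (A : Matrix κ κ ℂ) :
    ∑ i, ∑ j, A j i * HH μ v u β ε x S i j = A.trace +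
      ∫ y, ((rS v ε x S y ^ (-β) : ℝ) : ℂ) * (star (u y) ⬝ᵥ A *ᵥ u y) ∂μ := by
  simp only [HH, Matrix.add_apply, of_apply, mul_add, Finset.sum_add_distrib]
  congr 1
  · simp [Matrix.one_apply, Matrix.trace]
  · simp only [← integral_const_mul]
    rw [Finset.sum_congr rfl fun i _ =>
        (integral_finsetSum _ fun j _ => (h.int_uu x S i j).const_mul (A j i)).symm,
      ← integral_finsetSum _ fun i _ =>
        integrable_finsetSum _ fun j _ => (h.int_uu x S i j).const_mul (A j i)]
    congr 1; funext y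
    simp only [dotProduct, mulVec, Finset.mul_sum, Pi.star_apply, star_def]
    rw [Finset.sum_comm]
    exact Finset.sum_congr rfl fun i _ => Finset.sum_congr rfl fun j _ => by ring

lemma JD.int_p (x : Fin N → Y) (S : Finset (Fin N)) (c : κ → ℂ) :
    Integrable (fun y => rS v ε x S y ^ (-β) * ‖star (u y) ⬝ᵥ c‖ ^ 2) μ := by
  refine (h.int_w x S).mul_bdd (c := Fintype.card κ * Cu ^ 2 * nsq c) ?_
    (Filter.Eventually.of_forall fun y => ?_)
  · exact ((Finset.measurable_sum _ fun i _ =>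
      (continuous_star.measurable.comp (h.hu i)).mul_const _).norm.pow_const 2).aestronglyMeasurable
  · rw [Real.norm_of_nonneg (sq_nonneg _)]
    refine (dot_cs _ _).trans (mul_le_mul_of_nonneg_right ?_ (nsq_nonneg c))
    have := Finset.sum_le_card_nsmul Finset.univ (fun i => ‖u y i‖ ^ 2) (Cu ^ 2)
      fun i _ => pow_le_pow_left₀ (norm_nonneg _) (h.hub y i) 2
    simpa [nsq] using this

lemma JD.dot_HH' (x : Fin N → Y) (S : Finset (Fin N)) (c : κ → ℂ) :
    star c ⬝ᵥ HH μ v u β ε x S *ᵥ c =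
      ((nsq c + ∫ y, rS v ε x S y ^ (-β) * ‖star (u y) ⬝ᵥ c‖ ^ 2 ∂μ : ℝ) : ℂ) := by
  have := h.dot_HH (μ := μ) x S (vecMulVec c (star c))
  rw [trace_vecMulVec, dotProduct_comm, star_dot_self] at this
  rw [ofReal_add, ← integral_complex_ofReal]
  refine Eq.trans ?_ (this.trans ?_)
  · simp only [dotProduct, mulVec, Finset.mul_sum, vecMulVec_apply]
    exact Finset.sum_congr rfl fun i _ => Finset.sum_congr rfl fun j _ => by ring
  · congr 2; funext y
    rw [← Qf_coe (posSemidef_vecMulVec_self_star c), Qf_vecMulVec, star_dotProduct, norm_star]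
    push_cast; rfl

lemma JD.Qf_HH (x : Fin N → Y) (S : Finset (Fin N)) (c : κ → ℂ) :
    Qf (HH μ v u β ε x S) c = nsq c + ∫ y, rS v ε x S y ^ (-β) * ‖star (u y) ⬝ᵥ c‖ ^ 2 ∂μ := by
  rw [Qf, h.dot_HH', ofReal_re]

lemma JD.nsq_le (x : Fin N → Y) (S : Finset (Fin N)) (c : κ → ℂ) :
    nsq c ≤ Qf (HH μ v u β ε x S) c := by
  rw [h.Qf_HH]
  exact le_add_of_nonneg_right (integral_nonneg fun y => mul_nonneg (h.w_pos x S y).le (sq_nonneg _))

lemma JD.posDef (x : Fin N → Y) (S : Finset (Fin N)) : (HH μ v u β ε x S).PosDef := by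
  refine PosDef.of_dotProduct_mulVec_pos ?_ fun c hc => ?_
  · refine isHermitian_one.add ?_
    ext i j
    simp only [conjTranspose_apply, of_apply, star_def, ← integral_conj, map_mul, conj_ofReal,
      conj_conj, mul_comm (u _ i)]
  · rw [h.dot_HH', ← h.Qf_HH]
    have h1 : 0 < nsq c := by
      have := Kq_pos (PosDef.one (n := κ) (R := ℂ)) hc
      rwa [Kq, inv_one, Qf_one] at this
    exact_mod_cast h1.trans_le (h.nsq_le x S c)

lemma JD.KH_pos (x : Fin N → Y) (S : Finset (Fin N)) (y : Y) : 0 < KH μ v u β ε x S y :=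
  Kq_pos (h.posDef x S) (h.hu0 y)

lemma JD.KH_anti (x : Fin N → Y) {S T : Finset (Fin N)} (hS : S ⊆ T) (y : Y) :
    KH μ v u β ε x T y ≤ KH μ v u β ε x S y := by
  have := Kq_mono (h.posDef (μ := μ) x S) (h.posDef (μ := μ) x T) zero_le_one (fun c => by
    rw [one_mul, h.Qf_HH, h.Qf_HH]
    refine add_le_add_right (integral_mono (h.int_p x S c) (h.int_p x T c) fun y => ?_) _
    exact mul_le_mul_of_nonneg_right (h.w_mono x hS y) (sq_nonneg _)) (u y)
  rwa [one_mul] at this

lemma JD.KH_close {x x' : Fin N → Y} {S : Finset (Fin N)} {η : ℝ} (hη : η * Fintype.card κ ≤ 1)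
    (hx : ∀ i j, ‖HH μ v u β ε x S i j - HH μ v u β ε x' S i j‖ ≤ η) (y : Y) :
    KH μ v u β ε x' S y ≤ 2 * KH μ v u β ε x S y := by
  refine Kq_mono (h.posDef x S) (h.posDef x' S) zero_le_two (fun c => ?_) _
  have h1 := Qf_le_of_entries (D := HH μ v u β ε x S - HH μ v u β ε x' S) hx c
  have h2 := Qf_add (HH μ v u β ε x S - HH μ v u β ε x' S) (HH μ v u β ε x' S) c
  rw [sub_add_cancel] at h2
  have h3 := h.nsq_le (μ := μ) x' S c
  nlinarith [nsq_nonneg c]

lemma JD.norm_HH (x : Fin N → Y) (S : Finset (Fin N)) (i j : κ) :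
    ‖HH μ v u β ε x S i j‖ ≤ 1 + Cu ^ 2 * ∫ y, rS v ε x S y ^ (-β) ∂μ := by
  simp only [HH, Matrix.add_apply, of_apply]
  refine (norm_add_le _ _).trans (add_le_add ?_ ?_)
  · rw [Matrix.one_apply]; split_ifs <;> simp
  · rw [← integral_const_mul]
    refine norm_integral_le_of_norm_le ((h.int_w x S).const_mul _)
      (Filter.Eventually.of_forall fun y => ?_)
    rw [norm_mul, norm_real, Real.norm_of_nonneg (h.w_pos x S y).le, mul_comm]
    exact mul_le_mul_of_nonneg_right (h.norm_uu y i j) (h.w_pos x S y).le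

lemma JD.lint_KH (x : Fin N → Y) (S : Finset (Fin N)) :
    ∫⁻ y, ENNReal.ofReal (1 + KH μ v u β ε x S y * rS v ε x S y ^ (-β)) ∂μ
      ≤ ENNReal.ofReal (1 + Fintype.card κ) := by
  have hp := h.posDef (μ := μ) x S
  have h1 := h.dot_HH (μ := μ) x S (HH μ v u β ε x S)⁻¹
  have h2 : ∑ i, ∑ j, (HH μ v u β ε x S)⁻¹ j i * HH μ v u β ε x S i j = Fintype.card κ := by
    rw [Finset.sum_comm]
    simp only [← Matrix.mul_apply, nonsing_inv_mul _ ((isUnit_iff_isUnit_det _).1 hp.isUnit)]
    simp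
  simp only [h2, ← Qf_coe hp.inv.posSemidef, ← ofReal_mul, integral_complex_ofReal] at h1
  have h3 := hp.inv.posSemidef.trace_nonneg
  have h4 := congrArg re h1
  rw [Complex.le_def] at h3
  simp only [natCast_re, add_re, ofReal_re, zero_re] at h3 h4
  have hi : Integrable (fun y => KH μ v u β ε x S y * rS v ε x S y ^ (-β)) μ := by
    refine (h.int_w x S).bdd_mul (c := Fintype.card κ * Cu ^ 2)
      (h.meas_KH measurable_const measurable_id S).aestronglyMeasurable
      (Filter.Eventually.of_forall fun y => ?_)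
    rw [Real.norm_of_nonneg (h.KH_pos x S y).le]
    have := Kq_mono PosDef.one hp zero_le_one (fun c => by
      rw [Qf_one, one_mul]; exact h.nsq_le x S c) (u y)
    rw [one_mul, Kq.eq_1 1, inv_one, Qf_one] at this
    refine this.trans ?_
    have := Finset.sum_le_card_nsmul Finset.univ (fun i => ‖u y i‖ ^ 2) (Cu ^ 2)
      fun i _ => pow_le_pow_left₀ (norm_nonneg _) (h.hub y i) 2
    simpa [nsq] using this
  have hi2 : Integrable (fun y => 1 + KH μ v u β ε x S y * rS v ε x S y ^ (-β)) μ :=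
    (integrable_const 1).add hi
  rw [← ofReal_integral_eq_lintegral_ofReal hi2
    (Filter.Eventually.of_forall fun y => add_nonneg zero_le_one
      (mul_nonneg (h.KH_pos x S y).le (h.w_pos x S y).le))]
  refine ENNReal.ofReal_le_ofReal ?_
  rw [integral_add (integrable_const 1) hi]
  simp only [KH, Kq, mul_comm (Qf _ _)]
  simp only [integral_const, probReal_univ, smul_eq_mul, mul_one]
  linarith [h3.1]

lemma JD.log_det (x : Fin N → Y) :
    Real.log ‖(Gm ε (fun j => v (x j)) Finset.univ).det‖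
      = ∑ j : Fin N, Real.log (rS v ε x (Is N j) (x j)) := by
  have key : ∀ k, k ≤ N → (ε : ℂ) ^ k * (Gm ε (fun j => v (x j)) (Is N k)).det
      = (ε : ℂ) ^ N * ∏ j ∈ Is N k, (rS v ε x (Is N j) (x j) : ℂ) := by
    intro k
    induction k with
    | zero => simp [Is, Gm]
    | succ k ih =>
      intro hk
      have e : Is N (k + 1) = insert ⟨k, hk⟩ (Is N k) := by
        ext j; simp [Is, Fin.ext_iff]; omega
      have hn : (⟨k, hk⟩ : Fin N) ∉ Is N k := by simp [Is]
      rw [e, Finset.prod_insert hn, pow_succ, mul_assoc, det_Gm_insert h.hε _ hn, ← mul_assoc,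
        ih (by omega), rS]
      ring
  have h1 := key N le_rfl
  have e : Is N N = Finset.univ := by ext j; simp [Is]
  rw [e] at h1
  have h2 := mul_left_cancel₀ (pow_ne_zero N (by exact_mod_cast h.hε.ne' : (ε : ℂ) ≠ 0)) h1
  rw [h2, norm_prod, Real.log_prod fun j _ => by simpa using (h.rS_pos x _ _).ne']
  refine Finset.sum_congr rfl fun j _ => ?_
  rw [norm_real, Real.norm_of_nonneg (h.rS_pos x _ _).le]

end Pool.Agent.Lib.MP_bc3ae6_ag
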