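import Pool.Agent.Lib.MP_bc3ae6_ag.J1

set_option autoImplicit false
set_option linter.unusedSectionVars false

/-! The symmetrisation step and the error terms. -/

namespace Pool.Agent.Lib.MP_bc3ae6_ag

open MeasureTheory Function Set Matrix Complex
open scoped ENNReal ComplexOrder ComplexConjugate

variable {Y : Type*} [MeasurableSpace Y] {μ : Measure Y} {N : ℕ} {v : Y → Fin (N + 1) → ℂ}
  {κ : Type} [Fintype κ] [DecidableEq κ] {u : Y → κ → ℂ} {β ε : ℝ}

/-- End of the block containing `j`. -/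
def jk (N n0 k : ℕ) : ℕ := min N ((k + 1) * n0)

lemma lt_jk {n0 j : ℕ} (hn : 0 < n0) (hj : j < N) : j + 1 ≤ jk N n0 (j / n0) := by
  have := Nat.lt_div_mul_add (a := j) hn
  rw [jk, le_min_iff, add_mul, one_mul]
  omega

lemma jk_le {n0 j : ℕ} : jk N n0 (j / n0) ≤ min N (j + n0) := by
  have := Nat.div_mul_le_self j n0
  rw [jk, add_mul, one_mul]
  omega

lemma exp_add_le {a b c p q : ℝ} (hp : 0 < p) (hq : 0 < q) (h : 2 / p + 1 / q = 1) :
    Real.exp (a + b + c) ≤ Real.exp (p * a) + Real.exp (p * b) + Real.exp (q * c) := by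
  have h1 := Real.exp_pos (p * a)
  have h2 := Real.exp_pos (p * b)
  have h3 := Real.exp_pos (q * c)
  by_contra hc
  push Not at hc
  have e1 : p * a < a + b + c := Real.exp_lt_exp.1 (by linarith)
  have e2 : p * b < a + b + c := Real.exp_lt_exp.1 (by linarith)
  have e3 : q * c < a + b + c := Real.exp_lt_exp.1 (by linarith)
  rw [← lt_div_iff₀' hp] at e1 e2
  rw [← lt_div_iff₀' hq] at e3
  have : (a + b + c) / p + (a + b + c) / p + (a + b + c) / q = (2 / p + 1 / q) * (a + b + c) := by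
    ring
  rw [h] at this
  linarith

lemma rpow_le_one_add {a t : ℝ} (ha : 0 ≤ a) (h0 : 0 ≤ t) (h1 : t ≤ 1) : a ^ t ≤ 1 + a := by
  rcases le_total a 1 with h | h
  · linarith [Real.rpow_le_one ha h h0]
  · have := Real.rpow_le_rpow_of_exponent_le h h1
    rw [Real.rpow_one] at this
    linarith

variable (μ v u β ε) in
/-- The main term. -/
noncomputable def Gam (n0 : ℕ) (e : ℝ) (x : Fin (N + 1) → Y) (y : Y) : ℝ :=
  ∏ j : Fin N, KH μ v u β ε x (Is (N + 1) (jk N n0 (j / n0))) y ^ (-e)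

variable (μ v u β ε) in
/-- The majorant. -/
noncomputable def Maj (n0 : ℕ) (e : ℝ) (x : Fin (N + 1) → Y) : ℝ :=
  (∏ j : Fin (N + 1), (1 + KH μ v u β ε x (Is (N + 1) j) (x j) * rS v ε x (Is (N + 1) j) (x j) ^ (-β)))
    + (1 + rS v ε x (Is (N + 1) N) (x (Fin.last N)) ^ (-β)) + ∏ p, Gam μ v u β ε n0 e x (x p)

variable [IsProbabilityMeasure μ] {Cu : ℝ} (h : JD v u β ε Cu)
include h

lemma JD.swap_le {n0 : ℕ} (hn : 0 < n0) (x : Fin (N + 1) → Y) (j : Fin N) (p : Fin (N + 1)) :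
    ∑ σ : Equiv.Perm (Fin (N + 1)),
        -Real.log (KH μ v u β ε (fun i => x (σ i)) (Is (N + 1) j) (x (σ j.castSucc))) ≤
      ∑ σ : Equiv.Perm (Fin (N + 1)),
        -Real.log (KH μ v u β ε (fun i => x (σ i)) (Is (N + 1) (jk N n0 (j / n0))) (x (σ p))) := by
  rw [← Equiv.sum_comp (Equiv.mulRight (Equiv.swap j.castSucc p))]
  refine Finset.sum_le_sum fun σ _ => neg_le_neg (Real.log_le_log (h.KH_pos _ _ _) ?_)
  simp only [Equiv.coe_mulRight, Equiv.Perm.mul_apply, Equiv.swap_apply_left]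
  rw [KH_perm μ v u β ε (fun i => x (σ i)) (Equiv.swap j.castSucc p)]
  refine h.KH_anti _ (Finset.Subset.trans ?_ (Is_mono (lt_jk hn j.2))) _
  intro i hi
  simp only [Is, Finset.mem_image, Finset.mem_filter, Finset.mem_univ, true_and] at hi ⊢
  obtain ⟨a, ha, rfl⟩ := hi
  rw [Equiv.swap_apply_def]
  split_ifs with h1 h2
  · subst h1; simp at ha
  · simp
  · omega

lemma JD.det_le_Maj {n0 : ℕ} (hn : 0 < n0) {γ p q : ℝ} (hγ : 0 < γ) (hp : 0 < p) (hq : 0 < q)
    (hpq : 2 / p + 1 / q = 1) (hpβ : p * γ ≤ β) (x : Fin (N + 1) → Y) :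
    ∃ σ : Equiv.Perm (Fin (N + 1)), ‖(Gm ε (fun j => v (x j)) Finset.univ).det‖ ^ (-γ) ≤
      Maj μ v u β ε n0 (q * γ / (β * (N + 1))) (fun i => x (σ i)) := by
  have hβ := h.hβ
  let A : (Fin (N + 1) → Y) → ℝ := fun x => ∑ j : Fin N, γ / β * Real.log
    (KH μ v u β ε x (Is (N + 1) j) (x j.castSucc) * rS v ε x (Is (N + 1) j) (x j.castSucc) ^ (-β))
  let D : (Fin (N + 1) → Y) → ℝ := fun x => -γ * Real.log (rS v ε x (Is (N + 1) N) (x (Fin.last N)))
  let B : (Fin (N + 1) → Y) → ℝ := fun x => ∑ j : Fin N, γ / β *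
    -Real.log (KH μ v u β ε x (Is (N + 1) j) (x j.castSucc))
  let B' : (Fin (N + 1) → Y) → ℝ := fun x => ∑ j : Fin N, γ / β * (((N : ℝ) + 1)⁻¹ * ∑ p,
    -Real.log (KH μ v u β ε x (Is (N + 1) (jk N n0 (j / n0))) (x p)))
  have e1 : ∀ x : Fin (N + 1) → Y, -γ * Real.log ‖(Gm ε (fun j => v (x j)) Finset.univ).det‖
      = A x + D x + B x := by
    intro x
    rw [h.log_det, Fin.sum_univ_castSucc, mul_add, Finset.mul_sum, add_right_comm]
    simp only [A, B, D, ← Finset.sum_add_distrib, Fin.val_castSucc, Fin.val_last]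
    congr 1
    refine Finset.sum_congr rfl fun j _ => ?_
    rw [Real.log_mul (h.KH_pos _ _ _).ne' (h.w_pos _ _ _).ne', Real.log_rpow (h.rS_pos _ _ _)]
    field_simp
    ring
  have e2 : ∀ σ : Equiv.Perm (Fin (N + 1)), Gm ε (fun j => v (x (σ j))) Finset.univ
      = Gm ε (fun j => v (x j)) Finset.univ := fun σ => by
    simp only [Gm]
    rw [Equiv.sum_comp σ (fun j => vecMulVec (v (x j)) (star (v (x j))))]
  have e3 : ∑ σ : Equiv.Perm (Fin (N + 1)), B (fun i => x (σ i))
      ≤ ∑ σ : Equiv.Perm (Fin (N + 1)), B' (fun i => x (σ i)) := by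
    simp only [B, B']
    rw [Finset.sum_comm, Finset.sum_comm (s := Finset.univ (α := Equiv.Perm (Fin (N + 1))))]
    refine Finset.sum_le_sum fun j _ => ?_
    simp only [← Finset.mul_sum]
    refine mul_le_mul_of_nonneg_left ?_ (by positivity)
    rw [Finset.sum_comm, le_inv_mul_iff₀ (by positivity)]
    have := Finset.sum_le_sum fun p (_ : p ∈ Finset.univ) => h.swap_le (μ := μ) hn x j p
    simpa using this
  obtain ⟨σ, -, hσ⟩ := Finset.exists_le_of_sum_le (s := Finset.univ)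
    (f := fun σ : Equiv.Perm (Fin (N + 1)) => B (fun i => x (σ i)))
    (g := fun σ : Equiv.Perm (Fin (N + 1)) => B' (fun i => x (σ i))) Finset.univ_nonempty e3
  refine ⟨σ, ?_⟩
  set y : Fin (N + 1) → Y := fun i => x (σ i)
  have hdet : 0 < ‖(Gm ε (fun j => v (x j)) Finset.univ).det‖ :=
    norm_pos_iff.2 (Gm_posDef h.hε _ _).det_pos.ne'
  have ht0 : 0 ≤ p * γ / β := by positivity
  have ht1 : p * γ / β ≤ 1 := (div_le_one hβ).2 hpβ
  rw [Real.rpow_def_of_pos hdet, mul_comm, ← e2 σ, e1 y]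
  refine (Real.exp_le_exp.2 (add_le_add_right hσ _)).trans ((exp_add_le hp hq hpq).trans ?_)
  refine add_le_add (add_le_add ?_ ?_) (le_of_eq ?_)
  · rw [Fin.prod_univ_castSucc]
    refine le_trans ?_ (le_mul_of_one_le_right (Finset.prod_nonneg fun j _ => add_nonneg zero_le_one
      (mul_pos (h.KH_pos _ _ _) (h.w_pos _ _ _)).le) (le_add_of_nonneg_right
      (mul_pos (h.KH_pos _ _ _) (h.w_pos _ _ _)).le))
    simp only [A, Finset.mul_sum, Real.exp_sum]
    refine Finset.prod_le_prod (fun _ _ => (Real.exp_pos _).le) fun j _ => ?_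
    have h0 := mul_pos (h.KH_pos (μ := μ) y (Is (N + 1) j) (y j.castSucc))
      (h.w_pos y (Is (N + 1) j) (y j.castSucc))
    refine le_trans (le_of_eq ?_) (rpow_le_one_add h0.le ht0 ht1)
    rw [Fin.val_castSucc, Real.rpow_def_of_pos h0]
    congr 1; ring
  · have h0 := h.w_pos y (Is (N + 1) N) (y (Fin.last N))
    refine le_trans (le_of_eq ?_) (rpow_le_one_add h0.le ht0 ht1)
    rw [Real.rpow_def_of_pos h0, Real.log_rpow (h.rS_pos _ _ _)]
    congr 1; simp only [D]; field_simp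
  · simp only [B', Gam, Finset.mul_sum]
    rw [Finset.sum_comm, Real.exp_sum]
    refine Finset.prod_congr rfl fun p _ => ?_
    rw [Real.exp_sum]
    refine Finset.prod_congr rfl fun j _ => ?_
    rw [Real.rpow_def_of_pos (h.KH_pos _ _ _)]
    congr 1; field_simp

lemma JD.lint_err : ∫⁻ x, ENNReal.ofReal (∏ j : Fin (N + 1),
      (1 + KH μ v u β ε x (Is (N + 1) j) (x j) * rS v ε x (Is (N + 1) j) (x j) ^ (-β)))
    ∂(Measure.pi fun _ => μ) ≤ ENNReal.ofReal (1 + Fintype.card κ) ^ (N + 1) := by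
  have e : ∀ (j i : Fin (N + 1)) (x : Fin (N + 1) → Y) (y : Y), j ≤ i →
      ∀ k ∈ Is (N + 1) j, update x i y k = x k := by
    intro j i x y hj k hk
    refine update_of_ne (fun hki => ?_) _ _
    subst hki
    simp only [Is, Finset.mem_filter, Finset.mem_univ, true_and] at hk
    omega
  refine le_trans (le_of_eq ?_) (lint_seq (μ := μ) (f := fun j x => ENNReal.ofReal
    (1 + KH μ v u β ε x (Is (N + 1) j) (x j) * rS v ε x (Is (N + 1) j) (x j) ^ (-β)))
    (fun j => ?_) (fun j i x y hj => ?_) fun j x => ?_)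
  · congr 1; funext x
    exact ENNReal.ofReal_prod_of_nonneg fun j _ => add_nonneg zero_le_one
      (mul_pos (h.KH_pos _ _ _) (h.w_pos _ _ _)).le
  · exact (measurable_const.add ((h.meas_KH measurable_id (measurable_pi_apply j) _).mul
      ((h.meas_rS measurable_id (measurable_pi_apply j) _).pow_const _))).ennreal_ofReal
  · rw [KH_congr μ v u β ε (e j i x y hj.le), rS_congr v ε (e j i x y hj.le), update_of_ne hj.ne]
  · simp only [update_self, KH_congr μ v u β ε (e j j x _ le_rfl), rS_congr v ε (e j j x _ le_rfl)]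
    exact h.lint_KH x _

variable (μ v β ε) in
/-- The depth of a configuration. -/
noncomputable def dep (x : Fin (N + 1) → Y) : ℝ := ∫ y, rS v ε x (Is (N + 1) N) y ^ (-β) ∂μ

lemma JD.dep_nonneg (x : Fin (N + 1) → Y) : 0 ≤ dep μ v β ε x :=
  integral_nonneg fun y => (h.w_pos x _ y).le

lemma JD.meas_dep : Measurable (dep μ v β ε) :=
  (StronglyMeasurable.integral_prod_right (f := fun x y => rS v ε x (Is (N + 1) N) y ^ (-β))
    ((h.meas_rS measurable_fst measurable_snd _).pow_const _).stronglyMeasurable).measurable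

lemma JD.ofReal_dep (x : Fin (N + 1) → Y) : ENNReal.ofReal (1 + dep μ v β ε x)
    = ∫⁻ y, ENNReal.ofReal (1 + rS v ε x (Is (N + 1) N) y ^ (-β)) ∂μ := by
  have hi : Integrable (fun y => 1 + rS v ε x (Is (N + 1) N) y ^ (-β)) μ :=
    (integrable_const 1).add (h.int_w x _)
  rw [← ofReal_integral_eq_lintegral_ofReal hi (Filter.Eventually.of_forall fun y =>
    add_nonneg zero_le_one (h.w_pos x _ y).le), integral_add (integrable_const 1) (h.int_w x _)]
  simp [dep]

lemma JD.lint_last : ∫⁻ x, ENNReal.ofReal (1 + rS v ε x (Is (N + 1) N) (x (Fin.last N)) ^ (-β))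
    ∂(Measure.pi fun _ => μ) = ∫⁻ x, ENNReal.ofReal (1 + dep μ v β ε x) ∂(Measure.pi fun _ => μ) := by
  have hm : Measurable fun x : Fin (N + 1) → Y =>
      ENNReal.ofReal (1 + rS v ε x (Is (N + 1) N) (x (Fin.last N)) ^ (-β)) :=
    (measurable_const.add
      ((h.meas_rS measurable_id (measurable_pi_apply _) _).pow_const _)).ennreal_ofReal
  rw [← lint_upd hm (Fin.last N)]
  congr 1; funext x
  rw [h.ofReal_dep]
  congr 1; funext y
  rw [update_self, rS_congr v ε (x' := x)]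
  intro k hk
  refine update_of_ne (fun hki => ?_) _ _
  subst hki
  simp [Is] at hk

omit h in
lemma exists_flag (w : Fin (N + 1) → Fin (N + 1) → ℂ) :
    ∃ a : Fin (N + 1) → Fin (N + 1) → ℂ, (∀ i j, star (a i) ⬝ᵥ a j = if i = j then 1 else 0) ∧
      ∀ i j, j < i → star (w j) ⬝ᵥ a i = 0 := by
  let b := InnerProductSpace.gramSchmidtOrthonormalBasis (𝕜 := ℂ)
    (E := EuclideanSpace ℂ (Fin (N + 1))) (ι := Fin (N + 1)) (by simp) fun j => WithLp.toLp 2 (w j)
  refine ⟨fun i => (b i).ofLp, fun i j => ?_, fun i j hij => ?_⟩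
  · have := orthonormal_iff_ite.1 b.orthonormal i j
    rwa [EuclideanSpace.inner_eq_star_dotProduct, dotProduct_comm] at this
  · have := InnerProductSpace.gramSchmidtOrthonormalBasis_inv_triangular (𝕜 := ℂ)
      (E := EuclideanSpace ℂ (Fin (N + 1))) (ι := Fin (N + 1)) (by simp)
      (fun j => WithLp.toLp 2 (w j)) hij
    rwa [inner_eq_zero_symm, EuclideanSpace.inner_eq_star_dotProduct, dotProduct_comm] at this

end Pool.Agent.Lib.MP_bc3ae6_ag
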