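import Pool.Agent.Lib.MP_bc3ae6_ag.J2

set_option autoImplicit false
set_option linter.unusedSectionVars false

/-! The main term and the abstract integrability theorem. -/

namespace Pool.Agent.Lib.MP_bc3ae6_ag

open MeasureTheory Function Set Matrix Complex Filter Topology
open scoped ENNReal ComplexOrder ComplexConjugate

lemma rpow_neg_anti {a b : ℝ≥0∞} (h : a ≤ b) {t : ℝ} (ht : 0 ≤ t) : b ^ (-t) ≤ a ^ (-t) := by
  rw [ENNReal.rpow_neg, ENNReal.rpow_neg]
  exact ENNReal.inv_le_inv.2 (ENNReal.rpow_le_rpow h ht)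

lemma ofReal_rpow_neg_le {r t : ℝ} {z : ℂ} (h : ‖z‖ ^ 2 ≤ r) (hr : 0 < r) (ht : 0 ≤ t) :
    ENNReal.ofReal (r ^ (-t)) ≤ ‖z‖ₑ ^ (-(2 * t)) := by
  rw [← ENNReal.ofReal_rpow_of_pos hr, ← mul_neg, ENNReal.rpow_mul]
  refine rpow_neg_anti ?_ ht
  rw [ENNReal.rpow_two, ← ofReal_norm, ← ENNReal.ofReal_pow (norm_nonneg _)]
  exact ENNReal.ofReal_le_ofReal h

lemma prod_shift_le {N n0 : ℕ} {w : Fin (N + 1) → ℝ≥0∞} (hw : ∀ i, 1 ≤ w i) :
    ∏ j : Fin N, w ⟨min N (j + n0), by omega⟩ ≤ (∏ i, w i) * w (Fin.last N) ^ n0 := by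
  classical
  rw [← Finset.prod_filter_mul_prod_filter_not Finset.univ (fun j : Fin N => j.val + n0 ≤ N)]
  refine mul_le_mul' ?_ ?_
  · rw [← Finset.prod_image (f := w) (g := fun j : Fin N => (⟨min N (j + n0), by omega⟩ : Fin (N + 1)))]
    · exact Finset.prod_le_prod_of_subset_of_one_le' (Finset.subset_univ _) fun i _ _ => hw i
    · intro a ha b hb hab
      simp only [Finset.coe_filter, Finset.mem_univ, true_and, mem_ofPred_eq, Fin.mk.injEq] at ha hb hab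
      exact Fin.ext (by omega)
  · rw [Finset.prod_congr rfl (g := fun _ => w (Fin.last N)) fun j hj => by
      simp only [Finset.mem_filter, Finset.mem_univ, true_and] at hj
      congr 1; exact Fin.ext (by simp; omega), Finset.prod_const]
    refine pow_le_pow_right₀ (hw _) ?_
    refine le_trans (Finset.card_le_card_of_injOn (t := Finset.range n0) (fun j => N - 1 - j.val)
      (fun j hj => ?_) fun a _ b _ hab => Fin.ext ?_) (by simp)
    · simp only [Finset.coe_filter, Finset.mem_univ, true_and, mem_ofPred_eq, Finset.coe_range,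
        mem_Iio] at hj ⊢
      omega
    · simp only at hab; omega

lemma young_le {a τ q : ℝ} (ha : 0 ≤ a) (hτ : 0 < τ) (hq : 1 < q) : a ≤ a ^ q * τ ^ (1 - q) + τ := by
  rcases le_total a τ with h | h
  · exact le_add_of_nonneg_of_le (by positivity) h
  · refine le_add_of_le_of_nonneg ?_ hτ.le
    have ha' : 0 < a := hτ.trans_le h
    calc a = a ^ q * a ^ (1 - q) := by rw [← Real.rpow_add ha']; simp
      _ ≤ _ := by
        gcongr ?_ * ?_
        exact Real.rpow_le_rpow_of_nonpos hτ h (by linarith)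

/-- A convergent geometric series. -/
noncomputable def geo : ℝ≥0∞ := ∑' L : ℕ, ENNReal.ofReal (Real.exp (-L))

lemma geo_lt_top : geo < ⊤ := by
  rw [geo, ← ENNReal.ofReal_tsum_of_nonneg (fun _ => (Real.exp_pos _).le) Real.summable_exp_neg_nat]
  exact ENNReal.ofReal_lt_top

lemma lev_sum {Ω : Type*} [MeasurableSpace Ω] {π : Measure Ω} {F : Ω → ℝ≥0∞} {G : ℕ → Ω → ℝ≥0∞}
    (hG : ∀ L, Measurable (G L)) (h : ∀ x, ∃ L, F x ≤ G L x) {C : ℝ≥0∞}
    (hC : ∀ L : ℕ, ∫⁻ x, G L x ∂π ≤ C * ENNReal.ofReal (Real.exp (-L))) :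
    ∫⁻ x, F x ∂π ≤ C * geo := by
  calc _ ≤ ∫⁻ x, ∑' L, G L x ∂π := lintegral_mono fun x => by
        obtain ⟨L, hL⟩ := h x
        exact hL.trans (ENNReal.le_tsum L)
    _ = ∑' L, ∫⁻ x, G L x ∂π := lintegral_tsum fun L => (hG L).aemeasurable
    _ ≤ _ := by rw [geo, ← ENNReal.tsum_mul_left]; exact ENNReal.tsum_le_tsum hC

lemma exists_level {d : ℝ} (hd : 0 ≤ d) : ∃ L : ℕ, Real.exp L ≤ 1 + d ∧ 1 + d ≤ Real.exp (L + 1) := by
  refine ⟨⌊Real.log (1 + d)⌋₊, ?_, ?_⟩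
  · rw [← Real.le_log_iff_exp_le (by positivity)]
    exact Nat.floor_le (Real.log_nonneg (by linarith))
  · rw [← Real.log_le_iff_le_exp (by positivity)]
    exact (Nat.lt_floor_add_one _).le

variable {Y : Type*} [MeasurableSpace Y] {μ : Measure Y} {N : ℕ} {v : Y → Fin (N + 1) → ℂ}
  {κ : Type} [Fintype κ] [DecidableEq κ] {u : Y → κ → ℂ} {β ε : ℝ}
  [IsProbabilityMeasure μ] {Cu : ℝ}

lemma JD.gam_pos (h : JD v u β ε Cu) (n0 : ℕ) (e : ℝ) (x : Fin (N + 1) → Y) (y : Y) :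
    0 < Gam μ v u β ε n0 e x y :=
  Finset.prod_pos fun _ _ => Real.rpow_pos_of_pos (h.KH_pos _ _ _) _

lemma JD.meas_gam (h : JD v u β ε Cu) (n0 : ℕ) (e : ℝ) {α : Type*} [MeasurableSpace α]
    {x : α → Fin (N + 1) → Y} {y : α → Y} (hx : Measurable x) (hy : Measurable y) :
    Measurable fun a => Gam μ v u β ε n0 e (x a) (y a) :=
  Finset.measurable_prod _ fun _ _ => (h.meas_KH hx hy _).pow_const _

lemma nsq_of_on {a : Fin (N + 1) → Fin (N + 1) → ℂ}
    (ha : ∀ i j, star (a i) ⬝ᵥ a j = if i = j then 1 else 0) (i : Fin (N + 1)) : nsq (a i) = 1 := by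
  have := ha i i
  rw [star_dot_self, if_pos rfl] at this
  exact_mod_cast this

lemma JD.gam_int (h : JD v u β ε Cu) (hv1 : ∀ y, nsq (v y) ≤ 1) {n0 : ℕ} {e q β' : ℝ} (he : 0 ≤ e)
    (hq : 0 ≤ q) (hβ' : 0 ≤ β') {l : Y → ℝ}
    (hOT : ∀ B : Matrix (Fin (N + 1)) (Fin (N + 1)) ℂ, (∀ i j, ‖B i j‖ ≤ 1) → ∀ᵐ y ∂μ, ∃ c : κ → ℂ,
      1 ≤ ‖star (u y) ⬝ᵥ c‖ ∧ nsq c + ∫ y', (ε + nsq (B *ᵥ v y')) ^ (-β) * ‖star (u y') ⬝ᵥ c‖ ^ 2 ∂μ
        ≤ l y * (ε + nsq (B *ᵥ v y)) ^ (-β'))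
    {CM : ℝ≥0∞} (hM : ∀ a : Fin (N + 1) → Fin (N + 1) → ℂ,
      (∀ i j, star (a i) ⬝ᵥ a j = if i = j then 1 else 0) →
      ∫⁻ y, ENNReal.ofReal (l y) ^ (e * q * N) *
        ((∏ i, ‖star (v y) ⬝ᵥ a i‖ₑ ^ (-(2 * (β' * (e * q))))) *
        (‖star (v y) ⬝ᵥ a (Fin.last N)‖ₑ ^ (-(2 * (β' * (e * q))))) ^ n0) ∂μ ≤ CM)
    (x : Fin (N + 1) → Y) : ∫⁻ y, ENNReal.ofReal (Gam μ v u β ε n0 e x y ^ q) ∂μ ≤ CM := by
  obtain ⟨a, ha, ha'⟩ := exists_flag fun j => v (x j)
  refine le_trans (lintegral_mono_ae ?_) (hM a ha)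
  have h1 : ∀ S : Finset (Fin (N + 1)), ∀ᵐ y ∂μ,
      1 ≤ KH μ v u β ε x S y * (l y * rS v ε x S y ^ (-β')) := by
    intro S
    obtain ⟨B, hB, hB'⟩ := rho_repr h.hε (fun j => v (x j)) S
    filter_upwards [hOT B hB] with y ⟨c, hc1, hc2⟩
    have h2 := Kq_cs (h.posDef (μ := μ) x S) (u y) c
    rw [h.Qf_HH] at h2
    simp only [rS, hB'] at h2 ⊢
    refine le_trans (one_le_pow₀ hc1) (h2.trans ?_)
    exact mul_le_mul_of_nonneg_left hc2 (h.KH_pos x S y).le
  filter_upwards [ae_all_iff.2 h1] with y hy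
  have heq : 0 ≤ e * q := mul_nonneg he hq
  have h3 : ∀ j : Fin N, ENNReal.ofReal
      ((KH μ v u β ε x (Is (N + 1) (jk N n0 (j / n0))) y ^ (-e)) ^ q) ≤
        ENNReal.ofReal (l y) ^ (e * q) *
          ‖star (v y) ⬝ᵥ a ⟨min N (j + n0), by omega⟩‖ₑ ^ (-(2 * (β' * (e * q)))) := by
    intro j
    set S := Is (N + 1) (jk N n0 (j / n0))
    have hK := h.KH_pos (μ := μ) x S y
    have hr := h.rS_pos x S y
    have h4 := hy S
    have h5 : (KH μ v u β ε x S y)⁻¹ ≤ l y * rS v ε x S y ^ (-β') := by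
      rw [inv_le_iff_one_le_mul₀' hK]; exact h4
    have hl : 0 ≤ l y := by
      have := (inv_pos.2 hK).trans_le h5
      exact ((mul_pos_iff_of_pos_right (Real.rpow_pos_of_pos hr _)).1 this).le
    have h6 : (KH μ v u β ε x S y ^ (-e)) ^ q ≤ l y ^ (e * q) * rS v ε x S y ^ (-(β' * (e * q))) := by
      rw [← Real.rpow_mul hK.le, neg_mul, Real.rpow_neg hK.le, ← Real.inv_rpow hK.le, ← neg_mul,
        Real.rpow_mul hr.le, ← Real.mul_rpow hl (Real.rpow_nonneg hr.le _)]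
      exact Real.rpow_le_rpow (inv_pos.2 hK).le h5 heq
    refine (ENNReal.ofReal_le_ofReal h6).trans ?_
    rw [ENNReal.ofReal_mul (Real.rpow_nonneg hl _), ENNReal.ofReal_rpow_of_nonneg hl heq]
    refine mul_le_mul_right (ofReal_rpow_neg_le ?_ hr (mul_nonneg hβ' heq)) _
    refine sq_le_rho h.hε _ (nsq_of_on ha _) (fun k hk => ha' _ _ ?_) _
    simp only [S, Is, Finset.mem_filter, Finset.mem_univ, true_and] at hk
    exact hk.trans_le jk_le
  rw [Gam, ← Real.finsetProd_rpow _ _ fun j _ => Real.rpow_nonneg (h.KH_pos _ _ _).le _,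
    ENNReal.ofReal_prod_of_nonneg fun j _ =>
      Real.rpow_nonneg (Real.rpow_nonneg (h.KH_pos _ _ _).le _) _]
  refine (Finset.prod_le_prod' fun j _ => h3 j).trans ?_
  rw [Finset.prod_mul_distrib, Finset.prod_const, Finset.card_univ, Fintype.card_fin,
    ENNReal.rpow_mul_natCast]
  refine mul_le_mul_right (prod_shift_le (w := fun i =>
    ‖star (v y) ⬝ᵥ a i‖ₑ ^ (-(2 * (β' * (e * q))))) fun i => ?_) _
  have h7 : ‖star (v y) ⬝ᵥ a i‖ₑ ≤ 1 := by
    have := dot_cs (v y) (a i)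
    rw [nsq_of_on ha, mul_one] at this
    rw [← ofReal_norm, ENNReal.ofReal_le_one]
    nlinarith [hv1 y, norm_nonneg (star (v y) ⬝ᵥ a i)]
  simpa using rpow_neg_anti h7 (t := 2 * (β' * (e * q))) (by positivity)

lemma JD.tail (h : JD v u β ε Cu) {t : ℝ} :
    {x | t ≤ 1 + dep μ v β ε x} ⊆ {x : Fin (N + 1) → Y | ∃ a, nsq a = 1 ∧
      (∀ j, j ≠ Fin.last N → star (v (x j)) ⬝ᵥ a = 0) ∧
        ENNReal.ofReal t ≤ 1 + ∫⁻ y, ‖star (v y) ⬝ᵥ a‖ₑ ^ (-(2 * β)) ∂μ} := by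
  intro x hx
  obtain ⟨a, ha, ha'⟩ := exists_flag fun j => v (x j)
  refine ⟨a (Fin.last N), nsq_of_on ha _, fun j hj => ha' _ _ (Fin.lt_last_iff_ne_last.2 hj),
    (ENNReal.ofReal_le_ofReal hx).trans ?_⟩
  rw [h.ofReal_dep]
  calc _ ≤ ∫⁻ y, 1 + ‖star (v y) ⬝ᵥ a (Fin.last N)‖ₑ ^ (-(2 * β)) ∂μ := lintegral_mono fun y => by
        rw [ENNReal.ofReal_add zero_le_one (h.w_pos _ _ _).le, ENNReal.ofReal_one]
        refine add_le_add_right (ofReal_rpow_neg_le ?_ (h.rS_pos _ _ _) h.hβ.le) _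
        refine sq_le_rho h.hε _ (nsq_of_on ha _) (fun k hk => ha' _ _ ?_) _
        simpa [Is, Fin.lt_def] using hk
    _ = _ := by rw [lintegral_add_left measurable_const]; simp

lemma JD.lint_dep (h : JD v u β ε Cu) {A CT : ℝ} (hA : 2 ≤ A) (hCT : 0 ≤ CT)
    (hT : ∀ L : ℕ, (Measure.pi fun _ => μ) {x | Real.exp L ≤ 1 + dep μ v β ε x}
      ≤ ENNReal.ofReal (CT * Real.exp (-(A * L)))) :
    ∫⁻ x, ENNReal.ofReal (1 + dep μ v β ε x) ∂(Measure.pi fun _ => μ)
      ≤ ENNReal.ofReal (CT * Real.exp 1) * geo := by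
  have hB : ∀ L : ℕ, MeasurableSet {x | Real.exp L ≤ 1 + dep μ v β ε x} := fun L =>
    measurableSet_le measurable_const (measurable_const.add h.meas_dep)
  refine lev_sum (G := fun L => {x | Real.exp L ≤ 1 + dep μ v β ε x}.indicator
    fun _ => ENNReal.ofReal (Real.exp (L + 1))) (fun L => measurable_const.indicator (hB L))
    (fun x => ?_) fun L => ?_
  · obtain ⟨L, h1, h2⟩ := exists_level (h.dep_nonneg (μ := μ) x)
    refine ⟨L, ?_⟩
    rw [indicator_of_mem (show x ∈ {x | Real.exp L ≤ 1 + dep μ v β ε x} from h1)]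
    exact ENNReal.ofReal_le_ofReal h2
  · rw [lintegral_indicator_const (hB L)]
    refine (mul_le_mul_right (hT L) _).trans ?_
    rw [← ENNReal.ofReal_mul (by positivity), ← ENNReal.ofReal_mul (by positivity)]
    refine ENNReal.ofReal_le_ofReal ?_
    rw [mul_left_comm, mul_assoc, ← Real.exp_add, ← Real.exp_add]
    refine mul_le_mul_of_nonneg_left (Real.exp_le_exp.2 ?_) hCT
    nlinarith [Nat.cast_nonneg (α := ℝ) L]

lemma JD.lint_main (h : JD v u β ε Cu) {n0 T : ℕ} (hNT : N ≤ n0 * T) {e q A CT : ℝ}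
    (he : 0 ≤ e) (hq : 1 < q)
    (hA : 2 * T * (Fintype.card κ : ℝ) ^ 2 + 1 ≤ A * (1 - 1 / q)) {CM : ℝ≥0∞}
    (hM : ∀ x, ∫⁻ y, ENNReal.ofReal (Gam μ v u β ε n0 e x y ^ q) ∂μ ≤ CM)
    (hT : ∀ L : ℕ, (Measure.pi fun _ => μ) {x | Real.exp L ≤ 1 + dep μ v β ε x}
      ≤ ENNReal.ofReal (CT * Real.exp (-(A * L)))) :
    ∫⁻ x, ENNReal.ofReal (∏ p, Gam μ v u β ε n0 e x (x p)) ∂(Measure.pi fun _ => μ) ≤
      (ENNReal.ofReal ((4 * (1 + Cu ^ 2) * Real.exp 1 * (2 * Fintype.card κ + 2) + 3)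
          ^ (2 * Fintype.card (Fin T × κ × κ)) * ((2 ^ e) ^ N) ^ (N + 1))
        * (CM ^ (N + 1) + ENNReal.ofReal CT)) * geo := by
  have : Nonempty Y := nonempty_of_isProbabilityMeasure μ
  have hB : ∀ L : ℕ, MeasurableSet {x | Real.exp L ≤ 1 + dep μ v β ε x} := fun L =>
    measurableSet_le measurable_const (measurable_const.add h.meas_dep)
  let η : ℝ := 1 / (2 * Fintype.card κ + 2)
  have hη : 0 < η := by positivity
  choose Γ hΓ1 hΓ2 using fun L : ℕ =>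
    exists_net (ι := Fin T × κ × κ) ((1 + Cu ^ 2) * Real.exp (L + 1)) hη
  let hv : (Fin (N + 1) → Y) → Fin T × κ × κ → ℂ := fun x a =>
    HH μ v u β ε x (Is (N + 1) (jk N n0 a.1)) a.2.1 a.2.2
  let rep : (Fin T × κ × κ → ℂ) → Fin (N + 1) → Y := fun g =>
    Classical.epsilon fun x => ‖hv x - g‖ ≤ η
  let τ : ℕ → ℝ := fun L => Real.exp (A * L / q)
  let C2 : ℝ := ((2 ^ e) ^ N) ^ (N + 1)
  have hm : ∀ g, Measurable fun x : Fin (N + 1) → Y =>
      ∏ p, ENNReal.ofReal (Gam μ v u β ε n0 e (rep g) (x p) ^ q) := fun g =>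
    Finset.measurable_prod _ fun p _ =>
      ((h.meas_gam n0 e measurable_const (measurable_pi_apply p)).pow_const _).ennreal_ofReal
  have hm2 : ∀ (L : ℕ) g, Measurable fun x : Fin (N + 1) → Y => ENNReal.ofReal C2 *
      (ENNReal.ofReal (τ L ^ (1 - q)) * ∏ p, ENNReal.ofReal (Gam μ v u β ε n0 e (rep g) (x p) ^ q) +
        {x | Real.exp L ≤ 1 + dep μ v β ε x}.indicator (fun _ => ENNReal.ofReal (τ L)) x) :=
    fun L g => (((hm g).const_mul _).add (measurable_const.indicator (hB L))).const_mul _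
  refine lev_sum (G := fun L x => ∑ g ∈ Γ L, ENNReal.ofReal C2 *
      (ENNReal.ofReal (τ L ^ (1 - q)) * ∏ p, ENNReal.ofReal (Gam μ v u β ε n0 e (rep g) (x p) ^ q) +
        {x | Real.exp L ≤ 1 + dep μ v β ε x}.indicator (fun _ => ENNReal.ofReal (τ L)) x))
    (fun L => Finset.measurable_sum _ fun g _ => hm2 L g) (fun x => ?_) fun L => ?_
  · obtain ⟨L, h1, h2⟩ := exists_level (h.dep_nonneg (μ := μ) x)
    have h3 : ‖hv x‖ ≤ (1 + Cu ^ 2) * Real.exp (L + 1) := by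
      refine (pi_norm_le_iff_of_nonneg (by positivity)).2 fun a => (h.norm_HH _ _ _ _).trans ?_
      have h4 : ∫ y, rS v ε x (Is (N + 1) (jk N n0 a.1)) y ^ (-β) ∂μ ≤ dep μ v β ε x :=
        integral_mono (h.int_w _ _) (h.int_w _ _) fun y => h.w_mono x (Is_mono (min_le_left _ _)) y
      nlinarith [h.dep_nonneg (μ := μ) x, sq_nonneg Cu]
    obtain ⟨g, hg, hg'⟩ := hΓ2 L _ h3
    refine ⟨L, le_trans ?_ (Finset.single_le_sum (f := fun g => ENNReal.ofReal C2 *
      (ENNReal.ofReal (τ L ^ (1 - q)) * ∏ p, ENNReal.ofReal (Gam μ v u β ε n0 e (rep g) (x p) ^ q) +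
        {x | Real.exp L ≤ 1 + dep μ v β ε x}.indicator (fun _ => ENNReal.ofReal (τ L)) x))
      (fun _ _ => zero_le) hg)⟩
    have h5 : ‖hv (rep g) - g‖ ≤ η := Classical.epsilon_spec (p := fun x => ‖hv x - g‖ ≤ η) ⟨x, hg'⟩
    have h6 : ‖hv x - hv (rep g)‖ ≤ 2 * η := by
      have := norm_sub_le (hv x - g) (hv (rep g) - g)
      rw [sub_sub_sub_cancel_right] at this
      linarith
    have h7 : ∀ y, Gam μ v u β ε n0 e x y ≤ (2 ^ e) ^ N * Gam μ v u β ε n0 e (rep g) y := by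
      intro y
      have e0 : ((2 : ℝ) ^ e) ^ N = ∏ _j : Fin N, (2 : ℝ) ^ e := by simp
      rw [Gam, Gam, e0, ← Finset.prod_mul_distrib]
      refine Finset.prod_le_prod (fun j _ => Real.rpow_nonneg (h.KH_pos _ _ _).le _) fun j _ => ?_
      have hj : j / n0 < T := Nat.div_lt_of_lt_mul (j.2.trans_le hNT)
      have h8 := h.KH_close (μ := μ) (x := x) (x' := rep g) (S := Is (N + 1) (jk N n0 (j / n0)))
        (η := 2 * η) (by
          simp only [η]; rw [mul_one_div, div_mul_eq_mul_div, div_le_one (by positivity)]; linarith)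
        (fun i k => (norm_le_pi_norm (hv x - hv (rep g)) (⟨_, hj⟩, i, k)).trans h6) y
      have hK := h.KH_pos (μ := μ) (rep g) (Is (N + 1) (jk N n0 (j / n0))) y
      calc _ ≤ (KH μ v u β ε (rep g) (Is (N + 1) (jk N n0 (j / n0))) y / 2) ^ (-e) :=
            Real.rpow_le_rpow_of_nonpos (by positivity) (by linarith) (by linarith)
        _ = _ := by
            rw [Real.div_rpow hK.le zero_le_two, Real.rpow_neg zero_le_two, div_inv_eq_mul, mul_comm]
    have h9 : ∏ p, Gam μ v u β ε n0 e x (x p) ≤ C2 * ∏ p, Gam μ v u β ε n0 e (rep g) (x p) := by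
      refine (Finset.prod_le_prod (fun p _ => (h.gam_pos _ _ _ _).le) fun p _ => h7 (x p)).trans ?_
      rw [Finset.prod_mul_distrib, Finset.prod_const, Finset.card_univ, Fintype.card_fin]
    have h0 : 0 ≤ ∏ p, Gam μ v u β ε n0 e (rep g) (x p) :=
      Finset.prod_nonneg fun p _ => (h.gam_pos _ _ _ _).le
    have hτ : 0 < τ L := Real.exp_pos _
    rw [indicator_of_mem (show x ∈ {x | Real.exp L ≤ 1 + dep μ v β ε x} from h1),
      ← ENNReal.ofReal_prod_of_nonneg fun p _ => Real.rpow_nonneg (h.gam_pos _ _ _ _).le _,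
      Real.finsetProd_rpow _ _ fun p _ => (h.gam_pos _ _ _ _).le,
      ← ENNReal.ofReal_mul (by positivity), ← ENNReal.ofReal_add (by positivity) hτ.le,
      ← ENNReal.ofReal_mul (by positivity)]
    refine ENNReal.ofReal_le_ofReal (h9.trans ?_)
    rw [mul_comm (τ L ^ (1 - q))]
    exact mul_le_mul_of_nonneg_left (young_le h0 hτ hq) (by positivity)
  · rw [lintegral_finsetSum _ fun g _ => hm2 L g]
    have e1 : τ L ^ (1 - q) = Real.exp (-(A * (1 - 1 / q) * L)) := by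
      simp only [τ]; rw [← Real.exp_mul]; congr 1; field_simp; ring
    have e2 : τ L * (CT * Real.exp (-(A * L))) = Real.exp (-(A * (1 - 1 / q) * L)) * CT := by
      simp only [τ]; rw [mul_left_comm, ← Real.exp_add, mul_comm]; congr 2; field_simp; ring
    have h1 : ∀ g, ∫⁻ x, ENNReal.ofReal C2 * (ENNReal.ofReal (τ L ^ (1 - q)) *
        ∏ p, ENNReal.ofReal (Gam μ v u β ε n0 e (rep g) (x p) ^ q) +
        {x | Real.exp L ≤ 1 + dep μ v β ε x}.indicator (fun _ => ENNReal.ofReal (τ L)) x)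
          ∂(Measure.pi fun _ => μ) ≤ ENNReal.ofReal C2 * (ENNReal.ofReal
            (Real.exp (-(A * (1 - 1 / q) * L))) * (CM ^ (N + 1) + ENNReal.ofReal CT)) := by
      intro g
      rw [lintegral_const_mul' _ _ ENNReal.ofReal_ne_top, lintegral_add_left ((hm g).const_mul _),
        lintegral_const_mul' _ _ ENNReal.ofReal_ne_top, lintegral_indicator_const (hB L),
        mul_add _ (CM ^ (N + 1)), e1, ← ENNReal.ofReal_mul (Real.exp_pos _).le, ← e2,
        ENNReal.ofReal_mul (Real.exp_pos _).le]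
      gcongr
      · exact lint_seq (f := fun p x => ENNReal.ofReal (Gam μ v u β ε n0 e (rep g) (x p) ^ q))
          (fun p => ((h.meas_gam n0 e measurable_const
            (measurable_pi_apply p)).pow_const _).ennreal_ofReal)
          (fun j i x y hj => by rw [update_of_ne hj.ne]) fun j x => by simpa using hM (rep g)
      · exact hT L
    refine (Finset.sum_le_card_nsmul _ _ _ fun g _ => h1 g).trans ?_
    rw [nsmul_eq_mul, ← mul_assoc, ← mul_assoc, mul_right_comm _ (CM ^ (N + 1) + _)]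
    refine mul_le_mul_left ?_ _
    rw [← ENNReal.ofReal_natCast, ← ENNReal.ofReal_mul (by positivity),
      ← ENNReal.ofReal_mul (by positivity), ← ENNReal.ofReal_mul (by positivity)]
    refine ENNReal.ofReal_le_ofReal ?_
    have h2 : ((Γ L).card : ℝ) ≤ (4 * (1 + Cu ^ 2) * Real.exp 1 * (2 * Fintype.card κ + 2) + 3)
        ^ (2 * Fintype.card (Fin T × κ × κ)) * Real.exp (2 * T * (Fintype.card κ : ℝ) ^ 2 * L) := by
      refine (hΓ1 L).trans ?_
      have e3 : Real.exp (2 * T * (Fintype.card κ : ℝ) ^ 2 * L)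
          = Real.exp L ^ (2 * Fintype.card (Fin T × κ × κ)) := by
        rw [← Real.exp_nat_mul]; congr 1; simp only [Fintype.card_prod, Fintype.card_fin]; push_cast; ring
      rw [e3, ← mul_pow]
      gcongr
      have h4 : 1 ≤ Real.exp L := Real.one_le_exp (Nat.cast_nonneg _)
      rw [abs_of_nonneg (by positivity), Real.exp_add]
      simp only [η, div_div_eq_mul_div, div_one]
      nlinarith
    calc _ ≤ ((4 * (1 + Cu ^ 2) * Real.exp 1 * (2 * Fintype.card κ + 2) + 3)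
          ^ (2 * Fintype.card (Fin T × κ × κ)) * Real.exp (2 * T * (Fintype.card κ : ℝ) ^ 2 * L))
          * C2 * Real.exp (-(A * (1 - 1 / q) * L)) := by gcongr
      _ = ((4 * (1 + Cu ^ 2) * Real.exp 1 * (2 * Fintype.card κ + 2) + 3)
          ^ (2 * Fintype.card (Fin T × κ × κ)) * C2) *
            Real.exp (2 * T * (Fintype.card κ : ℝ) ^ 2 * L + -(A * (1 - 1 / q) * L)) := by
          rw [Real.exp_add]; ring
      _ ≤ _ := by
          gcongr
          nlinarith [Nat.cast_nonneg (α := ℝ) L]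

lemma det_gram (w : Fin N → Fin N → ℂ) :
    ‖(Gm 0 w Finset.univ).det‖ₑ = ‖(Matrix.of fun i j => w j i).det‖ₑ ^ 2 := by
  have : Gm 0 w Finset.univ = (Matrix.of fun i j => w j i) * (Matrix.of fun i j => w j i)ᴴ := by
    ext i j
    simp [Gm, Matrix.mul_apply, Matrix.sum_apply, vecMulVec_apply]
  rw [this, det_mul, det_conjTranspose, enorm_mul, sq, ← ofReal_norm (star _), norm_star,
    ofReal_norm]

theorem abstract_main (h : JD v u β 1 Cu) (hv1 : ∀ y, nsq (v y) ≤ 1) {n0 T : ℕ} (hn : 0 < n0)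
    (hNT : N ≤ n0 * T) {γ p q q' β' A CT : ℝ} (hγ : 0 < γ) (hp : 0 < p) (hq : 0 < q)
    (hpq : 2 / p + 1 / q = 1) (hpβ : p * γ ≤ β) (hq' : 1 < q') (hβ' : 0 ≤ β') (hA2 : 2 ≤ A)
    (hA : 2 * T * (Fintype.card κ : ℝ) ^ 2 + 1 ≤ A * (1 - 1 / q')) (hCT : 0 ≤ CT) {l : Y → ℝ}
    (hOT : ∀ ε : ℝ, 0 < ε → ε ≤ 1 →
      ∀ B : Matrix (Fin (N + 1)) (Fin (N + 1)) ℂ, (∀ i j, ‖B i j‖ ≤ 1) → ∀ᵐ y ∂μ, ∃ c : κ → ℂ,
      1 ≤ ‖star (u y) ⬝ᵥ c‖ ∧ nsq c + ∫ y', (ε + nsq (B *ᵥ v y')) ^ (-β) * ‖star (u y') ⬝ᵥ c‖ ^ 2 ∂μ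
        ≤ l y * (ε + nsq (B *ᵥ v y)) ^ (-β'))
    {CM : ℝ≥0∞} (hCM : CM < ⊤) (hM : ∀ a : Fin (N + 1) → Fin (N + 1) → ℂ,
      (∀ i j, star (a i) ⬝ᵥ a j = if i = j then 1 else 0) →
      ∫⁻ y, ENNReal.ofReal (l y) ^ (q * γ / (β * (N + 1)) * q' * N) *
        ((∏ i, ‖star (v y) ⬝ᵥ a i‖ₑ ^ (-(2 * (β' * (q * γ / (β * (N + 1)) * q'))))) *
        (‖star (v y) ⬝ᵥ a (Fin.last N)‖ₑ ^ (-(2 * (β' * (q * γ / (β * (N + 1)) * q'))))) ^ n0) ∂μ
          ≤ CM)
    (hT : ∀ L : ℕ, (Measure.pi fun _ => μ) {x : Fin (N + 1) → Y | ∃ a, nsq a = 1 ∧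
      (∀ j, j ≠ Fin.last N → star (v (x j)) ⬝ᵥ a = 0) ∧
        ENNReal.ofReal (Real.exp L) ≤ 1 + ∫⁻ y, ‖star (v y) ⬝ᵥ a‖ₑ ^ (-(2 * β)) ∂μ}
      ≤ ENNReal.ofReal (CT * Real.exp (-(A * L)))) :
    ∫⁻ x, ‖(Matrix.of fun i j => v (x j) i).det‖ₑ ^ (-(2 * γ)) ∂(Measure.pi fun _ => μ) < ⊤ := by
  have hβ := h.hβ
  have he : 0 ≤ q * γ / (β * (N + 1)) := by positivity
  set e := q * γ / (β * (N + 1))
  have hJ : ∀ {ε}, 0 < ε → JD v u β ε Cu := fun hε => ⟨h.hv, h.hu, h.hub, h.hu0, h.hβ, hε⟩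
  have hmd : ∀ ε, Measurable fun x : Fin (N + 1) → Y =>
      (Gm ε (fun j => v (x j)) Finset.univ).det := by
    intro ε
    have h1 : Continuous fun A : Fin (N + 1) → Fin (N + 1) → ℂ => (Matrix.of A).det :=
      Continuous.matrix_det continuous_id
    refine h1.measurable.comp (f := fun x : Fin (N + 1) → Y => fun i j =>
      Gm ε (fun j => v (x j)) Finset.univ i j) ?_
    refine measurable_pi_lambda _ fun i => measurable_pi_lambda _ fun j => ?_
    simp only [Gm, Matrix.add_apply, Matrix.sum_apply, vecMulVec_apply, Pi.star_apply]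
    refine measurable_const.add (Finset.measurable_sum _ fun k _ => ?_)
    exact ((h.hv i).comp (measurable_pi_apply k)).mul
      (continuous_star.measurable.comp ((h.hv j).comp (measurable_pi_apply k)))
  obtain ⟨C, hC, hC'⟩ : ∃ C : ℝ≥0∞, C < ⊤ ∧ ∀ ε : ℝ, 0 < ε → ε ≤ 1 →
      ∫⁻ x : Fin (N + 1) → Y, ‖(Gm ε (fun j => v (x j)) Finset.univ).det‖ₑ ^ (-γ)
        ∂(Measure.pi fun _ => μ) ≤ C := by
    refine ⟨∑ _σ : Equiv.Perm (Fin (N + 1)), (ENNReal.ofReal (1 + Fintype.card κ) ^ (N + 1) +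
      ENNReal.ofReal (CT * Real.exp 1) * geo +
      (ENNReal.ofReal ((4 * (1 + Cu ^ 2) * Real.exp 1 * (2 * Fintype.card κ + 2) + 3)
          ^ (2 * Fintype.card (Fin T × κ × κ)) * ((2 ^ e) ^ N) ^ (N + 1))
        * (CM ^ (N + 1) + ENNReal.ofReal CT)) * geo), ?_, fun ε hε hε1 => ?_⟩
    · have := geo_lt_top
      refine ENNReal.sum_lt_top.2 fun _ _ => ?_
      finiteness
    have h' := hJ hε
    have hT' := fun L : ℕ => (measure_mono (h'.tail (μ := μ))).trans (hT L)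
    have m1 : Measurable fun x : Fin (N + 1) → Y => ∏ j : Fin (N + 1),
        (1 + KH μ v u β ε x (Is (N + 1) j) (x j) * rS v ε x (Is (N + 1) j) (x j) ^ (-β)) :=
      Finset.measurable_prod _ fun j _ =>
        measurable_const.add ((h'.meas_KH measurable_id (measurable_pi_apply j) _).mul
          ((h'.meas_rS measurable_id (measurable_pi_apply j) _).pow_const _))
    have m2 : Measurable fun x : Fin (N + 1) → Y =>
        1 + rS v ε x (Is (N + 1) N) (x (Fin.last N)) ^ (-β) :=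
      measurable_const.add ((h'.meas_rS measurable_id (measurable_pi_apply _) _).pow_const _)
    have m3 : Measurable fun x : Fin (N + 1) → Y => ∏ p, Gam μ v u β ε n0 e x (x p) :=
      Finset.measurable_prod _ fun p _ => h'.meas_gam n0 e measurable_id (measurable_pi_apply p)
    have hm : Measurable fun x => ENNReal.ofReal (Maj μ v u β ε n0 e x) :=
      ((m1.add m2).add m3).ennreal_ofReal
    have hI : ∫⁻ x, ENNReal.ofReal (Maj μ v u β ε n0 e x) ∂(Measure.pi fun _ => μ) ≤ _ :=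
      (lintegral_mono fun x => ENNReal.ofReal_add_le.trans
        (add_le_add_left ENNReal.ofReal_add_le _)).trans <|
        (lintegral_add_right _ m3.ennreal_ofReal).trans_le <| add_le_add
          ((lintegral_add_left m1.ennreal_ofReal _).trans_le <| add_le_add h'.lint_err
            (h'.lint_last.trans_le (h'.lint_dep hA2 hCT hT')))
          (h'.lint_main hNT he hq' hA
            (h'.gam_int hv1 he (by linarith) hβ' (hOT ε hε hε1) hM) hT')
    calc _ ≤ ∫⁻ x, ∑ σ : Equiv.Perm (Fin (N + 1)),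
          ENNReal.ofReal (Maj μ v u β ε n0 e fun i => x (σ i)) ∂(Measure.pi fun _ => μ) := by
          refine lintegral_mono fun x => ?_
          obtain ⟨σ, hσ⟩ := h'.det_le_Maj (μ := μ) hn hγ hp hq hpq hpβ x
          refine le_trans ?_ (Finset.single_le_sum (f := fun σ : Equiv.Perm (Fin (N + 1)) =>
            ENNReal.ofReal (Maj μ v u β ε n0 e fun i => x (σ i))) (fun _ _ => zero_le)
            (Finset.mem_univ σ))
          rw [← ofReal_norm, ENNReal.ofReal_rpow_of_pos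
            (norm_pos_iff.2 (Gm_posDef hε _ _).det_pos.ne')]
          exact ENNReal.ofReal_le_ofReal hσ
      _ ≤ _ := by
          have hm' : ∀ σ : Equiv.Perm (Fin (N + 1)), Measurable fun x : Fin (N + 1) → Y =>
              ENNReal.ofReal (Maj μ v u β ε n0 e fun i => x (σ i)) := fun σ => hm.comp
            (measurable_pi_lambda (fun (x : Fin (N + 1) → Y) i => x (σ i))
              fun i => measurable_pi_apply _)
          rw [lintegral_finsetSum _ fun σ _ => hm' σ]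
          refine Finset.sum_le_sum fun σ _ => ?_
          exact (lint_perm hm σ).trans_le hI
  refine lt_of_le_of_lt ?_ hC
  have hl := lintegral_liminf_le (μ := Measure.pi fun _ : Fin (N + 1) => μ) (u := atTop)
    (f := fun (k : ℕ) x => ‖(Gm (1 / ((k : ℝ) + 1)) (fun j => v (x j)) Finset.univ).det‖ₑ ^ (-γ))
    fun k => (hmd _).enorm.pow_const _
  refine le_trans (le_of_eq ?_) (hl.trans (liminf_le_of_frequently_le' (Frequently.of_forall fun k =>
    hC' _ (by positivity) ((div_le_one (by positivity)).2 (by linarith [Nat.cast_nonneg (α := ℝ) k])))))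
  congr 1; funext x
  have hc : Continuous fun ε : ℝ => ‖(Gm ε (fun j => v (x j)) Finset.univ).det‖ₑ ^ (-γ) := by
    refine ENNReal.continuous_rpow_const.comp (Continuous.enorm (Continuous.matrix_det ?_))
    exact (continuous_ofReal.smul continuous_const).add continuous_const
  refine Eq.trans ?_ ((hc.tendsto 0).comp tendsto_one_div_add_atTop_nhds_zero_nat).liminf_eq.symm
  rw [det_gram, ← ENNReal.rpow_two, ← ENNReal.rpow_mul, mul_neg]

end Pool.Agent.Lib.MP_bc3ae6_ag
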