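import Mathlib

set_option autoImplicit false
set_option linter.unusedSectionVars false

/-! Quadratic forms of positive matrices and of their inverses. -/

namespace Pool.Agent.Lib.MP_bc3ae6_ag

open Matrix Complex
open scoped ComplexOrder ComplexConjugate MatrixOrder

variable {κ : Type} [Fintype κ] [DecidableEq κ]

/-- Quadratic form. -/
noncomputable def Qf (M : Matrix κ κ ℂ) (c : κ → ℂ) : ℝ := (star c ⬝ᵥ M *ᵥ c).re

/-- Dual quadratic form. -/
noncomputable def Kq (M : Matrix κ κ ℂ) (v : κ → ℂ) : ℝ := Qf M⁻¹ v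

/-- Squared Euclidean norm. -/
noncomputable def nsq (c : κ → ℂ) : ℝ := ∑ i, ‖c i‖ ^ 2

lemma nsq_nonneg (c : κ → ℂ) : 0 ≤ nsq c := Finset.sum_nonneg fun _ _ => sq_nonneg _

lemma star_dot_self (c : κ → ℂ) : star c ⬝ᵥ c = (nsq c : ℂ) := by
  simp [nsq, dotProduct, conj_mul']

lemma Qf_coe {M : Matrix κ κ ℂ} (hM : M.PosSemidef) (c : κ → ℂ) :
    (Qf M c : ℂ) = star c ⬝ᵥ M *ᵥ c := by
  have := hM.dotProduct_mulVec_nonneg c
  rw [Complex.le_def] at this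
  apply Complex.ext
  · simp [Qf]
  · simpa using this.2

lemma Qf_nonneg {M : Matrix κ κ ℂ} (hM : M.PosSemidef) (c : κ → ℂ) : 0 ≤ Qf M c :=
  hM.re_dotProduct_nonneg c

lemma Qf_add (M M' : Matrix κ κ ℂ) (c : κ → ℂ) : Qf (M + M') c = Qf M c + Qf M' c := by
  simp [Qf, add_mulVec, dotProduct_add]

lemma Qf_one (c : κ → ℂ) : Qf 1 c = nsq c := by
  simp [Qf, star_dot_self]

lemma Qf_smul (t : ℝ) (M : Matrix κ κ ℂ) (c : κ → ℂ) : Qf ((t : ℂ) • M) c = t * Qf M c := by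
  simp [Qf, smul_mulVec]

lemma Qf_sum {α : Type*} (s : Finset α) (M : α → Matrix κ κ ℂ) (c : κ → ℂ) :
    Qf (∑ i ∈ s, M i) c = ∑ i ∈ s, Qf (M i) c := by
  classical
  induction s using Finset.induction_on with
  | empty => simp [Qf]
  | insert a s ha ih => simp [Finset.sum_insert ha, Qf_add, ih]

lemma Qf_vecMulVec (v c : κ → ℂ) : Qf (vecMulVec v (star v)) c = ‖star v ⬝ᵥ c‖ ^ 2 := by
  rw [Qf, vecMulVec_mulVec, dotProduct_smul, star_dotProduct c v, MulOpposite.smul_eq_mul_unop,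
    MulOpposite.unop_op, star_def, conj_mul']
  norm_cast

lemma Qf_BB (B : Matrix κ κ ℂ) (c : κ → ℂ) : Qf (star B * B) c = nsq (B *ᵥ c) := by
  rw [Qf, ← mulVec_mulVec, dotProduct_mulVec, star_eq_conjTranspose, ← star_mulVec, star_dot_self,
    ofReal_re]

lemma dot_cs (a b : κ → ℂ) : ‖star a ⬝ᵥ b‖ ^ 2 ≤ nsq a * nsq b := by
  have h1 : ‖star a ⬝ᵥ b‖ ≤ ∑ i, ‖a i‖ * ‖b i‖ :=
    (norm_sum_le _ _).trans (le_of_eq (Finset.sum_congr rfl fun i _ => by simp))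
  exact (pow_le_pow_left₀ (norm_nonneg _) h1 2).trans (Finset.sum_mul_sq_le_sq_mul_sq _ _ _)

lemma Qf_cs {M : Matrix κ κ ℂ} (hM : M.PosSemidef) (a b : κ → ℂ) :
    ‖star a ⬝ᵥ M *ᵥ b‖ ^ 2 ≤ Qf M a * Qf M b := by
  obtain ⟨B, rfl⟩ := CStarAlgebra.nonneg_iff_eq_star_mul_self.mp hM.nonneg
  rw [Qf_BB, Qf_BB, ← mulVec_mulVec, dotProduct_mulVec, star_eq_conjTranspose, ← star_mulVec]
  exact dot_cs _ _

lemma Kq_nonneg {M : Matrix κ κ ℂ} (hM : M.PosDef) (v : κ → ℂ) : 0 ≤ Kq M v :=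
  Qf_nonneg hM.inv.posSemidef v

lemma Kq_pos {M : Matrix κ κ ℂ} (hM : M.PosDef) {v : κ → ℂ} (hv : v ≠ 0) : 0 < Kq M v :=
  hM.inv.re_dotProduct_pos hv

lemma mul_inv_vec {M : Matrix κ κ ℂ} (hM : M.PosDef) (v : κ → ℂ) : M *ᵥ M⁻¹ *ᵥ v = v := by
  rw [mulVec_mulVec, mul_nonsing_inv _ ((isUnit_iff_isUnit_det _).1 hM.isUnit), one_mulVec]

lemma Qf_inv_vec {M : Matrix κ κ ℂ} (hM : M.PosDef) (v : κ → ℂ) : Qf M (M⁻¹ *ᵥ v) = Kq M v := by
  rw [Qf, mul_inv_vec hM, Kq, Qf, star_dotProduct, star_def, conj_re]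

lemma Kq_cs {M : Matrix κ κ ℂ} (hM : M.PosDef) (v c : κ → ℂ) :
    ‖star v ⬝ᵥ c‖ ^ 2 ≤ Kq M v * Qf M c := by
  have := Qf_cs hM.posSemidef c (M⁻¹ *ᵥ v)
  rwa [mul_inv_vec hM, Qf_inv_vec hM, star_dotProduct, norm_star, mul_comm] at this

lemma Kq_mono {M M' : Matrix κ κ ℂ} (hM : M.PosDef) (hM' : M'.PosDef) {a : ℝ} (ha : 0 ≤ a)
    (h : ∀ c, Qf M c ≤ a * Qf M' c) (v : κ → ℂ) : Kq M' v ≤ a * Kq M v := by
  have h1 := Kq_cs hM v (M'⁻¹ *ᵥ v)
  have h2 := h (M'⁻¹ *ᵥ v)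
  rw [Qf_inv_vec hM'] at h2
  rw [← Qf_coe hM'.inv.posSemidef, norm_real, Real.norm_eq_abs, sq_abs] at h1
  change Kq M' v ^ 2 ≤ _ at h1
  have h3 := Kq_nonneg hM v
  rcases (Kq_nonneg hM' v).eq_or_lt with h4 | h4
  · rw [← h4]; positivity
  · have : Kq M' v * Kq M' v ≤ (a * Kq M v) * Kq M' v := by nlinarith
    exact le_of_mul_le_mul_right this h4

lemma det_add_vec {M : Matrix κ κ ℂ} (hM : M.PosDef) (v : κ → ℂ) :
    (M + vecMulVec v (star v)).det = M.det * (1 + Kq M v) := by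
  rw [vecMulVec_eq Unit,
    det_add_replicateCol_mul_replicateRow ((isUnit_iff_isUnit_det _).1 hM.isUnit),
    Kq, Qf_coe hM.inv.posSemidef, Matrix.mul_assoc, ← replicateCol_mulVec]
  congr 1
  rw [det_unique]
  simp

lemma meas_Qf {α : Type*} [MeasurableSpace α] {M : α → Matrix κ κ ℂ} {v : α → κ → ℂ}
    (hM : ∀ i j, Measurable fun a => M a i j) (hv : ∀ i, Measurable fun a => v a i) :
    Measurable fun a => Qf (M a) (v a) := by
  simp only [Qf, dotProduct, mulVec]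
  refine Complex.measurable_re.comp (Finset.measurable_sum _ fun i _ => ?_)
  exact (continuous_star.measurable.comp (hv i)).mul
    (Finset.measurable_sum _ fun j _ => (hM i j).mul (hv j))

lemma meas_Kq {α : Type*} [MeasurableSpace α] {M : α → Matrix κ κ ℂ} {v : α → κ → ℂ}
    (hM : ∀ i j, Measurable fun a => M a i j) (hv : ∀ i, Measurable fun a => v a i) :
    Measurable fun a => Kq (M a) (v a) := by
  refine meas_Qf (fun i j => ?_) hv
  have h0 : Measurable fun a => (fun i j => M a i j : κ → κ → ℂ) :=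
    measurable_pi_lambda _ fun i => measurable_pi_lambda _ fun j => hM i j
  have h1 : Continuous fun A : κ → κ → ℂ => (Matrix.of A).det :=
    Continuous.matrix_det continuous_id
  have h2 : Continuous fun A : κ → κ → ℂ => (Matrix.of A).adjugate i j :=
    (Continuous.matrix_adjugate (continuous_id (X := κ → κ → ℂ))).matrix_elem i j
  have e : ∀ a, (M a)⁻¹ i j = (M a).det⁻¹ * (M a).adjugate i j := fun a => by
    rw [Matrix.inv_def, Ring.inverse_eq_inv', Matrix.smul_apply, smul_eq_mul]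
  simp only [e]
  exact (h1.measurable.comp h0).inv.mul (h2.measurable.comp h0)

lemma Qf_le_of_entries {D : Matrix κ κ ℂ} {η : ℝ} (h : ∀ i j, ‖D i j‖ ≤ η) (c : κ → ℂ) :
    Qf D c ≤ η * Fintype.card κ * nsq c := by
  have h1 : Qf D c ≤ ∑ i, ∑ j, η * (‖c i‖ * ‖c j‖) := by
    refine (re_le_norm _).trans ((norm_sum_le _ _).trans (Finset.sum_le_sum fun i _ => ?_))
    simp only [mulVec, dotProduct, Finset.mul_sum]
    refine (norm_sum_le _ _).trans (Finset.sum_le_sum fun j _ => ?_)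
    simp only [norm_mul, Pi.star_apply, norm_star]
    nlinarith [h i j, mul_nonneg (norm_nonneg (c i)) (norm_nonneg (c j))]
  rcases isEmpty_or_nonempty κ with hκ | ⟨⟨i⟩⟩
  · simpa using h1
  have hη : 0 ≤ η := (norm_nonneg _).trans (h i i)
  refine h1.trans ?_
  simp only [← Finset.mul_sum, ← Finset.sum_mul]
  rw [mul_assoc, ← sq]
  gcongr
  simpa [nsq] using sq_sum_le_card_mul_sum_sq (s := Finset.univ) (f := fun i => ‖c i‖)

/-- Regularised Gram matrix. -/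
noncomputable def Gm {α : Type*} (ε : ℝ) (v : α → κ → ℂ) (S : Finset α) : Matrix κ κ ℂ :=
  (ε : ℂ) • 1 + ∑ j ∈ S, vecMulVec (v j) (star (v j))

lemma Gm_posDef {α : Type*} {ε : ℝ} (hε : 0 < ε) (v : α → κ → ℂ) (S : Finset α) :
    (Gm ε v S).PosDef :=
  (PosDef.one.smul (by exact_mod_cast hε)).add_posSemidef
    (posSemidef_sum _ fun _ _ => posSemidef_vecMulVec_self_star _)

lemma Qf_Gm {α : Type*} (ε : ℝ) (v : α → κ → ℂ) (S : Finset α) (c : κ → ℂ) :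
    Qf (Gm ε v S) c = ε * nsq c + ∑ j ∈ S, ‖star (v j) ⬝ᵥ c‖ ^ 2 := by
  simp only [Gm, Qf_add, Qf_smul, Qf_one, Qf_sum, Qf_vecMulVec]

/-- Regularised density of states. -/
noncomputable def rho {α : Type*} (ε : ℝ) (v : α → κ → ℂ) (S : Finset α) (w : κ → ℂ) : ℝ :=
  ε * (1 + Kq (Gm ε v S) w)

section
variable {α : Type*} {ε : ℝ} (hε : 0 < ε) (v : α → κ → ℂ)
include hε

lemma le_rho (S : Finset α) (w : κ → ℂ) : ε ≤ rho ε v S w :=
  le_mul_of_one_le_right hε.le (by linarith [Kq_nonneg (Gm_posDef hε v S) w])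

lemma rho_pos (S : Finset α) (w : κ → ℂ) : 0 < rho ε v S w := hε.trans_le (le_rho hε v S w)

lemma rho_anti {S T : Finset α} (h : S ⊆ T) (w : κ → ℂ) : rho ε v T w ≤ rho ε v S w := by
  have := Kq_mono (Gm_posDef hε v S) (Gm_posDef hε v T) zero_le_one (fun c => by
    rw [one_mul, Qf_Gm, Qf_Gm]
    gcongr) w
  unfold rho
  gcongr
  linarith

lemma sq_le_rho {S : Finset α} {a : κ → ℂ} (ha : nsq a = 1) (h : ∀ j ∈ S, star (v j) ⬝ᵥ a = 0)
    (w : κ → ℂ) : ‖star w ⬝ᵥ a‖ ^ 2 ≤ rho ε v S w := by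
  have := Kq_cs (Gm_posDef hε v S) w a
  rw [Qf_Gm, ha, Finset.sum_eq_zero (fun j hj => by simp [h j hj])] at this
  unfold rho
  nlinarith

lemma rho_repr (S : Finset α) : ∃ B : Matrix κ κ ℂ, (∀ i j, ‖B i j‖ ≤ 1) ∧
    ∀ w, rho ε v S w = ε + nsq (B *ᵥ w) := by
  have h1 : ((ε : ℂ) • (Gm ε v S)⁻¹).PosSemidef :=
    (Gm_posDef hε v S).inv.posSemidef.smul (by exact_mod_cast hε.le)
  obtain ⟨B, hB⟩ := CStarAlgebra.nonneg_iff_eq_star_mul_self.mp h1.nonneg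
  have h2 : ∀ w, nsq (B *ᵥ w) = ε * Kq (Gm ε v S) w := fun w => by
    rw [← Qf_BB, ← hB, Qf_smul, Kq]
  refine ⟨B, fun i j => ?_, fun w => by rw [h2, rho]; ring⟩
  have h3 := Kq_mono PosDef.one (Gm_posDef hε v S) (a := ε⁻¹) (by positivity) (fun c => by
    rw [Qf_Gm, Qf_one, mul_add, ← mul_assoc, inv_mul_cancel₀ hε.ne', one_mul]
    exact le_add_of_nonneg_right (by positivity)) (Pi.single j 1)
  have h4 : Kq (1 : Matrix κ κ ℂ) (Pi.single j 1) = 1 := by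
    rw [Kq, inv_one, Qf_one, nsq, Finset.sum_eq_single j] <;> simp +contextual
  have h5 : ‖B i j‖ ^ 2 ≤ nsq (B *ᵥ Pi.single j 1) := by
    have := Finset.single_le_sum (f := fun i => ‖(B *ᵥ Pi.single j 1) i‖ ^ 2)
      (fun _ _ => sq_nonneg _) (Finset.mem_univ i)
    simpa [nsq] using this
  rw [h2] at h5
  rw [h4, mul_one] at h3
  have h6 : ε * Kq (Gm ε v S) (Pi.single j 1) ≤ 1 := by
    calc _ ≤ ε * ε⁻¹ := by gcongr
      _ = 1 := mul_inv_cancel₀ hε.ne'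
  nlinarith [norm_nonneg (B i j)]

lemma det_Gm_insert [DecidableEq α] {S : Finset α} {j : α} (hj : j ∉ S) :
    (ε : ℂ) * (Gm ε v (insert j S)).det = (Gm ε v S).det * rho ε v S (v j) := by
  have : Gm ε v (insert j S) = Gm ε v S + vecMulVec (v j) (star (v j)) := by
    simp only [Gm, Finset.sum_insert hj]; abel
  rw [this, det_add_vec (Gm_posDef hε v S), rho]
  push_cast; ring

end

lemma rho_congr {α β : Type*} [DecidableEq β] (ε : ℝ) (v : β → κ → ℂ) (e : α → β) {S : Finset α}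
    (he : Set.InjOn e S) (w : κ → ℂ) : rho ε (fun j => v (e j)) S w = rho ε v (S.image e) w := by
  simp only [rho, Gm, Finset.sum_image he]

end Pool.Agent.Lib.MP_bc3ae6_ag
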