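import Pool.Agent.Lib.MP_bc3ae6_ag.Bas

set_option autoImplicit false
set_option linter.unusedSectionVars false

/-! Lagrange interpolation on the cone. -/

namespace Pool.Agent.Lib.MP_bc3ae6_ag

open MvPolynomial Set Metric MeasureTheory Filter Topology
open scoped Polynomial ENNReal NNReal

variable {n M : ℕ} {I : Ideal (MP M)} {θ : Fin n → MP M} {d : ℕ} {F : Fin M → (MP n)[X]}
  {h : MvPolynomial (Fin n ⊕ Fin M) ℂ}

lemma lagr_lin {N k : ℕ} (E : (Fin N → ℂ) →ₗ[ℂ] (Fin k → ℂ)) (α : Fin k → Fin N → ℂ)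
    (σ : Fin k → ℂ) (hE : ∀ i j, E (α i) j = if j = i then σ i else 0) {δ B : ℝ} (hδ : 0 < δ)
    (hσ : ∀ i, δ ≤ ‖σ i‖) (hα : ∀ i, ‖α i‖ ≤ B) :
    Module.finrank ℂ (LinearMap.ker E) + k ≤ N ∧ ∀ (a : Fin N → ℂ) (τ : ℝ),
      (∀ i, ‖E a i‖ ≤ τ) → ∃ a' ∈ LinearMap.ker E, ‖a - a'‖ ≤ k * (τ / δ * B) := by
  have h0 : ∀ i, σ i ≠ 0 := fun i => norm_pos_iff.1 (hδ.trans_le (hσ i))
  have key : ∀ y : Fin k → ℂ, E (∑ i, (y i / σ i) • α i) = y := fun y => by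
    funext j
    rw [map_sum, Finset.sum_apply]
    simp only [map_smul, Pi.smul_apply, hE, smul_eq_mul, mul_ite, mul_zero]
    rw [Finset.sum_ite_eq, if_pos (Finset.mem_univ _), div_mul_cancel₀ _ (h0 j)]
  refine ⟨?_, fun a τ ha => ⟨a - ∑ i, (E a i / σ i) • α i, ?_, ?_⟩⟩
  · have h1 := E.finrank_range_add_finrank_ker
    rw [LinearMap.range_eq_top.2 fun y => ⟨_, key y⟩, finrank_top] at h1
    simp only [Module.finrank_fintype_fun_eq_card, Fintype.card_fin] at h1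
    omega
  · rw [LinearMap.mem_ker, map_sub, key, sub_self]
  · rw [sub_sub_cancel]
    refine (norm_sum_le _ _).trans ((Finset.sum_le_card_nsmul _ _ (τ / δ * B) fun i _ => ?_).trans
      (by simp))
    rw [norm_smul, norm_div]
    have h2 : 0 ≤ τ := (norm_nonneg _).trans (ha i)
    exact mul_le_mul (div_le_div₀ h2 (ha i) hδ (hσ i)) (hα i) (norm_nonneg _) (by positivity)

lemma lagr_cpt {K K' : Set (Fin M → ℂ)} (hK : IsCompact K) (hK' : IsCompact K') {P : MP M → Prop}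
    (hP : ∀ x ∈ K, ∃ p, P p ∧ eval x p ≠ 0) : ∃ c B : ℝ, 0 < c ∧ 0 ≤ B ∧ ∀ x ∈ K, ∃ p, P p ∧
      c ≤ ‖eval x p‖ ∧ ∀ y ∈ K', ‖eval y p‖ ≤ B := by
  refine hK.induction_on (p := fun S => ∃ c B : ℝ, 0 < c ∧ 0 ≤ B ∧ ∀ x ∈ S, ∃ p, P p ∧
      c ≤ ‖eval x p‖ ∧ ∀ y ∈ K', ‖eval y p‖ ≤ B) ⟨1, 0, one_pos, le_rfl, by simp⟩ ?_ ?_ ?_
  · rintro S T hST ⟨c, B, hc, hB, H⟩
    exact ⟨c, B, hc, hB, fun x hx => H x (hST hx)⟩
  · rintro S T ⟨c, B, hc, hB, H⟩ ⟨c', B', hc', hB', H'⟩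
    refine ⟨min c c', max B B', lt_min hc hc', le_max_of_le_left hB, ?_⟩
    rintro x (hx | hx)
    · obtain ⟨p, h1, h2, h3⟩ := H x hx
      exact ⟨p, h1, (min_le_left _ _).trans h2, fun y hy => (h3 y hy).trans (le_max_left _ _)⟩
    · obtain ⟨p, h1, h2, h3⟩ := H' x hx
      exact ⟨p, h1, (min_le_right _ _).trans h2, fun y hy => (h3 y hy).trans (le_max_right _ _)⟩
  · intro x hx
    obtain ⟨p, h1, h2⟩ := hP x hx
    obtain ⟨B, hB⟩ := hK'.exists_bound_of_continuousOn (cont_ev p).continuousOn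
    have h3 := norm_pos_iff.2 h2
    refine ⟨{y | ‖eval x p‖ / 2 < ‖eval y p‖}, mem_nhdsWithin_of_mem_nhds
      ((isOpen_lt continuous_const (cont_ev p).norm).mem_nhds (half_lt_self h3)),
      ‖eval x p‖ / 2, max B 0, half_pos h3, le_max_right _ _, fun y hy =>
      ⟨p, h1, le_of_lt hy, fun z hz => (hB z hz).trans (le_max_left _ _)⟩⟩

lemma pr_zero {wt : Fin M → ℕ} {e : ℕ} (hH : Hom I θ wt e) : pr θ 0 = 0 := by
  funext i
  have h1 := ev_sc (two_ne_zero (α := ℝ)) (hH.hθ i) 0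
  have h2 : sc wt (two_ne_zero (α := ℝ)) (0 : Fin M → ℂ) = 0 := by
    funext l; simp [sc_apply]
  rw [h2] at h1
  have h3 : ((2 : ℝ) : ℂ) ^ e ≠ 1 := by
    have : (1 : ℝ) < 2 ^ e := one_lt_pow₀ one_lt_two hH.he.ne'
    exact_mod_cast this.ne'
  by_contra h4
  exact h3 (mul_right_cancel₀ h4 (h1.symm.trans (one_mul _).symm))

lemma lagr_pts (hn : 2 ≤ n) (k : ℕ) (w0 : Fin n → ℂ) {r : ℝ} (hr : 0 < r) :
    ∃ (a b : Fin n) (w : Fin (k + 1) → Fin n → ℂ), ‖w0 a‖ = ‖w0‖ ∧ (∀ i, w i a = w0 a) ∧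
      (∀ i, ‖w i - w0‖ ≤ r) ∧ ∀ i l, i ≠ l → r / (k + 1) ≤ ‖w i b - w l b‖ := by
  have : Nontrivial (Fin n) := Fin.nontrivial_iff_two_le.2 hn
  obtain ⟨a, -, ha'⟩ := Finset.exists_max_image Finset.univ (fun i => ‖w0 i‖) Finset.univ_nonempty
  have ha : ‖w0 a‖ = ‖w0‖ := le_antisymm (norm_le_pi_norm w0 a)
    ((pi_norm_le_iff_of_nonneg (norm_nonneg _)).2 fun i => ha' i (Finset.mem_univ i))
  obtain ⟨b, hb⟩ := exists_ne a
  have hk : (0 : ℝ) < k + 1 := by positivity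
  refine ⟨a, b, fun i => w0 + Pi.single b ((i * (r / (k + 1)) : ℝ) : ℂ), ha, fun i => ?_,
    fun i => ?_, fun i l hil => ?_⟩
  · simp [Pi.single_eq_of_ne hb.symm]
  · rw [add_sub_cancel_left, Pi.norm_single, Complex.norm_real, Real.norm_of_nonneg (by positivity),
      mul_div_assoc', div_le_iff₀ hk, mul_comm]
    gcongr
    exact_mod_cast i.2.le
  · simp only [Pi.add_apply, Pi.single_eq_same, add_sub_add_left_eq_sub]
    rw [← Complex.ofReal_sub, ← sub_mul, Complex.norm_real, norm_mul,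
      Real.norm_of_nonneg (r := r / (k + 1)) (by positivity)]
    refine le_mul_of_one_le_left (by positivity) ?_
    have h1 : ((i : ℕ) : ℤ) - (l : ℕ) ≠ 0 := fun h => hil (Fin.ext (by omega))
    have h2 := Int.one_le_abs h1
    rw [Real.norm_eq_abs]
    exact_mod_cast h2

theorem Geo.lagr (hG : Geo I θ d F h) {wt : Fin M → ℕ} {e : ℕ} (hH : Hom I θ wt e) (hn : 2 ≤ n)
    {m0 k N : ℕ} {s : Fin N → MP M} (hs : Bas I wt (m0 + e * k) s)
    (hb : ∀ x ∈ zeroLocus ℂ I, x ≠ 0 → ∃ p : MP M, p.IsWeightedHomogeneous wt m0 ∧ eval x p ≠ 0)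
    {c : ℝ} (hc : 0 < c) (hlb : ∀ a : Fin N → ℂ, ∃ x ∈ zeroLocus ℂ I, ‖pr θ x‖ ≤ 1 ∧
      c * ‖a‖ ≤ ‖eval x (lc s a)‖) {ρ : ℝ} (hρ : 0 < ρ) :
    ∃ C : ℝ, 0 < C ∧ ∀ w0 : Fin n → ℂ, ρ⁻¹ ≤ ‖w0‖ → ‖w0‖ ≤ ρ → ∀ r : ℝ, 0 < r → r ≤ 1 →
      ∃ w : Fin (k + 1) → Fin n → ℂ, (∀ i, w i ∈ closedBall w0 r) ∧
        ∀ q : Fin (k + 1) → Fin M → ℂ, (∀ i, q i ∈ zeroLocus ℂ I ∧ pr θ (q i) = w i) →
          ∃ V : Submodule ℂ (Fin N → ℂ), Module.finrank ℂ V + (k + 1) ≤ N ∧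
            ∀ (a : Fin N → ℂ) (τ : ℝ), (∀ i, ‖eval (q i) (lc s a)‖ ≤ τ) →
              ∃ a' ∈ V, ‖a - a'‖ ≤ C * τ / r ^ k := by
  classical
  have hU : IsCompact (closedBall (0 : Fin n → ℂ) (ρ + 1) ∩ {w | ρ⁻¹ ≤ ‖w‖}) :=
    (isCompact_closedBall _ _).inter_right (isClosed_le continuous_const continuous_norm)
  obtain ⟨c1, B, hc1, hB, H⟩ := lagr_cpt (hG.compact hU) (hG.compact (isCompact_closedBall 0 1))
    (P := fun p => p.IsWeightedHomogeneous wt m0) fun x hx => hb x hx.1 fun h0 => by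
      have h1 : ρ⁻¹ ≤ ‖pr θ x‖ := hx.2.2
      rw [h0, pr_zero hH, norm_zero] at h1
      exact absurd h1 (not_le.2 (inv_pos.2 hρ))
  have hk : (0 : ℝ) < k + 1 := by positivity
  refine ⟨(k + 1) * ((B * (2 * (ρ + 1)) ^ k / c + 1) / (c1 * (ρ⁻¹ / (k + 1)) ^ k)), by positivity,
    fun w0 h1 h2 r hr hr1 => ?_⟩
  obtain ⟨a, b, w, ha, hwa, hw, hwb⟩ := lagr_pts hn k w0 hr
  refine ⟨w, fun i => mem_closedBall_iff_norm.2 (hw i), fun q hq => ?_⟩
  have hw1 : ∀ i, ‖w i‖ ≤ ρ + 1 := fun i => by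
    have := norm_add_le (w i - w0) w0
    rw [sub_add_cancel] at this
    linarith [hw i]
  choose p hp hp1 hp2 using fun i => H (q i) ⟨(hq i).1, by
    rw [(hq i).2]
    refine ⟨mem_closedBall_zero_iff.2 (hw1 i), ?_⟩
    exact (h1.trans (by rw [← ha, ← hwa i])).trans (norm_le_pi_norm (w i) a)⟩
  let L : Fin (k + 1) → MP M := fun l => C (w0 a) * θ b - C (w l b) * θ a
  have hL : ∀ l x, eval x (L l) = w0 a * pr θ x b - w l b * pr θ x a := fun l x => by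
    simp [L, pr]
  have hLq : ∀ l i, eval (q i) (L l) = w0 a * (w i b - w l b) := fun l i => by
    rw [hL, (hq i).2, hwa]; ring
  have hLh : ∀ l, (L l).IsWeightedHomogeneous wt e := fun l =>
    (weightedHomogeneousSubmodule ℂ wt e).sub_mem ((hH.hθ b).C_mul _) ((hH.hθ a).C_mul _)
  have hcard : ∀ i : Fin (k + 1), (Finset.univ.erase i).card = k := fun i => by simp
  have hpw : ∀ (i : Fin (k + 1)) (t : ℝ), t ^ k = ∏ _l ∈ Finset.univ.erase i, t := fun i t => by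
    rw [Finset.prod_const, hcard]
  let σ : Fin (k + 1) → MP M := fun i => p i * ∏ l ∈ Finset.univ.erase i, L l
  have hσ : ∀ i, (σ i).IsWeightedHomogeneous wt (m0 + e * k) := fun i => by
    have := (hp i).mul (IsWeightedHomogeneous.prod (Finset.univ.erase i) L (fun _ => e)
      fun l _ => hLh l)
    rwa [Finset.sum_const, hcard, smul_eq_mul, mul_comm k] at this
  choose α hα using fun i => hs.sp _ (hσ i)
  have hev : ∀ i, ∀ x ∈ zeroLocus ℂ I, eval x (lc s (α i)) = eval x (σ i) := fun i x hx => by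
    have := mem_Z.1 hx _ (hα i)
    rw [map_sub] at this
    exact (sub_eq_zero.1 this).symm
  have hn' : ∀ i x, ‖eval x (σ i)‖ = ‖eval x (p i)‖ * ∏ l ∈ Finset.univ.erase i, ‖eval x (L l)‖ :=
    fun i x => by simp only [σ, map_mul, map_prod, norm_mul, norm_prod]
  let E : (Fin N → ℂ) →ₗ[ℂ] (Fin (k + 1) → ℂ) :=
    { toFun := fun a i => eval (q i) (lc s a)
      map_add' := fun a a' => by
        funext i; simp only [ev_lc, Pi.add_apply, add_mul, Finset.sum_add_distrib]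
      map_smul' := fun t a => by
        funext i; simp only [ev_lc, Pi.smul_apply, smul_eq_mul, RingHom.id_apply, Finset.mul_sum,
          mul_assoc] }
  obtain ⟨hV, hV'⟩ := lagr_lin E α (fun i => eval (q i) (σ i)) (δ := c1 * (ρ⁻¹ * (r / (k + 1))) ^ k)
    (B := B * (2 * (ρ + 1)) ^ k / c + 1) (fun i j => by
      change eval (q j) (lc s (α i)) = _
      rw [hev i _ (hq j).1]
      split_ifs with hj
      · rw [hj]
      · simp only [σ, map_mul, map_prod]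
        rw [Finset.prod_eq_zero (Finset.mem_erase.2 ⟨hj, Finset.mem_univ j⟩) (by
          rw [hLq, sub_self, mul_zero]), mul_zero]) (by positivity) (fun i => by
      rw [hn']
      refine mul_le_mul (hp1 i) ?_ (by positivity) (norm_nonneg _)
      rw [hpw i]
      refine Finset.prod_le_prod (fun _ _ => by positivity) fun l hl => ?_
      rw [hLq, norm_mul, ha]
      exact mul_le_mul h1 (hwb i l (Finset.ne_of_mem_erase hl).symm) (by positivity)
        (norm_nonneg _)) (fun i => by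
      obtain ⟨x, hx, hx1, hx2⟩ := hlb (α i)
      rw [hev i x hx, hn'] at hx2
      refine le_add_of_le_of_nonneg ?_ zero_le_one
      rw [le_div_iff₀' hc]
      refine hx2.trans (mul_le_mul (hp2 i x ⟨hx, mem_closedBall_zero_iff.2 hx1⟩) ?_
        (by positivity) hB)
      rw [hpw i]
      refine Finset.prod_le_prod (fun _ _ => norm_nonneg _) fun l _ => ?_
      rw [hL]
      refine (norm_sub_le _ _).trans ?_
      rw [norm_mul, norm_mul, ha]
      have e1 := mul_le_mul h2 ((norm_le_pi_norm (pr θ x) b).trans hx1) (norm_nonneg _) hρ.le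
      have e2 := mul_le_mul ((norm_le_pi_norm (w l) b).trans (hw1 l))
        ((norm_le_pi_norm (pr θ x) a).trans hx1) (norm_nonneg _) (by positivity)
      linarith)
  refine ⟨_, hV, fun a τ ha => ?_⟩
  obtain ⟨a', h3, h4⟩ := hV' a τ ha
  refine ⟨a', h3, h4.trans (le_of_eq ?_)⟩
  rw [show ρ⁻¹ * (r / (k + 1)) = ρ⁻¹ / (k + 1) * r by ring, mul_pow]
  push_cast
  field_simp

end Pool.Agent.Lib.MP_bc3ae6_ag
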