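import Pool.Agent.Lib.MP_bc3ae6_ag.Horm

set_option autoImplicit false
set_option linter.unusedSectionVars false

/-! Entire functions of polynomial growth and polynomial approximation. -/

namespace Pool.Agent.Lib.MP_bc3ae6_ag

open MeasureTheory Filter Set Metric Topology Complex
open scoped ContDiff ComplexConjugate ENNReal InnerProductSpace Polynomial

lemma liouville_poly (K : ℕ) : ∀ {h : ℂ → ℂ} {C : ℝ}, Differentiable ℂ h →
    (∀ t, ‖h t‖ ≤ C * (1 + ‖t‖) ^ K) → ∃ q : ℂ[X], q.natDegree ≤ K ∧ ∀ t, h t = q.eval t := by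
  induction K with
  | zero =>
    intro h C hd hb
    refine ⟨Polynomial.C (h 0), by simp, fun t => ?_⟩
    rw [Polynomial.eval_C]
    refine hd.apply_eq_apply_of_bounded (isBounded_iff_forall_norm_le.2 ⟨C, ?_⟩) _ _
    rintro _ ⟨t, rfl⟩
    simpa using hb t
  | succ K ih =>
    intro h C hd hb
    have hd' : Differentiable ℂ (dslope h 0) := by
      rw [← differentiableOn_univ] at hd ⊢
      exact (differentiableOn_dslope univ_mem).2 hd
    obtain ⟨B, hB⟩ := (isCompact_closedBall (0 : ℂ) 1).exists_bound_of_continuousOn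
      hd'.continuous.continuousOn
    have hC : 0 ≤ C := by simpa using (norm_nonneg _).trans (hb 0)
    have hB0 : 0 ≤ B := (norm_nonneg _).trans (hB 0 (by simp))
    have e : ∀ t, h t = h 0 + t * dslope h 0 t := fun t => by
      have := sub_smul_dslope h 0 t
      simp only [sub_zero, smul_eq_mul] at this
      rw [this]; ring
    obtain ⟨q, hq, hq'⟩ := ih (C := B + 4 * C) hd' fun t => by
      have h1 : 1 ≤ (1 + ‖t‖) ^ K := one_le_pow₀ (by linarith [norm_nonneg t])
      by_cases ht : ‖t‖ ≤ 1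
      · have := hB t (by simpa using ht)
        nlinarith
      · push Not at ht
        have h2 : ‖t‖ * ‖dslope h 0 t‖ ≤ C * (1 + ‖t‖) ^ (K + 1) + C := by
          rw [← norm_mul, show t * dslope h 0 t = h t - h 0 by rw [e t]; ring]
          refine (norm_sub_le _ _).trans (add_le_add (hb t) (by simpa using hb 0))
        have h3 : C * (1 + ‖t‖) ^ (K + 1) + C ≤ ‖t‖ * ((B + 4 * C) * (1 + ‖t‖) ^ K) := by
          rw [pow_succ]
          have : 0 ≤ C * (1 + ‖t‖) ^ K := by positivity
          have h4 : 0 ≤ B * (1 + ‖t‖) ^ K * ‖t‖ := by positivity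
          nlinarith
        exact le_of_mul_le_mul_left (h2.trans h3) (by linarith)
    refine ⟨Polynomial.C (h 0) + Polynomial.X * q, ?_, fun t => ?_⟩
    · refine (Polynomial.natDegree_add_le _ _).trans (max_le (by simp) ?_)
      refine Polynomial.natDegree_mul_le.trans ?_
      rw [Polynomial.natDegree_X]; omega
    · rw [e t, hq']; simp

variable {ι : Type} [Fintype ι] [DecidableEq ι]

/-- One variable Lagrange basis. -/
noncomputable def LB (K : ℕ) (i : Fin (K + 1)) : ℂ[X] :=
  Lagrange.basis Finset.univ (fun i : Fin (K + 1) => ((i : ℕ) : ℂ)) i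

/-- Lagrange basis of the polynomials of degree at most `K` in each variable. -/
noncomputable def PB (K : ℕ) (a : ι → Fin (K + 1)) : MvPolynomial ι ℂ :=
  ∏ j, Polynomial.aeval (MvPolynomial.X j) (LB K (a j))

lemma eval_PB (K : ℕ) (a : ι → Fin (K + 1)) (z : ι → ℂ) :
    MvPolynomial.eval z (PB K a) = ∏ j, (LB K (a j)).eval (z j) := by
  rw [PB, map_prod]
  refine Finset.prod_congr rfl fun j _ => ?_
  rw [← MvPolynomial.coe_aeval_eq_eval]
  change MvPolynomial.aeval z _ = _
  rw [← Polynomial.aeval_algHom_apply, MvPolynomial.aeval_X, Polynomial.coe_aeval_eq_eval]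

lemma node_inj (K : ℕ) : Function.Injective (fun i : Fin (K + 1) => ((i : ℕ) : ℂ)) :=
  fun _ _ h => Fin.ext (Nat.cast_injective (R := ℂ) h)

lemma eq_interp {K : ℕ} {f : (ι → ℂ) → ℂ}
    (hf : ∀ z j, ∃ q : ℂ[X], q.natDegree ≤ K ∧ ∀ t, f (Function.update z j t) = q.eval t)
    (z : ι → ℂ) :
    f z = ∑ a : ι → Fin (K + 1), f (fun j => ((a j : ℕ) : ℂ)) * MvPolynomial.eval z (PB K a) := by
  let g : (ι → ℂ) → ℂ := fun z =>
    f z - ∑ a : ι → Fin (K + 1), f (fun j => ((a j : ℕ) : ℂ)) * MvPolynomial.eval z (PB K a)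
  have hg : ∀ z j, ∃ q : ℂ[X], q.natDegree ≤ K ∧ ∀ t, g (Function.update z j t) = q.eval t := by
    intro z j
    obtain ⟨q, hq, hq'⟩ := hf z j
    refine ⟨q - ∑ a : ι → Fin (K + 1), Polynomial.C (f (fun j => ((a j : ℕ) : ℂ)) *
      ∏ i ∈ Finset.univ.erase j, (LB K (a i)).eval (z i)) * LB K (a j), ?_, fun t => ?_⟩
    · refine (Polynomial.natDegree_sub_le _ _).trans (max_le hq ?_)
      refine Polynomial.natDegree_sum_le_of_forall_le _ _ fun a _ => ?_
      refine (Polynomial.natDegree_C_mul_le _ _).trans ?_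
      rw [LB, Lagrange.natDegree_basis (node_inj K).injOn (Finset.mem_univ _)]
      simp
    · simp only [g, hq', Polynomial.eval_sub, Polynomial.eval_finsetSum, Polynomial.eval_mul,
        Polynomial.eval_C, eval_PB]
      congr 1
      refine Finset.sum_congr rfl fun a _ => ?_
      rw [← Finset.prod_erase_mul _ _ (Finset.mem_univ j), Function.update_self, mul_assoc]
      congr 2
      refine Finset.prod_congr rfl fun i hi => ?_
      rw [Function.update_of_ne (Finset.ne_of_mem_erase hi)]
  have key : ∀ S : Finset ι, ∀ z : ι → ℂ,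
      (∀ j ∉ S, ∃ i : Fin (K + 1), z j = ((i : ℕ) : ℂ)) → g z = 0 := by
    intro S
    induction S using Finset.induction_on with
    | empty =>
      intro z hz
      choose b hb using fun j => hz j (by simp)
      obtain rfl : z = fun j => ((b j : ℕ) : ℂ) := funext hb
      simp only [g]
      rw [Finset.sum_eq_single b]
      · rw [eval_PB, Finset.prod_eq_one, mul_one, sub_self]
        intro j _
        exact Lagrange.eval_basis_self (node_inj K).injOn (Finset.mem_univ _)
      · intro a _ hab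
        obtain ⟨j, hj⟩ := Function.ne_iff.1 hab
        rw [eval_PB, Finset.prod_eq_zero (Finset.mem_univ j), mul_zero]
        exact Lagrange.eval_basis_of_ne (v := fun i : Fin (K + 1) => ((i : ℕ) : ℂ)) hj
          (Finset.mem_univ _)
      · simp
    | insert j S hj ih =>
      intro z hz
      obtain ⟨q, hq, hq'⟩ := hg z j
      have : q = 0 := by
        refine Polynomial.eq_zero_of_degree_lt_of_eval_index_eq_zero Finset.univ
          (node_inj K).injOn ?_ fun i _ => ?_
        · refine Polynomial.degree_le_natDegree.trans_lt ?_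
          simp only [Finset.card_univ, Fintype.card_fin]
          exact_mod_cast Nat.lt_succ_of_le hq
        · rw [← hq']
          refine ih _ fun k hk => ?_
          by_cases hkj : k = j
          · subst hkj; exact ⟨i, by simp⟩
          · rw [Function.update_of_ne hkj]; exact hz k (by simp [hk, hkj])
      have h2 := hq' (z j)
      rwa [Function.update_eq_self, this, Polynomial.eval_zero] at h2
  exact sub_eq_zero.1 (key Finset.univ z (by simp))

lemma eq_poly_of_growth {K : ℕ} {f : (ι → ℂ) → ℂ} (hf : Sm f) (h0 : ∀ j z, P I j f z = 0) {C : ℝ}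
    (hC : ∀ z, ‖f z‖ ≤ C * (1 + ‖z‖) ^ K) (z : ι → ℂ) :
    f z = ∑ a : ι → Fin (K + 1), f (fun j => ((a j : ℕ) : ℂ)) * MvPolynomial.eval z (PB K a) := by
  refine eq_interp (fun z j => ?_) z
  have hC0 : 0 ≤ C := by simpa using (norm_nonneg _).trans (hC 0)
  refine liouville_poly K (C := C * (1 + ‖z‖) ^ K) (fun t => ?_) fun t => ?_
  · have h1 : HasFDerivAt (fun t : ℂ => Function.update z j t)
        (ContinuousLinearMap.single ℝ (fun _ : ι => ℂ) j) t := by
      have := hasFDerivAt_update (𝕜 := ℝ) z (i := j) t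
      refine this.congr_fderiv ?_
      ext1 s
      funext k
      by_cases hk : k = j
      · subst hk; simp
      · simp [hk]
    have h2 := (hf.dAt (Function.update z j t)).hasFDerivAt.comp t h1
    refine differentiableAt_complex_iff_differentiableAt_real.2 ⟨h2.differentiableAt, ?_⟩
    have e : fderiv ℝ (fun t : ℂ => f (Function.update z j t)) t = _ := h2.fderiv
    rw [e]
    have h3 := h0 j (Function.update z j t)
    simp only [P, div_eq_zero_iff, OfNat.ofNat_ne_zero, or_false] at h3
    simp only [ContinuousLinearMap.comp_apply, ContinuousLinearMap.single_apply, smul_eq_mul]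
    linear_combination (-I) * h3 +
      fderiv ℝ f (Function.update z j t) (Pi.single j I) * I_mul_I
  · refine (hC _).trans ?_
    rw [mul_assoc, ← mul_pow]
    have : ‖Function.update z j t‖ ≤ ‖z‖ + ‖t‖ := by
      refine (pi_norm_le_iff_of_nonneg (by positivity)).2 fun k => ?_
      by_cases hk : k = j
      · subst hk; simp
      · rw [Function.update_of_ne hk]; linarith [norm_le_pi_norm z k, norm_nonneg t]
    gcongr
    nlinarith [norm_nonneg z, norm_nonneg t]

/-- Polynomial approximation with Hoermander's estimate. -/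
theorem hormander_poly {φ : (ι → ℂ) → ℝ} (hφ : ContDiff ℝ ∞ φ) {K : ℕ} {C : ℝ}
    (hC : ∀ z, Real.exp (φ z / 2) ≤ C * (1 + ‖z‖) ^ K)
    {g : (ι → ℂ) → ℂ} (hg : Tst g) {G : (ι → ℂ) → ℝ} (hG : Continuous G)
    (hGc : HasCompactSupport G) (hG0 : ∀ z, 0 ≤ G z)
    (h : ∀ z ξ : ι → ℂ, 2 * ‖∑ j, conj (P I j g z) * ξ j‖ ≤ G z + Levi φ z ξ)
    (R : ℝ) {η : ℝ≥0∞} (hη : 0 < η) :
    ∃ c : (ι → Fin (K + 1)) → ℂ, ∫⁻ z in closedBall 0 R,
      ‖g z - ∑ a, c a * MvPolynomial.eval z (PB K a)‖ₑ ^ 2 * ENNReal.ofReal (Real.exp (-φ z))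
        ≤ 16 * (∫⁻ z, ENNReal.ofReal (G z * Real.exp (-φ z))) + η := by
  obtain ⟨u, hu1, hu2⟩ := hormander_L2 hφ hg hG hGc h
  have hu3 : ∫⁻ z, ‖u z‖ₑ ^ 2 ≤ ∫⁻ z, ENNReal.ofReal (G z * Real.exp (-φ z)) := by
    have i1 : Integrable fun z => G z * Real.exp (-φ z) :=
      (hG.mul hφ.continuous.neg.rexp).integrable_of_hasCompactSupport hGc.mul_right
    rw [← enorm_sq_H0, ← ofReal_integral_eq_lintegral_ofReal i1
      (Eventually.of_forall fun z => mul_nonneg (hG0 z) (Real.exp_pos _).le), ← ofReal_norm,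
      ← ENNReal.ofReal_pow (norm_nonneg _)]
    exact ENNReal.ofReal_le_ofReal hu1
  have hu4 : ∫⁻ z, ‖u z‖ₑ ^ 2 < ⊤ := by
    rw [← enorm_sq_H0]; exact ENNReal.pow_lt_top enorm_lt_top
  have hC0 : 0 ≤ C := by simpa using (Real.exp_pos _).le.trans (hC 0)
  obtain ⟨Co, hCo⟩ := (isCompact_closedBall (0 : ι → ℂ) R).exists_bound_of_continuousOn
    (sm_om hφ).continuous.continuousOn
  obtain ⟨δ, hδ, hδ'⟩ : ∃ δ : ℝ, 0 < δ ∧
      4 * ENNReal.ofReal δ ^ 2 * volume (closedBall (0 : ι → ℂ) (R + 1)) ≤ η := by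
    have t : Tendsto (fun δ : ℝ => 4 * ENNReal.ofReal δ ^ 2 *
        volume (closedBall (0 : ι → ℂ) (R + 1))) (𝓝[>] 0) (𝓝 0) := by
      have h1 : Tendsto (fun δ : ℝ => ENNReal.ofReal δ ^ 2) (𝓝[>] 0) (𝓝 0) := by
        have := (ENNReal.continuous_ofReal.tendsto 0).mono_left (nhdsWithin_le_nhds (s := Ioi 0))
        simpa using ENNReal.Tendsto.pow (m := _) (n := 2) this
      have h2 := ENNReal.Tendsto.const_mul (a := 4) h1 (Or.inr (by simp))
      simpa using ENNReal.Tendsto.mul_const h2 (Or.inr measure_closedBall_lt_top.ne)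
    obtain ⟨δ, h1, h2⟩ := ((t.eventually (ge_mem_nhds hη)).and self_mem_nhdsWithin).exists
    exact ⟨δ, h2, h1⟩
  obtain ⟨ε1, hε1, hε1', u1⟩ := exists_unif (f := fun _ : Unit => g)
    (fun _ => hg.sm.continuous) (R + 1) (η := δ / (|Co| + 1)) (by positivity)
  obtain ⟨ε3, hε3, -, u3⟩ := exists_unif (f := fun _ : Unit => φ)
    (fun _ => hφ.continuous) (R + 1) one_pos
  obtain ⟨ρ, hρ⟩ := exists_ker (ι := ι) (ε := min ε1 ε3) (by positivity)
  have hU : LocallyIntegrable (fun y => u y * omi φ y) :=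
    locInt_mul (Lp.memLp u) (sm_omi hφ).continuous
  have hf : LocallyIntegrable (fun y => g y - u y * omi φ y) :=
    hg.integrable.locallyIntegrable.sub hU
  obtain ⟨Bg, hBg⟩ := hg.sm.continuous.bounded_above_of_compact_support hg.cs
  obtain ⟨Bρ, hBρ⟩ := hρ.sm.continuous.bounded_above_of_compact_support hρ.cs
  have hBg0 : 0 ≤ Bg := (norm_nonneg _).trans (hBg 0)
  let T : ℝ≥0∞ := 1 + ENNReal.ofReal Bρ * ∫⁻ z, ‖u z‖ₑ ^ 2
  have hT : T ≠ ⊤ := ENNReal.add_ne_top.2 ⟨by simp, ENNReal.mul_ne_top (by simp) hu4.ne⟩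
  have hgr : ∀ z, ‖moll ρ (fun y => g y - u y * omi φ y) z‖
      ≤ ((Bg + C * 2 ^ K) * T.toReal) * (1 + ‖z‖) ^ K := by
    intro z
    have hz1 : 1 ≤ (1 + ‖z‖) ^ K := one_le_pow₀ (by linarith [norm_nonneg z])
    have h1 := hρ.enorm_integral_le (g := fun y => g y - u y * omi φ y)
      (b := fun y => ENNReal.ofReal ((Bg + C * 2 ^ K) * (1 + ‖z‖) ^ K) * (1 + ‖u y‖ₑ ^ 2)) z
      (fun y hy => by
        have h2 : ‖omi φ y‖ ≤ C * 2 ^ K * (1 + ‖z‖) ^ K := by
          rw [norm_omi, mul_assoc, ← mul_pow]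
          refine (hC y).trans ?_
          have := norm_sub_norm_le y z
          rw [norm_sub_rev] at this
          gcongr
          linarith [min_le_left ε1 ε3, norm_nonneg z]
        rw [← ofReal_norm, ← ofReal_norm, ← ENNReal.ofReal_pow (norm_nonneg _), ← ENNReal.ofReal_one,
          ← ENNReal.ofReal_add zero_le_one (by positivity), ← ENNReal.ofReal_mul (by positivity)]
        refine ENNReal.ofReal_le_ofReal ((norm_sub_le _ _).trans ?_)
        rw [norm_mul]
        have h3 : ‖u y‖ * ‖omi φ y‖ ≤ (1 + ‖u y‖ ^ 2) * (C * 2 ^ K * (1 + ‖z‖) ^ K) :=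
          mul_le_mul (by nlinarith [norm_nonneg (u y)]) h2 (norm_nonneg _) (by positivity)
        have h4 : Bg ≤ Bg * (1 + ‖z‖) ^ K * (1 + ‖u y‖ ^ 2) := by
          rw [mul_assoc]
          exact le_mul_of_one_le_right hBg0 (by nlinarith [sq_nonneg ‖u y‖])
        nlinarith [hBg y])
    have h5 : ∫⁻ y, ENNReal.ofReal (ρ (z - y)) * (1 + ‖u y‖ₑ ^ 2) ≤ T := by
      simp only [mul_add, mul_one, T]
      have hm : Measurable fun y => ENNReal.ofReal (ρ (z - y)) :=
        (hρ.sm.continuous.comp (continuous_const.sub continuous_id)).measurable.ennreal_ofReal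
      rw [lintegral_add_left hm, hρ.lint_refl, ← lintegral_const_mul' _ _ (by simp)]
      refine add_le_add_right (lintegral_mono fun y => ?_) _
      gcongr
      exact (le_abs_self _).trans (hBρ _)
    simp only [mul_left_comm (ENNReal.ofReal (ρ _))] at h1
    rw [lintegral_const_mul' _ _ (by simp)] at h1
    have h6 := ENNReal.toReal_mono (ENNReal.mul_ne_top (by simp) hT)
      (h1.trans (mul_le_mul_right h5 _))
    rw [ENNReal.toReal_mul, ENNReal.toReal_ofReal (by positivity), toReal_enorm] at h6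
    calc _ ≤ _ := h6
      _ = _ := by ring
  have hp := eq_poly_of_growth (hρ.sm_moll hf)
    (fun j z => by rw [hρ.P_moll hf, hu2 _ (hρ.tst_refl z), neg_zero]) hgr
  refine ⟨fun a => moll ρ (fun y => g y - u y * omi φ y) (fun j => ((a j : ℕ) : ℂ)), ?_⟩
  simp only [← hp]
  have hb : Measurable fun y : ι → ℂ => (closedBall 0 (R + 1)).indicator
      (fun _ => ENNReal.ofReal δ) y + 2 * ‖u y‖ₑ :=
    (measurable_const.indicator measurableSet_closedBall).add ((meas_H0 u).const_mul _)
  have h7 := hρ.schur (F := (closedBall 0 R).indicator fun z =>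
    ‖om φ z * (g z - moll ρ (fun y => g y - u y * omi φ y) z)‖ₑ) hb (fun z => by
      by_cases hz : z ∈ closedBall 0 R
      · rw [indicator_of_mem hz]
        have e : om φ z * (g z - moll ρ (fun y => g y - u y * omi φ y) z) =
            ∫ y, (om φ z * (g z - (g y - u y * omi φ y))) * (ρ (z - y) : ℂ) := by
          simp only [mul_assoc, sub_mul (g z)]
          rw [integral_const_mul, integral_sub ((hρ.tst_refl z).integrable.const_mul _)
            ((hρ.tst_refl z).integrable_mul hf), integral_const_mul, hρ.int_refl, mul_one, moll]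
        rw [e]
        refine hρ.enorm_integral_le z fun y hy => ?_
        have hz' : ‖z‖ ≤ R := by simpa using hz
        have hy' : ‖y‖ ≤ R + 1 := by
          have := norm_sub_norm_le y z
          rw [norm_sub_rev] at this
          linarith [min_le_left ε1 ε3]
        have e1 : 2 * ‖u y‖ₑ = ENNReal.ofReal (2 * ‖u y‖) := by
          rw [ENNReal.ofReal_mul (by norm_num), ofReal_norm]; simp
        rw [indicator_of_mem (by simpa using hy'), ← ofReal_norm, e1,
          ← ENNReal.ofReal_add hδ.le (by positivity)]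
        refine ENNReal.ofReal_le_ofReal ?_
        have h3 := u1 () z y hy' (hy.trans_le (min_le_left _ _))
        have h4 := norm_om_omi (u3 () z y hy' (hy.trans_le (min_le_right _ _)))
        rw [dist_eq_norm, le_div_iff₀ (by positivity)] at h3
        have h5 := (hCo z hz).trans (le_abs_self Co)
        have e2 : om φ z * (g z - (g y - u y * omi φ y))
            = om φ z * (g z - g y) + om φ z * omi φ y * u y := by ring
        rw [e2]
        refine (norm_add_le _ _).trans (add_le_add ?_ ?_)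
        · rw [norm_mul]; nlinarith [norm_nonneg (g z - g y)]
        · rw [norm_mul]; gcongr
      · simp [hz])
  rw [← lintegral_indicator measurableSet_closedBall]
  refine le_trans (le_of_eq ?_) (h7.trans ?_)
  · congr 1; funext z
    by_cases hz : z ∈ closedBall 0 R
    · rw [indicator_of_mem hz, indicator_of_mem hz, enorm_mul, mul_pow, mul_comm, ← norm_om_sq,
        ENNReal.ofReal_pow (norm_nonneg _), ofReal_norm]
    · simp [hz]
  · calc _ ≤ ∫⁻ y, 16 * ‖u y‖ₑ ^ 2 + (closedBall 0 (R + 1)).indicator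
            (fun _ => 4 * ENNReal.ofReal δ ^ 2) y := lintegral_mono fun y => by
          by_cases hy : y ∈ closedBall 0 (R + 1)
          · simp only [indicator_of_mem hy]
            rcases le_total (ENNReal.ofReal δ) (2 * ‖u y‖ₑ) with h | h
            · calc _ ≤ (2 * ‖u y‖ₑ + 2 * ‖u y‖ₑ) ^ 2 := by gcongr
                _ = 16 * ‖u y‖ₑ ^ 2 := by ring
                _ ≤ _ := le_self_add
            · calc _ ≤ (ENNReal.ofReal δ + ENNReal.ofReal δ) ^ 2 := by gcongr
                _ = 4 * ENNReal.ofReal δ ^ 2 := by ring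
                _ ≤ _ := le_add_self
          · simp only [indicator_of_notMem hy, zero_add, add_zero, mul_pow]
            gcongr; norm_num
      _ ≤ _ := by
          rw [lintegral_add_left (((meas_H0 u).pow_const 2).const_mul _),
            lintegral_const_mul' _ _ (by simp), lintegral_indicator_const measurableSet_closedBall]
          gcongr

end Pool.Agent.Lib.MP_bc3ae6_ag
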