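import Pool.Agent.Lib.MP_bc3ae6_ag.Ops

set_option autoImplicit false
set_option linter.unusedSectionVars false

/-! Mollifiers, cut-offs and the Schur test. -/

namespace Pool.Agent.Lib.MP_bc3ae6_ag

open MeasureTheory Filter Set Metric Topology Complex
open scoped ContDiff ComplexConjugate Convolution ENNReal

variable {ι : Type} [Fintype ι] [DecidableEq ι]

/-- Mollifying kernels. -/
structure Ker (ε : ℝ) (ρ : (ι → ℂ) → ℝ) : Prop where
  sm : ContDiff ℝ ∞ ρ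
  nn : ∀ x, 0 ≤ ρ x
  supp : ∀ x, ρ x ≠ 0 → ‖x‖ < ε
  int : ∫ x, ρ x = 1

lemma exists_ker {ε : ℝ} (hε : 0 < ε) : ∃ ρ : (ι → ℂ) → ℝ, Ker ε ρ := by
  let b : ContDiffBump (0 : ι → ℂ) := ⟨ε / 2, ε, by positivity, by linarith⟩
  refine ⟨b.normed volume, b.contDiff_normed, b.nonneg_normed, fun x hx => ?_, b.integral_normed⟩
  have : x ∈ Function.support (b.normed volume) := hx
  rw [b.support_normed_eq] at this
  simpa using this

namespace Ker

variable {ε : ℝ} {ρ : (ι → ℂ) → ℝ} (hρ : Ker ε ρ)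
include hρ

lemma cs : HasCompactSupport ρ :=
  HasCompactSupport.of_support_subset_isCompact (isCompact_closedBall 0 ε) fun x hx => by
    simpa using (hρ.supp x hx).le

lemma tst : Tst (fun x => (ρ x : ℂ)) :=
  ⟨ofRealCLM.contDiff.comp hρ.sm, hρ.cs.mono fun x hx h => hx (by simp [h])⟩

lemma tst_refl (z : ι → ℂ) : Tst (fun y => (ρ (z - y) : ℂ)) := by
  refine ⟨hρ.tst.sm.comp (contDiff_const.sub contDiff_id), ?_⟩
  refine HasCompactSupport.of_support_subset_isCompact (isCompact_closedBall z ε) fun x hx => ?_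
  have : ρ (z - x) ≠ 0 := fun h => hx (by simp [h])
  rw [mem_closedBall, dist_comm, dist_eq_norm]
  exact (hρ.supp _ this).le

lemma integrable : Integrable ρ := hρ.sm.continuous.integrable_of_hasCompactSupport hρ.cs

lemma lint : ∫⁻ x, ENNReal.ofReal (ρ x) = 1 := by
  rw [← ofReal_integral_eq_lintegral_ofReal hρ.integrable (Eventually.of_forall hρ.nn), hρ.int]
  simp

lemma lint_refl (z : ι → ℂ) : ∫⁻ y, ENNReal.ofReal (ρ (z - y)) = 1 := by
  rw [lintegral_sub_left_eq_self (fun y => ENNReal.ofReal (ρ y)) z, hρ.lint]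

lemma lint_sub (y : ι → ℂ) : ∫⁻ z, ENNReal.ofReal (ρ (z - y)) = 1 := by
  rw [lintegral_sub_right_eq_self (fun y => ENNReal.ofReal (ρ y)) y, hρ.lint]

lemma int_refl (z : ι → ℂ) : ∫ y, (ρ (z - y) : ℂ) = 1 := by
  rw [integral_sub_left_eq_self (fun y => (ρ y : ℂ)) volume z, integral_complex_ofReal, hρ.int]
  simp

lemma schur {F b : (ι → ℂ) → ℝ≥0∞} (hb : Measurable b)
    (h : ∀ z, F z ≤ ∫⁻ y, ENNReal.ofReal (ρ (z - y)) * b y) :
    ∫⁻ z, F z ^ 2 ≤ ∫⁻ y, b y ^ 2 := by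
  have hm : Measurable fun x => ENNReal.ofReal (ρ x) := hρ.sm.continuous.measurable.ennreal_ofReal
  have h1 : ∀ z, F z ^ 2 ≤ ∫⁻ y, ENNReal.ofReal (ρ (z - y)) * b y ^ 2 := by
    intro z
    have hz : Measurable fun y => ENNReal.ofReal (ρ (z - y)) := hm.comp (measurable_const.sub measurable_id)
    have := ENNReal.lintegral_mul_le_Lp_mul_Lq (volume : Measure (ι → ℂ))
      Real.HolderConjugate.two_two
      (f := fun y => ENNReal.ofReal (ρ (z - y)) ^ (1 / 2 : ℝ))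
      (g := fun y => ENNReal.ofReal (ρ (z - y)) ^ (1 / 2 : ℝ) * b y)
      (hz.pow_const _).aemeasurable ((hz.pow_const _).mul hb).aemeasurable
    have e0 : ∀ a : ℝ≥0∞, (a ^ (1 / 2 : ℝ)) ^ (2 : ℝ) = a := fun a => by
      rw [← ENNReal.rpow_mul]; norm_num
    have e1 : ∀ a : ℝ≥0∞, a ^ (1 / 2 : ℝ) * a ^ (1 / 2 : ℝ) = a := fun a => by
      rw [← sq, ← ENNReal.rpow_two, e0]
    simp only [Pi.mul_apply, ← mul_assoc, e1, ENNReal.mul_rpow_of_nonneg _ _ (zero_le_two), e0,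
      hρ.lint_refl, ENNReal.one_rpow, one_mul] at this
    calc F z ^ 2 ≤ ((∫⁻ y, ENNReal.ofReal (ρ (z - y)) * b y ^ (2 : ℝ)) ^ (1 / 2 : ℝ)) ^ 2 := by
          gcongr; exact (h z).trans this
      _ = _ := by rw [← ENNReal.rpow_two, e0]; simp
  refine (lintegral_mono h1).trans (le_of_eq ?_)
  rw [lintegral_lintegral_swap]
  · congr 1; funext y
    have hy : Measurable fun z => ENNReal.ofReal (ρ (z - y)) :=
      hm.comp (measurable_id.sub measurable_const)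
    rw [lintegral_mul_const _ hy, hρ.lint_sub, one_mul]
  · exact ((hm.comp (measurable_fst.sub measurable_snd)).mul
      ((hb.comp measurable_snd).pow_const _)).aemeasurable

end Ker

/-- Mollification. -/
noncomputable def moll (ρ : (ι → ℂ) → ℝ) (f : (ι → ℂ) → ℂ) (z : ι → ℂ) : ℂ :=
  ∫ y, f y * (ρ (z - y) : ℂ)

lemma moll_eq (ρ : (ι → ℂ) → ℝ) (f : (ι → ℂ) → ℂ) :
    moll ρ f = f ⋆[ContinuousLinearMap.mul ℝ ℂ, volume] (fun x => (ρ x : ℂ)) := by
  funext z; simp [moll, convolution_def]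

lemma Tst.integrable_mul {ψ f : (ι → ℂ) → ℂ} (hψ : Tst ψ) (hf : LocallyIntegrable f) :
    Integrable (fun y => f y * ψ y) :=
  hf.integrable_smul_right_of_hasCompactSupport hψ.sm.continuous hψ.cs

namespace Ker

variable {ε : ℝ} {ρ : (ι → ℂ) → ℝ} (hρ : Ker ε ρ)
include hρ

lemma sm_moll {f : (ι → ℂ) → ℂ} (hf : LocallyIntegrable f) : Sm (moll ρ f) := by
  rw [moll_eq]
  exact hρ.tst.cs.contDiff_convolution_right _ hf hρ.tst.sm

lemma tst_moll {f : (ι → ℂ) → ℂ} (hf : LocallyIntegrable f) (hc : HasCompactSupport f) :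
    Tst (moll ρ f) := by
  refine ⟨hρ.sm_moll hf, ?_⟩
  rw [moll_eq]
  exact hc.convolution _ hρ.tst.cs

lemma dir_moll {f : (ι → ℂ) → ℂ} (hf : LocallyIntegrable f) (z v : ι → ℂ) :
    fderiv ℝ (moll ρ f) z v = - ∫ y, f y * fderiv ℝ (fun y => (ρ (z - y) : ℂ)) y v := by
  have h1 := hρ.tst.cs.hasFDerivAt_convolution_right (μ := volume) (ContinuousLinearMap.mul ℝ ℂ)
    hf (hρ.tst.sm.of_le (by exact_mod_cast le_top)) z
  rw [moll_eq, h1.fderiv, convolution_precompR_apply _ hf (hρ.tst.cs.fderiv ℝ)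
    (hρ.tst.sm.continuous_fderiv (by simp)), convolution_def, ← integral_neg]
  congr 1; funext y
  have h2 : HasFDerivAt (fun y => (ρ (z - y) : ℂ))
      ((fderiv ℝ (fun x => (ρ x : ℂ)) (z - y)).comp (-ContinuousLinearMap.id ℝ (ι → ℂ))) y :=
    (hρ.tst.sm.dAt (z - y)).hasFDerivAt.comp y ((hasFDerivAt_id y).const_sub z)
  rw [h2.fderiv]
  simp

lemma P_moll {f : (ι → ℂ) → ℂ} (hf : LocallyIntegrable f) (c : ℂ) (j : ι) (z : ι → ℂ) :
    P c j (moll ρ f) z = - ∫ y, f y * P c j (fun y => (ρ (z - y) : ℂ)) y := by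
  have hi : ∀ v, Integrable (fun y => f y * fderiv ℝ (fun y => (ρ (z - y) : ℂ)) y v) := fun v =>
    Tst.integrable_mul ⟨(hρ.tst_refl z).sm.dir v, (hρ.tst_refl z).cs.fderiv_apply ℝ v⟩ hf
  simp only [P, hρ.dir_moll hf]
  rw [mul_neg, ← neg_add, neg_div, ← integral_const_mul,
    ← integral_add (hi _) ((hi _).const_mul c), ← integral_div]
  congr 2; funext y
  ring

lemma enorm_integral_le {g : (ι → ℂ) → ℂ} {b : (ι → ℂ) → ℝ≥0∞} (z : ι → ℂ)
    (h : ∀ y, ‖z - y‖ < ε → ‖g y‖ₑ ≤ b y) :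
    ‖∫ y, g y * (ρ (z - y) : ℂ)‖ₑ ≤ ∫⁻ y, ENNReal.ofReal (ρ (z - y)) * b y := by
  refine (enorm_integral_le_lintegral_enorm _).trans (lintegral_mono fun y => ?_)
  by_cases h0 : ρ (z - y) = 0
  · simp [h0]
  · rw [enorm_mul, mul_comm]
    have : ‖(ρ (z - y) : ℂ)‖ₑ = ENNReal.ofReal (ρ (z - y)) := by
      rw [← ofReal_norm, norm_real, Real.norm_of_nonneg (hρ.nn _)]
    rw [this]
    gcongr
    exact h y (hρ.supp _ h0)

end Ker

lemma norm_P_le (f : (ι → ℂ) → ℂ) {c : ℂ} (hc : ‖c‖ ≤ 1) (j : ι) (z : ι → ℂ) :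
    ‖P c j f z‖ ≤ ‖fderiv ℝ f z‖ := by
  have h1 : ‖fderiv ℝ f z (Pi.single j 1)‖ ≤ ‖fderiv ℝ f z‖ := by
    simpa [Pi.norm_single] using (fderiv ℝ f z).le_opNorm (Pi.single j 1)
  have h2 : ‖fderiv ℝ f z (Pi.single j I)‖ ≤ ‖fderiv ℝ f z‖ := by
    simpa [Pi.norm_single] using (fderiv ℝ f z).le_opNorm (Pi.single j I)
  have h3 : ‖c * fderiv ℝ f z (Pi.single j I)‖ ≤ ‖fderiv ℝ f z‖ := by
    rw [norm_mul]; nlinarith [norm_nonneg c, norm_nonneg (fderiv ℝ f z (Pi.single j I))]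
  rw [P, norm_div]
  have := norm_add_le (fderiv ℝ f z (Pi.single j 1)) (c * fderiv ℝ f z (Pi.single j I))
  simp only [Complex.norm_ofNat]
  linarith

lemma exists_cutoff (R : ℝ) {η : ℝ} (hη : 0 < η) : ∃ χ : (ι → ℂ) → ℂ, Tst χ ∧ (∀ z, ‖χ z‖ ≤ 1) ∧
    (∀ z, ‖z‖ ≤ R → χ z = 1) ∧ ∀ z, ‖fderiv ℝ χ z‖ ≤ η := by
  let b : ContDiffBump (0 : ι → ℂ) := ⟨1, 2, by positivity, by linarith⟩
  have hb : Tst (fun x => (b x : ℂ)) :=
    ⟨ofRealCLM.contDiff.comp b.contDiff, b.hasCompactSupport.mono fun x hx h => hx (by simp [h])⟩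
  obtain ⟨C, hC⟩ := (hb.sm.continuous_fderiv (by simp)).bounded_above_of_compact_support
    (hb.cs.fderiv ℝ)
  have hC0 : 0 ≤ C := (norm_nonneg _).trans (hC 0)
  set t : ℝ := min (1 / (|R| + 1)) (η / (C + 1)) with ht
  have ht0 : 0 < t := by positivity
  refine ⟨fun z => (b (t • z) : ℂ), ⟨hb.sm.comp (contDiff_const_smul t), ?_⟩, fun z => ?_,
    fun z hz => ?_, fun z => ?_⟩
  · exact hb.cs.comp_smul ht0.ne'
  · simpa [abs_of_nonneg b.nonneg] using b.le_one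
  · have : b (t • z) = 1 := by
      apply b.one_of_mem_closedBall
      simp only [mem_closedBall, dist_zero_right, norm_smul, Real.norm_of_nonneg ht0.le, b]
      have h1 : t ≤ 1 / (|R| + 1) := min_le_left _ _
      rw [le_div_iff₀ (by positivity)] at h1
      nlinarith [le_abs_self R, norm_nonneg z]
    simp [this]
  · have h2 : HasFDerivAt (fun z => (b (t • z) : ℂ))
        ((fderiv ℝ (fun x => (b x : ℂ)) (t • z)).comp (t • ContinuousLinearMap.id ℝ (ι → ℂ))) z :=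
      (hb.sm.dAt (t • z)).hasFDerivAt.comp z ((hasFDerivAt_id z).const_smul t)
    rw [h2.fderiv]
    refine (ContinuousLinearMap.opNorm_comp_le _ _).trans ?_
    have h3 : ‖t • ContinuousLinearMap.id ℝ (ι → ℂ)‖ ≤ t := by
      rw [norm_smul, Real.norm_of_nonneg ht0.le]
      nlinarith [ContinuousLinearMap.norm_id_le (𝕜 := ℝ) (E := ι → ℂ)]
    have h1 : t ≤ η / (C + 1) := min_le_right _ _
    rw [le_div_iff₀ (by positivity)] at h1
    calc _ ≤ C * t := mul_le_mul (hC _) h3 (norm_nonneg _) hC0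
      _ ≤ η := by nlinarith

/-- Uniform continuity near a compact ball. -/
lemma exists_unif {κ X : Type*} [Finite κ] [PseudoMetricSpace X] {f : κ → (ι → ℂ) → X}
    (hf : ∀ i, Continuous (f i)) (R : ℝ) {η : ℝ} (hη : 0 < η) :
    ∃ ε, 0 < ε ∧ ε ≤ 1 ∧ ∀ i z y, ‖y‖ ≤ R → ‖z - y‖ < ε → dist (f i z) (f i y) ≤ η := by
  have h : ∀ i, ∃ ε, 0 < ε ∧ ∀ z y, ‖y‖ ≤ R → ‖z - y‖ < min ε 1 → dist (f i z) (f i y) ≤ η := by
    intro i
    have hu := (isCompact_closedBall (0 : ι → ℂ) (R + 1)).uniformContinuousOn_of_continuous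
      (hf i).continuousOn
    obtain ⟨δ, hδ, h⟩ := Metric.uniformContinuousOn_iff.1 hu η hη
    refine ⟨δ, hδ, fun z y hy hz => (h z ?_ y ?_ ?_).le⟩
    · have := norm_add_le (z - y) y
      simp only [sub_add_cancel] at this
      simp only [mem_closedBall, dist_zero_right]
      linarith [min_le_right δ 1]
    · simp only [mem_closedBall, dist_zero_right]; linarith
    · rw [dist_eq_norm]; linarith [min_le_left δ 1]
  choose ε hε h using h
  obtain ⟨δ, hδ, hδ'⟩ : ∃ δ > 0, ∀ i, δ ≤ ε i := by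
    rcases isEmpty_or_nonempty κ with hκ | hκ
    · exact ⟨1, one_pos, fun i => hκ.elim i⟩
    · obtain ⟨i, hi⟩ := Finite.exists_min ε
      exact ⟨ε i, hε i, hi⟩
  refine ⟨min δ 1, by positivity, min_le_right _ _, fun i z y hy hz => h i z y hy ?_⟩
  exact hz.trans_le (min_le_min_right _ (hδ' i))

end Pool.Agent.Lib.MP_bc3ae6_ag
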