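import Pool.Agent.Lib.MP_bc3ae6_ag.HX3

set_option autoImplicit false
set_option linter.unusedSectionVars false

/-! Decreasing sequences of weights, and non-integrability of point singularities. -/

namespace Pool.Agent.Lib.MP_bc3ae6_ag

open MvPolynomial Set Metric MeasureTheory Filter Topology
open scoped Polynomial ENNReal NNReal ComplexConjugate Real

section
variable {ι : Type} [Fintype ι] [DecidableEq ι]

/-- Decreasing sequences of weights with prescribed exponential and curvature bound. -/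
def WS (K : ℝ) (e : ℕ → (ι → ℂ) → ℝ) (Lv : (ι → ℂ) → (ι → ℂ) → ℝ) : Prop :=
  ∃ φ : ℕ → (ι → ℂ) → ℝ, (∀ k, PW K (φ k)) ∧ Antitone φ ∧ (∀ k z, Real.exp (-φ k z) = e k z) ∧
    ∀ k z ξ, Lv z ξ ≤ Levi (φ k) z ξ

lemma WS.add {K K' : ℝ} {e e' : ℕ → (ι → ℂ) → ℝ} {Lv Lv' : (ι → ℂ) → (ι → ℂ) → ℝ}
    (h : WS K e Lv) (h' : WS K' e' Lv') :
    WS (K + K') (fun k z => e k z * e' k z) fun z ξ => Lv z ξ + Lv' z ξ := by
  obtain ⟨φ, h1, h2, h3, h4⟩ := h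
  obtain ⟨ψ, h1', h2', h3', h4'⟩ := h'
  refine ⟨fun k z => φ k z + ψ k z, fun k => (h1 k).add (h1' k),
    fun k l hkl z => add_le_add (h2 hkl z) (h2' hkl z), fun k z => ?_, fun k z ξ => ?_⟩
  · rw [neg_add, Real.exp_add, h3, h3']
  · rw [Levi_add (h1 k).sm (h1' k).sm]; exact add_le_add (h4 k z ξ) (h4' k z ξ)

lemma WS.mono {K K' : ℝ} {e : ℕ → (ι → ℂ) → ℝ} {Lv : (ι → ℂ) → (ι → ℂ) → ℝ}
    (h : WS K e Lv) (hK : K ≤ K') : WS K' e Lv := by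
  obtain ⟨φ, h1, h2⟩ := h
  exact ⟨φ, fun k => (h1 k).mono hK, h2⟩

/-- The regularising sequence. -/
noncomputable def tk (k : ℕ) : ℝ := 1 / (k + 1 : ℝ)

lemma tk_pos (k : ℕ) : 0 < tk k := Nat.one_div_pos_of_nat

lemma tk_le (k : ℕ) : tk k ≤ 1 :=
  (div_le_one (by positivity)).2 (le_add_of_nonneg_left (Nat.cast_nonneg k))

lemma tk_lim : Tendsto tk atTop (𝓝 0) := tendsto_one_div_add_atTop_nhds_zero_nat

variable {κ : Type} [Fintype κ] (p : κ → MvPolynomial ι ℂ) {d : ℕ}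
  (hp : ∀ i, (p i).totalDegree ≤ d) {c : ℝ} (hc : 0 ≤ c)
include hp hc

lemma WS.reg : WS (c * d) (fun k z => (∑ i, ‖eval z (p i)‖ ^ 2 + tk k) ^ (-c)) fun _ _ => 0 := by
  refine ⟨fun k z => c * ls (tk k) (fun i z => eval z (p i)) z, fun k => PW.ls p hp (tk_pos k) hc,
    fun k l hkl z => ?_, fun k z => exp_neg_ls _ (tk_pos k) _ _,
    fun k z ξ => (PW.ls p hp (tk_pos k) hc).psh z ξ⟩
  have := tk_pos l
  have := Qs_nonneg (fun i z => eval z (p i)) z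
  have : tk l ≤ tk k := Nat.one_div_le_one_div hkl
  simp only [ls]; gcongr

lemma WS.fix {t : ℝ} (ht : 0 < t) : WS (c * d) (fun _ z => (∑ i, ‖eval z (p i)‖ ^ 2 + t) ^ (-c))
    fun z ξ => c * Levi (ls t fun i z => eval z (p i)) z ξ :=
  ⟨fun _ z => c * ls t (fun i z => eval z (p i)) z, fun _ => PW.ls p hp ht hc,
    fun _ _ _ => le_rfl, fun _ _ => exp_neg_ls _ ht _ _,
    fun _ z ξ => (Levi_smul (sm_ls (fun _ => Hol.poly _) ht) c z ξ).ge⟩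

lemma WS.fix0 {t : ℝ} (ht : 0 < t) :
    WS (c * d) (fun _ z => (∑ i, ‖eval z (p i)‖ ^ 2 + t) ^ (-c)) fun _ _ => 0 := by
  obtain ⟨φ, h1, h2, h3, -⟩ := WS.fix p hp hc ht
  exact ⟨φ, h1, h2, h3, fun k => (h1 k).psh⟩

end

lemma zero_of_sub' {C m : ℝ≥0∞} (hC : C < ⊤) {a : ℝ} (ha : 0 < a)
    (h : ∀ᶠ τ : ℝ in 𝓝[>] 0, m ≤ C * ENNReal.ofReal (τ ^ a)) : m = 0 := by
  have h1 : Tendsto (fun τ : ℝ => C * ENNReal.ofReal (τ ^ a)) (𝓝[>] 0)
      (𝓝 (C * ENNReal.ofReal (0 ^ a))) :=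
    ENNReal.Tendsto.const_mul (ENNReal.tendsto_ofReal (((Real.continuousAt_rpow_const 0 a
      (Or.inr ha.le)).tendsto).mono_left nhdsWithin_le_nhds)) (Or.inr hC.ne)
  rw [Real.zero_rpow ha.ne', ENNReal.ofReal_zero, mul_zero] at h1
  exact nonpos_iff_eq_zero.1 (ge_of_tendsto h1 h)

lemma enorm_rpow_neg {a : ℂ} (ha : a ≠ 0) (s : ℝ) :
    ‖a‖ₑ ^ (-(2 * s)) = ENNReal.ofReal ((‖a‖ ^ 2) ^ (-s)) := by
  rw [← ofReal_norm, ENNReal.ofReal_rpow_of_pos (norm_pos_iff.2 ha), ← Real.rpow_natCast,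
    ← Real.rpow_mul (norm_nonneg _)]
  congr 2; push_cast; ring

lemma exists_lip {σ : Type} [Fintype σ] (p : MvPolynomial σ ℂ) (R : ℝ) : ∃ L : ℝ, 0 ≤ L ∧
    (∀ x, ‖x‖ ≤ R → ‖eval x p‖ ≤ L) ∧
    ∀ x x', ‖x‖ ≤ R → ‖x'‖ ≤ R → ‖eval x p - eval x' p‖ ≤ L * ‖x - x'‖ := by
  classical
  obtain ⟨A, hA⟩ := (isCompact_closedBall (0 : σ → ℂ) R).exists_bound_of_continuousOn
    (cont_ev p).continuousOn
  obtain ⟨B, hB⟩ := (isCompact_closedBall (0 : σ → ℂ) R).exists_bound_of_continuousOn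
    ((Hol.poly p).sm.continuous_fderiv (by simp)).continuousOn
  refine ⟨|A| + |B|, by positivity, fun x hx => (hA x (mem_closedBall_zero_iff.2 hx)).trans
    (by linarith [le_abs_self A, abs_nonneg B]), fun x x' hx hx' => ?_⟩
  exact (convex_closedBall 0 R).norm_image_sub_le_of_norm_fderiv_le (𝕜 := ℝ)
    (f := fun z : σ → ℂ => eval z p) (fun z _ => (Hol.poly p).sm.dAt z) (fun z hz => (hB z hz).trans
      (by linarith [le_abs_self B, abs_nonneg A])) (mem_closedBall_zero_iff.2 hx')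
        (mem_closedBall_zero_iff.2 hx)

variable {n M : ℕ} {I : Ideal (MP M)} {θ : Fin n → MP M} {d : ℕ} {F : Fin M → (MP n)[X]}
  {h : MvPolynomial (Fin n ⊕ Fin M) ℂ}

lemma ev_inr (x : Fin M → ℂ) (a : MP M) : eval (emb θ x) (rename Sum.inr a) = eval x a := by
  rw [eval_rename]; rfl

lemma norm_le_emb (x y : Fin M → ℂ) : ‖x - y‖ ≤ ‖emb θ x - emb θ y‖ :=
  (pi_norm_le_iff_of_nonneg (norm_nonneg _)).2 fun j =>
    norm_le_pi_norm (emb θ x - emb θ y) (Sum.inr j)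

lemma norm_pr_le_emb (x y : Fin M → ℂ) : ‖pr θ x - pr θ y‖ ≤ ‖emb θ x - emb θ y‖ :=
  (pi_norm_le_iff_of_nonneg (norm_nonneg _)).2 fun j =>
    norm_le_pi_norm (emb θ x - emb θ y) (Sum.inl j)

variable (I θ) in
/-- The singular measure. -/
noncomputable def mu (f : MP M) (s : ℝ) : Measure (Fin M → ℂ) :=
  (lam I θ).withDensity fun x => ‖eval x f‖ₑ ^ (-(2 * s))

lemma meas_dens (f : MP M) (s : ℝ) : Measurable fun x => ‖eval x f‖ₑ ^ (-(2 * s)) :=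
  (cont_ev f).measurable.enorm.pow_const _

lemma lint_mu (f : MP M) (s : ℝ) {H : (Fin M → ℂ) → ℝ≥0∞} (hH : Measurable H) :
    ∫⁻ x, H x ∂(mu I θ f s) = ∫⁻ x, H x * ‖eval x f‖ₑ ^ (-(2 * s)) ∂(lam I θ) := by
  rw [mu, lintegral_withDensity_eq_lintegral_mul _ (meas_dens f s) hH]; simp [mul_comm]

namespace Geo

variable (hG : Geo I θ d F h)
include hG

lemma hx' {K : ℝ} {e : ℕ → (Fin n ⊕ Fin M → ℂ) → ℝ}
    {Lv : (Fin n ⊕ Fin M → ℂ) → (Fin n ⊕ Fin M → ℂ) → ℝ} (hW : WS K e Lv)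
    {g : (Fin n ⊕ Fin M → ℂ) → ℂ} (hg : Tst g) {G : (Fin n ⊕ Fin M → ℂ) → ℝ} (hGc : Continuous G)
    (hGs : HasCompactSupport G) (hG0 : ∀ z, 0 ≤ G z)
    (hyp : ∀ z ξ, 2 * ‖∑ j, conj (P Complex.I j g z) * ξ j‖ ≤ G z + Lv z ξ) :
    ∃ c, ∫⁻ x, ‖eval (emb θ x) (den F h) * g (emb θ x) - pc (ub θ (Kd F h K)) x c‖ₑ ^ 2 *
      ((‖eval (emb θ x) (den F h)‖ₑ ^ 2)⁻¹ * ⨆ k, ENNReal.ofReal (e k (emb θ x))) ∂(lam I θ)
      ≤ Cx M d * ∫⁻ x, ENNReal.ofReal (G (emb θ x)) *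
        ⨆ k, ENNReal.ofReal (e k (emb θ x)) ∂(lam I θ) := by
  obtain ⟨φ, h1, h2, h3, h4⟩ := hW
  simpa only [h3] using hG.hx h1 h2 hg hGc hGs hG0 fun k z ξ =>
    (hyp z ξ).trans (add_le_add_right (h4 k z ξ) _)

lemma lam_ball (y : Fin M → ℂ) {r : ℝ} (hr : 0 ≤ r) :
    lam I θ {x | ‖emb θ x - emb θ y‖ ≤ r} ≤ (d ^ M : ℕ) *
      (ENNReal.ofReal (r ^ (2 * n)) * volume (ball (0 : Fin n → ℂ) 1)) := by
  have := vol_cB (pr θ y) hr
  rw [Fintype.card_fin] at this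
  rw [← this]
  exact hG.ff.fm_le _ fun x _ hx => mem_closedBall_iff_norm.2 ((norm_pr_le_emb x y).trans hx)

lemma nonint {y : Fin M → ℂ} (hy : y ∈ zeroLocus ℂ I) (h1 : eval (emb θ y) (den F h) ≠ 0)
    {u : (Fin M → ℂ) → ℝ≥0∞} {κ c : ℝ} (hκ : 0 < κ) (hc : 0 < c)
    (hu : ∀ᶠ t : ℝ in 𝓝[>] 0, ∀ x, ‖emb θ x - emb θ y‖ ≤ t →
      ENNReal.ofReal (c * (t ^ 2) ^ (-(n + κ))) ≤ u x) : ∫⁻ x, u x ∂(lam I θ) = ⊤ := by
  have h2 : eval (emb θ y) h ≠ 0 ∧ ∀ l, eval (emb θ y) (up l (F l).derivative) ≠ 0 := by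
    simpa [den, Finset.prod_ne_zero_iff] using h1
  obtain ⟨C, hC, hC'⟩ := hG.near hy h2.1 h2.2
  obtain ⟨δ, hδ, hδ'⟩ := Metric.eventually_nhds_iff.1 hC'
  by_contra hne
  have hV := measure_ball_pos (volume : Measure (Fin n → ℂ)) 0 one_pos
  refine absurd (zero_of_sub' (lt_top_iff_ne_top.2 hne) (a := 2 * κ) (by positivity)
    (m := ENNReal.ofReal (c / C ^ (2 * n)) * volume (ball (0 : Fin n → ℂ) 1)) ?_)
    (mul_ne_zero (by simp; positivity) hV.ne')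
  filter_upwards [hu, Ioo_mem_nhdsGT hδ] with t ht ht'
  have ht0 := ht'.1
  have hm : MeasurableSet {x | ‖emb θ x - emb θ y‖ ≤ t} :=
    measurableSet_le ((cont_emb θ).sub continuous_const).norm.measurable measurable_const
  have h3 : volume (closedBall (pr θ y) (t / C)) ≤ lam I θ {x | ‖emb θ x - emb θ y‖ ≤ t} := by
    refine hG.ff.le_fm _ hm fun w hw => ?_
    have h4 : t / C ≤ t := div_le_self ht0.le hC
    obtain ⟨x, hx, e, hx'⟩ := hδ' (lt_of_le_of_lt hw (h4.trans_lt ht'.2))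
    refine ⟨x, hx, hx'.trans ?_, e⟩
    rw [mul_comm, ← le_div_iff₀ (by linarith)]
    exact mem_closedBall_iff_norm.1 hw
  rw [vol_cB _ (by positivity), Fintype.card_fin] at h3
  have h4 := (setLIntegral_mono' hm ht (μ := lam I θ)).trans (setLIntegral_le_lintegral _ _)
  rw [setLIntegral_const] at h4
  refine le_trans (le_of_eq ?_) (mul_le_mul_left ((mul_le_mul_right h3 _).trans h4) _)
  rw [← mul_assoc, mul_right_comm, ← ENNReal.ofReal_mul (by positivity),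
    ← ENNReal.ofReal_mul (by positivity)]
  congr 2
  rw [← Real.rpow_natCast t 2, ← Real.rpow_mul ht0.le, div_pow, ← Real.rpow_natCast t (2 * n)]
  have : t ^ ((2 : ℕ) * -(n + κ)) * t ^ ((2 * n : ℕ) : ℝ) * t ^ (2 * κ) = 1 := by
    rw [← Real.rpow_add ht0, ← Real.rpow_add ht0]; push_cast; ring_nf; simp
  calc _ = c / C ^ (2 * n) * (t ^ ((2 : ℕ) * -(n + κ)) * t ^ ((2 * n : ℕ) : ℝ) * t ^ (2 * κ)) := by
        rw [this, mul_one]
    _ = _ := by ring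

end Geo

/-- Linear combinations of polynomials. -/
noncomputable def lc {N : ℕ} (sv : Fin N → MP M) (a : Fin N → ℂ) : MP M := ∑ j, C (a j) * sv j

lemma ev_lc {N : ℕ} (sv : Fin N → MP M) (a : Fin N → ℂ) (x : Fin M → ℂ) :
    eval x (lc sv a) = ∑ j, a j * eval x (sv j) := by simp [lc]

lemma deg_lc {N D : ℕ} {sv : Fin N → MP M} (h : ∀ i, (sv i).totalDegree ≤ D) (a : Fin N → ℂ) :
    (lc sv a).totalDegree ≤ D :=
  totalDegree_finsetSum_le fun j _ => (totalDegree_mul _ _).trans (by simpa using h j)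

lemma lip_lc {N : ℕ} (sv : Fin N → MP M) (R : ℝ) : ∃ L : ℝ, 0 ≤ L ∧ ∀ a : Fin N → ℂ,
    (∀ j, ‖a j‖ ≤ 1) → (∀ x, ‖x‖ ≤ R → ‖eval x (lc sv a)‖ ≤ L) ∧
    ∀ x x', ‖x‖ ≤ R → ‖x'‖ ≤ R → ‖eval x (lc sv a) - eval x' (lc sv a)‖ ≤ L * ‖x - x'‖ := by
  choose L h0 h1 h2 using fun j => exists_lip (sv j) R
  refine ⟨∑ j, L j, Finset.sum_nonneg fun j _ => h0 j, fun a ha => ⟨fun x hx => ?_,
    fun x x' hx hx' => ?_⟩⟩
  · rw [ev_lc]
    refine norm_sum_le_of_le _ fun j _ => ?_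
    rw [norm_mul]
    exact (mul_le_of_le_one_left (norm_nonneg _) (ha j)).trans (h1 j x hx)
  · rw [ev_lc, ev_lc, ← Finset.sum_sub_distrib, Finset.sum_mul]
    refine norm_sum_le_of_le _ fun j _ => ?_
    rw [← mul_sub, norm_mul]
    exact (mul_le_of_le_one_left (norm_nonneg _) (ha j)).trans (h2 j x x' hx hx')

lemma rpow_two_le {a b a' b' s β : ℝ} (ha : 0 < a) (hb : 0 < b) (h1 : a ≤ a') (h2 : b ≤ b')
    (hs : 0 ≤ s) (hβ : 0 ≤ β) : a' ^ (-β) * b' ^ (-s) ≤ a ^ (-β) * b ^ (-s) :=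
  mul_le_mul (Real.rpow_le_rpow_of_nonpos ha h1 (by linarith))
    (Real.rpow_le_rpow_of_nonpos hb h2 (by linarith)) (Real.rpow_nonneg (by linarith) _)
      (by positivity)

end Pool.Agent.Lib.MP_bc3ae6_ag
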