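import Pool.Agent.Lib.MP_bc3ae6_ag.OT1

set_option autoImplicit false
set_option linter.unusedSectionVars false

/-! Extension from a point with weighted estimates and uniformly bounded degree. -/

namespace Pool.Agent.Lib.MP_bc3ae6_ag

open MvPolynomial Set Metric MeasureTheory Filter Topology
open scoped Polynomial ENNReal NNReal ComplexConjugate Real

variable {n M : ℕ} {I : Ideal (MP M)} {θ : Fin n → MP M} {d : ℕ} {F : Fin M → (MP n)[X]}
  {h : MvPolynomial (Fin n ⊕ Fin M) ℂ}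

/-- Regularised sum of squares. -/
noncomputable def rh {N : ℕ} (t : Fin N → MP M) (ε : ℝ) (x : Fin M → ℂ) : ℝ :=
  ∑ i, ‖eval x (t i)‖ ^ 2 + ε

lemma rh_pos {N : ℕ} (t : Fin N → MP M) {ε : ℝ} (hε : 0 < ε) (x : Fin M → ℂ) : 0 < rh t ε x := by
  unfold rh; positivity

lemma cont_rh {N : ℕ} (t : Fin N → MP M) (ε : ℝ) : Continuous (rh t ε) :=
  (continuous_finsetSum _ fun _ _ => (cont_ev _).norm.pow 2).add continuous_const

lemma cut_data {ι : Type} [Fintype ι] [DecidableEq ι] (y : ι → ℂ) {r : ℝ} (hr : 0 < r) :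
    let p : ι → (ι → ℂ) → ℂ := fun j z => eval z (X j - C (y j) : MvPolynomial ι ℂ)
    Tst (cut p r) ∧ HasCompactSupport (fun z => deriv chi (Qs p z / r ^ 2) ^ 2) ∧
      (∀ z, Qs p z = nsq (z - y)) ∧ (∀ z, r < ‖z - y‖ → cut p r z = 0) ∧
      (∀ z, nsq (z - y) ≤ r ^ 2 / 4 → cut p r z = 1) ∧
      ∀ z, deriv chi (Qs p z / r ^ 2) ≠ 0 → r ^ 2 / 4 ≤ nsq (z - y) ∧ ‖z - y‖ ≤ r := by
  intro p
  have e : ∀ z, Qs p z = nsq (z - y) := fun z => by simp [Qs, nsq, p]
  have h1 : ∀ z, r < ‖z - y‖ → 1 < Qs p z / r ^ 2 := fun z hz => by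
    rw [e, lt_div_iff₀ (by positivity)]; nlinarith [sq_le_nsq (z - y)]
  have h2 : ∀ z, r < ‖z - y‖ → cut p r z = 0 := fun z hz => by simp [cut, chi_zero (h1 z hz).le]
  refine ⟨⟨sm_cut (fun _ => Hol.poly _) r, HasCompactSupport.intro (isCompact_closedBall y r)
    fun z hz => h2 z (by simpa [dist_eq_norm] using hz)⟩,
    HasCompactSupport.intro (isCompact_closedBall y r) fun z hz => ?_, e, h2, fun z hz => ?_,
    fun z hz => ⟨?_, le_of_not_gt fun h => hz (dchi_gt (h1 z h))⟩⟩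
  · rw [dchi_gt (h1 z (by simpa [dist_eq_norm] using hz))]; simp
  · rw [cut, chi_one (by rw [e, div_le_iff₀ (by positivity)]; linarith)]; simp
  · refine le_of_not_gt fun h => hz (dchi_lt ?_)
    rw [e, div_lt_iff₀ (by positivity)]; linarith

variable (θ) in
/-- Squared distance on the graph. -/
noncomputable def qd (y x : Fin M → ℂ) : ℝ := nsq (emb θ x - emb θ y)

lemma qd_nonneg (y x : Fin M → ℂ) : 0 ≤ qd θ y x := nsq_nonneg _

variable (θ) in
/-- The weight used for the extension. -/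
noncomputable def ew (ρ : (Fin M → ℂ) → ℝ) (f : MP M) (s β κ : ℝ) (y : Fin M → ℂ)
    (r : ℝ) (k : ℕ) (x : Fin M → ℂ) : ℝ := ρ x ^ (-β) * (‖eval x f‖ ^ 2 + tk k) ^ (-s)
    * (qd θ y x + tk k) ^ (-(n + κ)) * (qd θ y x + r ^ 2) ^ (-κ)

lemma meas_ball (y : Fin M → ℂ) (r : ℝ) : MeasurableSet {x | ‖emb θ x - emb θ y‖ ≤ r} :=
  measurableSet_le ((cont_emb θ).sub continuous_const).norm.measurable measurable_const

namespace Geo

variable (hG : Geo I θ d F h) {f : MP M} {s β κ : ℝ} (hs : 0 ≤ s) (hβ : 0 ≤ β) (hκ : 0 < κ)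
include hG hs hβ hκ

lemma ot_A {D : ℕ} {K : ℝ}
    (hK : β * D + s * f.totalDegree + (n + κ) * (1 : ℕ) + κ * (1 : ℕ) ≤ K) (N : ℕ) :
    ∃ C1 : ℝ≥0∞, C1 < ⊤ ∧ ∀ t : Fin N → MP M, (∀ i, (t i).totalDegree ≤ D) → ∀ ε : ℝ, 0 < ε →
      ∀ y, ∀ r a b : ℝ, 0 < r → 0 < a → 0 < b →
      (∀ x, ‖emb θ x - emb θ y‖ ≤ r → a ≤ rh t ε x ∧ b ≤ ‖eval x f‖ ^ 2) →
      ∃ (c : _) (g : (Fin M → ℂ) → ℂ), Continuous g ∧ g y = 1 ∧ (∀ x, ‖g x‖ ≤ 1) ∧
        (∀ x, r < ‖emb θ x - emb θ y‖ → g x = 0) ∧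
        ∫⁻ x, ‖eval (emb θ x) (den F h) * g x - pc (ub θ (Kd F h K)) x c‖ₑ ^ 2 *
          ((‖eval (emb θ x) (den F h)‖ₑ ^ 2)⁻¹ *
            ⨆ k, ENNReal.ofReal (ew θ (rh t ε) f s β κ y r k x)) ∂(lam I θ)
        ≤ C1 * ENNReal.ofReal (a ^ (-β) * b ^ (-s) * (r ^ 2) ^ (-(2 * κ))) := by
  obtain ⟨Cχ, hχ0, hχ⟩ := dchi_bdd
  set V := volume (ball (0 : Fin n → ℂ) 1)
  have hV : V < ⊤ := measure_ball_lt_top
  have hCx := Cx_lt M d
  refine ⟨Cx M d * (ENNReal.ofReal (4 / κ * Cχ * 4 ^ (n + κ)) * ((d ^ M : ℕ) * V)),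
    by finiteness, ?_⟩
  intro t ht ε hε y r a b hr ha hb hab
  have hd1 : ∀ j, (X j - C (emb θ y j) : MvPolynomial (Fin n ⊕ Fin M) ℂ).totalDegree ≤ 1 :=
    fun j => (totalDegree_sub_C_le _ _).trans (totalDegree_X j).le
  have hW := ((((WS.fix0 (fun i => rename Sum.inr (t i)) (fun i => (totalDegree_rename_le _ _).trans
    (ht i)) hβ hε).add (WS.reg (fun _ : Unit => rename Sum.inr f)
      (fun _ => totalDegree_rename_le _ _) hs)).add (WS.reg _ hd1 (c := n + κ) (by positivity))).add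
        (WS.fix _ hd1 hκ.le (t := r ^ 2) (by positivity))).mono hK
  obtain ⟨g1, g2, g3, g4, g5, g6⟩ := cut_data (emb θ y) hr
  set p : Fin n ⊕ Fin M → (Fin n ⊕ Fin M → ℂ) → ℂ := fun j z => eval z (X j - C (emb θ y j))
  have hG1 : Continuous fun z => 4 / κ * deriv chi (Qs p z / r ^ 2) ^ 2 :=
    continuous_const.mul ((dchi_cont.comp ((sm_Qs fun _ => Hol.poly _).continuous.div_const
      _)).pow 2)
  have hG2 : HasCompactSupport fun z => 4 / κ * deriv chi (Qs p z / r ^ 2) ^ 2 := g2.mul_left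
  have hG3 : ∀ z, 0 ≤ 4 / κ * deriv chi (Qs p z / r ^ 2) ^ 2 := fun z => by positivity
  obtain ⟨c, hc⟩ := hG.hx' hW g1 hG1 hG2 hG3 fun z ξ => by
    simpa using cut_levi (fun _ => Hol.poly _) hr hκ 1 z ξ
  have e1 : ∀ z, ∑ j, ‖eval z (X j - C (emb θ y j) : MvPolynomial (Fin n ⊕ Fin M) ℂ)‖ ^ 2
    = nsq (z - emb θ y) := g3
  simp only [ev_inr, Finset.univ_unique, Finset.sum_singleton, e1] at hc
  refine ⟨c, fun x => cut p r (emb θ x), g1.sm.continuous.comp (cont_emb θ),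
    g5 _ (by simp [nsq]; positivity), fun x => norm_cut_le _ _ _, fun x => g4 _, hc.trans ?_⟩
  clear hc hW
  set A := a ^ (-β) * b ^ (-s)
  have hA : 0 < A := by positivity
  have hm := meas_ball (θ := θ) y r
  rw [mul_assoc]
  refine mul_le_mul_right ?_ _
  calc _ ≤ ∫⁻ x, {x | ‖emb θ x - emb θ y‖ ≤ r}.indicator (fun _ => ENNReal.ofReal
        (4 / κ * Cχ * (A * (r ^ 2 / 4) ^ (-(n + κ)) * (r ^ 2) ^ (-κ)))) x ∂(lam I θ) := by
        refine lintegral_mono fun x => ?_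
        by_cases hx : deriv chi (Qs p (emb θ x) / r ^ 2) = 0
        · simp [hx]
        obtain ⟨h1, h2⟩ := g6 _ hx
        rw [indicator_of_mem (show x ∈ {x | ‖emb θ x - emb θ y‖ ≤ r} from h2),
          ENNReal.ofReal_mul (p := 4 / κ * Cχ) (by positivity)]
        refine mul_le_mul' (ENNReal.ofReal_le_ofReal (by gcongr; exact hχ _))
          (iSup_le fun k => ENNReal.ofReal_le_ofReal ?_)
        have := tk_pos k
        have := nsq_nonneg (emb θ x - emb θ y)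
        refine mul_le_mul (mul_le_mul (rpow_two_le ha hb (hab x h2).1
          (by linarith [(hab x h2).2]) hs hβ) ?_ (by positivity) hA.le) ?_
          (by positivity) (by positivity)
        · exact Real.rpow_le_rpow_of_nonpos (by positivity) (by linarith)
            (neg_nonpos.2 (by positivity))
        · exact Real.rpow_le_rpow_of_nonpos (by positivity) (by linarith) (by linarith)
    _ ≤ _ := by
        rw [lintegral_indicator_const hm]
        refine (mul_le_mul_right (hG.lam_ball y hr.le) _).trans (le_of_eq ?_)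
        have e2 : 4 / κ * Cχ * (A * (r ^ 2 / 4) ^ (-(n + κ)) * (r ^ 2) ^ (-κ)) * r ^ (2 * n)
            = 4 / κ * Cχ * 4 ^ (n + κ) * (A * (r ^ 2) ^ (-(2 * κ))) := by
          have h3 : (r ^ 2) ^ (-(n + κ)) * (r ^ 2) ^ (-κ) * (r ^ 2) ^ (n : ℝ)
              = (r ^ 2) ^ (-(2 * κ)) := by
            rw [← Real.rpow_add (by positivity), ← Real.rpow_add (by positivity)]; ring_nf
          rw [Real.div_rpow (by positivity) (by positivity), Real.rpow_neg (x := 4) (by positivity),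
            pow_mul, ← Real.rpow_natCast _ n, ← h3]
          field_simp
        calc _ = ENNReal.ofReal (4 / κ * Cχ * (A * (r ^ 2 / 4) ^ (-(n + κ)) * (r ^ 2) ^ (-κ)))
              * ENNReal.ofReal (r ^ (2 * n)) * ((d ^ M : ℕ) * V) := by ring
          _ = _ := by
            rw [← ENNReal.ofReal_mul (by positivity), e2, ENNReal.ofReal_mul (by positivity)]; ring

lemma ot_B {ρ : (Fin M → ℂ) → ℝ} (hρ : Continuous ρ) (hρ0 : ∀ x, 0 < ρ x) {y : Fin M → ℂ}
    (hy : y ∈ zeroLocus ℂ I) (hden : eval (emb θ y) (den F h) ≠ 0) {r : ℝ} (hr : 0 < r)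
    {u : (Fin M → ℂ) → ℂ} (hu : Continuous u) (hfin : ∫⁻ x, ‖u x‖ₑ ^ 2 *
      ((‖eval (emb θ x) (den F h)‖ₑ ^ 2)⁻¹ * ⨆ k, ENNReal.ofReal (ew θ ρ f s β κ y r k x))
        ∂(lam I θ) < ⊤) : u y = 0 := by
  have hce := cont_emb θ
  by_contra hne
  have h2 : 0 < ‖u y‖ := norm_pos_iff.2 hne
  have h3 := norm_pos_iff.2 hden
  have h4 := hρ0 y
  have h5 : ∀ᶠ x in 𝓝 y, ‖u y‖ / 2 < ‖u x‖ ∧
      ‖eval (emb θ x) (den F h)‖ < 2 * ‖eval (emb θ y) (den F h)‖ ∧ ρ x < 2 * ρ y ∧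
      ‖eval x f‖ ^ 2 < ‖eval y f‖ ^ 2 + 1 ∧ qd θ y x < 1 ∧ eval (emb θ x) (den F h) ≠ 0 :=
    (hu.norm.continuousAt.eventually (lt_mem_nhds (half_lt_self h2))).and
      ((((cont_ev _).comp hce).norm.continuousAt.eventually (gt_mem_nhds (by
        simp only [Function.comp_apply]; linarith))).and
      (((hρ).continuousAt.eventually (gt_mem_nhds (by linarith))).and
      ((((cont_ev f).norm.pow 2).continuousAt.eventually (gt_mem_nhds (lt_add_one _))).and
      (((cont_nsq.comp (hce.sub continuous_const)).continuousAt.eventually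
        (gt_mem_nhds (by simp [nsq]))).and
      (((cont_ev _).comp hce).continuousAt.eventually_ne hden)))))
  obtain ⟨δ, hδ, hδ'⟩ := Metric.eventually_nhds_iff.1 h5
  set cι : ℝ := Fintype.card (Fin n ⊕ Fin M) + 1
  have hι : 0 < cι := by positivity
  refine absurd (hG.nonint hy hden hκ (c := (‖u y‖ / 2) ^ 2 *
    (((2 * ‖eval (emb θ y) (den F h)‖) ^ 2)⁻¹ * ((2 * ρ y) ^ (-β) *
      (‖eval y f‖ ^ 2 + 1 + 1) ^ (-s) * cι ^ (-(n + κ)) * (1 + r ^ 2) ^ (-κ))))
    (by positivity) ?_) hfin.ne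
  filter_upwards [Ioo_mem_nhdsGT hδ] with w hw x hx
  obtain ⟨a1, a2, a3, a4, a5, a6⟩ := hδ' (show dist x y < δ by
    rw [dist_eq_norm]; exact ((norm_le_emb x y).trans hx).trans_lt hw.2)
  obtain ⟨k, hk⟩ := (tk_lim.eventually (ge_mem_nhds (pow_pos hw.1 2))).exists
  have b1 : qd θ y x + tk k ≤ cι * w ^ 2 := by
    have := nsq_le (ζ := emb θ x - emb θ y) fun j => (norm_le_pi_norm _ j).trans hx
    simp only [cι, qd]; linarith
  have b2 := norm_pos_iff.2 a6
  have := tk_pos k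
  have := tk_le k
  have := qd_nonneg (θ := θ) y x
  have := hρ0 x
  have := hw.1
  refine le_trans ?_ (mul_le_mul_right (mul_le_mul_right (le_iSup _ k) _) _)
  rw [enorm_sq, enorm_sq, ← ENNReal.ofReal_inv_of_pos (by positivity),
    ← ENNReal.ofReal_mul (by positivity), ← ENNReal.ofReal_mul (by positivity), mul_assoc, mul_assoc,
    mul_right_comm _ ((1 + r ^ 2) ^ (-κ)), mul_assoc _ (cι ^ _),
    ← Real.mul_rpow hι.le (by positivity)]
  refine ENNReal.ofReal_le_ofReal ?_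
  unfold ew
  gcongr ?_ * (?_ * (?_ * ?_ * ?_ * ?_))
  · gcongr
  · gcongr
  · exact Real.rpow_le_rpow_of_nonpos (by positivity) a3.le (by linarith)
  · exact Real.rpow_le_rpow_of_nonpos (by positivity) (by linarith) (by linarith)
  · exact Real.rpow_le_rpow_of_nonpos (by positivity) b1 (neg_nonpos.2 (by positivity))
  · exact Real.rpow_le_rpow_of_nonpos (by positivity) (by linarith) (by linarith)

lemma ot_C (hf : f ∉ I) (R : ℝ) : ∃ C2 C3 : ℝ≥0∞, C2 < ⊤ ∧ C3 < ⊤ ∧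
    ∀ ρ : (Fin M → ℂ) → ℝ, Continuous ρ → (∀ x, 0 < ρ x) → ∀ y, ‖y‖ ≤ R → ∀ r a b : ℝ, 0 < r →
      r ≤ 1 → 0 < a → 0 < b → (∀ x, ‖emb θ x - emb θ y‖ ≤ r → a ≤ ρ x ∧ b ≤ ‖eval x f‖ ^ 2) →
      ∀ g P0 : (Fin M → ℂ) → ℂ, Continuous P0 → (∀ x, ‖g x‖ ≤ 1) →
      (∀ x, r < ‖emb θ x - emb θ y‖ → g x = 0) →
      ∫⁻ x in closedBall 0 R, ENNReal.ofReal (ρ x ^ (-β)) * ‖P0 x‖ₑ ^ 2 ∂(mu I θ f s) ≤
        C2 * (∫⁻ x, ‖eval (emb θ x) (den F h) * g x - P0 x‖ₑ ^ 2 *
          ((‖eval (emb θ x) (den F h)‖ₑ ^ 2)⁻¹ * ⨆ k, ENNReal.ofReal (ew θ ρ f s β κ y r k x))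
            ∂(lam I θ)) + C3 * ENNReal.ofReal (a ^ (-β) * b ^ (-s)) := by
  have hce := cont_emb θ
  obtain ⟨Cd, hCd⟩ := (isCompact_closedBall (0 : Fin M → ℂ) R).exists_bound_of_continuousOn
    ((cont_ev (den F h)).comp hce).continuousOn
  obtain ⟨Q, hQ⟩ := ((isCompact_closedBall (0 : Fin M → ℂ) R).prod
    (isCompact_closedBall (0 : Fin M → ℂ) R)).exists_bound_of_continuousOn
    (cont_nsq.comp ((hce.comp continuous_fst).sub (hce.comp continuous_snd))).continuousOn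
  set V := volume (ball (0 : Fin n → ℂ) 1)
  have hV : V < ⊤ := measure_ball_lt_top
  let C2 : ℝ≥0∞ := ENNReal.ofReal (Cd ^ 2 * (|Q| + 1) ^ (n + κ) * (|Q| + 1) ^ κ)
  refine ⟨2 * C2, 2 * ENNReal.ofReal (Cd ^ 2) * ((d ^ M : ℕ) * V), by simp only [C2]; finiteness,
    by finiteness, ?_⟩
  intro ρ hρ hρ0 y hyR r a b hr hr1 ha hb hab g P0 hcP hg1 hg2
  have hm := meas_ball (θ := θ) y r
  set A := a ^ (-β) * b ^ (-s)
  let g0 := fun x => eval (emb θ x) (den F h) * g x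
  have hm1 : Measurable fun x => ENNReal.ofReal (ρ x ^ (-β)) * ‖P0 x‖ₑ ^ 2 :=
    (hρ.measurable.pow_const _).ennreal_ofReal.mul
      (hcP.measurable.enorm.pow_const 2)
  rw [← lintegral_indicator measurableSet_closedBall,
    lint_mu _ _ (hm1.indicator measurableSet_closedBall)]
  calc _ ≤ ∫⁻ x, 2 * C2 * (‖g0 x - P0 x‖ₑ ^ 2 * ((‖eval (emb θ x) (den F h)‖ₑ ^ 2)⁻¹ *
        ⨆ k, ENNReal.ofReal (ew θ ρ f s β κ y r k x))) + {x | ‖emb θ x - emb θ y‖ ≤ r}.indicator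
          (fun _ => 2 * ENNReal.ofReal (Cd ^ 2) * ENNReal.ofReal A) x ∂(lam I θ) := by
        refine lintegral_mono_ae ?_
        filter_upwards [hG.ae_ne hG.nz_den, hG.ae_ne hf] with x hx1 hx2
        rw [ev_pull] at hx1
        by_cases hx : x ∈ closedBall (0 : Fin M → ℂ) R
        swap
        · simp [hx]
        have a1 : ‖eval (emb θ x) (den F h)‖ ^ 2 ≤ Cd ^ 2 := by gcongr; exact hCd x hx
        have a2 : qd θ y x ≤ |Q| := (le_abs_self _).trans ((hQ (x, y)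
          ⟨hx, mem_closedBall_zero_iff.2 hyR⟩).trans (le_abs_self _))
        have a3 := norm_pos_iff.2 hx1
        have a4 := norm_pos_iff.2 hx2
        have a5 := hρ0 x
        rw [indicator_of_mem hx, enorm_rpow_neg hx2, mul_right_comm,
          ← ENNReal.ofReal_mul (by positivity)]
        refine (mul_le_mul_right (sq_le_sub (g0 x) _) _).trans ?_
        rw [mul_add]
        refine add_le_add ?_ ?_
        · rw [mul_left_comm, mul_assoc, mul_left_comm C2, mul_comm _ (‖g0 x - P0 x‖ₑ ^ 2)]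
          gcongr 2 * (_ * ?_)
          have h1 : Tendsto (fun k => ENNReal.ofReal (ρ x ^ (-β) *
              (‖eval x f‖ ^ 2 + tk k) ^ (-s))) atTop (𝓝 (ENNReal.ofReal (ρ x ^ (-β) *
                (‖eval x f‖ ^ 2 + 0) ^ (-s)))) :=
            ENNReal.tendsto_ofReal (((tendsto_const_nhds.add tk_lim).rpow_const
              (Or.inl (by positivity))).const_mul _)
          rw [add_zero] at h1
          refine le_of_tendsto' h1 fun k => le_trans ?_
            (mul_le_mul_right (mul_le_mul_right (le_iSup _ k) _) _)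
          have := tk_pos k
          have := tk_le k
          have := qd_nonneg (θ := θ) y x
          rw [enorm_sq, ← ENNReal.ofReal_inv_of_pos (by positivity),
            ← ENNReal.ofReal_mul (by positivity), ← ENNReal.ofReal_mul (by positivity)]
          refine ENNReal.ofReal_le_ofReal ?_
          have b1 : (qd θ y x + tk k) ^ (n + κ) ≤ (|Q| + 1) ^ (n + κ) := by gcongr
          have b2 : (qd θ y x + r ^ 2) ^ κ ≤ (|Q| + 1) ^ κ := by gcongr; nlinarith
          unfold ew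
          rw [Real.rpow_neg (x := qd θ y x + tk k) (by positivity),
            Real.rpow_neg (x := qd θ y x + r ^ 2) (by positivity)]
          calc _ = ‖eval (emb θ x) (den F h)‖ ^ 2 * (qd θ y x + tk k) ^ (n + κ) * (qd θ y x + r ^ 2) ^ κ *
                ((‖eval (emb θ x) (den F h)‖ ^ 2)⁻¹ * (ρ x ^ (-β) *
                  (‖eval x f‖ ^ 2 + tk k) ^ (-s) * ((qd θ y x + tk k) ^ (n + κ))⁻¹ *
                    ((qd θ y x + r ^ 2) ^ κ)⁻¹)) := by field_simp
            _ ≤ _ := by gcongr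
        · by_cases hx' : ‖emb θ x - emb θ y‖ ≤ r
          · rw [indicator_of_mem (show x ∈ {x | ‖emb θ x - emb θ y‖ ≤ r} from hx'), mul_comm,
              enorm_sq]
            gcongr
            · simp only [g0, norm_mul]
              exact (mul_le_of_le_one_right a3.le (hg1 x)).trans (hCd x hx)
            · exact rpow_two_le ha hb (hab x hx').1 (hab x hx').2 hs hβ
          · simp [g0, hg2 x (not_le.1 hx')]
    _ ≤ _ := by
        rw [lintegral_add_right _ (measurable_const.indicator hm),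
          lintegral_const_mul' _ _ (by simp only [C2]; finiteness), lintegral_indicator_const hm,
          mul_right_comm _ ((d ^ M : ℕ) * V)]
        exact add_le_add le_rfl (mul_le_mul_right ((hG.lam_ball y hr.le).trans (mul_le_mul_right
          (mul_le_of_le_one_left' (ENNReal.ofReal_le_one.2 (pow_le_one₀ hr.le hr1))) _)) _)

end Geo

end Pool.Agent.Lib.MP_bc3ae6_ag
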