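import Mathlib

set_option autoImplicit false
set_option linter.unusedSectionVars false

/-! Wirtinger operators on `ι → ℂ` and the basic a priori estimate of Hoermander. -/

namespace Pool.Agent.Lib.MP_bc3ae6_ag

open MeasureTheory Filter Set Metric Topology Complex
open scoped ContDiff ComplexConjugate

variable {ι : Type} [Fintype ι] [DecidableEq ι]

/-- First order operator; `c = -I` gives `d/dz_j` and `c = I` gives `d/d bar z_j`. -/
noncomputable def P (c : ℂ) (j : ι) (f : (ι → ℂ) → ℂ) (z : ι → ℂ) : ℂ :=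
  (fderiv ℝ f z (Pi.single j 1) + c * fderiv ℝ f z (Pi.single j I)) / 2

/-- Smooth functions. -/
abbrev Sm (f : (ι → ℂ) → ℂ) : Prop := ContDiff ℝ ∞ f

lemma Sm.dAt {f : (ι → ℂ) → ℂ} (hf : Sm f) (z : ι → ℂ) : DifferentiableAt ℝ f z :=
  hf.differentiable (by simp) z

lemma Sm.dir {f : (ι → ℂ) → ℂ} (hf : Sm f) (v : ι → ℂ) : Sm (fun z => fderiv ℝ f z v) :=
  (hf.fderiv_right (m := ∞) (by simp)).clm_apply contDiff_const

lemma Sm.P {f : (ι → ℂ) → ℂ} (hf : Sm f) (c : ℂ) (j : ι) : Sm (P c j f) :=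
  ((hf.dir _).add (contDiff_const.mul (hf.dir _))).div_const _

lemma Sm.conj {f : (ι → ℂ) → ℂ} (hf : Sm f) : Sm (fun z => conj (f z)) :=
  (conjCLE.contDiff).comp hf

lemma P_congr {f g : (ι → ℂ) → ℂ} {z : ι → ℂ} (h : f =ᶠ[𝓝 z] g) (c : ℂ) (j : ι) :
    P c j f z = P c j g z := by
  simp only [P, h.fderiv_eq]

lemma P_const (a c : ℂ) (j : ι) (z : ι → ℂ) : P c j (fun _ => a) z = 0 := by
  simp [P]

lemma P_add {f g : (ι → ℂ) → ℂ} {z : ι → ℂ} (hf : DifferentiableAt ℝ f z)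
    (hg : DifferentiableAt ℝ g z) (c : ℂ) (j : ι) :
    P c j (fun z => f z + g z) z = P c j f z + P c j g z := by
  simp only [P, fderiv_fun_add hf hg, add_apply]; ring

lemma P_sub {f g : (ι → ℂ) → ℂ} {z : ι → ℂ} (hf : DifferentiableAt ℝ f z)
    (hg : DifferentiableAt ℝ g z) (c : ℂ) (j : ι) :
    P c j (fun z => f z - g z) z = P c j f z - P c j g z := by
  simp only [P, fderiv_fun_sub hf hg, sub_apply]; ring

lemma P_mul {f g : (ι → ℂ) → ℂ} {z : ι → ℂ} (hf : DifferentiableAt ℝ f z)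
    (hg : DifferentiableAt ℝ g z) (c : ℂ) (j : ι) :
    P c j (fun z => f z * g z) z = P c j f z * g z + f z * P c j g z := by
  simp only [P, fderiv_fun_mul hf hg, add_apply,
    smul_apply, smul_eq_mul]; ring

lemma P_const_mul {f : (ι → ℂ) → ℂ} {z : ι → ℂ} (hf : DifferentiableAt ℝ f z) (a c : ℂ) (j : ι) :
    P c j (fun z => a * f z) z = a * P c j f z := by
  rw [P_mul (differentiableAt_const a) hf, P_const]; ring

lemma P_sum {κ : Type*} (s : Finset κ) {f : κ → (ι → ℂ) → ℂ} {z : ι → ℂ}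
    (hf : ∀ i ∈ s, DifferentiableAt ℝ (f i) z) (c : ℂ) (j : ι) :
    P c j (fun z => ∑ i ∈ s, f i z) z = ∑ i ∈ s, P c j (f i) z := by
  simp only [P, fderiv_fun_sum hf, sum_apply, Finset.mul_sum,
    ← Finset.sum_add_distrib, Finset.sum_div]

lemma P_conj (f : (ι → ℂ) → ℂ) (z : ι → ℂ) (c : ℂ) (j : ι) :
    P c j (fun z => conj (f z)) z = conj (P (conj c) j f z) := by
  have h : fderiv ℝ (fun z => conj (f z)) z = (conjCLE : ℂ →L[ℝ] ℂ).comp (fderiv ℝ f z) :=
    conjCLE.comp_fderiv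
  simp only [P, h, ContinuousLinearMap.comp_apply, ContinuousLinearEquiv.coe_coe, conjCLE_apply,
    map_div₀, map_add, map_mul, conj_conj, map_ofNat]

lemma P_conj_I (f : (ι → ℂ) → ℂ) (z : ι → ℂ) (j : ι) :
    P I j (fun z => conj (f z)) z = conj (P (-I) j f z) := by
  rw [P_conj, conj_I]

lemma P_conj_negI (f : (ι → ℂ) → ℂ) (z : ι → ℂ) (j : ι) :
    P (-I) j (fun z => conj (f z)) z = conj (P I j f z) := by
  rw [P_conj, map_neg, conj_I, neg_neg]

/-- Chain rule with a holomorphic outer function. -/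
lemma P_comp {f : (ι → ℂ) → ℂ} {z : ι → ℂ} (hf : DifferentiableAt ℝ f z) {h : ℂ → ℂ} {h' : ℂ}
    (hh : HasDerivAt h h' (f z)) (c : ℂ) (j : ι) :
    P c j (fun z => h (f z)) z = h' * P c j f z := by
  have := (hh.hasFDerivAt.restrictScalars ℝ).comp z hf.hasFDerivAt
  have e : fderiv ℝ (fun z => h (f z)) z = _ := this.fderiv
  simp only [P, e]
  simp
  ring

/-- Chain rule with a real outer function. -/
lemma P_comp_real {q : (ι → ℂ) → ℝ} {z : ι → ℂ} (hq : DifferentiableAt ℝ q z) {h : ℝ → ℝ} {h' : ℝ}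
    (hh : HasDerivAt h h' (q z)) (c : ℂ) (j : ι) :
    P c j (fun z => (h (q z) : ℂ)) z = h' * P c j (fun z => (q z : ℂ)) z := by
  have h1 := (ofRealCLM.hasFDerivAt).comp z (hh.hasFDerivAt.comp z hq.hasFDerivAt)
  have h2 := (ofRealCLM.hasFDerivAt).comp z hq.hasFDerivAt
  have e1 : fderiv ℝ (fun z => (h (q z) : ℂ)) z = _ := h1.fderiv
  have e2 : fderiv ℝ (fun z => (q z : ℂ)) z = _ := h2.fderiv
  simp only [P, e1, e2]
  simp
  ring

lemma dir_P {f : (ι → ℂ) → ℂ} (hf : Sm f) (c : ℂ) (j : ι) (z v : ι → ℂ) :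
    fderiv ℝ (P c j f) z v = (fderiv ℝ (fderiv ℝ f) z v (Pi.single j 1)
      + c * fderiv ℝ (fderiv ℝ f) z v (Pi.single j I)) / 2 := by
  have h0 : DifferentiableAt ℝ (fderiv ℝ f) z :=
    (hf.fderiv_right (m := ∞) (by simp)).differentiable (by simp) z
  have h1 : ∀ w : ι → ℂ, HasFDerivAt (fun z => fderiv ℝ f z w)
      ((fderiv ℝ (fderiv ℝ f) z).flip w) z := fun w => by
    simpa using h0.hasFDerivAt.clm_apply (hasFDerivAt_const w z)
  have h2 := (((h1 (Pi.single j 1)).add ((h1 (Pi.single j I)).const_mul c))).mul_const (2 : ℂ)⁻¹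
  have e : P c j f = fun z => (fderiv ℝ f z (Pi.single j 1)
      + c * fderiv ℝ f z (Pi.single j I)) * (2 : ℂ)⁻¹ := by
    funext z; simp [P, div_eq_mul_inv]
  rw [e]
  erw [h2.fderiv]
  simp
  ring

lemma P_comm {f : (ι → ℂ) → ℂ} (hf : Sm f) (c d : ℂ) (j k : ι) (z : ι → ℂ) :
    P c j (P d k f) z = P d k (P c j f) z := by
  have hs : IsSymmSndFDerivAt ℝ f z := hf.contDiffAt.isSymmSndFDerivAt
    (by simp only [minSmoothness_of_isRCLikeNormedField]; exact WithTop.coe_le_coe.2 (le_top : (2 : ℕ∞) ≤ ⊤))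
  simp only [P.eq_1 c j (P d k f), P.eq_1 d k (P c j f), dir_P hf]
  rw [hs.eq (Pi.single j 1) (Pi.single k 1), hs.eq (Pi.single j 1) (Pi.single k I),
    hs.eq (Pi.single j I) (Pi.single k 1), hs.eq (Pi.single j I) (Pi.single k I)]
  ring

/-- Test functions. -/
structure Tst (f : (ι → ℂ) → ℂ) : Prop where
  sm : Sm f
  cs : HasCompactSupport f

lemma Tst.P {f : (ι → ℂ) → ℂ} (hf : Tst f) (c : ℂ) (j : ι) : Tst (P c j f) := by
  refine ⟨hf.sm.P c j, ?_⟩
  refine (hf.cs.fderiv (𝕜 := ℝ)).mono ?_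
  intro z hz h
  exact hz (by simp [MP_bc3ae6_ag.P, h])

lemma Tst.mul_right {f g : (ι → ℂ) → ℂ} (hf : Tst f) (hg : Sm g) : Tst (fun z => f z * g z) :=
  ⟨hf.sm.mul hg, hf.cs.mul_right⟩

lemma Tst.mul_left {f g : (ι → ℂ) → ℂ} (hf : Tst f) (hg : Sm g) : Tst (fun z => g z * f z) :=
  ⟨hg.mul hf.sm, hf.cs.mul_left⟩

lemma Tst.add {f g : (ι → ℂ) → ℂ} (hf : Tst f) (hg : Tst g) : Tst (fun z => f z + g z) :=
  ⟨hf.sm.add hg.sm, hf.cs.add hg.cs⟩

lemma Tst.neg {f : (ι → ℂ) → ℂ} (hf : Tst f) : Tst (fun z => - f z) :=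
  ⟨hf.sm.neg, hf.cs.neg⟩

lemma Tst.sub {f g : (ι → ℂ) → ℂ} (hf : Tst f) (hg : Tst g) : Tst (fun z => f z - g z) := by
  simpa [sub_eq_add_neg] using hf.add hg.neg

lemma Tst.zero : Tst (fun _ : ι → ℂ => (0 : ℂ)) := ⟨contDiff_const, HasCompactSupport.zero⟩

lemma Tst.sum {κ : Type*} (s : Finset κ) {f : κ → (ι → ℂ) → ℂ} (hf : ∀ i ∈ s, Tst (f i)) :
    Tst (fun z => ∑ i ∈ s, f i z) := by
  classical
  induction s using Finset.induction_on with
  | empty => simpa using Tst.zero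
  | insert a s ha ih =>
    simp only [Finset.sum_insert ha]
    exact (hf a (by simp)).add (ih fun i hi => hf i (by simp [hi]))

lemma Tst.conj {f : (ι → ℂ) → ℂ} (hf : Tst f) : Tst (fun z => conj (f z)) :=
  ⟨hf.sm.conj, hf.cs.mono fun z hz h => hz (by simp [h])⟩

lemma Tst.integrable {f : (ι → ℂ) → ℂ} (hf : Tst f) : Integrable f :=
  hf.sm.continuous.integrable_of_hasCompactSupport hf.cs

lemma Tst.integral_dir {f : (ι → ℂ) → ℂ} (hf : Tst f) (v : ι → ℂ) :
    ∫ z, fderiv ℝ f z v = 0 := by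
  have h := integral_mul_fderiv_eq_neg_fderiv_mul_of_integrable (μ := volume)
    (f := fun _ : ι → ℂ => (1 : ℂ)) (g := f) (v := v) (by simp)
    (by simpa using (hf.sm.dir v).continuous.integrable_of_hasCompactSupport
          (hf.cs.fderiv_apply ℝ v))
    (by simpa using hf.integrable) (fun _ _ => differentiableAt_const _)
    (fun x _ => hf.sm.dAt x)
  simpa using h

lemma Tst.integral_P {f : (ι → ℂ) → ℂ} (hf : Tst f) (c : ℂ) (j : ι) :
    ∫ z, MP_bc3ae6_ag.P c j f z = 0 := by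
  have hi : ∀ v, Integrable (fun z => fderiv ℝ f z v) := fun v =>
    (hf.sm.dir v).continuous.integrable_of_hasCompactSupport (hf.cs.fderiv_apply ℝ v)
  simp only [MP_bc3ae6_ag.P]
  rw [integral_div, integral_add (hi _) ((hi _).const_mul c), integral_const_mul,
    hf.integral_dir, hf.integral_dir]
  simp

/-- The weight `exp (-φ)` as a complex function. -/
noncomputable def Wt (φ : (ι → ℂ) → ℝ) (z : ι → ℂ) : ℂ := cexp (-(φ z : ℂ))

/-- The twisted derivative. -/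
noncomputable def del (φ : (ι → ℂ) → ℝ) (j : ι) (w : (ι → ℂ) → ℂ) (z : ι → ℂ) : ℂ :=
  P (-I) j w z - P (-I) j (fun z => (φ z : ℂ)) z * w z

/-- The Levi form. -/
noncomputable def Levi (φ : (ι → ℂ) → ℝ) (z ξ : ι → ℂ) : ℝ :=
  (∑ j, ∑ k, P I k (P (-I) j (fun z => (φ z : ℂ))) z * ξ j * conj (ξ k)).re

section Weight

variable {φ : (ι → ℂ) → ℝ} (hφ : ContDiff ℝ ∞ φ)
include hφ

lemma sm_phi : Sm (fun z => (φ z : ℂ)) := ofRealCLM.contDiff.comp hφ

lemma sm_Wt : Sm (Wt φ) := (sm_phi hφ).neg.cexp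

lemma P_Wt (c : ℂ) (j : ι) (z : ι → ℂ) :
    P c j (Wt φ) z = - P c j (fun z => (φ z : ℂ)) z * Wt φ z := by
  have h : HasDerivAt (fun t : ℂ => cexp (-t)) (-cexp (-(φ z : ℂ))) (φ z : ℂ) := by
    simpa using (hasDerivAt_neg (φ z : ℂ)).cexp
  have := P_comp ((sm_phi hφ).dAt z) h c j
  unfold Wt
  rw [this]; ring

lemma Tst.del {w : (ι → ℂ) → ℂ} (hw : Tst w) (j : ι) : Tst (del φ j w) :=
  (hw.P _ j).sub (hw.mul_left ((sm_phi hφ).P _ j))

lemma Sm.del {w : (ι → ℂ) → ℂ} (hw : Sm w) (j : ι) : Sm (del φ j w) :=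
  (hw.P _ j).sub (((sm_phi hφ).P _ j).mul hw)

omit hφ in
lemma conj_Wt (z : ι → ℂ) : conj (Wt φ z) = Wt φ z := by
  simp [Wt, ← exp_conj]

lemma ibp {w v : (ι → ℂ) → ℂ} (hw : Tst w) (hv : Sm v) (j : ι) :
    ∫ z, del φ j w z * conj (v z) * Wt φ z = - ∫ z, w z * conj (P I j v z) * Wt φ z := by
  have h0 := ((hw.mul_right hv.conj).mul_right (sm_Wt hφ)).integral_P (-I) j
  have h1 : Integrable (fun z => del φ j w z * conj (v z) * Wt φ z) :=
    (((hw.del hφ j).mul_right hv.conj).mul_right (sm_Wt hφ)).integrable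
  have h2 : Integrable (fun z => w z * conj (P I j v z) * Wt φ z) :=
    ((hw.mul_right (hv.P I j).conj).mul_right (sm_Wt hφ)).integrable
  rw [eq_neg_iff_add_eq_zero, ← integral_add h1 h2, ← h0]
  congr 1; funext z
  rw [P_mul ((hw.sm.mul hv.conj).differentiable (by simp) z) ((sm_Wt hφ).dAt z),
    P_mul (hw.sm.dAt z) (hv.conj.dAt z), P_conj_negI, P_Wt hφ, del]
  ring

lemma P_del {w : (ι → ℂ) → ℂ} (hw : Sm w) (j k : ι) (z : ι → ℂ) :
    P I k (del φ j w) z = del φ j (P I k w) z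
      - P I k (P (-I) j (fun z => (φ z : ℂ))) z * w z := by
  have hp := (sm_phi hφ).P (-I) j
  have : del φ j w = fun z => P (-I) j w z - P (-I) j (fun z => (φ z : ℂ)) z * w z := rfl
  rw [this, P_sub ((hw.P _ j).dAt z) ((hp.mul hw).differentiable (by simp) z),
    P_mul (hp.dAt z) (hw.dAt z), P_comm hw, del]
  ring

lemma basic_jk {a b : (ι → ℂ) → ℂ} (ha : Tst a) (hb : Tst b) (j k : ι) :
    ∫ z, del φ j a z * conj (del φ k b z) * Wt φ z =
      (∫ z, P I k a z * conj (P I j b z) * Wt φ z) +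
      ∫ z, conj (P I j (P (-I) k (fun z => (φ z : ℂ))) z * b z * conj (a z)) * Wt φ z := by
  rw [ibp hφ ha (hb.sm.del hφ k) j]
  have h1 := ibp hφ (hb.P I j) ha.sm k
  have h2 : ∫ z, a z * conj (del φ k (P I j b) z) * Wt φ z
      = - ∫ z, P I k a z * conj (P I j b z) * Wt φ z := by
    have := congrArg conj h1
    rw [map_neg, ← integral_conj, ← integral_conj] at this
    simp only [map_mul, conj_conj, conj_Wt] at this
    simp only [mul_comm (a _), mul_comm (P I k a _)]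
    exact this
  have i1 : Integrable (fun z => a z * conj (del φ k (P I j b) z) * Wt φ z) :=
    ((ha.mul_right ((hb.sm.P I j).del hφ k).conj).mul_right (sm_Wt hφ)).integrable
  have i2 : Integrable (fun z =>
      conj (P I j (P (-I) k (fun z => (φ z : ℂ))) z * b z * conj (a z)) * Wt φ z) :=
    (((ha.conj.mul_left ((((sm_phi hφ).P _ k).P I j).mul hb.sm)).conj).mul_right
      (sm_Wt hφ)).integrable
  rw [← neg_neg (∫ z, P I k a z * conj (P I j b z) * Wt φ z), ← h2, ← sub_eq_neg_add,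
    ← integral_sub i2 i1, ← integral_neg]
  congr 1; funext z
  rw [P_del hφ hb.sm]
  simp only [map_sub, map_mul, conj_conj]
  ring

omit hφ in
lemma re_sum_ge (a : ι → ι → ℂ) :
    -(∑ j, ∑ k, ‖a j k - a k j‖ ^ 2) ≤ (∑ j, ∑ k, a j k * conj (a k j)).re := by
  have h1 : ∀ j k, -(‖a j k - a k j‖ ^ 2) ≤ (a j k * conj (a k j)).re := by
    intro j k
    rw [Complex.sq_norm, normSq_apply]
    simp only [sub_re, sub_im, mul_re, conj_re, conj_im]
    nlinarith [sq_nonneg ((a j k).re + (a k j).re), sq_nonneg ((a j k).im + (a k j).im),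
      sq_nonneg ((a j k).re - (a k j).re), sq_nonneg ((a j k).im - (a k j).im)]
  simp only [re_sum, ← Finset.sum_neg_distrib]
  exact Finset.sum_le_sum fun j _ => Finset.sum_le_sum fun k _ => h1 j k

omit hφ in
lemma Wt_eq (z : ι → ℂ) : Wt φ z = (Real.exp (-φ z) : ℝ) := by simp [Wt]

lemma cont_Levi {β : ι → (ι → ℂ) → ℂ} (hβ : ∀ j, Tst (β j)) :
    Tst (fun z => ∑ j, ∑ k, P I k (P (-I) j (fun z => (φ z : ℂ))) z * β j z * conj (β k z)) :=
  Tst.sum _ fun j _ => Tst.sum _ fun k _ =>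
    ((hβ j).mul_left (((sm_phi hφ).P _ j).P I k)).mul_right (hβ k).sm.conj

/-- The basic estimate. -/
theorem basic {β : ι → (ι → ℂ) → ℂ} (hβ : ∀ j, Tst (β j)) :
    ∫ z, Levi φ z (fun j => β j z) * Real.exp (-φ z) ≤
      (∫ z, ‖∑ j, del φ j (β j) z‖ ^ 2 * Real.exp (-φ z)) +
      ∑ j, ∑ k, ∫ z, ‖P I k (β j) z - P I j (β k) z‖ ^ 2 * Real.exp (-φ z) := by
  have hW := sm_Wt hφ
  have t1 : ∀ j k, Tst (fun z => del φ j (β j) z * conj (del φ k (β k) z) * Wt φ z) := fun j k =>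
    (((hβ j).del hφ j).mul_right ((hβ k).del hφ k).sm.conj).mul_right hW
  have t2 : ∀ j k, Tst (fun z => P I k (β j) z * conj (P I j (β k) z) * Wt φ z) := fun j k =>
    (((hβ j).P I k).mul_right ((hβ k).P I j).sm.conj).mul_right hW
  have t3 : ∀ j k, Tst (fun z => conj (P I j (P (-I) k (fun z => (φ z : ℂ))) z * β k z
      * conj (β j z)) * Wt φ z) := fun j k =>
    ((((hβ k).mul_left (((sm_phi hφ).P _ k).P I j)).mul_right (hβ j).sm.conj).conj).mul_right hW
  have t4 : ∀ j k, Tst (fun z => (P I k (β j) z - P I j (β k) z)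
      * conj (P I k (β j) z - P I j (β k) z) * Wt φ z) := fun j k =>
    ((((hβ j).P I k).sub ((hβ k).P I j)).mul_right
      (((hβ j).P I k).sub ((hβ k).P I j)).sm.conj).mul_right hW
  have key : ∫ z, ∑ j, ∑ k, del φ j (β j) z * conj (del φ k (β k) z) * Wt φ z =
      (∫ z, ∑ j, ∑ k, P I k (β j) z * conj (P I j (β k) z) * Wt φ z) +
      ∫ z, ∑ j, ∑ k, conj (P I j (P (-I) k (fun z => (φ z : ℂ))) z * β k z
        * conj (β j z)) * Wt φ z := by
    rw [integral_finsetSum _ fun j _ => (Tst.sum _ fun k _ => t1 j k).integrable,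
      integral_finsetSum _ fun j _ => (Tst.sum _ fun k _ => t2 j k).integrable,
      integral_finsetSum _ fun j _ => (Tst.sum _ fun k _ => t3 j k).integrable,
      ← Finset.sum_add_distrib]
    refine Finset.sum_congr rfl fun j _ => ?_
    rw [integral_finsetSum _ fun k _ => (t1 j k).integrable,
      integral_finsetSum _ fun k _ => (t2 j k).integrable,
      integral_finsetSum _ fun k _ => (t3 j k).integrable,
      ← Finset.sum_add_distrib]
    exact Finset.sum_congr rfl fun k _ => basic_jk hφ (hβ j) (hβ k) j k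
  have T1 := Tst.sum Finset.univ fun j _ => Tst.sum Finset.univ fun k _ => t1 j k
  have T2 := Tst.sum Finset.univ fun j _ => Tst.sum Finset.univ fun k _ => t2 j k
  have T3 := Tst.sum Finset.univ fun j _ => Tst.sum Finset.univ fun k _ => t3 j k
  have T4 := Tst.sum Finset.univ fun j _ => Tst.sum Finset.univ fun k _ => t4 j k
  have k2 := congrArg Complex.re key
  rw [add_re] at k2
  have r : ∀ {f : (ι → ℂ) → ℂ}, Tst f → (∫ z, f z).re = ∫ z, (f z).re := fun h =>
    (integral_re h.integrable).symm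
  rw [r T1, r T2, r T3] at k2
  have e1 : ∀ z, (∑ j, ∑ k, del φ j (β j) z * conj (del φ k (β k) z) * Wt φ z).re
      = ‖∑ j, del φ j (β j) z‖ ^ 2 * Real.exp (-φ z) := by
    intro z
    simp only [← Finset.sum_mul, ← Finset.mul_sum, ← map_sum]
    rw [mul_conj', Wt_eq]
    norm_cast
  have e3 : ∀ z, (∑ j, ∑ k, conj (P I j (P (-I) k (fun z => (φ z : ℂ))) z * β k z
        * conj (β j z)) * Wt φ z).re = Levi φ z (fun j => β j z) * Real.exp (-φ z) := by
    intro z
    simp only [← Finset.sum_mul, ← map_sum]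
    rw [Wt_eq, re_mul_ofReal, conj_re, Levi, Finset.sum_comm]
    simp only [Finset.sum_mul]
  have e4 : ∀ j k z, ‖P I k (β j) z - P I j (β k) z‖ ^ 2 * Real.exp (-φ z) =
      ((P I k (β j) z - P I j (β k) z) * conj (P I k (β j) z - P I j (β k) z) * Wt φ z).re := by
    intro j k z
    rw [mul_conj', Wt_eq]
    norm_cast
  simp only [e1, e3] at k2
  have i4 : ∀ j k, Integrable (fun z => ‖P I k (β j) z - P I j (β k) z‖ ^ 2 * Real.exp (-φ z)) := by
    intro j k
    simp only [e4]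
    exact (t4 j k).integrable.re
  have e5 : ∑ j, ∑ k, ∫ z, ‖P I k (β j) z - P I j (β k) z‖ ^ 2 * Real.exp (-φ z)
      = ∫ z, ∑ j, ∑ k, ‖P I k (β j) z - P I j (β k) z‖ ^ 2 * Real.exp (-φ z) := by
    rw [integral_finsetSum _ fun j _ => integrable_finsetSum _ fun k _ => i4 j k]
    exact Finset.sum_congr rfl fun j _ => (integral_finsetSum _ fun k _ => i4 j k).symm
  rw [e5, k2]
  have i5 : Integrable (fun z => ∑ j, ∑ k, ‖P I k (β j) z - P I j (β k) z‖ ^ 2 * Real.exp (-φ z)) :=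
    integrable_finsetSum _ fun j _ => integrable_finsetSum _ fun k _ => i4 j k
  have : 0 ≤ (∫ z, (∑ j, ∑ k, P I k (β j) z * conj (P I j (β k) z) * Wt φ z).re) +
      ∫ z, ∑ j, ∑ k, ‖P I k (β j) z - P I j (β k) z‖ ^ 2 * Real.exp (-φ z) := by
    have i2 : Integrable (fun z =>
        (∑ j, ∑ k, P I k (β j) z * conj (P I j (β k) z) * Wt φ z).re) := T2.integrable.re
    rw [← integral_add i2 i5]
    refine integral_nonneg fun z => ?_
    have := re_sum_ge (fun j k => P I k (β j) z)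
    simp only [← Finset.sum_mul, Wt_eq, re_mul_ofReal]
    have h0 := Real.exp_pos (-φ z)
    simp only [Pi.zero_apply]
    nlinarith
  linarith

end Weight

end Pool.Agent.Lib.MP_bc3ae6_ag
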