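import Mathlib

set_option autoImplicit false
set_option linter.unusedSectionVars false

/-! Small ball estimate for the least singular value of a random matrix with independent rows. -/

namespace Pool.Agent.Lib.MP_bc3ae6_ag

open MeasureTheory Set Filter Topology Matrix
open scoped ENNReal

namespace SmallSV

open Function

section upd

variable {Y : Type} [MeasurableSpace Y] {μ : Measure Y} {ι : Type} [Fintype ι] [DecidableEq ι]

lemma meas_upd [SFinite μ] {F : (ι → Y) → ℝ≥0∞} (hF : Measurable F) (i : ι) :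
    Measurable fun x => ∫⁻ y, F (update x i y) ∂μ :=
  Measurable.lintegral_prod_right (f := fun x y => F (update x i y)) (hF.comp measurable_update')

lemma lint_upd [IsProbabilityMeasure μ] {F : (ι → Y) → ℝ≥0∞} (hF : Measurable F) (i : ι) :
    ∫⁻ x, ∫⁻ y, F (update x i y) ∂μ ∂(Measure.pi fun _ => μ)
      = ∫⁻ x, F x ∂(Measure.pi fun _ => μ) := by
  refine lintegral_eq_of_lmarginal_eq {i} (meas_upd hF i) hF ?_
  rw [lmarginal_singleton, lmarginal_singleton]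
  funext x
  simp

lemma lint_upd' [IsProbabilityMeasure μ] {F : (ι → Y) → ℝ≥0∞} (hF : Measurable F) (i : ι) :
    ∫⁻ y, ∫⁻ x, F (update x i y) ∂(Measure.pi fun _ => μ) ∂μ
      = ∫⁻ x, F x ∂(Measure.pi fun _ => μ) := by
  rw [← lint_upd hF i, lintegral_lintegral_swap]
  exact (hF.comp (measurable_update'.comp measurable_swap)).aemeasurable

/-- A measurable event all of whose sections in coordinate `i` have small probability. -/
lemma meas_le_of_sections [IsProbabilityMeasure μ] {A : Set (ι → Y)} (hA : MeasurableSet A)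
    (i : ι) {c : ℝ≥0∞}
    (hc : ∀ y, (Measure.pi fun _ : ι => μ) {x | update x i y ∈ A} ≤ c) :
    (Measure.pi fun _ : ι => μ) A ≤ c := by
  have hF : Measurable (A.indicator (1 : (ι → Y) → ℝ≥0∞)) := measurable_one.indicator hA
  rw [← lintegral_indicator_one hA, ← lint_upd' hF i]
  calc _ ≤ ∫⁻ _y, c ∂μ := by
        refine lintegral_mono fun y => ?_
        have hm : MeasurableSet {x : ι → Y | update x i y ∈ A} :=
          hA.preimage measurable_update_left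
        have e : (fun x : ι → Y => A.indicator (1 : (ι → Y) → ℝ≥0∞) (update x i y))
            = {x : ι → Y | update x i y ∈ A}.indicator 1 := by
          funext x
          by_cases hx : update x i y ∈ A
          · rw [indicator_of_mem hx, indicator_of_mem (show x ∈ {x : ι → Y | update x i y ∈ A} from hx)]
            rfl
          · rw [indicator_of_notMem hx,
              indicator_of_notMem (show x ∉ {x : ι → Y | update x i y ∈ A} from hx)]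
        show ∫⁻ x, A.indicator (1 : (ι → Y) → ℝ≥0∞) (update x i y) ∂(Measure.pi fun _ => μ) ≤ c
        rw [e, lintegral_indicator_one hm]
        exact hc y
    _ = c := by simp

end upd

variable {κ ι : Type} [Fintype κ] [Fintype ι] [DecidableEq ι]

lemma cont_dot : Continuous fun p : (κ → ℂ) × (κ → ℂ) => p.1 ⬝ᵥ p.2 :=
  continuous_fst.dotProduct continuous_snd

lemma compact_sph (F : Submodule ℂ (κ → ℂ)) :
    IsCompact {s : κ → ℂ | s ∈ F ∧ ‖s‖ = 1} := by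
  have h1 : IsClosed (F : Set (κ → ℂ)) := F.closed_of_finiteDimensional
  have h2 : {s : κ → ℂ | s ∈ F ∧ ‖s‖ = 1} = (F : Set (κ → ℂ)) ∩ Metric.sphere 0 1 := by
    ext s; simp
  rw [h2]
  exact (isCompact_sphere 0 1).inter_left h1

/-- The event after removing row `i`, in terms of the matrix of rows. -/
def Ev (F : Submodule ℂ (κ → ℂ)) (T : Finset ι) (i : ι) (δ : ℝ) : Set (ι → κ → ℂ) :=
  {w | ∃ s ∈ F, ‖s‖ = 1 ∧ w i ⬝ᵥ s = 0 ∧ ∀ k ∈ T, ‖w k ⬝ᵥ s‖ ≤ δ} ∩ {w | ∃ e ∈ F, w i ⬝ᵥ e ≠ 0}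

lemma meas_Ev (F : Submodule ℂ (κ → ℂ)) (T : Finset ι) (i : ι) (δ : ℝ) :
    MeasurableSet (Ev F T i δ) := by
  refine MeasurableSet.inter (IsClosed.measurableSet ?_) (IsOpen.measurableSet ?_)
  · set K := {s : κ → ℂ | s ∈ F ∧ ‖s‖ = 1} with hK
    have : CompactSpace K := isCompact_iff_compactSpace.mp (compact_sph F)
    have hd : ∀ k : ι, Continuous fun p : (ι → κ → ℂ) × K => p.1 k ⬝ᵥ (p.2 : κ → ℂ) := fun k =>
      ((continuous_apply k).comp continuous_fst).dotProduct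
        (continuous_subtype_val.comp continuous_snd)
    have hc : IsClosed {p : (ι → κ → ℂ) × K | p.1 i ⬝ᵥ (p.2 : κ → ℂ) = 0 ∧
        ∀ k ∈ T, ‖p.1 k ⬝ᵥ (p.2 : κ → ℂ)‖ ≤ δ} := by
      refine IsClosed.inter (isClosed_eq (hd i) continuous_const) ?_
      have e : {p : (ι → κ → ℂ) × K | ∀ k ∈ T, ‖p.1 k ⬝ᵥ (p.2 : κ → ℂ)‖ ≤ δ}
          = ⋂ k ∈ T, {p : (ι → κ → ℂ) × K | ‖p.1 k ⬝ᵥ (p.2 : κ → ℂ)‖ ≤ δ} := by
        ext p; simp
      show IsClosed {p : (ι → κ → ℂ) × K | ∀ k ∈ T, ‖p.1 k ⬝ᵥ (p.2 : κ → ℂ)‖ ≤ δ}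
      rw [e]
      exact isClosed_biInter fun k _ => isClosed_le (hd k).norm continuous_const
    have h3 := isClosedMap_fst_of_compactSpace _ hc
    have e : {w : ι → κ → ℂ | ∃ s ∈ F, ‖s‖ = 1 ∧ w i ⬝ᵥ s = 0 ∧ ∀ k ∈ T, ‖w k ⬝ᵥ s‖ ≤ δ}
        = Prod.fst '' {p : (ι → κ → ℂ) × K | p.1 i ⬝ᵥ (p.2 : κ → ℂ) = 0 ∧
        ∀ k ∈ T, ‖p.1 k ⬝ᵥ (p.2 : κ → ℂ)‖ ≤ δ} := by
      ext w
      constructor
      · rintro ⟨s, hs, h1, h2, h4⟩
        exact ⟨(w, ⟨s, hs, h1⟩), ⟨h2, h4⟩, rfl⟩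
      · rintro ⟨⟨w', s⟩, ⟨h2, h4⟩, rfl⟩
        exact ⟨s, s.2.1, s.2.2, h2, h4⟩
    rw [e]
    exact h3
  · have e : {w : ι → κ → ℂ | ∃ e ∈ F, w i ⬝ᵥ e ≠ 0}
        = ⋃ e ∈ F, {w : ι → κ → ℂ | w i ⬝ᵥ e ≠ 0} := by
      ext w; simp
    rw [e]
    refine isOpen_biUnion fun e _ => ?_
    exact isOpen_ne_fun ((continuous_apply i).dotProduct continuous_const) continuous_const

/-- The deterministic dichotomy. -/
lemma dichotomy (F : Submodule ℂ (κ → ℂ)) (T : Finset ι) (hT : T.Nonempty) {δ : ℝ} (hδ : 0 < δ)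
    {s0 : κ → ℂ} (hs0 : s0 ∈ F) (hs01 : ‖s0‖ = 1) (w : ι → κ → ℂ)
    (hw : ∃ s ∈ F, ‖s‖ = 1 ∧ ∀ i ∈ T, ‖w i ⬝ᵥ s‖ ≤ δ) :
    (∀ i ∈ T, ‖w i ⬝ᵥ s0‖ ≤ 2 * δ) ∨ ∃ i ∈ T, w ∈ Ev F (T.erase i) i (4 * δ) := by
  obtain ⟨s, hsF, hs1, hs⟩ := hw
  have hK := compact_sph F
  have hne : {s : κ → ℂ | s ∈ F ∧ ‖s‖ = 1}.Nonempty := ⟨s0, hs0, hs01⟩
  have hmax : ∀ i : ι, ∃ e ∈ {s : κ → ℂ | s ∈ F ∧ ‖s‖ = 1},
      ∀ e' ∈ {s : κ → ℂ | s ∈ F ∧ ‖s‖ = 1}, ‖w i ⬝ᵥ e'‖ ≤ ‖w i ⬝ᵥ e‖ := fun i => by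
    have hc : Continuous fun e : κ → ℂ => ‖w i ⬝ᵥ e‖ :=
      (continuous_const.dotProduct continuous_id).norm
    obtain ⟨e, he, h2⟩ := hK.exists_isMaxOn hne hc.continuousOn
    exact ⟨e, he, fun e' he' => h2 he'⟩
  choose e he hemax using hmax
  obtain ⟨i, hiT, hi⟩ := T.exists_max_image (fun i => ‖w i ⬝ᵥ e i‖) hT
  have hall : ∀ k ∈ T, ∀ e' ∈ F, ‖e'‖ = 1 → ‖w k ⬝ᵥ e'‖ ≤ ‖w i ⬝ᵥ e i‖ := fun k hk e' h1 h2 =>
    (hemax k e' ⟨h1, h2⟩).trans (hi k hk)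
  by_cases ht : ‖w i ⬝ᵥ e i‖ ≤ 2 * δ
  · exact Or.inl fun k hk => (hall k hk s0 hs0 hs01).trans ht
  right
  push Not at ht
  have htpos : 0 < ‖w i ⬝ᵥ e i‖ := by linarith
  have hne0 : w i ⬝ᵥ e i ≠ 0 := norm_pos_iff.mp htpos
  set c : ℂ := (w i ⬝ᵥ s) / (w i ⬝ᵥ e i) with hc
  have hcn : ‖c‖ * ‖w i ⬝ᵥ e i‖ ≤ δ := by
    rw [hc, norm_div, div_mul_cancel₀ _ htpos.ne']
    exact hs i hiT
  have hc2 : ‖c‖ ≤ 1 / 2 := by
    by_contra hcon
    push Not at hcon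
    nlinarith
  set s1 : κ → ℂ := s - c • e i with hs1def
  have hs1F : s1 ∈ F := F.sub_mem hsF (F.smul_mem c (he i).1)
  have hs1n : 1 / 2 ≤ ‖s1‖ := by
    have h1 : ‖s‖ - ‖c • e i‖ ≤ ‖s1‖ := norm_sub_norm_le _ _
    rw [norm_smul, (he i).2, hs1] at h1
    linarith
  have hs1pos : 0 < ‖s1‖ := by linarith
  have hdot : ∀ k, w k ⬝ᵥ s1 = w k ⬝ᵥ s - c * (w k ⬝ᵥ e i) := fun k => by
    rw [hs1def, dotProduct_sub, dotProduct_smul, smul_eq_mul]
  refine ⟨i, hiT, ⟨((‖s1‖⁻¹ : ℝ) : ℂ) • s1, F.smul_mem _ hs1F, ?_, ?_, ?_⟩, e i, (he i).1, hne0⟩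
  · rw [norm_smul, Complex.norm_real, Real.norm_eq_abs, abs_of_pos (inv_pos.mpr hs1pos),
      inv_mul_cancel₀ hs1pos.ne']
  · rw [dotProduct_smul, hdot, hc, div_mul_cancel₀ _ hne0, sub_self, smul_zero]
  · intro k hk
    have hkT := Finset.mem_of_mem_erase hk
    have h1 : ‖w k ⬝ᵥ s1‖ ≤ 2 * δ := by
      rw [hdot]
      have h2 := norm_sub_le (w k ⬝ᵥ s) (c * (w k ⬝ᵥ e i))
      rw [norm_mul] at h2
      have h3 := hall k hkT (e i) (he i).1 (he i).2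
      have h4 : ‖c‖ * ‖w k ⬝ᵥ e i‖ ≤ ‖c‖ * ‖w i ⬝ᵥ e i‖ :=
        mul_le_mul_of_nonneg_left h3 (norm_nonneg _)
      have h5 := hs k hkT
      linarith
    rw [dotProduct_smul, norm_smul, Complex.norm_real, Real.norm_eq_abs,
      abs_of_pos (inv_pos.mpr hs1pos), inv_mul_le_iff₀ hs1pos]
    nlinarith

/-- The part of `F` killed by a row. -/
noncomputable def cut (F : Submodule ℂ (κ → ℂ)) (u : κ → ℂ) : Submodule ℂ (κ → ℂ) where
  carrier := {s | s ∈ F ∧ u ⬝ᵥ s = 0}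
  add_mem' := fun {a b} ha hb => ⟨F.add_mem ha.1 hb.1, by rw [dotProduct_add, ha.2, hb.2, add_zero]⟩
  zero_mem' := ⟨F.zero_mem, dotProduct_zero _⟩
  smul_mem' := fun c x hx => ⟨F.smul_mem c hx.1, by rw [dotProduct_smul, hx.2, smul_zero]⟩

lemma finrank_cut (F : Submodule ℂ (κ → ℂ)) (u : κ → ℂ) (h : ∃ e ∈ F, u ⬝ᵥ e ≠ 0) :
    Module.finrank ℂ (cut F u) < Module.finrank ℂ F := by
  obtain ⟨e, he, hne⟩ := h
  refine Submodule.finrank_lt_finrank_of_lt (lt_of_le_of_ne (fun s hs => hs.1) fun heq => ?_)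
  have : e ∈ cut F u := by rw [heq]; exact he
  exact hne this.2

end SmallSV

open SmallSV in
/-- JOB B (file SmallSV.lean). Small ball estimate for the least singular value. -/
theorem small_sv {Y : Type} [MeasurableSpace Y] (μ : Measure Y) [IsProbabilityMeasure μ]
    {κ ι : Type} [Fintype κ] [Fintype ι] [DecidableEq ι] (v : Y → κ → ℂ)
    (hv : ∀ i, Measurable fun y => v y i) {a : ℝ} (ha : 0 < a) {C0 : ℝ≥0∞} (hC0 : C0 < ⊤)
    (h : ∀ s : κ → ℂ, ‖s‖ = 1 → ∀ δ : ℝ, 0 < δ →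
      μ {y | ‖v y ⬝ᵥ s‖ ≤ δ} ≤ C0 * ENNReal.ofReal (δ ^ a))
    (D j : ℕ) (T : Finset ι) (hj : j + D ≤ T.card + 1) :
    ∃ C : ℝ≥0∞, C < ⊤ ∧ ∀ F : Submodule ℂ (κ → ℂ), Module.finrank ℂ F ≤ D → ∀ δ : ℝ, 0 < δ →
      (Measure.pi fun _ : ι => μ) {x | ∃ s ∈ F, ‖s‖ = 1 ∧ ∀ i ∈ T, ‖v (x i) ⬝ᵥ s‖ ≤ δ}
        ≤ C * ENNReal.ofReal (δ ^ (a * j)) := by
  induction D generalizing T with
  | zero =>
    refine ⟨0, by simp, fun F hF δ _ => ?_⟩
    have hF0 : F = ⊥ := Submodule.finrank_eq_zero.mp (by omega)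
    have e : {x : ι → Y | ∃ s ∈ F, ‖s‖ = 1 ∧ ∀ i ∈ T, ‖v (x i) ⬝ᵥ s‖ ≤ δ} = ∅ := by
      ext x
      simp only [mem_ofPred_eq, mem_empty_iff_false, iff_false]
      rintro ⟨s, hs, h1, -⟩
      rw [hF0, Submodule.mem_bot] at hs
      simp [hs] at h1
    rw [e]; simp
  | succ D ih =>
    rcases Nat.eq_zero_or_pos j with hj0 | hj0
    · refine ⟨1, by simp, fun F _ δ _ => ?_⟩
      subst hj0
      simpa using prob_le_one
    have hT : T.Nonempty := Finset.card_pos.mp (by omega)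
    have hjT : j ≤ T.card := by omega
    have ih' : ∀ i : ι, ∃ C : ℝ≥0∞, C < ⊤ ∧ (i ∈ T → ∀ F : Submodule ℂ (κ → ℂ),
        Module.finrank ℂ F ≤ D → ∀ δ : ℝ, 0 < δ →
        (Measure.pi fun _ : ι => μ)
          {x | ∃ s ∈ F, ‖s‖ = 1 ∧ ∀ k ∈ T.erase i, ‖v (x k) ⬝ᵥ s‖ ≤ δ}
          ≤ C * ENNReal.ofReal (δ ^ (a * j))) := fun i => by
      by_cases hi : i ∈ T
      · obtain ⟨C, hC, h2⟩ := ih (T.erase i) (by rw [Finset.card_erase_of_mem hi]; omega)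
        exact ⟨C, hC, fun _ => h2⟩
      · exact ⟨0, by simp, fun h => absurd h hi⟩
    choose C hC hCb using ih'
    have hV : Measurable fun (x : ι → Y) (k : ι) => v (x k) :=
      measurable_pi_lambda _ fun k => measurable_pi_lambda _ fun l =>
        (hv l).comp (measurable_pi_apply k)
    refine ⟨1 + (C0 * ENNReal.ofReal (2 ^ a)) ^ T.card
      + (∑ i ∈ T, C i) * ENNReal.ofReal (4 ^ (a * j)), ?_, fun F hF δ hδ => ?_⟩
    · refine ENNReal.add_lt_top.mpr ⟨ENNReal.add_lt_top.mpr ⟨by simp, ?_⟩, ?_⟩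
      · exact ENNReal.pow_lt_top (ENNReal.mul_lt_top hC0 ENNReal.ofReal_lt_top)
      · exact ENNReal.mul_lt_top (ENNReal.sum_lt_top.mpr fun i _ => hC i) ENNReal.ofReal_lt_top
    have haj : 0 ≤ a * j := by positivity
    by_cases hδ1 : 1 ≤ δ
    · calc _ ≤ (1 : ℝ≥0∞) := prob_le_one
        _ = 1 * 1 := by simp
        _ ≤ _ := by
          gcongr
          · exact le_add_right (le_add_right le_rfl)
          · exact ENNReal.one_le_ofReal.mpr (Real.one_le_rpow hδ1 haj)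
    push Not at hδ1
    by_cases hex : ∃ s0 ∈ F, ‖s0‖ = 1
    swap
    · have e : {x : ι → Y | ∃ s ∈ F, ‖s‖ = 1 ∧ ∀ i ∈ T, ‖v (x i) ⬝ᵥ s‖ ≤ δ} = ∅ := by
        ext x
        simp only [mem_ofPred_eq, mem_empty_iff_false, iff_false]
        rintro ⟨s, hs, h1, -⟩
        exact hex ⟨s, hs, h1⟩
      rw [e]; simp
    obtain ⟨s0, hs0, hs01⟩ := hex
    have hsub : {x : ι → Y | ∃ s ∈ F, ‖s‖ = 1 ∧ ∀ i ∈ T, ‖v (x i) ⬝ᵥ s‖ ≤ δ} ⊆
        ((T : Set ι).pi fun _ => {y | ‖v y ⬝ᵥ s0‖ ≤ 2 * δ}) ∪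
          ⋃ i ∈ T, (fun (x : ι → Y) (k : ι) => v (x k)) ⁻¹' Ev F (T.erase i) i (4 * δ) := by
      intro x hx
      rcases dichotomy F T hT hδ hs0 hs01 (fun k => v (x k)) hx with h1 | ⟨i, hi, h1⟩
      · exact Or.inl fun k hk => h1 k hk
      · exact Or.inr (mem_biUnion hi h1)
    have hA : (Measure.pi fun _ : ι => μ)
        ((T : Set ι).pi fun _ => {y | ‖v y ⬝ᵥ s0‖ ≤ 2 * δ})
        ≤ (C0 * ENNReal.ofReal (2 ^ a)) ^ T.card * ENNReal.ofReal (δ ^ (a * j)) := by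
      rw [Measure.pi_pi_finset, Finset.prod_const]
      calc _ ≤ (C0 * ENNReal.ofReal ((2 * δ) ^ a)) ^ T.card := by
            gcongr
            exact h s0 hs01 _ (by linarith)
        _ = (C0 * ENNReal.ofReal (2 ^ a)) ^ T.card * ENNReal.ofReal (δ ^ (a * T.card)) := by
            rw [Real.mul_rpow (by norm_num) hδ.le, ENNReal.ofReal_mul (by positivity),
              ← mul_assoc, mul_pow, Real.rpow_mul hδ.le, Real.rpow_natCast,
              ENNReal.ofReal_pow (by positivity)]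
        _ ≤ _ := by
            gcongr _ * ENNReal.ofReal ?_
            refine Real.rpow_le_rpow_of_exponent_ge hδ hδ1.le ?_
            exact mul_le_mul_of_nonneg_left (by exact_mod_cast hjT) ha.le
    have hB : ∀ i ∈ T, (Measure.pi fun _ : ι => μ)
        ((fun (x : ι → Y) (k : ι) => v (x k)) ⁻¹' Ev F (T.erase i) i (4 * δ))
        ≤ C i * (ENNReal.ofReal (4 ^ (a * j)) * ENNReal.ofReal (δ ^ (a * j))) := by
      intro i hi
      refine meas_le_of_sections ((meas_Ev F _ i _).preimage hV) i fun y => ?_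
      by_cases hy : ∃ e ∈ F, v y ⬝ᵥ e ≠ 0
      · have h1 := hCb i hi (cut F (v y)) (by have := finrank_cut F (v y) hy; omega) (4 * δ)
          (by linarith)
        rw [Real.mul_rpow (by norm_num) hδ.le, ENNReal.ofReal_mul (by positivity)] at h1
        refine le_trans (measure_mono ?_) h1
        rintro x ⟨⟨s, hs, h2, h3, h4⟩, -⟩
        refine ⟨s, ⟨hs, by simpa using h3⟩, h2, fun k hk => ?_⟩
        have h5 : ‖v (Function.update x i y k) ⬝ᵥ s‖ ≤ 4 * δ := h4 k hk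
        rwa [Function.update_of_ne (Finset.ne_of_mem_erase hk)] at h5
      · have e : {x : ι → Y | Function.update x i y ∈
            (fun (x : ι → Y) (k : ι) => v (x k)) ⁻¹' Ev F (T.erase i) i (4 * δ)} = ∅ := by
          ext x
          simp only [mem_ofPred_eq, mem_empty_iff_false, iff_false]
          rintro ⟨-, e, he, h2⟩
          exact hy ⟨e, he, by simpa using h2⟩
        rw [e]; simp
    calc _ ≤ _ := measure_mono hsub
      _ ≤ _ := measure_union_le _ _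
      _ ≤ (C0 * ENNReal.ofReal (2 ^ a)) ^ T.card * ENNReal.ofReal (δ ^ (a * j)) +
          ∑ i ∈ T, C i * (ENNReal.ofReal (4 ^ (a * j)) * ENNReal.ofReal (δ ^ (a * j))) := by
          gcongr
          exact (measure_biUnion_finset_le _ _).trans (Finset.sum_le_sum hB)
      _ ≤ _ := by
          rw [← Finset.sum_mul, ← mul_assoc, ← add_mul]
          gcongr
          exact le_add_left le_rfl

end Pool.Agent.Lib.MP_bc3ae6_ag
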