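import Pool.Agent.Lib.MP_bc3ae6_ag.Tail2
import Pool.Agent.Lib.MP_bc3ae6_ag.Alpha
import Pool.Agent.Lib.MP_bc3ae6_ag.Lagr

set_option autoImplicit false
set_option linter.unusedSectionVars false

namespace Pool.Agent.Lib.MP_bc3ae6_ag

open MvPolynomial Set Metric MeasureTheory Filter Topology
open scoped Polynomial ENNReal NNReal

variable {n M : ℕ} {I : Ideal (MP M)} {θ : Fin n → MP M} {d : ℕ} {F : Fin M → (MP n)[X]}
  {h : MvPolynomial (Fin n ⊕ Fin M) ℂ}

/-- The tail estimate. -/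
theorem Geo.tail (hG : Geo I θ d F h) {wt : Fin M → ℕ} {e : ℕ} (hH : Hom I θ wt e) (hn : 2 ≤ n)
    (hb : ∀ᶠ m in atTop, ∀ x ∈ zeroLocus ℂ I, x ≠ 0 →
      ∃ p : MP M, p.IsWeightedHomogeneous wt m ∧ eval x p ≠ 0)
    {η b : ℝ} (hη : 0 < η) (hb0 : 0 < b) (A : ℝ) :
    ∀ᶠ m : ℕ in atTop, ∀ (N : ℕ) (s : Fin (N + 1) → MP M), Bas I wt m s →
      ∀ (ν : Measure (Fin M → ℂ)) [IsProbabilityMeasure ν] (ρ : ℝ), HP I θ ν η ρ →
      ∃ CT : ℝ, 0 ≤ CT ∧ ∀ L : ℕ, (Measure.pi fun _ => ν) {x : Fin (N + 1) → Fin M → ℂ |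
        ∃ a, nsq a = 1 ∧ (∀ j, j ≠ Fin.last N → eval (x j) (lc s a) = 0) ∧
          ENNReal.ofReal (Real.exp L) ≤ 1 + ∫⁻ y, ‖eval y (lc s a)‖ₑ ^ (-(2 * (b / m))) ∂ν}
        ≤ ENNReal.ofReal (CT * Real.exp (-(A * L))) := by
  have hd : 0 < d := by
    obtain ⟨Q, -, h2, h3, -⟩ := hG.nrm 0
    omega
  obtain ⟨D1, hD1, hnm⟩ := hG.nm_unif
  obtain ⟨D2, hD2, hal⟩ := hG.alpha
  filter_upwards [tail_par hb (e := e) hd hD2 hη hb0 (|A| * (η + 1) + 2 * n)] with m hm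
  obtain ⟨hm, m0, k, j, hmk, hb', hj, hjk, hx1, hx2, hβ⟩ := hm
  intro N s hs ν _ ρ hν
  have hρ := hν.pos
  have hm' : (0 : ℝ) < m := by exact_mod_cast hm
  have hdeg : ∀ i, (s i).totalDegree ≤ m := fun i => deg_le hH.hw (hs.hom i)
  obtain ⟨C, t, hC, -, hP⟩ := hnm m _ s hm hdeg hs.li
  obtain ⟨C0, hC0, hα⟩ := hal m _ s hm hdeg hs.li ν η ρ hη hν
  obtain ⟨c, hc, hlb⟩ := hG.lb hs.li
  obtain ⟨C4, hC4, hL⟩ := hG.lagr hH hn (hmk ▸ hs) hb' hc hlb (ρ := 2 * ρ) (by positivity)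
  obtain ⟨B, hB1, hB⟩ := bd_lc s (hG.compact_Sh ρ)
  obtain ⟨C1, C2, hC1, hC2, h1⟩ := tail1 hη hν hj (by positivity) hx1 hx2 hC (D1 * m)
    (B := (N + 1) * B ^ d) (by positivity)
  obtain ⟨C6, hC6, h2⟩ := hG.tail2 hρ hν.ae (by positivity) hC0 hα hC4 hL (C3 := 2 * C2)
    (by positivity)
  obtain ⟨r1, hr1, q1, q2, q3, q4, q5⟩ : ∃ r1 : ℝ, 0 < r1 ∧ r1 ≤ 1 ∧ r1 ≤ ρ ∧ r1 ≤ (2 * ρ)⁻¹ ∧
      r1 ≤ (2 * C2)⁻¹ ∧ r1 ≤ (2 * (C4 * (2 * C2)))⁻¹ :=
    ⟨min 1 (min ρ (min (2 * ρ)⁻¹ (min (2 * C2)⁻¹ (2 * (C4 * (2 * C2)))⁻¹))), by positivity,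
      min_le_left _ _, (min_le_right _ _).trans (min_le_left _ _),
      (min_le_right _ _).trans ((min_le_right _ _).trans (min_le_left _ _)),
      (min_le_right _ _).trans ((min_le_right _ _).trans ((min_le_right _ _).trans (min_le_left _ _))),
      (min_le_right _ _).trans ((min_le_right _ _).trans ((min_le_right _ _).trans
        (min_le_right _ _)))⟩
  set β : ℝ := |A| * (η + 1) with hβ'
  have hβ0 : 0 ≤ β := by positivity
  set K : ℝ := 4 * (C1 + 1) with hK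
  have hK1 : 4 ≤ K := by linarith
  refine ⟨(C6 + r1 ^ (-β)) * K ^ β, by positivity, fun L => ?_⟩
  set r : ℝ := K * Real.exp (-L / (η + 1)) with hr
  have hr0 : 0 < r := by positivity
  have hη1 : 0 < η + 1 := by linarith
  have hL0 : (0 : ℝ) ≤ L := by positivity
  have e1 : r ^ β ≤ K ^ β * Real.exp (-(A * L)) := by
    rw [hr, Real.mul_rpow (by positivity) (by positivity), ← Real.exp_mul]
    gcongr
    have : -L / (η + 1) * β = -(|A| * L) := by rw [hβ']; field_simp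
    rw [this, neg_le_neg_iff]
    gcongr
    exact le_abs_self A
  suffices H : _ ≤ ENNReal.ofReal ((C6 + r1 ^ (-β)) * r ^ β) from
    H.trans (ENNReal.ofReal_le_ofReal (by rw [mul_assoc]; gcongr))
  rcases lt_or_ge r1 r with hrr | hrr
  · refine prob_le_one.trans (ENNReal.one_le_ofReal.2 ?_)
    have a1 : r1 ^ β ≤ r ^ β := by gcongr
    have a2 : 0 < r1 ^ β := by positivity
    have a3 : 1 ≤ r1 ^ (-β) * r ^ β := by
      rw [Real.rpow_neg hr1.le, ← div_eq_inv_mul, one_le_div a2]; exact a1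
    rw [add_mul]
    have : 0 ≤ C6 * r ^ β := by positivity
    linarith
  have hr1' : r ≤ 1 := hrr.trans q1
  obtain ⟨Γ, hc, hΓ, hcov⟩ := net_sh (n := n) hρ hr0 (hrr.trans q2) (hrr.trans q3)
  have p1 : 2 * C2 * r ≤ 1 := by
    have := hrr.trans q4
    rwa [← one_div, le_div_iff₀' (by positivity)] at this
  have p2 : C4 * (2 * C2) * r ≤ 1 / 2 := by
    have := hrr.trans q5
    rw [← one_div, le_div_iff₀' (by positivity)] at this
    linarith
  have p3 : 1 + ENNReal.ofReal (C1 * r ^ (-(η + 1))) < ENNReal.ofReal (Real.exp L) := by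
    have a1 : r ^ (-(η + 1)) ≤ K⁻¹ * Real.exp L := by
      rw [hr, Real.mul_rpow (by positivity) (by positivity), ← Real.exp_mul, ← Real.rpow_neg_one]
      gcongr
      · linarith
      · linarith
      · exact le_of_eq (by field_simp)
    have a2 : 4 ≤ Real.exp L := by
      have b1 : K ≤ Real.exp (L / (η + 1)) := by
        rw [hr, neg_div, Real.exp_neg, ← div_eq_mul_inv, div_le_one (Real.exp_pos _)] at hr1'
        exact hr1'
      refine hK1.trans (b1.trans ?_)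
      gcongr
      exact div_le_self hL0 (by linarith)
    have a3 : C1 * K⁻¹ ≤ 1 / 4 := by
      rw [← div_eq_mul_inv, div_le_iff₀ (by positivity)]; linarith
    rw [← ENNReal.ofReal_one, ← ENNReal.ofReal_add zero_le_one (by positivity),
      ENNReal.ofReal_lt_ofReal_iff (Real.exp_pos _)]
    have a4 : C1 * r ^ (-(η + 1)) ≤ C1 * K⁻¹ * Real.exp L := by rw [mul_assoc]; gcongr
    have a5 : C1 * K⁻¹ * Real.exp L ≤ 1 / 4 * Real.exp L := by gcongr
    linarith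
  refine (measure_mono ?_).trans ((h2 r hr0 hr1' p2 Γ hc hΓ).trans (ENNReal.ofReal_le_ofReal ?_))
  · rintro x ⟨a, ha, h0, hI⟩
    have b1 : ‖a‖ ≤ 1 := by
      have := sq_le_nsq a
      rw [ha] at this
      exact (pow_le_one_iff_of_nonneg (norm_nonneg _) two_ne_zero).1 this
    have b2 : 1 ≤ (N + 1) * ‖a‖ := by
      have := nsq_le (ζ := a) (r := ‖a‖) fun i => norm_le_pi_norm a i
      rw [ha, Fintype.card_fin] at this
      refine this.trans ?_
      push_cast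
      gcongr
      exact pow_le_of_le_one (norm_nonneg a) b1 two_ne_zero
    have b3 : 0 < ‖a‖ := by
      rcases (norm_nonneg a).eq_or_lt with h | h
      · rw [← h] at b2; norm_num at b2
      · exact h
    set a' : Fin (N + 1) → ℂ := ((‖a‖⁻¹ : ℝ) : ℂ) • a with ha'
    have b4 : ‖a'‖ = 1 := by
      rw [ha', norm_smul, Complex.norm_real, Real.norm_of_nonneg (by positivity),
        inv_mul_cancel₀ b3.ne']
    obtain ⟨P, P1, -, P2, P3⟩ := hP a' b4
    refine ⟨a', b4, fun i hi => by rw [ha', lc_smul, h0 i hi, mul_zero], ?_⟩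
    by_contra hne
    push Not at hne
    refine absurd (hI.trans (add_le_add_right (h1 r hr0 hr1' Γ hc (fun g hg => (hΓ g hg).2) hcov P
      (lc s a) P1 (fun y hy => ?_) fun g hg => ?_) 1)) (not_le.2 p3)
    · refine (P2 y hy.1 B hB1 fun q hq e => ?_).trans ?_
      · have := hB q ⟨hq, by have := hy.2; simp only [Sh, mem_ofPred_eq, e] at this ⊢; exact this⟩ a'
        rwa [b4, mul_one] at this
      · rw [ha', lc_smul, norm_mul, Complex.norm_real, Real.norm_of_nonneg (by positivity),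
          mul_comm ‖a‖⁻¹, mul_assoc]
        gcongr
        rw [← one_div, div_le_iff₀ b3]; exact b2
    · obtain ⟨w, hw, hq⟩ := hne g hg
      refine ⟨w, hw, lt_of_lt_of_le ?_ (P3 w (2 * C2 * r ^ (2 * k + 1)) (by positivity) ?_
        fun q h1 h2 => (hq q h1 h2).le)⟩
      · rw [mul_pow (2 * C2), ← pow_mul]
        have c1 : 2 * C2 ≤ (2 * C2) ^ d := le_self_pow₀ (by linarith) hd.ne'
        have c2 : r ^ (j + 1) ≤ r ^ ((2 * k + 1) * d) := pow_le_pow_of_le_one hr0.le hr1' hjk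
        have c3 : 0 < C2 * r ^ (j + 1) := by positivity
        calc _ < 2 * C2 * r ^ (j + 1) := by linarith
          _ ≤ _ := by gcongr
      · refine le_trans ?_ p1
        gcongr
        exact pow_le_of_le_one hr0.le hr1' (by omega)
  · have a1 : r ^ (η / (D2 * m) * (k + 1) ^ 2 - 2 * n) ≤ r ^ β :=
      Real.rpow_le_rpow_of_exponent_ge hr0 hr1' (by linarith)
    have a2 : 0 ≤ r1 ^ (-β) := by positivity
    exact mul_le_mul (by linarith) a1 (by positivity) (by positivity)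

end Pool.Agent.Lib.MP_bc3ae6_ag
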