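import Pool.Agent.Lib.MP_bc3ae6_ag.Bas

set_option autoImplicit false
set_option linter.unusedSectionVars false

/-! Tail estimate, part one: nets of a shell and the non-flat case. -/

namespace Pool.Agent.Lib.MP_bc3ae6_ag

open MvPolynomial Set Metric MeasureTheory Filter Topology
open scoped Polynomial ENNReal NNReal

variable {n M : ℕ} {I : Ideal (MP M)} {θ : Fin n → MP M} {d : ℕ} {F : Fin M → (MP n)[X]}
  {h : MvPolynomial (Fin n ⊕ Fin M) ℂ}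

lemma net_sh {ρ r : ℝ} (hρ : 0 < ρ) (hr : 0 < r) (h1 : r ≤ ρ) (h2 : r ≤ (2 * ρ)⁻¹) :
    ∃ Γ : Finset (Fin n → ℂ), (Γ.card : ℝ) ≤ (4 * ρ / r + 3) ^ (2 * n) ∧
      (∀ g ∈ Γ, (2 * ρ)⁻¹ ≤ ‖g‖ ∧ ‖g‖ ≤ 2 * ρ) ∧
      ∀ w : Fin n → ℂ, ρ⁻¹ ≤ ‖w‖ → ‖w‖ ≤ ρ → ∃ g ∈ Γ, ‖w - g‖ ≤ r := by
  classical
  obtain ⟨Γ, hc, hΓ⟩ := exists_net (ι := Fin n) ρ hr
  rw [abs_of_pos hρ, Fintype.card_fin] at hc
  refine ⟨Γ.filter fun g => (2 * ρ)⁻¹ ≤ ‖g‖ ∧ ‖g‖ ≤ 2 * ρ, le_trans ?_ hc,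
    fun g hg => (Finset.mem_filter.1 hg).2, fun w hw1 hw2 => ?_⟩
  · exact_mod_cast Finset.card_filter_le _ _
  · obtain ⟨g, hg, hwg⟩ := hΓ w hw2
    refine ⟨g, Finset.mem_filter.2 ⟨hg, ?_, ?_⟩, hwg⟩
    · have e : ρ⁻¹ = (2 * ρ)⁻¹ + (2 * ρ)⁻¹ := by field_simp; norm_num
      have := norm_sub_norm_le w g
      linarith
    · have := norm_sub_norm_le g w
      rw [norm_sub_rev] at this
      linarith

lemma bd_lc {N : ℕ} (s : Fin N → MP M) {K : Set (Fin M → ℂ)} (hK : IsCompact K) :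
    ∃ B : ℝ, 1 ≤ B ∧ ∀ y ∈ K, ∀ c : Fin N → ℂ, ‖eval y (lc s c)‖ ≤ B * ‖c‖ := by
  obtain ⟨B, hB⟩ := hK.exists_bound_of_continuousOn
    (f := fun y => ∑ i, ‖eval y (s i)‖)
    (continuous_finsetSum _ fun i _ => (cont_ev (s i)).norm).continuousOn
  refine ⟨|B| + 1, by linarith [abs_nonneg B], fun y hy c => ?_⟩
  rw [ev_lc]
  calc _ ≤ ∑ i, ‖c‖ * ‖eval y (s i)‖ := norm_sum_le_of_le _ fun i _ => by
        rw [norm_mul]; gcongr; exact norm_le_pi_norm c i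
    _ = (∑ i, ‖eval y (s i)‖) * ‖c‖ := by rw [← Finset.mul_sum, mul_comm]
    _ ≤ _ := by
        gcongr
        have := (le_abs_self _).trans (hB y hy)
        linarith [le_abs_self B]

lemma lc_smul {N : ℕ} (s : Fin N → MP M) (t : ℂ) (c : Fin N → ℂ) (y : Fin M → ℂ) :
    eval y (lc s (t • c)) = t * eval y (lc s c) := by
  simp [ev_lc, Finset.mul_sum, mul_assoc]

lemma lc_sub {N : ℕ} (s : Fin N → MP M) (a c : Fin N → ℂ) (y : Fin M → ℂ) :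
    eval y (lc s (a - c)) = eval y (lc s a) - eval y (lc s c) := by
  simp [ev_lc, sub_mul]

/-- The non-flat case. -/
lemma tail1 {ν : Measure (Fin M → ℂ)} [IsProbabilityMeasure ν] {η ρ : ℝ} (hη : 0 < η)
    (hν : HP I θ ν η ρ) {j : ℕ} (hj : 0 < j) {x0 : ℝ} (hx : 0 < x0) (hxj : x0 < η / j)
    (hxj' : (j + 1) * x0 ≤ η + 1) {C : ℝ} (hC : 0 ≤ C) (D : ℕ) {B : ℝ} (hB : 0 < B) :
    ∃ C1 C2 : ℝ, 0 ≤ C1 ∧ 1 ≤ C2 ∧ ∀ r : ℝ, 0 < r → r ≤ 1 → ∀ Γ : Finset (Fin n → ℂ),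
      (Γ.card : ℝ) ≤ (4 * ρ / r + 3) ^ (2 * n) → (∀ g ∈ Γ, ‖g‖ ≤ 2 * ρ) →
      (∀ w : Fin n → ℂ, ρ⁻¹ ≤ ‖w‖ → ‖w‖ ≤ ρ → ∃ g ∈ Γ, ‖w - g‖ ≤ r) →
      ∀ (P : MP n) (f : MP M), (∀ w, ‖eval w P‖ ≤ C * (1 + ‖w‖) ^ D) →
        (∀ x ∈ zeroLocus ℂ I ∩ Sh θ ρ, ‖eval (pr θ x) P‖ ≤ ‖eval x f‖ * B) →
        (∀ g ∈ Γ, ∃ z ∈ closedBall g r, C2 * r ^ (j + 1) < ‖eval z P‖) →
        ∫⁻ y, ‖eval y f‖ₑ ^ (-x0) ∂ν ≤ ENNReal.ofReal (C1 * r ^ (-(η + 1))) := by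
  have hρ := hν.pos
  obtain ⟨G, hG, hlint⟩ := lint_neg_le hx hxj
  obtain ⟨C', hC', hle⟩ := hν.le
  set Mx : ℝ := C * (1 + (2 * ρ + 9)) ^ D with hMx
  have hMx0 : 0 ≤ Mx := by positivity
  set V : ℝ≥0∞ := volume (ball (0 : Fin n → ℂ) 1) with hV
  have hVt : V < ⊤ := measure_ball_lt_top
  set K : ℝ≥0∞ := ENNReal.ofReal ((16 * ρ + 12) ^ (2 * n) *
    (4 * j * (5 ^ (j + 1) * B) ^ (1 / j : ℝ))) * V with hK
  have hKt : K < ⊤ := ENNReal.mul_lt_top ENNReal.ofReal_lt_top hVt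
  have hK' : C' * K ^ η < ⊤ :=
    ENNReal.mul_lt_top hC' (ENNReal.rpow_lt_top_of_nonneg hη.le hKt.ne)
  have hT : 1 + C' * K ^ η * G ≠ ⊤ :=
    ENNReal.add_ne_top.2 ⟨ENNReal.one_ne_top, (ENNReal.mul_lt_top hK' hG).ne⟩
  refine ⟨(1 + C' * K ^ η * G).toReal, Mx * 4 ^ (j + 1) + 1, ENNReal.toReal_nonneg,
    le_add_of_nonneg_left (by positivity), fun r hr hr1 Γ hc hΓ hcov P f hP hf hnf => ?_⟩
  have ht : 0 < r ^ (j + 1) := by positivity
  have hj' : (0 : ℝ) < j := by exact_mod_cast hj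
  have key : ∀ τ : ℝ, 0 < τ → ν {y | ‖eval y f‖ ≤ τ} ≤
      C' * K ^ η * ENNReal.ofReal ((τ / r ^ (j + 1)) ^ (η / j)) := fun τ hτ => by
    let U : Set (Fin n → ℂ) := ⋃ g ∈ Γ, {w ∈ closedBall g r | ‖eval w P‖ ≤ τ * B}
    have hU : MeasurableSet U := Finset.measurableSet_biUnion _ fun g _ =>
      measurableSet_closedBall.inter
        (measurableSet_le (cont_ev P).norm.measurable measurable_const)
    have h1 : ν {y | ‖eval y f‖ ≤ τ} ≤ ν (pr θ ⁻¹' U) := by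
      refine measure_mono_ae ?_
      filter_upwards [hν.ae] with y hy hyτ
      obtain ⟨g, hg, hg'⟩ := hcov _ hy.2.1 hy.2.2
      refine mem_biUnion hg ⟨by rwa [mem_closedBall, dist_eq_norm], (hf y hy).trans ?_⟩
      exact mul_le_mul_of_nonneg_right hyτ hB.le
    have h2 : ∀ g ∈ Γ, volume {w ∈ closedBall g r | ‖eval w P‖ ≤ τ * B} ≤
        ENNReal.ofReal (4 * j * (5 ^ (j + 1) * (τ * B) / r ^ (j + 1)) ^ (1 / j : ℝ))
          * volume (closedBall (0 : Fin n → ℂ) (4 * r)) := fun g hg => by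
      obtain ⟨z, hz, hz'⟩ := hnf g hg
      refine loc (P := fun w => eval w P) (diff_ev P) (R := 1 / r + 1) (M := Mx)
        (by have := one_div_pos.2 hr; linarith) hz (fun w hw => (hP w).trans ?_) hj ht ?_
        (by positivity)
      · have e : (4 * (1 / r + 1) + 1) * r = 4 + 5 * r := by field_simp; ring
        rw [e, mem_closedBall, dist_eq_norm] at hw
        have := norm_sub_norm_le w g
        have := hΓ g hg
        rw [hMx]
        gcongr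
        linarith
      · refine lt_of_eq_of_lt ?_ hz'
        rw [add_sub_cancel_right, div_div_eq_mul_div, div_one, mul_pow]
        ring
    have h3 : volume U ≤ K * ENNReal.ofReal ((τ / r ^ (j + 1)) ^ (1 / j : ℝ)) := by
      refine (measure_biUnion_finset_le _ _).trans ((Finset.sum_le_card_nsmul _ _ _ h2).trans ?_)
      rw [vol_cB _ (by positivity), Fintype.card_fin, ← hV, nsmul_eq_mul, ← ENNReal.ofReal_natCast,
        hK, mul_right_comm _ V, ← mul_assoc, ← mul_assoc, ← ENNReal.ofReal_mul (by positivity),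
        ← ENNReal.ofReal_mul (by positivity), ← ENNReal.ofReal_mul (by positivity)]
      refine mul_le_mul_left (ENNReal.ofReal_le_ofReal ?_) _
      have e1 : (5 ^ (j + 1) * (τ * B) / r ^ (j + 1)) ^ (1 / j : ℝ) =
          (5 ^ (j + 1) * B) ^ (1 / j : ℝ) * (τ / r ^ (j + 1)) ^ (1 / j : ℝ) := by
        rw [← Real.mul_rpow (by positivity) (by positivity)]
        congr 1; ring
      have e2 : (Γ.card : ℝ) * (4 * r) ^ (2 * n) ≤ (16 * ρ + 12) ^ (2 * n) := by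
        refine (mul_le_mul_of_nonneg_right hc (by positivity)).trans ?_
        rw [← mul_pow]
        gcongr
        have : (4 * ρ / r + 3) * (4 * r) = 16 * ρ + 12 * r := by field_simp; ring
        linarith
      rw [e1]
      calc _ = (Γ.card : ℝ) * (4 * r) ^ (2 * n) * (4 * j * (5 ^ (j + 1) * B) ^ (1 / j : ℝ)) *
            (τ / r ^ (j + 1)) ^ (1 / j : ℝ) := by ring
        _ ≤ _ := by gcongr
    refine h1.trans ((hle U hU).trans ?_)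
    rw [mul_assoc]
    gcongr
    refine (ENNReal.rpow_le_rpow h3 hη.le).trans (le_of_eq ?_)
    rw [ENNReal.mul_rpow_of_nonneg _ _ hη.le, ENNReal.ofReal_rpow_of_nonneg (by positivity) hη.le,
      ← Real.rpow_mul (by positivity)]
    congr 3; ring
  refine (hlint ν (fun y => eval y f) _ _ (cont_ev f).measurable ht key hK').trans ?_
  rw [measure_univ, ENNReal.ofReal_mul ENNReal.toReal_nonneg, ENNReal.ofReal_toReal hT, mul_comm]
  gcongr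
  rw [← Real.rpow_natCast, ← Real.rpow_mul hr.le]
  refine Real.rpow_le_rpow_of_exponent_ge hr hr1 ?_
  push_cast
  linarith

end Pool.Agent.Lib.MP_bc3ae6_ag
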