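import Pool.Agent.Lib.MP_bc3ae6_ag.Tail1
import Pool.Agent.Lib.MP_bc3ae6_ag.SmallSV

set_option autoImplicit false
set_option linter.unusedSectionVars false

/-! Tail estimate, part two: the flat case, and the choice of parameters. -/

namespace Pool.Agent.Lib.MP_bc3ae6_ag

open MvPolynomial Set Metric MeasureTheory Filter Topology
open scoped Polynomial ENNReal NNReal

variable {n M : ℕ} {I : Ideal (MP M)} {θ : Fin n → MP M} {d : ℕ} {F : Fin M → (MP n)[X]}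
  {h : MvPolynomial (Fin n ⊕ Fin M) ℂ}

lemma dot_lc {N : ℕ} (s : Fin N → MP M) (c : Fin N → ℂ) (y : Fin M → ℂ) :
    (fun i => eval y (s i)) ⬝ᵥ c = eval y (lc s c) := by
  simp [ev_lc, dotProduct, mul_comm]

/-- The flat case. -/
lemma Geo.tail2 (hG : Geo I θ d F h) {N k : ℕ} {s : Fin (N + 1) → MP M}
    {ν : Measure (Fin M → ℂ)} [IsProbabilityMeasure ν] {ρ : ℝ} (hρ : 0 < ρ)
    (hae : ∀ᵐ y ∂ν, y ∈ zeroLocus ℂ I ∩ Sh θ ρ) {a0 : ℝ} (ha0 : 0 < a0) {C0 : ℝ≥0∞}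
    (hC0 : C0 < ⊤) (hα : ∀ a : Fin (N + 1) → ℂ, ‖a‖ = 1 → ∀ δ : ℝ, 0 < δ →
      ν {y | ‖eval y (lc s a)‖ ≤ δ} ≤ C0 * ENNReal.ofReal (δ ^ a0)) {C4 : ℝ} (hC4 : 0 < C4)
    (hL : ∀ w0 : Fin n → ℂ, (2 * ρ)⁻¹ ≤ ‖w0‖ → ‖w0‖ ≤ 2 * ρ → ∀ r : ℝ, 0 < r → r ≤ 1 →
      ∃ w : Fin (k + 1) → Fin n → ℂ, (∀ i, w i ∈ closedBall w0 r) ∧
        ∀ q : Fin (k + 1) → Fin M → ℂ, (∀ i, q i ∈ zeroLocus ℂ I ∧ pr θ (q i) = w i) →
          ∃ V : Submodule ℂ (Fin (N + 1) → ℂ), Module.finrank ℂ V + (k + 1) ≤ N + 1 ∧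
            ∀ (a : Fin (N + 1) → ℂ) (τ : ℝ), (∀ i, ‖eval (q i) (lc s a)‖ ≤ τ) →
              ∃ a' ∈ V, ‖a - a'‖ ≤ C4 * τ / r ^ k) {C3 : ℝ} (hC3 : 0 < C3) :
    ∃ C6 : ℝ, 0 ≤ C6 ∧ ∀ r : ℝ, 0 < r → r ≤ 1 → C4 * C3 * r ≤ 1 / 2 →
      ∀ Γ : Finset (Fin n → ℂ), (Γ.card : ℝ) ≤ (4 * ρ / r + 3) ^ (2 * n) →
        (∀ g ∈ Γ, (2 * ρ)⁻¹ ≤ ‖g‖ ∧ ‖g‖ ≤ 2 * ρ) →
        (Measure.pi fun _ => ν) {x : Fin (N + 1) → Fin M → ℂ | ∃ a : Fin (N + 1) → ℂ, ‖a‖ = 1 ∧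
          (∀ j, j ≠ Fin.last N → eval (x j) (lc s a) = 0) ∧ ∃ g ∈ Γ, ∀ w ∈ closedBall g r,
            ∃ q ∈ zeroLocus ℂ I, pr θ q = w ∧ ‖eval q (lc s a)‖ ≤ C3 * r ^ (2 * k + 1)}
          ≤ ENNReal.ofReal (C6 * r ^ (a0 * (k + 1) ^ 2 - 2 * n)) := by
  classical
  by_cases hk : k + 1 ≤ N + 1
  swap
  · refine ⟨0, le_rfl, fun r hr hr1 _ Γ _ hΓ => le_of_eq_of_le ?_ bot_le⟩
    refine measure_mono_null ?_ measure_empty
    rintro x ⟨a, -, -, g, hg, hq⟩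
    obtain ⟨w, hw, hV⟩ := hL g (hΓ g hg).1 (hΓ g hg).2 r hr hr1
    choose q hq1 hq2 hq3 using fun i => hq _ (hw i)
    obtain ⟨V, hV, -⟩ := hV q fun i => ⟨hq1 i, hq2 i⟩
    omega
  obtain ⟨B, hB1, hB⟩ := bd_lc s (hG.compact_Sh ρ)
  obtain ⟨C, hC, hsv⟩ := small_sv ν (ι := Fin (N + 1)) (fun y i => eval y (s i))
    (fun i => (cont_ev _).measurable) ha0 hC0 (fun a ha δ hδ => by
      simpa only [dot_lc] using hα a ha δ hδ) (N + 1 - (k + 1)) (k + 1)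
    (Finset.univ.erase (Fin.last N)) (by simp; omega)
  refine ⟨(4 * ρ + 3) ^ (2 * n) * ((d ^ M) ^ (k + 1) * (C.toReal *
    (2 * B * (C4 * C3)) ^ (a0 * (k + 1 : ℕ)))), by positivity, fun r hr hr1 hr2 Γ hc hΓ => ?_⟩
  choose! w hw hV using fun g (hg : g ∈ Γ) => hL g (hΓ g hg).1 (hΓ g hg).2 r hr hr1
  choose! V hV1 hV2 using hV
  let Q : (Fin n → ℂ) → Finset (Fin (k + 1) → Fin M → ℂ) := fun g =>
    Fintype.piFinset fun i => (hG.ff.fin (w g i)).toFinset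
  have hQ : ∀ g q, q ∈ Q g ↔ ∀ i, q i ∈ zeroLocus ℂ I ∧ pr θ (q i) = w g i := fun g q => by
    simp [Q, fibr]
  have hQc : ∀ g, (Q g).card ≤ (d ^ M) ^ (k + 1) := fun g => by
    rw [Fintype.card_piFinset]
    refine (Finset.prod_le_pow_card _ _ _ fun i _ => hG.ff.card_le _).trans (by simp)
  set δ : ℝ := 2 * B * (C4 * C3) * r ^ (k + 1) with hδ
  have hδ0 : 0 < δ := by positivity
  let E : (Fin n → ℂ) → (Fin (k + 1) → Fin M → ℂ) → Set (Fin (N + 1) → Fin M → ℂ) := fun g q =>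
    {x | ∃ u ∈ V g q, ‖u‖ = 1 ∧ ∀ i ∈ Finset.univ.erase (Fin.last N),
      ‖(fun l => eval (x i) (s l)) ⬝ᵥ u‖ ≤ δ}
  have hx : ∀ᵐ x ∂(Measure.pi fun _ : Fin (N + 1) => ν), ∀ i, x i ∈ zeroLocus ℂ I ∩ Sh θ ρ :=
    ae_all_iff.2 fun i => Measure.tendsto_eval_ae_ae.eventually hae
  refine (measure_mono_ae (t := ⋃ g ∈ Γ, ⋃ q ∈ Q g, E g q) ?_).trans ?_
  · filter_upwards [hx] with x hx
    rintro ⟨a, ha, h0, g, hg, hq⟩
    choose q hq1 hq2 hq3 using fun i => hq _ (hw g hg i)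
    obtain ⟨a', ha', haa⟩ := hV2 g hg q (fun i => ⟨hq1 i, hq2 i⟩) a _ hq3
    have e : C4 * (C3 * r ^ (2 * k + 1)) / r ^ k = C4 * C3 * r ^ (k + 1) := by
      field_simp; ring
    rw [e] at haa
    have h1 : C4 * C3 * r ^ (k + 1) ≤ 1 / 2 := by
      refine le_trans ?_ hr2
      gcongr
      exact pow_le_of_le_one hr.le hr1 (by omega)
    have h2 : 1 / 2 ≤ ‖a'‖ := by
      have := norm_sub_norm_le a a'
      linarith
    have h3 : 0 < ‖a'‖ := by linarith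
    refine mem_biUnion hg (mem_biUnion ((hQ g q).2 fun i => ⟨hq1 i, hq2 i⟩)
      ⟨((‖a'‖⁻¹ : ℝ) : ℂ) • a', Submodule.smul_mem _ _ ha', ?_, fun i hi => ?_⟩)
    · rw [norm_smul, Complex.norm_real, Real.norm_of_nonneg (by positivity),
        inv_mul_cancel₀ h3.ne']
    · have h4 := hB _ (hx i) (a - a')
      rw [lc_sub, h0 i (Finset.ne_of_mem_erase hi), zero_sub, norm_neg] at h4
      rw [dot_lc, lc_smul, norm_mul, Complex.norm_real, Real.norm_of_nonneg (by positivity), hδ]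
      calc _ ≤ 2 * (B * (C4 * C3 * r ^ (k + 1))) := by
            refine mul_le_mul ?_ (h4.trans (by gcongr)) (norm_nonneg _) zero_le_two
            rw [inv_le_comm₀ h3 two_pos]; linarith
        _ = _ := by ring
  · have h1 : ∀ g ∈ Γ, (Measure.pi fun _ : Fin (N + 1) => ν) (⋃ q ∈ Q g, E g q) ≤
        ENNReal.ofReal ((d ^ M) ^ (k + 1) * (C.toReal * δ ^ (a0 * (k + 1 : ℕ)))) := fun g hg => by
      refine (measure_biUnion_finset_le _ _).trans ((Finset.sum_le_card_nsmul _ _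
        (C * ENNReal.ofReal (δ ^ (a0 * (k + 1 : ℕ)))) fun q hq => ?_).trans ?_)
      · refine hsv _ ?_ δ hδ0
        have := hV1 g hg q ((hQ g q).1 hq)
        omega
      · rw [nsmul_eq_mul, ENNReal.ofReal_mul (by positivity),
          ENNReal.ofReal_mul ENNReal.toReal_nonneg, ENNReal.ofReal_toReal hC.ne]
        gcongr
        rw [← ENNReal.ofReal_natCast]
        exact ENNReal.ofReal_le_ofReal (by exact_mod_cast hQc g)
    refine (measure_biUnion_finset_le _ _).trans ((Finset.sum_le_card_nsmul _ _ _ h1).trans ?_)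
    rw [nsmul_eq_mul, ← ENNReal.ofReal_natCast, ← ENNReal.ofReal_mul (by positivity)]
    refine ENNReal.ofReal_le_ofReal ?_
    have e1 : δ ^ (a0 * (k + 1 : ℕ)) =
        (2 * B * (C4 * C3)) ^ (a0 * (k + 1 : ℕ)) * r ^ (a0 * (k + 1) ^ 2) := by
      rw [hδ, Real.mul_rpow (by positivity) (by positivity), ← Real.rpow_natCast r,
        ← Real.rpow_mul hr.le]
      congr 2; push_cast; ring
    have e2 : (Γ.card : ℝ) ≤ (4 * ρ + 3) ^ (2 * n) / r ^ (2 * n : ℝ) := by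
      rw [show (2 * n : ℝ) = (2 * n : ℕ) by push_cast; ring, Real.rpow_natCast, ← div_pow]
      refine hc.trans ?_
      gcongr
      rw [add_div]
      gcongr
      rw [le_div_iff₀ hr]; linarith
    rw [e1, Real.rpow_sub hr]
    refine (mul_le_mul_of_nonneg_right e2 (by positivity)).trans (le_of_eq ?_)
    ring

/-- The choice of parameters. -/
lemma tail_par {p : ℕ → Prop} (hp : ∀ᶠ m in atTop, p m) {e d D1 : ℕ} (hd : 0 < d) (hD : 0 < D1)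
    {η b : ℝ} (hη : 0 < η) (hb : 0 < b) (β : ℝ) : ∀ᶠ m : ℕ in atTop, 0 < m ∧ ∃ m0 k j : ℕ,
      m = m0 + e * k ∧ p m0 ∧ 0 < j ∧ (2 * k + 1) * d ≤ j + 1 ∧ 2 * (b / m) < η / j ∧
      (j + 1) * (2 * (b / m)) ≤ η + 1 ∧ β ≤ η / (D1 * m) * (k + 1) ^ 2 := by
  obtain ⟨m1, hm1⟩ := eventually_atTop.1 hp
  obtain ⟨Q, hQ⟩ := exists_nat_ge (8 * b * d / η + 2 * e + 1)
  have hd' : (1 : ℝ) ≤ d := by exact_mod_cast hd
  have hD' : (0 : ℝ) < D1 := by exact_mod_cast hD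
  have h0 : 0 ≤ 8 * b * d / η := by positivity
  have he : (0 : ℝ) ≤ e := by positivity
  have hQ0 : (0 : ℝ) < Q := by linarith
  have hQ1 : 0 < Q := by exact_mod_cast hQ0
  have hQ2 : 2 * e ≤ Q := by
    have : ((2 * e : ℕ) : ℝ) ≤ Q := by push_cast; linarith
    exact_mod_cast this
  have hQ3 : 8 * b * d ≤ Q * η := by rw [← div_le_iff₀ hη]; linarith
  have ht := tendsto_natCast_atTop_atTop (R := ℝ)
  filter_upwards [eventually_ge_atTop (2 * m1 + 1), ht.eventually_gt_atTop (4 * b * d / η),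
    ht.eventually_ge_atTop (2 * b), ht.eventually_ge_atTop (β * (D1 * Q ^ 2) / η)]
    with m h1 h2 h3 h4
  have hm : (0 : ℝ) < m := by exact_mod_cast (by omega : 0 < m)
  have k1 : Q * (m / Q) ≤ m := Nat.mul_div_le m Q
  have k2 : m < Q * (m / Q + 1) := Nat.lt_mul_div_succ m hQ1
  generalize m / Q = k at k1 k2
  have k3 : 2 * (e * k) ≤ m := le_trans (by rw [← mul_assoc]; gcongr) k1
  have k4 : (Q : ℝ) * k ≤ m := by exact_mod_cast k1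
  have k5 : (m : ℝ) < Q * (k + 1) := by exact_mod_cast k2
  have hj : 0 < (2 * k + 1) * d := by positivity
  have hj' : (0 : ℝ) < ((2 * k + 1) * d : ℕ) := by exact_mod_cast hj
  have k6 : (((2 * k + 1) * d : ℕ) : ℝ) * (2 * (b / m)) < η := by
    rw [div_lt_iff₀ hη] at h2
    rw [← mul_div_assoc, ← mul_div_assoc, div_lt_iff₀ hm]
    push_cast
    have a1 : 8 * b * d * k ≤ Q * η * k := by gcongr
    have a2 : Q * k * η ≤ m * η := by gcongr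
    nlinarith
  refine ⟨by omega, m - e * k, k, (2 * k + 1) * d, by omega, hm1 _ (by omega), hj, by omega,
    ?_, ?_, ?_⟩
  · rw [lt_div_iff₀ hj', mul_comm]; exact k6
  · have : 2 * (b / m) ≤ 1 := by rw [← mul_div_assoc, div_le_one hm]; exact h3
    rw [add_mul]; linarith
  · rw [div_le_iff₀ hη] at h4
    rw [div_mul_eq_mul_div, le_div_iff₀ (by positivity)]
    have a1 : (m : ℝ) ^ 2 ≤ (Q * (k + 1)) ^ 2 := by gcongr
    have a2 : β * (D1 * Q ^ 2) * m ≤ m * η * m := by gcongr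
    have a3 : (0 : ℝ) < Q ^ 2 := by positivity
    refine le_of_mul_le_mul_right ?_ a3
    nlinarith

end Pool.Agent.Lib.MP_bc3ae6_ag
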