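import Pool.Agent.Lib.MP_bc3ae6_ag.VDef

set_option autoImplicit false
set_option linter.unusedSectionVars false

/-! Non-archimedean absolute values, monomial absolute values, complex points of a field. -/

namespace Pool.Agent.Lib.MP_bc3ae6_ag

open MvPolynomial Set Real

/-- Non-archimedean absolute values. -/
abbrev NA {F : Type*} [Ring F] (w : AbsoluteValue F ℝ) : Prop := IsNonarchimedean w

section NA

variable {F : Type*} [CommRing F] {w : AbsoluteValue F ℝ} (hw : NA w)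
include hw

lemma NA.add_le {a b : F} {c : ℝ} (ha : w a ≤ c) (hb : w b ≤ c) : w (a + b) ≤ c :=
  (hw a b).trans (max_le ha hb)

lemma NA.add_lt {a b : F} {c : ℝ} (ha : w a < c) (hb : w b < c) : w (a + b) < c :=
  (hw a b).trans_lt (max_lt ha hb)

lemma NA.sub_le {a b : F} {c : ℝ} (ha : w a ≤ c) (hb : w b ≤ c) : w (a - b) ≤ c := by
  rw [sub_eq_add_neg]; exact hw.add_le ha (by rwa [w.map_neg])

lemma NA.sub_lt {a b : F} {c : ℝ} (ha : w a < c) (hb : w b < c) : w (a - b) < c := by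
  rw [sub_eq_add_neg]; exact hw.add_lt ha (by rwa [w.map_neg])

lemma NA.sum_le {ι : Type*} {s : Finset ι} {g : ι → F} {c : ℝ} (hc : 0 ≤ c)
    (h : ∀ i ∈ s, w (g i) ≤ c) : w (∑ i ∈ s, g i) ≤ c :=
  Finset.sum_induction g (fun a => w a ≤ c) (fun _ _ => hw.add_le) (by simpa) h

lemma NA.sum_lt {ι : Type*} {s : Finset ι} {g : ι → F} {c : ℝ} (hc : 0 < c)
    (h : ∀ i ∈ s, w (g i) < c) : w (∑ i ∈ s, g i) < c :=
  Finset.sum_induction g (fun a => w a < c) (fun _ _ => hw.add_lt) (by simpa) h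

lemma NA.add_eq_left {a b : F} (h : w b < w a) : w (a + b) = w a := by
  refine le_antisymm (hw.add_le le_rfl h.le) (not_lt.1 fun h' => ?_)
  simpa using hw.sub_lt h' h

lemma NA.add_eq_right {a b : F} (h : w a < w b) : w (a + b) = w b := by
  rw [add_comm]; exact hw.add_eq_left h

lemma NA.sum_eq {ι : Type*} {s : Finset ι} {g : ι → F} {k : ι} (hk : k ∈ s)
    (h : ∀ j ∈ s, j ≠ k → w (g j) < w (g k)) : w (∑ i ∈ s, g i) = w (g k) :=
  IsNonarchimedean.apply_sum_eq_of_lt hw (fun a => (w.map_neg a).symm) hk h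

lemma NA.det_le [Nontrivial F] {ι : Type*} [Fintype ι] [DecidableEq ι] {A : Matrix ι ι F}
    {b : ι → ℝ} (h : ∀ i j, w (A i j) ≤ b i) : w A.det ≤ ∏ i, b i := by
  have hb : ∀ i, 0 ≤ b i := fun i => (w.nonneg _).trans (h i i)
  rw [Matrix.det_apply']
  refine hw.sum_le (Finset.prod_nonneg fun i _ => hb i) fun s _ => ?_
  have h1 : w ((Equiv.Perm.sign s : ℤ) : F) = 1 := by
    rcases Int.units_eq_one_or (Equiv.Perm.sign s) with h | h <;> simp [h]
  rw [map_mul, h1, one_mul, map_prod, ← Equiv.prod_comp s b]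
  exact Finset.prod_le_prod (fun i _ => w.nonneg _) fun i _ => h _ _

end NA

/-- Pull-back of an absolute value along a field homomorphism. -/
noncomputable def pb {K L : Type*} [Field K] [Field L] (w : AbsoluteValue L ℝ) (f : K →+* L) :
    AbsoluteValue K ℝ := w.comp f.injective

@[simp] lemma pb_apply {K L : Type*} [Field K] [Field L] (w : AbsoluteValue L ℝ) (f : K →+* L)
    (a : K) : pb w f a = w (f a) := rfl

lemma NA.pb {K L : Type*} [Field K] [Field L] {w : AbsoluteValue L ℝ} (hw : NA w) (f : K →+* L) :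
    NA (pb w f) := fun a b => by simpa using hw (f a) (f b)

/-- Powers of a non-archimedean absolute value. -/
noncomputable def NA.pw {K : Type*} [Field K] {w : AbsoluteValue K ℝ} (hw : NA w) {s : ℝ}
    (hs : 0 < s) : AbsoluteValue K ℝ where
  toFun a := w a ^ s
  map_mul' a b := by rw [map_mul, mul_rpow (w.nonneg _) (w.nonneg _)]
  nonneg' a := rpow_nonneg (w.nonneg _) _
  eq_zero' a := by simp [rpow_eq_zero_iff_of_nonneg (w.nonneg a), hs.ne']
  add_le' a b := by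
    have h1 := rpow_nonneg (w.nonneg a) s
    have h2 := rpow_nonneg (w.nonneg b) s
    rcases le_max_iff.1 (hw a b) with h | h <;>
      linarith [rpow_le_rpow (w.nonneg _) h hs.le]

@[simp] lemma NA.pw_apply {K : Type*} [Field K] {w : AbsoluteValue K ℝ} (hw : NA w) {s : ℝ}
    (hs : 0 < s) (a : K) : hw.pw hs a = w a ^ s := rfl

lemma NA.pw_na {K : Type*} [Field K] {w : AbsoluteValue K ℝ} (hw : NA w) {s : ℝ}
    (hs : 0 < s) : NA (hw.pw hs) := fun a b =>
  le_max_iff.2 ((le_max_iff.1 (hw a b)).imp (fun h => rpow_le_rpow (w.nonneg _) h hs.le)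
    fun h => rpow_le_rpow (w.nonneg _) h hs.le)

/-- `r` and `s` agree up to the factor `C`. -/
def Ap (C r s : ℝ) : Prop := r ≤ C * s ∧ s ≤ C * r

lemma Ap.symm {C r s : ℝ} (h : Ap C r s) : Ap C s r := ⟨h.2, h.1⟩

lemma Ap.mono {C C' r s : ℝ} (h : Ap C r s) (hC : C ≤ C') (hr : 0 ≤ r) (hs : 0 ≤ s) : Ap C' r s :=
  ⟨h.1.trans (by gcongr), h.2.trans (by gcongr)⟩

lemma Ap.refl {C r : ℝ} (hC : 1 ≤ C) (hr : 0 ≤ r) : Ap C r r :=
  ⟨le_mul_of_one_le_left hr hC, le_mul_of_one_le_left hr hC⟩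

lemma Ap.mul {C C' r s r' s' : ℝ} (h : Ap C r s) (h' : Ap C' r' s') (hr : 0 ≤ r) (hs : 0 ≤ s)
    (hr' : 0 ≤ r') (hs' : 0 ≤ s') : Ap (C * C') (r * r') (s * s') :=
  ⟨(mul_le_mul h.1 h'.1 hr' (hr.trans h.1)).trans_eq (by ring),
    (mul_le_mul h.2 h'.2 hs' (hs.trans h.2)).trans_eq (by ring)⟩

lemma Ap.pos {C r s : ℝ} (h : Ap C r s) (hr : 0 ≤ r) (hs : 0 < s) : 0 < r :=
  hr.lt_of_ne fun h0 => by have := h.2; rw [← h0, mul_zero] at this; linarith

lemma Ap.inv {C r s : ℝ} (h : Ap C r s) (hr : 0 < r) (hs : 0 < s) : Ap C r⁻¹ s⁻¹ := by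
  constructor
  · rw [← div_eq_mul_inv, inv_eq_one_div, div_le_div_iff₀ hr hs]; linarith [h.2]
  · rw [← div_eq_mul_inv, inv_eq_one_div, div_le_div_iff₀ hs hr]; linarith [h.1]

/-- Multiplicative seminorms on an integrally closed subring. -/
structure QA {L : Type*} [Field L] (O : Subring L) (N : L → ℝ) : Prop where
  int : ∀ a : L, IsIntegral O a → a ∈ O
  zero : N 0 = 0
  one : N 1 = 1
  nonneg : ∀ a, 0 ≤ N a
  neg : ∀ a, N (-a) = N a
  mul : ∀ a ∈ O, ∀ b ∈ O, N (a * b) = N a * N b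
  add : ∀ a ∈ O, ∀ b ∈ O, N (a + b) ≤ N a + N b

lemma qa_top {L : Type*} [Field L] (w : AbsoluteValue L ℝ) : QA ⊤ w :=
  ⟨fun _ _ => trivial, w.map_zero, w.map_one, w.nonneg, w.map_neg, fun a _ b _ => w.map_mul a b,
    fun a _ b _ => w.add_le a b⟩

section Mono

variable {L ι : Type*} [Field L] [Algebra ℂ L]

/-- `w` is monomial in the coordinates `y`. -/
def Mono (w : AbsoluteValue L ℝ) (y : ι → L) : Prop :=
  (∀ i, y i ≠ 0) ∧ ∀ Q : MvPolynomial ι ℂ, ∀ d ∈ Q.support,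
    w (d.prod fun i k => y i ^ k) ≤ w (aeval y Q)

/-- `w` is trivial on the constants. -/
def Triv (w : AbsoluteValue L ℝ) : Prop := ∀ c : ℂ, c ≠ 0 → w (algebraMap ℂ L c) = 1

variable {w : AbsoluteValue L ℝ} {y : ι → L}

lemma Triv.le (h : Triv w) (c : ℂ) : w (algebraMap ℂ L c) ≤ 1 := by
  rcases eq_or_ne c 0 with rfl | hc
  · simp
  · exact (h c hc).le

lemma Triv.nat (h : Triv w) {k : ℕ} (hk : k ≠ 0) : w (k : L) = 1 := by
  simpa using h k (by exact_mod_cast hk)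

lemma Mono.triv (h : Mono w y) : Triv w := by
  have h1 : ∀ c : ℂ, c ≠ 0 → 1 ≤ w (algebraMap ℂ L c) := fun c hc => by
    simpa using h.2 (C c) 0 (by simpa using hc)
  intro c hc
  have h2 := h1 c⁻¹ (inv_ne_zero hc)
  rw [map_inv₀, map_inv₀, one_le_inv₀ (one_pos.trans_le (h1 c hc))] at h2
  exact le_antisymm h2 (h1 c hc)

lemma Mono.pos (h : Mono w y) (d : ι →₀ ℕ) : 0 < w (d.prod fun i k => y i ^ k) :=
  w.pos (Finset.prod_ne_zero_iff.2 fun i _ => pow_ne_zero _ (h.1 i))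

lemma Mono.indep (h : Mono w y) : AlgebraicIndependent ℂ y := by
  refine algebraicIndependent_iff.2 fun Q hQ => by_contra fun h0 => ?_
  obtain ⟨d, hd⟩ := support_nonempty.2 h0
  have := (h.pos d).trans_le (h.2 Q d hd)
  simp [hQ] at this

/-- The value of a non-zero polynomial is the value of one of its monomials. -/
lemma Mono.exists_eq (hw : NA w) (h : Mono w y) {Q : MvPolynomial ι ℂ} (hQ : Q ≠ 0) :
    ∃ d ∈ Q.support, w (aeval y Q) = w (d.prod fun i k => y i ^ k) := by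
  obtain ⟨d, hd, h1⟩ := Q.support.exists_max_image (fun d => w (d.prod fun i k => y i ^ k))
    (support_nonempty.2 hQ)
  refine ⟨d, hd, le_antisymm ?_ (h.2 Q d hd)⟩
  rw [aeval_def, eval₂_eq]
  refine hw.sum_le (w.nonneg _) fun e he => ?_
  rw [map_mul, h.triv _ (mem_support_iff.1 he), one_mul]
  exact h1 e he

lemma Mono.map {L' : Type*} [Field L'] [Algebra ℂ L'] (h : Mono w y) (f : L →ₐ[ℂ] L')
    {w' : AbsoluteValue L' ℝ} (hf : ∀ a, w' (f a) = w a) : Mono w' fun i => f (y i) := by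
  refine ⟨fun i => (map_ne_zero f).2 (h.1 i), fun Q d hd => ?_⟩
  have := h.2 Q d hd
  rw [← hf, ← hf, map_finsuppProd] at this
  simpa [← comp_aeval_apply] using this

lemma Triv.aeval_le (hw : NA w) (h : Triv w) (hy : ∀ i, w (y i) ≤ 1) (Q : MvPolynomial ι ℂ) :
    w (aeval y Q) ≤ 1 := by
  induction Q using MvPolynomial.induction_on with
  | C a => simpa using h.le a
  | add p q hp hq => rw [map_add]; exact hw.add_le hp hq
  | mul_X p i hp =>
    rw [map_mul, map_mul, aeval_X]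
    exact mul_le_one₀ hp (w.nonneg _) (hy i)

end Mono

/-- Complex points of a field. -/
structure Pt (L : Type) [Field L] [Algebra ℂ L] where
  O : Subalgebra ℂ L
  φ : O →ₐ[ℂ] ℂ
  inv : ∀ a : O, φ a ≠ 0 → (a : L)⁻¹ ∈ O
  int : ∀ a : L, IsIntegral O a → a ∈ O

namespace Pt

variable {L : Type} [Field L] [Algebra ℂ L] (P : Pt L) {a b : L}

open Classical in
/-- The value at a point. -/
noncomputable def ev (a : L) : ℂ := if h : a ∈ P.O then P.φ ⟨a, h⟩ else 0

lemma ev_mk (h : a ∈ P.O) : P.ev a = P.φ ⟨a, h⟩ := dif_pos h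

lemma ev_coe (a : P.O) : P.ev a = P.φ a := P.ev_mk a.2

lemma ev_add (ha : a ∈ P.O) (hb : b ∈ P.O) : P.ev (a + b) = P.ev a + P.ev b := by
  rw [P.ev_mk ha, P.ev_mk hb, ← map_add]; exact P.ev_mk _

lemma ev_mul (ha : a ∈ P.O) (hb : b ∈ P.O) : P.ev (a * b) = P.ev a * P.ev b := by
  rw [P.ev_mk ha, P.ev_mk hb, ← map_mul]; exact P.ev_mk _

lemma ev_sub (ha : a ∈ P.O) (hb : b ∈ P.O) : P.ev (a - b) = P.ev a - P.ev b := by
  rw [P.ev_mk ha, P.ev_mk hb, ← map_sub]; exact P.ev_mk _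

lemma ev_pow (ha : a ∈ P.O) (k : ℕ) : P.ev (a ^ k) = P.ev a ^ k := by
  rw [P.ev_mk ha, ← map_pow]; exact P.ev_mk _

lemma ev_C (c : ℂ) : P.ev (algebraMap ℂ L c) = c :=
  (P.ev_mk (P.O.algebraMap_mem c)).trans (P.φ.commutes c)

lemma ev_zero : P.ev 0 = 0 := by simpa using P.ev_C 0

lemma ev_one : P.ev 1 = 1 := by simpa using P.ev_C 1

lemma ev_neg (a : L) : P.ev (-a) = -P.ev a := by
  by_cases ha : a ∈ P.O
  · rw [P.ev_mk ha, ← map_neg]; exact P.ev_mk _
  · simp [ev, ha]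

lemma inv_mem (ha : a ∈ P.O) (h : P.ev a ≠ 0) : a⁻¹ ∈ P.O :=
  P.inv ⟨a, ha⟩ (by rwa [P.ev_mk ha] at h)

lemma ev_inv (ha : a ∈ P.O) (h : P.ev a ≠ 0) : P.ev a⁻¹ = (P.ev a)⁻¹ := by
  have h0 : a ≠ 0 := by rintro rfl; exact h P.ev_zero
  refine eq_inv_of_mul_eq_one_left ?_
  rw [← P.ev_mul (P.inv_mem ha h) ha, inv_mul_cancel₀ h0, P.ev_one]

lemma aeval_mem {ι : Type*} {x : ι → L} (hx : ∀ i, x i ∈ P.O) (Q : MvPolynomial ι ℂ) :
    aeval x Q ∈ P.O := by
  induction Q using MvPolynomial.induction_on with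
  | C a => simp
  | add p q hp hq => rw [map_add]; exact add_mem hp hq
  | mul_X p i hp => rw [map_mul, aeval_X]; exact mul_mem hp (hx i)

lemma ev_aeval {ι : Type*} {x : ι → L} (hx : ∀ i, x i ∈ P.O) (Q : MvPolynomial ι ℂ) :
    P.ev (aeval x Q) = eval (fun i => P.ev (x i)) Q := by
  induction Q using MvPolynomial.induction_on with
  | C a => simpa using P.ev_C a
  | add p q hp hq => rw [map_add, P.ev_add (P.aeval_mem hx p) (P.aeval_mem hx q), hp, hq, map_add]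
  | mul_X p i hp =>
    rw [map_mul, aeval_X, P.ev_mul (P.aeval_mem hx p) (hx i), hp, map_mul, eval_X]

lemma ev_sum {ι : Type*} {s : Finset ι} {g : ι → L} (h : ∀ i, g i ∈ P.O) :
    P.ev (∑ i ∈ s, g i) = ∑ i ∈ s, P.ev (g i) := by
  simpa using P.ev_aeval h (∑ i ∈ s, X i)

lemma ev_det {ι : Type*} [Fintype ι] [DecidableEq ι] {A : Matrix ι ι L} (h : ∀ i j, A i j ∈ P.O) :
    A.det ∈ P.O ∧ P.ev A.det = (A.map P.ev).det := by
  let B : Matrix ι ι P.O := fun i j => ⟨A i j, h i j⟩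
  have h1 : (B.det : L) = A.det := P.O.val.map_det B
  refine ⟨h1 ▸ B.det.2, ?_⟩
  rw [← h1, P.ev_coe, P.φ.map_det B]
  congr 1
  ext i j
  exact (P.ev_mk _).symm

lemma qa : QA P.O.toSubring fun a => ‖P.ev a‖ :=
  ⟨P.int, by simp [P.ev_zero], by simp [P.ev_one], fun _ => norm_nonneg _,
    fun a => by simp [P.ev_neg], fun a ha b hb => by simp [P.ev_mul ha hb],
    fun a ha b hb => by rw [P.ev_add ha hb]; exact norm_add_le _ _⟩

/-- Pull-back of a point along a homomorphism of fields. -/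
noncomputable def comap {K : Type} [Field K] [Algebra ℂ K] (f : K →ₐ[ℂ] L) : Pt K where
  O := P.O.comap f
  φ := P.φ.comp ((f.comp (P.O.comap f).val).codRestrict P.O fun a => a.2)
  inv a h := by
    have := P.inv _ h
    rw [Subalgebra.mem_comap, map_inv₀]
    exact this
  int a h := P.int (f a) (h.map_of_comp_eq
    ((f.comp (P.O.comap f).val).codRestrict P.O fun a => a.2).toRingHom f.toRingHom
    (RingHom.ext fun _ => rfl))

lemma mem_comap {K : Type} [Field K] [Algebra ℂ K] (f : K →ₐ[ℂ] L) {a : K} :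
    a ∈ (P.comap f).O ↔ f a ∈ P.O := Iff.rfl

lemma ev_comap {K : Type} [Field K] [Algebra ℂ K] (f : K →ₐ[ℂ] L) (a : K) :
    (P.comap f).ev a = P.ev (f a) := by
  by_cases h : f a ∈ P.O
  · rw [P.ev_mk h, (P.comap f).ev_mk h]; rfl
  · rw [ev, ev, dif_neg h, dif_neg (show a ∉ (P.comap f).O from h)]

end Pt

end Pool.Agent.Lib.MP_bc3ae6_ag
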