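import Pool.Agent.Lib.MP_bc3ae6_ag.V0

set_option autoImplicit false
set_option linter.unusedSectionVars false

/-! Values of algebraic elements, function fields, graded systems of subspaces. -/

namespace Pool.Agent.Lib.MP_bc3ae6_ag

open MvPolynomial Set Filter MeasureTheory Module
open scoped Polynomial ENNReal

/-- In a polynomial relation two terms have the same, maximal, value. -/
lemma NA.two_terms {K L : Type*} [Field K] [Field L] [Algebra K L] {w : AbsoluteValue L ℝ}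
    (hw : NA w) {a : L} (ha : a ≠ 0) {P : K[X]} (hP : P ≠ 0) (h : Polynomial.aeval a P = 0) :
    ∃ i ∈ P.support, ∃ j ∈ P.support, i < j ∧
      w (algebraMap K L (P.coeff i) * a ^ i) = w (algebraMap K L (P.coeff j) * a ^ j) ∧
      ∀ l, w (algebraMap K L (P.coeff l) * a ^ l) ≤ w (algebraMap K L (P.coeff i) * a ^ i) := by
  obtain ⟨k, hk, h1⟩ := P.support.exists_max_image
    (fun l => w (algebraMap K L (P.coeff l) * a ^ l)) (Polynomial.support_nonempty.2 hP)
  have h2 : ∀ l, w (algebraMap K L (P.coeff l) * a ^ l)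
      ≤ w (algebraMap K L (P.coeff k) * a ^ k) := fun l => by
    by_cases hl : l ∈ P.support
    · exact h1 l hl
    · simp [Polynomial.notMem_support_iff.1 hl, mul_nonneg]
  by_contra hc
  have h3 := hw.sum_eq (g := fun l => algebraMap K L (P.coeff l) * a ^ l) hk fun j hj hjk =>
    (h2 j).lt_of_ne fun he => hc (by
      rcases hjk.lt_or_gt with h | h
      · exact ⟨j, hj, k, hk, h, he, fun l => (h2 l).trans he.ge⟩
      · exact ⟨k, hk, j, hj, h, he.symm, h2⟩)
  rw [Polynomial.aeval_def, Polynomial.eval₂_eq_sum, Polynomial.sum_def] at h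
  rw [h, map_zero, eq_comm, w.eq_zero] at h3
  exact mul_ne_zero ((map_ne_zero _).2 (Polynomial.mem_support_iff.1 hk)) (pow_ne_zero _ ha) h3

lemma NA.exists_pow_eq {K L : Type*} [Field K] [Field L] [Algebra K L] {w : AbsoluteValue L ℝ}
    (hw : NA w) {a : L} (ha : a ≠ 0) {P : K[X]} (hP : P ≠ 0) (h : Polynomial.aeval a P = 0) :
    ∃ k, 0 < k ∧ k ≤ P.natDegree ∧ ∃ c : K, c ≠ 0 ∧ w a ^ k = w (algebraMap K L c) := by
  obtain ⟨i, hi, j, hj, hij, h1, -⟩ := hw.two_terms ha hP h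
  have hi' := Polynomial.mem_support_iff.1 hi
  have hj' := Polynomial.mem_support_iff.1 hj
  refine ⟨j - i, by omega, (Nat.sub_le _ _).trans (Polynomial.le_natDegree_of_ne_zero hj'),
    P.coeff i / P.coeff j, div_ne_zero hi' hj', ?_⟩
  have h2 := w.pos ((map_ne_zero (algebraMap K L)).2 hj')
  have h3 := w.pos ha
  simp only [map_mul, map_pow] at h1
  rw [map_div₀, map_div₀, pow_sub₀ _ h3.ne' hij.le]
  field_simp
  linarith

/-- Integral elements have value at most one. -/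
lemma NA.le_one {A L : Type*} [CommRing A] [Field L] [Algebra A L] {w : AbsoluteValue L ℝ}
    (hw : NA w) (hA : ∀ c, w (algebraMap A L c) ≤ 1) {a : L} (ha : IsIntegral A a) : w a ≤ 1 := by
  obtain ⟨P, hP, h⟩ := ha
  by_contra! h1
  rw [hP.as_sum, Polynomial.eval₂_add, Polynomial.eval₂_finsetSum, add_eq_zero_iff_eq_neg] at h
  have h2 := congrArg w h
  rw [w.map_neg, Polynomial.eval₂_X_pow, map_pow] at h2
  refine (hw.sum_lt (by positivity) fun i hi => ?_).ne' h2
  rw [Polynomial.eval₂_mul, Polynomial.eval₂_C, Polynomial.eval₂_X_pow, map_mul, map_pow]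
  exact (mul_le_of_le_one_left (by positivity) (hA _)).trans_lt
    (pow_lt_pow_right₀ h1 (Finset.mem_range.1 hi))

section cl

variable {σ : Type} {J : Ideal (MvPolynomial σ ℂ)}

lemma cl_apply (a : MvPolynomial σ ℂ) :
    cl J a = algebraMap (MvPolynomial σ ℂ ⧸ J) (FnF J) (Ideal.Quotient.mk J a) := rfl

lemma cl_eq_zero {a : MvPolynomial σ ℂ} : cl J a = 0 ↔ a ∈ J := by
  rw [cl_apply, map_eq_zero_iff _ (IsFractionRing.injective _ _), Ideal.Quotient.eq_zero_iff_mem]

lemma exists_cl [J.IsPrime] (a : FnF J) : ∃ p q, q ∉ J ∧ a * cl J q = cl J p := by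
  obtain ⟨⟨x, y, hy⟩, h⟩ := IsLocalization.surj (nonZeroDivisors (MvPolynomial σ ℂ ⧸ J)) a
  obtain ⟨p, rfl⟩ := Ideal.Quotient.mk_surjective x
  obtain ⟨q, rfl⟩ := Ideal.Quotient.mk_surjective y
  exact ⟨p, q, fun hq => nonZeroDivisors.ne_zero hy (Ideal.Quotient.eq_zero_iff_mem.2 hq), h⟩

lemma cl_eq_aeval (a : MvPolynomial σ ℂ) : cl J a = aeval (fun l => cl J (X l)) a := by
  rw [← comp_aeval_apply]; simp

lemma adjoin_cl [J.IsPrime] :
    IntermediateField.adjoin ℂ (range fun l => cl J (X l)) = ⊤ := by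
  have h1 : ∀ a, cl J a ∈ IntermediateField.adjoin ℂ (range fun l => cl J (X l)) := fun a => by
    rw [cl_eq_aeval]
    exact IntermediateField.algebra_adjoin_le_adjoin _ _ (by
      rw [Algebra.adjoin_range_eq_range_aeval]; exact ⟨a, rfl⟩)
  refine eq_top_iff.2 fun a _ => ?_
  obtain ⟨p, q, hq, h⟩ := exists_cl a
  rw [eq_div_of_mul_eq (cl_eq_zero.not.2 hq) h]
  exact div_mem (h1 p) (h1 q)

variable (J) in
/-- The degree `m` part of the coordinate ring. -/
noncomputable def Um (wt : σ → ℕ) (m : ℕ) : Submodule ℂ (FnF J) :=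
  (weightedHomogeneousSubmodule ℂ wt m).map (cl J).toLinearMap

lemma mem_Um {wt : σ → ℕ} {m : ℕ} {a : FnF J} :
    a ∈ Um J wt m ↔ ∃ q, IsWeightedHomogeneous wt q m ∧ cl J q = a := Iff.rfl

end cl

section GU

variable {K : Type} [Field K] [Algebra ℂ K]

/-- The integer value of an additive valuation, as a real number. -/
noncomputable def ov (v : AddValuation K (WithTop ℤ)) (a : K) : ℝ := ((v a).untopD 0 : ℤ)

lemma ov_spec (v : AddValuation K (WithTop ℤ)) {a : K} (ha : a ≠ 0) :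
    ∃ k : ℤ, v a = k ∧ ov v a = k := by
  obtain ⟨k, hk⟩ := WithTop.ne_top_iff_exists.1 (v.ne_top_iff.2 ha)
  exact ⟨k, hk.symm, by rw [ov, ← hk]; rfl⟩

lemma ov_mul (v : AddValuation K (WithTop ℤ)) {a b : K} (ha : a ≠ 0) (hb : b ≠ 0) :
    ov v (a * b) = ov v a + ov v b := by
  obtain ⟨k, h1, h2⟩ := ov_spec v ha
  obtain ⟨l, h3, h4⟩ := ov_spec v hb
  rw [h2, h4, ov, v.map_mul, h1, h3, ← WithTop.coe_add, WithTop.untopD_coe, Int.cast_add]

lemma ov_one (v : AddValuation K (WithTop ℤ)) : ov v 1 = 0 := by simp [ov]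

lemma ov_prod (v : AddValuation K (WithTop ℤ)) {ι : Type*} {s : Finset ι} {g : ι → K}
    (h : ∀ i ∈ s, g i ≠ 0) : ov v (∏ i ∈ s, g i) = ∑ i ∈ s, ov v (g i) := by
  classical
  induction s using Finset.induction_on with
  | empty => simpa using ov_one v
  | insert i s hi ih =>
    have h' : ∀ j ∈ s, g j ≠ 0 := fun j hj => h j (Finset.mem_insert_of_mem hj)
    rw [Finset.prod_insert hi, Finset.sum_insert hi, ov_mul v (h i (Finset.mem_insert_self _ _))
      (Finset.prod_ne_zero_iff.2 h'), ih h']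

lemma ov_nonneg {v : AddValuation K (WithTop ℤ)} {a : K} (h : 0 ≤ v a) : 0 ≤ ov v a := by
  rw [ov]
  cases hv : v a with
  | top => simp
  | coe k => rw [hv] at h; simpa using h

lemma le_ov_iff (v : AddValuation K (WithTop ℤ)) {a : K} (ha : a ≠ 0) (k : ℤ) :
    (k : WithTop ℤ) ≤ v a ↔ (k : ℝ) ≤ ov v a := by
  obtain ⟨l, h1, h2⟩ := ov_spec v ha
  rw [h1, h2, WithTop.coe_le_coe, Int.cast_le]

/-- The absolute value `exp (-v)`. -/
lemma exists_abs (v : AddValuation K (WithTop ℤ)) :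
    ∃ w : AbsoluteValue K ℝ, NA w ∧ ∀ a, a ≠ 0 → w a = Real.exp (-ov v a) := by
  classical
  have h1 : ∀ a b : K, (if a + b = 0 then 0 else Real.exp (-ov v (a + b)))
      ≤ max (if a = 0 then 0 else Real.exp (-ov v a)) (if b = 0 then 0 else Real.exp (-ov v b)) := by
    intro a b
    by_cases ha : a = 0
    · simp [ha]
    by_cases hb : b = 0
    · simp [hb]
    by_cases hab : a + b = 0
    · simp [ha, hab, Real.exp_nonneg]
    obtain ⟨k, h1, h2⟩ := ov_spec v ha
    obtain ⟨l, h3, h4⟩ := ov_spec v hb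
    have := v.map_add' a b
    rw [h1, h3, le_ov_iff v hab, le_ov_iff v hab] at this
    simpa [ha, hb, hab, h2, h4] using this
  refine ⟨⟨⟨fun a => if a = 0 then 0 else Real.exp (-ov v a), fun a b => ?_⟩, fun a => ?_,
    fun a => ?_, fun a b => (h1 a b).trans (max_le_add_of_nonneg ?_ ?_)⟩, h1,
    fun a ha => if_neg ha⟩
  · by_cases ha : a = 0
    · simp [ha]
    by_cases hb : b = 0
    · simp [hb]
    simp [ha, hb, ov_mul v ha hb, Real.exp_add, mul_comm]
  · dsimp only; split_ifs <;> positivity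
  · by_cases ha : a = 0 <;> simp [ha]
  · split_ifs <;> positivity
  · split_ifs <;> positivity

/-- The multiplicative lower bound for dimensions of graded pieces. -/
def Box (U : ℕ → Submodule ℂ K) (d c : ℕ) : Prop :=
  ∀ (k m : ℕ) (W W' : Submodule ℂ K) (g : K), 0 < k → W ≤ U m → FiniteDimensional ℂ W →
    FiniteDimensional ℂ W' → g ≠ 0 → (∀ a ∈ W, ∀ b ∈ U (c * k), a ^ k * b * g ∈ W') →
    k ^ d * finrank ℂ W ≤ finrank ℂ W'

/-- Graded systems of subspaces of growth order `d`. -/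
structure GU (U : ℕ → Submodule ℂ K) (d : ℕ) : Prop where
  one : 1 ∈ U 0
  mul : ∀ m m', ∀ a ∈ U m, ∀ b ∈ U m', a * b ∈ U (m + m')
  fd : ∀ m, FiniteDimensional ℂ (U m)
  ne : ∀ᶠ m in atTop, U m ≠ ⊥
  up : ∃ C : ℕ, ∀ m, finrank ℂ (U m) ≤ C * (m + 1) ^ d
  box : ∃ c, Box U d c

/-- Volume functions. -/
noncomputable def volF (Fl : ℕ → ℝ → Submodule ℂ K) (r d : ℕ) (t : ℝ) : ℝ≥0∞ :=
  limsup (fun m : ℕ => (finrank ℂ (Fl m (r * m * t)) : ℝ≥0∞) /
    ((r * m) ^ d / d.factorial)) atTop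

end GU

namespace PrimeDiv

variable {K ι : Type} [Field K] [Algebra ℂ K] [DecidableEq ι] (E : PrimeDiv K ι)

lemma o_eq (a : K) : E.o a = ov E.ord a := rfl

lemma ord_C {c : ℂ} (hc : c ≠ 0) : E.ord (algebraMap ℂ K c) = 0 := by
  simpa using E.indep (C c) (by simpa using hc) (by simp)

variable {σ : Type} {J : Ideal (MvPolynomial σ ℂ)} [J.IsPrime] (E : PrimeDiv (FnF J) ι)

lemma mem_sec {wt : σ → ℕ} {m : ℕ} {x : ℝ} {a : FnF J} :
    a ∈ E.sec wt m x ↔ a ∈ Um J wt m ∧ ((⌈x⌉ : ℤ) : WithTop ℤ) ≤ E.ord a := by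
  refine ⟨fun h => ?_, fun h => Submodule.subset_span h⟩
  induction h using Submodule.span_induction with
  | mem a h => exact h
  | zero => exact ⟨zero_mem _, by simp⟩
  | add a b _ _ ha hb => exact ⟨add_mem ha.1 hb.1, E.ord.map_le_add ha.2 hb.2⟩
  | smul c a _ ha =>
    refine ⟨Submodule.smul_mem _ c ha.1, ?_⟩
    rcases eq_or_ne c 0 with rfl | hc
    · simp
    · rw [Algebra.smul_def, E.ord.map_mul, E.ord_C hc, zero_add]
      exact ha.2

lemma S_eq (wt : σ → ℕ) (r d : ℕ) :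
    E.S wt r d = (∫⁻ t in Ioi (0 : ℝ), volF (E.sec wt) r d t) / volF (E.sec wt) r d 0 := rfl

end PrimeDiv

end Pool.Agent.Lib.MP_bc3ae6_ag
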