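import Pool.Agent.Lib.MP_bc3ae6_ag.Fib

set_option autoImplicit false
set_option linter.unusedSectionVars false

/-! The area inequality for a map defined on a finite cover. -/

namespace Pool.Agent.Lib.MP_bc3ae6_ag

open MeasureTheory Set Filter Topology Asymptotics
open scoped ENNReal

/-- The area inequality on a piece where `f` expands distances uniformly. -/
theorem FF.area_piece {E E' : Type*} [NormedAddCommGroup E] [ProperSpace E] [MeasurableSpace E]
    [BorelSpace E] [NormedAddCommGroup E'] [NormedSpace ℝ E'] [FiniteDimensional ℝ E']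
    [MeasurableSpace E'] [BorelSpace E'] (ν : Measure E') [ν.IsAddHaarMeasure] {s : Set E}
    {f : E → E'} {D : ℕ} (h : FF s f D) {Φ : E → E'} {B : Set E} (hB : MeasurableSet B)
    (hBs : B ⊆ s) {j : E → ℝ≥0∞} (hj : Measurable j) {c : ℝ} (hc : 0 < c)
    (hf : ∀ y ∈ B, ∀ y' ∈ B, c * ‖y - y'‖ ≤ ‖f y - f y'‖)
    (hl : ∀ z ∈ B, ∃ A : E' →L[ℝ] E', ENNReal.ofReal |A.det| ≤ j z ∧
        (fun y => Φ y - Φ z - A (f y - f z)) =o[𝓝[s] z] fun y => y - z) :
    ν (Φ '' B) ≤ ∫⁻ x in B, j x ∂(fm ν s f) := by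
  choose! A hA1 hA2 using hl
  have hinj : InjOn f B := fun y hy y' hy' e => by
    have h1 := hf y hy y' hy'
    rw [e, sub_self, norm_zero] at h1
    exact sub_eq_zero.1 (norm_le_zero_iff.1 (nonpos_of_mul_nonpos_right h1 hc |>.trans le_rfl))
  have hS : MeasurableSet (f '' B) := hB.image_of_continuousOn_injOn h.ct.continuousOn hinj
  set g : E' → E := Function.invFunOn f B with hg
  have g1 : ∀ u ∈ f '' B, g u ∈ B := fun u hu => Function.invFunOn_mem hu
  have g2 : ∀ u ∈ f '' B, f (g u) = u := fun u hu => Function.invFunOn_eq hu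
  have g3 : ∀ u ∈ f '' B, (fun u' => g u' - g u) =O[𝓝[f '' B] u] fun u' => u' - u := by
    intro u hu
    refine IsBigO.of_bound c⁻¹ ?_
    filter_upwards [self_mem_nhdsWithin] with u' hu'
    have h1 := hf _ (g1 u' hu') _ (g1 u hu)
    rw [g2 u' hu', g2 u hu] at h1
    exact (le_inv_mul_iff₀ hc).2 h1
  have g4 : ∀ u ∈ f '' B, Tendsto g (𝓝[f '' B] u) (𝓝[s] (g u)) := by
    intro u hu
    refine tendsto_nhdsWithin_iff.2 ⟨?_, ?_⟩
    · refine tendsto_sub_nhds_zero_iff.1 ((g3 u hu).trans_tendsto ?_)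
      exact tendsto_sub_nhds_zero_iff.2 (tendsto_id.mono_left nhdsWithin_le_nhds)
    · filter_upwards [self_mem_nhdsWithin] with u' hu' using hBs (g1 u' hu')
  have hd : ∀ u ∈ f '' B, HasFDerivWithinAt (Φ ∘ g) (A (g u)) (f '' B) u := by
    intro u hu
    rw [hasFDerivWithinAt_iff_isLittleO]
    refine (((hA2 _ (g1 u hu)).comp_tendsto (g4 u hu)).trans_isBigO (g3 u hu)).congr' ?_
      EventuallyEq.rfl
    filter_upwards [self_mem_nhdsWithin] with u' hu'
    simp only [Function.comp_apply, g2 u' hu', g2 u hu]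
  have e : Φ '' B = (Φ ∘ g) '' (f '' B) := by
    rw [image_comp, hg, hinj.invFunOn_image Subset.rfl]
  rw [e, ← lintegral_indicator hB, h.lint_fm ν (hj.indicator hB)]
  refine (addHaar_image_le_lintegral_abs_det_fderiv ν hS hd).trans ?_
  rw [← lintegral_indicator hS]
  refine lintegral_mono fun u => ?_
  by_cases hu : u ∈ f '' B
  · have h1 := le_fs (f := f) (B.indicator j) (hBs (g1 u hu))
    rw [g2 u hu, indicator_of_mem (g1 u hu)] at h1
    rw [indicator_of_mem hu]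
    exact (hA1 _ (g1 u hu)).trans h1
  · rw [indicator_of_notMem hu]
    exact bot_le

theorem FF.area {E E' : Type*} [NormedAddCommGroup E] [ProperSpace E] [MeasurableSpace E]
    [BorelSpace E] [NormedAddCommGroup E'] [NormedSpace ℝ E'] [FiniteDimensional ℝ E']
    [MeasurableSpace E'] [BorelSpace E'] (ν : Measure E') [ν.IsAddHaarMeasure] {s : Set E}
    {f : E → E'} {D : ℕ} (h : FF s f D) {Φ : E → E'} {B : Set E} (hB : MeasurableSet B)
    (hBs : B ⊆ s) {j : E → ℝ≥0∞} (hj : Measurable j)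
    (hl : ∀ z ∈ B, (∃ c > (0 : ℝ), ∃ V ∈ 𝓝 z, ∀ y ∈ s ∩ V, ∀ y' ∈ s ∩ V,
      c * ‖y - y'‖ ≤ ‖f y - f y'‖) ∧ ∃ A : E' →L[ℝ] E', ENNReal.ofReal |A.det| ≤ j z ∧
        (fun y => Φ y - Φ z - A (f y - f z)) =o[𝓝[s] z] fun y => y - z) :
    ν (Φ '' B) ≤ ∫⁻ x in B, j x ∂(fm ν s f) := by
  obtain ⟨T, hT1, hT2, hT3⟩ := TopologicalSpace.isOpen_sUnion_countable
    {V : Set E | IsOpen V ∧ ∃ c > (0 : ℝ), ∀ y ∈ s ∩ V, ∀ y' ∈ s ∩ V, c * ‖y - y'‖ ≤ ‖f y - f y'‖}
    fun V hV => hV.1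
  obtain ⟨W, hW⟩ := (hT1.insert ∅).exists_eq_range (insert_nonempty _ _)
  have w1 : ∀ k, IsOpen (W k) ∧ ∃ c > (0 : ℝ), ∀ y ∈ s ∩ W k, ∀ y' ∈ s ∩ W k,
      c * ‖y - y'‖ ≤ ‖f y - f y'‖ := by
    intro k
    have hk : W k ∈ insert ∅ T := hW ▸ mem_range_self k
    rcases hk with hk | hk
    · rw [hk]
      exact ⟨isOpen_empty, 1, one_pos, fun y hy => hy.2.elim⟩
    · exact hT2 hk
  have w2 : B ⊆ ⋃ k, W k := by
    intro z hz
    obtain ⟨c, hc, V, hV, hV'⟩ := (hl z hz).1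
    have h1 : z ∈ ⋃₀ T := by
      rw [hT3]
      exact ⟨interior V, ⟨isOpen_interior, c, hc, fun y hy y' hy' =>
        hV' y ⟨hy.1, interior_subset hy.2⟩ y' ⟨hy'.1, interior_subset hy'.2⟩⟩,
        mem_interior_iff_mem_nhds.2 hV⟩
    obtain ⟨U, hU, hzU⟩ := h1
    have h2 : U ∈ range W := hW ▸ mem_insert_of_mem _ hU
    obtain ⟨k, rfl⟩ := h2
    exact mem_iUnion.2 ⟨k, hzU⟩
  have m1 : ∀ k, MeasurableSet (B ∩ disjointed W k) := fun k =>
    hB.inter (MeasurableSet.disjointed (fun k => (w1 k).1.measurableSet) k)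
  have e : B = ⋃ k, B ∩ disjointed W k := by
    rw [← inter_iUnion, iUnion_disjointed, inter_eq_left.2 w2]
  have hp : ∀ k, ν (Φ '' (B ∩ disjointed W k)) ≤ ∫⁻ x in B ∩ disjointed W k, j x ∂(fm ν s f) := by
    intro k
    obtain ⟨c, hc, hc'⟩ := (w1 k).2
    exact h.area_piece ν (m1 k) (inter_subset_left.trans hBs) hj hc
      (fun y hy y' hy' => hc' y ⟨hBs hy.1, disjointed_subset W k hy.2⟩ y'
        ⟨hBs hy'.1, disjointed_subset W k hy'.2⟩) fun z hz => (hl z hz.1).2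
  rw [e, image_iUnion, lintegral_iUnion m1 fun a b hab =>
    (disjoint_disjointed W hab).mono inter_subset_right inter_subset_right]
  exact (measure_iUnion_le _).trans (ENNReal.tsum_le_tsum hp)

end Pool.Agent.Lib.MP_bc3ae6_ag
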