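import Pool.Agent.Lib.MP_bc3ae6_ag.V1

set_option autoImplicit false
set_option linter.unusedSectionVars false

/-! Existence of complex points of a field over given points. -/

namespace Pool.Agent.Lib.MP_bc3ae6_ag

open MvPolynomial Set

/-- Complex points extend to integral extensions. -/
lemma vpt_int {A B : Type} [CommRing A] [CommRing B] [Algebra ℂ A] [Algebra ℂ B] [Algebra A B]
    [IsScalarTower ℂ A B] [Algebra.IsIntegral A B] (hinj : Function.Injective (algebraMap A B))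
    (ψ : A →ₐ[ℂ] ℂ) : ∃ χ : B →ₐ[ℂ] ℂ, ∀ a, χ (algebraMap A B a) = ψ a := by
  have hm : (RingHom.ker ψ).IsMaximal :=
    RingHom.ker_isMaximal_of_surjective ψ fun c => ⟨algebraMap ℂ A c, ψ.commutes c⟩
  obtain ⟨Q, hQ, hQ'⟩ := Ideal.exists_ideal_over_maximal_of_isIntegral (S := B) (RingHom.ker ψ)
    (by rw [(RingHom.injective_iff_ker_eq_bot _).1 hinj]; exact bot_le)
  have h1 : ∀ a, Ideal.Quotient.mk Q (algebraMap A B a) = algebraMap ℂ (B ⧸ Q) (ψ a) := by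
    intro a
    rw [← Ideal.Quotient.mk_algebraMap, Ideal.Quotient.eq, IsScalarTower.algebraMap_apply ℂ A B,
      ← map_sub, ← Ideal.mem_comap, hQ', RingHom.mem_ker]
    simp
  have : Algebra.IsIntegral ℂ (B ⧸ Q) := ⟨fun b => by
    obtain ⟨b, rfl⟩ := Ideal.Quotient.mk_surjective b
    exact (Algebra.IsIntegral.isIntegral (R := A) b).map_of_comp_eq (ψ : A →+* ℂ)
      (Ideal.Quotient.mk Q) (RingHom.ext fun a => (h1 a).symm)⟩
  let e := AlgEquiv.ofBijective (Algebra.ofId ℂ (B ⧸ Q))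
    IsAlgClosed.algebraMap_bijective_of_isIntegral
  refine ⟨(e.symm : B ⧸ Q →ₐ[ℂ] ℂ).comp (Ideal.Quotient.mkₐ ℂ Q), fun a => ?_⟩
  change e.symm (Ideal.Quotient.mk Q (algebraMap A B a)) = _
  rw [h1, AlgEquiv.commutes]
  rfl

/-- The localisation of an integrally closed ring at a complex point. -/
lemma vpt_loc {B L : Type} [CommRing B] [IsDomain B] [Field L] [Algebra ℂ B] [Algebra ℂ L]
    [Algebra B L] [IsScalarTower ℂ B L] [IsFractionRing B L]
    (hB : ∀ a : L, IsIntegral B a → ∃ b, algebraMap B L b = a) (χ : B →ₐ[ℂ] ℂ) :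
    ∃ P : Pt L, ∀ b, algebraMap B L b ∈ P.O ∧ P.ev (algebraMap B L b) = χ b := by
  have : (RingHom.ker χ).IsPrime := RingHom.ker_isPrime χ
  let M := (RingHom.ker χ).primeCompl
  have hM : ∀ s, s ∈ M ↔ χ s ≠ 0 := fun s => Iff.rfl
  let O := Localization.subalgebra.ofField L M (Ideal.primeCompl_le_nonZeroDivisors _)
  have hO : ∀ x, x ∈ O ↔ ∃ (a s : B) (_ : s ∈ M),
      x = algebraMap B L a * (algebraMap B L s)⁻¹ := fun x => Iff.rfl
  have hu : ∀ y : M, IsUnit (χ y) := fun y => Ne.isUnit ((hM y).1 y.2)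
  let φ : O →ₐ[ℂ] ℂ := IsLocalization.liftAlgHom (M := M) (f := χ) hu
  have hφ : ∀ b, φ (algebraMap B O b) = χ b := fun b => IsLocalization.lift_eq (M := M) hu b
  have h0 : ∀ s ∈ M, algebraMap B L s ≠ 0 := fun s hs =>
    IsFractionRing.to_map_ne_zero_of_mem_nonZeroDivisors
      (Ideal.primeCompl_le_nonZeroDivisors _ hs)
  have hinv : ∀ a : O, φ a ≠ 0 → (a : L)⁻¹ ∈ O := fun a ha => by
    obtain ⟨b, s, hs, h⟩ := (hO a).1 a.2
    have h2 : a * algebraMap B O s = algebraMap B O b := Subtype.ext (by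
      change (a : L) * algebraMap B L s = algebraMap B L b
      rw [h, inv_mul_cancel_right₀ (h0 s hs)])
    have h3 := congrArg φ h2
    rw [map_mul, hφ, hφ] at h3
    refine (hO _).2 ⟨s, b, (hM b).2 (h3 ▸ mul_ne_zero ha ((hM s).1 hs)), ?_⟩
    rw [h, mul_inv, inv_inv, mul_comm]
  have hint : ∀ a : L, IsIntegral O a → a ∈ O := fun a ha => by
    obtain ⟨m, hm⟩ := IsIntegral.exists_multiple_integral_of_isLocalization M a ha
    obtain ⟨b, hb⟩ := hB _ hm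
    refine (hO _).2 ⟨b, m, m.2, ?_⟩
    rw [hb, Submonoid.smul_def, Algebra.smul_def, mul_comm, inv_mul_cancel_left₀ (h0 m m.2)]
  let P : Pt L := ⟨O.restrictScalars ℂ, φ, hinv, hint⟩
  exact ⟨P, fun b => ⟨O.algebraMap_mem b, (P.ev_mk (O.algebraMap_mem b)).trans (hφ b)⟩⟩

lemma vpt_gen {A L : Type} [CommRing A] [IsDomain A] [Field L] [Algebra ℂ A] [Algebra ℂ L]
    [Algebra A L] [IsScalarTower ℂ A L] [Algebra.IsAlgebraic A L]
    (hinj : Function.Injective (algebraMap A L)) (ψ : A →ₐ[ℂ] ℂ) :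
    ∃ P : Pt L, ∀ a, algebraMap A L a ∈ P.O ∧ P.ev (algebraMap A L a) = ψ a := by
  obtain ⟨χ, hχ⟩ := vpt_int (B := integralClosure A L)
    (fun a b h => hinj (congrArg Subtype.val h)) ψ
  have := integralClosure.isFractionRing_of_algebraic (A := A) (L := L)
    ((injective_iff_map_eq_zero _).1 hinj)
  obtain ⟨P, hP⟩ := vpt_loc (B := integralClosure A L) (L := L)
    (fun a ha => ⟨⟨a, isIntegral_trans a ha⟩, rfl⟩) χ
  exact ⟨P, fun a => hχ a ▸ hP (algebraMap A _ a)⟩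

theorem exists_pt {L : Type} [Field L] [Algebra ℂ L] (S : Subalgebra ℂ L)
    [Algebra.IsAlgebraic S L] (ψ : S →ₐ[ℂ] ℂ) :
    ∃ P : Pt L, ∀ a : S, (a : L) ∈ P.O ∧ P.ev a = ψ a :=
  vpt_gen Subtype.val_injective ψ

theorem exists_pt_basis {L ι : Type} [Field L] [Algebra ℂ L] {x : ι → L}
    (hx : IsTranscendenceBasis ℂ x) (u : ι → ℂ) :
    ∃ P : Pt L, ∀ i, x i ∈ P.O ∧ P.ev (x i) = u i := by
  have := hx.isAlgebraic
  obtain ⟨P, hP⟩ := exists_pt (Algebra.adjoin ℂ (range x))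
    ((aeval u).comp (hx.1.aevalEquiv.symm : _ →ₐ[ℂ] MvPolynomial ι ℂ))
  refine ⟨P, fun i => ?_⟩
  have h := hP (hx.1.aevalEquiv (X i))
  have e : ((hx.1.aevalEquiv (X i) : Algebra.adjoin ℂ (range x)) : L) = x i := by
    simpa using hx.1.algebraMap_aevalEquiv (X i)
  rw [e] at h
  simpa using h

variable {σ L : Type} {J : Ideal (MvPolynomial σ ℂ)} [J.IsPrime] [Field L] [Algebra ℂ L]

theorem exists_pt_cl [Algebra (FnF J) L] [IsScalarTower ℂ (FnF J) L]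
    [Algebra.IsAlgebraic (FnF J) L] {z : σ → ℂ} (hz : z ∈ zeroLocus ℂ J) :
    ∃ P : Pt L, ∀ a, algebraMap (FnF J) L (cl J a) ∈ P.O ∧
      P.ev (algebraMap (FnF J) L (cl J a)) = eval z a := by
  let : Algebra (MvPolynomial σ ℂ ⧸ J) L :=
    ((algebraMap (FnF J) L).comp (algebraMap (MvPolynomial σ ℂ ⧸ J) (FnF J))).toAlgebra
  have := IsScalarTower.of_algebraMap_eq (R := MvPolynomial σ ℂ ⧸ J) (S := FnF J) (A := L)
    fun _ => rfl
  have := IsScalarTower.of_algebraMap_eq (R := ℂ) (S := MvPolynomial σ ℂ ⧸ J) (A := L) fun c => by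
    rw [IsScalarTower.algebraMap_apply ℂ (FnF J) L,
      IsScalarTower.algebraMap_apply ℂ (MvPolynomial σ ℂ ⧸ J) (FnF J)]
    rfl
  have : Algebra.IsAlgebraic (MvPolynomial σ ℂ ⧸ J) L :=
    IsFractionRing.comap_isAlgebraic_iff.2 (inferInstance : Algebra.IsAlgebraic (FnF J) L)
  obtain ⟨P, hP⟩ := vpt_gen (A := MvPolynomial σ ℂ ⧸ J) (L := L)
    ((algebraMap (FnF J) L).injective.comp (IsFractionRing.injective _ _))
    (Ideal.Quotient.liftₐ J (aeval z) fun a ha => hz a ha)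
  exact ⟨P, fun a => hP (Ideal.Quotient.mk J a)⟩

theorem Pt.exists_point (P : Pt (FnF J)) (h : ∀ l, cl J (X l) ∈ P.O) :
    ∃ z ∈ zeroLocus ℂ J, ∀ a, cl J a ∈ P.O ∧ P.ev (cl J a) = eval z a := by
  have h1 : ∀ a, cl J a ∈ P.O ∧ P.ev (cl J a) = eval (fun l => P.ev (cl J (X l))) a := fun a => by
    rw [cl_eq_aeval a]
    exact ⟨P.aeval_mem h a, P.ev_aeval h a⟩
  refine ⟨_, fun a ha => ?_, h1⟩
  have := (h1 a).2
  rw [cl_eq_zero.2 ha, P.ev_zero] at this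
  exact this.symm

/-- Values of fractions. -/
theorem Pt.ev_frac (P : Pt L) {a p q : L} (h : a * q = p) (hp : p ∈ P.O) (hq : q ∈ P.O)
    (h0 : P.ev q ≠ 0) : a ∈ P.O ∧ P.ev a = P.ev p / P.ev q := by
  have hq0 : q ≠ 0 := by rintro rfl; exact h0 P.ev_zero
  have e : a = p * q⁻¹ := by rw [← h, mul_inv_cancel_right₀ hq0]
  rw [e, P.ev_mul hp (P.inv_mem hq h0), P.ev_inv hq h0, div_eq_mul_inv]
  exact ⟨mul_mem hp (P.inv_mem hq h0), rfl⟩

end Pool.Agent.Lib.MP_bc3ae6_ag
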