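import Pool.Agent.Lib.MP_bc3ae6_ag.VDer
import Pool.Agent.Lib.MP_bc3ae6_ag.VPt

set_option autoImplicit false
set_option linter.unusedSectionVars false

/-! Algebraic derivations compute the derivatives of rational functions at general points. -/

namespace Pool.Agent.Lib.MP_bc3ae6_ag

open MvPolynomial Set Filter Topology Asymptotics

theorem hasStrict_eval {σ : Type} [Fintype σ] (G : MvPolynomial σ ℂ) (z : σ → ℂ) :
    HasStrictFDerivAt (fun u : σ → ℂ => eval u G)
      (∑ l, eval z (pderiv l G) • (ContinuousLinearMap.proj l : (σ → ℂ) →L[ℂ] ℂ)) z := by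
  classical
  induction G using MvPolynomial.induction_on with
  | C a =>
    refine ((hasStrictFDerivAt_const (𝕜 := ℂ) a z).congr_of_eventuallyEq
      (Eventually.of_forall fun u => ?_)).congr_fderiv ?_
    · simp
    · ext v
      simp
  | add p q hp hq =>
    refine ((hp.add hq).congr_of_eventuallyEq (Eventually.of_forall fun u => ?_)).congr_fderiv ?_
    · simp
    · ext v
      simp [add_mul, Finset.sum_add_distrib]
  | mul_X p i hp =>
    refine ((hp.mul (hasStrictFDerivAt_apply i z)).congr_of_eventuallyEq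
      (Eventually.of_forall fun u => ?_)).congr_fderiv ?_
    · simp
    · ext v
      simp [Pi.single_apply, add_mul, Finset.sum_add_distrib, Finset.mul_sum, mul_assoc, apply_ite,
        ite_mul]

theorem exists_rel {K ι : Type} [Field K] [Algebra ℂ K] {θ : ι → K}
    (hθ : IsTranscendenceBasis ℂ θ) (a : K) : ∃ G : MvPolynomial (Option ι) ℂ,
      aeval (fun o => Option.elim o a θ) G = 0 ∧
      aeval (fun o => Option.elim o a θ) (pderiv none G) ≠ 0 := by
  classical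
  let e := hθ.1.mvPolynomialOptionEquivPolynomialAdjoin
  have he : ∀ G, aeval (fun o => Option.elim o a θ) G = Polynomial.aeval a (e G) := fun G =>
    (RingHom.congr_fun (hθ.1.aeval_comp_mvPolynomialOptionEquivPolynomialAdjoin a) G).symm
  have hd : ∀ G, e (pderiv none G) = Polynomial.derivative (e G) := fun G => by
    induction G using MvPolynomial.induction_on with
    | C c =>
      rw [pderiv_C, map_zero, hθ.1.mvPolynomialOptionEquivPolynomialAdjoin_C,
        Polynomial.derivative_C]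
    | add p q hp hq => simp only [map_add, hp, hq]
    | mul_X p o hp =>
      rw [pderiv_mul, map_add, map_mul, map_mul, map_mul, Polynomial.derivative_mul, hp]
      rcases o with _ | i
      · rw [pderiv_X_self, map_one, hθ.1.mvPolynomialOptionEquivPolynomialAdjoin_X_none,
          Polynomial.derivative_X]
      · rw [pderiv_X_of_ne (by simp), map_zero,
          hθ.1.mvPolynomialOptionEquivPolynomialAdjoin_X_some, Polynomial.derivative_C]
  have hex : ∃ n, ∃ f : Polynomial (Algebra.adjoin ℂ (range θ)), f ≠ 0 ∧ Polynomial.aeval a f = 0 ∧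
      f.natDegree = n := by
    obtain ⟨f, h0, hf⟩ := hθ.isAlgebraic.isAlgebraic a
    exact ⟨_, f, h0, hf, rfl⟩
  obtain ⟨f, h0, hf, hn⟩ := Nat.find_spec hex
  have hpos : f.natDegree ≠ 0 := fun h => by
    rw [Polynomial.eq_C_of_natDegree_eq_zero h, Polynomial.aeval_C] at hf
    refine h0 ?_
    rw [Polynomial.eq_C_of_natDegree_eq_zero h, show f.coeff 0 = 0 from Subtype.ext hf, map_zero]
  have : CharZero K := charZero_of_injective_algebraMap (algebraMap ℂ K).injective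
  refine ⟨e.symm f, by rw [he, e.apply_symm_apply, hf], ?_⟩
  rw [he, hd, e.apply_symm_apply]
  intro h
  refine Nat.find_min hex (hn ▸ Polynomial.natDegree_derivative_lt hpos) ⟨_, fun h' => ?_, h, rfl⟩
  exact hpos (Polynomial.derivative_eq_zero.1 h')

lemma vdf_an {E F : Type} [NormedAddCommGroup E] [NormedSpace ℂ E] [NormedAddCommGroup F]
    [NormedSpace ℂ F] {Z : Set E} {z : E} (hz : z ∈ Z) {T Φ : E → F} {T' Φ' : E →L[ℂ] F}
    {r : E → E} {Ξ : F →L[ℂ] E} (hT : HasStrictFDerivAt T T' z) (hΦ : HasStrictFDerivAt Φ Φ' z)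
    (hr : HasStrictFDerivAt r (ContinuousLinearMap.id ℂ E - Ξ.comp T') z)
    (h0 : ∀ y ∈ Z, r y = 0) :
    (∃ c > (0 : ℝ), ∃ V ∈ 𝓝 z, ∀ y ∈ Z ∩ V, ∀ y' ∈ Z ∩ V, c * ‖y - y'‖ ≤ ‖T y - T y'‖) ∧
    (fun y => Φ y - Φ z - (Φ'.comp Ξ) (T y - T z)) =o[𝓝[Z] z] fun y => y - z := by
  have h1 : HasStrictFDerivAt (fun y => y - Ξ (T y) - r y) (0 : E →L[ℂ] E) z :=
    (((hasStrictFDerivAt_id z).sub (Ξ.hasStrictFDerivAt.comp z hT)).sub hr).congr_fderiv
      (sub_self _)
  constructor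
  · have h2 := (hasStrictFDerivAt_iff_isLittleO.1 h1).def (by norm_num : (0 : ℝ) < 1 / 2)
    rw [nhds_prod_eq] at h2
    obtain ⟨V, hV, h3⟩ := Filter.mem_prod_self_iff.1 h2
    have hp : 0 < ‖Ξ‖ + 1 := by positivity
    refine ⟨1 / (2 * (‖Ξ‖ + 1)), by positivity, V, hV, fun y hy y' hy' => ?_⟩
    have h4 := h3 (mk_mem_prod hy.2 hy'.2)
    simp only [mem_ofPred_eq, h0 y hy.1, h0 y' hy'.1, sub_zero, zero_apply] at h4
    have h5 : y - y' = (y - Ξ (T y) - (y' - Ξ (T y'))) + Ξ (T y - T y') := by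
      rw [map_sub]; abel
    have h6 : ‖y - y'‖ ≤ 1 / 2 * ‖y - y'‖ + ‖Ξ‖ * ‖T y - T y'‖ := by
      conv_lhs => rw [h5]
      exact (norm_add_le _ _).trans (add_le_add h4 (Ξ.le_opNorm _))
    rw [div_mul_eq_mul_div, div_le_iff₀ (by positivity)]
    have := norm_nonneg (T y - T y')
    nlinarith
  · have h2 : HasStrictFDerivAt (fun y => Φ y - Φ' (Ξ (T y)) - Φ' (r y)) (0 : E →L[ℂ] F) z := by
      refine ((hΦ.sub (Φ'.hasStrictFDerivAt.comp z (Ξ.hasStrictFDerivAt.comp z hT))).sub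
        (Φ'.hasStrictFDerivAt.comp z hr)).congr_fderiv ?_
      ext v
      simp
    have h3 := (hasFDerivAt_iff_isLittleO.1 h2.hasFDerivAt).mono (nhdsWithin_le_nhds (s := Z))
    refine h3.congr' ?_ EventuallyEq.rfl
    filter_upwards [self_mem_nhdsWithin] with y hy
    simp only [h0 y hy, h0 z hz, map_zero, sub_zero, zero_apply,
      ContinuousLinearMap.comp_apply, map_sub]
    abel

lemma vdf_map {A B ι : Type} [CommRing A] [CommRing B] [Algebra ℂ A] [Algebra ℂ B]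
    (f : A →ₐ[ℂ] B) (a : A) (θ : ι → A) (G : MvPolynomial (Option ι) ℂ) :
    f (aeval (fun o => Option.elim o a θ) G) =
      aeval (fun o => Option.elim o (f a) fun i => f (θ i)) G := by
  rw [comp_aeval_apply]
  congr 2
  funext o
  cases o <;> rfl

lemma vdf_den {A K κ μ : Type} [Fintype κ] [Fintype μ] [CommRing A] [Field K] [Algebra ℂ A]
    [Algebra ℂ K] (c : A →ₐ[ℂ] K) (hc : ∀ a : K, ∃ p q, c q ≠ 0 ∧ a * c q = c p)
    (a : κ → K) (g : μ → A) (hg : ∀ l, c (g l) ≠ 0) :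
    ∃ Q, c Q ≠ 0 ∧ (∀ k, ∃ P, a k * c Q = c P) ∧ ∀ l, g l ∣ Q := by
  choose p q hq h using fun k => hc (a k)
  refine ⟨(∏ k, q k) * ∏ l, g l, ?_, fun k => ?_, fun l => ?_⟩
  · rw [map_mul, map_prod, map_prod]
    exact mul_ne_zero (Finset.prod_ne_zero_iff.2 fun k _ => hq k)
      (Finset.prod_ne_zero_iff.2 fun l _ => hg l)
  · obtain ⟨d, hd⟩ := (Finset.dvd_prod_of_mem q (Finset.mem_univ k)).mul_right (∏ l, g l)
    exact ⟨p k * d, by rw [hd, map_mul, ← mul_assoc, h, map_mul]⟩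
  · exact (Finset.dvd_prod_of_mem g (Finset.mem_univ l)).mul_left _

/-- The derivative of a polynomial function. -/
noncomputable def vdfD {σ : Type} [Fintype σ] (G : MvPolynomial σ ℂ) (z : σ → ℂ) :
    (σ → ℂ) →L[ℂ] ℂ :=
  ∑ l, eval z (pderiv l G) • (ContinuousLinearMap.proj l : (σ → ℂ) →L[ℂ] ℂ)

lemma vdfD_apply {σ : Type} [Fintype σ] (G : MvPolynomial σ ℂ) (z v : σ → ℂ) :
    vdfD G z v = ∑ l, eval z (pderiv l G) * v l := by
  simp [vdfD]

lemma vdf_rel {σ ι : Type} [Fintype σ] [Fintype ι] {T : (σ → ℂ) → ι → ℂ}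
    {T' : (σ → ℂ) →L[ℂ] (ι → ℂ)} {z : σ → ℂ} (hT : HasStrictFDerivAt T T' z)
    (G : σ → MvPolynomial (Option ι) ℂ) (ξ : σ → ι → ℂ)
    (hg : ∀ l, eval (fun o => Option.elim o (z l) (T z)) (pderiv none (G l)) ≠ 0)
    (hξ : ∀ l j, eval (fun o => Option.elim o (z l) (T z)) (pderiv none (G l)) * ξ l j +
      eval (fun o => Option.elim o (z l) (T z)) (pderiv (some j) (G l)) = 0) :
    HasStrictFDerivAt (fun y l => eval (fun o => Option.elim o (y l) (T y)) (G l) *
        (eval (fun o => Option.elim o (z l) (T z)) (pderiv none (G l)))⁻¹)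
      (ContinuousLinearMap.id ℂ (σ → ℂ) - (ContinuousLinearMap.pi fun l => ∑ j, ξ l j •
        (ContinuousLinearMap.proj j : (ι → ℂ) →L[ℂ] ℂ)).comp T') z := by
  refine hasStrictFDerivAt_pi'' fun l => ?_
  have hW : HasStrictFDerivAt (fun (y : σ → ℂ) (o : Option ι) => Option.elim o (y l) (T y))
      (ContinuousLinearMap.pi fun o => Option.elim o (ContinuousLinearMap.proj l)
        fun j => (ContinuousLinearMap.proj j).comp T') z := by
    refine hasStrictFDerivAt_pi.2 fun o => ?_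
    rcases o with _ | j
    · exact hasStrictFDerivAt_apply l z
    · exact hasStrictFDerivAt_pi'.1 hT j
  refine (((hasStrict_eval (G l) _).comp z hW).mul_const _).congr_fderiv ?_
  ext v
  have h1 : ∀ j, eval (fun o => Option.elim o (z l) (T z)) (pderiv (some j) (G l)) =
      -(eval (fun o => Option.elim o (z l) (T z)) (pderiv none (G l)) * ξ l j) := fun j =>
    eq_neg_of_add_eq_zero_right (hξ l j)
  have h2 := hg l
  simp [h1, mul_assoc, ← Finset.mul_sum]
  field_simp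
  ring

lemma vdf_core {σ ι K : Type} [Fintype σ] [Fintype ι] [DecidableEq ι] [Field K] [Algebra ℂ K]
    (c : MvPolynomial σ ℂ →ₐ[ℂ] K) (hc : ∀ a : K, ∃ p q, c q ≠ 0 ∧ a * c q = c p)
    {Z : Set (σ → ℂ)} (hZ : ∀ z ∈ Z, ∃ P : Pt K, ∀ a, c a ∈ P.O ∧ P.ev (c a) = eval z a)
    {θ : ι → MvPolynomial σ ℂ} (hθ : IsTranscendenceBasis ℂ fun i => c (θ i)) {p : ι → K}
    {D : ι → Derivation ℂ K K} (hD : ∀ i j, D i (p j) = if i = j then 1 else 0) :
    ∃ (Q PJ : MvPolynomial σ ℂ) (P : ι → MvPolynomial σ ℂ), c Q ≠ 0 ∧ c PJ ≠ 0 ∧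
      (∀ i, p i * c Q = c (P i)) ∧
      (Matrix.of fun i j => D i (c (θ j))).det * c Q = c PJ ∧
      ∀ z ∈ Z, eval z Q ≠ 0 →
        (∃ c > (0 : ℝ), ∃ V ∈ 𝓝 z, ∀ y ∈ Z ∩ V, ∀ y' ∈ Z ∩ V,
          c * ‖y - y'‖ ≤ ‖(fun i => eval y (θ i)) - fun i => eval y' (θ i)‖) ∧
        ∃ A : (ι → ℂ) →L[ℝ] (ι → ℂ), |A.det| = ‖eval z Q / eval z PJ‖ ^ 2 ∧
          (fun y => (fun i => eval y (P i) / eval y Q) - (fun i => eval z (P i) / eval z Q)
            - A ((fun i => eval y (θ i)) - fun i => eval z (θ i)))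
            =o[𝓝[Z] z] fun y => y - z := by
  have hce : ∀ a, aeval (fun l => c (X l)) a = c a := fun a => by
    rw [← comp_aeval_apply]; simp
  obtain ⟨E, hE⟩ := der_exists hθ
  choose G hG hG' using fun l => exists_rel hθ (c (X l))
  let M₁ : Matrix ι ι K := Matrix.of fun i j => E j (p i)
  let M₂ : Matrix ι ι K := Matrix.of fun i j => D i (c (θ j))
  have hM : M₁.det * M₂.det = 1 := by
    rw [← Matrix.det_transpose M₂, ← Matrix.det_mul, ← Matrix.det_one (n := ι)]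
    congr 1
    ext k i
    rw [Matrix.mul_apply, Matrix.one_apply, if_congr eq_comm rfl rfl, ← hD i k,
      der_expand hθ hE (D i) (p k)]
    rfl
  obtain ⟨Q, hQ0, hP, hgQ⟩ := vdf_den c hc (fun o : Option ι => Option.elim o M₂.det p)
    (fun l => aeval (fun o => Option.elim o (X l) θ) (pderiv none (G l)))
    (fun l h => hG' l (by rwa [vdf_map] at h))
  choose P hP using hP
  have hPJ : M₁.det * c (P none) = c Q := by
    rw [← hP none]
    change M₁.det * (M₂.det * _) = _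
    rw [← mul_assoc, hM, one_mul]
  refine ⟨Q, P none, fun i => P (some i), hQ0, fun h => hQ0 ?_, fun i => hP (some i), hP none,
    fun z hz hzQ => ?_⟩
  · rw [← hPJ, h, mul_zero]
  obtain ⟨Pz, hPz⟩ := hZ z hz
  have hev : ∀ (y : σ → ℂ) (l : σ) (H : MvPolynomial (Option ι) ℂ),
      eval y (aeval (fun o => Option.elim o (X l) θ) H) =
        eval (fun o => Option.elim o (y l) fun i => eval y (θ i)) H := fun y l H => by
    have := vdf_map (aeval y : MvPolynomial σ ℂ →ₐ[ℂ] ℂ) (X l) θ H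
    simp only [aeval_X] at this
    exact this
  have hg : ∀ l, eval (fun o => Option.elim o (z l) fun i => eval z (θ i))
      (pderiv none (G l)) ≠ 0 := fun l h => by
    obtain ⟨d, hd⟩ := hgQ l
    rw [hd, map_mul, hev, h, zero_mul] at hzQ
    exact hzQ rfl
  have hrel : ∀ l j, E j (c (X l)) *
      c (aeval (fun o => Option.elim o (X l) θ) (pderiv none (G l))) =
      c (-aeval (fun o => Option.elim o (X l) θ) (pderiv (some j) (G l))) := fun l j => by
    have h := der_aeval (E j) (fun o => Option.elim o (c (X l)) fun i => c (θ i)) (G l)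
    rw [hG l, map_zero, Fintype.sum_option] at h
    simp only [Option.elim, hE, mul_ite, mul_one, mul_zero, Finset.sum_ite_eq, Finset.mem_univ,
      if_true] at h
    rw [map_neg, vdf_map, vdf_map, mul_comm]
    exact eq_neg_of_add_eq_zero_left h.symm
  have hξ : ∀ l j, E j (c (X l)) ∈ Pz.O ∧
      eval (fun o => Option.elim o (z l) fun i => eval z (θ i)) (pderiv none (G l)) *
        Pz.ev (E j (c (X l))) +
      eval (fun o => Option.elim o (z l) fun i => eval z (θ i)) (pderiv (some j) (G l)) = 0 :=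
    fun l j => by
      have h := Pz.ev_frac (hrel l j) (hPz _).1 (hPz _).1 (by rw [(hPz _).2, hev]; exact hg l)
      refine ⟨h.1, ?_⟩
      rw [h.2, (hPz _).2, (hPz _).2, map_neg, hev, hev, mul_div_cancel₀ _ (hg l), neg_add_cancel]
  let Ξ : (ι → ℂ) →L[ℂ] (σ → ℂ) := ContinuousLinearMap.pi fun l =>
    ∑ j, Pz.ev (E j (c (X l))) • (ContinuousLinearMap.proj j : (ι → ℂ) →L[ℂ] ℂ)
  have hT : HasStrictFDerivAt (fun (y : σ → ℂ) i => eval y (θ i))
      (ContinuousLinearMap.pi fun i => vdfD (θ i) z) z :=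
    hasStrictFDerivAt_pi.2 fun i => hasStrict_eval (θ i) z
  let Φ' : (σ → ℂ) →L[ℂ] (ι → ℂ) := ContinuousLinearMap.pi fun i =>
    (eval z Q)⁻¹ • (vdfD (P (some i)) z - (eval z (P (some i)) / eval z Q) • vdfD Q z)
  have hΦ : HasStrictFDerivAt (fun (y : σ → ℂ) i => eval y (P (some i)) / eval y Q) Φ' z := by
    refine hasStrictFDerivAt_pi.2 fun i => ?_
    have h1 : HasStrictFDerivAt (fun u => eval u Q) (vdfD Q z) z := hasStrict_eval Q z
    have h2 : HasStrictFDerivAt (fun u => eval u (P (some i))) (vdfD (P (some i)) z) z :=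
      hasStrict_eval _ z
    refine (h2.mul ((hasStrictDerivAt_inv hzQ).comp_hasStrictFDerivAt z h1)).congr_fderiv ?_
    ext v
    simp
    field_simp
    ring
  obtain ⟨r1, r2⟩ := vdf_an hz hT hΦ (vdf_rel hT G _ hg fun l j => (hξ l j).2) (fun y hy => by
    funext l
    obtain ⟨Py, hPy⟩ := hZ y hy
    have h' := (hPy (aeval (fun o => Option.elim o (X l) θ) (G l))).2.symm
    rw [hev, vdf_map, hG l, Py.ev_zero] at h'
    simp [h'])
  refine ⟨r1, (Φ'.comp Ξ).restrictScalars ℝ, ?_, r2⟩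
  have hder : ∀ j a, E j (c a) ∈ Pz.O ∧ Pz.ev (E j (c a)) = vdfD a z (Ξ (Pi.single j 1)) :=
    fun j a => by
      have h := der_aeval (E j) (fun l => c (X l)) a
      simp only [hce] at h
      have hm : ∀ l, c (pderiv l a) * E j (c (X l)) ∈ Pz.O := fun l =>
        mul_mem (hPz _).1 (hξ l j).1
      rw [h, Pz.ev_sum hm, vdfD_apply]
      refine ⟨sum_mem fun l _ => hm l, Finset.sum_congr rfl fun l _ => ?_⟩
      rw [Pz.ev_mul (hPz _).1 (hξ l j).1, (hPz _).2]
      simp [Ξ, Pi.single_apply]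
  have hQz : Pz.ev (c Q) ≠ 0 := by rw [(hPz _).2]; exact hzQ
  have hent : ∀ i j, M₁ i j ∈ Pz.O ∧ Pz.ev (M₁ i j) = Φ' (Ξ (Pi.single j 1)) i := fun i j => by
    have hp := Pz.ev_frac (a := p i) (hP (some i)) (hPz _).1 (hPz _).1 hQz
    have h1 : E j (p i) * c Q = E j (c (P (some i))) - p i * E j (c Q) := by
      rw [← hP (some i)]
      simp only [Option.elim, Derivation.leibniz, smul_eq_mul]
      ring
    have hm : p i * E j (c Q) ∈ Pz.O := mul_mem hp.1 (hder j Q).1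
    have h2 := Pz.ev_frac h1 (sub_mem (hder j _).1 hm) (hPz _).1 hQz
    refine ⟨h2.1, h2.2.trans ?_⟩
    have hp2 : Pz.ev (p i) = eval z (P (some i)) / eval z Q := by
      rw [← (hPz _).2, ← (hPz _).2]; exact hp.2
    rw [Pz.ev_sub (hder j _).1 hm, Pz.ev_mul hp.1 (hder j Q).1, (hder j _).2, (hder j _).2,
      (hPz _).2, hp2]
    simp [Φ', div_eq_inv_mul]
  have hdet := Pz.ev_det fun i j => (hent i j).1
  have e : LinearMap.toMatrix' (Φ'.comp Ξ).toLinearMap = M₁.map Pz.ev := by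
    ext i j
    rw [Matrix.map_apply, (hent i j).2, LinearMap.toMatrix'_apply]
    rfl
  have h2 : Pz.ev M₁.det * eval z (P none) = eval z Q := by
    rw [← (hPz _).2, ← Pz.ev_mul hdet.1 (hPz _).1, hPJ, (hPz _).2]
  have h3 : eval z (P none) ≠ 0 := fun h => hzQ (by rw [← h2, h, mul_zero])
  have h1 : ((Φ'.comp Ξ).restrictScalars ℝ).det =
      Algebra.norm ℝ (LinearMap.det (Φ'.comp Ξ).toLinearMap) :=
    LinearMap.det_restrictScalars (f := (Φ'.comp Ξ).toLinearMap)
  rw [h1, ← LinearMap.det_toMatrix', e, ← hdet.2, Algebra.norm_complex_apply,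
    abs_of_nonneg (Complex.normSq_nonneg _), Complex.normSq_eq_norm_sq, eq_div_of_mul_eq h3 h2]

theorem loc_struct {σ ι : Type} [Fintype σ] [Fintype ι] [DecidableEq ι]
    {J : Ideal (MvPolynomial σ ℂ)} [J.IsPrime] {θ : ι → MvPolynomial σ ℂ}
    (hθ : IsTranscendenceBasis ℂ fun i => cl J (θ i)) {p : ι → FnF J}
    {D : ι → Derivation ℂ (FnF J) (FnF J)} (hD : ∀ i j, D i (p j) = if i = j then 1 else 0) :
    ∃ (Q PJ : MvPolynomial σ ℂ) (P : ι → MvPolynomial σ ℂ), Q ∉ J ∧ PJ ∉ J ∧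
      (∀ i, p i * cl J Q = cl J (P i)) ∧
      (Matrix.of fun i j => D i (cl J (θ j))).det * cl J Q = cl J PJ ∧
      ∀ z ∈ zeroLocus ℂ J, eval z Q ≠ 0 →
        (∃ c > (0 : ℝ), ∃ V ∈ 𝓝 z, ∀ y ∈ zeroLocus ℂ J ∩ V, ∀ y' ∈ zeroLocus ℂ J ∩ V,
          c * ‖y - y'‖ ≤ ‖(fun i => eval y (θ i)) - fun i => eval y' (θ i)‖) ∧
        ∃ A : (ι → ℂ) →L[ℝ] (ι → ℂ), |A.det| = ‖eval z Q / eval z PJ‖ ^ 2 ∧
          (fun y => (fun i => eval y (P i) / eval y Q) - (fun i => eval z (P i) / eval z Q)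
            - A ((fun i => eval y (θ i)) - fun i => eval z (θ i)))
            =o[𝓝[zeroLocus ℂ J] z] fun y => y - z := by
  obtain ⟨Q, PJ, P, h1, h2, h3⟩ := vdf_core (cl J)
    (fun a => by
      obtain ⟨p, q, hq, h⟩ := exists_cl a
      exact ⟨p, q, cl_eq_zero.not.2 hq, h⟩)
    (Z := zeroLocus ℂ J) (fun z hz => exists_pt_cl (L := FnF J) hz) hθ hD
  exact ⟨Q, PJ, P, cl_eq_zero.not.1 h1, cl_eq_zero.not.1 h2, h3⟩

end Pool.Agent.Lib.MP_bc3ae6_ag
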