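import Pool.Agent.Lib.MP_bc3ae6_ag.VA1
import Pool.Agent.Lib.MP_bc3ae6_ag.VArea
import Pool.Agent.Lib.MP_bc3ae6_ag.VDiff
import Pool.Agent.Lib.MP_bc3ae6_ag.OT1

set_option autoImplicit false
set_option linter.unusedSectionVars false

/-! Integrability implies the valuative inequalities. -/

namespace Pool.Agent.Lib.MP_bc3ae6_ag

open MvPolynomial Set Real Filter Topology MeasureTheory Metric
open scoped ENNReal

lemma Ap.log {C x t k : ℝ} (hC : 0 < C) (ht : 0 < t) (hx : 0 ≤ x) (h : Ap C x (t ^ k)) :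
    0 < x ∧ log x ≤ log C + k * log t ∧ k * log t ≤ log C + log x := by
  have h0 := rpow_pos_of_pos ht k
  have h1 := h.pos hx h0
  rw [← log_rpow ht, ← log_mul hC.ne' h0.ne', ← log_mul hC.ne' h1.ne']
  exact ⟨h1, log_le_log h1 h.1, log_le_log h0 h.2⟩

lemma jac_bound {x y q p : ℂ} {C t ε c s a b k l : ℝ} (hC : 0 < C) (ht : 0 < t) (hε : t ≤ ε)
    (hc : 0 ≤ c) (hs : 0 ≤ s) (hx : Ap C ‖x‖ (t ^ a)) (hy : Ap C ‖y‖ (t ^ b))
    (hq : Ap C ‖q‖ (t ^ k)) (hp : Ap C ‖p‖ (t ^ l)) (h : 0 ≤ c * a + s * b + k - l) :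
    ENNReal.ofReal (‖q / p‖ ^ 2) ≤
      ENNReal.ofReal (C ^ (2 * (2 + c + s)) * ε ^ (2 * (c * a + s * b + k - l))) *
        (‖x‖ₑ ^ (-(2 * c)) * ‖y‖ₑ ^ (-(2 * s))) := by
  obtain ⟨h1, h2, -⟩ := hx.log hC ht (norm_nonneg _)
  obtain ⟨h3, h4, -⟩ := hy.log hC ht (norm_nonneg _)
  obtain ⟨h5, h6, -⟩ := hq.log hC ht (norm_nonneg _)
  obtain ⟨h7, -, h8⟩ := hp.log hC ht (norm_nonneg _)
  have h9 := ht.trans_le hε
  rw [← ofReal_norm, ← ofReal_norm, ENNReal.ofReal_rpow_of_pos h1, ENNReal.ofReal_rpow_of_pos h3,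
    ← ENNReal.ofReal_mul (by positivity), ← ENNReal.ofReal_mul (by positivity), norm_div,
    ← rpow_natCast, rpow_def_of_pos (div_pos h5 h7), rpow_def_of_pos h1, rpow_def_of_pos h3,
    rpow_def_of_pos hC, rpow_def_of_pos h9, ← exp_add, ← exp_add, ← exp_add, log_div h5.ne' h7.ne']
  refine ENNReal.ofReal_le_ofReal (exp_le_exp.2 ?_)
  have := mul_le_mul_of_nonneg_left (log_le_log ht hε) h
  have := mul_le_mul_of_nonneg_left h2 hc
  have := mul_le_mul_of_nonneg_left h4 hs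
  push_cast
  linarith

lemma vol_box {ι : Type} [Fintype ι] [DecidableEq ι] (i₀ : ι) (b : ι → ℂ) {δ : ℝ} (hδ : 0 < δ) :
    ∃ m : ℝ≥0∞, m ≠ 0 ∧ ∀ ε, 0 ≤ ε → ENNReal.ofReal (ε ^ 2) * m = volume (univ.pi
      (Function.update (fun i => ball (b i) δ) i₀ (ball (0 : ℂ) ε \ {0}))) := by
  refine ⟨NNReal.pi * ∏ i ∈ Finset.univ \ {i₀}, volume (ball (b i) δ), mul_ne_zero
    (by simpa using NNReal.pi_ne_zero) (Finset.prod_ne_zero_iff.2 fun i _ =>
      (measure_ball_pos _ _ hδ).ne'), fun ε hε => ?_⟩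
  rw [volume_pi_pi]
  simp only [Function.apply_update fun _ (s : Set ℂ) => volume s]
  rw [Finset.prod_update_of_mem (Finset.mem_univ _), measure_sdiff_null (measure_singleton _),
    Complex.volume_ball, ENNReal.ofReal_pow hε, mul_assoc]

theorem valA {σ ι κ : Type} [Fintype σ] [Fintype ι] [DecidableEq ι] [Fintype κ]
    {J : Ideal (MvPolynomial σ ℂ)} [J.IsPrime] {θ : ι → MvPolynomial σ ℂ}
    (hθ : IsTranscendenceBasis ℂ fun i => cl J (θ i)) {D : ℕ}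
    (hF : FF (zeroLocus ℂ J) (fun x i => eval x (θ i)) D) (E : PrimeDiv (FnF J) ι)
    (h0 : ∀ a, 0 ≤ E.ord (cl J a)) {u : κ → MvPolynomial σ ℂ} (hu : ∀ j, E.ord (cl J (u j)) = 0)
    {g f : MvPolynomial σ ℂ} (hg : g ∉ J) (hf : f ∉ J) : ∃ ρ > (0 : ℝ), ∀ c s : ℝ, 0 ≤ c → 0 ≤ s →
      ∫⁻ x in {x | ‖x‖ ≤ ρ ∧ ∀ j, ρ⁻¹ ≤ ‖eval x (u j)‖}, ‖eval x g‖ₑ ^ (-(2 * c)) *
        ‖eval x f‖ₑ ^ (-(2 * s)) ∂(fm volume (zeroLocus ℂ J) fun x i => eval x (θ i)) < ⊤ →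
      c * E.o (cl J g) + s * E.o (cl J f) ≤ 1 + E.o (E.jac fun i => cl J (θ i)) := by
  classical
  obtain ⟨Q, PJ, P, hQ, hPJ, h1, h2, h3⟩ := loc_struct hθ E.dual
  have hu' : ∀ j, cl J (u j) ≠ 0 := fun j h => by simpa [h] using hu j
  obtain ⟨b, C, hb, hC, h4⟩ := near_pts E (E.basis hθ) ((({Q, PJ, g, f} ∪ Finset.univ.image u ∪
    Finset.univ.image X).image (cl J)).erase 0) (Finset.notMem_erase _ _)
  obtain ⟨δ, hδ, h5⟩ := Metric.eventually_nhds_iff.1 h4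
  have hC0 := one_pos.trans_le hC
  refine ⟨C, hC0, fun c s hc hs hI => not_lt.1 fun hA => ?_⟩
  have e : E.o (E.jac fun i => cl J (θ i)) + E.o (cl J Q) = E.o (cl J PJ) := by
    rw [← h2]
    exact (ov_mul _ (E.jac_ne hθ) (cl_eq_zero.not.2 hQ)).symm
  obtain ⟨m, hm, h6⟩ := vol_box E.i₀ b hδ
  generalize hk : c * E.o (cl J g) + s * E.o (cl J f) + E.o (cl J Q) - E.o (cl J PJ) = k
  have hk1 : 1 < k := by linarith
  refine hm (zero_of_sub' (a := 2 * k - 2) (ENNReal.mul_lt_top (ENNReal.ofReal_lt_top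
    (r := C ^ (2 * (2 + c + s)))) hI) (by linarith) ?_)
  filter_upwards [Ioo_mem_nhdsGT (lt_min hδ one_pos)] with ε hε
  have hε0 := hε.1
  have m1 : Measurable fun x : σ → ℂ => ENNReal.ofReal (C ^ (2 * (2 + c + s)) * ε ^ (2 * k)) *
      (‖eval x g‖ₑ ^ (-(2 * c)) * ‖eval x f‖ₑ ^ (-(2 * s))) :=
    (((cont_ev g).measurable.enorm.pow_const _).mul
      ((cont_ev f).measurable.enorm.pow_const _)).const_mul _
  have m2 : Measurable fun x : σ → ℂ => ENNReal.ofReal (‖eval x Q / eval x PJ‖ ^ 2) :=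
    (((cont_ev Q).measurable.div (cont_ev PJ).measurable).norm.pow_const _).ennreal_ofReal
  have m3 : MeasurableSet {x : σ → ℂ | ‖x‖ ≤ C ∧ ∀ j, C⁻¹ ≤ ‖eval x (u j)‖} := by
    rw [ofPred_and, ofPred_forall]
    exact ((isClosed_le continuous_norm continuous_const).inter
      (isClosed_iInter fun j => isClosed_le continuous_const (cont_ev _).norm)).measurableSet
  have m4 : MeasurableSet {x : σ → ℂ | eval x Q ≠ 0} :=
    (isOpen_ne_fun (cont_ev Q) continuous_const).measurableSet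
  have h7 := hF.area volume (Φ := fun y i => eval y (P i) / eval y Q)
    (((hF.cl.measurableSet.inter m4).inter m3).inter (measurableSet_le m2 m1))
    (fun z hz => hz.1.1.1) m1 fun z hz => (h3 z hz.1.1.1 hz.1.1.2).imp_right
      fun ⟨A, hA⟩ => ⟨A, (congrArg ENNReal.ofReal hA.1).trans_le hz.2, hA.2⟩
  have h8 := (measure_mono (s := univ.pi (Function.update (fun i => ball (b i) δ) E.i₀
    (ball (0 : ℂ) ε \ {0}))) fun w hw => ?_).trans
    (h7.trans (lintegral_mono_set fun z hz => hz.1.2))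
  · rw [lintegral_const_mul' _ _ ENNReal.ofReal_ne_top, ← h6 ε hε0.le] at h8
    refine (ENNReal.mul_le_mul_iff_right (a := ENNReal.ofReal (ε ^ 2)) (by simp; positivity)
      ENNReal.ofReal_ne_top).1 (h8.trans_eq ?_)
    rw [show ε ^ (2 * k) = ε ^ 2 * ε ^ (2 * k - 2) by
      rw [← rpow_natCast, ← rpow_add hε0]; congr 1; push_cast; ring,
      ENNReal.ofReal_mul (by positivity), ENNReal.ofReal_mul (by positivity)]
    ring
  have w1 := hw E.i₀ trivial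
  rw [Function.update_self, mem_sdiff_singleton, mem_ball_zero_iff] at w1
  have w2 := norm_pos_iff.2 w1.2
  obtain ⟨T, t1, t2⟩ := h5 (y := w) ((dist_pi_lt_iff hδ).2 fun i => by
    rcases eq_or_ne i E.i₀ with rfl | hi
    · simpa [hb] using w1.1.trans (hε.2.trans_le (min_le_left _ _))
    · simpa [hi] using hw i trivial) w1.2
  have t3 : ∀ l, cl J (X l) ∈ T.O ∧ ‖T.ev (cl J (X l))‖ ≤ C := fun l => by
    rcases eq_or_ne (cl J (X l)) 0 with h | h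
    · simp [h, T.ev_zero, hC0.le]
    · have := t2 _ (Finset.mem_erase.2 ⟨h, Finset.mem_image_of_mem _ (by simp)⟩)
      exact ⟨this.1, this.2.1.trans (mul_le_of_le_one_right hC0.le (rpow_le_one w2.le
        (w1.1.trans (hε.2.trans_le (min_le_right _ _))).le (ov_nonneg (h0 _))))⟩
  obtain ⟨z, hz, t4⟩ := T.exists_point fun l => (t3 l).1
  have t5 : ∀ a ∈ ({Q, PJ, g, f} ∪ Finset.univ.image u : Finset _), a ∉ J →
      Ap C ‖eval z a‖ (‖w E.i₀‖ ^ E.o (cl J a)) := fun a ha h => (t4 a).2 ▸ (t2 _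
    (Finset.mem_erase.2 ⟨cl_eq_zero.not.2 h, Finset.mem_image_of_mem _
      (Finset.mem_union_left _ ha)⟩)).2
  have t6 := norm_pos_iff.1 ((t5 Q (by simp) hQ).pos (norm_nonneg _) (by positivity))
  refine ⟨z, ⟨⟨⟨hz, t6⟩, (pi_norm_le_iff_of_nonneg hC0.le).2 fun l => ?_, fun j => ?_⟩, ?_⟩,
    funext fun i => ?_⟩
  · simpa [(t4 _).2] using (t3 l).2
  · have := (t5 (u j) (by simp) (cl_eq_zero.not.1 (hu' j))).2
    rw [PrimeDiv.o, hu] at this
    rw [inv_le_iff_one_le_mul₀' hC0]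
    simpa using this
  · exact hk ▸ jac_bound hC0 w2 w1.1.le hc hs (t5 g (by simp) hg) (t5 f (by simp) hf)
      (t5 Q (by simp) hQ) (t5 PJ (by simp) hPJ) (by linarith)
  · rw [← (t1 i).2, (T.ev_frac (h1 i) (t4 _).1 (t4 _).1 ((t4 _).2 ▸ t6)).2, (t4 _).2, (t4 _).2]

end Pool.Agent.Lib.MP_bc3ae6_ag
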