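import Pool.Agent.Lib.MP_bc3ae6_ag.V1

set_option autoImplicit false
set_option linter.unusedSectionVars false

/-! Extension of non-archimedean absolute values. -/

namespace Pool.Agent.Lib.MP_bc3ae6_ag

open MvPolynomial Set
open scoped Polynomial

/-- A multiplicative ultrametric function as an absolute value. -/
lemma ext_mk {L : Type*} [CommRing L] (W : L → ℝ) (h0 : ∀ x, 0 ≤ W x) (h1 : ∀ x, W x = 0 ↔ x = 0)
    (h2 : ∀ x y, W (x * y) = W x * W y) (h3 : ∀ x y, W (x + y) ≤ max (W x) (W y)) :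
    ∃ w' : AbsoluteValue L ℝ, NA w' ∧ ∀ x, w' x = W x :=
  ⟨⟨⟨W, h2⟩, h0, h1, fun x y => (h3 x y).trans
    (max_le (le_add_of_nonneg_right (h0 y)) (le_add_of_nonneg_left (h0 x)))⟩, h3, fun _ => rfl⟩

lemma ext_val_pow {K L Γ : Type*} [Field K] [Field L] [Algebra K L] [Algebra.IsAlgebraic K L]
    [LinearOrderedCommGroupWithZero Γ] (v : Valuation L Γ) (x : L) :
    ∃ m : ℕ, 0 < m ∧ ∃ c : K, v x ^ m = v (algebraMap K L c) := by
  rcases eq_or_ne x 0 with rfl | hx
  · exact ⟨1, one_pos, 0, by simp⟩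
  obtain ⟨P, hP, h⟩ := Algebra.IsAlgebraic.isAlgebraic (R := K) x
  have key : ∀ i ∈ P.support, ∀ j ∈ P.support, i < j →
      v (algebraMap K L (P.coeff i) * x ^ i) = v (algebraMap K L (P.coeff j) * x ^ j) →
      ∃ m : ℕ, 0 < m ∧ ∃ c : K, v x ^ m = v (algebraMap K L c) := by
    intro i _ j hj hij e
    obtain ⟨m, rfl⟩ := Nat.exists_eq_add_of_lt hij
    refine ⟨m + 1, m.succ_pos, P.coeff i / P.coeff (i + m + 1), ?_⟩
    have h1 : v (algebraMap K L (P.coeff (i + m + 1))) ≠ 0 :=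
      v.ne_zero_iff.2 ((map_ne_zero _).2 (Polynomial.mem_support_iff.1 hj))
    have h2 : v x ^ i ≠ 0 := pow_ne_zero _ (v.ne_zero_iff.2 hx)
    rw [map_mul, map_mul, map_pow, map_pow, add_assoc, pow_add, mul_left_comm, mul_comm] at e
    rw [map_div₀, map_div₀, eq_div_iff h1, mul_comm, add_assoc]
    exact (mul_left_cancel₀ h2 e).symm
  obtain ⟨k, hk, h1⟩ := P.support.exists_max_image
    (fun l => v (algebraMap K L (P.coeff l) * x ^ l)) (Polynomial.support_nonempty.2 hP)
  by_contra hc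
  have h3 := v.map_sum_eq_of_lt (f := fun l => algebraMap K L (P.coeff l) * x ^ l) hk
    fun j hj => (h1 j (Finset.mem_sdiff.1 hj).1).lt_of_ne fun he => hc (by
      have hj' := Finset.mem_sdiff.1 hj
      rcases (Finset.notMem_singleton.1 hj'.2).lt_or_gt with h | h
      · exact key j hj'.1 k hk h he
      · exact key k hk j hj'.1 h he.symm)
  rw [Polynomial.aeval_def, Polynomial.eval₂_eq_sum, Polynomial.sum_def] at h
  rw [h, map_zero, eq_comm, v.zero_iff] at h3
  exact mul_ne_zero ((map_ne_zero _).2 (Polynomial.mem_support_iff.1 hk)) (pow_ne_zero _ hx) h3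

lemma ext_of_val {K L Γ : Type*} [Field K] [Field L] [Algebra K L] [Algebra.IsAlgebraic K L]
    [LinearOrderedCommGroupWithZero Γ] (v : Valuation L Γ) {w : AbsoluteValue K ℝ}
    (hv : ∀ a b, v (algebraMap K L a) ≤ v (algebraMap K L b) ↔ w a ≤ w b) :
    ∃ w' : AbsoluteValue L ℝ, NA w' ∧ ∀ a, w' (algebraMap K L a) = w a := by
  choose m hm c hc using ext_val_pow (K := K) v
  obtain ⟨W, hW0, hW⟩ : ∃ W : L → ℝ, (∀ x, 0 ≤ W x) ∧ ∀ x, W x ^ m x = w (c x) :=
    ⟨fun x => w (c x) ^ ((m x : ℝ)⁻¹), fun x => Real.rpow_nonneg (w.nonneg _) _, fun x =>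
      Real.rpow_inv_natCast_pow (w.nonneg _) (hm x).ne'⟩
  have key : ∀ x (k : ℕ) a, v x ^ k = v (algebraMap K L a) → W x ^ k = w a := by
    intro x k a e
    have h1 : v (algebraMap K L (c x ^ k)) = v (algebraMap K L (a ^ m x)) := by
      rw [map_pow, map_pow, map_pow, map_pow, ← e, ← hc, ← pow_mul, ← pow_mul, mul_comm]
    have h2 := le_antisymm ((hv _ _).1 h1.le) ((hv _ _).1 h1.ge)
    refine (pow_left_inj₀ (pow_nonneg (hW0 x) k) (w.nonneg a) (hm x).ne').1 ?_
    rw [← pow_mul, mul_comm, pow_mul, hW, ← map_pow, h2, map_pow]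
  have e1 : ∀ x y, v x ^ (m x * m y) = v (algebraMap K L (c x ^ m y)) := fun x y => by
    rw [pow_mul, hc, map_pow, map_pow]
  have e2 : ∀ x y, v y ^ (m x * m y) = v (algebraMap K L (c y ^ m x)) := fun x y => by
    rw [mul_comm, e1]
  have mono : ∀ x y, v x ≤ v y → W x ≤ W y := by
    intro x y h
    refine (pow_le_pow_iff_left₀ (hW0 x) (hW0 y) (Nat.mul_pos (hm x) (hm y)).ne').1 ?_
    rw [key _ _ _ (e1 x y), key _ _ _ (e2 x y), ← hv, ← e1, ← e2]
    exact pow_le_pow_left₀ zero_le h _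
  refine (ext_mk W hW0 (fun x => ⟨fun h => ?_, fun h => ?_⟩) (fun x y => ?_)
    fun x y => (le_max_iff.1 (v.map_add x y)).elim (fun h => le_max_of_le_left (mono _ _ h))
      fun h => le_max_of_le_right (mono _ _ h)).imp fun w' h => ⟨h.1, fun a => by
        rw [h.2, ← pow_one (W _)]; exact key _ 1 a (pow_one _)⟩
  · have h1 := hW x
    rw [h, zero_pow (hm x).ne', eq_comm, w.eq_zero] at h1
    have h2 := hc x
    rw [h1, map_zero, map_zero] at h2
    exact v.zero_iff.1 (pow_eq_zero_iff (hm x).ne' |>.1 h2)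
  · simpa using key x 1 0 (by simp [h])
  · refine (pow_left_inj₀ (hW0 _) (mul_nonneg (hW0 x) (hW0 y)) (Nat.mul_pos (hm x) (hm y)).ne').1 ?_
    rw [mul_pow, key _ _ _ (e1 x y), key _ _ _ (e2 x y), ← map_mul]
    refine key _ _ _ ?_
    rw [map_mul, mul_pow, e1, e2, map_mul, map_mul]

/-- The valuation ring of a non-archimedean absolute value. -/
def NA.vsr {K : Type*} [Field K] {w : AbsoluteValue K ℝ} (hw : NA w) : ValuationSubring K where
  carrier := {c | w c ≤ 1}
  mul_mem' ha hb := by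
    rw [mem_ofPred_eq, map_mul]
    exact mul_le_one₀ ha (w.nonneg _) hb
  one_mem' := w.map_one.le
  add_mem' ha hb := hw.add_le ha hb
  zero_mem' := w.map_zero.le.trans zero_le_one
  neg_mem' ha := (w.map_neg _).le.trans ha
  mem_or_inv_mem' x := by
    rw [mem_ofPred_eq, mem_ofPred_eq, map_inv₀]
    exact (le_total (w x) 1).imp_right inv_le_one_of_one_le₀

theorem ext_alg {K L : Type*} [Field K] [Field L] [Algebra K L] [Algebra.IsAlgebraic K L]
    {w : AbsoluteValue K ℝ} (hw : NA w) :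
    ∃ w' : AbsoluteValue L ℝ, NA w' ∧ ∀ a, w' (algebraMap K L a) = w a := by
  obtain ⟨V, hV, hloc⟩ :=
    IsLocalRing.exists_factor_valuationRing ((algebraMap K L).comp hw.vsr.subtype)
  have h1 : ∀ a, V.valuation (algebraMap K L a) ≤ 1 ↔ w a ≤ 1 := by
    intro a
    rw [V.valuation_le_one_iff]
    refine ⟨fun h => by_contra fun hlt => ?_, fun h => hV ⟨a, h⟩⟩
    have ha : a ≠ 0 := by
      rintro rfl
      simp at hlt
    have h2 : a⁻¹ ∈ hw.vsr := (hw.vsr.mem_or_inv_mem a).resolve_left hlt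
    obtain ⟨b, hb⟩ := (hloc.1 ⟨a⁻¹, h2⟩ (IsUnit.of_mul_eq_one ⟨_, h⟩ (Subtype.ext (by
      change algebraMap K L a⁻¹ * algebraMap K L a = 1
      rw [← map_mul, inv_mul_cancel₀ ha, map_one])))).exists_right_inv
    have h3 : a⁻¹ * (b : K) = 1 := congrArg Subtype.val hb
    rw [inv_mul_eq_one₀ ha] at h3
    exact hlt (h3 ▸ b.2)
  refine ext_of_val V.valuation fun a b => ?_
  rcases eq_or_ne b 0 with rfl | hb
  · simp
  · rw [← div_le_one₀ (w.pos hb), ← map_div₀, ← h1, map_div₀, map_div₀, div_le_one₀]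
    exact zero_lt_iff.2 (V.valuation.ne_zero_iff.2 ((map_ne_zero _).2 hb))

lemma ext_frac {A K : Type*} [CommRing A] [IsDomain A] [Field K] [Algebra A K] [IsFractionRing A K]
    {w : AbsoluteValue A ℝ} (hw : NA w) :
    ∃ w' : AbsoluteValue K ℝ, NA w' ∧ ∀ a, w' (algebraMap A K a) = w a := by
  choose p q hq e using fun x : K => IsLocalization.surj (nonZeroDivisors A) x |>.elim
    fun z hz => (⟨z.1, z.2, nonZeroDivisors.coe_ne_zero z.2, hz⟩ :
      ∃ p q : A, q ≠ 0 ∧ x * algebraMap A K q = algebraMap A K p)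
  obtain ⟨W, hW0, hW⟩ : ∃ W : K → ℝ, (∀ x, 0 ≤ W x) ∧ ∀ x, W x * w (q x) = w (p x) :=
    ⟨fun x => w (p x) / w (q x), fun x => div_nonneg (w.nonneg _) (w.nonneg _), fun x =>
      div_mul_cancel₀ _ (w.pos (hq x)).ne'⟩
  have key : ∀ x a b, x * algebraMap A K b = algebraMap A K a → W x * w b = w a := by
    intro x a b h
    have h1 : p x * b = a * q x := IsFractionRing.injective A K (by
      rw [map_mul, map_mul, ← e, ← h]
      ring)
    apply mul_right_cancel₀ (w.pos (hq x)).ne'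
    rw [← map_mul, ← h1, map_mul, ← hW]
    ring
  refine (ext_mk W hW0 (fun x => ⟨fun h => ?_, fun h => ?_⟩) (fun x y => ?_)
    fun x y => ?_).imp fun w' h => ⟨h.1, fun a => by
      simpa [h.2] using key (algebraMap A K a) a 1 (by simp)⟩
  · have h1 := hW x
    rw [h, zero_mul, eq_comm, w.eq_zero] at h1
    have h2 := e x
    rw [h1, map_zero] at h2
    exact (mul_eq_zero.1 h2).resolve_right
      ((map_ne_zero_iff _ (IsFractionRing.injective A K)).2 (hq x))
  · simpa using key x 0 1 (by simp [h])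
  · apply mul_right_cancel₀ (w.pos (mul_ne_zero (hq x) (hq y))).ne'
    rw [key (x * y) (p x * p y) _ (by rw [map_mul, map_mul, ← e, ← e]; ring), map_mul, map_mul,
      ← hW, ← hW]
    ring
  · refine le_of_mul_le_mul_right ?_ (w.pos (mul_ne_zero (hq x) (hq y)))
    rw [key (x + y) (p x * q y + p y * q x) _ (by
      rw [map_add, map_mul, map_mul, map_mul, ← e, ← e]; ring), max_mul_of_nonneg _ _ (w.nonneg _)]
    refine (hw _ _).trans_eq ?_
    rw [map_mul, map_mul, map_mul, ← hW, ← hW]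
    exact congrArg₂ max (by ring) (by ring)

theorem ext_dom {A L : Type*} [CommRing A] [IsDomain A] [Field L] [Algebra A L] [FaithfulSMul A L]
    [Algebra.IsAlgebraic A L] {w : AbsoluteValue A ℝ} (hw : NA w) :
    ∃ w' : AbsoluteValue L ℝ, NA w' ∧ ∀ a, w' (algebraMap A L a) = w a := by
  obtain ⟨w1, h1, e1⟩ := ext_frac (K := FractionRing A) hw
  let _ : Algebra (FractionRing A) L := FractionRing.liftAlgebra A L
  have := FractionRing.isScalarTower_liftAlgebra A L
  have : Algebra.IsAlgebraic (FractionRing A) L :=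
    Algebra.IsAlgebraic.extendScalars (IsFractionRing.injective A (FractionRing A))
  obtain ⟨w2, h2, e2⟩ := ext_alg (L := L) h1
  exact ⟨w2, h2, fun a => by rw [IsScalarTower.algebraMap_apply A (FractionRing A) L, e2, e1]⟩

lemma ext_hom {R A L : Type*} [CommRing R] [CommRing A] [IsDomain A] [Field L] [Algebra R A]
    [Algebra R L] (φ : A →ₐ[R] L) (hφ : Function.Injective φ)
    (h : ∀ a : L, IsAlgebraic φ.range a) {w : AbsoluteValue A ℝ} (hw : NA w) :
    ∃ w' : AbsoluteValue L ℝ, NA w' ∧ ∀ a, w' (φ a) = w a := by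
  let _ : Algebra A L := (φ : A →+* L).toAlgebra
  have : FaithfulSMul A L := (faithfulSMul_iff_algebraMap_injective A L).2 hφ
  have : Algebra.IsAlgebraic A L := ⟨fun a =>
    IsAlgebraic.of_ringHom_of_comp_eq (φ.rangeRestrict : A →+* φ.range) (RingHom.id L) (h a)
      φ.rangeRestrict_surjective Function.injective_id (RingHom.ext fun _ => rfl)⟩
  exact ext_dom hw

/-- The Gauss norm as an absolute value. -/
lemma ext_gn {R : Type*} [CommRing R] {w : AbsoluteValue R ℝ} (hw : NA w) {c : ℝ} (hc : 0 < c) :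
    ∃ g : AbsoluteValue R[X] ℝ, NA g ∧ (∀ i a, g (Polynomial.monomial i a) = w a * c ^ i) ∧
      ∀ (P : R[X]) i, w (P.coeff i) * c ^ i ≤ g P :=
  ⟨@IsAbsoluteValue.toAbsoluteValue _ _ _ _ _ (Polynomial.gaussNorm w c)
      (Polynomial.gaussNorm_isAbsoluteValue hw hc),
    Polynomial.isNonarchimedean_gaussNorm w hw hc.le, Polynomial.gaussNorm_monomial w c,
    fun P i => Polynomial.le_gaussNorm w P hc.le i⟩

theorem ext_gauss {K L : Type*} [Field K] [Field L] [Algebra K L] {y : L}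
    (hy : Transcendental K y) (hL : ∀ a : L, IsAlgebraic (IntermediateField.adjoin K {y}) a)
    {w : AbsoluteValue K ℝ} (hw : NA w) {c : ℝ} (hc : 0 < c) :
    ∃ w' : AbsoluteValue L ℝ, NA w' ∧ (∀ a, w' (algebraMap K L a) = w a) ∧ w' y = c ∧
      ∀ (P : K[X]) (i : ℕ), w' (algebraMap K L (P.coeff i) * y ^ i) ≤ w' (Polynomial.aeval y P) := by
  obtain ⟨g, g1, g2, g3⟩ := ext_gn hw hc
  obtain ⟨w', h1, h2⟩ := ext_hom (Polynomial.aeval y) (transcendental_iff_injective.1 hy)
    (fun a => by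
      rw [← Algebra.adjoin_singleton_eq_range_aeval]
      exact IntermediateField.isAlgebraic_adjoin_iff.1 (hL a)) g1
  have h3 : ∀ a i, w' (algebraMap K L a * y ^ i) = w a * c ^ i := fun a i => by
    rw [← Polynomial.aeval_monomial, h2, g2]
  refine ⟨w', h1, fun a => by simpa using h3 a 0, by simpa using h3 1 1, fun P i => ?_⟩
  rw [h3, h2]
  exact g3 P i

theorem mono_cons {K L : Type*} [Field K] [Field L] [Algebra ℂ K] [Algebra ℂ L] [Algebra K L]
    [IsScalarTower ℂ K L] {w : AbsoluteValue L ℝ} {n : ℕ} {y : Fin n → K}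
    (h : Mono (pb w (algebraMap K L)) y) {t : L} (ht : t ≠ 0)
    (hg : ∀ (P : K[X]) (i : ℕ),
      w (algebraMap K L (P.coeff i) * t ^ i) ≤ w (Polynomial.aeval t P)) :
    Mono w (Fin.cons t fun i => algebraMap K L (y i) : Fin (n + 1) → L) := by
  refine ⟨fun i => Fin.cases ht (fun j => (map_ne_zero (algebraMap K L)).2 (h.1 j)) i,
    fun Q d hd => ?_⟩
  have e : ∀ Q : MvPolynomial (Fin (n + 1)) ℂ, Polynomial.aeval t
      ((finSuccEquiv ℂ n Q).map (aeval y : MvPolynomial (Fin n) ℂ →ₐ[ℂ] K).toRingHom) =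
      aeval (Fin.cons t fun i => algebraMap K L (y i) : Fin (n + 1) → L) Q := by
    intro Q
    induction Q using MvPolynomial.induction_on with
    | C a => simp [finSuccEquiv_apply, ← IsScalarTower.algebraMap_apply]
    | add p q hp hq => simp only [map_add, Polynomial.map_add, hp, hq]
    | mul_X p i hp =>
      simp only [map_mul, Polynomial.map_mul, hp]
      refine congrArg (_ * ·) ?_
      refine Fin.cases ?_ (fun j => ?_) i
      · simp [finSuccEquiv_X_zero]
      · simp [finSuccEquiv_X_succ]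
  have h1 := h.2 ((finSuccEquiv ℂ n Q).coeff (d 0)) d.tail
    (mem_support_coeff_finSuccEquiv.2 (by rwa [Finsupp.cons_tail]))
  rw [← e]
  refine le_trans ?_ (hg _ (d 0))
  rw [Finsupp.prod_fintype _ _ fun _ => pow_zero _] at h1 ⊢
  rw [Fin.prod_univ_succ, map_mul, map_mul, mul_comm, Polynomial.coeff_map]
  refine mul_le_mul_of_nonneg_right (le_trans (le_of_eq ?_) h1) (w.nonneg _)
  simp [Finsupp.tail_apply]

lemma ext_fin (n : ℕ) : ∀ c : Fin n → ℝ, (∀ i, 0 < c i) →
    ∃ w : AbsoluteValue (MvPolynomial (Fin n) ℂ) ℝ, NA w ∧ (∀ i, w (X i) = c i) ∧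
      ∀ Q : MvPolynomial (Fin n) ℂ, ∀ d ∈ Q.support, ∏ i, c i ^ d i ≤ w Q := by
  classical
  induction n with
  | zero =>
    refine fun c _ => ⟨AbsoluteValue.trivial, fun a b => ?_, fun i => i.elim0, fun Q d hd => ?_⟩
    · rcases eq_or_ne a 0 with rfl | ha
      · simp
      rcases eq_or_ne (a + b) 0 with h | h
      · simp [h]
      · simp [h, ha]
    · simp [support_nonempty.1 ⟨d, hd⟩]
  | succ n ih =>
    intro c hc
    obtain ⟨w, w1, w2, w3⟩ := ih (fun i => c i.succ) fun i => hc _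
    obtain ⟨g, g1, g2, g3⟩ := ext_gn w1 (hc 0)
    obtain ⟨w', h1, h2⟩ := ext_mk (fun Q => g (finSuccEquiv ℂ n Q)) (fun _ => g.nonneg _)
      (fun _ => by simp) (fun _ _ => by simp) fun _ _ => by simpa only [map_add] using g1 _ _
    refine ⟨w', h1, fun i => ?_, fun Q d hd => ?_⟩
    · rw [h2]
      refine Fin.cases ?_ (fun j => ?_) i
      · rw [finSuccEquiv_X_zero, ← Polynomial.monomial_one_one_eq_X, g2, map_one, one_mul, pow_one]
      · rw [finSuccEquiv_X_succ, ← Polynomial.monomial_zero_left, g2, w2, pow_zero, mul_one]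
    · rw [h2, Fin.prod_univ_succ, mul_comm]
      refine le_trans ?_ (g3 _ (d 0))
      exact mul_le_mul_of_nonneg_right (w3 _ d.tail
        (mem_support_coeff_finSuccEquiv.2 (by rwa [Finsupp.cons_tail]))) (pow_nonneg (hc 0).le _)

theorem ext_mono {L ι : Type*} [Field L] [Algebra ℂ L] [Finite ι] {y : ι → L}
    (hy : IsTranscendenceBasis ℂ y) {c : ι → ℝ} (hc : ∀ i, 0 < c i) :
    ∃ w : AbsoluteValue L ℝ, NA w ∧ Mono w y ∧ ∀ i, w (y i) = c i := by
  obtain ⟨n, ⟨e⟩⟩ := Finite.exists_equiv_fin ι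
  have := Fintype.ofFinite ι
  obtain ⟨w0, a1, a2, a3⟩ := ext_fin n (fun j => c (e.symm j)) fun j => hc _
  obtain ⟨w1, b1, b2⟩ := ext_mk (fun Q : MvPolynomial ι ℂ => w0 (rename e Q)) (fun _ => w0.nonneg _)
    (fun _ => by rw [w0.eq_zero, map_eq_zero_iff _ (rename_injective _ e.injective)])
    (fun _ _ => by simp) fun _ _ => by simpa only [map_add] using a1 _ _
  obtain ⟨w, h1, h2⟩ := ext_hom (aeval y) hy.1 (fun a => by
    rw [← Algebra.adjoin_range_eq_range_aeval]
    exact hy.isAlgebraic.1 a) b1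
  have h3 : ∀ i, w (y i) = c i := fun i => by
    rw [← aeval_X (R := ℂ) y i, h2, b2, rename_X, a2, e.symm_apply_apply]
  refine ⟨w, h1, ⟨fun i => w.pos_iff.1 (h3 i ▸ hc i), fun Q d hd => ?_⟩, h3⟩
  have h4 := a3 (rename e Q) (d.mapDomain e) (by
    rwa [mem_support_iff, coeff_rename_mapDomain _ e.injective, ← mem_support_iff])
  rw [h2, b2, Finsupp.prod_fintype _ _ fun _ => pow_zero _, map_prod]
  refine le_trans (le_of_eq ?_) h4
  rw [← e.prod_comp]
  refine Finset.prod_congr rfl fun i _ => ?_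
  rw [map_pow, h3, e.symm_apply_apply, Finsupp.mapDomain_apply e.injective]

theorem ext_indep {L ι : Type*} [Field L] [Algebra ℂ L] [Fintype ι] {y : ι → L}
    (hy : IsTranscendenceBasis ℂ y) : ∃ w : AbsoluteValue L ℝ, NA w ∧ Mono w y ∧
      ∀ k : ι → ℤ, ∑ i, k i * Real.log (w (y i)) = 0 → k = 0 := by
  obtain ⟨s, hs⟩ := exists_linearIndependent_of_le_rank (R := ℚ) (M := ℝ) (n := Fintype.card ι)
    (by
      rw [Real.rank_rat_real]
      exact Cardinal.natCast_lt_aleph0.le.trans Cardinal.aleph0_le_continuum)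
  have hs' := hs.comp _ (Fintype.equivFin ι).injective
  obtain ⟨w, h1, h2, h3⟩ :=
    ext_mono hy (c := fun i => Real.exp (s (Fintype.equivFin ι i))) fun _ => Real.exp_pos _
  refine ⟨w, h1, h2, fun k hk => funext fun i => ?_⟩
  have := Fintype.linearIndependent_iff.1 hs' (fun i => (k i : ℚ)) (by
    simpa [h3, Rat.smul_def] using hk) i
  exact_mod_cast this

end Pool.Agent.Lib.MP_bc3ae6_ag
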