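import Pool.Agent.Lib.MP_bc3ae6_ag.V1

set_option autoImplicit false
set_option linter.unusedSectionVars false

/-! Newton polygon matching: a seminorm `N` and a non-archimedean absolute value `w` which almost
agree on finitely many elements of `K` almost agree, after a conjugation, on a given finite subset
of the algebraic closure. -/

namespace Pool.Agent.Lib.MP_bc3ae6_ag

open Set
open scoped Polynomial

namespace VMatch

section A

variable {L : Type*} [Field L] {w : AbsoluteValue L ℝ} {O : Subring L} {N : L → ℝ}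

lemma qa_pow (hN : QA O N) {a : L} (ha : a ∈ O) (k : ℕ) : N (a ^ k) = N a ^ k := by
  induction k with
  | zero => simpa using hN.one
  | succ k ih => rw [pow_succ, hN.mul _ (pow_mem ha k) _ ha, ih, pow_succ]

lemma qa_sum (hN : QA O N) {ι : Type*} (s : Finset ι) {g : ι → L} (hg : ∀ i, g i ∈ O) :
    N (∑ i ∈ s, g i) ≤ ∑ i ∈ s, N (g i) := by
  classical
  induction s using Finset.induction_on with
  | empty => simp [hN.zero]
  | insert i s hi ih =>
    rw [Finset.sum_insert hi, Finset.sum_insert hi]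
    exact (hN.add _ (hg i) _ (sum_mem fun j _ => hg j)).trans (by linarith)

lemma qa_prod (hN : QA O N) {ι : Type*} (s : Finset ι) {g : ι → L} (hg : ∀ i, g i ∈ O) :
    N (∏ i ∈ s, g i) = ∏ i ∈ s, N (g i) := by
  classical
  induction s using Finset.induction_on with
  | empty => simp [hN.one]
  | insert i s hi ih =>
    rw [Finset.prod_insert hi, Finset.prod_insert hi,
      hN.mul _ (hg i) _ (prod_mem fun j _ => hg j), ih]

lemma gauss_lin {r : ℝ} (hr : 0 < r) (b : L) :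
    (Polynomial.X - Polynomial.C b).gaussNorm w r = max r (w b) := by
  refine le_antisymm ?_ (max_le ?_ ?_)
  · obtain ⟨i, hi⟩ := (Polynomial.X - Polynomial.C b).exists_eq_gaussNorm w r
    rw [hi]
    rcases i with _ | _ | i
    · simp
    · simp
    · simp [Polynomial.coeff_X, hr.le]
  · have := (Polynomial.X - Polynomial.C b).le_gaussNorm w hr.le 1
    simpa using this
  · have := (Polynomial.X - Polynomial.C b).le_gaussNorm w hr.le 0
    simpa using this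

lemma gauss_key (hw : NA w) {ρ C : ℝ} (hρ : 0 < ρ) (hC : 1 ≤ C) (s : Multiset L)
    (hs : ∀ b ∈ s, ¬Ap C ρ (w b)) :
    (s.map fun b => Polynomial.X - Polynomial.C b).prod.gaussNorm w (ρ / C) *
      (s.map fun b => Polynomial.X - Polynomial.C b).prod.gaussNorm w (C * ρ) =
      (s.map fun b => Polynomial.X - Polynomial.C b).prod.gaussNorm w ρ ^ 2 := by
  have hC0 : 0 < C := by linarith
  have h1 : 0 < ρ / C := by positivity
  have h2 : 0 < C * ρ := by positivity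
  have h3 : ρ / C ≤ ρ := div_le_self hρ.le hC
  have h4 : ρ ≤ C * ρ := le_mul_of_one_le_left hρ.le hC
  induction s using Multiset.induction_on with
  | empty =>
    rw [Multiset.map_zero, Multiset.prod_zero, ← Polynomial.C_1, Polynomial.gaussNorm_C,
      Polynomial.gaussNorm_C, Polynomial.gaussNorm_C, sq]
  | cons b s ih =>
    rw [Multiset.map_cons, Multiset.prod_cons, Polynomial.gaussNorm_mul hw h1,
      Polynomial.gaussNorm_mul hw h2, Polynomial.gaussNorm_mul hw hρ, gauss_lin h1, gauss_lin h2,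
      gauss_lin hρ, mul_pow, ← ih fun c hc => hs c (Multiset.mem_cons_of_mem hc)]
    have h5 : max (ρ / C) (w b) * max (C * ρ) (w b) = max ρ (w b) ^ 2 := by
      rcases not_and_or.1 (hs b (Multiset.mem_cons_self _ _)) with h | h
      · have h6 : w b ≤ ρ / C := by rw [le_div_iff₀ hC0]; linarith [not_le.1 h]
        rw [max_eq_left h6, max_eq_left (h6.trans (h3.trans h4)), max_eq_left (h6.trans h3)]
        field_simp
      · have h6 := (not_le.1 h).le
        rw [max_eq_right h6, max_eq_right (h3.trans (h4.trans h6)), max_eq_right (h4.trans h6), sq]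
    rw [← h5]; ring

/-- Two of the terms of a vanishing sum are comparable with the largest one. -/
lemma two_big (hN : QA O N) {n : ℕ} {g : ℕ → L} (hg : ∀ i, g i ∈ O) (h0 : 0 < N (g 0))
    (hs : ∑ i ∈ Finset.range (n + 1), g i = 0) : ∃ μ : ℝ, 0 < μ ∧ (∀ i ≤ n, N (g i) ≤ μ) ∧
      ∃ j j', j < j' ∧ μ ≤ n * N (g j) ∧ μ ≤ n * N (g j') := by
  obtain ⟨j, hj, h1⟩ := (Finset.range (n + 1)).exists_max_image (fun i => N (g i)) ⟨0, by simp⟩
  have hμ : 0 < N (g j) := h0.trans_le (h1 0 (by simp))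
  have h2 : N (g j) ≤ ∑ i ∈ (Finset.range (n + 1)).erase j, N (g i) := by
    rw [← Finset.add_sum_erase _ _ hj, add_eq_zero_iff_eq_neg] at hs
    rw [hs, hN.neg]
    exact qa_sum hN _ hg
  have h3 : ((Finset.range (n + 1)).erase j).Nonempty := by
    rw [Finset.nonempty_iff_ne_empty]
    intro h
    rw [h, Finset.sum_empty] at h2
    linarith
  obtain ⟨l, hl, h4⟩ := Finset.exists_max_image _ (fun i => N (g i)) h3
  have h5 : N (g j) ≤ n * N (g l) := by
    refine h2.trans ((Finset.sum_le_card_nsmul _ _ _ h4).trans_eq ?_)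
    rw [Finset.card_erase_of_mem hj, Finset.card_range, nsmul_eq_mul, Nat.add_sub_cancel]
  have h6 : (1 : ℝ) ≤ n := by
    have := h3.card_pos
    rw [Finset.card_erase_of_mem hj, Finset.card_range, Nat.add_sub_cancel] at this
    exact_mod_cast this
  have h7 : N (g j) ≤ n * N (g j) := le_mul_of_one_le_left hμ.le h6
  refine ⟨N (g j), hμ, fun i hi => h1 i (by simp; omega), ?_⟩
  rcases (Finset.ne_of_mem_erase hl).lt_or_gt with h | h
  · exact ⟨l, j, h, h5, h7⟩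
  · exact ⟨j, l, h, h7, h5⟩

lemma arith {μ C₀ D C x y ρ : ℝ} {j j' : ℕ} (hμ : 0 < μ) (hC : 1 ≤ C)
    (hρ : 0 < ρ) (hx : 0 ≤ x) (hy : 0 ≤ y) (hj : j < j') (h1 : μ ≤ D * (C₀ * x * ρ ^ j))
    (h2 : μ ≤ D * (C₀ * y * ρ ^ j'))
    (h3 : x * (ρ / C) ^ j * (y * (C * ρ) ^ j') ≤ (C₀ * μ) ^ 2) : C ≤ D ^ 2 * C₀ ^ 4 := by
  have hC0 : 0 < C := by linarith
  obtain ⟨k, rfl⟩ := Nat.exists_eq_add_of_lt hj
  have h4 : x * (ρ / C) ^ j * (y * (C * ρ) ^ (j + k + 1))
      = x * ρ ^ j * (y * ρ ^ (j + k + 1)) * (C ^ k * C) := by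
    rw [div_pow, mul_pow]; field_simp; ring
  have h5 : C ≤ C ^ k * C := le_mul_of_one_le_left hC0.le (one_le_pow₀ hC)
  have h6 : μ * μ ≤ D * (C₀ * x * ρ ^ j) * (D * (C₀ * y * ρ ^ (j + k + 1))) :=
    mul_le_mul h1 h2 hμ.le (hμ.le.trans h1)
  have h7 : x * ρ ^ j * (y * ρ ^ (j + k + 1)) * C ≤ (C₀ * μ) ^ 2 :=
    le_trans (by gcongr) (h4 ▸ h3)
  refine le_of_mul_le_mul_left ?_ (mul_pos hμ hμ)
  calc μ * μ * C ≤ D * (C₀ * x * ρ ^ j) * (D * (C₀ * y * ρ ^ (j + k + 1))) * C := by gcongr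
    _ = (D * C₀) ^ 2 * (x * ρ ^ j * (y * ρ ^ (j + k + 1)) * C) := by ring
    _ ≤ (D * C₀) ^ 2 * (C₀ * μ) ^ 2 := by gcongr
    _ = _ := by ring

end A

lemma ap_log {C r s : ℝ} (hr : 0 < r) (hs : 0 < s) (h : Ap C r s) :
    |Real.log r - Real.log s| ≤ Real.log C := by
  have hC : 0 < C := (mul_pos_iff_of_pos_right hs).1 (hr.trans_le h.1)
  have h1 := Real.log_le_log hr h.1
  have h2 := Real.log_le_log hs h.2
  rw [Real.log_mul hC.ne' hs.ne'] at h1
  rw [Real.log_mul hC.ne' hr.ne'] at h2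
  rw [abs_le]; constructor <;> linarith

lemma ap_exp {B r s : ℝ} (hr : 0 < r) (hs : 0 < s) (h : |Real.log r - Real.log s| ≤ B) :
    Ap (Real.exp B) r s := by
  rw [abs_le] at h
  constructor
  · rw [← Real.exp_log hr, ← Real.exp_log hs, ← Real.exp_add, Real.exp_le_exp]; linarith
  · rw [← Real.exp_log hr, ← Real.exp_log hs, ← Real.exp_add, Real.exp_le_exp]; linarith

lemma ev_eq {C r t : ℝ} (hr : 0 < r) (ht : 0 < t) :
    ∀ᶠ s : ℝ in Filter.atTop, Ap C (r ^ s) (t ^ s) → t = r := by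
  by_cases h : t = r
  · exact Filter.Eventually.of_forall fun _ _ => h
  have h1 : 0 < |Real.log r - Real.log t| :=
    abs_pos.2 (sub_ne_zero.2 fun h' => h (Real.log_injOn_pos ht hr h'.symm))
  filter_upwards [Filter.eventually_gt_atTop (Real.log C / |Real.log r - Real.log t|),
    Filter.eventually_gt_atTop 0] with s h2 h3 h4
  have h5 := ap_log (Real.rpow_pos_of_pos hr s) (Real.rpow_pos_of_pos ht s) h4
  rw [Real.log_rpow hr, Real.log_rpow ht, ← mul_sub, abs_mul, abs_of_pos h3] at h5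
  rw [div_lt_iff₀ h1] at h2
  linarith

end VMatch

open VMatch

theorem match_one (d : ℕ) {C₀ : ℝ} (hC : 1 ≤ C₀) {L : Type*} [Field L] [IsAlgClosed L]
    {w : AbsoluteValue L ℝ} (hw : NA w) {O : Subring L} {N : L → ℝ} (hN : QA O N) {P : L[X]}
    (hP : P.Monic) (hd : P.natDegree ≤ d) (h0 : P.coeff 0 ≠ 0)
    (h : ∀ i, P.coeff i ≠ 0 → P.coeff i ∈ O ∧ Ap C₀ (N (P.coeff i)) (w (P.coeff i))) {a : L}
    (ha : P.eval a = 0) :
    a ∈ O ∧ ∃ b, P.eval b = 0 ∧ Ap (d ^ 2 * C₀ ^ 4 + 1) (N a) (w b) := by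
  have h' : ∀ i, P.coeff i ∈ O ∧ Ap C₀ (N (P.coeff i)) (w (P.coeff i)) := fun i => by
    by_cases hi : P.coeff i = 0
    · rw [hi, hN.zero, map_zero]; exact ⟨zero_mem _, Ap.refl hC le_rfl⟩
    · exact h i hi
  have hO : (↑P.coeffs : Set L) ⊆ O := fun c hc => by
    obtain ⟨i, -, rfl⟩ := Polynomial.mem_coeffs_iff.1 hc
    exact (h' i).1
  have haO : a ∈ O := hN.int a ⟨P.toSubring O hO, (P.monic_toSubring O hO).2 hP, by
    rw [Polynomial.eval₂_eq_eval_map]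
    exact (congrArg (Polynomial.eval a) (P.map_toSubring O hO)).trans ha⟩
  refine ⟨haO, by_contra fun hc => ?_⟩
  have ht : ∀ i, N (P.coeff i * a ^ i) = N (P.coeff i) * N a ^ i := fun i => by
    rw [hN.mul _ (h' i).1 _ (pow_mem haO i), qa_pow hN haO]
  obtain ⟨μ, hμ, h1, j, j', hj, h2, h3⟩ := two_big hN (g := fun i => P.coeff i * a ^ i)
    (n := P.natDegree) (fun i => mul_mem (h' i).1 (pow_mem haO i))
    (by simpa using (h' 0).2.pos (hN.nonneg _) (w.pos h0))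
    ((Polynomial.eval_eq_sum_range a).symm.trans ha)
  simp only [ht] at h1 h2 h3
  have hρ : 0 < N a := (hN.nonneg a).lt_of_ne fun h4 => by
    rw [← h4, zero_pow (by omega), mul_zero, mul_zero] at h3
    linarith
  have hC1 : (1 : ℝ) ≤ d ^ 2 * C₀ ^ 4 + 1 := le_add_of_nonneg_left (by positivity)
  have h4 := gauss_key hw hρ hC1 P.roots fun b hb hb' =>
    hc ⟨b, (Polynomial.mem_roots hP.ne_zero).1 hb, hb'⟩
  rw [← (IsAlgClosed.splits P).eq_prod_roots_of_monic hP] at h4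
  have h5 : P.gaussNorm w (N a) ≤ C₀ * μ := by
    obtain ⟨i, hi⟩ := P.exists_eq_gaussNorm w (N a)
    rw [hi]
    rcases le_or_gt i P.natDegree with h6 | h6
    · calc _ ≤ C₀ * N (P.coeff i) * N a ^ i := by gcongr; exact (h' i).2.2
        _ ≤ _ := by rw [mul_assoc]; gcongr; exact h1 i h6
    · rw [Polynomial.coeff_eq_zero_of_natDegree_lt h6, map_zero, zero_mul]; positivity
  have hd' : (P.natDegree : ℝ) ≤ d := by exact_mod_cast hd
  have h6 : ∀ i, μ ≤ P.natDegree * (N (P.coeff i) * N a ^ i) →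
      μ ≤ d * (C₀ * w (P.coeff i) * N a ^ i) := fun i hi => hi.trans (by
    have := hN.nonneg (P.coeff i)
    gcongr
    exact (h' i).2.1)
  have h7 : 0 ≤ N a / (d ^ 2 * C₀ ^ 4 + 1) := by positivity
  have h8 : 0 ≤ (d ^ 2 * C₀ ^ 4 + 1) * N a := by positivity
  have := arith hμ hC1 hρ (w.nonneg _) (w.nonneg _) hj (h6 j h2)
    (h6 j' h3) ((mul_le_mul (P.le_gaussNorm w h7 j) (P.le_gaussNorm w h8 j') (by positivity)
      (P.gaussNorm_nonneg w h7)).trans (h4.trans_le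
        (pow_le_pow_left₀ (P.gaussNorm_nonneg w hρ.le) h5 2)))
  linarith

theorem vander (k S : ℕ) : ∃ c : ℝ, 0 ≤ c ∧ ∀ (T : Finset ℕ) (x : Fin k → ℝ) (B : ℝ),
    (∀ s ∈ T, s < S) → k ≤ T.card → (∀ s ∈ T, |∑ j : Fin k, (s : ℝ) ^ (j : ℕ) * x j| ≤ B) →
    ∀ j, |x j| ≤ c * B := by
  let V : (Fin k → Fin S) → Matrix (Fin k) (Fin k) ℝ :=
    fun u => Matrix.vandermonde fun i => ((u i : ℕ) : ℝ)
  refine ⟨∑ u, ∑ j, ∑ i, |(V u)⁻¹ j i|, by positivity, fun T x B hS hk hB j => ?_⟩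
  let u : Fin k → Fin S := fun i => ⟨T.orderEmbOfCardLe hk i, hS _ (T.orderEmbOfCardLe_mem hk i)⟩
  have h1 : (V u).det ≠ 0 := Matrix.det_vandermonde_ne_zero_iff.2 fun i i' h =>
    (T.orderEmbOfCardLe hk).injective (by simpa [u] using h)
  have h2 : ∀ i, |(V u).mulVec x i| ≤ B := fun i => hB _ (T.orderEmbOfCardLe_mem hk i)
  have hB0 : 0 ≤ B := (abs_nonneg _).trans (h2 j)
  have h3 : x = (V u)⁻¹.mulVec ((V u).mulVec x) := by
    rw [Matrix.mulVec_mulVec, Matrix.nonsing_inv_mul _ (isUnit_iff_ne_zero.2 h1),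
      Matrix.one_mulVec]
  calc |x j| = |∑ i, (V u)⁻¹ j i * (V u).mulVec x i| := congrArg (fun y => |y j|) h3
    _ ≤ ∑ i, |(V u)⁻¹ j i| * B := (Finset.abs_sum_le_sum_abs _ _).trans
      (Finset.sum_le_sum fun i _ => by rw [abs_mul]; gcongr; exact h2 i)
    _ ≤ _ := by
      rw [← Finset.sum_mul]
      gcongr
      refine le_trans ?_ (Finset.single_le_sum (f := fun u => ∑ j, ∑ i, |(V u)⁻¹ j i|)
        (fun _ _ => by positivity) (Finset.mem_univ u))
      exact Finset.single_le_sum (f := fun j => ∑ i, |(V u)⁻¹ j i|)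
        (fun _ _ => by positivity) (Finset.mem_univ j)

variable {K L : Type*} [Field K] [Field L] [Algebra K L] [IsAlgClosed L] [Algebra.IsAlgebraic K L]

namespace VMatch

lemma orbit_finite (F : Finset L) : {x | ∃ a ∈ F, ∃ τ : L ≃ₐ[K] L, τ a = x}.Finite := by
  refine (F.finite_toSet.biUnion fun a _ => (minpoly K a).rootSet_finite L).subset ?_
  rintro _ ⟨a, ha, τ, rfl⟩
  refine mem_biUnion ha (Polynomial.mem_rootSet.2
    ⟨minpoly.ne_zero (Algebra.IsAlgebraic.isAlgebraic a).isIntegral, ?_⟩)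
  rw [Polynomial.aeval_algHom_apply, minpoly.aeval, map_zero]

lemma one_conj {d : ℕ} {C₀ : ℝ} (hC : 1 ≤ C₀) {w : AbsoluteValue L ℝ} (hw : NA w) {O : Subring L}
    {N : L → ℝ} (hN : QA O N) {x : L} (hx : x ≠ 0) (hd : (minpoly K x).natDegree ≤ d)
    (h : ∀ c ∈ (minpoly K x).coeffs,
      algebraMap K L c ∈ O ∧ Ap C₀ (N (algebraMap K L c)) (w (algebraMap K L c))) :
    x ∈ O ∧ ∃ σ : L ≃ₐ[K] L, Ap (d ^ 2 * C₀ ^ 4 + 1) (N x) (w (σ x)) := by
  have hi := (Algebra.IsAlgebraic.isAlgebraic (R := K) x).isIntegral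
  have : IsAlgClosure K L := ⟨inferInstance, inferInstance⟩
  obtain ⟨h1, b, h2, h3⟩ := match_one d hC hw hN ((minpoly.monic hi).map (algebraMap K L))
    (Polynomial.natDegree_map_le.trans hd)
    (by rw [Polynomial.coeff_map]; exact (map_ne_zero _).2 (minpoly.coeff_zero_ne_zero hi hx))
    (fun i hi => by
      rw [Polynomial.coeff_map] at hi ⊢
      exact h _ (Polynomial.coeff_mem_coeffs ((map_ne_zero _).1 hi)))
    (a := x) (by rw [Polynomial.eval_map_algebraMap, minpoly.aeval])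
  rw [Polynomial.eval_map_algebraMap] at h2
  obtain ⟨σ, rfl⟩ := minpoly.exists_algEquiv_of_root' hi.isAlgebraic h2
  exact ⟨h1, σ, h3⟩

end VMatch

theorem matching (F : Finset L) (hF : 0 ∉ F) : ∃ E : Finset K, 0 ∉ E ∧ ∀ C₀ : ℝ, 1 ≤ C₀ →
    ∃ C : ℝ, 1 ≤ C ∧ ∀ (w : AbsoluteValue L ℝ) (O : Subring L) (N : L → ℝ), NA w → QA O N →
      (∀ c ∈ E, algebraMap K L c ∈ O ∧ Ap C₀ (N (algebraMap K L c)) (w (algebraMap K L c))) →
      ∃ σ : L ≃ₐ[K] L, ∀ a ∈ F, ∀ τ : L ≃ₐ[K] L,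
        τ a ∈ O ∧ Ap C (N (τ a)) (w (σ (τ a))) := by
  classical
  obtain ⟨k, a, -, ha⟩ := (orbit_finite (K := K) F).fin_param
  have ha0 : ∀ j, a j ≠ 0 := fun j h => by
    obtain ⟨b, hb, τ, h1⟩ := ha ▸ mem_range_self j
    rw [h, map_eq_zero] at h1
    exact hF (h1 ▸ hb)
  let t : Finset (Fin k → L) := Fintype.piFinset fun _ => Finset.univ.image a
  have ht : ∀ σ : L ≃ₐ[K] L, (fun j => σ (a j)) ∈ t := fun σ => Fintype.mem_piFinset.2 fun j => by
    obtain ⟨b, hb, τ, h1⟩ := ha ▸ mem_range_self j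
    have : σ (a j) ∈ range a := ha ▸ ⟨b, hb, τ.trans σ, by rw [← h1]; rfl⟩
    simpa using this
  let g : ℕ → L := fun s => ∏ j : Fin k, a j ^ s ^ (j : ℕ)
  let G : Finset L := Finset.univ.image a ∪ (Finset.range (t.card * k + 1)).image g
  have hG : ∀ x ∈ G, x ≠ 0 := fun x hx => by
    rcases Finset.mem_union.1 hx with h | h <;> obtain ⟨j, -, rfl⟩ := Finset.mem_image.1 h
    · exact ha0 j
    · exact Finset.prod_ne_zero_iff.2 fun i _ => pow_ne_zero _ (ha0 i)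
  obtain ⟨c, hc0, hc⟩ := vander k (t.card * k + 1)
  let d : ℕ := G.sup fun x => (minpoly K x).natDegree
  refine ⟨G.biUnion fun x => (minpoly K x).coeffs, fun h => ?_, fun C₀ hC => ?_⟩
  · obtain ⟨x, -, hx⟩ := Finset.mem_biUnion.1 h
    obtain ⟨i, hi, h1⟩ := Polynomial.mem_coeffs_iff.1 hx
    exact Polynomial.mem_support_iff.1 hi h1.symm
  have hD : (1 : ℝ) ≤ d ^ 2 * C₀ ^ 4 + 1 := le_add_of_nonneg_left (by positivity)
  refine ⟨Real.exp (c * Real.log (d ^ 2 * C₀ ^ 4 + 1)),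
    Real.one_le_exp (mul_nonneg hc0 (Real.log_nonneg hD)), fun w O N hw hN hE => ?_⟩
  have h1 : ∀ x ∈ G, x ∈ O ∧ ∃ σ : L ≃ₐ[K] L, Ap (d ^ 2 * C₀ ^ 4 + 1) (N x) (w (σ x)) :=
    fun x hx => one_conj hC hw hN (hG x hx)
      (Finset.le_sup (f := fun x => (minpoly K x).natDegree) hx)
      fun c hc => hE c (Finset.mem_biUnion.2 ⟨x, hx, hc⟩)
  have h2 : ∀ j, a j ∈ O ∧ 0 < N (a j) := fun j => by
    obtain ⟨h3, σ, h4⟩ := h1 (a j) (by simp [G])
    exact ⟨h3, h4.pos (hN.nonneg _) (w.pos ((map_ne_zero σ).2 (ha0 j)))⟩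
  have h3 : ∀ s, ∃ σ : L ≃ₐ[K] L, s ∈ Finset.range (t.card * k + 1) →
      Ap (d ^ 2 * C₀ ^ 4 + 1) (N (g s)) (w (σ (g s))) := fun s => by
    by_cases hs : s ∈ Finset.range (t.card * k + 1)
    · obtain ⟨-, σ, h4⟩ := h1 (g s) (Finset.mem_union_right _ (Finset.mem_image_of_mem _ hs))
      exact ⟨σ, fun _ => h4⟩
    · exact ⟨AlgEquiv.refl, fun h => (hs h).elim⟩
  choose σ hσ using h3
  obtain ⟨y, -, hy⟩ := Finset.exists_lt_card_fiber_of_mul_lt_card_of_maps_to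
    (s := Finset.range (t.card * k + 1)) (f := fun s j => σ s (a j)) (n := k)
    (fun s _ => ht (σ s)) (by simp)
  obtain ⟨s₀, hs₀⟩ := Finset.card_pos.1 (Nat.zero_lt_of_lt hy)
  have hy0 : ∀ j, σ s₀ (a j) = y j := congrFun (Finset.mem_filter.1 hs₀).2
  have hy1 : ∀ j, 0 < w (y j) := fun j => w.pos (hy0 j ▸ (map_ne_zero _).2 (ha0 j))
  have h4 := hc _ (fun j => Real.log (N (a j)) - Real.log (w (y j)))
    (Real.log (d ^ 2 * C₀ ^ 4 + 1)) (fun s hs => Finset.mem_range.1 (Finset.mem_filter.1 hs).1)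
    hy.le fun s hs => by
      have h5 := hσ s (Finset.mem_filter.1 hs).1
      have h6 : ∀ j, σ s (a j) = y j := congrFun (Finset.mem_filter.1 hs).2
      simp only [g, map_prod, map_pow, h6, qa_prod hN _ fun j => pow_mem (h2 j).1 _,
        qa_pow hN (h2 _).1] at h5
      have h7 := ap_log (Finset.prod_pos fun j _ => pow_pos (h2 j).2 _)
        (Finset.prod_pos fun j _ => pow_pos (hy1 j) _) h5
      rw [Real.log_prod fun j _ => (pow_pos (h2 j).2 _).ne',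
        Real.log_prod fun j _ => (pow_pos (hy1 j) _).ne', ← Finset.sum_sub_distrib] at h7
      simpa only [Real.log_pow, ← mul_sub, Nat.cast_pow] using h7
  refine ⟨σ s₀, fun b hb τ => ?_⟩
  obtain ⟨j, hj⟩ : τ b ∈ range a := ha ▸ ⟨b, hb, τ, rfl⟩
  rw [← hj, hy0]
  exact ⟨(h2 j).1, ap_exp (h2 j).2 (hy1 j) (h4 j)⟩

theorem matching_eq {w₁ w₂ : AbsoluteValue L ℝ} (h₁ : NA w₁) (h₂ : NA w₂)
    (h : ∀ c, w₁ (algebraMap K L c) = w₂ (algebraMap K L c)) (F : Finset L) :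
    ∃ σ : L ≃ₐ[K] L, ∀ a ∈ F, w₂ (σ a) = w₁ a := by
  classical
  obtain ⟨E, -, hE⟩ := matching (K := K) (F.erase 0) (Finset.notMem_erase _ _)
  obtain ⟨C, -, hC⟩ := hE 1 le_rfl
  have h1 : ∀ᶠ s : ℝ in Filter.atTop, ∀ a ∈ F.erase 0,
      ∀ x ∈ {x | ∃ a ∈ F.erase 0, ∃ τ : L ≃ₐ[K] L, τ a = x},
        Ap C (w₁ a ^ s) (w₂ x ^ s) → w₂ x = w₁ a := by
    refine (Filter.eventually_all_finset _).2 fun a ha =>
      (Filter.eventually_all_finite (orbit_finite _)).2 ?_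
    rintro _ ⟨b, hb, τ, rfl⟩
    exact ev_eq (w₁.pos (Finset.ne_of_mem_erase ha))
      (w₂.pos ((map_ne_zero τ).2 (Finset.ne_of_mem_erase hb)))
  obtain ⟨s, h2, hs⟩ := (h1.and (Filter.eventually_gt_atTop 0)).exists
  obtain ⟨σ, hσ⟩ := hC (h₂.pw hs) ⊤ (h₁.pw hs) (h₂.pw_na hs) (qa_top _) fun c _ =>
    ⟨trivial, by rw [NA.pw_apply, NA.pw_apply, h]; exact Ap.refl le_rfl (by positivity)⟩
  refine ⟨σ, fun a ha => ?_⟩
  rcases eq_or_ne a 0 with rfl | h0
  · simp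
  have h3 := Finset.mem_erase.2 ⟨h0, ha⟩
  exact h2 a h3 _ ⟨a, h3, σ, rfl⟩ (hσ a h3 AlgEquiv.refl).2

theorem exists_emb {K' : Type*} [Field K'] [Algebra K K'] [Algebra K' L] [IsScalarTower K K' L]
    [FiniteDimensional K K'] {w₁ w₂ : AbsoluteValue L ℝ} (h₁ : NA w₁) (h₂ : NA w₂)
    (h : ∀ c, w₁ (algebraMap K L c) = w₂ (algebraMap K L c)) :
    ∃ τ : K' →ₐ[K] L, ∀ a, w₂ (τ a) = w₁ (algebraMap K' L a) := by
  classical
  by_contra! hc
  choose f hf using hc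
  obtain ⟨σ, hσ⟩ := matching_eq h₁ h₂ h (Finset.univ.image fun τ => algebraMap K' L (f τ))
  exact hf (σ.toAlgHom.comp (IsScalarTower.toAlgHom K K' L))
    (hσ _ (Finset.mem_image_of_mem _ (Finset.mem_univ _)))

end Pool.Agent.Lib.MP_bc3ae6_ag
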