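import Pool.Agent.Lib.MP_bc3ae6_ag.VDer

set_option autoImplicit false
set_option linter.unusedSectionVars false

/-! Algebraic closures of subfields and approximation on multiplicative closures. -/

namespace Pool.Agent.Lib.MP_bc3ae6_ag

open MvPolynomial Set
open scoped Polynomial

variable {L : Type} [Field L] [Algebra ℂ L]

lemma exists_kill {ι : Type} {x : ι → L} {a : L}
    (ha : IsAlgebraic (Algebra.adjoin ℂ (range x)) a) :
    ∃ P : (MvPolynomial ι ℂ)[X], P ≠ 0 ∧ P.eval₂ (aeval x : _ →ₐ[ℂ] L) a = 0 := by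
  obtain ⟨Q, hQ, h⟩ := ha
  let f : MvPolynomial ι ℂ →ₐ[ℂ] Algebra.adjoin ℂ (range x) := (aeval x).codRestrict _ fun p => by
    rw [Algebra.adjoin_range_eq_range_aeval]; exact ⟨p, rfl⟩
  have hf : Function.Surjective f := fun ⟨b, hb⟩ => by
    rw [Algebra.adjoin_range_eq_range_aeval] at hb
    obtain ⟨p, rfl⟩ := hb
    exact ⟨p, rfl⟩
  obtain ⟨P, rfl⟩ := Polynomial.map_surjective f.toRingHom hf Q
  refine ⟨P, fun h0 => hQ (by simp [h0]), ?_⟩
  rw [Polynomial.aeval_def, Polynomial.eval₂_map] at h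
  exact h

lemma of_kill {ι : Type} {x : ι → L} (hx : AlgebraicIndependent ℂ x) {a : L}
    {P : (MvPolynomial ι ℂ)[X]} (hP : P ≠ 0) (h : P.eval₂ (aeval x : _ →ₐ[ℂ] L) a = 0) :
    IsAlgebraic (Algebra.adjoin ℂ (range x)) a := by
  refine ⟨P.map hx.aevalEquiv.toRingEquiv.toRingHom,
    (Polynomial.map_ne_zero_iff hx.aevalEquiv.injective).2 hP, ?_⟩
  rw [Polynomial.aeval_def, Polynomial.eval₂_map, ← h]
  congr 1

lemma alg_of_sub {S : Subalgebra ℂ L} {K : Type} [Field K] [Algebra K L] (T : IntermediateField K L)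
    (h : ∀ a ∈ S, a ∈ T) {a : L} (ha : IsAlgebraic S a) : IsAlgebraic T a :=
  ha.ringHom_of_comp_eq (S.val.toRingHom.codRestrict T fun a => h a a.2) (RingHom.id L)
    (fun _ _ h => Subtype.ext (congrArg Subtype.val h :)) rfl

lemma alg_of_mem {s : Set L} {a : L} (h : a ∈ s) : IsAlgebraic (Algebra.adjoin ℂ s) a :=
  isAlgebraic_algebraMap (⟨a, Algebra.subset_adjoin h⟩ : Algebra.adjoin ℂ s)

lemma exists_closure [IsAlgClosed L] (s : Set L) : ∃ L' : IntermediateField ℂ L, IsAlgClosed L' ∧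
    (∀ a, a ∈ L' ↔ IsAlgebraic (Algebra.adjoin ℂ s) a) ∧ ∀ a, IsAlgebraic L' a → a ∈ L' := by
  refine ⟨(algebraicClosure (IntermediateField.adjoin ℂ s) L).restrictScalars ℂ,
    (IsAlgClosure.isAlgClosed (IntermediateField.adjoin ℂ s) :
      IsAlgClosed (algebraicClosure (IntermediateField.adjoin ℂ s) L)),
    fun a => mem_algebraicClosure_iff.trans IntermediateField.isAlgebraic_adjoin_iff,
    fun a ha => by_contra fun h => ?_⟩
  exact Transcendental.algebraicClosure (mt mem_algebraicClosure_iff.2 h) ha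

theorem exists_sub [IsAlgClosed L] {n : ℕ} {x : Fin (n + 1) → L} (hx : IsTranscendenceBasis ℂ x) :
    ∃ (L' : Type) (_ : Field L') (_ : Algebra ℂ L') (_ : Algebra L' L) (_ : IsScalarTower ℂ L' L)
      (_ : IsAlgClosed L') (x' : Fin n → L'), IsTranscendenceBasis ℂ x' ∧
      (∀ i, algebraMap L' L (x' i) = x i.succ) ∧ Transcendental L' (x 0) ∧
      (∀ a : L, IsAlgebraic (IntermediateField.adjoin L' {x 0}) a) ∧
      ∀ a : L, IsAlgebraic (Algebra.adjoin ℂ (range fun i : Fin n => x i.succ)) a →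
        ∃ a', algebraMap L' L a' = a := by
  obtain ⟨K, hK, hm, hc⟩ := exists_closure (range fun i : Fin n => x i.succ)
  have h1 : ∀ i : Fin n, x i.succ ∈ K := fun i => (hm _).2 (alg_of_mem ⟨i, rfl⟩)
  have h2 : AlgebraicIndependent ℂ fun i : Fin n => (⟨_, h1 i⟩ : K) :=
    AlgebraicIndependent.of_comp K.val (hx.1.comp _ (Fin.succ_injective n))
  refine ⟨K, inferInstance, inferInstance, inferInstance, inferInstance, hK, fun i => ⟨_, h1 i⟩,
    ?_, fun _ => rfl, fun h => ?_, fun a => ?_, fun a ha => ⟨⟨a, (hm a).2 ha⟩, rfl⟩⟩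
  · refine h2.isTranscendenceBasis_iff_isAlgebraic.2 ⟨fun a => ?_⟩
    obtain ⟨P, hP, h⟩ := exists_kill ((hm a).1 a.2)
    refine of_kill h2 hP ((algebraMap K L).injective ?_)
    rw [Polynomial.hom_eval₂, map_zero, ← h]
    congr 1
    exact RingHom.ext fun p => comp_aeval_apply _ K.val p
  · have := hx.1.transcendental_adjoin (s := range Fin.succ) (i := 0) (by simp)
    rw [← range_comp] at this
    exact this ((hm _).1 (hc _ h))
  · refine alg_of_sub _ (fun b hb => Algebra.adjoin_le (S := ((IntermediateField.adjoin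
      K {x 0}).restrictScalars ℂ).toSubalgebra) (range_subset_iff.2 ?_) hb) (hx.isAlgebraic.1 a)
    intro i
    refine Fin.cases (IntermediateField.mem_adjoin_simple_self K (x 0)) (fun i => ?_) i
    exact (IntermediateField.adjoin K {x 0}).algebraMap_mem ⟨_, h1 i⟩

/-- Units at a point whose value is approximated by `w`. -/
def Pt.U (P : Pt L) (w : AbsoluteValue L ℝ) (C : ℝ) (a : L) : Prop :=
  a ≠ 0 ∧ a ∈ P.O ∧ Ap C ‖P.ev a‖ (w a)

/-- The set `s` controls `a`. -/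
def Ctl (s : Set L) (a : L) : Prop := ∀ C₀ : ℝ, 1 ≤ C₀ → ∃ C : ℝ, 1 ≤ C ∧
  ∀ (P : Pt L) (w : AbsoluteValue L ℝ), (∀ b ∈ s, P.U w C₀ b) → P.U w C a

lemma Pt.U.ne {P : Pt L} {w : AbsoluteValue L ℝ} {C : ℝ} {a : L} (h : P.U w C a) : P.ev a ≠ 0 :=
  norm_pos_iff.1 (h.2.2.pos (norm_nonneg _) (w.pos h.1))

lemma Pt.U.mono {P : Pt L} {w : AbsoluteValue L ℝ} {C C' : ℝ} {a : L} (h : P.U w C a)
    (hC : C ≤ C') : P.U w C' a := ⟨h.1, h.2.1, h.2.2.mono hC (norm_nonneg _) (w.nonneg _)⟩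

namespace Ctl

variable {s t : Set L} {a b : L}

lemma of_mem (h : a ∈ s) : Ctl s a := fun C hC => ⟨C, hC, fun _ _ h' => h' a h⟩

lemma mono (h : Ctl s a) (hs : s ⊆ t) : Ctl t a := fun C hC =>
  (h C hC).imp fun _ h => ⟨h.1, fun P w h' => h.2 P w fun b hb => h' b (hs hb)⟩

lemma one : Ctl s 1 := fun _ _ => ⟨1, le_rfl, fun P w _ => ⟨one_ne_zero, one_mem _, by
  simp [P.ev_one, Ap]⟩⟩

lemma mul (ha : Ctl s a) (hb : Ctl s b) : Ctl s (a * b) := fun C hC => by
  obtain ⟨C1, h1, h2⟩ := ha C hC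
  obtain ⟨C2, h3, h4⟩ := hb C hC
  refine ⟨C1 * C2, one_le_mul_of_one_le_of_one_le h1 h3, fun P w h => ?_⟩
  obtain ⟨h5, h6, h7⟩ := h2 P w h
  obtain ⟨h8, h9, h10⟩ := h4 P w h
  refine ⟨mul_ne_zero h5 h8, mul_mem h6 h9, ?_⟩
  rw [P.ev_mul h6 h9, norm_mul, map_mul]
  exact h7.mul h10 (norm_nonneg _) (w.nonneg _) (norm_nonneg _) (w.nonneg _)

lemma inv (ha : Ctl s a) : Ctl s a⁻¹ := fun C hC => by
  obtain ⟨C1, h1, h2⟩ := ha C hC
  refine ⟨C1, h1, fun P w h => ?_⟩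
  have h3 := h2 P w h
  refine ⟨inv_ne_zero h3.1, P.inv_mem h3.2.1 h3.ne, ?_⟩
  rw [P.ev_inv h3.2.1 h3.ne, norm_inv, map_inv₀]
  exact h3.2.2.inv (norm_pos_iff.2 h3.ne) (w.pos h3.1)

lemma prod {m : Multiset L} (h : ∀ a ∈ m, Ctl s a) : Ctl s m.prod :=
  Multiset.prod_induction _ _ (fun _ _ => mul) one h

lemma fin {E : Finset L} (h : ∀ a ∈ E, Ctl s a) {C₀ : ℝ} (hC : 1 ≤ C₀) : ∃ C : ℝ, 1 ≤ C ∧
    ∀ (P : Pt L) (w : AbsoluteValue L ℝ), (∀ b ∈ s, P.U w C₀ b) → ∀ a ∈ E, P.U w C a := by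
  choose! C h1 h2 using fun a ha => h a ha C₀ hC
  obtain ⟨B, hB⟩ := (E.finite_toSet.image C).bddAbove
  exact ⟨max B 1, le_max_right _ _, fun P w h a ha =>
    (h2 a ha P w h).mono ((hB ⟨a, ha, rfl⟩).trans (le_max_left _ _))⟩

end Ctl

/-- A finite subset of `L'(t)` is controlled by finitely many constants and linear forms. -/
lemma exists_ctl {L' : Type} [Field L'] [Algebra L' L] [IsAlgClosed L'] {t : L}
    (E : Finset (IntermediateField.adjoin L' {t})) (hE : 0 ∉ E) : ∃ A Z : Finset L', 0 ∉ A ∧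
      ∀ c ∈ E, Ctl (algebraMap L' L '' A ∪ (fun z => t - algebraMap L' L z) '' Z) (c : L) := by
  classical
  have h1 : ∀ p : L'[X], p ≠ 0 → Ctl (algebraMap L' L '' ({p.leadingCoeff} : Finset L') ∪
      (fun z => t - algebraMap L' L z) '' p.roots.toFinset) (Polynomial.aeval t p) := fun p hp => by
    have := congrArg (Polynomial.aeval t) (IsAlgClosed.splits p).eq_prod_roots
    rw [this, map_mul, map_multiset_prod, Polynomial.aeval_C]
    refine (Ctl.of_mem (by simp)).mul (Ctl.prod fun a ha => Ctl.of_mem (Or.inr ?_))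
    simpa [eq_comm] using ha
  have h2 : ∀ c : IntermediateField.adjoin L' {t}, c ≠ 0 → ∃ A Z : Finset L', 0 ∉ A ∧
      Ctl (algebraMap L' L '' A ∪ (fun z => t - algebraMap L' L z) '' Z) (c : L) := fun c hc => by
    obtain ⟨p, q, h⟩ := (IntermediateField.mem_adjoin_simple_iff _ _).1 c.2
    have hc' : (c : L) ≠ 0 := fun h => hc (Subtype.ext h)
    have hp : p ≠ 0 := by rintro rfl; simp [hc'] at h
    have hq : q ≠ 0 := by rintro rfl; simp [hc'] at h
    refine ⟨{p.leadingCoeff} ∪ {q.leadingCoeff}, p.roots.toFinset ∪ q.roots.toFinset,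
      by simp [eq_comm (a := (0 : L')), hp, hq], ?_⟩
    rw [h, div_eq_mul_inv]
    refine ((h1 p hp).mono ?_).mul ((h1 q hq).mono ?_).inv <;> gcongr <;> simp
  choose! A Z h3 h4 using h2
  have h5 : ∀ c ∈ E, c ≠ 0 := fun c hc h => hE (h ▸ hc)
  refine ⟨E.biUnion A, E.biUnion Z, by simpa using fun c hc => h3 c (h5 c hc),
    fun c hc => (h4 c (h5 c hc)).mono ?_⟩
  gcongr <;> exact Finset.subset_biUnion_of_mem _ hc

end Pool.Agent.Lib.MP_bc3ae6_ag
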