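import Pool.Agent.Lib.MP_bc3ae6_ag.VM
import Pool.Agent.Lib.MP_bc3ae6_ag.VSub
import Pool.Agent.Lib.MP_bc3ae6_ag.VExt
import Pool.Agent.Lib.MP_bc3ae6_ag.VMatch
import Pool.Agent.Lib.MP_bc3ae6_ag.VPt

set_option autoImplicit false
set_option linter.unusedSectionVars false

/-! Complex points close to a prime divisor. -/

namespace Pool.Agent.Lib.MP_bc3ae6_ag

open MvPolynomial Set Real Filter Topology

lemma exists_unif_ap {ι : Type} [Finite ι] (i : ι) (S : Finset (MvPolynomial ι ℂ)) (hS : 0 ∉ S)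
    {K : Type} [Field K] [Algebra ℂ K] {v : AddValuation K (WithTop ℤ)} {p : ι → K}
    (h1 : v (p i) = 1) (h2 : ∀ Q : MvPolynomial ι ℂ, Q ≠ 0 → i ∉ Q.vars → v (aeval p Q) = 0) :
    ∃ (b : ι → ℂ) (C : ℝ), b i = 0 ∧ 1 ≤ C ∧ ∀ᶠ u in 𝓝 b, ∀ Q ∈ S,
      Ap C ‖eval u Q‖ (‖u i‖ ^ ov v (aeval p Q)) := by
  classical
  choose! k Q₀ R h3 h4 h5 using fun Q (hQ : Q ∈ S) => exists_split i (Q := Q) fun h => hS (h ▸ hQ)
  obtain ⟨b', hb'⟩ : ∃ b', eval b' (∏ Q ∈ S, Q₀ Q) ≠ 0 := by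
    by_contra! h
    exact Finset.prod_ne_zero_iff.2 h4 (MvPolynomial.funext fun x => by rw [h, map_zero])
  have h6 : ∀ Q ∈ S, ∃ C, ∀ᶠ u in 𝓝 (Function.update b' i 0),
      Ap C ‖eval u (Q₀ Q + X i * R Q)‖ 1 := fun Q hQ => by
    have h7 : 0 < ‖eval (Function.update b' i 0) (Q₀ Q + X i * R Q)‖ := by
      have : eval (Function.update b' i 0) (Q₀ Q) = eval b' (Q₀ Q) :=
        eval₂Hom_congr' rfl (fun j hj _ => Function.update_of_ne (by
          rintro rfl; exact h5 Q hQ hj) _ _) rfl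
      simpa [this] using Finset.prod_ne_zero_iff.1 (map_prod (eval b') _ _ ▸ hb') Q hQ
    have h8 := (continuous_eval (Q₀ Q + X i * R Q)).norm.continuousAt (x := Function.update b' i 0)
    have h9 := h8.eventually_const_lt (half_lt_self h7)
    have h10 := h8.eventually_lt_const (lt_add_one _)
    beta_reduce at h9 h10
    generalize ‖eval (Function.update b' i 0) (Q₀ Q + X i * R Q)‖ = r at h7 h9 h10
    refine ⟨r + 1 + 2 / r, (h9.and h10).mono fun u hu => ⟨?_, ?_⟩⟩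
    · have := div_pos two_pos h7
      have h11 : ‖eval u (Q₀ Q + X i * R Q)‖ < r + 1 := hu.2
      linarith
    · calc (1 : ℝ) = 2 / r * (r / 2) := by field_simp
        _ ≤ _ := mul_le_mul (le_add_of_nonneg_left (by positivity)) hu.1.le (by positivity)
          (by positivity)
  choose! C hC using h6
  obtain ⟨B, hB⟩ := (S.finite_toSet.image C).bddAbove
  refine ⟨_, max B 1, Function.update_self i 0 b', le_max_right _ _,
    ((eventually_all_finset S).2 hC).mono fun u hu Q hQ => ?_⟩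
  have h7 : ov v (aeval p Q) = k Q := by
    rw [ov, (congrArg (fun a => v (aeval p a)) (h3 Q hQ)).trans
      (ord_split h1 h2 _ _ (h4 Q hQ) (h5 Q hQ))]
    exact (congrArg Int.cast (WithTop.untopD_coe _ _)).trans (Int.cast_natCast _)
  have := (Ap.refl le_rfl (r := ‖u i‖ ^ k Q) (by positivity)).mul ((hu Q hQ).mono
    ((hB ⟨Q, hQ, rfl⟩).trans (le_max_left B 1)) (norm_nonneg _) zero_le_one) (by positivity)
    (by positivity) (norm_nonneg _) zero_le_one
  rw [h7, rpow_natCast]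
  conv_lhs => rw [h3 Q hQ]
  simpa using this

theorem near_pts {K ι : Type} [Field K] [Algebra ℂ K] [Fintype ι] [DecidableEq ι]
    (E : PrimeDiv K ι) (hp : IsTranscendenceBasis ℂ E.p) (F : Finset K) (hF : 0 ∉ F) :
    ∃ (b : ι → ℂ) (C : ℝ), b E.i₀ = 0 ∧ 1 ≤ C ∧ ∀ᶠ u in 𝓝 b, u E.i₀ ≠ 0 → ∃ P : Pt K,
      (∀ i, E.p i ∈ P.O ∧ P.ev (E.p i) = u i) ∧
      ∀ a ∈ F, a ∈ P.O ∧ Ap C ‖P.ev a‖ (‖u E.i₀‖ ^ E.o a) := by
  classical
  let L := AlgebraicClosure K
  let j := IsScalarTower.toAlgHom ℂ K L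
  have hY : IsTranscendenceBasis ℂ fun i => j (E.p i) := basis_map hp
  have := hY.isAlgebraic_field
  obtain ⟨w₀, hw₀, h₀⟩ := exists_abs E.ord
  obtain ⟨w, hw, h₁⟩ := ext_alg (L := L) hw₀
  obtain ⟨T, hT, hm⟩ := matching (K := IntermediateField.adjoin ℂ (range fun i => j (E.p i)))
    (F.image j) (by simpa)
  choose p q hpq using fun c : IntermediateField.adjoin ℂ (range fun i => j (E.p i)) =>
    (IntermediateField.mem_adjoin_range_iff _ _ _).1 c.2
  have h0 : ∀ c ∈ T, p c ≠ 0 ∧ q c ≠ 0 := fun c hc => by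
    have h : (c : L) ≠ 0 := fun h => hT ((Subtype.ext h : c = 0) ▸ hc)
    rw [hpq] at h
    constructor <;> intro h' <;> simp [h'] at h
  have hS : 0 ∉ T.image p ∪ T.image q := by
    simpa [forall_and] using h0
  obtain ⟨b, C₀, hb, hC₀, h1⟩ := exists_unif_ap E.i₀ _ hS E.unif E.indep
  obtain ⟨C₁, hC₁, h2⟩ := Ctl.fin (E := T.image Subtype.val)
    (s := aeval (fun i => j (E.p i)) '' SetLike.coe (T.image p ∪ T.image q))
    (Finset.forall_mem_image.2 fun c hc => by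
      rw [hpq, div_eq_mul_inv]
      exact (Ctl.of_mem (mem_image_of_mem _ (Finset.mem_union_left _
        (Finset.mem_image_of_mem p hc)))).mul
        (Ctl.of_mem (mem_image_of_mem _ (Finset.mem_union_right _
          (Finset.mem_image_of_mem q hc)))).inv) hC₀
  obtain ⟨C, hC, h3⟩ := hm C₁ hC₁
  refine ⟨b, C, hb, hC, ?_⟩
  have hc : Continuous fun u : ι → ℂ => ‖u E.i₀‖ := by fun_prop
  filter_upwards [h1, hc.continuousAt.eventually_lt_const
    (show ‖b E.i₀‖ < 1 by simp [hb])] with u h4 h5 h6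
  have h7 := norm_pos_iff.2 h6
  have hs : 0 < -log ‖u E.i₀‖ := neg_pos.2 (log_neg h7 h5)
  have h8 : ∀ a, a ≠ 0 → hw.pw hs (j a) = ‖u E.i₀‖ ^ E.o a := fun a ha => by
    rw [NA.pw_apply, show w (j a) = _ from h₁ a, h₀ a ha, ← exp_mul, rpow_def_of_pos h7,
      neg_mul_neg, mul_comm, E.o_eq]
  obtain ⟨P, hP⟩ := exists_pt_basis hY u
  obtain ⟨σ, hσ⟩ := h3 (hw.pw hs) _ _ (hw.pw_na hs) P.qa fun c hc => by
    refine (h2 P _ ?_ c (Finset.mem_image_of_mem _ hc)).2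
    rintro _ ⟨Q, hQ, rfl⟩
    have h9 : Q ≠ 0 := fun h => hS (h ▸ hQ)
    refine ⟨mt (algebraicIndependent_iff.1 hY.1 Q) h9, P.aeval_mem (fun i => (hP i).1) Q, ?_⟩
    rw [P.ev_aeval fun i => (hP i).1, ← comp_aeval_apply,
      h8 _ (mt (algebraicIndependent_iff.1 hp.1 Q) h9), funext fun i => (hP i).2]
    exact h4 Q hQ
  refine ⟨P.comap ((σ.symm.toAlgHom.restrictScalars ℂ).comp j), fun i => ?_, fun a ha => ?_⟩
  · rw [Pt.mem_comap, Pt.ev_comap, show ((σ.symm.toAlgHom.restrictScalars ℂ).comp j) (E.p i) = _ from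
      σ.symm.commutes ⟨_, IntermediateField.subset_adjoin _ _ ⟨i, rfl⟩⟩]
    exact hP i
  · have := hσ _ (Finset.mem_image_of_mem j ha) σ.symm
    rw [σ.apply_symm_apply, h8 a fun h => hF (h ▸ ha)] at this
    rw [Pt.mem_comap, Pt.ev_comap]
    exact this

end Pool.Agent.Lib.MP_bc3ae6_ag
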