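import Pool.Agent.Lib.MP_bc3ae6_ag.GeoA

set_option autoImplicit false
set_option linter.unusedSectionVars false

/-! Functions all of whose negative powers with exponent below `2` are locally integrable. -/

namespace Pool.Agent.Lib.MP_bc3ae6_ag

open MvPolynomial MeasureTheory Set Metric
open scoped Polynomial ENNReal

/-- `G ^ (-2a)` is locally integrable for all `a < 1`. -/
def LI {n : ℕ} (G : (Fin n → ℂ) → ℝ≥0∞) : Prop :=
  Measurable G ∧ ∀ a : ℝ, 0 < a → a < 1 → ∀ R : ℝ,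
    ∫⁻ u in closedBall (0 : Fin n → ℂ) R, G u ^ (-(2 * a)) < ⊤

theorem LI.one (n : ℕ) : LI fun _ : Fin n → ℂ => 1 := by
  refine ⟨measurable_const, fun a _ _ R => ?_⟩
  simpa using measure_closedBall_lt_top

lemma li_anti {x y : ℝ≥0∞} (h : x ≤ y) {b : ℝ} (hb : 0 ≤ b) : y ^ (-b) ≤ x ^ (-b) := by
  rw [ENNReal.rpow_neg, ENNReal.rpow_neg]
  exact ENNReal.inv_le_inv.2 (ENNReal.rpow_le_rpow h hb)

lemma li_min (x : ℝ≥0∞) (b : ℝ) : min x 1 ^ b ≤ x ^ b + 1 := by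
  rcases le_total x 1 with h | h
  · rw [min_eq_left h]; exact le_self_add
  · rw [min_eq_right h, ENNReal.one_rpow]; exact le_add_self

lemma li_ton {n : ℕ} (i : Fin (n + 1)) {S : Set (Fin (n + 1) → ℂ)} {A : Set ℂ}
    {B : Set (Fin n → ℂ)} (F : ℂ × (Fin n → ℂ) → ℝ≥0∞)
    (hS : ∀ u ∈ S, u i ∈ A ∧ (fun j => u (i.succAbove j)) ∈ B) :
    ∫⁻ u in S, F (u i, fun j => u (i.succAbove j))
      ≤ ∫⁻ p, F p ∂((volume.restrict A).prod (volume.restrict B)) := by
  have h := (volume_preserving_piFinSuccAbove (fun _ : Fin (n + 1) => ℂ)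
    i).setLIntegral_comp_preimage_emb (MeasurableEquiv.measurableEmbedding _) F (A ×ˢ B)
  rw [Measure.prod_restrict, ← Measure.volume_eq_prod, ← h]
  exact lintegral_mono_set fun u hu => hS u hu

lemma li_ball {b : ℝ} (hb2 : b < 2) :
    ∫⁻ z in ball (0 : ℂ) 1, ‖z‖ₑ ^ (-b) < ⊤ := by
  have h : IntegrableOn (fun z : ℂ => ‖z‖ ^ (-b)) (ball 0 1) volume :=
    integrableOn_ball_of_norm_le_rpow (C := 1) (α := b) (by simp) (by simpa using hb2)
      (Filter.Eventually.of_forall fun z => by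
        rw [Real.norm_of_nonneg (by positivity), one_mul])
      (measurable_norm.pow_const _).aestronglyMeasurable
  refine lt_of_le_of_lt (lintegral_mono_ae ?_) h.2
  have h0 : ∀ᵐ z : ℂ, z ≠ 0 := by simp [ae_iff]
  filter_upwards [ae_restrict_of_ae h0] with z hz
  rw [Real.enorm_of_nonneg (by positivity), ← ofReal_norm,
    ENNReal.ofReal_rpow_of_pos (norm_pos_iff.2 hz)]

lemma li_shift {b : ℝ} (hb : 0 < b) (A : Set ℂ) (ζ : ℂ) :
    ∫⁻ t in A, ‖t - ζ‖ₑ ^ (-b) ≤ (∫⁻ z in ball (0 : ℂ) 1, ‖z‖ₑ ^ (-b)) + volume A := by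
  have h1 : ∀ t : ℂ, ‖t - ζ‖ₑ ^ (-b)
      ≤ (ball (0 : ℂ) 1).indicator (fun z => ‖z‖ₑ ^ (-b)) (t - ζ) + 1 := fun t => by
    by_cases ht : t - ζ ∈ ball (0 : ℂ) 1
    · rw [indicator_of_mem ht]; exact le_self_add
    · rw [indicator_of_notMem ht, zero_add]
      have h2 : (1 : ℝ≥0∞) ≤ ‖t - ζ‖ₑ := by
        rw [← ofReal_norm, ENNReal.one_le_ofReal]
        simpa using ht
      simpa using li_anti h2 hb.le
  refine (lintegral_mono h1).trans ?_
  rw [lintegral_add_right _ measurable_const, setLIntegral_one, ← lintegral_indicator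
    measurableSet_ball, ← lintegral_sub_right_eq_self (μ := (volume : Measure ℂ))
      ((ball (0 : ℂ) 1).indicator fun z => ‖z‖ₑ ^ (-b)) ζ]
  gcongr
  exact Measure.restrict_le_self

/-- The distance from the first coordinate to the roots. -/
noncomputable def liD {n : ℕ} (P : (MP n)[X]) (p : ℂ × (Fin n → ℂ)) : ℝ≥0∞ :=
  ⨅ (ζ : ℂ) (_ : (sp P p.2).eval ζ = 0), ‖p.1 - ζ‖ₑ

lemma li_cont {n : ℕ} (P : (MP n)[X]) :
    Continuous fun p : ℂ × (Fin n → ℂ) => (sp P p.2).eval p.1 := by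
  have h : ∀ p : ℂ × (Fin n → ℂ), (sp P p.2).eval p.1
      = ∑ i ∈ Finset.range (P.natDegree + 1), eval p.2 (P.coeff i) * p.1 ^ i := fun p => by
    rw [Polynomial.eval_eq_sum_range' (p := sp P p.2)
      (Nat.lt_succ_of_le Polynomial.natDegree_map_le)]
    simp only [sp_coeff]
  simp only [h]
  exact continuous_finsetSum _ fun i _ =>
    ((cont_ev _).comp continuous_snd).mul (continuous_fst.pow i)

lemma liD_meas {n : ℕ} (P : (MP n)[X]) : Measurable (liD P) := by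
  refine LowerSemicontinuous.measurable fun p y hy => ?_
  obtain ⟨q, hq0, h1, h2⟩ := ENNReal.lt_iff_exists_real_btwn.1 hy
  have hc : IsClosed (Prod.fst '' {x : (ℂ × (Fin n → ℂ)) × closedBall (0 : ℂ) q |
      (sp P x.1.2).eval (x.1.1 - x.2) = 0}) :=
    isClosedMap_fst_of_compactSpace _ (isClosed_eq ((li_cont P).comp
      ((continuous_fst.fst.sub continuous_snd.subtype_val).prodMk continuous_fst.snd))
      continuous_const)
  filter_upwards [hc.isOpen_compl.mem_nhds (x := p) (by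
    rintro ⟨⟨p', z, hz⟩, h3, rfl⟩
    refine h2.not_ge ((iInf₂_le (f := fun ζ (_ : (sp P p'.2).eval ζ = 0) => ‖p'.1 - ζ‖ₑ)
      (p'.1 - z) h3).trans ?_)
    rw [sub_sub_cancel, ← ofReal_norm]
    exact ENNReal.ofReal_le_ofReal (by simpa using hz))] with p' hp'
  refine h1.trans_le (le_iInf₂ fun ζ hζ => not_lt.1 fun h3 => hp' ?_)
  rw [← ofReal_norm] at h3
  refine ⟨(p', ⟨p'.1 - ζ, ?_⟩), by simpa using hζ, rfl⟩
  simpa using ((ENNReal.ofReal_lt_ofReal_iff_of_nonneg (norm_nonneg _)).1 h3).le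

lemma liD_le {n : ℕ} {P : (MP n)[X]} {w : Fin n → ℂ} (hw : sp P w ≠ 0) (t : ℂ) {b : ℝ}
    (hb : 0 < b) : liD P (t, w) ^ (-b) ≤ ∑ ζ ∈ (sp P w).roots.toFinset, ‖t - ζ‖ₑ ^ (-b) := by
  have hm : ∀ ζ, (sp P w).eval ζ = 0 → ζ ∈ (sp P w).roots.toFinset := fun ζ h =>
    Multiset.mem_toFinset.2 ((Polynomial.mem_roots hw).2 h)
  rcases (sp P w).roots.toFinset.eq_empty_or_nonempty with h | h
  · have h1 : liD P (t, w) = ⊤ := top_unique (le_iInf₂ fun ζ hζ => by simpa [h] using hm ζ hζ)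
    rw [h1, ENNReal.top_rpow_of_neg (by linarith)]
    exact zero_le
  · obtain ⟨ζ, h1, h2⟩ := Finset.exists_min_image _ (fun ζ => ‖t - ζ‖ₑ) h
    exact (li_anti (le_iInf₂ fun ξ hξ => h2 ξ (hm ξ hξ)) hb.le).trans
      (Finset.single_le_sum (f := fun ζ => ‖t - ζ‖ₑ ^ (-b)) (fun _ _ => zero_le) h1)

lemma liD_int {n : ℕ} {P : (MP n)[X]} {w : Fin n → ℂ} (hw : sp P w ≠ 0) {b : ℝ}
    (hb : 0 < b) (A : Set ℂ) : ∫⁻ t in A, liD P (t, w) ^ (-b)
      ≤ P.natDegree * ((∫⁻ z in ball (0 : ℂ) 1, ‖z‖ₑ ^ (-b)) + volume A) := by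
  refine (lintegral_mono fun t => liD_le hw t hb).trans ?_
  rw [lintegral_finsetSum _ (f := fun ζ t : ℂ => ‖t - ζ‖ₑ ^ (-b)) fun ζ _ =>
    ((measurable_id.sub_const ζ).enorm.pow_const _)]
  refine (Finset.sum_le_card_nsmul _ _ _ fun ζ _ => li_shift hb A ζ).trans ?_
  rw [nsmul_eq_mul]
  gcongr
  exact (Multiset.toFinset_card_le _).trans
    ((Polynomial.card_roots' _).trans Polynomial.natDegree_map_le)

theorem LI.step {n : ℕ} {G : (Fin n → ℂ) → ℝ≥0∞} (hG : LI G) {P : (MP n)[X]} (hP : P ≠ 0) :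
    ∃ G' : (Fin (n + 1) → ℂ) → ℝ≥0∞, LI G' ∧ ∀ u ζ, (sp P (Fin.tail u)).eval ζ = 0 →
      G' u ≤ G (Fin.tail u) * ‖u 0 - ζ‖ₑ := by
  have hm : Measurable fun u : Fin (n + 1) → ℂ => (u 0, Fin.tail u) :=
    (measurable_pi_apply 0).prodMk (measurable_pi_lambda _ fun j => measurable_pi_apply _)
  refine ⟨fun u => min (G (Fin.tail u)) 1 * min (liD P (u 0, Fin.tail u)) 1,
    ⟨((hG.1.comp hm.snd).min measurable_const).mul
      (((liD_meas P).comp hm).min measurable_const), fun a ha ha1 R => ?_⟩,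
    fun u ζ h => mul_le_mul' (min_le_left _ _) ((min_le_left _ _).trans (iInf₂_le ζ h))⟩
  have hb : 0 < 2 * a := by linarith
  set K := ∫⁻ z in ball (0 : ℂ) 1, ‖z‖ₑ ^ (-(2 * a)) with hK
  have hK' : K < ⊤ := li_ball (by linarith)
  let F : ℂ × (Fin n → ℂ) → ℝ≥0∞ := fun p =>
    (G p.2 ^ (-(2 * a)) + 1) * (liD P p ^ (-(2 * a)) + 1)
  have hF : Measurable F := (((hG.1.comp measurable_snd).pow_const _).add_const _).mul
    (((liD_meas P).pow_const _).add_const _)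
  have h1 := li_ton (0 : Fin (n + 1)) (S := closedBall 0 R) (A := closedBall 0 R)
    (B := closedBall 0 R) F fun u hu => by
      simp only [mem_closedBall_zero_iff] at hu ⊢
      exact ⟨(norm_le_pi_norm u 0).trans hu, (pi_norm_le_iff_of_nonneg
        ((norm_nonneg u).trans hu)).2 fun j => (norm_le_pi_norm u _).trans hu⟩
  refine lt_of_le_of_lt (lintegral_mono fun u => ?_) (h1.trans_lt ?_)
  · rw [ENNReal.mul_rpow_of_ne_top (by simp) (by simp)]
    exact mul_le_mul' (li_min _ _) (li_min _ _)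
  rw [lintegral_prod_symm _ hF.aemeasurable]
  set V := volume (closedBall (0 : ℂ) R) with hV
  have hV' : V < ⊤ := measure_closedBall_lt_top
  have h2 : ∀ᵐ w ∂(volume.restrict (closedBall (0 : Fin n → ℂ) R)),
      ∫⁻ t in closedBall (0 : ℂ) R, F (t, w)
        ≤ (G w ^ (-(2 * a)) + 1) * (P.natDegree * (K + V) + V) := by
    filter_upwards [ae_restrict_of_ae (ae_poly_ne (Polynomial.leadingCoeff_ne_zero.2 hP))] with w hw
    have hw' : sp P w ≠ 0 := fun h => hw (by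
      rw [Polynomial.leadingCoeff, ← sp_coeff, h, Polynomial.coeff_zero])
    have h3 : Measurable fun t : ℂ => liD P (t, w) ^ (-(2 * a)) :=
      ((liD_meas P).comp measurable_prodMk_right).pow_const _
    simp only [F]
    rw [lintegral_const_mul _ (h3.add_const _), lintegral_add_left h3, setLIntegral_one]
    gcongr
    exact liD_int hw' hb _
  refine (lintegral_mono_ae h2).trans_lt ?_
  rw [lintegral_mul_const _ ((hG.1.pow_const _).add_const _),
    lintegral_add_left (hG.1.pow_const _), setLIntegral_one]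
  refine ENNReal.mul_lt_top (ENNReal.add_lt_top.2 ⟨hG.2 a ha ha1 R, measure_closedBall_lt_top⟩) ?_
  exact ENNReal.add_lt_top.2 ⟨ENNReal.mul_lt_top (by simp) (ENNReal.add_lt_top.2 ⟨hK', hV'⟩), hV'⟩

lemma li_scale {n : ℕ} {H : (Fin n → ℂ) → ℝ≥0∞} (hH : Measurable H) {τ : ℂ} (hτ : τ ≠ 0) :
    ∫⁻ v : Fin n → ℂ, H (fun i => v i / τ) = ENNReal.ofReal (‖τ‖ ^ (2 * n)) * ∫⁻ v, H v := by
  let f : (Fin n → ℂ) →ₗ[ℂ] (Fin n → ℂ) := τ⁻¹ • LinearMap.id
  have h1 : LinearMap.det (f.restrictScalars ℝ) = (‖τ‖ ^ (2 * n))⁻¹ := by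
    rw [LinearMap.det_restrictScalars, LinearMap.det_smul, Algebra.norm_complex_apply,
      Complex.normSq_eq_norm_sq]
    simp [← pow_mul, mul_comm]
  have h2 := Measure.map_linearMap_addHaar_eq_smul_addHaar (volume : Measure (Fin n → ℂ))
    (f := f.restrictScalars ℝ) (by rw [h1]; positivity)
  have h3 := lintegral_map (μ := volume) hH
    (f.restrictScalars ℝ).continuous_of_finiteDimensional.measurable
  rw [h2, h1, inv_inv, abs_of_nonneg (by positivity), lintegral_smul_measure] at h3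
  refine Eq.trans ?_ h3.symm
  congr 1
  ext v
  congr 1
  ext i
  simp [f, div_eq_inv_mul]

theorem LI.hom {n : ℕ} {G : (Fin n → ℂ) → ℝ≥0∞} (hG : LI G) (i₀ : Fin (n + 1)) {a ρ : ℝ}
    (ha : 0 < a) (ha1 : a < 1) (hρ : 0 < ρ) :
    ∫⁻ w in {w : Fin (n + 1) → ℂ | ρ⁻¹ ≤ ‖w i₀‖ ∧ ‖w‖ ≤ ρ},
      G (fun i => w (i₀.succAbove i) / w i₀) ^ (-(2 * a)) < ⊤ := by
  let F : ℂ × (Fin n → ℂ) → ℝ≥0∞ := fun p => G (fun i => p.2 i / p.1) ^ (-(2 * a))
  have hF : Measurable F := (hG.1.comp (measurable_pi_lambda _ fun i =>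
    ((measurable_pi_apply i).comp measurable_snd).div measurable_fst)).pow_const _
  have hA : MeasurableSet {τ : ℂ | ρ⁻¹ ≤ ‖τ‖ ∧ ‖τ‖ ≤ ρ} :=
    (measurableSet_le measurable_const measurable_norm).inter
      (measurableSet_le measurable_norm measurable_const)
  refine (li_ton i₀ (A := {τ | ρ⁻¹ ≤ ‖τ‖ ∧ ‖τ‖ ≤ ρ}) (B := closedBall 0 ρ) F
    fun u hu => ?_).trans_lt ?_
  · exact ⟨⟨hu.1, (norm_le_pi_norm u _).trans hu.2⟩, mem_closedBall_zero_iff.2
      ((pi_norm_le_iff_of_nonneg hρ.le).2 fun j => (norm_le_pi_norm u _).trans hu.2)⟩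
  rw [lintegral_prod _ hF.aemeasurable]
  set K := ∫⁻ u in closedBall (0 : Fin n → ℂ) (ρ * ρ), G u ^ (-(2 * a)) with hK
  have h2 : ∀ τ ∈ {τ : ℂ | ρ⁻¹ ≤ ‖τ‖ ∧ ‖τ‖ ≤ ρ}, ∫⁻ v in closedBall (0 : Fin n → ℂ) ρ, F (τ, v)
      ≤ ENNReal.ofReal (ρ ^ (2 * n)) * K := fun τ hτ => by
    have h0 : 0 < ‖τ‖ := (inv_pos.2 hρ).trans_le hτ.1
    have h3 := li_scale ((hG.1.pow_const (-(2 * a))).indicator
      (measurableSet_closedBall (x := 0) (ε := ρ * ρ))) (norm_pos_iff.1 h0)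
    rw [lintegral_indicator measurableSet_closedBall] at h3
    refine le_trans ?_ (h3.le.trans (by gcongr; exact hτ.2))
    rw [← lintegral_indicator measurableSet_closedBall]
    refine lintegral_mono (indicator_le fun v hv => ?_)
    rw [indicator_of_mem]
    refine mem_closedBall_zero_iff.2 ((pi_norm_le_iff_of_nonneg (by positivity)).2 fun j => ?_)
    rw [norm_div, div_eq_mul_inv]
    exact mul_le_mul ((norm_le_pi_norm v j).trans (mem_closedBall_zero_iff.1 hv))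
      (inv_le_of_inv_le₀ hρ hτ.1) (by positivity) hρ.le
  refine (setLIntegral_mono' hA h2).trans_lt ?_
  rw [setLIntegral_const]
  refine ENNReal.mul_lt_top (ENNReal.mul_lt_top ENNReal.ofReal_lt_top (hG.2 a ha ha1 _)) ?_
  exact (measure_mono fun τ hτ => mem_closedBall_zero_iff.2 hτ.2).trans_lt
    (measure_closedBall_lt_top (x := 0) (r := ρ))

end Pool.Agent.Lib.MP_bc3ae6_ag
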