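import Pool.Agent.Lib.MP_bc3ae6_ag.VSub
import Pool.Agent.Lib.MP_bc3ae6_ag.VExt
import Pool.Agent.Lib.MP_bc3ae6_ag.VMatch
import Pool.Agent.Lib.MP_bc3ae6_ag.VLI

set_option autoImplicit false
set_option linter.unusedSectionVars false

/-! General complex points are approximated, up to a bounded factor, by monomial valuations in
triangular coordinates. -/

namespace Pool.Agent.Lib.MP_bc3ae6_ag

open MvPolynomial Set Real
open scoped Polynomial ENNReal

variable {L : Type} [Field L] [Algebra ℂ L]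

lemma Pt.ev_root (P : Pt L) {n : ℕ} {x : Fin n → L} (hx : ∀ i, x i ∈ P.O) {a : L} (ha : a ∈ P.O)
    {Q : (MP n)[X]} (h : Q.eval₂ (aeval x : _ →ₐ[ℂ] L) a = 0) :
    (sp Q fun i => P.ev (x i)).eval (P.ev a) = 0 := by
  have h1 := congrArg P.ev h
  rw [Polynomial.eval₂_eq_sum_range, P.ev_zero,
    P.ev_sum fun i => by exact mul_mem (P.aeval_mem hx _) (pow_mem ha _)] at h1
  rw [sp, Polynomial.eval_map, Polynomial.eval₂_eq_sum_range, ← h1]
  refine Finset.sum_congr rfl fun i _ => ?_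
  rw [RingHom.coe_coe, P.ev_mul (P.aeval_mem hx _) (pow_mem ha _), P.ev_aeval hx, P.ev_pow ha]

lemma Mono.of_eq {ι : Type} {w w' : AbsoluteValue L ℝ} {y : ι → L} (h : Mono w y)
    (hw : ∀ Q : MvPolynomial ι ℂ, w' (aeval y Q) = w (aeval y Q)) : Mono w' y := by
  refine ⟨h.1, fun Q d hd => ?_⟩
  have := hw (monomial d 1)
  rw [aeval_monomial, map_one, one_mul] at this
  rw [this, hw]
  exact h.2 Q d hd

lemma ap_lin {δ c q W r C : ℝ} (hC : 1 ≤ C) (hc : 0 ≤ c) (h1 : c ≤ δ) (h2 : δ ≤ 3 * c) (h3 : δ ≤ r)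
    (h4 : q ≤ r + δ) (h5 : r ≤ δ + q) (h6 : Ap C q W) : Ap (4 * C) r (max c W) := by
  have h7 := le_max_left c W
  have h8 := le_max_right c W
  have h9 := mul_le_mul_of_nonneg_left h8 (zero_le_one.trans hC)
  have h10 := le_mul_of_one_le_left (hc.trans h7) hC
  have h11 := le_mul_of_one_le_left (hc.trans (h1.trans h3)) hC
  have h12 := mul_le_mul_of_nonneg_left (show q ≤ 2 * r by linarith) (zero_le_one.trans hC)
  exact ⟨by linarith [h6.1], max_le (by linarith) (by linarith [h6.2])⟩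

lemma exists_exp {δ : ℝ} (hδ : 0 < δ) : ∃ s : ℤ, exp s ≤ δ ∧ δ ≤ 3 * exp s := by
  refine ⟨⌊log δ⌋, (le_log_iff_exp_le hδ).1 (Int.floor_le _), ?_⟩
  have h1 := (log_le_iff_le_exp hδ).1 (Int.lt_floor_add_one (log δ)).le
  rw [exp_add, mul_comm] at h1
  exact h1.trans (by gcongr; linarith [exp_one_lt_d9])

/-- The conclusion of the approximation theorem at a point. -/
def Good {n : ℕ} (x : Fin n → L) (F : Finset L) (G : (Fin n → ℂ) → ℝ≥0∞) (C : ℝ) (P : Pt L) :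
    Prop :=
  ∃ (y : Fin n → L) (w : AbsoluteValue L ℝ), NA w ∧ Mono w y ∧ (∀ i, ∃ s : ℤ, w (y i) = exp s) ∧
    Tri x y ∧ G (fun i => P.ev (x i)) ≤ ENNReal.ofReal (C * ∏ i, w (y i)) ∧ ∀ a ∈ F, P.U w C a

lemma varch_zero [IsAlgClosed L] {x : Fin 0 → L} (hx : IsTranscendenceBasis ℂ x) (F : Finset L)
    (hF : 0 ∉ F) : ∃ C : ℝ, 1 ≤ C ∧ ∀ P : Pt L, Good x F (fun _ => 1) C P := by
  have := hx.isEmpty_iff_isAlgebraic.1 inferInstance
  choose c hc using (IsAlgClosed.algebraMap_bijective_of_isIntegral (k := ℂ) (K := L)).2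
  obtain ⟨w, hw, hM, -⟩ := ext_mono hx (c := fun _ => 1) fun _ => one_pos
  obtain ⟨B, hB⟩ := (F.finite_toSet.image fun a => ‖c a‖ + ‖c a‖⁻¹).bddAbove
  refine ⟨max B 1, le_max_right _ _, fun P => ⟨x, w, hw, hM, fun i => i.elim0, fun i => i.elim0,
    by simp, fun a ha => ?_⟩⟩
  have h0 : a ≠ 0 := fun h => hF (h ▸ ha)
  have h1 : c a ≠ 0 := fun h => h0 (by rw [← hc a, h, map_zero])
  have h2 : ‖c a‖ + ‖c a‖⁻¹ ≤ max B 1 := (hB ⟨a, ha, rfl⟩).trans (le_max_left _ _)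
  have h3 := norm_pos_iff.2 h1
  have h4 := inv_pos.2 h3
  refine ⟨h0, hc a ▸ P.O.algebraMap_mem _, ?_⟩
  rw [← hc a, P.ev_C, hM.triv _ h1]
  exact ⟨by linarith, by rw [← div_le_iff₀ h3, one_div]; linarith⟩

theorem varch (n : ℕ) : ∀ (L : Type) [Field L] [Algebra ℂ L] [IsAlgClosed L] (x : Fin n → L),
    IsTranscendenceBasis ℂ x → ∀ F : Finset L, 0 ∉ F →
    ∃ (G : (Fin n → ℂ) → ℝ≥0∞) (C : ℝ), LI G ∧ 1 ≤ C ∧ ∀ P : Pt L, (∀ i, x i ∈ P.O) →
      G (fun i => P.ev (x i)) ≠ 0 → Good x F G C P := by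
  classical
  induction n with
  | zero =>
    intro L _ _ _ x hx F hF
    obtain ⟨C, hC, h⟩ := varch_zero hx F hF
    exact ⟨_, C, LI.one 0, hC, fun P _ _ => h P⟩
  | succ n ih =>
  intro L _ _ _ x hx F hF
  obtain ⟨L', _, _, _, _, _, x', hx', hxx, htr, halg, -⟩ := exists_sub hx
  have : Algebra.IsAlgebraic (IntermediateField.adjoin L' {x 0}) L := ⟨halg⟩
  obtain ⟨E, hE, hm⟩ := matching (K := IntermediateField.adjoin L' {x 0}) F hF
  obtain ⟨A, Z, hA, hctl⟩ := exists_ctl E hE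
  obtain ⟨G', C', hG', hC', IH⟩ := ih L' x' hx'
    (A ∪ ((insert 0 Z ×ˢ insert 0 Z).image fun p => p.1 - p.2).erase 0) (by simpa)
  choose Q hQ hQ' using fun z : L' => exists_kill (hx'.isAlgebraic.1 z)
  obtain ⟨G, hG, hGle⟩ := hG'.step (P := ∏ z ∈ insert 0 Z, Q z)
    (Finset.prod_ne_zero_iff.2 fun z _ => hQ z)
  obtain ⟨C1, hC1, h1⟩ := Ctl.fin (E := E.image Subtype.val) (Finset.forall_mem_image.2 hctl)
    (C₀ := 4 * C') (by linarith)
  obtain ⟨C, hC, h2⟩ := hm C1 hC1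
  refine ⟨G, max C (3 * C'), hG, le_max_of_le_left hC, fun P hP hG0 => ?_⟩
  let f := IsScalarTower.toAlgHom ℂ L' L
  have hf : ∀ a, f a = algebraMap L' L a := fun _ => rfl
  let P' := P.comap f
  have hP' : ∀ i, x' i ∈ P'.O := fun i => (P.mem_comap f).2 (by rw [hf, hxx]; exact hP _)
  have ht : (Fin.tail fun i => P.ev (x i)) = fun i => P'.ev (x' i) :=
    funext fun i => by rw [P.ev_comap, hf, hxx]; rfl
  have hr : ∀ z ∈ insert 0 Z, z ∈ P'.O →
      G (fun i => P.ev (x i)) ≤ G' (fun i => P'.ev (x' i)) * ‖P.ev (x 0) - P'.ev z‖ₑ := by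
    intro z hz hz'
    rw [← ht]
    refine hGle _ _ (ht ▸ P'.ev_root hP' hz' ?_)
    rw [Polynomial.eval₂_finsetProd]
    exact Finset.prod_eq_zero hz (hQ' z)
  obtain ⟨y', w', hw', hM', hs', hT', hG1, hF'⟩ := IH P' hP' fun h =>
    hG0 (by simpa [h] using hr 0 (by simp) (zero_mem _))
  have hd : ∀ z ∈ insert 0 Z, ∀ z' ∈ insert 0 Z,
      z - z' ∈ P'.O ∧ Ap C' ‖P'.ev (z - z')‖ (w' (z - z')) := fun z hz z' hz' => by
    by_cases h : z - z' = 0
    · simp [h, P'.ev_zero, Ap]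
    · exact (hF' _ (Finset.mem_union_right _ (Finset.mem_erase.2 ⟨h, Finset.mem_image.2
        ⟨(z, z'), Finset.mem_product.2 ⟨hz, hz'⟩, rfl⟩⟩))).2
  have hZ : ∀ z ∈ insert 0 Z, z ∈ P'.O := fun z hz => by simpa using (hd z hz 0 (by simp)).1
  obtain ⟨z₀, hz₀, hmin⟩ := (insert 0 Z).exists_min_image (fun z => ‖P.ev (x 0) - P'.ev z‖)
    (by simp)
  have hδ : 0 < ‖P.ev (x 0) - P'.ev z₀‖ := norm_pos_iff.2 fun h =>
    hG0 (by simpa [h] using hr z₀ hz₀ (hZ z₀ hz₀))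
  obtain ⟨s, hs1, hs2⟩ := exists_exp hδ
  have hK : IntermediateField.adjoin L' {x 0 - f z₀} = IntermediateField.adjoin L' {x 0} :=
    le_antisymm (IntermediateField.adjoin_simple_le_iff.2 (sub_mem
      (IntermediateField.mem_adjoin_simple_self _ _) (IntermediateField.algebraMap_mem _ _)))
      (IntermediateField.adjoin_simple_le_iff.2 (by
        simpa [hf] using add_mem (IntermediateField.mem_adjoin_simple_self L' (x 0 - f z₀))
          (IntermediateField.algebraMap_mem _ z₀)))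
  have hy : Transcendental L' (x 0 - f z₀) := fun h =>
    htr (by simpa [hf] using h.add (isAlgebraic_algebraMap z₀))
  obtain ⟨w₀, hw₀, he, hy0, hg⟩ := ext_gauss hy (hK ▸ halg) hw' (exp_pos s)
  have hy1 : x 0 - f z₀ ≠ 0 := w₀.pos_iff.1 (hy0 ▸ exp_pos _)
  obtain ⟨σ, hσ⟩ := h2 w₀ _ _ hw₀ P.qa fun c hc => by
    refine (h1 P w₀ ?_ c (Finset.mem_image_of_mem _ hc)).2
    rintro _ (⟨a, ha, rfl⟩ | ⟨z, hz, rfl⟩)
    · have := hF' a (Finset.mem_union_left _ ha)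
      refine ⟨(map_ne_zero _).2 this.1, this.2.1, ?_⟩
      rw [he, ← hf, ← P.ev_comap]
      exact this.2.2.mono (by linarith) (norm_nonneg _) (w'.nonneg _)
    have hz' := Finset.mem_insert_of_mem (b := 0) hz
    have h3 : x 0 - algebraMap L' L z = x 0 - f z₀ + algebraMap L' L (z₀ - z) := by simp [hf]
    have h4 : w₀ (x 0 - algebraMap L' L z) = max (exp s) (w' (z₀ - z)) := by
      have h5 := hg (Polynomial.X + Polynomial.C (z₀ - z))
      rw [map_add, Polynomial.aeval_X, Polynomial.aeval_C, ← h3] at h5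
      refine le_antisymm (by rw [h3, ← hy0, ← he]; exact hw₀ _ _) (max_le ?_ ?_)
      · simpa [hy0, Polynomial.coeff_X, Polynomial.coeff_C] using h5 1
      · simpa [← map_sub, he] using h5 0
    refine ⟨w₀.pos_iff.1 (h4 ▸ lt_max_of_lt_left (exp_pos _)), sub_mem (hP 0) (hZ z hz'), ?_⟩
    have h6 := (hd z₀ hz₀ z hz').2
    rw [P'.ev_sub (hZ z₀ hz₀) (hZ z hz')] at h6
    change Ap _ ‖P.ev (x 0 - f z)‖ (w₀ (x 0 - algebraMap L' L z))
    rw [h4, P.ev_sub (b := f z) (hP 0) (hZ z hz'), ← P.ev_comap]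
    refine ap_lin hC' (exp_pos _).le hs1 hs2 (hmin z hz') ?_ ?_ h6
    · exact (norm_sub_le_norm_sub_add_norm_sub _ (P.ev (x 0)) _).trans_eq
        (by rw [add_comm, norm_sub_rev (P'.ev z₀)])
    · exact norm_sub_le_norm_sub_add_norm_sub _ _ _
  have hfix : ∀ a ∈ IntermediateField.adjoin L' {x 0}, pb w₀ σ a = w₀ a := fun a ha =>
    congrArg w₀ (σ.commutes ⟨a, ha⟩)
  have hmem : ∀ i, (Fin.cons (x 0 - f z₀) fun i => algebraMap L' L (y' i) : Fin (n + 1) → L) i ∈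
      IntermediateField.adjoin L' {x 0} := fun i => Fin.cases
    (hK ▸ IntermediateField.mem_adjoin_simple_self _ _)
    (fun i => IntermediateField.algebraMap_mem _ _) i
  refine ⟨Fin.cons (x 0 - f z₀) fun i => algebraMap L' L (y' i), pb w₀ σ, hw₀.pb _, ?_,
    fun i => ?_, ?_, ?_, fun a ha => ?_⟩
  · refine (mono_cons (w := w₀) (by rwa [show pb w₀ _ = w' from AbsoluteValue.ext he]) hy1
      hg).of_eq fun R => hfix _ ?_
    induction R using MvPolynomial.induction_on with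
    | C a =>
      rw [aeval_C, IsScalarTower.algebraMap_apply ℂ L' L]
      exact IntermediateField.algebraMap_mem _ _
    | add p q hp hq => rw [map_add]; exact add_mem hp hq
    | mul_X p i hp => rw [map_mul, aeval_X]; exact mul_mem hp (hmem i)
  · rw [hfix _ (hmem i)]
    exact Fin.cases ⟨s, hy0⟩ (fun i => (hs' i).imp fun _ h => (he _).trans h) i
  · have := hT'.cons f (s := x 0) (t := x 0 - f z₀) (by
      rw [sub_sub_cancel, show (fun i => f (x' i)) = f ∘ x' from rfl, range_comp]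
      exact isAlgebraic_map f (hx'.isAlgebraic.1 z₀))
    rwa [show (fun i => f (x' i)) = Fin.tail x from funext hxx, Fin.cons_self_tail] at this
  · simp only [hfix _ (hmem _), Fin.prod_univ_succ, Fin.cons_zero, Fin.cons_succ, he, hy0]
    have h3 : 0 ≤ ∏ i, w' (y' i) := Finset.prod_nonneg fun i _ => w'.nonneg _
    refine (hr z₀ hz₀ (hZ z₀ hz₀)).trans ((mul_le_mul' hG1 le_rfl).trans ?_)
    rw [← ofReal_norm, ← ENNReal.ofReal_mul (by positivity)]
    refine ENNReal.ofReal_le_ofReal ((mul_le_mul_of_nonneg_left hs2 (by positivity)).trans ?_)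
    rw [show C' * (∏ i, w' (y' i)) * (3 * exp s) = 3 * C' * (exp s * ∏ i, w' (y' i)) by ring]
    gcongr
    exact le_max_right _ _
  · exact Pt.U.mono ⟨fun h => hF (h ▸ ha), hσ a ha 1⟩ (le_max_left _ _)

end Pool.Agent.Lib.MP_bc3ae6_ag
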