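import Pool.Agent.Lib.MP_bc3ae6_ag.V1
import Pool.Agent.Lib.MP_bc3ae6_ag.BasL

set_option autoImplicit false
set_option linter.unusedSectionVars false

/-! The graded pieces of the coordinate ring inside the function field. -/

namespace Pool.Agent.Lib.MP_bc3ae6_ag

open MvPolynomial Set Module

variable {n M : ℕ} {I : Ideal (MP M)} [I.IsPrime] {wt : Fin M → ℕ}

namespace VHom

variable {K : Type} [Field K] [Algebra ℂ K] {ψ : MP M →ₐ[ℂ] K}

/-- The image of the homogeneous polynomials of degree `m`. -/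
noncomputable abbrev Ug (ψ : MP M →ₐ[ℂ] K) (wt : Fin M → ℕ) (m : ℕ) : Submodule ℂ K :=
  (weightedHomogeneousSubmodule ℂ wt m).map ψ.toLinearMap

lemma map_lc {N : ℕ} (s : Fin N → MP M) (a : Fin N → ℂ) :
    ψ (lc s a) = ∑ j, a j • ψ (s j) := by
  unfold lc
  rw [map_sum]
  exact Finset.sum_congr rfl fun j _ => by rw [← smul_eq_C_mul, map_smul]

lemma fd (hw : ∀ l, 0 < wt l) (m : ℕ) : FiniteDimensional ℂ (Ug ψ wt m) :=
  Module.Finite.iff_fg.2 ((weightedHomogeneousSubmodule_fg ℂ wt (fun l => (hw l).ne') m).map _)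

lemma eq_iff (hψ : ∀ p, ψ p = 0 ↔ p ∈ I) {p q : MP M} : ψ p = ψ q ↔ p - q ∈ I := by
  rw [← hψ, map_sub, sub_eq_zero]

lemma um (hψ : ∀ p, ψ p = 0 ↔ p ∈ I) {m N : ℕ} {s : Fin N → MP M} (hs : Bas I wt m s) :
    LinearIndependent ℂ (fun i => ψ (s i)) ∧ (∀ i, ψ (s i) ∈ Ug ψ wt m) ∧
      N = finrank ℂ (Ug ψ wt m) := by
  have h1 : LinearIndependent ℂ (fun i => ψ (s i)) :=
    Fintype.linearIndependent_iff.2 fun a ha i => by
      rw [← map_lc, hψ] at ha
      rw [hs.li a ha]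
      rfl
  have h2 : ∀ i, ψ (s i) ∈ Ug ψ wt m := fun i => ⟨_, hs.hom i, rfl⟩
  have h3 : Submodule.span ℂ (range fun i => ψ (s i)) = Ug ψ wt m := by
    refine le_antisymm (Submodule.span_le.2 (range_subset_iff.2 h2)) ?_
    rintro _ ⟨p, hp, rfl⟩
    obtain ⟨c, hc⟩ := hs.sp p hp
    exact (Submodule.mem_span_range_iff_exists_fun ℂ).2
      ⟨c, (map_lc s c).symm.trans ((eq_iff hψ).2 hc).symm⟩
  exact ⟨h1, h2, by rw [← h3, finrank_span_eq_card h1, Fintype.card_fin]⟩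

lemma of_um (hψ : ∀ p, ψ p = 0 ↔ p ∈ I) (hw : ∀ l, 0 < wt l) {m N : ℕ} {b : Fin N → K}
    (h1 : LinearIndependent ℂ b) (h2 : ∀ i, b i ∈ Ug ψ wt m) (h3 : N = finrank ℂ (Ug ψ wt m)) :
    ∃ s : Fin N → MP M, Bas I wt m s ∧ ∀ i, ψ (s i) = b i := by
  have h2' : ∀ i, ∃ q : MP M, q.IsWeightedHomogeneous wt m ∧ ψ q = b i := h2
  choose s hs hs' using h2'
  have := fd (ψ := ψ) hw m
  have h4 : Submodule.span ℂ (range b) = Ug ψ wt m :=
    Submodule.eq_of_le_of_finrank_eq (Submodule.span_le.2 (range_subset_iff.2 h2))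
      (by rw [finrank_span_eq_card h1, Fintype.card_fin, ← h3])
  refine ⟨s, ⟨hs, fun a ha => ?_, fun p hp => ?_⟩, hs'⟩
  · rw [← hψ, map_lc] at ha
    simp only [hs'] at ha
    exact funext (Fintype.linearIndependent_iff.1 h1 a ha)
  · obtain ⟨c, hc⟩ := (Submodule.mem_span_range_iff_exists_fun ℂ).1
      (h4.ge (⟨p, hp, rfl⟩ : ψ p ∈ Ug ψ wt m))
    exact ⟨c, (eq_iff hψ).1 (by rw [map_lc, ← hc]; simp only [hs'])⟩

variable {θ : Fin n → MP M}

lemma hom_aeval {e : ℕ} (hθ : ∀ i, (θ i).IsWeightedHomogeneous wt e) (d : Fin n →₀ ℕ) (c : ℂ) :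
    (aeval θ (monomial d c)).IsWeightedHomogeneous wt (e * d.degree) := by
  rw [aeval_monomial, Finsupp.prod, Finsupp.degree_apply, Finset.mul_sum]
  exact (IsWeightedHomogeneous.prod _ _ _ fun i _ => by
    simpa [mul_comm] using (hθ i).pow (d i)).C_mul c

/-- The component of degree `m` of `a (θ) r` for homogeneous `r`. -/
lemma comp_mul {e : ℕ} (hθ : ∀ i, (θ i).IsWeightedHomogeneous wt e) (he : 0 < e) (a : MP n)
    {r : MP M} {δ : ℕ} (hr : r.IsWeightedHomogeneous wt δ) (m : ℕ) :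
    ∃ b : MP n, b.IsHomogeneous ((m - δ) / e) ∧ (b = 0 ∨ e * ((m - δ) / e) + δ = m) ∧
      weightedHomogeneousComponent wt m (aeval θ a * r) = aeval θ b * r := by
  induction a using MvPolynomial.induction_on' with
  | monomial d c =>
    have h1 := (hom_aeval hθ d c).mul hr
    by_cases h : e * d.degree + δ = m
    · have h2 : (m - δ) / e = d.degree := by
        rw [← h, Nat.add_sub_cancel, Nat.mul_div_cancel_left _ he]
      exact ⟨monomial d c, isHomogeneous_monomial c h2.symm, Or.inr (h2 ▸ h),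
        (h ▸ h1).weightedHomogeneousComponent_same⟩
    · exact ⟨0, isHomogeneous_zero _ _ _, Or.inl rfl, by
        rw [h1.weightedHomogeneousComponent_ne m (Ne.symm h), map_zero, zero_mul]⟩
  | add p q hp hq =>
    obtain ⟨b, b1, b2, b3⟩ := hp
    obtain ⟨c, c1, c2, c3⟩ := hq
    refine ⟨b + c, b1.add c1, ?_, by rw [map_add, add_mul, map_add, b3, c3, map_add, add_mul]⟩
    rcases b2 with rfl | b2
    · simpa using c2
    · exact Or.inr b2

lemma aeval_div {L : Type} [Field L] [Algebra ℂ L] (y : Fin n → L) (u : L) {b : MP n} {k : ℕ}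
    (hb : b.IsHomogeneous k) : aeval (fun i => y i / u) b = aeval y b / u ^ k := by
  rw [b.as_sum, map_sum, map_sum, Finset.sum_div]
  refine Finset.sum_congr rfl fun d hd => ?_
  have h1 : d.degree = k := by
    by_contra h
    exact mem_support_iff.1 hd (hb.coeff_eq_zero h)
  rw [aeval_monomial, aeval_monomial, ← h1, Finsupp.degree_apply, Finsupp.prod, Finsupp.prod,
    ← Finset.prod_pow_eq_pow_sum, mul_div_assoc, ← Finset.prod_div_distrib]
  simp only [div_pow]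

/-- Homogeneous polynomials of degree `k ≤ m` in `d + 1` variables are spanned by monomials that
are determined by their last `d` exponents. -/
lemma mem_span {d k m : ℕ} (hk : k ≤ m) {V : Type} [AddCommGroup V] [Module ℂ V]
    (f : MP (d + 1) →ₗ[ℂ] V) {b : MP (d + 1)} (hb : b.IsHomogeneous k) :
    f b ∈ Submodule.span ℂ (range fun γ : Fin d → Fin (m + 1) => f (monomial
      (Finsupp.equivFunOnFinite.symm (Fin.cons (k - ∑ i, (γ i : ℕ)) fun i => (γ i : ℕ))) 1)) := by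
  rw [b.as_sum, map_sum]
  refine Submodule.sum_mem _ fun u hu => ?_
  have h1 : u.degree = k := by
    by_contra h
    exact mem_support_iff.1 hu (hb.coeff_eq_zero h)
  rw [Finsupp.degree_eq_sum, Fin.sum_univ_succ] at h1
  have h2 : ∀ i : Fin d, u i.succ < m + 1 := fun i => by
    have := Finset.single_le_sum (f := fun i : Fin d => u i.succ) (fun _ _ => Nat.zero_le _)
      (Finset.mem_univ i)
    omega
  rw [← mul_one (coeff u b), ← smul_eq_mul, ← smul_monomial, map_smul]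
  refine Submodule.smul_mem _ _ (Submodule.subset_span ⟨fun i => ⟨_, h2 i⟩, ?_⟩)
  refine congrArg (fun w => f (monomial w 1)) (Finsupp.ext fun i => ?_)
  refine Fin.cases ?_ (fun i => rfl) i
  simp only [Finsupp.equivFunOnFinite_symm_apply_apply, Fin.cons_zero]
  omega

lemma alg {e m D : ℕ} (t : K) {g : MP M} {b : ℕ → MP n} {k : ℕ → ℕ}
    (h1 : ∀ j, (b j).IsHomogeneous (k j)) (h2 : ∀ j < D, b j = 0 ∨ e * k j + m * j = m * D)
    (h3 : ψ (g ^ D + ∑ j ∈ Finset.range D, aeval θ (b j) * g ^ j) = 0) :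
    IsIntegral (Algebra.adjoin ℂ (range fun i => ψ (θ i) / t ^ e)) (ψ g / t ^ m) := by
  have h4 : ∀ p : MP n, aeval (fun i => ψ (θ i) / t ^ e) p ∈
      Algebra.adjoin ℂ (range fun i => ψ (θ i) / t ^ e) := fun p => by
    rw [Algebra.adjoin_range_eq_range_aeval]; exact ⟨p, rfl⟩
  refine ⟨_, Polynomial.monic_X_pow_add (Polynomial.degree_sum_fin_lt
    fun j : Fin D => ⟨_, h4 (b j)⟩), ?_⟩
  have h5 := congrArg (fun a => a / t ^ (m * D)) h3
  simp only [zero_div, map_add, map_sum, map_mul, map_pow, add_div,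
    Finset.sum_div] at h5
  rw [Polynomial.eval₂_add, Polynomial.eval₂_finsetSum, Polynomial.eval₂_X_pow, ← h5, div_pow,
    ← pow_mul, Finset.sum_range]
  congr 1
  refine Finset.sum_congr rfl fun j _ => ?_
  rw [Polynomial.eval₂_mul, Polynomial.eval₂_C, Polynomial.eval₂_X_pow]
  change aeval _ (b j) * _ = _
  rcases h2 j j.2 with h | h
  · simp [h]
  · rw [aeval_div _ _ (h1 j), ← h, comp_aeval_apply, div_pow, ← pow_mul,
      ← pow_mul, pow_add, div_mul_div_comm]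

lemma gens {A B : Type} [CommRing A] [CommRing B] [Algebra A B] (h : Module.Finite A B) :
    ∃ (N : ℕ) (s : Fin N → B), ∀ x, ∃ α : Fin N → A, ∑ j, algebraMap A B (α j) * s j = x := by
  obtain ⟨N, s, hs⟩ := Module.Finite.exists_fin (R := A) (M := B)
  refine ⟨N, s, fun x => ?_⟩
  simpa only [Algebra.smul_def] using
    (Submodule.mem_span_range_iff_exists_fun A).1 (hs.ge (Submodule.mem_top (x := x)))

lemma up (hψ : ∀ p, ψ p = 0 ↔ p ∈ I) {d : ℕ} {θ : Fin (d + 1) → MP M}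
    [Algebra (MP (d + 1)) (MP M ⧸ I)] (hA : AS I θ) {e : ℕ} (hH : Hom I θ wt e) :
    ∃ C : ℕ, ∀ m, finrank ℂ (Ug ψ wt m) ≤ C * (m + 1) ^ d := by
  obtain ⟨N, s, hs⟩ := gens hA.fin
  choose p hp using fun j => Ideal.Quotient.mk_surjective (s j)
  obtain ⟨T, hT⟩ : ∃ T, ∀ j, ∑ δ : Fin T, weightedHomogeneousComponent wt (δ : ℕ) (p j) = p j := by
    refine ⟨(Finset.univ.sup fun j => weightedTotalDegree wt (p j)) + 1, fun j => ?_⟩
    rw [← Finset.sum_range fun δ => weightedHomogeneousComponent wt δ (p j)]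
    refine (finsum_eq_sum_of_support_subset _ fun δ hδ => ?_).symm.trans
      (sum_weightedHomogeneousComponent wt (p j))
    have := Finset.le_sup (f := fun j => weightedTotalDegree wt (p j)) (Finset.mem_univ j)
    by_contra h
    exact hδ (weightedHomogeneousComponent_eq_zero δ (p j) (by simp at h this ⊢; omega))
  refine ⟨N * T, fun m => ?_⟩
  let f : Fin N × Fin T → MP (d + 1) →ₗ[ℂ] K := fun x =>
    (LinearMap.mulRight ℂ (ψ (weightedHomogeneousComponent wt (x.2 : ℕ) (p x.1)))).comp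
      (ψ.comp (aeval θ)).toLinearMap
  let v : (Fin N × Fin T) × (Fin d → Fin (m + 1)) → K := fun x => f x.1 (monomial
    (Finsupp.equivFunOnFinite.symm
      (Fin.cons ((m - x.1.2) / e - ∑ i, (x.2 i : ℕ)) fun i => (x.2 i : ℕ))) 1)
  have h1 : Ug ψ wt m ≤ Submodule.span ℂ (range v) := by
    rintro _ ⟨q, hq : q.IsWeightedHomogeneous wt m, rfl⟩
    obtain ⟨α, hα⟩ := hs (Ideal.Quotient.mk I q)
    have h2 : q - ∑ x : Fin N × Fin T,
        aeval θ (α x.1) * weightedHomogeneousComponent wt (x.2 : ℕ) (p x.1) ∈ I := by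
      rw [← Ideal.Quotient.eq, ← hα, Fintype.sum_prod_type, map_sum]
      refine Finset.sum_congr rfl fun j _ => ?_
      dsimp only
      rw [← Finset.mul_sum, hT, map_mul, hp, hA.alg]
    choose b b1 b2 b3 using fun x : Fin N × Fin T => comp_mul hH.hθ hH.he (α x.1)
      (weightedHomogeneousComponent_isWeightedHomogeneous (w := wt) (x.2 : ℕ) (p x.1)) m
    have h3 := hH.hI _ h2 m
    rw [map_sub, map_sum, hq.weightedHomogeneousComponent_same] at h3
    simp only [b3] at h3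
    rw [AlgHom.toLinearMap_apply, (eq_iff hψ).2 h3, map_sum]
    refine Submodule.sum_mem _ fun x _ => ?_
    rw [map_mul]
    refine Submodule.span_mono ?_
      (mem_span ((Nat.div_le_self _ _).trans (Nat.sub_le m _)) (f x) (b1 x))
    rintro _ ⟨γ, rfl⟩
    exact ⟨(x, γ), rfl⟩
  have h2 : FiniteDimensional ℂ (Submodule.span ℂ (range v)) :=
    FiniteDimensional.span_of_finite ℂ (finite_range v)
  refine (Submodule.finrank_mono h1).trans ((finrank_range_le_card v).trans ?_)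
  simp only [Fintype.card_prod, Fintype.card_fun, Fintype.card_fin, le_refl]

variable [Algebra (MP n) (MP M ⧸ I)]

lemma int (hψ : ∀ p, ψ p = 0 ↔ p ∈ I) (hA : AS I θ) (a : MP M) :
    IsIntegral (Algebra.adjoin ℂ (range fun i => ψ (θ i))) (ψ a) := by
  have h1 : ∀ p : MP n, aeval (fun i => ψ (θ i)) p ∈
      Algebra.adjoin ℂ (range fun i => ψ (θ i)) := fun p => by
    rw [Algebra.adjoin_range_eq_range_aeval]; exact ⟨p, rfl⟩
  refine (hA.int (Ideal.Quotient.mk I a)).map_of_comp_eq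
    ((aeval (fun i => ψ (θ i))).codRestrict _ h1).toRingHom
    (Ideal.Quotient.lift I (ψ : MP M →+* K) fun p => (hψ p).2) (RingHom.ext fun p => ?_)
  rw [RingHom.comp_apply, RingHom.comp_apply, hA.alg, Ideal.Quotient.lift_mk, RingHom.coe_coe,
    comp_aeval_apply]
  rfl

lemma basis (hψ : ∀ p, ψ p = 0 ↔ p ∈ I) (hK : ∀ a : K, ∃ p q, q ∉ I ∧ a * ψ q = ψ p)
    (hA : AS I θ) : IsTranscendenceBasis ℂ fun i => ψ (θ i) := by
  have h1 : AlgebraicIndependent ℂ fun i => ψ (θ i) := by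
    refine algebraicIndependent_iff.2 fun p hp => hA.inj ?_
    rw [← comp_aeval_apply, hψ] at hp
    rw [hA.alg, map_zero, Ideal.Quotient.eq_zero_iff_mem.2 hp]
  refine h1.isTranscendenceBasis_iff_isAlgebraic.2 ⟨fun a => ?_⟩
  obtain ⟨p, q, hq, h⟩ := hK a
  rw [eq_div_of_mul_eq ((hψ q).not.2 hq) h, div_eq_mul_inv]
  exact (int hψ hA p).isAlgebraic.mul (int hψ hA q).isAlgebraic.inv

lemma findim (hψ : ∀ p, ψ p = 0 ↔ p ∈ I)
    (hK : IntermediateField.adjoin ℂ (range fun l => ψ (X l)) = ⊤) (hA : AS I θ) :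
    FiniteDimensional (IntermediateField.adjoin ℂ (range fun i => ψ (θ i))) K := by
  set F := IntermediateField.adjoin ℂ (range fun i => ψ (θ i))
  have h1 : ∀ x ∈ range fun l => ψ (X l), IsIntegral F x := by
    rintro _ ⟨l, rfl⟩
    exact (int hψ hA (X l)).map_of_comp_eq
      (Subalgebra.inclusion (IntermediateField.algebra_adjoin_le_adjoin _ _)).toRingHom
      (RingHom.id _) rfl
  have h2 := IntermediateField.finiteDimensional_adjoin h1
  rw [IntermediateField.adjoin_eq_top_of_adjoin_eq_top ℂ hK] at h2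
  exact IntermediateField.topEquiv.toLinearEquiv.finiteDimensional

end VHom

theorem Um_one : (1 : FnF I) ∈ Um I wt 0 :=
  mem_Um.2 ⟨1, isWeightedHomogeneous_one _ _, map_one _⟩

theorem Um_mul (m m' : ℕ) : ∀ a ∈ Um I wt m, ∀ b ∈ Um I wt m', a * b ∈ Um I wt (m + m') := by
  intro a ha b hb
  obtain ⟨p, hp, rfl⟩ := mem_Um.1 ha
  obtain ⟨q, hq, rfl⟩ := mem_Um.1 hb
  exact mem_Um.2 ⟨p * q, hp.mul hq, map_mul _ _ _⟩

theorem Um_fd (hw : ∀ l, 0 < wt l) (m : ℕ) : FiniteDimensional ℂ (Um I wt m) :=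
  VHom.fd (ψ := cl I) hw m

theorem Bas.um {m N : ℕ} {s : Fin N → MP M} (hs : Bas I wt m s) :
    LinearIndependent ℂ (fun i => cl I (s i)) ∧ (∀ i, cl I (s i) ∈ Um I wt m) ∧
      N = finrank ℂ (Um I wt m) :=
  VHom.um (ψ := cl I) (fun _ => cl_eq_zero) hs

theorem bas_of_um (hw : ∀ l, 0 < wt l) {m N : ℕ} {b : Fin N → FnF I} (h1 : LinearIndependent ℂ b)
    (h2 : ∀ i, b i ∈ Um I wt m) (h3 : N = finrank ℂ (Um I wt m)) :
    ∃ s : Fin N → MP M, Bas I wt m s ∧ ∀ i, cl I (s i) = b i :=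
  VHom.of_um (ψ := cl I) (fun _ => cl_eq_zero) hw h1 h2 h3

variable {θ : Fin n → MP M} [Algebra (MP n) (MP M ⧸ I)]

theorem AS.int_cl (hA : AS I θ) (a : MP M) :
    IsIntegral (Algebra.adjoin ℂ (range fun i => cl I (θ i))) (cl I a) :=
  VHom.int (ψ := cl I) (fun _ => cl_eq_zero) hA a

theorem AS.basis (hA : AS I θ) : IsTranscendenceBasis ℂ fun i => cl I (θ i) :=
  VHom.basis (ψ := cl I) (fun _ => cl_eq_zero) exists_cl hA

theorem AS.findim (hA : AS I θ) :
    FiniteDimensional (IntermediateField.adjoin ℂ (range fun i => cl I (θ i))) (FnF I) :=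
  VHom.findim (ψ := cl I) (fun _ => cl_eq_zero) adjoin_cl hA

theorem AS.hom_eq (hA : AS I θ) {e : ℕ} (hH : Hom I θ wt e) {g : MP M} {m : ℕ}
    (hg : g.IsWeightedHomogeneous wt m) : ∃ (D : ℕ) (b : ℕ → MP n) (k : ℕ → ℕ),
      (∀ j, (b j).IsHomogeneous (k j)) ∧ (∀ j < D, b j = 0 ∨ e * k j + m * j = m * D) ∧
      g ^ D + ∑ j ∈ Finset.range D, aeval θ (b j) * g ^ j ∈ I := by
  obtain ⟨P, hP, h⟩ := hA.int (Ideal.Quotient.mk I g)
  have h0 : ∀ j, (g ^ j).IsWeightedHomogeneous wt (m * j) := fun j => by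
    simpa [mul_comm] using hg.pow j
  have h1 : g ^ P.natDegree + ∑ j ∈ Finset.range P.natDegree, aeval θ (P.coeff j) * g ^ j ∈ I := by
    rw [hP.as_sum, Polynomial.eval₂_add, Polynomial.eval₂_finsetSum, Polynomial.eval₂_X_pow] at h
    rw [← Ideal.Quotient.eq_zero_iff_mem, ← h, map_add, map_sum, map_pow]
    congr 1
    refine Finset.sum_congr rfl fun j _ => ?_
    rw [Polynomial.eval₂_mul, Polynomial.eval₂_C, Polynomial.eval₂_X_pow, map_mul, map_pow, hA.alg]
  choose b b1 b2 b3 using fun j => VHom.comp_mul hH.hθ hH.he (P.coeff j) (h0 j) (m * P.natDegree)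
  have h2 := hH.hI _ h1 (m * P.natDegree)
  rw [map_add, map_sum, (h0 _).weightedHomogeneousComponent_same] at h2
  simp only [b3] at h2
  exact ⟨_, b, _, b1, fun j _ => b2 j, h2⟩

theorem AS.hom_alg (hA : AS I θ) {e : ℕ} (hH : Hom I θ wt e) {L : Type} [Field L] [Algebra ℂ L]
    (φ : FnF I →ₐ[ℂ] L) {t : L} (ht : t ≠ 0) {g : MP M} {m : ℕ}
    (hg : g.IsWeightedHomogeneous wt m) :
    IsIntegral (Algebra.adjoin ℂ (range fun i => φ (cl I (θ i)) / t ^ e))
      (φ (cl I g) / t ^ m) := by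
  obtain ⟨D, b, k, h1, h2, h3⟩ := hA.hom_eq hH hg
  exact VHom.alg (ψ := φ.comp (cl I)) t h1 h2
    ((congrArg φ (cl_eq_zero.2 h3)).trans (map_zero φ))

theorem AS.um_up {d : ℕ} {θ : Fin (d + 1) → MP M} [Algebra (MP (d + 1)) (MP M ⧸ I)] (hA : AS I θ)
    {e : ℕ} (hH : Hom I θ wt e) : ∃ C : ℕ, ∀ m, finrank ℂ (Um I wt m) ≤ C * (m + 1) ^ d :=
  VHom.up (ψ := cl I) (fun _ => cl_eq_zero) hA hH

end Pool.Agent.Lib.MP_bc3ae6_ag
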