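import Pool.Agent.Lib.MP_bc3ae6_ag.VB2
import Pool.Agent.Lib.MP_bc3ae6_ag.VHom
import Pool.Agent.Lib.MP_bc3ae6_ag.VPt
import Pool.Agent.Lib.MP_bc3ae6_ag.LocInt

set_option autoImplicit false
set_option linter.unusedSectionVars false

/-! Valuative inequalities for invariant divisors imply integrability. -/

namespace Pool.Agent.Lib.MP_bc3ae6_ag

open MvPolynomial Set Real MeasureTheory Filter Topology
open scoped Polynomial ENNReal

variable {n M : ℕ} {I : Ideal (MP M)} [I.IsPrime] {θ : Fin (n + 1) → MP M}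
  [Algebra (MP (n + 1)) (MP M ⧸ I)] {d : ℕ} {F : Fin M → (MP (n + 1))[X]}
  {h : MvPolynomial (Fin (n + 1) ⊕ Fin M) ℂ} {wt : Fin M → ℕ} {e : ℕ}

theorem AS.valB (hA : AS I θ) (hG : Geo I θ d F h) (hH : Hom I θ wt e) {g f : MP M} {m df : ℕ}
    (hg : IsWeightedHomogeneous wt g m) (hf : IsWeightedHomogeneous wt f df) (hg0 : g ∉ I)
    (hf0 : f ∉ I) {c s a : ℝ} (hc : 0 ≤ c) (hs : 0 ≤ s) (ha : 0 < a) (ha1 : a < 1)
    (H : ∀ E : PrimeDiv (FnF I) (Fin (n + 1)), E.Meets (zeroLocus ℂ I \ {0}) → E.Homog wt →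
      c * E.o (cl I g) + s * E.o (cl I f) ≤ a * (1 + E.o (E.jac fun i => cl I (θ i)))) :
    ∀ ρ > 0, ∫⁻ y in Sh θ ρ, ‖eval y g‖ₑ ^ (-(2 * c)) ∂(mu I θ f s) < ⊤ := by
  refine (hG.li_iff hH f s _).1 fun x hx => ?_
  obtain ⟨i₀, hi⟩ : ∃ i, eval x (θ i) ≠ 0 :=
    Function.ne_iff.1 fun h => hx.2 (hG.eq_zero hH hx.1 h)
  obtain ⟨ρ, hρ⟩ := ((eventually_ge_atTop 1).and ((eventually_gt_atTop ‖pr θ x‖).and
    (tendsto_inv_atTop_zero.eventually_lt_const (norm_pos_iff.2 hi)))).exists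
  obtain ⟨G, C, κ, h1, hC, h2⟩ := local_bound (L := AlgebraicClosure (FnF I)) (cl I) hH.he hA.basis
    adjoin_cl hA.int_cl (fun t ht q m hq => hA.hom_alg hH (IsScalarTower.toAlgHom ℂ _ _) ht hq)
    hg hf (cl_eq_zero.not.2 hg0) (cl_eq_zero.not.2 hf0) hc hs ha i₀ (fun E h1 h2 h3 => by
      obtain ⟨y, h4, h5, h6⟩ := E.exists_centre h1 h2
      refine H E ⟨h1, y, ⟨h4, ?_⟩, h6⟩ h3
      rintro rfl
      exact h5 (congrFun hH.pr_zero i₀))
    (fun i => eval x (θ (i₀.succAbove i)) / eval x (θ i₀)) hρ.1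
  have h3 : ∀ᶠ z in 𝓝 x, (ρ⁻¹ < ‖eval z (θ i₀)‖ ∧ ‖pr θ z‖ < ρ) ∧ ∀ i,
      ‖eval z (θ (i₀.succAbove i)) / eval z (θ i₀) - eval x (θ (i₀.succAbove i)) / eval x (θ i₀)‖
        < C⁻¹ := by
    refine (((cont_ev _).norm.continuousAt.eventually_const_lt hρ.2.2).and
      ((cont_pr θ).norm.continuousAt.eventually_lt_const hρ.2.1)).and (eventually_all.2 fun i => ?_)
    have h4 : ContinuousAt (fun z => eval z (θ (i₀.succAbove i)) / eval z (θ i₀)) x :=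
      (cont_ev _).continuousAt.div (cont_ev _).continuousAt hi
    exact (tendsto_iff_norm_sub_tendsto_zero.1 h4).eventually_lt_const (inv_pos.2 hC)
  obtain ⟨V, hV, hV1, hV2⟩ := mem_nhds_iff.1 h3
  refine ⟨V, hV1.mem_nhds hV2, ?_⟩
  let W := {w : Fin (n + 1) → ℂ | ρ⁻¹ ≤ ‖w i₀‖ ∧ ‖w‖ ≤ ρ}
  have hW : MeasurableSet W := ((isClosed_le continuous_const (continuous_apply i₀).norm).inter
    (isClosed_le continuous_norm continuous_const)).measurableSet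
  rw [← lintegral_indicator hV1.measurableSet, lint_mu _ _
    ((meas_dens g c).indicator hV1.measurableSet)]
  refine (lintegral_mono_ae (g := fun z => W.indicator (fun w => ENNReal.ofReal (exp κ) *
    G (fun i => w (i₀.succAbove i) / w i₀) ^ (-(2 * a))) (pr θ z)) ?_).trans_lt
    ((hG.ff.lint_comp_le _ _).trans_lt ?_)
  · filter_upwards [hG.ff.ae_mem volume] with z hz
    by_cases h4 : z ∈ V
    · obtain ⟨P, hP⟩ := exists_pt_cl (L := AlgebraicClosure (FnF I)) hz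
      rw [indicator_of_mem h4, indicator_of_mem (show pr θ z ∈ W from ⟨(hV h4).1.1.le, (hV h4).1.2.le⟩)]
      exact h2 z P hP (hV h4).1.1.le fun i => ((hV h4).2 i).le
    · simp [h4]
  · rw [lintegral_indicator hW, lintegral_const_mul' _ _ ENNReal.ofReal_ne_top]
    exact ENNReal.mul_lt_top (ENNReal.natCast_lt_top _) (ENNReal.mul_lt_top ENNReal.ofReal_lt_top
      (h1.hom i₀ ha ha1 (one_pos.trans_le hρ.1)))

end Pool.Agent.Lib.MP_bc3ae6_ag
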