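import Pool.Agent.Lib.MP_bc3ae6_ag.VM
import Pool.Agent.Lib.MP_bc3ae6_ag.VArch

set_option autoImplicit false
set_option linter.unusedSectionVars false

/-! From valuative inequalities to pointwise bounds. -/

namespace Pool.Agent.Lib.MP_bc3ae6_ag

open MvPolynomial Set Real
open scoped Polynomial ENNReal

lemma Mono.triv_all {L ι : Type} [Field L] [Algebra ℂ L] {w : AbsoluteValue L ℝ} (hw : NA w)
    {y : ι → L} (hy : Mono w y) (hb : IsTranscendenceBasis ℂ y) (h : ∀ i, w (y i) = 1) {a : L}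
    (ha : a ≠ 0) : w a = 1 := by
  have h1 : ∀ Q : MvPolynomial ι ℂ, Q ≠ 0 → w (aeval y Q) = 1 := fun Q hQ => by
    obtain ⟨d, -, h1⟩ := hy.exists_eq hw hQ
    simp [h1, Finsupp.prod, h]
  obtain ⟨P, hP, h2⟩ := hb.isAlgebraic_field.1 a
  obtain ⟨k, hk, -, c, hc, h3⟩ := hw.exists_pow_eq ha hP h2
  obtain ⟨p, q, h4⟩ := (IntermediateField.mem_adjoin_range_iff _ _ _).1 c.2
  have hc' : (c : L) ≠ 0 := fun h => hc (Subtype.ext h)
  rw [IntermediateField.algebraMap_apply, h4, map_div₀, h1 p (by rintro rfl; simp [hc'] at h4),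
    h1 q (by rintro rfl; simp [hc'] at h4), div_one] at h3
  exact (pow_eq_one_iff_of_nonneg (w.nonneg _) hk.ne').1 h3

lemma PrimeDiv.o_jac_perm {K ι : Type} [Field K] [Algebra ℂ K] [Fintype ι] [DecidableEq ι]
    (E : PrimeDiv K ι) (θ : ι → K) (u : Equiv.Perm ι) : E.o (E.jac (θ ∘ u)) = E.o (E.jac θ) := by
  have := Matrix.det_permute' u (Matrix.of fun i j => E.D i (θ j))
  rw [PrimeDiv.jac, show (Matrix.of fun i j => E.D i ((θ ∘ u) j)) =
    (Matrix.of fun i j => E.D i (θ j)).submatrix id u from rfl, this]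
  rcases Int.units_eq_one_or (Equiv.Perm.sign u) with h | h <;> simp [h, PrimeDiv.o, PrimeDiv.jac]

lemma key_ineq {K L ι σ : Type} [Field K] [Field L] [Algebra ℂ K] [Algebra ℂ L] [Algebra K L]
    [IsScalarTower ℂ K L] [IsAlgClosed L] [Algebra.IsAlgebraic K L] [Fintype ι] [DecidableEq ι]
    [Finite σ] {w : AbsoluteValue L ℝ} (hw : NA w) {y : ι → L} (hy : Mono w y) {x : σ → K}
    (hK : IntermediateField.adjoin ℂ (range x) = ⊤) {θ : ι → K} (hθ : IsTranscendenceBasis ℂ θ)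
    (hs : ∀ i, ∃ s : ℤ, w (y i) = exp s) {T : Matrix ι ι L} (hT1 : w T.det = 1)
    (hT : ∀ (D : Derivation ℂ L L) (j : ι), D (algebraMap K L (θ j)) = ∑ l, T j l * D (y l))
    {g f : K} (hg : g ≠ 0) (hf : f ≠ 0) {c s a : ℝ} (ha : 0 ≤ a)
    (H : ∀ (E : PrimeDiv K ι) (l : ℝ), 0 < l →
      (∀ b, b ≠ 0 → w (algebraMap K L b) = exp (-(l * E.o b))) →
      c * E.o g + s * E.o f ≤ a * (1 + E.o (E.jac θ))) :
    a * log (∏ i, w (y i)) ≤ c * log (w (algebraMap K L g)) + s * log (w (algebraMap K L f)) := by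
  by_cases hn : ∃ i, w (y i) ≠ 1
  · obtain ⟨E, l, hl, h1, h2⟩ := jac hw hy hK hθ hs hn hT
    rw [hT1, mul_one, ← log_le_iff_le_exp (Finset.prod_pos fun i _ => w.pos (hy.1 i))] at h2
    rw [h1 g hg, h1 f hf, log_exp, log_exp]
    have h3 := mul_le_mul_of_nonneg_left (H E l hl h1) hl.le
    have h4 := mul_le_mul_of_nonneg_left h2 ha
    linarith
  · push Not at hn
    have h1 := fun b (hb : b ≠ 0) => hy.triv_all hw (basis_of_card (basis_map hθ) hy.indep) hn
      ((map_ne_zero (algebraMap K L)).2 hb)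
    simp [hn, h1 g hg, h1 f hf]

lemma enn_bound {x y : ℂ} {p C a c s κ : ℝ} {G : ℝ≥0∞} (hx : x ≠ 0) (hy : y ≠ 0) (hp : 0 < p)
    (hC : 0 < C) (ha : 0 ≤ a) (hG : G ≤ ENNReal.ofReal (C * p))
    (h : a * log p ≤ c * log ‖x‖ + s * log ‖y‖ + κ) : ‖x‖ₑ ^ (-(2 * c)) * ‖y‖ₑ ^ (-(2 * s))
      ≤ ENNReal.ofReal (exp (2 * κ + 2 * a * log C)) * G ^ (-(2 * a)) := by
  have h1 := norm_pos_iff.2 hx
  have h2 := norm_pos_iff.2 hy
  refine le_trans ?_ (mul_le_mul_right (b := ENNReal.ofReal (C * p) ^ (-(2 * a))) ?_ _)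
  · rw [← ofReal_norm, ← ofReal_norm, ENNReal.ofReal_rpow_of_pos h1, ENNReal.ofReal_rpow_of_pos h2,
      ENNReal.ofReal_rpow_of_pos (by positivity), ← ENNReal.ofReal_mul (by positivity),
      ← ENNReal.ofReal_mul (by positivity), rpow_def_of_pos h1, rpow_def_of_pos h2,
      rpow_def_of_pos (by positivity), ← exp_add, ← exp_add, log_mul hC.ne' hp.ne']
    exact ENNReal.ofReal_le_ofReal (exp_le_exp.2 (by linarith))
  · rw [ENNReal.rpow_neg, ENNReal.rpow_neg]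
    exact ENNReal.inv_le_inv.2 (ENNReal.rpow_le_rpow hG (by positivity))

/-- The change from homogeneous to affine coordinates. -/
lemma hom_matrix {L : Type} [Field L] [Algebra ℂ L] {n e : ℕ} (he : 0 < e) {x : Fin (n + 1) → L}
    {w : AbsoluteValue L ℝ} (ht : Triv w) (h1 : w (x 0) = 1) :
    ∃ B : Matrix (Fin (n + 1)) (Fin (n + 1)) L, w B.det = 1 ∧ ∀ (D : Derivation ℂ L L) j,
      D ((if j = 0 then 1 else x j) * x 0 ^ e) = ∑ k, B j k * D (x k) := by
  refine ⟨fun j k => if k = 0 then (if j = 0 then 1 else x j) * (e * x 0 ^ (e - 1))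
    else if j = k then x 0 ^ e else 0, ?_, fun D j => ?_⟩
  · rw [Matrix.det_of_isLowerTriangular, map_prod]
    · refine Finset.prod_eq_one fun j _ => ?_
      by_cases h : j = 0 <;> simp [h, h1, ht.nat he.ne']
    · intro i j hij
      have h : i < j := hij
      simp [h.ne, (Fin.pos_iff_ne_zero.1 ((Fin.zero_le i).trans_lt h))]
  · rw [Fin.sum_univ_succ]
    refine Fin.cases ?_ (fun j => ?_) j
    · simp [Derivation.leibniz_pow, mul_assoc, (Fin.succ_ne_zero _).symm]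
    · simp [Derivation.leibniz_pow, mul_assoc]

end Pool.Agent.Lib.MP_bc3ae6_ag
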