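import Pool.Agent.Lib.MP_bc3ae6_ag.VB1

set_option autoImplicit false
set_option linter.unusedSectionVars false

/-! Pointwise bounds on a cone from valuative inequalities for invariant divisors. -/

namespace Pool.Agent.Lib.MP_bc3ae6_ag

open MvPolynomial Set Real
open scoped Polynomial ENNReal

lemma hom_basis {L : Type} [Field L] [Algebra ℂ L] {n e : ℕ} {Θ x : Fin (n + 1) → L}
    (hΘ : IsTranscendenceBasis ℂ Θ) (h : ∀ j, Θ j = (if j = 0 then 1 else x j) * x 0 ^ e) :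
    IsTranscendenceBasis ℂ x := by
  have h1 : ∀ j, x j ∈ Algebra.adjoin ℂ (range x) := fun j => Algebra.subset_adjoin ⟨j, rfl⟩
  have : Algebra.IsAlgebraic (Algebra.adjoin ℂ (range x)) L := ⟨fun a =>
    (hΘ.isAlgebraic.1 a).tower_top_of_subalgebra_le (Algebra.adjoin_le (range_subset_iff.2 fun j => by
      rw [h j]
      refine mul_mem ?_ (pow_mem (h1 0) e)
      split_ifs
      exacts [one_mem _, h1 j]))⟩
  exact Algebra.IsAlgebraic.isTranscendenceBasis_of_le_trdeg_of_finite ℂ x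
    hΘ.cardinalMk_eq_trdeg.le

lemma gauss_hom {L' L σ : Type} [Field L'] [Field L] [Algebra ℂ L] [Algebra L' L]
    {w : AbsoluteValue L ℝ} {t : L} (ht : t ≠ 0) (hg : ∀ (P : L'[X]) (i : ℕ),
      w (algebraMap L' L (P.coeff i) * t ^ i) ≤ w (Polynomial.aeval t P))
    (φ : MvPolynomial σ ℂ →ₐ[ℂ] L) {wt : σ → ℕ} (hh : ∀ q m, IsWeightedHomogeneous wt q m →
      ∃ b, algebraMap L' L b = φ q / t ^ m) (a : MvPolynomial σ ℂ) (k : ℕ) :
    w (φ (weightedHomogeneousComponent wt k a)) ≤ w (φ a) := by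
  classical
  choose b hb using fun k => hh _ k (weightedHomogeneousComponent_isWeightedHomogeneous k a)
  have h1 : ∀ k, algebraMap L' L (b k) * t ^ k = φ (weightedHomogeneousComponent wt k a) :=
    fun k => by rw [hb, div_mul_cancel₀ _ (pow_ne_zero _ ht)]
  let S := insert k (weightedHomogeneousComponent_finsupp (w := wt) a).toFinset
  have h2 := hg (∑ j ∈ S, Polynomial.monomial j (b j)) k
  simp only [Polynomial.finsetSum_coeff, Polynomial.coeff_monomial, Finset.sum_ite_eq', S,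
    Finset.mem_insert_self, if_true, map_sum, Polynomial.aeval_monomial, h1] at h2
  rwa [← map_sum, ← finsum_eq_sum_of_support_subset _ (by simp [subset_insert]),
    sum_weightedHomogeneousComponent] at h2

theorem local_bound {n M : ℕ} {K L : Type} [Field K] [Field L] [Algebra ℂ K] [Algebra ℂ L]
    [Algebra K L] [IsScalarTower ℂ K L] [IsAlgClosed L] [Algebra.IsAlgebraic K L]
    (φ : MP M →ₐ[ℂ] K) {θ : Fin (n + 1) → MP M} {wt : Fin M → ℕ} {e : ℕ} (he : 0 < e)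
    (hθ : IsTranscendenceBasis ℂ fun i => φ (θ i))
    (hK : IntermediateField.adjoin ℂ (range fun l => φ (X l)) = ⊤)
    (hi : ∀ a, IsIntegral (Algebra.adjoin ℂ (range fun i => φ (θ i))) (φ a))
    (hh : ∀ t : L, t ≠ 0 → ∀ q m, IsWeightedHomogeneous wt q m → IsIntegral
      (Algebra.adjoin ℂ (range fun i => algebraMap K L (φ (θ i)) / t ^ e))
      (algebraMap K L (φ q) / t ^ m))
    {g f : MP M} {m df : ℕ} (hg : IsWeightedHomogeneous wt g m)
    (hf : IsWeightedHomogeneous wt f df) (hg0 : φ g ≠ 0) (hf0 : φ f ≠ 0) {c s a : ℝ} (hc : 0 ≤ c)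
    (hs : 0 ≤ s) (ha : 0 < a) (i₀ : Fin (n + 1))
    (H : ∀ E : PrimeDiv K (Fin (n + 1)), (∀ b, 0 ≤ E.ord (φ b)) → E.ord (φ (θ i₀)) = 0 →
      (∀ b k, E.ord (φ b) ≤ E.ord (φ (weightedHomogeneousComponent wt k b))) →
      c * E.o (φ g) + s * E.o (φ f) ≤ a * (1 + E.o (E.jac fun i => φ (θ i))))
    (u : Fin n → ℂ) {ρ : ℝ} (hρ : 1 ≤ ρ) :
    ∃ (G : (Fin n → ℂ) → ℝ≥0∞) (C κ : ℝ), LI G ∧ 0 < C ∧ ∀ (z : Fin M → ℂ) (P : Pt L),
      (∀ b, algebraMap K L (φ b) ∈ P.O ∧ P.ev (algebraMap K L (φ b)) = eval z b) →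
      ρ⁻¹ ≤ ‖eval z (θ i₀)‖ → (∀ i, ‖eval z (θ (i₀.succAbove i)) / eval z (θ i₀) - u i‖ ≤ C⁻¹) →
      ‖eval z g‖ₑ ^ (-(2 * c)) * ‖eval z f‖ₑ ^ (-(2 * s)) ≤ ENNReal.ofReal (exp κ) *
        G (fun i => eval z (θ (i₀.succAbove i)) / eval z (θ i₀)) ^ (-(2 * a)) := by
  classical
  let ψ := (IsScalarTower.toAlgHom ℂ K L).comp φ
  have hψ : ∀ b, algebraMap K L (φ b) = ψ b := fun _ => rfl
  have hθ' := (isTranscendenceBasis_equiv i₀.cycleRange.symm).2 hθ
  obtain ⟨t, ht⟩ := IsAlgClosed.exists_pow_nat_eq (ψ (θ i₀)) he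
  have ht0 : t ≠ 0 := by
    rintro rfl
    exact (map_ne_zero (algebraMap K L)).2 (hθ.1.ne_zero i₀) (ht.symm.trans (zero_pow he.ne'))
  let x : Fin (n + 1) → L := Fin.cons t fun i => ψ (θ (i₀.succAbove i)) / t ^ e
  have hΘ : ∀ j, ψ (θ (i₀.cycleRange.symm j)) = (if j = 0 then 1 else x j) * x 0 ^ e :=
    fun j => Fin.cases (by simp [x, ht]) (fun j => by simp [x, ht0]) j
  have hx := hom_basis (basis_map (L := L) hθ') hΘ
  obtain ⟨L', _, _, _, _, _, x', hx', hxx, htr, halg, hcl⟩ := exists_sub hx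
  have hh' : ∀ q m, IsWeightedHomogeneous wt q m → ∃ b, algebraMap L' L b = ψ q / t ^ m :=
    fun q m hq => hcl _ ((hh t ht0 q m hq).isAlgebraic.tower_top_of_subalgebra_le
      (Algebra.adjoin_le (range_subset_iff.2 fun j => by
        rcases Fin.eq_self_or_eq_succAbove i₀ j with rfl | ⟨j, rfl⟩
        · rw [hψ, ← ht, div_self (pow_ne_zero _ ht0)]
          exact one_mem _
        · exact Algebra.subset_adjoin ⟨j, rfl⟩)))
  obtain ⟨g', hg'⟩ := hh' g m hg
  obtain ⟨f', hf'⟩ := hh' f df hf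
  have h0 : ∀ {q : MP M} {m : ℕ} {b : L'}, φ q ≠ 0 → algebraMap L' L b = ψ q / t ^ m → b ≠ 0 := by
    rintro q m _ hq h rfl
    exact div_ne_zero ((map_ne_zero (algebraMap K L)).2 hq) (pow_ne_zero _ ht0)
      (h.symm.trans (map_zero _))
  obtain ⟨G, C, hG, hC, hV⟩ := varch n L' x' hx'
    (insert g' (insert f' (Finset.univ.image fun i => x' i - algebraMap ℂ L' (u i)))) (by
      simp only [Finset.mem_insert, Finset.mem_image, not_or, not_exists, not_and]
      exact ⟨(h0 hg0 hg').symm, (h0 hf0 hf').symm, fun i _ h => hx'.1.transcendental i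
        (sub_eq_zero.1 h ▸ isAlgebraic_algebraMap _)⟩)
  have hC0 : 0 < C := one_pos.trans_le hC
  have hρ0 : 0 < ρ := one_pos.trans_le hρ
  refine ⟨G, C, 2 * (c * log (C * ρ ^ m) + s * log (C * ρ ^ df)) + 2 * a * log C, hG, hC0,
    fun z P hP hz hu => ?_⟩
  by_cases hG0 : G (fun i => eval z (θ (i₀.succAbove i)) / eval z (θ i₀)) = 0
  · rw [hG0, ENNReal.zero_rpow_of_neg (by linarith), ENNReal.mul_top (by simp [exp_pos])]
    exact le_top
  simp only [hψ] at hP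
  have htO : t ∈ P.O := P.int t (IsIntegral.of_pow he
    (ht ▸ isIntegral_algebraMap (x := (⟨_, (hP _).1⟩ : P.O))))
  have h1 : P.ev t ^ e = eval z (θ i₀) := by rw [← P.ev_pow htO, ht, (hP _).2]
  have h2 : ρ⁻¹ ≤ ‖P.ev t‖ := by
    rcases le_total 1 ‖P.ev t‖ with h | h
    · exact (inv_le_one_of_one_le₀ hρ).trans h
    · rw [← h1, norm_pow] at hz
      exact hz.trans (pow_le_of_le_one (norm_nonneg _) h he.ne')
  have h3 : 0 < ‖P.ev t‖ := (inv_pos.2 hρ0).trans_le h2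
  let j := IsScalarTower.toAlgHom ℂ L' L
  have h4 : ∀ {q : MP M} {m : ℕ} {b : L'}, algebraMap L' L b = ψ q / t ^ m →
      b ∈ (P.comap j).O ∧ (P.comap j).ev b = eval z q / P.ev t ^ m := fun {q m b} h => by
    have h5 : P.ev (t ^ m) ≠ 0 := by rw [P.ev_pow htO]; exact pow_ne_zero _ (norm_pos_iff.1 h3)
    rw [P.mem_comap, P.ev_comap, show j b = _ from h, div_eq_mul_inv,
      P.ev_mul (hP _).1 (P.inv_mem (pow_mem htO _) h5), P.ev_inv (pow_mem htO _) h5, P.ev_pow htO,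
      (hP _).2]
    exact ⟨mul_mem (hP _).1 (P.inv_mem (pow_mem htO _) h5), rfl⟩
  have h5 : (fun i => (P.comap j).ev (x' i)) =
      fun i => eval z (θ (i₀.succAbove i)) / eval z (θ i₀) :=
    funext fun i => (h4 (hxx i)).2.trans (by rw [h1])
  obtain ⟨y, w', hw', hM, hs', hT, hG1, hF⟩ := hV (P.comap j) (fun i => (h4 (hxx i)).1) (h5 ▸ hG0)
  obtain ⟨w, hw, hw1, hw2, hw3⟩ := ext_gauss htr halg hw' one_pos
  replace hw2 : w t = 1 := hw2
  have hM' := mono_cons (w := w) (by rwa [show pb w _ = w' from AbsoluteValue.ext hw1]) ht0 hw3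
  have h6 : ∀ i, w (ψ (θ i)) ≤ 1 := fun i => by
    rcases Fin.eq_self_or_eq_succAbove i₀ i with rfl | ⟨i, rfl⟩
    · simp [← ht, hw2]
    have h7 := (hF (x' i - algebraMap ℂ L' (u i)) (by simp)).2.2.2
    rw [Pt.ev_sub _ (h4 (hxx i)).1 (Subalgebra.algebraMap_mem _ _), congrFun h5 i, Pt.ev_C] at h7
    have h8 := hw'.add_le (h7.trans ((mul_le_mul_of_nonneg_left (hu i) hC0.le).trans_eq
      (mul_inv_cancel₀ hC0.ne'))) (hM.triv.le (u i))
    rw [sub_add_cancel, ← hw1, hxx] at h8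
    simpa [x, hw2] using h8
  obtain ⟨T, hT1, hT2⟩ := tri_matrix hx (y := Fin.cons t fun i => j (y i)) (by
    have := hT.cons j (s := t) (t := t) (by rw [sub_self]; exact isAlgebraic_zero)
    rwa [show (fun i => j (x' i)) = _ from funext hxx] at this)
  obtain ⟨B, hB1, hB2⟩ := hom_matrix he (x := x) hM'.triv hw2
  have key := key_ineq hw hM' hK hθ' (fun i => Fin.cases ⟨0, by simpa using hw2⟩
      (fun i => (hs' i).imp fun _ h => (hw1 _).trans h) i) (T := B * T)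
    (by rw [Matrix.det_mul, hT1, mul_one, hB1])
    (fun D i => by
      rw [Function.comp, hψ, hΘ, hB2]
      simp only [hT2, Matrix.mul_apply, Finset.mul_sum, Finset.sum_mul, mul_assoc]
      exact Finset.sum_comm) hg0 hf0 (c := c) (s := s) ha.le fun E l hl hE => by
    have h7 : w (algebraMap K L 0) = 0 := by simp
    rw [E.o_jac_perm]
    refine H E (fun b => (E.nonneg_iff hl h7 hE _).2 ?_) (E.eq_zero_of hl h7 hE _ ?_)
      fun b k => (E.le_iff hl h7 hE _ _).2 (gauss_hom ht0 hw3 ψ hh' b k)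
    · refine (hw.pb (algebraMap K L)).le_one (fun ⟨d, hd⟩ => ?_) (hi b)
      rw [Algebra.adjoin_range_eq_range_aeval] at hd
      obtain ⟨Q, rfl⟩ := hd
      exact (congrArg w (comp_aeval_apply _ (IsScalarTower.toAlgHom ℂ K L) Q)).trans_le
        (hM'.triv.aeval_le hw h6 Q)
    · simp [hψ, ← ht, hw2]
  have h7 : ∀ {q : MP M} {m : ℕ} {b : L'}, algebraMap L' L b = ψ q / t ^ m →
      (P.comap j).U w' C b → eval z q ≠ 0 ∧ log (w (ψ q)) ≤ log ‖eval z q‖ + log (C * ρ ^ m) := by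
    intro q m b h hU
    have h8 : eval z q ≠ 0 := fun h' => hU.ne (by simp [(h4 h).2, h'])
    have h9 := hU.2.2.2
    have h10 := w'.pos hU.1
    rw [← hw1, h, map_div₀, map_pow, hw2, one_pow, div_one] at h9 h10
    rw [← log_mul (by simpa using h8) (by positivity)]
    refine ⟨h8, log_le_log h10 (h9.trans ?_)⟩
    rw [(h4 h).2, norm_div, norm_pow, div_eq_mul_inv, ← inv_pow, mul_left_comm]
    gcongr
    exact inv_le_of_inv_le₀ hρ0 h2
  obtain ⟨h8, h9⟩ := h7 hg' (hF _ (by simp))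
  obtain ⟨h10, h11⟩ := h7 hf' (hF _ (by simp))
  refine enn_bound h8 h10 (Finset.prod_pos fun i _ => w'.pos (hM.1 i)) hC0 ha.le (h5 ▸ hG1) ?_
  simp only [Fin.prod_univ_succ, Fin.cons_zero, Fin.cons_succ, hw2, hw1, one_mul, hψ] at key
  linarith [mul_le_mul_of_nonneg_left h9 hc, mul_le_mul_of_nonneg_left h11 hs]

end Pool.Agent.Lib.MP_bc3ae6_ag
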