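import Pool.Agent.Lib.MP_bc3ae6_ag.V1

set_option autoImplicit false
set_option linter.unusedSectionVars false

/-! The box lemma for graded systems of subspaces. -/

namespace Pool.Agent.Lib.MP_bc3ae6_ag

open MvPolynomial Set Module

variable {K : Type} [Field K] [Algebra ℂ K] {w : AbsoluteValue K ℝ}

lemma Triv.bx_smul (ht : Triv w) {c : ℂ} (hc : c ≠ 0) (a : K) : w (c • a) = w a := by
  rw [Algebra.smul_def, map_mul, ht c hc, one_mul]

lemma Triv.bx_smul_le (ht : Triv w) (c : ℂ) (a : K) : w (c • a) ≤ w a := by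
  rw [Algebra.smul_def, map_mul]
  exact mul_le_of_le_one_left (w.nonneg _) (ht.le c)

theorem vals_le_finrank (hw : NA w) (ht : Triv w) {W : Submodule ℂ K} [FiniteDimensional ℂ W]
    {ι : Type} [Fintype ι] {a : ι → K} (h1 : ∀ i, a i ∈ W) (h2 : ∀ i, a i ≠ 0)
    (h3 : Function.Injective fun i => w (a i)) : Fintype.card ι ≤ finrank ℂ W := by
  classical
  have hl : LinearIndependent ℂ a := by
    refine Fintype.linearIndependent_iff.2 fun g hg => ?_
    by_contra! hc
    obtain ⟨i0, hi0⟩ := hc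
    obtain ⟨k, hk, hmax⟩ := (Finset.univ.filter fun i => g i ≠ 0).exists_max_image
      (fun i => w (a i)) ⟨i0, by simpa using hi0⟩
    have hk' : g k ≠ 0 := by simpa using hk
    have h4 := hw.sum_eq (s := Finset.univ) (g := fun i => g i • a i) (Finset.mem_univ k)
      fun j _ hjk => by
        rw [ht.bx_smul hk']
        by_cases hj : g j = 0
        · rw [hj, zero_smul, map_zero]
          exact w.pos (h2 k)
        · rw [ht.bx_smul hj]
          exact (hmax j (by simpa using hj)).lt_of_ne fun e => hjk (h3 e)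
    rw [hg, map_zero, ht.bx_smul hk'] at h4
    exact (w.pos (h2 k)).ne h4
  have hl' : LinearIndependent ℂ fun i => (⟨a i, h1 i⟩ : W) :=
    LinearIndependent.of_comp W.subtype hl
  exact hl'.fintype_card_le_finrank

lemma bx_vals (hw : NA w) (ht : Triv w)
    (hr : ∀ a, w a = 1 → ∃ c : ℂ, w (a - algebraMap ℂ K c) < 1) (n : ℕ) :
    ∀ (W : Submodule ℂ K) [FiniteDimensional ℂ W], finrank ℂ W = n →
      ∃ a : Fin n → K, (∀ i, a i ∈ W) ∧ (∀ i, a i ≠ 0) ∧ Function.Injective fun i => w (a i) := by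
  induction n with
  | zero => exact fun W _ _ => ⟨Fin.elim0, fun i => i.elim0, fun i => i.elim0, fun i => i.elim0⟩
  | succ n ih =>
    intro W _ hW
    let b := Module.finBasisOfFinrankEq ℂ W hW
    obtain ⟨k, -, hk⟩ := Finset.univ.exists_max_image (fun i => w (b i : K)) Finset.univ_nonempty
    have h0 : (b k : K) ≠ 0 := fun e => b.ne_zero k (Subtype.ext e)
    have hp := w.pos h0
    have hle : ∀ a ∈ W, w a ≤ w (b k : K) := fun a ha => by
      have e := congrArg W.subtype (b.sum_repr ⟨a, ha⟩)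
      rw [map_sum] at e
      rw [show a = W.subtype ⟨a, ha⟩ from rfl, ← e]
      refine hw.sum_le hp.le fun i _ => ?_
      rw [map_smul]
      exact (ht.bx_smul_le _ _).trans (hk i (Finset.mem_univ i))
    let W' : Submodule ℂ K :=
      { carrier := {a | a ∈ W ∧ w a < w (b k : K)}
        add_mem' := fun ha hb => ⟨W.add_mem ha.1 hb.1, hw.add_lt ha.2 hb.2⟩
        zero_mem' := ⟨W.zero_mem, by simpa using h0⟩
        smul_mem' := fun c a ha => ⟨W.smul_mem c ha.1, (ht.bx_smul_le c a).trans_lt ha.2⟩ }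
    have hW' : W' ≤ W := fun a ha => ha.1
    have hfd : FiniteDimensional ℂ W' := Submodule.finiteDimensional_of_le hW'
    have hlt : W' < W := lt_of_le_of_ne hW' fun e => by
      have : (b k : K) ∈ W' := e.ge (b k).2
      exact lt_irrefl _ this.2
    have hsup : W ≤ W' ⊔ Submodule.span ℂ {(b k : K)} := fun a ha => by
      rcases (hle a ha).lt_or_eq with h | h
      · exact Submodule.mem_sup_left ⟨ha, h⟩
      · obtain ⟨c, hc⟩ := hr (a / b k) (by rw [map_div₀, h, div_self hp.ne'])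
        have e : a = (a - c • (b k : K)) + c • (b k : K) := by ring
        rw [e]
        refine Submodule.add_mem_sup ⟨W.sub_mem ha (W.smul_mem c (b k).2), ?_⟩
          (Submodule.smul_mem _ c (Submodule.mem_span_singleton_self _))
        have e2 : a - c • (b k : K) = (a / b k - algebraMap ℂ K c) * b k := by
          rw [Algebra.smul_def]; field_simp
        rw [e2, map_mul]
        exact mul_lt_of_lt_one_left hp hc
    have f1 := Submodule.finrank_lt_finrank_of_lt hlt
    have f2 := (Submodule.finrank_mono hsup).trans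
      (Submodule.finrank_add_le_finrank_add_finrank W' _)
    rw [finrank_span_singleton h0] at f2
    obtain ⟨a, a1, a2, a3⟩ := ih W' (by omega)
    refine ⟨Fin.cons (b k : K) a, fun i => ?_, fun i => ?_, fun i j e => ?_⟩
    · refine Fin.cases (b k).2 (fun i => (a1 i).1) i
    · refine Fin.cases h0 (fun i => a2 i) i
    · revert e
      refine Fin.cases ?_ (fun i => ?_) i <;> refine Fin.cases ?_ (fun j => ?_) j <;> intro e
      · rfl
      · exact absurd e (a1 j).2.ne'
      · exact absurd e (a1 i).2.ne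
      · exact congrArg Fin.succ (a3 e)

theorem finrank_le_vals (hw : NA w) (ht : Triv w)
    (hr : ∀ a, w a = 1 → ∃ c : ℂ, w (a - algebraMap ℂ K c) < 1) (W : Submodule ℂ K)
    [FiniteDimensional ℂ W] : ∃ a : Fin (finrank ℂ W) → K, (∀ i, a i ∈ W) ∧ (∀ i, a i ≠ 0) ∧
      Function.Injective fun i => w (a i) :=
  bx_vals hw ht hr _ W rfl

variable {d : ℕ} {θ : Fin (d + 1) → K}

lemma bx_log (hM : Mono w θ) (β : Fin (d + 1) →₀ ℕ) :
    Real.log (w (β.prod fun i k => θ i ^ k)) = ∑ i, (β i : ℝ) * Real.log (w (θ i)) := by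
  rw [Finsupp.prod_fintype _ _ fun i => pow_zero _, map_prod,
    Real.log_prod fun i _ => (w.pos (pow_ne_zero _ (hM.1 i))).ne']
  exact Finset.sum_congr rfl fun i _ => by rw [map_pow, Real.log_pow]

lemma bx_inj (hM : Mono w θ)
    (hi : ∀ k : Fin (d + 1) → ℤ, ∑ i, k i * Real.log (w (θ i)) = 0 → k = 0)
    {β β' : Fin (d + 1) →₀ ℕ}
    (h : w (β.prod fun i k => θ i ^ k) = w (β'.prod fun i k => θ i ^ k)) : β = β' := by
  have h1 := congrArg Real.log h
  rw [bx_log hM, bx_log hM] at h1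
  have h2 := hi (fun i => (β i : ℤ) - β' i) (by
    simp only [Int.cast_sub, Int.cast_natCast, sub_mul, Finset.sum_sub_distrib, h1, sub_self])
  ext i
  have := congrFun h2 i
  simp only [Pi.zero_apply] at this
  omega

lemma bx_lead (hw : NA w) (hM : Mono w θ)
    (hi : ∀ k : Fin (d + 1) → ℤ, ∑ i, k i * Real.log (w (θ i)) = 0 → k = 0)
    {Q : MvPolynomial (Fin (d + 1)) ℂ} (hQ : Q ≠ 0) : ∃ (β : Fin (d + 1) →₀ ℕ) (c : ℂ), c ≠ 0 ∧
      w (aeval θ Q) = w (β.prod fun i k => θ i ^ k) ∧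
      w (aeval θ Q - c • β.prod fun i k => θ i ^ k) < w (β.prod fun i k => θ i ^ k) := by
  obtain ⟨β, hβ, e⟩ := hM.exists_eq hw hQ
  refine ⟨β, coeff β Q, mem_support_iff.1 hβ, e, ?_⟩
  have e1 : aeval θ Q - coeff β Q • β.prod (fun i k => θ i ^ k)
      = aeval θ (Q - monomial β (coeff β Q)) := by
    rw [map_sub, aeval_monomial, Algebra.smul_def]
  rw [e1]
  by_cases h0 : Q - monomial β (coeff β Q) = 0
  · rw [h0, map_zero, map_zero]
    exact hM.pos β
  obtain ⟨β', hβ', e'⟩ := hM.exists_eq hw h0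
  rw [MvPolynomial.mem_support_iff, coeff_sub, coeff_monomial] at hβ'
  have hne : β ≠ β' := fun h => by
    rw [if_pos h, h, sub_self] at hβ'
    exact hβ' rfl
  rw [if_neg hne, sub_zero] at hβ'
  rw [e']
  exact ((hM.2 Q β' (mem_support_iff.2 hβ')).trans_eq e).lt_of_ne
    fun h => hne (bx_inj hM hi h).symm

lemma bx_res0 (hw : NA w) (hM : Mono w θ)
    (hi : ∀ k : Fin (d + 1) → ℤ, ∑ i, k i * Real.log (w (θ i)) = 0 → k = 0) {a : K}
    (h0 : a ∈ IntermediateField.adjoin ℂ (range θ)) (ha : w a ≤ 1) :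
    ∃ c : ℂ, w (a - algebraMap ℂ K c) < 1 := by
  rcases ha.lt_or_eq with ha | ha
  · exact ⟨0, by simpa using ha⟩
  obtain ⟨p, q, rfl⟩ := (IntermediateField.mem_adjoin_range_iff _ _ _).1 h0
  have h1 : aeval θ p / aeval θ q ≠ 0 := fun e => by simp [e] at ha
  rw [div_ne_zero_iff] at h1
  obtain ⟨β, c, -, e1, e2⟩ := bx_lead hw hM hi (Q := p) fun e => h1.1 (by simp [e])
  obtain ⟨β', c', hc', e3, e4⟩ := bx_lead hw hM hi (Q := q) fun e => h1.2 (by simp [e])
  have hq := w.pos h1.2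
  rw [map_div₀, div_eq_one_iff_eq hq.ne', e1, e3] at ha
  obtain rfl := bx_inj hM hi ha
  refine ⟨c / c', ?_⟩
  have e5 : aeval θ p / aeval θ q - algebraMap ℂ K (c / c')
      = ((aeval θ p - c • β.prod fun i k => θ i ^ k)
        - (c / c') • (aeval θ q - c' • β.prod fun i k => θ i ^ k)) / aeval θ q := by
    rw [smul_sub, smul_smul, div_mul_cancel₀ _ hc', sub_sub_sub_cancel_right, Algebra.smul_def,
      sub_div, mul_div_cancel_right₀ _ h1.2]
  rw [e5, map_div₀, div_lt_one hq, e3]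
  exact hw.sub_lt e2 ((hM.triv.bx_smul_le _ _).trans_lt e4)

lemma bx_root (ht : Triv w) {a : K} {R : Polynomial ℂ} (hR : R ≠ 0)
    (h : w (Polynomial.aeval a R) < 1) : ∃ c : ℂ, w (a - algebraMap ℂ K c) < 1 := by
  by_contra! hc
  rw [← Polynomial.C_leadingCoeff_mul_prod_multiset_X_sub_C
    (IsAlgClosed.card_roots_eq_natDegree (p := R)), map_mul, map_mul, Polynomial.aeval_C,
    ht _ (Polynomial.leadingCoeff_ne_zero.2 hR), one_mul] at h
  refine h.not_ge (Multiset.prod_induction (fun S => 1 ≤ w (Polynomial.aeval a S)) _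
    (fun S S' h1 h2 => ?_) (by simp) fun S hS => ?_)
  · rw [map_mul, map_mul]
    exact one_le_mul_of_one_le_of_one_le h1 h2
  · obtain ⟨c, -, rfl⟩ := Multiset.mem_map.1 hS
    simpa using hc c

variable [FiniteDimensional (IntermediateField.adjoin ℂ (range θ)) K]

theorem res_const (hw : NA w) (hM : Mono w θ)
    (hi : ∀ k : Fin (d + 1) → ℤ, ∑ i, k i * Real.log (w (θ i)) = 0 → k = 0) {a : K}
    (ha : w a = 1) : ∃ c : ℂ, w (a - algebraMap ℂ K c) < 1 := by
  have hint : IsIntegral (IntermediateField.adjoin ℂ (range θ)) a := IsIntegral.of_finite _ a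
  have hP := minpoly.ne_zero hint
  have hz := minpoly.aeval (IntermediateField.adjoin ℂ (range θ)) a
  generalize minpoly (IntermediateField.adjoin ℂ (range θ)) a = P at hP hz
  obtain ⟨j, hj, hmax⟩ := P.support.exists_max_image (fun i => w (P.coeff i : K))
    (Polynomial.support_nonempty.2 hP)
  have hj0 : (P.coeff j : K) ≠ 0 := fun e => Polynomial.mem_support_iff.1 hj (Subtype.ext e)
  have hp := w.pos hj0
  have h1 : ∀ i : ℕ, ∃ c : ℂ, i ∈ P.support →
      w ((P.coeff i : K) / P.coeff j - algebraMap ℂ K c) < 1 := fun i => by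
    by_cases h : i ∈ P.support
    · obtain ⟨c, hc⟩ := bx_res0 hw hM hi (div_mem (P.coeff i).2 (P.coeff j).2)
        (by rw [map_div₀, div_le_one hp]; exact hmax i h)
      exact ⟨c, fun _ => hc⟩
    · exact ⟨0, fun h' => absurd h' h⟩
  choose γ hγ using h1
  have hγj : γ j ≠ 0 := fun e => by
    have := hγ j hj
    rw [e, map_zero, sub_zero, div_self hj0, map_one] at this
    exact lt_irrefl _ this
  refine bx_root hM.triv (R := ∑ i ∈ P.support, Polynomial.monomial i (γ i)) (fun e => ?_) ?_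
  · have := congrArg (fun S => Polynomial.coeff S j) e
    simp [Polynomial.coeff_monomial, Polynomial.mem_support_iff.1 hj, hγj] at this
  · rw [Polynomial.aeval_def, Polynomial.eval₂_eq_sum, Polynomial.sum_def] at hz
    have e1 : Polynomial.aeval a (∑ i ∈ P.support, Polynomial.monomial i (γ i))
        = -∑ i ∈ P.support, ((P.coeff i : K) / P.coeff j - algebraMap ℂ K (γ i)) * a ^ i := by
      have e2 : ∑ i ∈ P.support, (P.coeff i : K) / P.coeff j * a ^ i = 0 := by
        have e3 : ∀ i, (P.coeff i : K) / P.coeff j * a ^ i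
            = (algebraMap (IntermediateField.adjoin ℂ (range θ)) K (P.coeff i) * a ^ i)
              / P.coeff j := fun i => div_mul_eq_mul_div _ _ _
        simp only [e3, ← Finset.sum_div, hz, zero_div]
      simp only [map_sum, Polynomial.aeval_monomial, sub_mul, Finset.sum_sub_distrib, e2,
        zero_sub, neg_neg]
    rw [e1, w.map_neg]
    refine hw.sum_lt one_pos fun i h => ?_
    rw [map_mul, map_pow, ha, one_pow, mul_one]
    exact hγ i h

lemma bx_span (hw : NA w) (hM : Mono w θ) : ∃ Γ : Submodule ℤ ℝ, Γ.FG ∧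
    ∀ a : K, a ≠ 0 → Real.log (w a) ∈ Γ := by
  let D := (finrank (IntermediateField.adjoin ℂ (range θ)) K).factorial
  have hD : (D : ℝ) ≠ 0 := Nat.cast_ne_zero.2 (Nat.factorial_ne_zero _)
  let Γ : Submodule ℤ ℝ := Submodule.span ℤ (range fun i => Real.log (w (θ i)) / D)
  have h1 : ∀ Q : MvPolynomial (Fin (d + 1)) ℂ, Q ≠ 0 → Real.log (w (aeval θ Q)) / D ∈ Γ :=
    fun Q hQ => by
      obtain ⟨β, -, e⟩ := hM.exists_eq hw hQ
      rw [e, bx_log hM, Finset.sum_div]
      refine Γ.sum_mem fun i _ => ?_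
      rw [mul_div_assoc, ← nsmul_eq_mul]
      exact nsmul_mem (Submodule.subset_span (mem_range_self i)) _
  refine ⟨Γ, Submodule.fg_span (finite_range _), fun a ha => ?_⟩
  have hint : IsIntegral (IntermediateField.adjoin ℂ (range θ)) a := IsIntegral.of_finite _ a
  obtain ⟨k, k0, k1, c, hc, e⟩ := hw.exists_pow_eq ha (minpoly.ne_zero hint) (minpoly.aeval _ a)
  obtain ⟨m, hm⟩ : k ∣ D := Nat.dvd_factorial k0 (k1.trans (minpoly.natDegree_le a))
  obtain ⟨p, q, hpq⟩ := (IntermediateField.mem_adjoin_range_iff _ _ _).1 c.2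
  have hc' : (c : K) ≠ 0 := fun e => hc (Subtype.ext e)
  rw [hpq, div_ne_zero_iff] at hc'
  have e1 : (k : ℝ) * Real.log (w a) = Real.log (w (aeval θ p)) - Real.log (w (aeval θ q)) := by
    rw [← Real.log_pow, e, ← Real.log_div (w.pos hc'.1).ne' (w.pos hc'.2).ne', ← map_div₀, ← hpq]
    rfl
  have e2 : Real.log (w a)
      = m • (Real.log (w (aeval θ p)) / D - Real.log (w (aeval θ q)) / D) := by
    have hk : (D : ℝ) = k * m := by rw [hm]; push_cast; rfl
    rw [← sub_div, ← e1, nsmul_eq_mul, eq_comm, ← mul_div_assoc, div_eq_iff hD, hk]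
    ring
  rw [e2]
  exact nsmul_mem (Γ.sub_mem (h1 p fun e => hc'.1 (by simp [e])) (h1 q fun e => hc'.2 (by simp [e]))) _

theorem box_of (hw : NA w) (hM : Mono w θ)
    (hi : ∀ k : Fin (d + 1) → ℤ, ∑ i, k i * Real.log (w (θ i)) = 0 → k = 0)
    {U : ℕ → Submodule ℂ K} (h1 : 1 ∈ U 0)
    (hm : ∀ m m', ∀ a ∈ U m, ∀ b ∈ U m', a * b ∈ U (m + m')) {e : ℕ} (he : ∀ i, θ i ∈ U e) :
    ∃ c, Box U d c := by
  obtain ⟨Γ, hΓ, hΓ'⟩ := bx_span hw hM
  have hlog : ∀ a b : K, a ≠ 0 → b ≠ 0 →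
      Real.log (w (a * b)) = Real.log (w a) + Real.log (w b) := fun a b ha hb => by
    rw [map_mul, Real.log_mul (w.pos ha).ne' (w.pos hb).ne']
  let Λ0 : AddSubgroup ℝ :=
    { carrier := {x | ∃ m, ∃ a ∈ U m, ∃ a' ∈ U m, a ≠ 0 ∧ a' ≠ 0 ∧
        x = Real.log (w a) - Real.log (w a')}
      zero_mem' := ⟨0, 1, h1, 1, h1, one_ne_zero, one_ne_zero, (sub_self _).symm⟩
      add_mem' := by
        rintro _ _ ⟨m, a, a1, a', a2, a3, a4, rfl⟩ ⟨m', b, b1, b', b2, b3, b4, rfl⟩
        refine ⟨m + m', a * b, hm _ _ _ a1 _ b1, a' * b', hm _ _ _ a2 _ b2, mul_ne_zero a3 b3,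
          mul_ne_zero a4 b4, ?_⟩
        rw [hlog _ _ a3 b3, hlog _ _ a4 b4]
        ring
      neg_mem' := by
        rintro _ ⟨m, a, a1, a', a2, a3, a4, rfl⟩
        exact ⟨m, a', a2, a, a1, a4, a3, neg_sub _ _⟩ }
  let Λ : Submodule ℤ ℝ := Λ0.toIntSubmodule
  have hΛ : ∀ x, x ∈ Λ ↔ ∃ m, ∃ a ∈ U m, ∃ a' ∈ U m, a ≠ 0 ∧ a' ≠ 0 ∧
      x = Real.log (w a) - Real.log (w a') := fun x => Iff.rfl
  clear_value Λ
  clear Λ0
  have hfin : Module.Finite ℤ Λ := Module.Finite.iff_fg.2 (hΓ.of_le fun x hx => by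
    obtain ⟨m, a, -, a', -, a3, a4, rfl⟩ := (hΛ x).1 hx
    exact Γ.sub_mem (hΓ' a a3) (hΓ' a' a4))
  have hind : LinearIndependent ℤ fun i : Fin d =>
      Real.log (w (θ i.succ)) - Real.log (w (θ 0)) := by
    refine Fintype.linearIndependent_iff.2 fun g hg i => ?_
    have := hi (Fin.cons (-∑ i, g i) g) (by
      rw [Fin.sum_univ_succ]
      simp only [Fin.cons_zero, Fin.cons_succ, zsmul_eq_mul, mul_sub, Finset.sum_sub_distrib,
        ← Finset.sum_mul] at hg ⊢
      push_cast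
      linarith)
    simpa using congrFun this i.succ
  have hd : d ≤ finrank ℤ Λ := by
    have hind' : LinearIndependent ℤ fun i : Fin d =>
        (⟨Real.log (w (θ i.succ)) - Real.log (w (θ 0)),
          (hΛ _).2 ⟨e, _, he _, _, he _, hM.1 _, hM.1 _, rfl⟩⟩ : Λ) :=
      LinearIndependent.of_comp Λ.subtype hind
    simpa using hind'.fintype_card_le_finrank
  let B := Module.finBasis ℤ Λ
  choose c α hα β hβ hα0 hβ0 hB using fun i : Fin d => (hΛ _).1 (B (i.castLE hd)).2
  have hpow : ∀ m, ∀ a ∈ U m, ∀ n, a ^ n ∈ U (m * n) := fun m a ha n => by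
    induction n with
    | zero => simpa using h1
    | succ n ih => rw [pow_succ, Nat.mul_succ]; exact hm _ _ _ ih _ ha
  have hprod : ∀ (s : Finset (Fin d)) (m : Fin d → ℕ) (a : Fin d → K), (∀ i, a i ∈ U (m i)) →
      ∏ i ∈ s, a i ∈ U (∑ i ∈ s, m i) := fun s m a ha => by
    induction s using Finset.induction_on with
    | empty => simpa using h1
    | insert i s hi ih => rw [Finset.prod_insert hi, Finset.sum_insert hi]; exact hm _ _ _ (ha i) _ ih
  refine ⟨∑ i, c i, fun k m W W' g hk hW _ _ hg hW' => ?_⟩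
  obtain ⟨a, a1, a2, a3⟩ := finrank_le_vals hw hM.triv (fun a => res_const hw hM hi) W
  let b : (Fin d → Fin k) → K := fun j => ∏ i, α i ^ (j i : ℕ) * β i ^ (k - j i)
  have b1 : ∀ j, b j ∈ U ((∑ i, c i) * k) := fun j => by
    rw [Finset.sum_mul]
    refine hprod _ _ _ fun i => ?_
    have := hm _ _ _ (hpow _ _ (hα i) (j i)) _ (hpow _ _ (hβ i) (k - j i))
    rwa [← mul_add, Nat.add_sub_cancel' (j i).2.le] at this
  have b0 : ∀ (j : Fin d → Fin k) i, α i ^ (j i : ℕ) * β i ^ (k - j i) ≠ 0 := fun j i =>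
    mul_ne_zero (pow_ne_zero _ (hα0 i)) (pow_ne_zero _ (hβ0 i))
  have b2 : ∀ j, b j ≠ 0 := fun j => Finset.prod_ne_zero_iff.2 fun i _ => b0 j i
  have b3 : ∀ j, Real.log (w (b j))
      = ∑ i, (j i : ℕ) * (B (i.castLE hd) : ℝ) + ∑ i, k * Real.log (w (β i)) := fun j => by
    rw [map_prod, Real.log_prod fun i _ => (w.pos (b0 j i)).ne', ← Finset.sum_add_distrib]
    refine Finset.sum_congr rfl fun i _ => ?_
    rw [hlog _ _ (pow_ne_zero _ (hα0 i)) (pow_ne_zero _ (hβ0 i)), map_pow, map_pow, Real.log_pow,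
      Real.log_pow, hB i, Nat.cast_sub (j i).2.le]
    ring
  have key := vals_le_finrank hw hM.triv (W := W') (ι := (Fin d → Fin k) × Fin (finrank ℂ W))
    (a := fun x => a x.2 ^ k * b x.1 * g) (fun x => hW' _ (a1 _) _ (b1 _))
    (fun x => mul_ne_zero (mul_ne_zero (pow_ne_zero _ (a2 _)) (b2 _)) hg) ?_
  · simpa using key
  rintro ⟨j, x⟩ ⟨j', x'⟩ h
  have h2 := congrArg Real.log h
  simp only at h2
  rw [hlog _ _ (mul_ne_zero (pow_ne_zero _ (a2 _)) (b2 _)) hg,
    hlog _ _ (mul_ne_zero (pow_ne_zero _ (a2 _)) (b2 _)) hg, hlog _ _ (pow_ne_zero _ (a2 _)) (b2 _),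
    hlog _ _ (pow_ne_zero _ (a2 _)) (b2 _), map_pow, map_pow, Real.log_pow, Real.log_pow,
    b3, b3] at h2
  let μ : Λ := ⟨Real.log (w (a x)) - Real.log (w (a x')),
    (hΛ _).2 ⟨m, _, hW (a1 _), _, hW (a1 _), a2 _, a2 _, rfl⟩⟩
  have h3 : (k : ℤ) • μ + ∑ i, (((j i : ℕ) : ℤ) - (j' i : ℕ)) • B (i.castLE hd) = 0 := by
    apply Subtype.ext
    rw [Submodule.coe_add, Submodule.coe_sum]
    simp only [Submodule.coe_smul, zsmul_eq_mul, Int.cast_sub, Int.cast_natCast, sub_mul,
      Finset.sum_sub_distrib, Submodule.coe_zero, μ]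
    linarith
  have h4 : j = j' := funext fun i => by
    have h5 := congrArg (fun y => B.repr y (i.castLE hd)) h3
    simp only [map_add, map_smul, map_sum, Basis.repr_self, Finsupp.add_apply,
      Finsupp.smul_apply, Finsupp.finsetSum_apply, Finsupp.single_apply, Fin.castLE_inj,
      smul_eq_mul, mul_ite, mul_one, mul_zero, Finset.sum_ite_eq', Finset.mem_univ, if_true,
      map_zero, Finsupp.zero_apply] at h5
    have h6 : (k : ℤ) ∣ ((j i : ℕ) : ℤ) - (j' i : ℕ) :=
      ⟨-B.repr μ (i.castLE hd), by linarith⟩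
    have h7 := Int.eq_zero_of_abs_lt_dvd h6 (by
      have := (j i).2
      have := (j' i).2
      rw [abs_lt]
      omega)
    exact Fin.ext (by omega)
  subst h4
  have h8 : Real.log (w (a x)) = Real.log (w (a x')) :=
    mul_left_cancel₀ (Nat.cast_ne_zero.2 hk.ne' : (k : ℝ) ≠ 0) (by linarith)
  rw [a3 (Real.log_injOn_pos (w.pos (a2 x)) (w.pos (a2 x')) h8)]

end Pool.Agent.Lib.MP_bc3ae6_ag
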