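import Pool.Agent.Lib.MP_bc3ae6_ag.V1

set_option autoImplicit false
set_option linter.unusedSectionVars false

/-! A derivation which does not increase a discrete absolute value on `K` does not increase it on
the algebraic closure. -/

namespace Pool.Agent.Lib.MP_bc3ae6_ag

open Set
open scoped Polynomial

variable {K L : Type*} [Field K] [Field L] [Algebra ℂ K] [Algebra ℂ L] [Algebra K L]
  [IsScalarTower ℂ K L]

theorem disc {w : AbsoluteValue L ℝ} (hw : NA w)
    (hZ : ∀ c : K, c ≠ 0 → ∃ k : ℤ, w (algebraMap K L c) = Real.exp k) {a : L} (ha : a ≠ 0)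
    (hi : IsIntegral K a) {d : ℕ} (hd : (minpoly K a).natDegree ≤ d) :
    ∃ k : ℤ, d.factorial * Real.log (w a) = k := by
  obtain ⟨k, hk, hkd, c, hc, h⟩ := hw.exists_pow_eq ha (minpoly.ne_zero hi) (minpoly.aeval K a)
  obtain ⟨j, hj⟩ := hZ c hc
  obtain ⟨m, hm⟩ := Nat.dvd_factorial hk (hkd.trans hd)
  have h1 : (k : ℝ) * Real.log (w a) = j := by rw [← Real.log_pow, h, hj, Real.log_exp]
  refine ⟨m * j, ?_⟩
  rw [hm]
  push_cast
  rw [← h1]
  ring

section aux

variable {w : AbsoluteValue L ℝ} {F : Type*} [Field F] [Algebra K F]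

/-- A polynomial can be scaled so that its largest coefficient has value one. -/
lemma vd_scale (w : AbsoluteValue L ℝ) {P : K[X]} (hP : P ≠ 0) :
    ∃ Q : K[X], (∀ i, w (algebraMap K L (Q.coeff i)) ≤ 1) ∧
      (∃ i, w (algebraMap K L (Q.coeff i)) = 1) ∧ ∃ c : K, Q = Polynomial.C c * P := by
  obtain ⟨k, hk, h1⟩ := P.support.exists_max_image (fun l => w (algebraMap K L (P.coeff l)))
    (Polynomial.support_nonempty.2 hP)
  have h0 : 0 < w (algebraMap K L (P.coeff k)) :=
    w.pos ((map_ne_zero _).2 (Polynomial.mem_support_iff.1 hk))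
  refine ⟨Polynomial.C (P.coeff k)⁻¹ * P, fun i => ?_, ⟨k, ?_⟩, _, rfl⟩
  · rw [Polynomial.coeff_C_mul, map_mul, map_mul, map_inv₀, map_inv₀, inv_mul_le_iff₀ h0, mul_one]
    by_cases hi : i ∈ P.support
    · exact h1 i hi
    · simp [Polynomial.notMem_support_iff.1 hi]
  · rw [Polynomial.coeff_C_mul, map_mul, map_mul, map_inv₀, map_inv₀, inv_mul_cancel₀ h0.ne']

/-- Horner sums at a root have value at most one. -/
lemma vd_horner (hw : NA w) {Q : K[X]} (hQ : ∀ i, w (algebraMap K L (Q.coeff i)) ≤ 1) {t : L}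
    (ht : Polynomial.aeval t Q = 0) {j n : ℕ} (hj : j ≤ n) (hn : Q.natDegree < n) {e : ℕ}
    (he : e ≤ 1) :
    w ((∑ i ∈ Finset.Ico j n, algebraMap K L (Q.coeff i) * t ^ (i - j)) * t ^ e) ≤ 1 := by
  rcases le_or_gt (w t) 1 with h | h
  · rw [map_mul, map_pow]
    refine mul_le_one₀ (hw.sum_le zero_le_one fun i _ => ?_) (by positivity)
      (pow_le_one₀ (w.nonneg _) h)
    rw [map_mul, map_pow]
    exact mul_le_one₀ (hQ i) (by positivity) (pow_le_one₀ (w.nonneg _) h)
  · have hp : 0 < w t := one_pos.trans h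
    have h1 : (∑ i ∈ Finset.Ico j n, algebraMap K L (Q.coeff i) * t ^ (i - j)) * t ^ j
        = -∑ i ∈ Finset.range j, algebraMap K L (Q.coeff i) * t ^ i := by
      rw [Polynomial.aeval_eq_sum_range' hn, ← Finset.sum_range_add_sum_Ico _ hj] at ht
      simp only [Algebra.smul_def] at ht
      rw [eq_neg_iff_add_eq_zero, add_comm, ← ht, Finset.sum_mul]
      congr 1
      refine Finset.sum_congr rfl fun i hi => ?_
      rw [mul_assoc, ← pow_add, Nat.sub_add_cancel (Finset.mem_Ico.1 hi).1]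
    have h2 : w ((∑ i ∈ Finset.range j, algebraMap K L (Q.coeff i) * t ^ i) * t ^ e) ≤ w t ^ j := by
      rw [Finset.sum_mul]
      refine hw.sum_le (by positivity) fun i hi => ?_
      rw [mul_assoc, ← pow_add, map_mul, map_pow]
      have := Finset.mem_range.1 hi
      exact (mul_le_of_le_one_left (by positivity) (hQ i)).trans
        (pow_le_pow_right₀ h.le (by omega))
    refine le_of_mul_le_mul_right ?_ (pow_pos hp j)
    rw [one_mul, ← map_pow w t j, ← map_mul, mul_right_comm, h1, neg_mul, w.map_neg, map_pow]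
    exact h2

/-- Elements which are small at all embeddings have a bounded derivative. -/
lemma vd_good [IsAlgClosed L] [FiniteDimensional K F] (hw : NA w) (D : Derivation ℂ L L)
    (hD : ∀ c : K, w (D (algebraMap K L c)) ≤ w (algebraMap K L c)) (ι : F →ₐ[K] L) :
    ∃ C : ℝ, ∀ b : F, (∀ σ : F →ₐ[K] L, w (σ b) ≤ 1) → w (D (ι b)) ≤ C := by
  classical
  have : CharZero K := charZero_of_injective_algebraMap (algebraMap ℂ K).injective
  let β := Module.finBasis K F
  obtain ⟨M, hM⟩ := Finite.exists_le fun p : Option ((F →ₐ[K] L) × Fin (Module.finrank K F)) =>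
    p.elim 0 fun p => w (p.1 (β p.2))
  obtain ⟨M', hM'⟩ := Finite.exists_le fun i => max (w (ι (β.traceDual i)))
    (w (D (ι (β.traceDual i))))
  have hM0 : 0 ≤ M := hM none
  refine ⟨max (M * M') 0, fun b hb => ?_⟩
  have h1 : ∀ i, w (algebraMap K L (β.traceDual.repr b i)) ≤ M := fun i => by
    rw [Module.Basis.traceDual_repr_apply, Algebra.traceForm_apply, trace_eq_sum_embeddings]
    refine hw.sum_le hM0 fun σ _ => ?_
    rw [map_mul, map_mul]
    exact (mul_le_of_le_one_left (w.nonneg _) (hb σ)).trans (hM (some (σ, i)))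
  rw [← β.traceDual.sum_repr b, map_sum, map_sum]
  refine hw.sum_le (le_max_right _ _) fun i _ => le_max_of_le_left ?_
  rw [map_smul, Algebra.smul_def, D.leibniz, smul_eq_mul, smul_eq_mul]
  refine hw.add_le ?_ ?_ <;> rw [map_mul]
  · exact mul_le_mul (h1 i) ((le_max_right _ _).trans (hM' i)) (w.nonneg _) hM0
  · rw [mul_comm]
    exact mul_le_mul ((hD _).trans (h1 i)) ((le_max_left _ _).trans (hM' i)) (w.nonneg _) hM0

/-- Units have a bounded derivative. -/
lemma vd_unit [FiniteDimensional K F] (hw : NA w) (D : Derivation ℂ L L) (ι : F →ₐ[K] L) {C : ℝ}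
    (hC : ∀ b : F, (∀ σ : F →ₐ[K] L, w (σ b) ≤ 1) → w (D (ι b)) ≤ C) (u : F) (hu : w (ι u) = 1) :
    w (D (ι u)) ≤ C := by
  classical
  obtain ⟨Q, hQ, ⟨i0, hi0⟩, c, hc⟩ :=
    vd_scale w (minpoly.ne_zero (Algebra.IsIntegral.isIntegral (R := K) u))
  have hlt : ∀ i, w (algebraMap K L (Q.coeff i)) = 1 → i < Q.natDegree + 1 := fun i hi =>
    Nat.lt_succ_of_le (Polynomial.le_natDegree_of_ne_zero fun h => by simp [h] at hi)
  obtain ⟨j, hj, hmax⟩ := ((Finset.range (Q.natDegree + 1)).filter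
    fun i => w (algebraMap K L (Q.coeff i)) = 1).exists_max_image id
    ⟨i0, Finset.mem_filter.2 ⟨Finset.mem_range.2 (hlt i0 hi0), hi0⟩⟩
  obtain ⟨hj1, hj2⟩ := Finset.mem_filter.1 hj
  rw [Finset.mem_range] at hj1
  set h : F := ∑ i ∈ Finset.Ico j (Q.natDegree + 1), algebraMap K F (Q.coeff i) * u ^ (i - j)
    with hh
  have hσ : ∀ σ : F →ₐ[K] L, σ h = ∑ i ∈ Finset.Ico j (Q.natDegree + 1),
      algebraMap K L (Q.coeff i) * σ u ^ (i - j) := fun σ => by simp [hh]
  have hg : ∀ e ≤ 1, w (D (ι (h * u ^ e))) ≤ C := fun e he => hC _ fun σ => by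
    rw [map_mul σ, map_pow σ, hσ]
    refine vd_horner hw hQ ?_ hj1.le (Nat.lt_succ_self _) he
    rw [Polynomial.aeval_algHom_apply, hc]
    simp
  have h1 : w (ι h) = 1 := by
    have e : w (algebraMap K L (Q.coeff j) * ι u ^ (j - j)) = 1 := by simpa using hj2
    rw [hσ, hw.sum_eq (Finset.mem_Ico.2 ⟨le_rfl, hj1⟩), e]
    intro i hi hij
    rw [e, map_mul, map_pow, hu, one_pow, mul_one]
    refine (hQ i).lt_of_ne fun h' => hij (le_antisymm ?_ (Finset.mem_Ico.1 hi).1)
    exact hmax i (Finset.mem_filter.2 ⟨Finset.mem_range.2 (hlt i h'), h'⟩)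
  have h2 := hg 0 zero_le_one
  have h3 := hg 1 le_rfl
  rw [pow_zero, mul_one] at h2
  rw [pow_one, map_mul, D.leibniz, smul_eq_mul, smul_eq_mul] at h3
  have h4 : w (ι u * D (ι h)) ≤ C := by rwa [map_mul, hu, one_mul]
  have h5 := hw.sub_le h3 h4
  rwa [add_sub_cancel_right, map_mul, h1, one_mul] at h5

/-- From units to all elements. -/
lemma vd_all [FiniteDimensional K F] (hw : NA w) (ht : Triv w) (D : Derivation ℂ L L)
    (hD : ∀ c : K, w (D (algebraMap K L c)) ≤ w (algebraMap K L c)) (ι : F →ₐ[K] L) {B : ℝ}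
    (hB : 1 ≤ B) (h : ∀ u : F, w (ι u) = 1 → w (D (ι u)) ≤ B) (b : F) :
    w (D (ι b)) ≤ B * w (ι b) := by
  rcases eq_or_ne b 0 with rfl | hb
  · simp
  have hb' : ι b ≠ 0 := (map_ne_zero ι).2 hb
  obtain ⟨k, hk, -, c, hc, h1⟩ := hw.exists_pow_eq hb'
    (minpoly.ne_zero (Algebra.IsIntegral.isIntegral (R := K) b))
    (by rw [Polynomial.aeval_algHom_apply, minpoly.aeval, map_zero])
  obtain ⟨k, rfl⟩ : ∃ l, k = l + 1 := ⟨k - 1, by omega⟩
  have hc' : algebraMap K L c ≠ 0 := (map_ne_zero _).2 hc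
  have hp := w.pos hb'
  have e : ι b ^ (k + 1) = ι (b ^ (k + 1) / algebraMap K F c) * algebraMap K L c := by
    rw [map_div₀, map_pow, ι.commutes, div_mul_cancel₀ _ hc']
  have hu : w (ι (b ^ (k + 1) / algebraMap K F c)) = 1 := by
    rw [map_div₀, map_pow, ι.commutes, map_div₀, map_pow, h1, div_self (w.pos hc').ne']
  have h2 : w (D (ι b ^ (k + 1))) ≤ B * w (ι b) ^ (k + 1) := by
    rw [e, D.leibniz, smul_eq_mul, smul_eq_mul, h1]
    refine hw.add_le ?_ ?_ <;> rw [map_mul]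
    · rw [hu, one_mul]
      exact (hD c).trans (le_mul_of_one_le_left (w.nonneg _) hB)
    · rw [mul_comm]
      exact mul_le_mul_of_nonneg_right (h _ hu) (w.nonneg _)
  rw [D.leibniz_pow, nsmul_eq_mul, smul_eq_mul, map_mul, map_mul, ht.nat (Nat.succ_ne_zero k),
    one_mul, map_pow, Nat.add_sub_cancel] at h2
  refine le_of_mul_le_mul_left (h2.trans_eq (by ring)) (pow_pos hp k)

lemma vd_aeval (hw : NA w) (D : Derivation ℂ L L)
    (hD : ∀ c : K, w (D (algebraMap K L c)) ≤ w (algebraMap K L c)) {Q : K[X]}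
    (hQ : ∀ i, w (algebraMap K L (Q.coeff i)) ≤ 1) {x : L} (hx : w x = 1) :
    w (D (Polynomial.aeval x Q) - Polynomial.aeval x (Polynomial.derivative Q) * D x) ≤ 1 := by
  rw [Q.as_sum_range, map_sum, map_sum, map_sum, map_sum, Finset.sum_mul, ← Finset.sum_sub_distrib]
  refine hw.sum_le zero_le_one fun i _ => ?_
  have e : D (Polynomial.aeval x (Polynomial.monomial i (Q.coeff i)))
      - Polynomial.aeval x (Polynomial.derivative (Polynomial.monomial i (Q.coeff i))) * D x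
      = x ^ i * D (algebraMap K L (Q.coeff i)) := by
    rw [Polynomial.derivative_monomial, Polynomial.aeval_monomial, Polynomial.aeval_monomial,
      D.leibniz, D.leibniz_pow]
    simp only [smul_eq_mul, nsmul_eq_mul, map_mul, map_natCast]
    ring
  rw [e, map_mul, map_pow, hx, one_pow, one_mul]
  exact (hD _).trans (hQ i)

/-- A polynomial of least degree that is small at a unit has a unit derivative there. -/
lemma vd_min (hw : NA w) (ht : Triv w) {x : L} (hx : w x = 1) (hi : IsIntegral K x) :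
    ∃ Q : K[X], (∀ i, w (algebraMap K L (Q.coeff i)) ≤ 1) ∧ w (Polynomial.aeval x Q) < 1 ∧
      1 ≤ w (Polynomial.aeval x (Polynomial.derivative Q)) := by
  classical
  have hex : ∃ n, ∃ Q : K[X], Q.natDegree = n ∧ (∀ i, w (algebraMap K L (Q.coeff i)) ≤ 1) ∧
      (∃ i, w (algebraMap K L (Q.coeff i)) = 1) ∧ w (Polynomial.aeval x Q) < 1 := by
    obtain ⟨Q, h1, h2, c, hc⟩ := vd_scale w (minpoly.ne_zero hi)
    exact ⟨_, Q, rfl, h1, h2, by simp [hc]⟩
  obtain ⟨Q, hn, h1, h2, h3⟩ := Nat.find_spec hex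
  refine ⟨Q, h1, h3, not_lt.1 fun h4 => ?_⟩
  have hc : ∀ i, w (algebraMap K L ((Polynomial.derivative Q).coeff i))
      = w (algebraMap K L (Q.coeff (i + 1))) := fun i => by
    have := ht.nat (Nat.succ_ne_zero i)
    push_cast at this
    simp [Polynomial.coeff_derivative, this]
  by_cases h5 : ∃ i, w (algebraMap K L (Q.coeff (i + 1))) = 1
  · obtain ⟨i, hi⟩ := h5
    have h0 : Q.natDegree ≠ 0 := by
      have := Polynomial.le_natDegree_of_ne_zero (p := Q) (n := i + 1) fun h => by simp [h] at hi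
      omega
    exact Nat.find_min hex (hn ▸ Polynomial.natDegree_derivative_lt h0)
      ⟨_, rfl, fun l => (hc l).trans_le (h1 _), ⟨i, (hc i).trans hi⟩, h4⟩
  · obtain ⟨i, hi⟩ := h2
    obtain rfl : i = 0 := by
      rcases i with _ | i
      · rfl
      · exact absurd ⟨i, hi⟩ h5
    have e : w (Q.coeff 0 • x ^ 0) = 1 := by simpa [Algebra.smul_def] using hi
    rw [Polynomial.aeval_eq_sum_range, hw.sum_eq (k := 0) (by simp), e] at h3
    · exact lt_irrefl _ h3
    intro j _ hj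
    obtain ⟨j, rfl⟩ : ∃ l, j = l + 1 := ⟨j - 1, by omega⟩
    rw [e, Algebra.smul_def, map_mul, map_pow, hx, one_pow, mul_one]
    exact (h1 _).lt_of_ne fun h => h5 ⟨j, h⟩

/-- The improvement step. -/
lemma vd_step [FiniteDimensional K F] (hw : NA w) (ht : Triv w) (D : Derivation ℂ L L)
    (hD : ∀ c : K, w (D (algebraMap K L c)) ≤ w (algebraMap K L c)) (ι : F →ₐ[K] L) {B q : ℝ}
    (hB : 0 ≤ B) (hq : ∀ b : F, w (ι b) < 1 → w (ι b) ≤ q)
    (h : ∀ b : F, w (D (ι b)) ≤ B * w (ι b)) (u : F) (hu : w (ι u) = 1) :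
    w (D (ι u)) ≤ max (B * q) 1 := by
  obtain ⟨Q, h1, h2, h3⟩ := vd_min hw ht hu
    ((Algebra.IsIntegral.isIntegral (R := K) u).map ι)
  have h4 := vd_aeval hw D hD h1 hu
  have h5 : w (D (Polynomial.aeval (ι u) Q)) ≤ B * q := by
    rw [Polynomial.aeval_algHom_apply] at h2 ⊢
    exact (h _).trans (mul_le_mul_of_nonneg_left (hq _ h2) hB)
  have h6 := hw.sub_le (le_max_of_le_left h5) (le_max_of_le_right h4)
  rw [sub_sub_cancel, map_mul] at h6
  exact (le_mul_of_one_le_left (w.nonneg _) h3).trans h6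

lemma vd_gap [FiniteDimensional K F] (hw : NA w)
    (hZ : ∀ c : K, c ≠ 0 → ∃ k : ℤ, w (algebraMap K L c) = Real.exp k) (ι : F →ₐ[K] L) :
    ∃ q : ℝ, 0 < q ∧ q < 1 ∧ ∀ b : F, w (ι b) < 1 → w (ι b) ≤ q := by
  have hd : (0 : ℝ) < (Module.finrank K F).factorial := by positivity
  refine ⟨Real.exp (-1 / (Module.finrank K F).factorial), Real.exp_pos _,
    Real.exp_lt_one_iff.2 (div_neg_of_neg_of_pos (by norm_num) hd), fun b hb => ?_⟩
  rcases eq_or_ne b 0 with rfl | h0
  · simpa using (Real.exp_pos _).le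
  have hb' : ι b ≠ 0 := (map_ne_zero ι).2 h0
  obtain ⟨k, hk⟩ := disc hw hZ hb' ((Algebra.IsIntegral.isIntegral (R := K) b).map ι)
    (d := Module.finrank K F) (by rw [minpoly.algHom_eq ι ι.injective]; exact minpoly.natDegree_le b)
  have h1 : (k : ℝ) < 0 := hk ▸ mul_neg_of_pos_of_neg hd (Real.log_neg (w.pos hb') hb)
  have h2 : k ≤ -1 := by have : k < 0 := by exact_mod_cast h1
                         omega
  have h3 : (k : ℝ) ≤ -1 := by exact_mod_cast h2
  rw [← Real.log_le_iff_le_exp (w.pos hb'), le_div_iff₀ hd, mul_comm, hk]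
  exact h3

lemma vd_fin [IsAlgClosed L] [FiniteDimensional K F] (hw : NA w) (ht : Triv w)
    (hZ : ∀ c : K, c ≠ 0 → ∃ k : ℤ, w (algebraMap K L c) = Real.exp k) (D : Derivation ℂ L L)
    (hD : ∀ c : K, w (D (algebraMap K L c)) ≤ w (algebraMap K L c)) (ι : F →ₐ[K] L) (b : F) :
    w (D (ι b)) ≤ w (ι b) := by
  obtain ⟨C, hC⟩ := vd_good hw D hD ι
  obtain ⟨q, hq0, hq1, hq⟩ := vd_gap hw hZ ι
  have key : ∀ n : ℕ, ∀ b : F, w (D (ι b)) ≤ max (max C 1 * q ^ n) 1 * w (ι b) := by
    intro n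
    induction n with
    | zero =>
      refine vd_all hw ht D hD ι (le_max_right _ _) fun u hu => (vd_unit hw D ι hC u hu).trans ?_
      simp
    | succ n ih =>
      refine vd_all hw ht D hD ι (le_max_right _ _) fun u hu =>
        (vd_step hw ht D hD ι (zero_le_one.trans (le_max_right _ _)) hq ih u hu).trans
          (max_le ?_ (le_max_right _ _))
      rw [max_mul_of_nonneg _ _ hq0.le, one_mul, mul_assoc, ← pow_succ]
      exact max_le_max le_rfl hq1.le
  have hp : 0 < max C 1 := one_pos.trans_le (le_max_right _ _)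
  obtain ⟨n, hn⟩ := exists_pow_lt_of_lt_one (inv_pos.2 hp) hq1
  have := key n b
  rwa [max_eq_right (by rw [← le_inv_mul_iff₀ hp, mul_one]; exact hn.le), one_mul] at this

end aux

open IntermediateField in
theorem der_small [IsAlgClosed L] [Algebra.IsAlgebraic K L] {w : AbsoluteValue L ℝ} (hw : NA w)
    (ht : Triv w) (hZ : ∀ c : K, c ≠ 0 → ∃ k : ℤ, w (algebraMap K L c) = Real.exp k)
    (D : Derivation ℂ L L) (hD : ∀ c : K, w (D (algebraMap K L c)) ≤ w (algebraMap K L c))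
    (a : L) : w (D a) ≤ w a := by
  have : FiniteDimensional K K⟮a⟯ := adjoin.finiteDimensional (Algebra.IsIntegral.isIntegral a)
  exact vd_fin hw ht hZ D hD K⟮a⟯.val ⟨a, mem_adjoin_simple_self K a⟩

end Pool.Agent.Lib.MP_bc3ae6_ag
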