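import Mathlib

set_option autoImplicit false

/-!
Prime divisors over an affine variety, log discrepancies, log canonical thresholds, volumes and
the invariant `S(E)`.
-/

namespace Pool.Agent.Lib.MP_bc3ae6_ag

open MvPolynomial MeasureTheory Filter Set
open scoped ENNReal NNReal

/-- A prime divisor `E` on some model of the function field `K` (of dimension `card ι`): the
normalised discrete valuation `ord = ord_E`, together with coordinates `p` at the generic point of
`E` and the vector fields `D i = ∂/∂p_i`.  The function `p i₀` is a local equation of `E`, and the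
residue classes of the other `p i` are algebraically independent over `ℂ`. -/
structure PrimeDiv (K ι : Type) [CommRing K] [Algebra ℂ K] [DecidableEq ι] where
  ord : AddValuation K (WithTop ℤ)
  p : ι → K
  i₀ : ι
  unif : ord (p i₀) = 1
  indep : ∀ Q : MvPolynomial ι ℂ, Q ≠ 0 → i₀ ∉ Q.vars → ord (aeval p Q) = 0
  D : ι → Derivation ℂ K K
  dual : ∀ i j, D i (p j) = if i = j then 1 else 0

/-- The function field of the affine variety with prime ideal `J`. -/
abbrev FnF {σ : Type} (J : Ideal (MvPolynomial σ ℂ)) : Type :=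
  FractionRing (MvPolynomial σ ℂ ⧸ J)

/-- The rational function given by a polynomial. -/
noncomputable def cl {σ : Type} (J : Ideal (MvPolynomial σ ℂ)) :
    MvPolynomial σ ℂ →ₐ[ℂ] FnF J :=
  (IsScalarTower.toAlgHom ℂ (MvPolynomial σ ℂ ⧸ J) (FnF J)).comp (Ideal.Quotient.mkₐ ℂ J)

namespace PrimeDiv

section

variable {K ι : Type} [CommRing K] [Algebra ℂ K] [DecidableEq ι] (E : PrimeDiv K ι)

/-- `ord_E a` as a real number, for `a ≠ 0`. -/
noncomputable def o (a : K) : ℝ := ((E.ord a).untopD 0 : ℤ)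

/-- The Jacobian `dθ₁ ∧ … ∧ dθₙ / dp₁ ∧ … ∧ dpₙ`. -/
noncomputable def jac [Fintype ι] (θ : ι → K) : K := (Matrix.of fun i j => E.D i (θ j)).det

end

variable {σ ι : Type} [DecidableEq ι] {J : Ideal (MvPolynomial σ ℂ)} (E : PrimeDiv (FnF J) ι)

/-- `E` has a centre on `V(J)`, and this centre meets `U`. -/
def Meets (U : Set (σ → ℂ)) : Prop :=
  (∀ a, 0 ≤ E.ord (cl J a)) ∧ ∃ y ∈ U, ∀ a, 0 < E.ord (cl J a) → eval y a = 0

/-- The log discrepancy `A(E) = 1 + ord_E(Ω) / r` for the `r`-canonical form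
`Ω = (dθ₁ ∧ … ∧ dθₙ)^r / f`. -/
noncomputable def A [Fintype ι] (θ : ι → MvPolynomial σ ℂ) (f : MvPolynomial σ ℂ) (r : ℕ) : ℝ :=
  1 + (r * E.o (E.jac fun i => cl J (θ i)) - E.o (cl J f)) / r

/-- `ord_E` is invariant under the `ℂ*`-action with weights `wt`. -/
def Homog (wt : σ → ℕ) : Prop :=
  ∀ a k, E.ord (cl J a) ≤ E.ord (cl J (weightedHomogeneousComponent wt k a))

/-- The elements of degree `m` which vanish to order at least `x` along `E`. -/
noncomputable def sec (wt : σ → ℕ) (m : ℕ) (x : ℝ) : Submodule ℂ (FnF J) :=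
  Submodule.span ℂ {a | (∃ q, IsWeightedHomogeneous wt q m ∧ cl J q = a) ∧ (⌈x⌉ : ℤ) ≤ E.ord a}

/-- `vol(-K_X - tE) = limsup h⁰(k(-K_X - tE)) / (k^d / d!)` along `k = rm`, when the degree `m`
part of the coordinate ring is `H⁰(X, -rmK_X)` and `d = dim X`. -/
noncomputable def vol (wt : σ → ℕ) (r d : ℕ) (t : ℝ) : ℝ≥0∞ :=
  limsup (fun m : ℕ => (Module.finrank ℂ (E.sec wt m (r * m * t)) : ℝ≥0∞) /
    ((r * m) ^ d / d.factorial)) atTop

/-- `S(E) = vol(-K_X)⁻¹ ∫₀^∞ vol(-K_X - tE) dt`. -/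
noncomputable def S (wt : σ → ℕ) (r d : ℕ) : ℝ≥0∞ :=
  (∫⁻ t in Ioi (0 : ℝ), E.vol wt r d t) / E.vol wt r d 0

end PrimeDiv

/-- The log canonical threshold along `U ⊆ V(J)` of the divisor `B = t · {g = 0}`: the supremum of
all `c ≥ 0` with `A(E) - c · ord_E(B) ≥ 0` for every prime divisor `E` whose centre meets `U`. -/
noncomputable def lct {σ ι : Type} [Fintype ι] [DecidableEq ι] (J : Ideal (MvPolynomial σ ℂ))
    (θ : ι → MvPolynomial σ ℂ) (f : MvPolynomial σ ℂ) (r : ℕ) (U : Set (σ → ℂ))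
    (g : MvPolynomial σ ℂ) (t : ℝ) : ℝ≥0∞ :=
  ⨆ (c : ℝ≥0) (_ : ∀ E : PrimeDiv (FnF J) ι, E.Meets U →
    0 ≤ E.A θ f r - c * (t * E.o (cl J g))), (c : ℝ≥0∞)

end Pool.Agent.Lib.MP_bc3ae6_ag
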