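import Pool.Agent.Lib.MP_bc3ae6_ag.V1

set_option autoImplicit false
set_option linter.unusedSectionVars false

/-! Derivations of function fields. -/

namespace Pool.Agent.Lib.MP_bc3ae6_ag

open MvPolynomial Set

variable {K L ι : Type*} [Field K] [Field L] [Algebra ℂ K] [Algebra ℂ L] [Algebra K L]
  [IsScalarTower ℂ K L]

theorem der_exists [Fintype ι] [DecidableEq ι] {x : ι → L} (hx : IsTranscendenceBasis ℂ x) :
    ∃ D : ι → Derivation ℂ L L, ∀ i j, D i (x j) = if i = j then 1 else 0 := by
  let _ : Algebra (MvPolynomial ι ℂ) L := (aeval x : MvPolynomial ι ℂ →ₐ[ℂ] L).toRingHom.toAlgebra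
  have hm : ∀ Q : MvPolynomial ι ℂ, algebraMap (MvPolynomial ι ℂ) L Q = aeval x Q := fun _ => rfl
  have : IsScalarTower ℂ (MvPolynomial ι ℂ) L :=
    IsScalarTower.of_algebraMap_eq fun c => by rw [hm]; simp
  have : FaithfulSMul (MvPolynomial ι ℂ) L :=
    (faithfulSMul_iff_algebraMap_injective _ _).2 hx.1
  have : Algebra.IsAlgebraic (MvPolynomial ι ℂ) L := ⟨fun a =>
    (hx.isAlgebraic.1 a).ringHom_of_comp_eq hx.1.aevalEquiv.symm.toRingEquiv.toRingHom
      (RingHom.id L) hx.1.aevalEquiv.symm.injective (RingHom.ext fun c => by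
        obtain ⟨c, rfl⟩ := hx.1.aevalEquiv.surjective c
        simp [hm])⟩
  let _ := FractionRing.liftAlgebra (MvPolynomial ι ℂ) L
  have := FractionRing.isScalarTower_liftAlgebra (MvPolynomial ι ℂ) L
  have : Algebra.IsAlgebraic (FractionRing (MvPolynomial ι ℂ)) L :=
    Algebra.IsAlgebraic.extendScalars (R := MvPolynomial ι ℂ) (IsFractionRing.injective _ _)
  have : Algebra.FormallyEtale (MvPolynomial ι ℂ) (FractionRing (MvPolynomial ι ℂ)) :=
    Algebra.FormallyEtale.of_isLocalization (nonZeroDivisors _)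
  have : Algebra.FormallyEtale (FractionRing (MvPolynomial ι ℂ)) L :=
    Algebra.FormallyEtale.of_isSeparable _ _
  have : Algebra.FormallyEtale (MvPolynomial ι ℂ) L :=
    Algebra.FormallyEtale.comp _ (FractionRing (MvPolynomial ι ℂ)) _
  have hb := KaehlerDifferential.isBaseChange_of_formallyEtale ℂ (MvPolynomial ι ℂ) L
  refine ⟨fun i => (hb.lift (Algebra.linearMap (MvPolynomial ι ℂ) L ∘ₗ
    (KaehlerDifferential.mvPolynomialBasis ℂ ι).coord i)).compDer (KaehlerDifferential.D ℂ L),
    fun i j => ?_⟩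
  have h1 : x j = algebraMap (MvPolynomial ι ℂ) L (X j) := by rw [hm, aeval_X]
  change hb.lift _ (KaehlerDifferential.D ℂ L (x j)) = _
  rw [h1, ← KaehlerDifferential.map_D ℂ ℂ (MvPolynomial ι ℂ) L, hb.lift_eq]
  by_cases h : i = j
  · simp [h]
  · simp [h]

theorem der_zero (D : Derivation ℂ K L) {s : Set K} (hs : ∀ a ∈ s, D a = 0) {a : K}
    (ha : IsAlgebraic (Algebra.adjoin ℂ s) a) : D a = 0 := by
  have h0 : ∀ c : Algebra.adjoin ℂ s, D (c : K) = 0 := fun c =>
    Derivation.eqOn_adjoin (D1 := D) (D2 := 0) hs c.2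
  have h1 : ∀ P : Polynomial (Algebra.adjoin ℂ s),
      D (Polynomial.aeval a P) = Polynomial.aeval a (Polynomial.derivative P) • D a := fun P => by
    induction P using Polynomial.induction_on' with
    | add p q hp hq => simp only [map_add, hp, hq, add_smul]
    | monomial n c =>
      rw [Polynomial.derivative_monomial, Polynomial.aeval_monomial, Polynomial.aeval_monomial,
        Derivation.leibniz, Derivation.leibniz_pow, map_mul, map_natCast]
      change (c : K) • _ + _ • D (c : K) = ((c : K) * _ * _) • _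
      rw [h0, smul_zero, add_zero, mul_smul, mul_smul, Nat.cast_smul_eq_nsmul]
  have : CharZero K := charZero_of_injective_algebraMap (algebraMap ℂ K).injective
  obtain ⟨P, hP, h⟩ := ha
  induction hn : P.natDegree using Nat.strong_induction_on generalizing P with
  | _ n ih =>
    by_cases h2 : Polynomial.aeval a (Polynomial.derivative P) = 0
    · have h3 : P.natDegree ≠ 0 := fun h3 => hP (by
        rw [Polynomial.eq_C_of_natDegree_eq_zero h3] at h ⊢
        rw [Polynomial.aeval_C] at h
        rw [Polynomial.C_eq_zero]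
        exact Subtype.ext h)
      exact ih _ (hn ▸ Polynomial.natDegree_derivative_lt h3) _
        (fun h4 => h3 (Polynomial.derivative_eq_zero.1 h4)) h2 rfl
    · have h3 := h1 P
      rw [h, map_zero, eq_comm, smul_eq_zero] at h3
      exact h3.resolve_left h2

theorem der_expand [Fintype ι] [DecidableEq ι] {x : ι → K} (hx : IsTranscendenceBasis ℂ x)
    {E : ι → Derivation ℂ K K} (hE : ∀ i j, E i (x j) = if i = j then 1 else 0)
    (D : Derivation ℂ K L) (a : K) : D a = ∑ l, algebraMap K L (E l a) * D (x l) := by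
  have h1 : ∀ b, (D - ∑ l, (LinearMap.toSpanSingleton K L (D (x l))).compDer (E l)) b
      = D b - ∑ l, algebraMap K L (E l b) * D (x l) := fun b => by
    rw [Derivation.sub_apply]
    congr 1
    refine (congrFun (map_sum (Derivation.coeFnAddMonoidHom (R := ℂ) (A := K) (M := L)) _ _) b).trans ?_
    rw [Finset.sum_apply]
    exact Finset.sum_congr rfl fun l _ => Algebra.smul_def _ _
  rw [← sub_eq_zero, ← h1]
  refine der_zero _ (s := range x) ?_ (hx.isAlgebraic.1 a)
  rintro _ ⟨j, rfl⟩
  rw [h1]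
  simp [hE]

theorem der_aeval [Fintype ι] (D : Derivation ℂ K K) (x : ι → K) (Q : MvPolynomial ι ℂ) :
    D (aeval x Q) = ∑ l, aeval x (pderiv l Q) * D (x l) := by
  classical
  induction Q using MvPolynomial.induction_on with
  | C c => simp
  | add p q hp hq => simp only [map_add, hp, hq, add_mul, Finset.sum_add_distrib]
  | mul_X p i hp =>
    simp only [map_mul, aeval_X, Derivation.leibniz, hp, smul_eq_mul, map_add, add_mul,
      Finset.sum_add_distrib, Finset.mul_sum, pderiv_X, mul_assoc]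
    congr 1
    rw [Finset.sum_eq_single i (fun l _ h => by simp [Ne.symm h]) (by simp)]
    simp

/-- `y` arises from `x` by a triangular change of coordinates. -/
def Tri {n : ℕ} (x y : Fin n → L) : Prop :=
  ∀ j, IsAlgebraic (Algebra.adjoin ℂ (x '' Ioi j)) (x j - y j)

theorem tri_matrix {n : ℕ} {x y : Fin n → L} (hx : IsTranscendenceBasis ℂ x) (h : Tri x y) :
    ∃ T : Matrix (Fin n) (Fin n) L, T.det = 1 ∧
      ∀ (D : Derivation ℂ L L) (j : Fin n), D (x j) = ∑ l, T j l * D (y l) := by
  obtain ⟨E, hE⟩ := der_exists hx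
  have h0 : ∀ j l, l ≤ j → E l (x j - y j) = 0 := fun j l hl =>
    der_zero _ (by rintro _ ⟨i, hi, rfl⟩; rw [hE, if_neg (hl.trans_lt hi).ne]) (h j)
  let B : Matrix (Fin n) (Fin n) L := fun j l => (if j = l then 1 else 0) - E l (x j - y j)
  have hB : B.det = 1 := by
    rw [Matrix.det_of_isUpperTriangular fun j l (hl : l < j) => by
      simp only [B, if_neg hl.ne', h0 j l hl.le, sub_zero]]
    exact Finset.prod_eq_one fun j _ => by simp only [B, if_true, h0 j j le_rfl, sub_zero]
  refine ⟨B⁻¹, by rw [Matrix.det_nonsing_inv, hB, Ring.inverse_one], fun D j => ?_⟩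
  have h1 : (fun l => D (y l)) = B.mulVec fun l => D (x l) := funext fun l => by
    have h2 := der_expand hx hE D (x l - y l)
    simp only [Algebra.algebraMap_self, RingHom.id_apply] at h2
    simp only [Matrix.mulVec, dotProduct, B, sub_mul, Finset.sum_sub_distrib, ← h2]
    simp
  change _ = B⁻¹.mulVec (fun l => D (y l)) j
  rw [h1, Matrix.mulVec_mulVec, Matrix.nonsing_inv_mul _ (by simp [hB]), Matrix.one_mulVec]

theorem isAlgebraic_map (f : K →ₐ[ℂ] L) {s : Set K} {a : K}
    (ha : IsAlgebraic (Algebra.adjoin ℂ s) a) : IsAlgebraic (Algebra.adjoin ℂ (f '' s)) (f a) := by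
  rw [Algebra.adjoin_image]
  exact ha.ringHom_of_comp_eq (f.subalgebraMap (Algebra.adjoin ℂ s)).toRingHom f.toRingHom
    (fun b c h => Subtype.ext (f.injective (congrArg Subtype.val h))) (RingHom.ext fun _ => rfl)

theorem Tri.cons {n : ℕ} {x y : Fin n → K} (h : Tri x y) (f : K →ₐ[ℂ] L) {s t : L}
    (hst : IsAlgebraic (Algebra.adjoin ℂ (range fun i => f (x i))) (s - t)) :
    Tri (Fin.cons s fun i => f (x i) : Fin (n + 1) → L) (Fin.cons t fun i => f (y i)) := by
  intro j
  induction j using Fin.cases with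
  | zero =>
    have e : (Fin.cons s fun i => f (x i) : Fin (n + 1) → L) '' Ioi 0 = range fun i => f (x i) := by
      ext z
      constructor
      · rintro ⟨i, hi, rfl⟩
        obtain ⟨k, rfl⟩ := Fin.exists_succ_eq.2 (ne_of_gt hi)
        exact ⟨k, rfl⟩
      · rintro ⟨k, rfl⟩
        exact ⟨k.succ, Fin.succ_pos k, rfl⟩
    rw [e]
    exact hst
  | succ j =>
    have e : (Fin.cons s fun i => f (x i) : Fin (n + 1) → L) '' Ioi j.succ = f '' (x '' Ioi j) := by
      ext z
      constructor
      · rintro ⟨i, hi, rfl⟩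
        obtain ⟨k, rfl⟩ := Fin.exists_succ_eq.2 (ne_of_gt ((Fin.succ_pos j).trans hi))
        exact ⟨x k, ⟨k, Fin.succ_lt_succ_iff.1 hi, rfl⟩, rfl⟩
      · rintro ⟨_, ⟨k, hk, rfl⟩, rfl⟩
        exact ⟨k.succ, Fin.succ_lt_succ_iff.2 hk, rfl⟩
    rw [e, Fin.cons_succ, Fin.cons_succ, ← map_sub]
    exact isAlgebraic_map f (h j)

theorem mono_der [DecidableEq ι] {w : AbsoluteValue L ℝ} (hw : NA w) {y : ι → L} (hy : Mono w y)
    {D : Derivation ℂ L L} {l : ι} (hD : ∀ j, D (y j) = if l = j then 1 else 0) {a : L}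
    (ha : a ∈ IntermediateField.adjoin ℂ (range y)) : w (y l * D a) ≤ w a := by
  have h1 : ∀ Q : MvPolynomial ι ℂ, D (aeval y Q) = aeval y (pderiv l Q) := fun Q => by
    induction Q using MvPolynomial.induction_on with
    | C c => simp
    | add p q hp hq => simp only [map_add, hp, hq]
    | mul_X p i hp =>
      simp only [map_mul, aeval_X, Derivation.leibniz, hp, smul_eq_mul, map_add, hD, pderiv_X]
      by_cases h : l = i <;> simp [h, eq_comm]
  have h2 : ∀ Q : MvPolynomial ι ℂ, w (y l * D (aeval y Q)) ≤ w (aeval y Q) := fun Q => by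
    rw [h1, ← aeval_X (R := ℂ) y l, ← map_mul]
    conv_lhs => rw [Q.as_sum, map_sum, Finset.mul_sum, map_sum]
    refine hw.sum_le (w.nonneg _) fun d hd => le_trans ?_ (hy.2 Q d hd)
    rw [X_mul_pderiv_monomial, ← map_nsmul, aeval_monomial, map_mul]
    exact mul_le_of_le_one_left (w.nonneg _) (hy.triv.le _)
  obtain ⟨p, q, rfl⟩ := (IntermediateField.mem_adjoin_range_iff ℂ y a).1 ha
  rcases eq_or_ne (aeval y q) 0 with h0 | h0
  · simp [h0]
  have h3 := w.pos h0
  have e : y l * D (aeval y p / aeval y q) = y l * D (aeval y p) / aeval y q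
      - aeval y p / aeval y q * (y l * D (aeval y q) / aeval y q) := by
    rw [Derivation.leibniz_div]
    simp only [smul_eq_mul]
    field_simp
  rw [e]
  refine hw.sub_le ?_ ?_
  · rw [map_div₀, map_div₀]
    exact div_le_div_of_nonneg_right (h2 p) h3.le
  · rw [map_mul]
    refine mul_le_of_le_one_right (w.nonneg _) ?_
    rw [map_div₀]
    exact (div_le_one h3).2 (h2 q)

end Pool.Agent.Lib.MP_bc3ae6_ag
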