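import Pool.Agent.Lib.MP_bc3ae6_ag.VN1

set_option autoImplicit false
set_option linter.unusedSectionVars false

/-! Independent copies of a valued field inside one algebraically closed field. -/

namespace Pool.Agent.Lib.MP_bc3ae6_ag

open MvPolynomial Set Real

lemma Mono.sub {Ω ι κ : Type} [Field Ω] [Algebra ℂ Ω] {w : AbsoluteValue Ω ℝ} {Y : κ → Ω}
    (hY : Mono w Y) {e : ι → κ} (he : Function.Injective e) : Mono w (Y ∘ e) := by
  classical
  refine ⟨fun i => hY.1 _, fun Q d hd => ?_⟩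
  have := hY.2 (rename e Q) (d.mapDomain e) (by
    rw [support_rename_of_injective he]; exact Finset.mem_image_of_mem _ hd)
  rwa [aeval_rename, Finsupp.prod_mapDomain_index_inj he] at this

theorem copies_basis {K Ω ι κ : Type} [Field K] [Field Ω] [Algebra ℂ K] [Algebra ℂ Ω] [Finite ι]
    [Finite κ] {θ p : ι → K} (hθ : IsTranscendenceBasis ℂ θ) {Y : κ × ι → Ω}
    (hY : IsTranscendenceBasis ℂ Y) {g : κ → K →ₐ[ℂ] Ω} (hg : ∀ j i, g j (p i) = Y (j, i)) :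
    IsTranscendenceBasis ℂ fun q : κ × ι => g q.1 (θ q.2) := by
  have h1 := hθ.isAlgebraic
  have h2 := hY.isAlgebraic
  have : Algebra.IsAlgebraic (Algebra.adjoin ℂ (range fun q : κ × ι => g q.1 (θ q.2))) Ω :=
    ⟨fun a => (h2.isAlgebraic a).adjoin_of_forall_isAlgebraic fun x hx => by
      obtain ⟨⟨j, i⟩, rfl⟩ := hx.1
      rw [← hg]
      let : Algebra K Ω := (g j).toRingHom.toAlgebra
      have : IsScalarTower ℂ K Ω := IsScalarTower.of_algebraMap_eq fun c => ((g j).commutes c).symm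
      refine (isAlgebraic_map (g j) (h1.isAlgebraic (p i))).tower_top_of_subalgebra_le
        (Algebra.adjoin_mono ?_)
      rintro _ ⟨_, ⟨l, rfl⟩, rfl⟩
      exact ⟨(j, l), rfl⟩⟩
  exact Algebra.IsAlgebraic.isTranscendenceBasis_of_le_trdeg_of_finite ℂ _
    hY.cardinalMk_eq_trdeg.le

theorem copies_jac {K L Ω ι κ σ : Type} [Field K] [Field L] [Field Ω] [Algebra ℂ K] [Algebra ℂ L]
    [Algebra ℂ Ω] [IsAlgClosed Ω] [Fintype ι] [DecidableEq ι] [Fintype κ] [DecidableEq κ]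
    [Nonempty κ] [Finite σ] {θ : ι → K} (hθ : IsTranscendenceBasis ℂ θ) (E : PrimeDiv K ι)
    {w : AbsoluteValue Ω ℝ} (hw : NA w) {Y : κ × ι → Ω} (hY : IsTranscendenceBasis ℂ Y)
    (hM : Mono w Y) (hc : ∀ q, w (Y q) = if q.2 = E.i₀ then exp (-1) else 1)
    {g : κ → K →ₐ[ℂ] Ω} (hg : ∀ j i, g j (E.p i) = Y (j, i))
    (hv : ∀ j a, a ≠ 0 → w (g j a) = exp (-E.o a)) {x : σ → L}
    (hL : IntermediateField.adjoin ℂ (range x) = ⊤) {η : κ × ι → L}
    (hη : IsTranscendenceBasis ℂ η) (ψ : L →ₐ[ℂ] Ω) (hψ : ∀ q, ψ (η q) = g q.1 (θ q.2)) :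
    ∃ (E' : PrimeDiv L (κ × ι)) (l : ℝ), 0 < l ∧ (∀ a, a ≠ 0 → w (ψ a) = exp (-(l * E'.o a))) ∧
      l * (1 + E'.o (E'.jac η)) ≤ Fintype.card κ * (1 + E.o (E.jac θ)) := by
  let : Algebra L Ω := ψ.toRingHom.toAlgebra
  have : IsScalarTower ℂ L Ω := IsScalarTower.of_algebraMap_eq fun c => (ψ.commutes c).symm
  have h1 := (copies_basis hθ hY hg).isAlgebraic
  have : Algebra.IsAlgebraic L Ω := ⟨fun a => by
    refine ((h1.isAlgebraic a).tower_top_of_subalgebra_le (B := ψ.range)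
      (Algebra.adjoin_le_iff.2 ?_)).of_ringHom_of_comp_eq
      (ψ.rangeRestrict : L →+* ψ.range) (RingHom.id Ω) ψ.rangeRestrict_surjective
      Function.injective_id rfl
    rintro _ ⟨q, rfl⟩
    exact ⟨_, hψ q⟩⟩
  obtain ⟨E', l, hl, h2, h3⟩ := jac hw hM hL hη (fun q => by
      rw [hc]; split_ifs
      exacts [⟨-1, by simp⟩, ⟨0, by simp⟩])
    ⟨(Classical.arbitrary κ, E.i₀), by simp [hc]⟩
    (T := fun q q' => if q.1 = q'.1 then g q.1 (E.D q'.2 (θ q.2)) else 0) fun D q => by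
      let : Algebra K Ω := (g q.1).toRingHom.toAlgebra
      have : IsScalarTower ℂ K Ω :=
        IsScalarTower.of_algebraMap_eq fun c => ((g q.1).commutes c).symm
      have := der_expand (E.basis hθ) E.dual (D.compAlgebraMap K) (θ q.2)
      rw [show algebraMap L Ω (η q) = _ from hψ q, Fintype.sum_prod_type]
      simp only [ite_mul, zero_mul, Finset.sum_ite_irrel, Finset.sum_const_zero,
        Finset.sum_ite_eq, Finset.mem_univ, if_true, ← hg]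
      exact this
  refine ⟨E', l, hl, h2, ?_⟩
  have h4 : Matrix.det (fun q q' : κ × ι => if q.1 = q'.1 then g q.1 (E.D q'.2 (θ q.2)) else 0)
      = ∏ j, g j (E.jac θ) := by
    rw [← Matrix.det_submatrix_equiv_self (Equiv.prodComm ι κ)]
    refine (Matrix.det_blockDiagonal fun j => Matrix.of fun i l => g j (E.D l (θ i))).trans
      (Finset.prod_congr rfl fun j _ => ?_)
    rw [PrimeDiv.jac, ← Matrix.det_transpose, AlgHom.map_det]
    rfl
  simp only [h4, hc, map_prod, hv _ _ (E.jac_ne hθ), Fintype.prod_prod_type, Finset.prod_ite_eq',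
    Finset.mem_univ, if_true, Finset.prod_const, Finset.card_univ] at h3
  rw [← mul_pow, ← exp_add, ← exp_nat_mul, exp_le_exp] at h3
  linarith

theorem exists_copies {K ι κ σ : Type} [Field K] [Algebra ℂ K] [Finite ι] [DecidableEq ι]
    [Finite κ] [Finite σ] {x : σ → K} (hK : IntermediateField.adjoin ℂ (range x) = ⊤) {θ : ι → K}
    (hθ : IsTranscendenceBasis ℂ θ) (E : PrimeDiv K ι) :
    ∃ (Ω : Type) (_ : Field Ω) (_ : Algebra ℂ Ω) (_ : IsAlgClosed Ω) (w : AbsoluteValue Ω ℝ)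
      (Y : κ × ι → Ω) (g : κ → K →ₐ[ℂ] Ω), NA w ∧ IsTranscendenceBasis ℂ Y ∧ Mono w Y ∧
      (∀ q, w (Y q) = if q.2 = E.i₀ then exp (-1) else 1) ∧ (∀ j i, g j (E.p i) = Y (j, i)) ∧
      ∀ j a, a ≠ 0 → w (g j a) = exp (-E.o a) := by
  have := IsLocalization.isAlgebraic (FractionRing (MvPolynomial (κ × ι) ℂ))
    (nonZeroDivisors (MvPolynomial (κ × ι) ℂ))
  have hY := basis_map (L := AlgebraicClosure (FractionRing (MvPolynomial (κ × ι) ℂ)))
    ((IsTranscendenceBasis.mvPolynomial (κ × ι) ℂ).algebraMap_comp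
      (A := FractionRing (MvPolynomial (κ × ι) ℂ)))
  obtain ⟨w, h1, h2, h3⟩ := ext_mono hY (c := fun q => if q.2 = E.i₀ then exp (-1) else 1)
    fun q => by positivity
  choose g h4 h5 using fun j : κ => exists_iota hK hθ E h1 (h2.sub (Prod.mk_right_injective j))
    fun i => h3 (j, i)
  exact ⟨_, _, _, inferInstance, w, _, g, h1, hY, h2, h3, h4, h5⟩

lemma ord_nonneg_of {L Ω ι σ : Type} [Field L] [Field Ω] [Algebra ℂ L] [Algebra ℂ Ω] [DecidableEq ι]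
    {E : PrimeDiv L ι} {w : AbsoluteValue Ω ℝ} (hw : NA w) (ht : Triv w) {ψ : L →ₐ[ℂ] Ω} {l : ℝ}
    (hl : 0 < l) (h : ∀ a, a ≠ 0 → w (ψ a) = exp (-(l * E.o a))) {φ : MvPolynomial σ ℂ →ₐ[ℂ] L}
    (hφ : ∀ q, w (ψ (φ (X q))) ≤ 1) (a : MvPolynomial σ ℂ) : 0 ≤ E.ord (φ a) := by
  rw [PrimeDiv.nonneg_iff (w := fun a => w (ψ a)) hl (by simp) h]
  have := ht.aeval_le hw hφ a
  rwa [← comp_aeval_apply, ← comp_aeval_apply, aeval_X_left_apply] at this

lemma le_one_of {L Ω ι : Type} [Field L] [Field Ω] [Algebra ℂ L] [Algebra ℂ Ω] [DecidableEq ι]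
    {E : PrimeDiv L ι} {w : AbsoluteValue Ω ℝ} {ψ : L →ₐ[ℂ] Ω}
    (h : ∀ a, a ≠ 0 → w (ψ a) = exp (-E.o a)) {a : L} :
    (0 ≤ E.ord a → w (ψ a) ≤ 1) ∧ (E.ord a = 0 → w (ψ a) = 1) :=
  ⟨(PrimeDiv.nonneg_iff (w := fun a => w (ψ a)) one_pos (by simp) (by simpa using h) a).1,
    fun ha => by rw [h _ (fun h => by simp [h] at ha), PrimeDiv.o, ha]; simp⟩

lemma ord_prod_zero {L Ω ι κ : Type} [Field L] [Field Ω] [Algebra ℂ L] [Algebra ℂ Ω] [DecidableEq ι]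
    [Fintype κ] {E : PrimeDiv L ι} {w : AbsoluteValue Ω ℝ} {ψ : L →ₐ[ℂ] Ω} {l : ℝ} (hl : 0 < l)
    (h : ∀ a, a ≠ 0 → w (ψ a) = exp (-(l * E.o a))) {u : κ → L} (hu : ∀ j, w (ψ (u j)) = 1) :
    E.ord (∏ j, u j) = 0 :=
  PrimeDiv.eq_zero_of (w := fun a => w (ψ a)) hl (by simp) h _ (by simp [hu])

variable {n M N : ℕ} {I : Ideal (MP M)} [I.IsPrime] {θ : Fin n → MP M} [Algebra (MP n) (MP M ⧸ I)]

theorem AS.prod_div (hA : AS I θ) (hN : 0 < N) (E : PrimeDiv (FnF I) (Fin n))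
    (hE : E.Meets (zeroLocus ℂ I \ {0})) :
    ∃ (E' : PrimeDiv (FnF (JN N I)) (Fin N × Fin n)) (l : ℝ), 0 < l ∧
      E'.Meets (pw N (zeroLocus ℂ I \ {0})) ∧
      (∀ j a, a ∉ I → l * E'.o (cl (JN N I) (rename (Prod.mk j) a)) = E.o (cl I a)) ∧
      l * (1 + E'.o (E'.jac fun q => cl (JN N I) (thN N θ q)))
        ≤ N * (1 + E.o (E.jac fun i => cl I (θ i))) := by
  have : Nonempty (Fin N) := ⟨⟨0, hN⟩⟩
  obtain ⟨Ω, _, _, _, w, Y, g, h1, h2, h3, h4, h5, h6⟩ :=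
    exists_copies (κ := Fin N) adjoin_cl hA.basis E
  obtain ⟨ψ, hψ⟩ := hA.exists_prod_hom g (copies_basis hA.basis h2 h5).1
  obtain ⟨E', l, hl, h7, h8⟩ := copies_jac hA.basis E h1 h2 h3 h4 h5 h6 adjoin_cl hA.basisN ψ
    fun q => hψ _ _
  rw [Fintype.card_fin] at h8
  have h9 : ∀ j a, a ∉ I → l * E'.o (cl (JN N I) (rename (Prod.mk j) a)) = E.o (cl I a) :=
    fun j a ha => by
      have := h7 _ (cl_eq_zero.not.2 ((rn_mem_iff j).not.2 ha))
      rw [hψ, h6 _ _ (cl_eq_zero.not.2 ha), exp_eq_exp, neg_inj] at this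
      exact this.symm
  have h10 := ord_nonneg_of h1 h3.triv hl h7 (φ := cl (JN N I)) fun ⟨j, k⟩ => by
    rw [← rename_X (Prod.mk j), hψ]
    exact (le_one_of (h6 j)).1 (hE.1 _)
  obtain ⟨y, hy, h11⟩ := hE.ord_eq
  obtain ⟨k, hk⟩ := Function.ne_iff.1 hy.2
  have h12 := h11 (X k) (by simpa using hk)
  obtain ⟨z, h13, h14, h15⟩ := E'.exists_centre h10 (u := ∏ j, rename (Prod.mk j) (X k)) (by
    rw [map_prod]
    exact ord_prod_zero hl h7 fun j => (congrArg w (hψ j _)).trans ((le_one_of (h6 j)).2 h12))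
  rw [zl_JN] at h13
  refine ⟨E', l, hl, ⟨h10, z, fun j => ⟨h13 j, fun h => h14 ?_⟩, h15⟩, h9, h8⟩
  rw [map_prod]
  exact Finset.prod_eq_zero (Finset.mem_univ j) (by simpa using congrFun h k)

end Pool.Agent.Lib.MP_bc3ae6_ag
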