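import Pool.Agent.Lib.MP_bc3ae6_ag.LocInt

set_option autoImplicit false
set_option linter.unusedSectionVars false

/-! Powers of an affine variety: the fibre counting measure is the product measure. -/

namespace Pool.Agent.Lib.MP_bc3ae6_ag

open MvPolynomial Set MeasureTheory
open scoped Polynomial ENNReal

lemma pm_lint_pi {E : Type} [MeasurableSpace E] (μ : Measure E) [SigmaFinite μ] (N : ℕ) :
    ∀ g : Fin N → E → ℝ≥0∞, (∀ j, Measurable (g j)) →
      ∫⁻ y, ∏ j, g j (y j) ∂(Measure.pi fun _ : Fin N => μ) = ∏ j, ∫⁻ y, g j y ∂μ := by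
  induction N with
  | zero => intro g _; simp
  | succ N ih =>
    intro g hg
    have hm : Measurable fun y : Fin N → E => ∏ j, g (Fin.succ j) (y j) :=
      Finset.measurable_prod _ fun j _ => (hg _).comp (measurable_pi_apply j)
    have h1 := (measurePreserving_piFinSuccAbove (fun _ : Fin (N + 1) => μ) 0).lintegral_comp
      (f := fun z : E × (Fin N → E) => g 0 z.1 * ∏ j, g (Fin.succ j) (z.2 j))
      (((hg 0).comp measurable_fst).mul (hm.comp measurable_snd))
    rw [lintegral_prod_mul (hg 0).aemeasurable hm.aemeasurable, ih _ fun j => hg _] at h1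
    rw [Fin.prod_univ_succ, ← h1]
    refine lintegral_congr fun y => ?_
    rw [Fin.prod_univ_succ]
    rfl

lemma pm_curry (N n : ℕ) : MeasurePreserving (MeasurableEquiv.curry (Fin N) (Fin n) ℂ)
    volume (Measure.pi fun _ : Fin N => (volume : Measure (Fin n → ℂ))) := by
  refine MeasurePreserving.symm (MeasurableEquiv.curry (Fin N) (Fin n) ℂ).symm
    ⟨(MeasurableEquiv.curry (Fin N) (Fin n) ℂ).symm.measurable, ?_⟩
  refine (Measure.pi_eq (μ := fun _ : Fin N × Fin n => (volume : Measure ℂ)) fun s hs => ?_).symm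
  rw [MeasurableEquiv.map_apply]
  have e : (MeasurableEquiv.curry (Fin N) (Fin n) ℂ).symm ⁻¹' univ.pi s
      = univ.pi fun j => univ.pi fun l => s (j, l) := by
    ext y
    simp only [mem_preimage, mem_univ_pi, Prod.forall]
    rfl
  rw [e, Measure.pi_pi, Fintype.prod_prod_type]
  exact Finset.prod_congr rfl fun j _ => volume_pi_pi _

variable {n M N : ℕ} {I : Ideal (MP M)} {θ : Fin n → MP M} {d : ℕ} {F : Fin M → (MP n)[X]}
  {h : MvPolynomial (Fin n ⊕ Fin M) ℂ}

lemma pm_ev (x : Fin N × Fin M → ℂ) (j : Fin N) (p : MP M) :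
    eval x (rename (Prod.mk j) p) = eval (fun l => x (j, l)) p := by
  rw [eval_rename]; rfl

lemma pm_fib (x : Fin N × Fin M → ℂ) (w : Fin N × Fin n → ℂ) :
    x ∈ fibr {x : Fin N × Fin M → ℂ | ∀ j, (fun l => x (j, l)) ∈ zeroLocus ℂ I}
      (fun x (q : Fin N × Fin n) => eval x (rename (Prod.mk q.1) (θ q.2))) w ↔
    ∀ j, (fun l => x (j, l)) ∈ fibr (zeroLocus ℂ I) (pr θ) fun i => w (j, i) := by
  simp only [fibr, mem_ofPred_eq, funext_iff, Prod.forall, pm_ev, pr, forall_and]

lemma pm_cont (j : Fin N) : Continuous fun (x : Fin N × Fin M → ℂ) (l : Fin M) => x (j, l) :=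
  continuous_pi fun _ => continuous_apply _

theorem Geo.ffN (hG : Geo I θ d F h) :
    FF {x : Fin N × Fin M → ℂ | ∀ j, (fun l => x (j, l)) ∈ zeroLocus ℂ I}
      (fun x (q : Fin N × Fin n) => eval x (rename (Prod.mk q.1) (θ q.2))) ((d ^ M) ^ N) := by
  classical
  refine ⟨?_, continuous_pi fun q => cont_ev _, fun w => ?_⟩
  · rw [ofPred_forall]
    exact isClosed_iInter fun j => (closed_Z I).preimage (pm_cont j)
  · have e : fibr {x : Fin N × Fin M → ℂ | ∀ j, (fun l => x (j, l)) ∈ zeroLocus ℂ I}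
        (fun x (q : Fin N × Fin n) => eval x (rename (Prod.mk q.1) (θ q.2))) w
        = ↑((Fintype.piFinset fun j => (hG.ff.fin fun i => w (j, i)).toFinset).map
          (Equiv.curry (Fin N) (Fin M) ℂ).symm.toEmbedding) := by
      ext x
      rw [pm_fib, Finset.mem_coe, Finset.mem_map_equiv, Fintype.mem_piFinset]
      simp only [Finite.mem_toFinset]
      rfl
    rw [e, encard_coe_eq_coe_finsetCard, Finset.card_map, Fintype.card_piFinset]
    norm_cast
    exact (Finset.prod_le_pow_card _ _ _ fun j _ => hG.ff.card_le _).trans (by simp)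

lemma Geo.pm_key (hG : Geo I θ d F h) (g : Fin N → (Fin M → ℂ) → ℝ≥0∞)
    (hg : ∀ j, Measurable (g j)) :
    ∫⁻ x, ∏ j, g j (fun l => x (j, l))
      ∂(fm volume {x : Fin N × Fin M → ℂ | ∀ j, (fun l => x (j, l)) ∈ zeroLocus ℂ I}
        fun x (q : Fin N × Fin n) => eval x (rename (Prod.mk q.1) (θ q.2)))
      = ∏ j, ∫⁻ y, g j y ∂(lam I θ) := by
  classical
  have m1 : Measurable fun x : Fin N × Fin M → ℂ => ∏ j, g j (fun l => x (j, l)) :=
    Finset.measurable_prod _ fun j _ => (hg j).comp (pm_cont j).measurable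
  have m2 : Measurable fun y : Fin N → Fin n → ℂ =>
      ∏ j, fs (zeroLocus ℂ I) (pr θ) (g j) (y j) :=
    Finset.measurable_prod _ fun j _ => (hG.ff.meas_fs (hg j)).comp (measurable_pi_apply j)
  rw [hG.ffN.lint_fm _ m1]
  simp only [lam, fun j => hG.ff.lint_fm volume (hg j)]
  rw [← pm_lint_pi volume N _ fun j => hG.ff.meas_fs (hg j),
    ← (pm_curry N n).lintegral_comp m2]
  refine lintegral_congr fun w => ?_
  simp only [hG.ffN.fs_eq, hG.ff.fs_eq]
  rw [Finset.prod_univ_sum]
  refine Finset.sum_equiv (Equiv.curry (Fin N) (Fin M) ℂ) (fun x => ?_) fun x _ => rfl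
  rw [Finite.mem_toFinset, pm_fib, Fintype.mem_piFinset]
  simp only [Finite.mem_toFinset]
  rfl

theorem Geo.lint_pw (hG : Geo I θ d F h) {f : MP M} (hf : f ∉ I) (s ρ : ℝ)
    {H : (Fin N → Fin M → ℂ) → ℝ≥0∞} (hH : Measurable H) :
    ∫⁻ x in {x : Fin N × Fin M → ℂ | ∀ j, (fun l => x (j, l)) ∈ Sh θ ρ},
      H (fun j l => x (j, l)) * ‖eval x (∏ j, rename (Prod.mk j) f)‖ₑ ^ (-(2 * s))
      ∂(fm volume {x : Fin N × Fin M → ℂ | ∀ j, (fun l => x (j, l)) ∈ zeroLocus ℂ I}
        fun x (q : Fin N × Fin n) => eval x (rename (Prod.mk q.1) (θ q.2)))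
      = ∫⁻ y, H y ∂(Measure.pi fun _ => (mu I θ f s).restrict (Sh θ ρ)) := by
  classical
  have := hG.sigmaFinite_mu hf s
  set ν := fm volume {x : Fin N × Fin M → ℂ | ∀ j, (fun l => x (j, l)) ∈ zeroLocus ℂ I}
    fun x (q : Fin N × Fin n) => eval x (rename (Prod.mk q.1) (θ q.2)) with hν
  set A := {x : Fin N × Fin M → ℂ | ∀ j, (fun l => x (j, l)) ∈ Sh θ ρ} with hA
  have mA : MeasurableSet A := by
    rw [hA, ofPred_forall]
    exact MeasurableSet.iInter fun j => (pm_cont j).measurable (meas_Sh ρ)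
  have mD : Measurable fun x : Fin N × Fin M → ℂ =>
      ‖eval x (∏ j, rename (Prod.mk j) f)‖ₑ ^ (-(2 * s)) := (cont_ev _).measurable.enorm.pow_const _
  have mc : Measurable fun (x : Fin N × Fin M → ℂ) (j : Fin N) (l : Fin M) => x (j, l) :=
    measurable_pi_lambda _ fun j => (pm_cont j).measurable
  have eD : ∀ x : Fin N × Fin M → ℂ, ‖eval x (∏ j, rename (Prod.mk j) f)‖ₑ ^ (-(2 * s))
      = ∏ j, ‖eval (fun l => x (j, l)) f‖ₑ ^ (-(2 * s)) := fun x => by
    rw [ENNReal.prod_rpow_of_ne_top fun _ _ => enorm_ne_top, map_prod]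
    simp only [pm_ev, enorm_eq_nnnorm, nnnorm_prod, ENNReal.ofNNReal_finsetProd]
  have key : (Measure.pi fun _ : Fin N => (mu I θ f s).restrict (Sh θ ρ))
      = ((ν.restrict A).withDensity fun x =>
        ‖eval x (∏ j, rename (Prod.mk j) f)‖ₑ ^ (-(2 * s))).map fun x j l => x (j, l) := by
    refine Measure.pi_eq fun B hB => ?_
    have mB := mc (MeasurableSet.univ_pi hB)
    rw [Measure.map_apply mc (MeasurableSet.univ_pi hB), withDensity_apply _ mB,
      Measure.restrict_restrict mB, ← lintegral_indicator (mB.inter mA)]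
    have h1 := hG.pm_key (N := N)
      (fun j => (B j ∩ Sh θ ρ).indicator fun y => ‖eval y f‖ₑ ^ (-(2 * s)))
      fun j => (meas_dens f s).indicator ((hB j).inter (meas_Sh ρ))
    refine ((lintegral_congr fun x => ?_).trans h1).trans (Finset.prod_congr rfl fun j _ => ?_)
    · by_cases hx : ∀ j, (fun l => x (j, l)) ∈ B j ∩ Sh θ ρ
      · have hx' : x ∈ (fun (x : Fin N × Fin M → ℂ) j l => x (j, l)) ⁻¹' univ.pi B ∩ A :=
          ⟨fun j _ => (hx j).1, fun j => (hx j).2⟩
        rw [indicator_of_mem hx', eD]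
        exact Finset.prod_congr rfl fun j _ => by rw [indicator_of_mem (hx j)]
      · rw [indicator_of_notMem fun h' => hx fun j => ⟨h'.1 j (mem_univ _), h'.2 j⟩]
        obtain ⟨j, hj⟩ := not_forall.1 hx
        exact (Finset.prod_eq_zero (Finset.mem_univ j) (indicator_of_notMem hj _)).symm
    · rw [Measure.restrict_apply (hB j), mu, withDensity_apply _ ((hB j).inter (meas_Sh ρ)),
        lintegral_indicator ((hB j).inter (meas_Sh ρ))]
  have mH : Measurable fun x : Fin N × Fin M → ℂ => H fun j l => x (j, l) := hH.comp mc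
  rw [key, lintegral_map hH mc, lintegral_withDensity_eq_lintegral_mul _ mD mH]
  exact lintegral_congr fun x => mul_comm _ _

end Pool.Agent.Lib.MP_bc3ae6_ag
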