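import Pool.Agent.Lib.MP_bc3ae6_ag.VA
import Pool.Agent.Lib.MP_bc3ae6_ag.VB
import Pool.Agent.Lib.MP_bc3ae6_ag.VN2
import Pool.Agent.Lib.MP_bc3ae6_ag.VProdM
import Pool.Agent.Lib.MP_bc3ae6_ag.BasL

set_option autoImplicit false
set_option linter.unusedSectionVars false

/-! The threshold of the determinant divisor at a fixed level. -/

namespace Pool.Agent.Lib.MP_bc3ae6_ag

open MvPolynomial Set Real MeasureTheory Filter Topology Metric
open scoped Polynomial ENNReal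

lemma PrimeDiv.A_eq {σ ι : Type} [Fintype ι] [DecidableEq ι] {J : Ideal (MvPolynomial σ ℂ)}
    (E : PrimeDiv (FnF J) ι) (θ : ι → MvPolynomial σ ℂ) (f : MvPolynomial σ ℂ) {r : ℕ}
    (hr : 0 < r) : E.A θ f r = 1 + E.o (E.jac fun i => cl J (θ i)) - 1 / r * E.o (cl J f) := by
  have : (r : ℝ) ≠ 0 := by positivity
  rw [PrimeDiv.A]; field_simp; ring

lemma ev_det {N M : ℕ} (s : Fin N → MP M) (x : Fin N × Fin M → ℂ) :
    eval x (Matrix.of fun i j : Fin N => rename (Prod.mk j) (s i)).det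
      = (Matrix.of fun i j => eval (fun l => x (j, l)) (s i)).det := by
  rw [RingHom.map_det]
  congr 1
  ext i j
  exact vp_rn x j (s i)

variable {n M N : ℕ} {I : Ideal (MP M)} [I.IsPrime] {θ : Fin n → MP M}
  [Algebra (MP n) (MP M ⧸ I)] {d : ℕ} {F : Fin M → (MP n)[X]}
  {h : MvPolynomial (Fin n ⊕ Fin M) ℂ} {wt : Fin M → ℕ} {e : ℕ} {f : MP M} {r m : ℕ}

lemma fN_notMem (hf : f ∉ I) : ∏ j : Fin N, rename (Prod.mk j) f ∉ JN N I := fun h => by
  obtain ⟨j, -, hj⟩ := Ideal.IsPrime.prod_mem_iff.1 h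
  exact hf ((rn_mem_iff j).1 hj)

theorem AS.lct_lower (hA : AS I θ) (hG : Geo I θ d F h) (hH : Hom I θ wt e) (hf : f ∉ I)
    (hr : 0 < r) {s : Fin N → MP M} (hs : Bas I wt m s) {c : ℝ} (hc : 0 ≤ c)
    (hI : ∀ ρ > 0, ∫⁻ x, ‖(Matrix.of fun i j => eval (x j) (s i)).det‖ₑ ^ (-(2 * c))
      ∂(Measure.pi fun _ => (mu I θ f (1 / r)).restrict (Sh θ ρ)) < ⊤)
    (E : PrimeDiv (FnF (JN N I)) (Fin N × Fin n)) (hE : E.Meets (pw N (zeroLocus ℂ I \ {0}))) :
    c * E.o (cl (JN N I) (Matrix.of fun i j : Fin N => rename (Prod.mk j) (s i)).det)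
      ≤ E.A (thN N θ) (∏ j, rename (Prod.mk j) f) r := by
  obtain ⟨y, hy, h1⟩ := hE.ord_eq
  choose i hi using fun j => Function.ne_iff.1 fun h => (hy j).2 (hG.eq_zero hH (hy j).1 h)
  obtain ⟨ρ, hρ, h2⟩ := valA hA.basisN (D := (d ^ M) ^ N) (by rw [zl_JN]; exact hG.ffN) E hE.1
    (u := fun j => thN N θ (j, i j)) (fun j => h1 _ (by rw [vp_rn]; exact hi j))
    (det_notMem hs.li) (fN_notMem hf)
  obtain ⟨B, hB⟩ := (isCompact_closedBall (0 : Fin M → ℂ) ρ).exists_bound_of_continuousOn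
    (cont_pr θ).continuousOn
  have hm : Measurable fun x : Fin N → Fin M → ℂ =>
      ‖(Matrix.of fun i j => eval (x j) (s i)).det‖ₑ ^ (-(2 * c)) :=
    (continuous_matrix fun i j => (cont_ev (s i)).comp
      (continuous_apply j)).matrix_det.measurable.enorm.pow_const _
  have h3 := h2 c (1 / r) hc (by positivity) (by
    simp only [zl_JN, ev_det]
    refine lt_of_le_of_lt (lintegral_mono_set ?_)
      ((hG.lint_pw hf _ (max ρ B) hm).trans_lt (hI _ (lt_max_of_lt_left hρ)))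
    refine fun x hx j => ⟨?_, ?_⟩
    · refine (inv_anti₀ hρ (le_max_left _ _)).trans ((hx.2 j).trans ?_)
      rw [vp_rn]
      exact norm_le_pi_norm (pr θ fun l => x (j, l)) _
    · refine (hB _ (mem_closedBall_zero_iff.2 ((pi_norm_le_iff_of_nonneg hρ.le).2 fun l =>
        (norm_le_pi_norm x _).trans hx.1))).trans (le_max_right _ _))
  rw [E.A_eq _ _ hr]
  linarith

theorem AS.lct_upper (hA : AS I θ) (hf : f ∉ I) (hr : 0 < r) (hN : 0 < N) {s t : Fin N → MP M}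
    (hs : Bas I wt m s) (ht : Bas I wt m t) {c : ℝ} (hc : 0 ≤ c)
    (H : ∀ E : PrimeDiv (FnF (JN N I)) (Fin N × Fin n), E.Meets (pw N (zeroLocus ℂ I \ {0})) →
      c * E.o (cl (JN N I) (Matrix.of fun i j : Fin N => rename (Prod.mk j) (s i)).det)
        ≤ E.A (thN N θ) (∏ j, rename (Prod.mk j) f) r)
    (E : PrimeDiv (FnF I) (Fin n)) (hE : E.Meets (zeroLocus ℂ I \ {0})) :
    c * ∑ i, E.o (cl I (t i)) ≤ N * E.A θ f r := by
  obtain ⟨E', l, hl, h1, h2, h3⟩ := hA.prod_div hN E hE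
  have h4 := mul_le_mul_of_nonneg_left (H E' h1) hl.le
  obtain ⟨b, hb, h5⟩ := hs.det ht
  have h6 : cl (JN N I) (Matrix.of fun i j : Fin N => rename (Prod.mk j) (t i)).det
      = cl (JN N I) (C b * (Matrix.of fun i j : Fin N => rename (Prod.mk j) (s i)).det) := by
    rw [← sub_eq_zero, ← map_sub, cl_eq_zero, vp_mem]
    intro x hx
    rw [map_sub, map_mul, ev_det, ev_det, eval_C, h5 _ hx, sub_self]
  have h7 : ∀ i, t i ∉ I := fun i h => by
    simpa using congrFun (ht.li (Pi.single i 1) (by simpa [BasL.lc_single] using h)) i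
  have h8 := cl_eq_zero.not.2 (det_notMem ht.li)
  have h9 := h8
  rw [AlgHom.map_det] at h9
  have h10 := ov_det E'.ord h9 (c := fun i => E.o (cl I (t i)) / l) fun i j _ => by
    rw [← h2 j _ (h7 i), mul_div_cancel_left₀ _ hl.ne']
    rfl
  rw [← AlgHom.map_det, h6, map_mul, ov_mul _ (by simpa using hb)
    (cl_eq_zero.not.2 (det_notMem hs.li)), algHom_C, ov, E'.ord_C hb, ← Finset.sum_div,
    div_le_iff₀ hl, ← E'.o_eq] at h10
  have h11 : l * E'.o (cl (JN N I) (∏ j, rename (Prod.mk j) f)) = N * E.o (cl I f) := by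
    rw [map_prod, E'.o_eq, ov_prod _ fun j _ => cl_eq_zero.not.2 ((rn_mem_iff j).not.2 hf),
      Finset.mul_sum]
    exact (Finset.sum_congr rfl fun j _ => h2 j f hf).trans (by simp)
  rw [E'.A_eq _ _ hr, mul_sub, mul_left_comm l (1 / r : ℝ), h11] at h4
  rw [E.A_eq _ _ hr]
  have h12 := mul_le_mul_of_nonneg_left h10 hc
  simp only [WithTop.untopD_zero, Int.cast_zero, zero_add] at h12
  linarith

end Pool.Agent.Lib.MP_bc3ae6_ag
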