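import Pool.Agent.Lib.MP_bc3ae6_ag.VSa

set_option autoImplicit false
set_option linter.unusedSectionVars false

/-! Comparison of the finite level averages of a valuation with their volume limit. -/

namespace Pool.Agent.Lib.MP_bc3ae6_ag

open Set Filter MeasureTheory Module
open scoped ENNReal NNReal

variable {K : Type} [Field K] [Algebra ℂ K] {U : ℕ → Submodule ℂ K} {d r : ℕ}

/-- The filtration induced by a valuation. -/
structure IsFl (U : ℕ → Submodule ℂ K) (v : AddValuation K (WithTop ℤ))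
    (Fl : ℕ → ℝ → Submodule ℂ K) : Prop where
  nn : ∀ m, ∀ a ∈ U m, 0 ≤ v a
  mem : ∀ m x a, a ∈ Fl m x ↔ a ∈ U m ∧ ((⌈x⌉ : ℤ) : WithTop ℤ) ≤ v a

section aux

variable {v : AddValuation K (WithTop ℤ)} {Fl : ℕ → ℝ → Submodule ℂ K} (h : IsFl U v Fl)
include h

lemma IsFl.le (m : ℕ) (x : ℝ) : Fl m x ≤ U m := fun a ha => ((h.mem m x a).1 ha).1

lemma IsFl.mem_iff {m : ℕ} {x : ℝ} {a : K} (ha : a ≠ 0) :
    a ∈ Fl m x ↔ a ∈ U m ∧ x ≤ ov v a := by
  obtain ⟨k, -, h2⟩ := ov_spec v ha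
  rw [h.mem, le_ov_iff v ha, h2, Int.cast_le, Int.ceil_le]

lemma IsFl.anti (m : ℕ) {x y : ℝ} (hxy : x ≤ y) : Fl m y ≤ Fl m x := fun a ha => by
  rcases eq_or_ne a 0 with rfl | h0
  · exact zero_mem _
  · rw [h.mem_iff h0] at ha ⊢
    exact ⟨ha.1, hxy.trans ha.2⟩

lemma IsFl.vol_zero : volF Fl r d 0 = limsup (vsQ r d U) atTop := by
  rw [volF_eq]
  congr 2
  ext m a
  simpa [h.mem] using h.nn m a

lemma IsFl.key (hU : GU U d) (hr : 0 < r) {c : ℕ} (hc : Box U d c) {m : ℕ} (hm : 0 < m)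
    {x t : ℝ} (hx : r * (m + c : ℕ) * t < x) :
    ENNReal.ofReal (finrank ℂ (Fl m x) / vsK r d (m + c))
      ≤ liminf (vsQ r d fun M => Fl M (r * M * t)) atTop := by
  refine vs_key hU hr hc hm (h.le m x) (fun M => h.le M _) fun k hk => ?_
  have he : (0 : ℝ) < (m + c : ℕ) := by exact_mod_cast (by omega : 0 < m + c)
  have h1 : r * t < 1 / ((m + c : ℕ) : ℝ) * x := by
    rw [one_div_mul_eq_div, lt_div_iff₀ he]; linarith
  filter_upwards [(hk.mul_const x).eventually (lt_mem_nhds h1), eventually_gt_atTop 0]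
    with M hM hM0 a ha j y hy hay
  have hM' : (0 : ℝ) < M := by exact_mod_cast hM0
  rw [div_mul_eq_mul_div, lt_div_iff₀ hM'] at hM
  refine (h.mem _ _ _).2 ⟨hay, ?_⟩
  have h2 : ⌈(r : ℝ) * M * t⌉ ≤ k M • ⌈x⌉ := by
    rw [Int.ceil_le, nsmul_eq_mul]
    push_cast
    have := mul_le_mul_of_nonneg_left (Int.le_ceil x) (Nat.cast_nonneg (k M))
    linarith
  rw [v.map_mul, v.map_pow]
  refine le_trans ?_ (le_add_of_nonneg_right (h.nn j y hy))
  refine (WithTop.coe_le_coe.2 h2).trans ?_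
  rw [WithTop.coe_nsmul]
  exact nsmul_le_nsmul_right ((h.mem _ _ _).1 ha).2 _

lemma IsFl.card_le (hU : GU U d) {m N : ℕ} {b : Fin N → K} (hb : LinearIndependent ℂ b)
    {x : ℝ} {A : Finset (Fin N)} (hA : ∀ i ∈ A, b i ∈ Fl m x) : A.card ≤ finrank ℂ (Fl m x) := by
  have := hU.fd m
  have := Submodule.finiteDimensional_of_le (h.le m x)
  have h1 : LinearIndependent ℂ fun i : A => (⟨b i, hA i i.2⟩ : Fl m x) :=
    LinearIndependent.of_comp (Fl m x).subtype (hb.comp _ Subtype.val_injective)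
  simpa using h1.fintype_card_le_finrank

lemma IsFl.flag_aux (m n : ℕ) : ∀ W : Submodule ℂ K, W ≤ U m → FiniteDimensional ℂ W →
    finrank ℂ W = n → ∃ b : Fin n → K, LinearIndependent ℂ b ∧ (∀ i, b i ∈ W) ∧
      ∀ x : ℝ, finrank ℂ ↥(W ⊓ Fl m x) ≤ (Finset.univ.filter fun i => x ≤ ov v (b i)).card := by
  induction n with
  | zero =>
    intro W _ _ hn
    exact ⟨Fin.elim0, linearIndependent_empty_type, fun i => i.elim0, fun x =>
      ((Submodule.finrank_mono inf_le_left).trans hn.le).trans (Nat.zero_le _)⟩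
  | succ n ih =>
    intro W hW _ hn
    have h0 : W ≠ ⊥ := by rintro rfl; simp at hn
    obtain ⟨j, ⟨a, ha, ha0, hj⟩, hmin⟩ := Int.exists_least_of_bdd
      (P := fun z : ℤ => ∃ a ∈ W, a ≠ 0 ∧ ov v a = z)
      ⟨0, fun z ⟨a, ha, _, hz⟩ => by
        have := ov_nonneg (h.nn m a (hW ha))
        rw [hz] at this
        exact_mod_cast this⟩ (by
        obtain ⟨a, ha, ha0⟩ := Submodule.exists_mem_ne_zero_of_ne_bot h0
        exact ⟨_, a, ha, ha0, rfl⟩)
    have h1 : a ∉ Fl m (j + 1) := fun h1 => by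
      have := ((h.mem_iff ha0).1 h1).2
      linarith
    obtain ⟨f, hf, hf'⟩ := Submodule.exists_dual_map_eq_bot_of_notMem h1 inferInstance
    have h2 : f.domRestrict W ≠ 0 := fun h2 => hf (by
      simpa using LinearMap.congr_fun h2 ⟨a, ha⟩)
    have h3 := Module.Dual.finrank_ker_add_one_of_ne_zero h2
    have h4 : ∀ y, y ∈ (LinearMap.ker (f.domRestrict W)).map W.subtype ↔ y ∈ W ∧ f y = 0 := by
      intro y
      simp [and_comm]
    rw [← Submodule.finrank_map_subtype_eq] at h3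
    generalize (LinearMap.ker (f.domRestrict W)).map W.subtype = W' at h3 h4
    have h5 : W' ≤ W := fun y hy => ((h4 y).1 hy).1
    have := Submodule.finiteDimensional_of_le h5
    obtain ⟨b, hb, hb', hb''⟩ := ih W' (h5.trans hW) inferInstance (by omega)
    have h6 : LinearIndependent ℂ (Fin.cons a b : Fin (n + 1) → K) :=
      hb.finCons fun h6 => hf ((h4 a).1
        (Submodule.span_le.2 (range_subset_iff.2 hb') h6)).2
    have h7 : ∀ i, (Fin.cons a b : Fin (n + 1) → K) i ∈ W :=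
      Fin.cases ha fun i => h5 (hb' i)
    refine ⟨_, h6, h7, fun x => ?_⟩
    rcases le_or_gt x j with hx | hx
    · rw [Finset.filter_true_of_mem fun i _ => ?_]
      · simpa [← hn] using Submodule.finrank_mono (inf_le_left : W ⊓ Fl m x ≤ W)
      · obtain ⟨k, -, hk⟩ := ov_spec v (h6.ne_zero i)
        rw [hk]
        exact hx.trans (by exact_mod_cast hmin k ⟨_, h7 i, h6.ne_zero i, hk⟩)
    · have h8 : W ⊓ Fl m x ≤ W' ⊓ Fl m x := fun y hy => by
        refine ⟨(h4 y).2 ⟨hy.1, ?_⟩, hy.2⟩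
        have h9 : y ∈ Fl m (j + 1) := by
          have := (h.mem _ _ _).1 hy.2
          refine (h.mem _ _ _).2 ⟨this.1, le_trans (WithTop.coe_le_coe.2 ?_) this.2⟩
          rw [Int.ceil_add_one, Int.ceil_intCast]
          exact Int.lt_ceil.2 hx
        have := Submodule.mem_map_of_mem (f := f) h9
        rwa [hf'] at this
      have := Submodule.finiteDimensional_of_le (inf_le_left : W' ⊓ Fl m x ≤ W')
      refine ((Submodule.finrank_mono h8).trans (hb'' x)).trans ?_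
      rw [Fin.card_filter_univ_succ']
      simp

end aux

theorem S_upper (hU : GU U d) (hr : 0 < r) {ε : ℝ} (hε : 0 < ε) : ∀ᶠ m : ℕ in atTop,
    ∀ (v : AddValuation K (WithTop ℤ)) (Fl : ℕ → ℝ → Submodule ℂ K), IsFl U v Fl →
    ∀ (N : ℕ) (b : Fin N → K), LinearIndependent ℂ b → (∀ i, b i ∈ U m) → N = finrank ℂ (U m) →
      ENNReal.ofReal (∑ i, ov v (b i)) ≤ ENNReal.ofReal ((1 + ε) * (r * m * N)) *
        ((∫⁻ t in Ioi (0 : ℝ), volF Fl r d t) / volF Fl r d 0) := by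
  obtain ⟨c, hc⟩ := hU.box
  obtain ⟨w, hw, hw1, hw2⟩ := vs_vol hU hr
  have ha : (1 + ε / 2) / (1 + ε) < 1 := by rw [div_lt_one (by positivity)]; linarith
  have hb : w / (1 + ε / 2) < w := div_lt_self hw (by linarith)
  filter_upwards [vs_shift c (d + 1) ha, hw2.eventually (lt_mem_nhds hb), eventually_gt_atTop 0]
    with m h1 h2 hm v Fl h N b hb hbU hN
  have hr' : (0 : ℝ) < r := by exact_mod_cast hr
  have he : (0 : ℝ) < (m + c : ℕ) := by exact_mod_cast (by omega : 0 < m + c)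
  have hk := vsK_pos (d := d) hr (by omega : 0 < m + c)
  have hk' := vsK_pos (d := d) hr hm
  have h3 : ∀ t ∈ Ioi (0 : ℝ), ENNReal.ofReal (vsK r d (m + c))⁻¹ *
      ((Finset.univ.filter fun i => t < ov v (b i) / (r * (m + c : ℕ))).card : ℝ≥0∞)
      ≤ volF Fl r d t := fun t _ => by
    rcases (Finset.univ.filter fun i => t < ov v (b i) / (r * (m + c : ℕ))).eq_empty_or_nonempty
      with h4 | h4
    · rw [h4]; simp
    obtain ⟨i, hi, hi'⟩ := Finset.exists_min_image _ (fun i => ov v (b i)) h4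
    have h5 := h.card_le hU hb (m := m) (x := ov v (b i)) fun j hj =>
      (h.mem_iff (hb.ne_zero j)).2 ⟨hbU j, hi' j hj⟩
    have h6 := (Finset.mem_filter.1 hi).2
    rw [lt_div_iff₀ (by positivity), mul_comm] at h6
    refine le_trans ?_ ((h.key hU hr hc hm h6).trans liminf_le_limsup)
    rw [← ENNReal.ofReal_natCast, ← ENNReal.ofReal_mul (by positivity), inv_mul_eq_div]
    exact ENNReal.ofReal_le_ofReal (div_le_div_of_nonneg_right (by exact_mod_cast h5) hk.le)
  have h4 := setLIntegral_mono' (μ := volume) measurableSet_Ioi h3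
  have h0 : ∀ i, 0 ≤ ov v (b i) := fun i => ov_nonneg (h.nn m _ (hbU i))
  rw [lintegral_const_mul' _ _ ENNReal.ofReal_ne_top,
    vs_lint (fun i => Iio (ov v (b i) / (r * (m + c : ℕ)))) (fun _ => measurableSet_Iio)
      (fun i t => t < ov v (b i) / (r * (m + c : ℕ))) fun _ _ => Iff.rfl] at h4
  simp_rw [inter_comm _ (Ioi (0 : ℝ)), Ioi_inter_Iio, Real.volume_Ioo, sub_zero] at h4
  rw [← ENNReal.ofReal_sum_of_nonneg fun i _ => div_nonneg (h0 i) (by positivity),
    ← ENNReal.ofReal_mul (by positivity), ← Finset.sum_div] at h4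
  rw [h.vol_zero, hw1]
  refine le_trans ?_ (mul_le_mul_right (ENNReal.div_le_div_right h4 _) _)
  rw [← ENNReal.ofReal_div_of_pos hw, ← ENNReal.ofReal_mul (by positivity)]
  refine ENNReal.ofReal_le_ofReal ?_
  have h5 := Finset.sum_nonneg fun i (_ : i ∈ Finset.univ) => h0 i
  generalize ∑ i, ov v (b i) = s at h5
  have h6 : w * (vsK r d (m + c) * (r * (m + c : ℕ))) ≤ (1 + ε) * (r * m * N) := by
    rw [← hN, div_lt_div_iff₀ (by positivity) hk'] at h2
    rw [div_mul_eq_mul_div, div_lt_iff₀ (by positivity)] at h1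
    have h7 : vsK r d (m + c) * (m + c : ℕ) * (1 + ε / 2) ≤ vsK r d m * m * (1 + ε) := by
      have h8 := mul_le_mul_of_nonneg_left h1.le (show (0 : ℝ) ≤ r ^ d / d.factorial by positivity)
      unfold vsK
      rw [mul_pow, mul_pow]
      refine le_of_eq_of_le ?_ (h8.trans_eq ?_) <;> ring
    refine le_of_mul_le_mul_right ?_ (show 0 < 1 + ε / 2 by positivity)
    calc _ = w * r * (vsK r d (m + c) * (m + c : ℕ) * (1 + ε / 2)) := by ring
      _ ≤ w * r * (vsK r d m * m * (1 + ε)) := by gcongr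
      _ = (w * vsK r d m) * (r * m * (1 + ε)) := by ring
      _ ≤ (N * (1 + ε / 2)) * (r * m * (1 + ε)) := by gcongr
      _ = _ := by ring
  have h7 : (vsK r d (m + c))⁻¹ * (s / (r * (m + c : ℕ))) / w
      = s / (w * (vsK r d (m + c) * (r * (m + c : ℕ)))) := by field_simp
  rw [h7, ← mul_div_assoc, le_div_iff₀ (by positivity), mul_comm _ s]
  gcongr

theorem IsFl.flag {v : AddValuation K (WithTop ℤ)} {Fl : ℕ → ℝ → Submodule ℂ K} (h : IsFl U v Fl)
    (m : ℕ) [FiniteDimensional ℂ (U m)] : ∃ b : Fin (finrank ℂ (U m)) → K,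
      LinearIndependent ℂ b ∧ (∀ i, b i ∈ U m) ∧
      ∀ x : ℝ, finrank ℂ (Fl m x) ≤ (Finset.univ.filter fun i => x ≤ ov v (b i)).card := by
  obtain ⟨b, h1, h2, h3⟩ := h.flag_aux m _ (U m) le_rfl inferInstance rfl
  refine ⟨b, h1, h2, fun x => ?_⟩
  have := h3 x
  rwa [inf_eq_right.2 (h.le m x)] at this

theorem S_lower (hU : GU U d) (hr : 0 < r) {v : AddValuation K (WithTop ℤ)}
    {Fl : ℕ → ℝ → Submodule ℂ K} (h : IsFl U v Fl) {c : ℝ≥0}
    (hc : (c : ℝ≥0∞) < (∫⁻ t in Ioi (0 : ℝ), volF Fl r d t) / volF Fl r d 0) :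
    ∀ᶠ m : ℕ in atTop, ∃ b : Fin (finrank ℂ (U m)) → K, LinearIndependent ℂ b ∧
      (∀ i, b i ∈ U m) ∧ c * (r * m * finrank ℂ (U m) : ℝ) ≤ ∑ i, ov v (b i) := by
  obtain ⟨e, he⟩ := hU.box
  obtain ⟨w, hw, hw1, hw2⟩ := vs_vol hU hr
  obtain ⟨c', hc1, hc2⟩ := ENNReal.lt_iff_exists_nnreal_btwn.1 hc
  have hc3 : (c : ℝ) < c' := by exact_mod_cast hc1
  have hc4 := c.coe_nonneg
  have hc5 : (0 : ℝ) < c' := hc4.trans_lt hc3
  obtain ⟨a, ha0, ha1, ha2⟩ : ∃ a : ℝ, 0 < a ∧ a < 1 ∧ (c : ℝ) < a * a * c' := by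
    have h1 : Tendsto (fun a : ℝ => a * a * c') (nhdsWithin 1 (Iio 1)) (nhds (1 * 1 * c')) :=
      (Continuous.tendsto (by fun_prop) 1).mono_left nhdsWithin_le_nhds
    have h2 : ∀ᶠ a : ℝ in nhdsWithin 1 (Iio 1), 0 < a :=
      (lt_mem_nhds one_pos : ∀ᶠ a : ℝ in nhds 1, 0 < a).filter_mono nhdsWithin_le_nhds
    have h3 : ∀ᶠ a : ℝ in nhdsWithin 1 (Iio 1), a < 1 := self_mem_nhdsWithin
    exact (h2.and (h3.and (h1.eventually (lt_mem_nhds (by simpa using hc3))))).exists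
  have hr' : (0 : ℝ) < r := by exact_mod_cast hr
  have := hU.fd
  have h1 : ∀ t ∈ Ioi (0 : ℝ), volF Fl r d t
      ≤ liminf (fun M => vsQ r d (fun M => Fl M (r * M * (a * t))) M) atTop := fun t ht =>
    vs_limsup hr e (by
      filter_upwards [vs_shift e 1 ha1, eventually_gt_atTop 0] with m h1 hm
      refine h.key hU hr he hm ?_
      simp only [pow_one] at h1
      have := mul_lt_mul_of_pos_left h1 (mul_pos hr' ht)
      linarith)
  have h2 : ∀ M : ℕ, Measurable fun t : ℝ => vsQ r d (fun M => Fl M (r * M * (a * t))) M :=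
    fun M => Antitone.measurable fun t t' htt => ENNReal.div_le_div_right (by
      have := Submodule.finiteDimensional_of_le (h.le M (r * M * (a * t)))
      exact_mod_cast Submodule.finrank_mono (h.anti M (by gcongr))) _
  have h3 := (setLIntegral_mono' (μ := volume) measurableSet_Ioi h1).trans
    (lintegral_liminf_le h2)
  rw [h.vol_zero, hw1, ENNReal.lt_div_iff_mul_lt (.inr ENNReal.coe_ne_top)
    (.inl ENNReal.ofReal_ne_top), ← ENNReal.ofReal_coe_nnreal,
    ← ENNReal.ofReal_mul hc5.le] at hc2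
  have h4 : w < w / a := by rw [lt_div_iff₀ ha0]; exact mul_lt_of_lt_one_right hw ha1
  filter_upwards [eventually_lt_of_lt_liminf (hc2.trans_le h3), hw2.eventually (gt_mem_nhds h4),
    eventually_gt_atTop 0] with M h5 h6 hM
  obtain ⟨b, hb1, hb2, hb3⟩ := h.flag M
  refine ⟨b, hb1, hb2, ?_⟩
  have hM' : (0 : ℝ) < M := by exact_mod_cast hM
  have hk := vsK_pos (d := d) hr hM
  have h0 : ∀ i, 0 ≤ ov v (b i) := fun i => ov_nonneg (h.nn M _ (hb2 i))
  have h7 : ∀ t : ℝ, vsQ r d (fun M => Fl M (r * M * (a * t))) M ≤ ENNReal.ofReal (vsK r d M)⁻¹ *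
      ((Finset.univ.filter fun i => r * M * (a * t) ≤ ov v (b i)).card : ℝ≥0∞) := fun t => by
    rw [vsQ_eq hr _ hM, ← ENNReal.ofReal_natCast, ← ENNReal.ofReal_mul (by positivity),
      inv_mul_eq_div]
    exact ENNReal.ofReal_le_ofReal (div_le_div_of_nonneg_right (Nat.cast_le.2 (hb3 _)) hk.le)
  have h8 := h5.trans_le (lintegral_mono h7)
  rw [lintegral_const_mul' _ _ ENNReal.ofReal_ne_top,
    vs_lint (fun i => Iic (ov v (b i) / (r * M * a))) (fun _ => measurableSet_Iic) _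
      fun _ t => by rw [mem_Iic, le_div_iff₀ (by positivity), mul_comm t, mul_assoc _ a]] at h8
  simp_rw [inter_comm _ (Ioi (0 : ℝ)), Ioi_inter_Iic, Real.volume_Ioc, sub_zero] at h8
  rw [← ENNReal.ofReal_sum_of_nonneg fun i _ => div_nonneg (h0 i) (by positivity),
    ← ENNReal.ofReal_mul (by positivity), ← Finset.sum_div,
    ENNReal.ofReal_lt_ofReal_iff_of_nonneg (by positivity), inv_mul_eq_div, lt_div_iff₀ hk,
    lt_div_iff₀ (by positivity)] at h8
  rw [div_lt_div_iff₀ hk ha0] at h6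
  calc _ ≤ a * a * c' * (r * M * finrank ℂ (U M) : ℝ) := by gcongr
    _ = c' * (finrank ℂ (U M) * a) * (r * M * a) := by ring
    _ ≤ c' * (w * vsK r d M) * (r * M * a) := by gcongr
    _ ≤ _ := by rw [← mul_assoc _ w]; exact h8.le

end Pool.Agent.Lib.MP_bc3ae6_ag
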