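import Pool.Agent.Lib.MP_bc3ae6_ag.VF1
import Pool.Agent.Lib.MP_bc3ae6_ag.VBox
import Pool.Agent.Lib.MP_bc3ae6_ag.VS
import Pool.Agent.Lib.MP_bc3ae6_ag.Core3

set_option autoImplicit false
set_option linter.unusedSectionVars false

/-! The two asymptotic comparisons between the thresholds and the valuative invariant. -/

namespace Pool.Agent.Lib.MP_bc3ae6_ag

open MvPolynomial Set Real MeasureTheory Filter Topology Metric Module
open scoped Polynomial ENNReal NNReal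

variable {n M : ℕ} {I : Ideal (MP M)} [I.IsPrime] {θ : Fin (n + 1) → MP M}
  [Algebra (MP (n + 1)) (MP M ⧸ I)] {d : ℕ} {F : Fin M → (MP (n + 1))[X]}
  {h : MvPolynomial (Fin (n + 1) ⊕ Fin M) ℂ} {wt : Fin M → ℕ} {e : ℕ} {f : MP M} {r df : ℕ}

lemma PrimeDiv.Meets.isFl {ι : Type} [DecidableEq ι] {E : PrimeDiv (FnF I) ι}
    {U : Set (Fin M → ℂ)} (hE : E.Meets U) : IsFl (Um I wt) E.ord (E.sec wt) :=
  ⟨fun _ _ ⟨q, _, h⟩ => h ▸ hE.1 q, fun _ _ _ => E.mem_sec⟩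

lemma Bas.notMem {m N : ℕ} {t : Fin N → MP M} (ht : Bas I wt m t) (i : Fin N) : t i ∉ I :=
  fun h => by simpa using congrFun (ht.li (Pi.single i 1) (by simpa [BasL.lc_single] using h)) i

variable (hA : AS I θ) (hG : Geo I θ d F h) (hH : Hom I θ wt e)
  (hb : ∀ᶠ m in atTop, ∀ x ∈ zeroLocus ℂ I, x ≠ 0 →
    ∃ p : MP M, p.IsWeightedHomogeneous wt m ∧ eval x p ≠ 0)
include hA hG hH

section

include hb

lemma AS.ne_ev : ∀ᶠ m in atTop, ∃ p : MP M, p.IsWeightedHomogeneous wt m ∧ p ∉ I := by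
  obtain ⟨x, h1, h2⟩ := hG.surj fun _ => 1
  filter_upwards [hb] with m hm
  exact (hm x h1 (by rintro rfl; simpa [hH.pr_zero] using congrFun h2 0)).imp
    fun p hp => ⟨hp.1, fun h => hp.2 (h1 p h)⟩

lemma AS.gu : GU (Um I wt) n := by
  obtain ⟨w, h1, h2, h3⟩ := ext_indep hA.basis
  have := hA.findim
  exact ⟨Um_one, Um_mul, Um_fd hH.hw, (hA.ne_ev hG hH hb).mono fun m ⟨p, hp, h⟩ =>
    (Submodule.ne_bot_iff _).2 ⟨_, ⟨p, hp, rfl⟩, cl_eq_zero.not.2 h⟩, hA.um_up hH,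
    box_of h1 h2 h3 Um_one Um_mul fun i => ⟨_, hH.hθ i, rfl⟩⟩

end

lemma AS.valB' (hfh : IsWeightedHomogeneous wt f df) (hf : f ∉ I) (hr : 0 < r) {B : ℝ}
    (hB : 0 ≤ B) {g : MP M} {m : ℕ} (hg : IsWeightedHomogeneous wt g m) (hg0 : g ∉ I) {c l : ℝ}
    (hc : 0 ≤ c) (hl : 0 < l) (hl1 : l < 1)
    (H : ∀ E : PrimeDiv (FnF I) (Fin (n + 1)), E.Meets (zeroLocus ℂ I \ {0}) → E.Homog wt →
      E.o (cl I f) ≤ B * E.A θ f r ∧ c * E.o (cl I g) ≤ l * E.A θ f r) :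
    ∀ ρ > 0, ∫⁻ y in Sh θ ρ, ‖eval y g‖ₑ ^ (-(2 * c)) ∂(mu I θ f (1 / r)) < ⊤ := by
  have h0 : (0 : ℝ) < 1 / r := by positivity
  have h1 : 0 < 1 + 1 / r * B := by positivity
  have h2 : 0 < (1 - l) / (1 + 1 / r * B) := div_pos (by linarith) h1
  have h3 : (1 - l) / (1 + 1 / r * B) ≤ 1 - l :=
    div_le_self (by linarith) (le_add_of_nonneg_right (by positivity))
  have h4 := div_mul_cancel₀ (1 - l) h1.ne'
  generalize (1 - l) / (1 + 1 / r * B) = η at h2 h3 h4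
  refine hA.valB hG hH hg hfh hg0 hf hc h0.le (a := 1 - η) (by linarith) (by linarith)
    fun E h5 h6 => ?_
  obtain ⟨h7, h8⟩ := H E h5 h6
  have h9 := mul_le_mul_of_nonneg_left h7 (mul_pos h2 h0).le
  have h10 := E.A_eq θ f hr
  generalize E.A θ f r = A at h8 h9 h10
  rw [show 1 + E.o (E.jac fun i => cl I (θ i)) = A + 1 / r * E.o (cl I f) by linarith]
  rw [show l = 1 - η * (1 + 1 / r * B) by linarith] at h8
  linarith

include hb

theorem AS.gamma_le (hf : f ∉ I) (hr : 0 < r) (E : PrimeDiv (FnF I) (Fin (n + 1)))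
    (hE : E.Meets (zeroLocus ℂ I \ {0})) {c' : ℝ≥0} (hc' : c' < E.S wt r n) :
    ∀ᶠ m : ℕ in atTop, ∀ (N : ℕ) (s : Fin N → MP M), Bas I wt m s → ∀ c : ℝ≥0,
      c < lct (JN N I) (thN N θ) (∏ j, rename (Prod.mk j) f) r (pw N (zeroLocus ℂ I \ {0}))
        (Matrix.of fun i j : Fin N => rename (Prod.mk j) (s i)).det (1 / (r * m)) →
      (c * c' : ℝ) ≤ E.A θ f r := by
  have hU := hA.gu hG hH hb
  filter_upwards [S_lower hU hr hE.isFl hc', hU.ne, eventually_gt_atTop 0]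
    with m ⟨b, h1, h2, h3⟩ h4 hm N s hs c hc
  obtain rfl := hs.um.2.2
  have := hU.fd m
  have hN := Nat.pos_of_ne_zero (Submodule.finrank_eq_zero.not.2 h4)
  obtain ⟨t, ht, h5⟩ := bas_of_um hH.hw h1 h2 rfl
  obtain ⟨c2, h6⟩ := lt_iSup_iff.1 hc
  obtain ⟨h7, h8⟩ := lt_iSup_iff.1 h6
  have h9 := hA.lct_upper hf hr hN hs ht (c := c2 * (1 / (r * m))) (by positivity)
    (fun E' hE' => by linarith [h7 E' hE']) E hE
  simp only [h5, E.o_eq] at h9
  have h10 := (mul_le_mul_of_nonneg_left h3 (by positivity)).trans h9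
  have h11 : (c : ℝ) ≤ c2 := by exact_mod_cast h8.le
  generalize finrank ℂ (Um I wt m) = N at hN h10
  rw [show (c2 * (1 / (r * m)) * (c' * (r * m * N)) : ℝ) = N * (c2 * c') by field_simp] at h10
  exact (mul_le_mul_of_nonneg_right h11 c'.2).trans (le_of_mul_le_mul_left h10 (by positivity))

theorem AS.sum_le (hr : 0 < r) {c c' : ℝ≥0} (hc : 0 < c) (hcc : c < c') :
    ∀ᶠ m : ℕ in atTop, ∀ E : PrimeDiv (FnF I) (Fin (n + 1)), E.Meets (zeroLocus ℂ I \ {0}) →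
      c' < ENNReal.ofReal (E.A θ f r) / E.S wt r n → ∀ (N : ℕ) (t : Fin N → MP M), Bas I wt m t →
        c * ∑ i, E.o (cl I (t i)) ≤ r * m * N * E.A θ f r := by
  have h0 : (0 : ℝ) < c := hc
  have h1 : (c : ℝ) < c' := hcc
  filter_upwards [S_upper (hA.gu hG hH hb) hr (ε := c' / c - 1)
    (sub_pos.2 ((one_lt_div h0).2 h1))] with m h2 E hE h3 N t ht
  have h4 := h2 _ _ hE.isFl N _ ht.um.1 ht.um.2.1 ht.um.2.2
  rw [← E.S_eq] at h4
  have h5 := ENNReal.mul_lt_of_lt_div h3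
  have h6 := (ENNReal.ofReal_pos.1 (zero_le.trans_lt h5)).le
  refine (ENNReal.ofReal_le_ofReal_iff (by positivity)).1 ?_
  rw [ENNReal.ofReal_mul h0.le, ENNReal.ofReal_mul (by positivity)]
  refine (mul_le_mul_right h4 _).trans (le_trans (le_of_eq ?_) (mul_le_mul_right h5.le _))
  rw [← mul_assoc, ← ENNReal.ofReal_mul h0.le, ← mul_assoc (ENNReal.ofReal _),
    ← ENNReal.ofReal_coe_nnreal, ← ENNReal.ofReal_mul (by positivity)]
  congr 2
  field_simp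
  ring

theorem AS.le_gamma (hn : 0 < n) (hfh : IsWeightedHomogeneous wt f df) (hf : f ∉ I) (hr : 0 < r)
    (hN : NB I θ f (1 / r)) {c c' : ℝ≥0} (hc : 0 < c) (hcc : c < c')
    (H : ∀ E : PrimeDiv (FnF I) (Fin (n + 1)), E.Meets (zeroLocus ℂ I \ {0}) → E.Homog wt →
      c' < ENNReal.ofReal (E.A θ f r) / E.S wt r n) :
    ∀ᶠ m : ℕ in atTop, ∀ (N : ℕ) (s : Fin N → MP M), Bas I wt m s →
      c ≤ lct (JN N I) (thN N θ) (∏ j, rename (Prod.mk j) f) r (pw N (zeroLocus ℂ I \ {0}))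
        (Matrix.of fun i j : Fin N => rename (Prod.mk j) (s i)).det (1 / (r * m)) := by
  obtain ⟨c1, h1, h2⟩ := exists_between hcc
  obtain ⟨c2, h3, h4⟩ := exists_between h2
  have h5 := hA.sum_le hG hH hb (f := f) hr (hc.trans (h1.trans h3)) h4
  have hc1 : (0 : ℝ) < c1 := hc.trans h1
  have hc2 : (c1 : ℝ) < c2 := h3
  have hc3 := hc1.trans hc2
  have hA0 : ∀ E : PrimeDiv (FnF I) (Fin (n + 1)), E.Meets (zeroLocus ℂ I \ {0}) → E.Homog wt →
      0 ≤ E.A θ f r := fun E h6 h7 =>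
    (ENNReal.ofReal_pos.1 (zero_le.trans_lt (ENNReal.mul_lt_of_lt_div (H E h6 h7)))).le
  obtain ⟨B, hB, hk⟩ : ∃ B : ℝ, 0 ≤ B ∧ ∀ E : PrimeDiv (FnF I) (Fin (n + 1)),
      E.Meets (zeroLocus ℂ I \ {0}) → E.Homog wt → E.o (cl I f) ≤ B * E.A θ f r := by
    obtain ⟨m, ⟨p, hp, h6⟩, h7⟩ := ((hA.ne_ev hG hH hb).and
      ((tendsto_add_atTop_nat df).eventually h5)).exists
    have := Um_fd (I := I) hH.hw (m + df)
    obtain ⟨s, hs, -⟩ := bas_of_um hH.hw
      ((finBasis ℂ (Um I wt (m + df))).linearIndependent.map' _ (Submodule.ker_subtype _))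
      (fun i => (finBasis ℂ (Um I wt (m + df)) i).2) rfl
    obtain ⟨i, hi⟩ := hs.update (hp.mul hfh) fun h => (hG.prime.mem_or_mem h).elim h6 hf
    refine ⟨r * (m + df : ℕ) * finrank ℂ (Um I wt (m + df)) / c2, by positivity, fun E h8 h9 => ?_⟩
    rw [div_mul_eq_mul_div, le_div_iff₀' hc3]
    refine le_trans (mul_le_mul_of_nonneg_left ?_ hc3.le) (h7 E h8 (H E h8 h9) _ _ hi)
    refine le_trans ?_ (Finset.single_le_sum (fun j _ => ov_nonneg (h8.1 _)) (Finset.mem_univ i))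
    rw [Function.update_self, map_mul, ov_mul _ (cl_eq_zero.not.2 h6) (cl_eq_zero.not.2 hf)]
    exact le_add_of_nonneg_left (ov_nonneg (h8.1 _))
  have hfx := hA.valB' hG hH hfh hf hr hB hfh hf (c := 1 / 2 / (B + 1)) (l := 1 / 2)
    (by positivity) (by positivity) (by norm_num) fun E h6 h7 => ⟨hk E h6 h7, by
      rw [div_mul_eq_mul_div, div_le_iff₀ (by positivity)]
      linarith [hk E h6 h7, hA0 E h6 h7]⟩
  have hr' : (1 : ℝ) ≤ r := by exact_mod_cast hr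
  filter_upwards [hG.core hf hN (by positivity) ((div_le_one (by positivity)).2 hr') hH (by omega)
    hfh hb (by positivity) hfx (c := c / r) (c' := c1 / r) (by positivity) (by gcongr),
    hG.dim_ge hH (by omega) hb 0, h5, eventually_gt_atTop 0] with m h6 h7 h8 hm N s hs
  obtain ⟨N, rfl⟩ := Nat.exists_eq_succ_of_ne_zero (h7 _ _ hs).ne'
  refine le_iSup₂_of_le c (fun E hE => ?_) le_rfl
  have h9 := hA.lct_lower hG hH hf hr hs (by positivity) (h6 N s hs fun t ht =>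
    hA.valB' hG hH hfh hf hr hB (IsWeightedHomogeneous.prod _ _ _ fun i _ => ht.hom i)
      (fun h => (Ideal.IsPrime.prod_mem_iff.1 h).elim fun i hi => ht.notMem i hi.2)
      (l := c1 / c2) (by positivity) (by positivity) ((div_lt_one hc3).2 hc2)
      fun E h9 h10 => ⟨hk E h9 h10, ?_⟩) E hE
  · rw [← mul_assoc, mul_one_div, ← div_div]
    linarith
  have h11 := h8 E h9 (H E h9 h10) _ _ ht
  rw [map_prod, E.o_eq, ov_prod _ fun i _ => cl_eq_zero.not.2 (ht.notMem i)]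
  simp only [E.o_eq] at h11
  rw [div_div, div_mul_eq_mul_div, div_mul_eq_mul_div, div_le_div_iff₀ (by positivity) hc3]
  push_cast at h11
  linarith [mul_le_mul_of_nonneg_left h11 hc1.le]

end Pool.Agent.Lib.MP_bc3ae6_ag
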