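import Pool.Agent.Lib.MP_bc3ae6_ag.VJac1
import Pool.Agent.Lib.MP_bc3ae6_ag.VDer
import Pool.Agent.Lib.MP_bc3ae6_ag.VD

set_option autoImplicit false
set_option linter.unusedSectionVars false

/-! The prime divisor given by a monomial valuation, and its log discrepancy. -/

namespace Pool.Agent.Lib.MP_bc3ae6_ag

open MvPolynomial Set Real
open scoped Polynomial

variable {K L ι : Type} [Field K] [Field L] [Algebra ℂ K] [Algebra ℂ L] [Algebra K L]
  [IsScalarTower ℂ K L] [Fintype ι] [DecidableEq ι] {w : AbsoluteValue L ℝ} (hw : NA w) {y : ι → L}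
  (hy : Mono w y)
include hw hy

lemma Mono.val_int (hs : ∀ i, ∃ s : ℤ, w (y i) = exp s) (c : IntermediateField.adjoin ℂ (range y))
    (hc : c ≠ 0) : ∃ k : ℤ, w (algebraMap _ L c) = exp k := by
  choose s hs using hs
  have h1 : ∀ Q : MvPolynomial ι ℂ, Q ≠ 0 → ∃ k : ℤ, w (aeval y Q) = exp k := fun Q hQ => by
    obtain ⟨d, -, h⟩ := hy.exists_eq hw hQ
    exact ⟨∑ i ∈ d.support, d i * s i, by simp [h, Finsupp.prod, hs, exp_sum, exp_nat_mul]⟩
  obtain ⟨p, q, h⟩ := (IntermediateField.mem_adjoin_range_iff _ _ _).1 c.2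
  have hc' : (c : L) ≠ 0 := fun h => hc (Subtype.ext h)
  obtain ⟨k, hk⟩ := h1 p (by rintro rfl; simp [hc'] at h)
  obtain ⟨l, hl⟩ := h1 q (by rintro rfl; simp [hc'] at h)
  exact ⟨k - l, by rw [IntermediateField.algebraMap_apply, h, map_div₀, hk, hl, Int.cast_sub,
    exp_sub]⟩

/-- Monomials of weight zero have independent residues. -/
lemma Mono.units (hs : ∀ i, ∃ s : ℤ, w (y i) = exp s) {i₀ : ι} (hi : w (y i₀) ≠ 1) :
    ∃ z : {i // i ≠ i₀} → L, ∀ Q : MvPolynomial {i // i ≠ i₀} ℂ, Q ≠ 0 → w (aeval z Q) = 1 := by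
  choose s hs using hs
  have h0 : s i₀ ≠ 0 := fun h => hi (by simp [hs, h])
  obtain ⟨m, hm⟩ : ∃ m : ℕ, ∀ i, |s i| ≤ m :=
    ⟨∑ i, (s i).natAbs, fun i => by
      rw [← Int.natCast_natAbs]
      exact_mod_cast Finset.single_le_sum (f := fun i => (s i).natAbs) (by simp) (Finset.mem_univ i)⟩
  let a := (s i₀).natAbs
  let b : ι → ℕ := fun i => (m - s i * (s i₀).sign).toNat
  have hb : ∀ i, (b i : ℤ) = m - s i * (s i₀).sign := fun i => Int.toNat_of_nonneg (by
    have := abs_le.1 (hm i)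
    rcases Int.lt_or_gt_of_ne h0 with h | h
    · rw [Int.sign_eq_neg_one_of_neg h]; omega
    · rw [Int.sign_eq_one_of_pos h]; omega)
  let z : {i // i ≠ i₀} → L := fun i => y i ^ a * y i₀ ^ b i / y i₀ ^ m
  have hz : ∀ i, w (z i) = 1 := fun i => by
    simp only [z, map_div₀, map_mul, map_pow, hs, ← exp_nat_mul, ← exp_add, ← exp_sub,
      exp_eq_one_iff]
    have h1 : (a : ℤ) * s i + b i * s i₀ - m * s i₀ = 0 := by
      rw [hb, Int.natCast_natAbs, ← Int.sign_mul_self_eq_abs]; ring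
    exact_mod_cast h1
  refine ⟨z, fun Q hQ => le_antisymm (hy.triv.aeval_le hw (fun i => (hz i).le) Q) ?_⟩
  obtain ⟨d, hd⟩ := support_nonempty.2 hQ
  let D := Q.totalDegree
  let e : ({i // i ≠ i₀} →₀ ℕ) → ι →₀ ℕ := fun d => Finsupp.equivFunOnFinite.symm fun i =>
    if h : i = i₀ then ∑ j : {i // i ≠ i₀}, b j * d j + m * (D - ∑ j, d j) else a * d ⟨i, h⟩
  have he : ∀ d ∈ Q.support, (e d).prod (fun i k => y i ^ k)
      = y i₀ ^ (m * D) * d.prod fun i k => z i ^ k := fun d hd => by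
    have h1 : ∑ j, d j ≤ D := by
      simpa [Finsupp.sum_fintype] using le_totalDegree hd
    obtain ⟨u, hu⟩ := Nat.exists_eq_add_of_le h1
    have h2 := hy.1 i₀
    rw [Finsupp.prod_fintype _ _ (by simp), Finsupp.prod_fintype _ _ (by simp),
      Fintype.prod_eq_mul_prod_subtype_ne _ i₀]
    have h3 : ∀ j : {i // i ≠ i₀}, e d j = a * d j := fun j => dif_neg j.2
    simp only [h3]
    simp only [e, z, Finsupp.coe_equivFunOnFinite_symm, dif_pos, div_pow, mul_pow, ← pow_mul, Finset.prod_div_distrib,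
      Finset.prod_mul_distrib, Finset.prod_pow_eq_pow_sum, ← Finset.mul_sum, hu,
      Nat.add_sub_cancel_left]
    field_simp
    ring
  have hi : Function.Injective e := fun d d' h => Finsupp.ext fun j => by
    have := DFunLike.congr_fun h j.1
    simpa [e, j.2, a, h0] using this
  have h1 := hy.2 (∑ d ∈ Q.support, monomial (e d) (coeff d Q)) (e d) (by
    simpa [coeff_sum, coeff_monomial, hi.eq_iff] using hd)
  rw [he d hd, map_sum, Finset.sum_congr rfl fun d hd => by
    rw [aeval_monomial, he d hd, mul_left_comm, ← aeval_monomial], ← Finset.mul_sum, ← map_sum,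
    ← as_sum, map_mul, map_mul, mul_le_mul_iff_right₀ (w.pos (pow_ne_zero _ (hy.1 i₀)))] at h1
  simpa [Finsupp.prod, hz] using h1

theorem jac [IsAlgClosed L] [Algebra.IsAlgebraic K L] {σ : Type} [Finite σ] {x : σ → K}
    (hK : IntermediateField.adjoin ℂ (range x) = ⊤) {θ : ι → K} (hθ : IsTranscendenceBasis ℂ θ)
    (hs : ∀ i, ∃ s : ℤ, w (y i) = exp s) (hn : ∃ i, w (y i) ≠ 1) {T : Matrix ι ι L}
    (hT : ∀ (D : Derivation ℂ L L) (j : ι), D (algebraMap K L (θ j)) = ∑ l, T j l * D (y l)) :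
    ∃ (E : PrimeDiv K ι) (l : ℝ), 0 < l ∧
      (∀ a, a ≠ 0 → w (algebraMap K L a) = exp (-(l * E.o a))) ∧
      (∏ i, w (y i)) * w T.det ≤ exp (-(l * (1 + E.o (E.jac θ)))) := by
  obtain ⟨i₀, hi⟩ := hn
  have hyb := basis_of_card (basis_map (L := L) hθ) hy.indep
  have := hyb.isAlgebraic_field
  let K' := IntermediateField.adjoin (IntermediateField.adjoin ℂ (range y))
    (range fun l => algebraMap K L (x l))
  have : FiniteDimensional _ K' := IntermediateField.finiteDimensional_adjoin fun a _ =>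
    (Algebra.IsAlgebraic.isAlgebraic a).isIntegral
  have hK' : ∀ a, algebraMap K L a ∈ K' := fun a => by
    have : IntermediateField.adjoin ℂ (range x) ≤ (K'.restrictScalars ℂ).comap
        (IsScalarTower.toAlgHom ℂ K L) := IntermediateField.adjoin_le_iff.2 (by
      rintro _ ⟨l, rfl⟩
      exact IntermediateField.subset_adjoin _ _ ⟨l, rfl⟩)
    exact this (hK ▸ IntermediateField.mem_top)
  obtain ⟨v, l, ϖ, hl, hϖ, hv⟩ := normalise (hw.pb (algebraMap K L))
    (D := (Module.finrank (IntermediateField.adjoin ℂ (range y)) K').factorial) (by positivity)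
    (fun a ha => disc hw (hy.val_int hw hs) ((map_ne_zero (algebraMap K L)).2 ha)
      (Algebra.IsAlgebraic.isAlgebraic _).isIntegral
      ((congrArg Polynomial.natDegree (IntermediateField.minpoly_eq (⟨_, hK' a⟩ : K'))).ge.trans
        (minpoly.natDegree_le _))) (by
    obtain ⟨P, hP, h⟩ := Algebra.IsAlgebraic.isAlgebraic (R := K) (y i₀)
    obtain ⟨k, hk, -, c, hc, h⟩ := hw.exists_pow_eq (hy.1 i₀) hP h
    exact ⟨c, hc, fun h' => hi ((pow_eq_one_iff_of_nonneg (w.nonneg _) hk.ne').1 (h.trans h'))⟩)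
  simp only [pb_apply] at hv
  obtain ⟨z, hz⟩ := hy.units hw hs hi
  obtain ⟨q, hq⟩ := res_lift (K := K) hw hy.triv hz
  let p : ι → K := fun i => if h : i = i₀ then ϖ else q ⟨i, h⟩
  have h1 : v (p i₀) = 1 := by simp [p, hϖ]
  have h2 : ∀ Q : MvPolynomial ι ℂ, Q ≠ 0 → i₀ ∉ Q.vars → v (aeval p Q) = 0 := fun Q hQ h => by
    obtain ⟨Q, rfl⟩ := exists_rename_eq_of_vars_subset_range Q (Subtype.val : {i // i ≠ i₀} → ι)
      Subtype.val_injective fun i hi => ⟨⟨i, fun h' => h (h' ▸ hi)⟩, rfl⟩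
    have h3 := hq Q (by rintro rfl; simp at hQ)
    rw [aeval_rename, show p ∘ Subtype.val = q from funext fun i => dif_neg i.2]
    have h4 : aeval q Q ≠ 0 := fun h => by simp [h] at h3
    obtain ⟨k, h5, h6⟩ := ov_spec v h4
    rw [hv _ h4, h6] at h3
    simpa [h5, hl.ne'] using h3
  have hp := basis_of_card hθ (coord_indep h1 h2)
  obtain ⟨D, hD⟩ := der_exists hp
  obtain ⟨D', hD'⟩ := der_exists (basis_map (L := L) hp)
  obtain ⟨Y, hY⟩ := der_exists hyb
  refine ⟨⟨v, p, i₀, h1, h2, D, hD⟩, l, hl, hv, ?_⟩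
  have h3 : ∀ i a, D' i (algebraMap K L a) = algebraMap K L (D i a) := fun i a => by
    simpa [hD'] using der_expand hp hD ((D' i).compAlgebraMap K) a
  have h4 : algebraMap K L (Matrix.of fun i j => D i (θ j)).det
      = (Matrix.of fun i j => D' i (y j)).det * T.det := by
    rw [RingHom.map_det, ← Matrix.det_transpose T, ← Matrix.det_mul]
    congr 1
    ext i j
    simp [← h3, hT, Matrix.mul_apply, mul_comm]
  have h5 : (Matrix.of fun i j => Y i (algebraMap K L (p j))).det *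
      (Matrix.of fun i j => D' i (y j)).det = 1 := by
    rw [← Matrix.det_mul, ← Matrix.det_one (n := ι)]
    congr 1
    ext i j
    have := der_expand (basis_map (L := L) hp) hD' (Y i) (y j)
    simpa [hY, Matrix.mul_apply, Matrix.one_apply, mul_comm] using this.symm
  have h6 : w ((∏ i, y i) * (Matrix.of fun i j => Y i (algebraMap K L (p j))).det)
      ≤ ∏ j, w (algebraMap K L (p j)) := by
    rw [← Matrix.det_mul_column, ← Matrix.det_transpose]
    refine hw.det_le fun j i => ?_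
    exact der_small hw hy.triv (hy.val_int hw hs) (y i • Y i)
      (fun c => mono_der hw hy (hY i) c.2) _
  have hϖ0 : ϖ ≠ 0 := by rintro rfl; simp at hϖ
  have h7 : ∏ j, w (algebraMap K L (p j)) = exp (-l) := by
    rw [Fintype.prod_eq_single i₀ fun j hj => by simpa [p, hj] using hq _ (X_ne_zero ⟨j, hj⟩)]
    simp [p, hv ϖ hϖ0, ov, hϖ]
  by_cases h8 : (Matrix.of fun i j => D i (θ j)).det = 0
  · have : T.det = 0 := by
      rw [h8, map_zero, eq_comm, mul_eq_zero] at h4
      exact h4.resolve_left (right_ne_zero_of_mul_eq_one h5)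
    simp [this, exp_nonneg]
  rw [mul_add, neg_add, exp_add, mul_one, ← h7]
  change _ ≤ _ * exp (-(l * ov v (Matrix.of fun i j => D i (θ j)).det))
  rw [← hv _ h8, h4, map_mul, ← mul_assoc]
  refine mul_le_mul_of_nonneg_right ?_ (w.nonneg _)
  rw [← map_prod, ← mul_one (∏ i, y i), ← h5, ← mul_assoc, map_mul]
  exact mul_le_mul_of_nonneg_right h6 (w.nonneg _)

end Pool.Agent.Lib.MP_bc3ae6_ag
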