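import Pool.Agent.Lib.MP_bc3ae6_ag.V1

set_option autoImplicit false
set_option linter.unusedSectionVars false

/-! Residue rings, normalisation of discrete absolute values, local coordinates. -/

namespace Pool.Agent.Lib.MP_bc3ae6_ag

open MvPolynomial Set Real
open scoped Polynomial

section res

variable {K L : Type} [Field K] [Field L] [Algebra ℂ K] [Algebra ℂ L] [Algebra K L]
  [IsScalarTower ℂ K L] {w : AbsoluteValue L ℝ} (hw : NA w) (ht : Triv w)

/-- The valuation ring. -/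
def vO : Subalgebra ℂ L where
  carrier := {a | w a ≤ 1}
  mul_mem' {a b} ha hb := (w.map_mul a b).trans_le (mul_le_one₀ ha (w.nonneg _) hb)
  add_mem' := hw.add_le
  algebraMap_mem' := ht.le

/-- The maximal ideal of the valuation ring. -/
def vM : Ideal (vO hw ht) where
  carrier := {a | w a < 1}
  add_mem' := hw.add_lt
  zero_mem' := by simp
  smul_mem' a b hb := (w.map_mul a b).trans_lt
    ((mul_le_of_le_one_left (w.nonneg _) a.2).trans_lt hb)

instance : (vM hw ht).IsPrime where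
  ne_top' := (Ideal.ne_top_iff_one _).2 (show ¬w 1 < 1 by simp)
  mem_or_mem' {a b} h := by
    by_contra! hc
    exact (one_le_mul_of_one_le_of_one_le (not_lt.1 hc.1) (not_lt.1 hc.2)).not_gt
      ((w.map_mul a b).symm.trans_lt h)

instance : Nontrivial (vO hw ht ⧸ vM hw ht) :=
  Ideal.Quotient.nontrivial_iff.2 (Ideal.IsPrime.ne_top inferInstance)

lemma res_indep {κ : Type} {z : κ → vO hw ht} :
    AlgebraicIndependent ℂ (fun i => Ideal.Quotient.mkₐ ℂ (vM hw ht) (z i)) ↔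
      ∀ Q : MvPolynomial κ ℂ, Q ≠ 0 → w (aeval (fun i => (z i : L)) Q) = 1 := by
  rw [algebraicIndependent_iff]
  refine forall_congr' fun Q => ?_
  rw [← comp_aeval_apply, Ideal.Quotient.mkₐ_eq_mk, Ideal.Quotient.eq_zero_iff_mem,
    ← not_imp_not, show aeval (fun i => (z i : L)) Q = (aeval z Q : vO hw ht) from
      (comp_aeval_apply z (vO hw ht).val Q).symm]
  exact imp_congr_right fun _ => ⟨fun h => le_antisymm (aeval z Q).2 (not_lt.1 h),
    fun h => h.not_lt⟩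

include hw ht in
lemma res_lift [Algebra.IsAlgebraic K L] {κ : Type} {z : κ → L}
    (hz : ∀ Q : MvPolynomial κ ℂ, Q ≠ 0 → w (aeval z Q) = 1) : ∃ p : κ → K,
      ∀ Q : MvPolynomial κ ℂ, Q ≠ 0 → w (algebraMap K L (aeval p Q)) = 1 := by
  classical
  let r := Ideal.Quotient.mkₐ ℂ (vM hw ht)
  let s : Set (vO hw ht ⧸ vM hw ht) := {u | ∃ (a : K) (h : w (algebraMap K L a) ≤ 1), r ⟨_, h⟩ = u}
  have : Algebra.IsAlgebraic (Algebra.adjoin ℂ s) (vO hw ht ⧸ vM hw ht) := ⟨fun u => by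
    obtain ⟨b, rfl⟩ := Ideal.Quotient.mk_surjective u
    rcases (show w b ≤ 1 from b.2).eq_or_lt with hb | hb
    swap
    · rw [Ideal.Quotient.eq_zero_iff_mem.2 hb]; exact isAlgebraic_zero
    obtain ⟨P, hP, h⟩ := Algebra.IsAlgebraic.isAlgebraic (R := K) (b : L)
    obtain ⟨i, hi, -, -, -, -, h1⟩ := hw.two_terms (w.pos_iff.1 (hb ▸ one_pos)) hP h
    have hi' := (map_ne_zero (algebraMap K L)).2 (Polynomial.mem_support_iff.1 hi)
    have h2 : ∀ l, w (algebraMap K L (P.coeff l / P.coeff i)) ≤ 1 := fun l => by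
      rw [map_div₀, map_div₀, div_le_one (w.pos hi')]
      simpa [hb] using h1 l
    refine ⟨∑ l ∈ P.support, Polynomial.monomial l
      ⟨r ⟨_, h2 l⟩, Algebra.subset_adjoin ⟨_, _, rfl⟩⟩, fun h0 => ?_, ?_⟩
    · have h3 := congrArg (fun Q => ((Polynomial.coeff Q i : Algebra.adjoin ℂ s) :
        vO hw ht ⧸ vM hw ht)) h0
      simp only [Polynomial.finsetSum_coeff, Polynomial.coeff_monomial, Finset.sum_ite_eq', hi,
        if_true, Polynomial.coeff_zero, ZeroMemClass.coe_zero] at h3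
      have h4 : w (algebraMap K L (P.coeff i / P.coeff i)) < 1 :=
        Ideal.Quotient.eq_zero_iff_mem.1 h3
      simp [div_self (Polynomial.mem_support_iff.1 hi)] at h4
    · have h3 : ∑ l ∈ P.support, (⟨_, h2 l⟩ : vO hw ht) * b ^ l = 0 := Subtype.ext (by
        rw [Polynomial.aeval_def, Polynomial.eval₂_eq_sum, Polynomial.sum_def] at h
        simp [div_mul_eq_mul_div, ← Finset.sum_div, h])
      simpa [map_sum, Polynomial.aeval_monomial, r] using congrArg r h3⟩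
  have : FaithfulSMul ℂ (vO hw ht ⧸ vM hw ht) :=
    (faithfulSMul_iff_algebraMap_injective ℂ (vO hw ht ⧸ vM hw ht)).2 (algebraMap ℂ _).injective
  obtain ⟨t, hts, htb⟩ := exists_isTranscendenceBasis_subset (R := ℂ) s
  have hz1 : ∀ i, z i ∈ vO hw ht := fun i =>
    show w (z i) ≤ 1 by simpa using (hz (X i) (X_ne_zero i)).le
  have h1 := ((res_indep hw ht (z := fun i => ⟨z i, hz1 i⟩)).2 hz).cardinalMk_le_trdeg
  rw [← htb.cardinalMk_eq_trdeg] at h1
  obtain ⟨e⟩ := (Cardinal.le_def _ _).1 h1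
  choose a ha ha' using fun i => hts (e i).2
  refine ⟨a, fun Q hQ => ?_⟩
  rw [show algebraMap K L (aeval a Q) = aeval (fun i => algebraMap K L (a i)) Q from
    comp_aeval_apply a (IsScalarTower.toAlgHom ℂ K L) Q]
  refine (res_indep hw ht (z := fun i => ⟨_, ha i⟩)).1 ?_ Q hQ
  rw [show (fun i => Ideal.Quotient.mkₐ ℂ (vM hw ht) ⟨_, ha i⟩) = Subtype.val ∘ e from funext ha']
  exact htb.1.comp e e.injective

end res

lemma normalise {K : Type} [Field K] [Algebra ℂ K] {w : AbsoluteValue K ℝ} (hw : NA w) {D : ℝ}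
    (hD : 0 < D) (h : ∀ a, a ≠ 0 → ∃ k : ℤ, D * log (w a) = k) (hn : ∃ a, a ≠ 0 ∧ w a ≠ 1) :
    ∃ (v : AddValuation K (WithTop ℤ)) (l : ℝ) (ϖ : K), 0 < l ∧ v ϖ = 1 ∧
      ∀ a, a ≠ 0 → w a = exp (-(l * ov v a)) := by
  classical
  let H : AddSubgroup ℤ :=
    { carrier := {k | ∃ a, a ≠ 0 ∧ D * log (w a) = k}
      add_mem' := by
        rintro k l ⟨a, ha, hk⟩ ⟨b, hb, hl⟩
        exact ⟨a * b, mul_ne_zero ha hb, by
          rw [map_mul, log_mul (w.pos ha).ne' (w.pos hb).ne', mul_add, hk, hl, Int.cast_add]⟩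
      zero_mem' := ⟨1, one_ne_zero, by simp⟩
      neg_mem' := by
        rintro k ⟨a, ha, hk⟩
        exact ⟨a⁻¹, inv_ne_zero ha, by rw [map_inv₀, log_inv, mul_neg, hk, Int.cast_neg]⟩ }
  obtain ⟨g, hg⟩ := Int.subgroup_cyclic H
  have h1 : ∀ a, a ≠ 0 → ∃ k : ℤ, w a = exp (-((|g| : ℤ) / D * k)) := fun a ha => by
    obtain ⟨k, hk⟩ := h a ha
    have h2 : k ∈ H := ⟨a, ha, hk⟩
    rw [hg, AddSubgroup.mem_closure_singleton] at h2
    obtain ⟨j, rfl⟩ := h2
    refine ⟨-(j * g.sign), ?_⟩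
    rw [← exp_log (w.pos ha), eq_div_of_mul_eq hD.ne' ((mul_comm _ _).trans hk)]
    congr 1
    conv_lhs => rw [← Int.sign_mul_abs g]
    simp only [smul_eq_mul, Int.cast_mul, Int.cast_neg]
    ring
  have hl : 0 < ((|g| : ℤ) : ℝ) / D := by
    refine div_pos (Int.cast_pos.2 (abs_pos.2 ?_)) hD
    rintro rfl
    obtain ⟨a, ha, h2⟩ := hn
    obtain ⟨k, hk⟩ := h1 a ha
    simp [h2] at hk
  obtain ⟨ϖ, hϖ, h2⟩ : -|g| ∈ H := by
    rw [hg]
    exact neg_mem (abs_mem_iff.2 (AddSubgroup.mem_closure_singleton_self g))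
  generalize hlam : ((|g| : ℤ) : ℝ) / D = l at h1 hl
  have h3 : w ϖ = exp (-(l * (1 : ℤ))) := by
    rw [← exp_log (w.pos hϖ), eq_div_of_mul_eq hD.ne' ((mul_comm _ _).trans h2), ← hlam]
    simp [neg_div]
  choose! k hk using h1
  have h4 : ∀ a, a ≠ 0 → ∀ j : ℤ, w a = exp (-(l * j)) → k a = j := fun a ha j hj => by
    simpa [hk a ha, hl.ne'] using hj
  refine ⟨AddValuation.of (fun a => if a = 0 then ⊤ else k a) (if_pos rfl) ?_ (fun a b => ?_)
    fun a b => ?_, l, ϖ, hl, ?_, fun a ha => by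
      rw [ov, AddValuation.of_apply, if_neg ha, WithTop.untopD_coe, hk a ha]⟩
  · simp [h4 1 one_ne_zero 0 (by simp)]
  · by_cases ha : a = 0
    · simp [ha]
    by_cases hb : b = 0
    · simp [hb]
    by_cases hab : a + b = 0
    · simp [hab]
    have := hw a b
    simpa [ha, hb, hab, hk, hl] using this
  · by_cases ha : a = 0
    · simp [ha]
    by_cases hb : b = 0
    · simp [hb]
    simp [ha, hb, h4 _ (mul_ne_zero ha hb) (k a + k b) (by
      rw [map_mul, hk a ha, hk b hb, ← exp_add, Int.cast_add]; ring_nf)]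
  · simp [hϖ, h4 ϖ hϖ 1 h3]

lemma exists_split {ι : Type} [Finite ι] (i : ι) {Q : MvPolynomial ι ℂ} (hQ : Q ≠ 0) :
    ∃ (k : ℕ) (Q₀ R : MvPolynomial ι ℂ), Q = X i ^ k * (Q₀ + X i * R) ∧ Q₀ ≠ 0 ∧ i ∉ Q₀.vars := by
  obtain ⟨k, a, h1, h2⟩ := WfDvdMonoid.max_power_factor hQ (X_prime (i := i)).irreducible
  refine ⟨k, a.modMonomial (Finsupp.single i 1), a.divMonomial (Finsupp.single i 1), ?_,
    X_dvd_iff_modMonomial_eq_zero.not.1 h1, fun h => ?_⟩
  · rw [modMonomial_add_divMonomial_single, h2]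
  · obtain ⟨d, hd, hi⟩ := (mem_vars_iff_mem_support _).1 h
    exact mem_support_iff.1 hd (coeff_modMonomial_of_le _
      (Finsupp.single_le_iff.2 (Nat.pos_of_ne_zero (Finsupp.mem_support_iff.1 hi))))

section coord

variable {K ι : Type} [Field K] [Algebra ℂ K] {v : AddValuation K (WithTop ℤ)} {p : ι → K} {i : ι}
  (h1 : v (p i) = 1) (h2 : ∀ Q : MvPolynomial ι ℂ, Q ≠ 0 → i ∉ Q.vars → v (aeval p Q) = 0)
include h1 h2

lemma ord_aeval_nonneg (R : MvPolynomial ι ℂ) : 0 ≤ v (aeval p R) := by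
  classical
  induction R using MvPolynomial.induction_on with
  | C a =>
    rcases eq_or_ne a 0 with rfl | ha
    · simp
    · exact (h2 _ (by simpa using ha) (by simp)).ge
  | add p q hp hq => rw [map_add]; exact v.map_le_add hp hq
  | mul_X q j hq =>
    rw [map_mul, v.map_mul]
    refine add_nonneg hq ?_
    rcases eq_or_ne i j with rfl | h
    · simp [h1]
    · exact (h2 _ (X_ne_zero j) (by simpa [vars_X])).ge

lemma ord_split (k : ℕ) {Q₀ : MvPolynomial ι ℂ} (R : MvPolynomial ι ℂ) (h : Q₀ ≠ 0)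
    (h' : i ∉ Q₀.vars) : v (aeval p (X i ^ k * (Q₀ + X i * R))) = (k : ℤ) := by
  rw [map_mul (aeval p), map_pow, map_add, map_mul (aeval p), aeval_X, v.map_mul, v.map_pow, h1,
    v.map_add_eq_of_lt_left, h2 _ h h']
  · simp
  · rw [h2 _ h h', v.map_mul, h1]
    exact add_pos_of_pos_of_nonneg zero_lt_one (ord_aeval_nonneg h1 h2 R)

lemma coord_indep [Finite ι] : AlgebraicIndependent ℂ p := by
  refine algebraicIndependent_iff.2 fun Q hQ => by_contra fun h0 => ?_
  obtain ⟨k, Q₀, R, rfl, h, h'⟩ := exists_split i h0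
  have := ord_split h1 h2 k R h h'
  simp [hQ] at this

end coord

lemma basis_of_card {K ι : Type} [Field K] [Algebra ℂ K] [Finite ι] {θ p : ι → K}
    (hθ : IsTranscendenceBasis ℂ θ) (hp : AlgebraicIndependent ℂ p) : IsTranscendenceBasis ℂ p :=
  hp.isTranscendenceBasis_of_trdeg_le_of_finite hθ.cardinalMk_eq_trdeg.ge

lemma basis_map {K L ι : Type} [Field K] [Field L] [Algebra ℂ K] [Algebra ℂ L] [Algebra K L]
    [IsScalarTower ℂ K L] [Algebra.IsAlgebraic K L] {θ : ι → K} (hθ : IsTranscendenceBasis ℂ θ) :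
    IsTranscendenceBasis ℂ fun i => algebraMap K L (θ i) := hθ.algebraMap_comp

end Pool.Agent.Lib.MP_bc3ae6_ag
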