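import Pool.Agent.Lib.MP_bc3ae6_ag.VJac

set_option autoImplicit false
set_option linter.unusedSectionVars false

/-! Centres of prime divisors, and the dictionary with absolute values. -/

namespace Pool.Agent.Lib.MP_bc3ae6_ag

open MvPolynomial Set Real

namespace PrimeDiv

section

variable {K ι : Type} [Field K] [Algebra ℂ K] [DecidableEq ι] (E : PrimeDiv K ι)

lemma basis [Finite ι] {θ : ι → K} (hθ : IsTranscendenceBasis ℂ θ) : IsTranscendenceBasis ℂ E.p :=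
  basis_of_card hθ (coord_indep E.unif E.indep)

lemma jac_ne [Fintype ι] {θ : ι → K} (hθ : IsTranscendenceBasis ℂ θ) : E.jac θ ≠ 0 := by
  obtain ⟨Y, hY⟩ := der_exists hθ
  refine right_ne_zero_of_mul_eq_one (a := (Matrix.of fun i j => Y j (E.p i)).det) ?_
  rw [jac, ← Matrix.det_transpose (Matrix.of fun i j => E.D i (θ j)), ← Matrix.det_mul,
    ← Matrix.det_one (n := ι)]
  congr 1
  ext i j
  have := der_expand hθ hY (E.D j) (E.p i)
  simpa [E.dual, Matrix.mul_apply, Matrix.one_apply, eq_comm] using this.symm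

variable {E} {w : K → ℝ} {l : ℝ} (hl : 0 < l) (h0 : w 0 = 0)
  (h : ∀ a, a ≠ 0 → w a = exp (-(l * E.o a)))
include hl h0 h

lemma le_iff (a b : K) : E.ord a ≤ E.ord b ↔ w b ≤ w a := by
  rcases eq_or_ne b 0 with rfl | hb
  · rcases eq_or_ne a 0 with rfl | ha
    · simp
    · simp [h0, h a ha, exp_nonneg]
  rcases eq_or_ne a 0 with rfl | ha
  · simp [h0, h b hb, hb, exp_pos]
  obtain ⟨k, h1, h2⟩ := ov_spec E.ord ha
  rw [h1, le_ov_iff _ hb, h a ha, h b hb, o_eq, o_eq, h2]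
  simp [hl]

lemma nonneg_iff (a : K) : 0 ≤ E.ord a ↔ w a ≤ 1 := by
  have := le_iff hl h0 h 1 a
  rwa [E.ord.map_one, h 1 one_ne_zero, o_eq, ov_one, mul_zero, neg_zero, exp_zero] at this

lemma eq_zero_of (a : K) (ha : w a = 1) : E.ord a = 0 := by
  have h1 := le_iff hl h0 h a 1
  rw [E.ord.map_one, h 1 one_ne_zero, o_eq, ov_one, mul_zero, neg_zero, exp_zero] at h1
  exact le_antisymm (h1.2 ha.ge) ((nonneg_iff hl h0 h a).2 ha.le)

end

variable {σ ι : Type} [Finite σ] [DecidableEq ι] {J : Ideal (MvPolynomial σ ℂ)} [J.IsPrime]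
  (E : PrimeDiv (FnF J) ι)

lemma exists_centre (h : ∀ a, 0 ≤ E.ord (cl J a)) {u : MvPolynomial σ ℂ}
    (hu : E.ord (cl J u) = 0) : ∃ y ∈ zeroLocus ℂ J, eval y u ≠ 0 ∧
      ∀ a, 0 < E.ord (cl J a) → eval y a = 0 := by
  let P : Ideal (MvPolynomial σ ℂ) :=
    { carrier := {a | 0 < E.ord (cl J a)}
      add_mem' := fun ha hb => by rw [mem_ofPred, map_add]; exact E.ord.map_lt_add ha hb
      zero_mem' := by simp
      smul_mem' := fun a b hb => by
        rw [mem_ofPred, smul_eq_mul, map_mul, E.ord.map_mul]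
        exact lt_of_lt_of_le hb (le_add_of_nonneg_left (h a)) }
  by_contra! hc
  have h1 : u ∈ vanishingIdeal ℂ (zeroLocus ℂ P) := fun y hy => by_contra fun h1 => by
    obtain ⟨a, ha, h2⟩ := hc y (fun a ha => hy a (show 0 < E.ord (cl J a) by
      simp [cl_eq_zero.2 ha])) h1
    exact h2 (hy a ha)
  rw [vanishingIdeal_zeroLocus_eq_radical] at h1
  obtain ⟨k, hk⟩ := h1
  have h2 : 0 < E.ord (cl J (u ^ k)) := hk
  simp [hu] at h2

lemma Meets.ord_eq {E : PrimeDiv (FnF J) ι} {U : Set (σ → ℂ)} (h : E.Meets U) : ∃ y ∈ U,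
    ∀ a, eval y a ≠ 0 → E.ord (cl J a) = 0 :=
  h.2.imp fun _ hy => ⟨hy.1, fun a ha => ((h.1 a).eq_or_lt.resolve_right (mt (hy.2 a) ha)).symm⟩

end PrimeDiv

end Pool.Agent.Lib.MP_bc3ae6_ag
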