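import Pool.Agent.Lib.MP_bc3ae6_ag.V1
import Pool.Agent.Lib.MP_bc3ae6_ag.BasL

set_option autoImplicit false
set_option linter.unusedSectionVars false

/-! Powers of an affine variety: algebra. -/

namespace Pool.Agent.Lib.MP_bc3ae6_ag

open MvPolynomial Set

/-- Powers of a subset of affine space. -/
abbrev pw {σ : Type} (N : ℕ) (Y : Set (σ → ℂ)) : Set (Fin N × σ → ℂ) :=
  {x | ∀ j, (fun l => x (j, l)) ∈ Y}

/-- The ideal of a power. -/
noncomputable abbrev JN {σ : Type} (N : ℕ) (I : Ideal (MvPolynomial σ ℂ)) :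
    Ideal (MvPolynomial (Fin N × σ) ℂ) := vanishingIdeal ℂ (pw N (zeroLocus ℂ I))

/-- The finite map on a power. -/
noncomputable abbrev thN {σ ι : Type} (N : ℕ) (θ : ι → MvPolynomial σ ℂ) :
    Fin N × ι → MvPolynomial (Fin N × σ) ℂ := fun q => rename (Prod.mk q.1) (θ q.2)

variable {n M N : ℕ} {I : Ideal (MP M)}

lemma vp_mem {P : MvPolynomial (Fin N × Fin M) ℂ} :
    P ∈ JN N I ↔ ∀ x ∈ pw N (zeroLocus ℂ I), eval x P = 0 := Iff.rfl

lemma vp_rn (x : Fin N × Fin M → ℂ) (j : Fin N) (a : MP M) :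
    eval x (rename (Prod.mk j) a) = eval (fun l => x (j, l)) a := eval_rename _ _ _

theorem rn_mem (j : Fin N) {a : MP M} (ha : a ∈ I) : rename (Prod.mk j) a ∈ JN N I :=
  vp_mem.2 fun x hx => by rw [vp_rn]; exact mem_Z.1 (hx j) a ha

theorem zl_JN : zeroLocus ℂ (JN N I) = pw N (zeroLocus ℂ I) := by
  refine Subset.antisymm (fun x hx j => mem_Z.2 fun a ha => ?_) (zeroLocus_vanishingIdeal_le _)
  rw [← vp_rn]
  exact hx _ (rn_mem j ha)

variable [I.IsPrime]

lemma vp_null {a : MP M} (ha : a ∉ I) : ∃ z ∈ zeroLocus ℂ I, eval z a ≠ 0 := by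
  by_contra! h
  exact ha (IsPrime.vanishingIdeal_zeroLocus (K := ℂ) I ▸ h)

theorem rn_mem_iff (j : Fin N) {a : MP M} : rename (Prod.mk j) a ∈ JN N I ↔ a ∈ I := by
  refine ⟨fun h => by_contra fun ha => ?_, rn_mem j⟩
  obtain ⟨z, hz, h1⟩ := vp_null ha
  have := vp_mem.1 h (fun q => z q.2) fun _ => hz
  rw [vp_rn] at this
  exact h1 this

/-- Replacing one block of coordinates. -/
def vpUp (x : Fin N × Fin M → ℂ) (j : Fin N) (z : Fin M → ℂ) : Fin N × Fin M → ℂ :=
  fun q => if q.1 = j then z q.2 else x q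

lemma vp_up_mem {x : Fin N × Fin M → ℂ} (hx : x ∈ pw N (zeroLocus ℂ I)) (j : Fin N)
    {z : Fin M → ℂ} (hz : z ∈ zeroLocus ℂ I) : vpUp x j z ∈ pw N (zeroLocus ℂ I) := fun i => by
  by_cases h : i = j
  · simpa [vpUp, h] using hz
  · simpa [vpUp, h] using hx i

lemma vp_slice {x : Fin N × Fin M → ℂ} (hx : x ∈ pw N (zeroLocus ℂ I)) (j : Fin N)
    {P : MvPolynomial (Fin N × Fin M) ℂ} (hP : eval x P ≠ 0) :
    ∃ a : MP M, a ∉ I ∧ ∀ z, eval z a = eval (vpUp x j z) P := by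
  have h : ∀ z, eval z (aeval (fun q : Fin N × Fin M => if q.1 = j then (X q.2 : MP M) else C (x q))
      P) = eval (vpUp x j z) P := fun z => by
    rw [ev_aeval]
    congr 2
    funext q
    by_cases h : q.1 = j <;> simp [vpUp, h]
  refine ⟨_, fun ha => hP ?_, h⟩
  have h1 := mem_Z.1 (hx j) _ ha
  rw [h] at h1
  rw [← h1]
  congr 2
  funext q
  by_cases h : q.1 = j
  · simp [vpUp, ← h]
  · simp [vpUp, h]

lemma vp_common {P Q : MvPolynomial (Fin N × Fin M) ℂ} (s : Finset (Fin N))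
    {a b : Fin N × Fin M → ℂ} (ha : a ∈ pw N (zeroLocus ℂ I)) (hb : b ∈ pw N (zeroLocus ℂ I))
    (hab : ∀ q, q.1 ∉ s → a q = b q) (hP : eval a P ≠ 0) (hQ : eval b Q ≠ 0) :
    ∃ c ∈ pw N (zeroLocus ℂ I), eval c (P * Q) ≠ 0 := by
  induction s using Finset.induction_on generalizing a b with
  | empty =>
    obtain rfl : a = b := funext fun q => hab q (by simp)
    exact ⟨a, ha, by rw [map_mul]; exact mul_ne_zero hP hQ⟩
  | insert j s _ ih =>
    obtain ⟨p, hp, hp'⟩ := vp_slice ha j hP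
    obtain ⟨q, hq, hq'⟩ := vp_slice hb j hQ
    obtain ⟨z, hz, h⟩ := vp_null (mt (Ideal.IsPrime.mem_or_mem ‹_›) (not_or.2 ⟨hp, hq⟩))
    rw [map_mul, hp', hq'] at h
    refine ih (vp_up_mem ha j hz) (vp_up_mem hb j hz) (fun r hr => ?_) (left_ne_zero_of_mul h)
      (right_ne_zero_of_mul h)
    by_cases h1 : r.1 = j
    · simp [vpUp, h1]
    · simpa [vpUp, h1] using hab r (by simp [h1, hr])

instance JN_prime : (JN N I).IsPrime := by
  refine ⟨fun h => ?_, fun {P Q} h => ?_⟩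
  · obtain ⟨z, hz, -⟩ := vp_null (I.ne_top_iff_one.1 (Ideal.IsPrime.ne_top ‹_›))
    have := vp_mem.1 (h ▸ Submodule.mem_top : (1 : MvPolynomial (Fin N × Fin M) ℂ) ∈ JN N I)
      (fun q => z q.2) fun _ => hz
    simp at this
  · by_contra! hc
    simp only [vp_mem, not_forall] at hc
    obtain ⟨⟨a, ha, hP⟩, b, hb, hQ⟩ := hc
    obtain ⟨c, hc, h1⟩ := vp_common Finset.univ ha hb (by simp) hP hQ
    exact h1 (vp_mem.1 h c hc)

theorem det_notMem {s : Fin N → MP M} (hs : ∀ a, lc s a ∈ I → a = 0) :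
    (Matrix.of fun i j : Fin N => rename (Prod.mk j) (s i)).det ∉ JN N I := by
  let v : zeroLocus ℂ I → Fin N → ℂ := fun z i => eval z.1 (s i)
  have h1 : Submodule.span ℂ (range v) = ⊤ := by
    by_contra h
    obtain ⟨f, hf, h2⟩ := Submodule.exists_le_ker_of_lt_top _ (lt_top_iff_ne_top.2 h)
    have h3 : ∀ u : Fin N → ℂ, f u = ∑ j, f (Pi.single j 1) * u j := fun u => by
      rw [LinearMap.pi_apply_eq_sum_univ]
      refine Finset.sum_congr rfl fun j _ => ?_
      rw [smul_eq_mul, mul_comm]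
      congr 2
      funext i
      simp [Pi.single_apply, eq_comm]
    have h4 := hs (fun j => f (Pi.single j 1)) (by_contra fun h => by
      obtain ⟨z, hz, h5⟩ := vp_null h
      rw [ev_lc, ← h3 (v ⟨z, hz⟩)] at h5
      exact h5 (h2 (Submodule.subset_span ⟨_, rfl⟩)))
    refine hf (LinearMap.ext fun u => ?_)
    rw [h3]
    simp [congrFun h4]
  obtain ⟨κ, e, -, h2, h3⟩ := exists_linearIndependent' ℂ v
  have b : Module.Basis κ ℂ (Fin N → ℂ) := Module.Basis.mk h3 (by rw [h2, h1])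
  have := Module.Finite.finite_basis b
  have := Fintype.ofFinite κ
  have g : Fin N ≃ κ := Fintype.equivOfCardEq (by rw [← Module.finrank_eq_card_basis b]; simp)
  have h4 : IsUnit (Matrix.of fun i j : Fin N => v (e (g j)) i) :=
    Matrix.linearIndependent_cols_iff_isUnit.1 (h3.comp g g.injective)
  intro h
  have h5 := vp_mem.1 h (fun q => (e (g q.1)).1 q.2) fun j => (e (g j)).2
  rw [RingHom.map_det] at h5
  refine ((Matrix.isUnit_iff_isUnit_det _).1 h4).ne_zero (Eq.trans ?_ h5)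
  congr 1
  ext i j
  simp [vp_rn, v]

variable {θ : Fin n → MP M} [Algebra (MP n) (MP M ⧸ I)]

theorem AS.intN (hA : AS I θ) (a : MvPolynomial (Fin N × Fin M) ℂ) :
    IsIntegral (Algebra.adjoin ℂ (range fun q => cl (JN N I) (thN N θ q))) (cl (JN N I) a) := by
  set S := Algebra.adjoin ℂ (range fun q => cl (JN N I) (thN N θ q))
  induction a using MvPolynomial.induction_on with
  | C c =>
    rw [← algebraMap_eq, AlgHom.commutes, IsScalarTower.algebraMap_apply ℂ S]
    exact isIntegral_algebraMap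
  | add p q hp hq => rw [map_add]; exact hp.add hq
  | mul_X p q hp =>
    rw [map_mul]
    refine hp.mul ?_
    let ψ : MP M →ₐ[ℂ] FnF (JN N I) := (cl (JN N I)).comp (rename (Prod.mk q.1))
    let ψ' : MP M ⧸ I →+* FnF (JN N I) :=
      Ideal.Quotient.lift I ψ.toRingHom fun a ha => cl_eq_zero.2 (rn_mem q.1 ha)
    let φ : MP n →ₐ[ℂ] S := aeval fun i => ⟨cl (JN N I) (thN N θ (q.1, i)),
      Algebra.subset_adjoin ⟨_, rfl⟩⟩
    have h : (algebraMap S (FnF (JN N I))).comp φ.toRingHom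
        = ψ'.comp (algebraMap (MP n) (MP M ⧸ I)) := by
      refine RingHom.ext fun p => ?_
      rw [RingHom.comp_apply, RingHom.comp_apply, hA.alg]
      change (S.val.comp φ) p = (ψ.comp (aeval θ)) p
      congr 1
      ext i
      simp [φ, ψ]
    have h1 := (hA.int (Ideal.Quotient.mk I (X q.2))).map_of_comp_eq φ.toRingHom ψ' h
    simpa [ψ', ψ] using h1

theorem AS.basisN (hA : AS I θ) : IsTranscendenceBasis ℂ fun q => cl (JN N I) (thN N θ q) := by
  obtain ⟨d, F, h, hG⟩ := hA.exists_geo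
  have h1 : AlgebraicIndependent ℂ fun q => cl (JN N I) (thN N θ q) := by
    refine algebraicIndependent_iff.2 fun Q hQ => MvPolynomial.funext fun w => ?_
    choose z hz hz' using fun j : Fin N => hG.surj fun i => w (j, i)
    rw [← comp_aeval_apply, cl_eq_zero] at hQ
    have h2 := vp_mem.1 hQ (fun q => z q.1 q.2) hz
    rw [ev_aeval] at h2
    rw [map_zero, ← h2]
    congr 2
    funext q
    rw [vp_rn]
    exact (congrFun (hz' q.1) q.2).symm
  refine h1.isTranscendenceBasis_iff_isAlgebraic.2 ⟨fun a => ?_⟩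
  obtain ⟨p, q, hq, h2⟩ := exists_cl a
  rw [eq_div_of_mul_eq (cl_eq_zero.not.2 hq) h2, div_eq_mul_inv]
  exact (hA.intN p).isAlgebraic.mul (hA.intN q).isAlgebraic.inv

end Pool.Agent.Lib.MP_bc3ae6_ag
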