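import Pool.Agent.Lib.MP_bc3ae6_ag.VM
import Pool.Agent.Lib.MP_bc3ae6_ag.VExt
import Pool.Agent.Lib.MP_bc3ae6_ag.VMatch
import Pool.Agent.Lib.MP_bc3ae6_ag.VProd
import Pool.Agent.Lib.MP_bc3ae6_ag.VHom
import Pool.Agent.Lib.MP_bc3ae6_ag.VSub

set_option autoImplicit false
set_option linter.unusedSectionVars false

/-! The prime divisor on a power given by the sum of the valuations of the factors. -/

namespace Pool.Agent.Lib.MP_bc3ae6_ag

open MvPolynomial Set Real

theorem mono_val {K Ω ι : Type} [Field K] [Field Ω] [Algebra ℂ K] [Algebra ℂ Ω] [Finite ι]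
    [DecidableEq ι] (E : PrimeDiv K ι) {w : AbsoluteValue Ω ℝ} (hw : NA w) {Y : ι → Ω}
    (hY : Mono w Y) (hc : ∀ i, w (Y i) = if i = E.i₀ then exp (-1) else 1)
    {Q : MvPolynomial ι ℂ} (hQ : Q ≠ 0) : w (aeval Y Q) = exp (-E.o (aeval E.p Q)) := by
  obtain ⟨k, Q₀, R, rfl, h, h'⟩ := exists_split E.i₀ hQ
  have h1 := ord_split E.unif E.indep k R h h'
  have h2 : E.o (aeval E.p (X E.i₀ ^ k * (Q₀ + X E.i₀ * R))) = k := by
    rw [PrimeDiv.o, h1, WithTop.untopD_coe, Int.cast_natCast]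
  have h3 : w (aeval Y Q₀) = 1 := by
    obtain ⟨d, hd, e⟩ := hY.exists_eq hw h
    rw [e, Finsupp.prod, map_prod]
    refine Finset.prod_eq_one fun i hi => ?_
    have : i ≠ E.i₀ := fun hi' => h' ((mem_vars_iff_mem_support _).2 ⟨d, hd, hi' ▸ hi⟩)
    rw [map_pow, hc, if_neg this, one_pow]
  have h4 : exp (-1) < 1 := exp_lt_one_iff.2 (by norm_num)
  have h5 : ∀ i, w (Y i) ≤ 1 := fun i => by
    rw [hc]
    split_ifs
    · exact h4.le
    · exact le_rfl
  have h6 : w (Y E.i₀) = exp (-1) := by rw [hc, if_pos rfl]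
  have h7 : w (Y E.i₀ * aeval Y R) < w (aeval Y Q₀) := by
    rw [h3, map_mul, h6]
    exact (mul_le_of_le_one_right (exp_nonneg _) (hY.triv.aeval_le hw h5 R)).trans_lt h4
  rw [h2, map_mul (aeval Y), map_pow, map_add, map_mul (aeval Y), aeval_X, map_mul, map_pow,
    hw.add_eq_left h7, h3, h6, mul_one, ← exp_nat_mul, mul_neg_one]

theorem exists_iota {K Ω ι σ : Type} [Field K] [Field Ω] [Algebra ℂ K] [Algebra ℂ Ω]
    [IsAlgClosed Ω] [Finite ι] [DecidableEq ι] [Finite σ] {x : σ → K}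
    (hK : IntermediateField.adjoin ℂ (range x) = ⊤) {θ : ι → K} (hθ : IsTranscendenceBasis ℂ θ)
    (E : PrimeDiv K ι) {w : AbsoluteValue Ω ℝ} (hw : NA w) {Y : ι → Ω} (hY : Mono w Y)
    (hc : ∀ i, w (Y i) = if i = E.i₀ then exp (-1) else 1) :
    ∃ g : K →ₐ[ℂ] Ω, (∀ i, g (E.p i) = Y i) ∧ ∀ a, a ≠ 0 → w (g a) = exp (-E.o a) := by
  have hp := E.basis hθ
  have halg := hp.isAlgebraic_field
  let K₀ := IntermediateField.adjoin ℂ (range E.p)
  have hfd : FiniteDimensional K₀ K := by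
    have h1 : FiniteDimensional K₀ (IntermediateField.adjoin K₀ (range x)) :=
      IntermediateField.finiteDimensional_adjoin fun a _ =>
        (Algebra.IsAlgebraic.isAlgebraic a).isIntegral
    have h2 : IntermediateField.adjoin K₀ (range x) = ⊤ :=
      IntermediateField.adjoin_eq_top_of_adjoin_eq_top ℂ hK
    rw [h2] at h1
    exact IntermediateField.topEquiv.toLinearEquiv.finiteDimensional
  let f : K₀ →ₐ[ℂ] Ω := (IsFractionRing.liftAlgHom (K := FractionRing (MvPolynomial ι ℂ))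
    (algebraicIndependent_iff_injective_aeval.2 hY.indep)).comp hp.1.reprField
  have hf : ∀ (Q : MvPolynomial ι ℂ) (c : K₀), (c : K) = aeval E.p Q → f c = aeval Y Q := by
    intro Q c h
    have h1 : c = hp.1.aevalEquivField (algebraMap _ _ Q) :=
      Subtype.ext (h.trans (hp.1.aevalEquivField_algebraMap_apply_coe Q).symm)
    have h2 : hp.1.reprField c = algebraMap _ _ Q := by
      rw [h1]; exact hp.1.aevalEquivField.symm_apply_apply _
    rw [AlgHom.comp_apply, h2, IsFractionRing.liftAlgHom_apply, IsFractionRing.lift_algebraMap]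
    rfl
  let : Algebra K₀ Ω := f.toRingHom.toAlgebra
  have : IsScalarTower ℂ K₀ Ω := IsScalarTower.of_algebraMap_eq fun c => (f.commutes c).symm
  have : Algebra.IsAlgebraic K₀ (AlgebraicClosure K) := Algebra.IsAlgebraic.trans K₀ K _
  let g : AlgebraicClosure K →ₐ[K₀] Ω := IsAlgClosed.lift
  obtain ⟨w₀, h0, h0'⟩ := exists_abs E.ord
  obtain ⟨w₁, h1, h1'⟩ := ext_alg (L := AlgebraicClosure K) h0
  have hmem : ∀ Q : MvPolynomial ι ℂ, aeval E.p Q ∈ K₀ := fun Q =>
    (IntermediateField.mem_adjoin_range_iff _ _ _).2 ⟨Q, 1, by simp⟩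
  have hval : ∀ Q : MvPolynomial ι ℂ, w₀ (aeval E.p Q) = w (aeval Y Q) := fun Q => by
    rcases eq_or_ne Q 0 with rfl | hQ
    · simp
    · rw [mono_val E hw hY hc hQ, h0' _ fun h => hQ (algebraicIndependent_iff.1 hp.1 Q h), E.o_eq]
  obtain ⟨τ, hτ⟩ := exists_emb (K := K₀) (K' := K) h1 (hw.pb g.toRingHom) fun c => by
    rw [IsScalarTower.algebraMap_apply K₀ K (AlgebraicClosure K), h1', pb_apply,
      ← IsScalarTower.algebraMap_apply K₀ K (AlgebraicClosure K)]
    have e : g.toRingHom (algebraMap K₀ (AlgebraicClosure K) c) = f c := g.commutes c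
    obtain ⟨p, q, h⟩ := (IntermediateField.mem_adjoin_range_iff _ _ _).1 c.2
    have e' : c = (⟨_, hmem p⟩ : K₀) / ⟨_, hmem q⟩ := Subtype.ext h
    rw [e, IntermediateField.algebraMap_apply, h, e', map_div₀, map_div₀, map_div₀, hf p _ rfl,
      hf q _ rfl, hval, hval]
  refine ⟨(g.comp τ).restrictScalars ℂ, fun i => ?_, fun a ha => ?_⟩
  · let c : K₀ := ⟨E.p i, IntermediateField.subset_adjoin _ _ ⟨i, rfl⟩⟩
    have e := hf (X i) c (aeval_X E.p i).symm
    rw [aeval_X] at e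
    exact ((g.comp τ).commutes c).trans e
  · have e := hτ a
    rw [h1', h0' a ha] at e
    exact e

theorem ov_det {K ι : Type} [Field K] [Algebra ℂ K] [Fintype ι] [DecidableEq ι]
    (v : AddValuation K (WithTop ℤ)) {A : Matrix ι ι K} (hA : A.det ≠ 0) {c : ι → ℝ}
    (h : ∀ i j, A i j ≠ 0 → c i ≤ ov v (A i j)) : ∑ i, c i ≤ ov v A.det := by
  obtain ⟨w, hw, hw'⟩ := exists_abs v
  have h1 := hw.det_le (A := A) (b := fun i => exp (-c i)) fun i j => by
    rcases eq_or_ne (A i j) 0 with h0 | h0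
    · rw [h0, map_zero]; exact exp_nonneg _
    · rw [hw' _ h0, exp_le_exp, neg_le_neg_iff]; exact h i j h0
  rwa [hw' _ hA, ← exp_sum, exp_le_exp, Finset.sum_neg_distrib, neg_le_neg_iff] at h1

variable {n M N : ℕ} {I : Ideal (MP M)} [I.IsPrime] {θ : Fin n → MP M} [Algebra (MP n) (MP M ⧸ I)]

theorem AS.exists_prod_hom (hA : AS I θ) {Ω : Type} [Field Ω] [Algebra ℂ Ω]
    (g : Fin N → FnF I →ₐ[ℂ] Ω)
    (hi : AlgebraicIndependent ℂ fun q : Fin N × Fin n => g q.1 (cl I (θ q.2))) :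
    ∃ ψ : FnF (JN N I) →ₐ[ℂ] Ω, ∀ j a, ψ (cl (JN N I) (rename (Prod.mk j) a)) = g j (cl I a) := by
  let φ : MvPolynomial (Fin N × Fin M) ℂ →ₐ[ℂ] Ω := aeval fun q => g q.1 (cl I (X q.2))
  have h1 : ∀ j a, φ (rename (Prod.mk j) a) = g j (cl I a) := fun j a => by
    rw [cl_eq_aeval a, comp_aeval_apply _ (g j), aeval_rename]
    rfl
  have h2 : ∀ a ∈ JN N I, φ a = 0 := fun a ha => by
    have : (RingHom.ker φ).IsPrime := RingHom.ker_isPrime φ
    rw [← RingHom.mem_ker, ← IsPrime.vanishingIdeal_zeroLocus (K := ℂ) (RingHom.ker φ)]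
    refine fun x hx => vp_mem.1 ha x fun j => mem_Z.2 fun b hb => ?_
    rw [← vp_rn]
    exact hx _ (by rw [RingHom.mem_ker, h1, cl_eq_zero.2 hb, map_zero])
  have h3 : ∀ a, φ a = 0 → a ∈ JN N I := fun a ha => by_contra fun h => by
    obtain ⟨t, ht, ⟨r, hr⟩, hr0, e⟩ := (hA.intN a).isAlgebraic.exists_nonzero_eq_adjoin_mul
      (mem_nonZeroDivisors_of_ne_zero (cl_eq_zero.not.2 h))
    have h4 : ∀ s ∈ Algebra.adjoin ℂ (range fun q => cl (JN N I) (thN N θ q)),
        ∃ c, cl (JN N I) (aeval (thN N θ) c) = s := fun s hs => by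
      rw [Algebra.adjoin_range_eq_range_aeval] at hs
      obtain ⟨c, rfl⟩ := hs
      exact ⟨c, comp_aeval_apply _ _ c⟩
    have h5 : ∃ b, cl (JN N I) b = t := by
      clear e
      induction ht using Algebra.adjoin_induction with
      | mem y hy => exact ⟨a, hy.symm⟩
      | algebraMap s => exact (h4 s s.2).elim fun c hc => ⟨_, hc⟩
      | add y z _ _ hy hz =>
        obtain ⟨b, rfl⟩ := hy
        obtain ⟨c, rfl⟩ := hz
        exact ⟨b + c, map_add _ _ _⟩
      | mul y z _ _ hy hz =>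
        obtain ⟨b, rfl⟩ := hy
        obtain ⟨c, rfl⟩ := hz
        exact ⟨b * c, map_mul _ _ _⟩
    obtain ⟨b, rfl⟩ := h5
    obtain ⟨c, rfl⟩ := h4 r hr
    have h6 := h2 (a * b - aeval (thN N θ) c) (cl_eq_zero.1 (by
      rw [map_sub, map_mul, e]; exact sub_self _))
    rw [map_sub, map_mul, ha, zero_mul, zero_sub, neg_eq_zero, comp_aeval_apply] at h6
    simp only [h1] at h6
    obtain rfl := algebraicIndependent_iff.1 hi c h6
    exact hr0 (Subtype.ext (by simp))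
  have h4 : Function.Injective (Ideal.Quotient.liftₐ (JN N I) φ h2) :=
    (injective_iff_map_eq_zero _).2 fun a ha => by
      obtain ⟨a, rfl⟩ := Ideal.Quotient.mk_surjective a
      exact Ideal.Quotient.eq_zero_iff_mem.2 (h3 a ha)
  refine ⟨IsFractionRing.liftAlgHom h4, fun j a => ?_⟩
  rw [cl_apply, IsFractionRing.liftAlgHom_apply, IsFractionRing.lift_algebraMap, ← h1]
  rfl

end Pool.Agent.Lib.MP_bc3ae6_ag
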