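import Pool.Agent.Lib.MP_bc3ae6_ag.V1

set_option autoImplicit false
set_option linter.unusedSectionVars false

/-! Asymptotics of dimensions in graded systems of subspaces. -/

namespace Pool.Agent.Lib.MP_bc3ae6_ag

open Set Filter MeasureTheory Module Topology
open scoped ENNReal NNReal

variable {K : Type} [Field K] [Algebra ℂ K] {U : ℕ → Submodule ℂ K} {d r : ℕ}

/-- The normalising factor. -/
noncomputable def vsK (r d m : ℕ) : ℝ := ((r : ℝ) * m) ^ d / d.factorial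

/-- Normalised dimensions. -/
noncomputable def vsQ (r d : ℕ) (W : ℕ → Submodule ℂ K) (m : ℕ) : ℝ≥0∞ :=
  (finrank ℂ (W m) : ℝ≥0∞) / ((r * m) ^ d / d.factorial)

lemma vsK_pos (hr : 0 < r) {m : ℕ} (hm : 0 < m) : 0 < vsK r d m := by
  unfold vsK; positivity

lemma vsQ_eq (hr : 0 < r) (W : ℕ → Submodule ℂ K) {m : ℕ} (hm : 0 < m) :
    vsQ r d W m = ENNReal.ofReal (finrank ℂ (W m) / vsK r d m) := by
  rw [ENNReal.ofReal_div_of_pos (vsK_pos hr hm), vsK,
    ENNReal.ofReal_div_of_pos (by positivity), ENNReal.ofReal_pow (by positivity),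
    ENNReal.ofReal_mul (by positivity)]
  simp [vsQ]

lemma volF_eq (Fl : ℕ → ℝ → Submodule ℂ K) (t : ℝ) :
    volF Fl r d t = limsup (vsQ r d fun m => Fl m (r * m * t)) atTop := rfl

lemma vs_div (m₁ : ℕ) {e : ℕ} (he : 0 < e) :
    Tendsto (fun M : ℕ => (((M - m₁) / e : ℕ) : ℝ) / M) atTop (𝓝 (1 / e)) := by
  have he' : (0 : ℝ) < e := by exact_mod_cast he
  have h1 : Tendsto (fun M : ℕ => 1 / (e : ℝ) - (m₁ + e) / e / M) atTop (𝓝 (1 / e)) := by
    simpa using (tendsto_const_div_atTop_nhds_zero_nat (((m₁ : ℝ) + e) / e)).const_sub (1 / (e : ℝ))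
  refine tendsto_of_tendsto_of_tendsto_of_le_of_le' h1 tendsto_const_nhds ?_ ?_
  · filter_upwards [eventually_ge_atTop (m₁ + 1)] with M hM
    have hM0 : (0 : ℝ) < M := by exact_mod_cast (by omega : 0 < M)
    have h2 : M - m₁ < ((M - m₁) / e) * e + e := by
      have := Nat.div_add_mod (M - m₁) e
      have := Nat.mod_lt (M - m₁) he
      nlinarith
    have h3 : (M : ℝ) ≤ ((M - m₁) / e : ℕ) * e + e + m₁ := by
      exact_mod_cast (by omega : M ≤ ((M - m₁) / e) * e + e + m₁)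
    rw [le_div_iff₀ hM0]
    have : (1 / (e : ℝ) - (m₁ + e) / e / M) * M = (M - (m₁ + e)) / e := by field_simp
    rw [this, div_le_iff₀ he']
    linarith
  · filter_upwards [eventually_ge_atTop 1] with M hM
    have hM0 : (0 : ℝ) < M := by exact_mod_cast (by omega : 0 < M)
    have h3 : (((M - m₁) / e : ℕ) : ℝ) * e ≤ M := by
      exact_mod_cast (Nat.div_mul_le_self _ _).trans (Nat.sub_le _ _)
    rw [div_le_div_iff₀ hM0 he']
    linarith

lemma GU.pow_mem (hU : GU U d) {m : ℕ} {a : K} (ha : a ∈ U m) (k : ℕ) : a ^ k ∈ U (k * m) := by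
  induction k with
  | zero => simpa using hU.one
  | succ k ih => rw [pow_succ, add_mul, one_mul]; exact hU.mul _ _ _ ih _ ha

lemma vs_key (hU : GU U d) (hr : 0 < r) {c : ℕ} (hc : Box U d c) {m : ℕ} (hm : 0 < m)
    {W : Submodule ℂ K} (hW : W ≤ U m) {W' : ℕ → Submodule ℂ K} (hW' : ∀ M, W' M ≤ U M)
    (h : ∀ k : ℕ → ℕ, Tendsto (fun M : ℕ => (k M : ℝ) / M) atTop (𝓝 (1 / (m + c : ℕ))) →
      ∀ᶠ M in atTop, ∀ a ∈ W, ∀ j, ∀ y ∈ U j, a ^ k M * y ∈ U M → a ^ k M * y ∈ W' M) :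
    ENNReal.ofReal (finrank ℂ W / vsK r d (m + c)) ≤ liminf (vsQ r d W') atTop := by
  obtain ⟨m₁, hm₁⟩ := eventually_atTop.1 hU.ne
  have he : 0 < m + c := by omega
  have h1 := vs_div m₁ he
  have h2 : Tendsto (fun M : ℕ => ENNReal.ofReal (((((M - m₁) / (m + c) : ℕ) : ℝ) / M) ^ d *
      (finrank ℂ W * d.factorial / r ^ d))) atTop
      (𝓝 (ENNReal.ofReal (finrank ℂ W / vsK r d (m + c)))) := by
    have h3 := ENNReal.tendsto_ofReal ((h1.pow d).mul_const
      (finrank ℂ W * d.factorial / r ^ d : ℝ))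
    have h4 : (1 / ((m + c : ℕ) : ℝ)) ^ d * (finrank ℂ W * d.factorial / r ^ d : ℝ)
        = finrank ℂ W / vsK r d (m + c) := by
      have : (0 : ℝ) < (m + c : ℕ) := by exact_mod_cast he
      rw [vsK, mul_pow, one_div, inv_pow]; field_simp
    rwa [h4] at h3
  rw [← h2.liminf_eq]
  refine liminf_le_liminf ?_
  filter_upwards [h _ h1, eventually_ge_atTop (m₁ + (m + c))] with M hM hM'
  set k := (M - m₁) / (m + c) with hk
  have hk0 : 0 < k := Nat.div_pos (by omega) he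
  have hk1 : k * (m + c) ≤ M - m₁ := Nat.div_mul_le_self _ _
  obtain ⟨g, hg, hg0⟩ := Submodule.exists_mem_ne_zero_of_ne_bot (hm₁ (M - k * (m + c)) (by omega))
  have := hU.fd
  have h5 := hc k m W (W' M) g hk0 hW (Submodule.finiteDimensional_of_le hW)
    (Submodule.finiteDimensional_of_le (hW' M)) hg0 fun a ha b hb => by
      have h6 := hU.mul _ _ _ hb _ hg
      have h7 := hU.mul _ _ _ (hU.pow_mem (hW ha) k) _ h6
      have h8 : k * m + (c * k + (M - k * (m + c))) = M := by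
        have : k * (m + c) = k * m + c * k := by ring
        omega
      rw [h8] at h7
      rw [mul_assoc]
      exact hM a ha _ _ h6 h7
  have hM0 : 0 < M := by omega
  rw [vsQ_eq hr _ hM0]
  refine ENNReal.ofReal_le_ofReal ?_
  have h6 : ((k : ℝ) / M) ^ d * (finrank ℂ W * d.factorial / r ^ d : ℝ)
      = (k ^ d * finrank ℂ W : ℕ) / vsK r d M := by
    have : (0 : ℝ) < M := by exact_mod_cast hM0
    rw [vsK, mul_pow, div_pow]; push_cast; field_simp
  rw [h6]
  exact div_le_div_of_nonneg_right (by exact_mod_cast h5) (vsK_pos hr hM0).le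

lemma vs_shift (c e : ℕ) {a : ℝ} (ha : a < 1) :
    ∀ᶠ m : ℕ in atTop, a * ((m + c : ℕ) : ℝ) ^ e < m ^ e := by
  have h1 : Tendsto (fun m : ℕ => a * (1 + (c : ℝ) / m) ^ e) atTop (𝓝 a) := by
    simpa using (((tendsto_const_div_atTop_nhds_zero_nat (c : ℝ)).const_add 1).pow e).const_mul a
  filter_upwards [h1.eventually (gt_mem_nhds ha), eventually_gt_atTop 0] with m h2 hm
  have hm' : (0 : ℝ) < m := by exact_mod_cast hm
  have h3 : ((m + c : ℕ) : ℝ) = (1 + (c : ℝ) / m) * m := by push_cast; field_simp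
  rw [h3, mul_pow, ← mul_assoc]
  exact mul_lt_of_lt_one_left (by positivity) h2

lemma vs_limsup (hr : 0 < r) (c : ℕ) {W : ℕ → Submodule ℂ K} {L : ℝ≥0∞}
    (h : ∀ᶠ m in atTop, ENNReal.ofReal (finrank ℂ (W m) / vsK r d (m + c)) ≤ L) :
    limsup (vsQ r d W) atTop ≤ L := by
  refine ENNReal.le_of_forall_lt_one_mul_le fun a ha => ?_
  rw [← ENNReal.limsup_const_mul_of_ne_top ha.ne_top]
  refine limsup_le_of_le (h := ?_)
  lift a to ℝ≥0 using ha.ne_top
  have ha' : (a : ℝ) < 1 := by exact_mod_cast ha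
  filter_upwards [h, vs_shift c d ha', eventually_gt_atTop 0] with m h1 h2 hm
  refine le_trans ?_ h1
  rw [vsQ_eq hr _ hm, ← ENNReal.ofReal_coe_nnreal, ← ENNReal.ofReal_mul a.coe_nonneg]
  refine ENNReal.ofReal_le_ofReal ?_
  have h3 : (a : ℝ) * vsK r d (m + c) ≤ vsK r d m := by
    rw [vsK, vsK, mul_pow, mul_pow, ← mul_div_assoc, mul_left_comm]
    gcongr
  rw [← mul_div_assoc, div_le_div_iff₀ (vsK_pos hr hm) (vsK_pos hr (by omega)), mul_right_comm,
    mul_comm]
  gcongr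

/-- The volume of a graded system is a positive real number, and a limit. -/
lemma vs_vol (hU : GU U d) (hr : 0 < r) : ∃ w : ℝ, 0 < w ∧
    limsup (vsQ r d U) atTop = ENNReal.ofReal w ∧
    Tendsto (fun m => finrank ℂ (U m) / vsK r d m) atTop (𝓝 w) := by
  obtain ⟨c, hc⟩ := hU.box
  have h1 : ∀ m, 0 < m → ENNReal.ofReal (finrank ℂ (U m) / vsK r d (m + c))
      ≤ liminf (vsQ r d U) atTop := fun m hm =>
    vs_key hU hr hc hm le_rfl (fun _ => le_rfl) fun _ _ => .of_forall fun _ _ _ _ _ _ h => h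
  have h2 : limsup (vsQ r d U) atTop ≤ liminf (vsQ r d U) atTop :=
    vs_limsup hr c ((eventually_gt_atTop 0).mono h1)
  have h3 : Tendsto (vsQ r d U) atTop (𝓝 (limsup (vsQ r d U) atTop)) :=
    tendsto_of_le_liminf_of_limsup_le h2 le_rfl
  have h4 : limsup (vsQ r d U) atTop ≠ ⊤ := by
    obtain ⟨C, hC⟩ := hU.up
    refine ne_top_of_le_ne_top (ENNReal.ofReal_ne_top (r := C * d.factorial))
      (vs_limsup hr 1 (.of_forall fun m => ENNReal.ofReal_le_ofReal ?_))
    have h5 : (finrank ℂ (U m) : ℝ) ≤ C * ((m + 1 : ℕ) : ℝ) ^ d := by exact_mod_cast hC m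
    have h6 : (1 : ℝ) ≤ r ^ d := one_le_pow₀ (by exact_mod_cast hr)
    rw [div_le_iff₀ (vsK_pos hr (by omega)), vsK, mul_pow]
    refine h5.trans ?_
    have : (C : ℝ) * d.factorial * (r ^ d * ((m + 1 : ℕ) : ℝ) ^ d / d.factorial)
      = r ^ d * (C * ((m + 1 : ℕ) : ℝ) ^ d) := by field_simp
    rw [this]
    exact le_mul_of_one_le_left (by positivity) h6
  have h5 : 0 < limsup (vsQ r d U) atTop := by
    obtain ⟨m, hm, hm0⟩ := (hU.ne.and (eventually_gt_atTop 0)).exists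
    have := hU.fd m
    have h6 : 0 < finrank ℂ (U m) := by
      rw [pos_iff_ne_zero, Ne, Submodule.finrank_eq_zero]; exact hm
    refine lt_of_lt_of_le ?_ ((h1 m hm0).trans liminf_le_limsup)
    exact ENNReal.ofReal_pos.2 (div_pos (by exact_mod_cast h6) (vsK_pos hr (by omega)))
  refine ⟨_, ENNReal.toReal_pos h5.ne' h4, (ENNReal.ofReal_toReal h4).symm, ?_⟩
  refine ((ENNReal.tendsto_toReal h4).comp h3).congr' ?_
  filter_upwards [eventually_gt_atTop 0] with m hm
  rw [Function.comp, vsQ_eq hr _ hm, ENNReal.toReal_ofReal (div_nonneg (by positivity)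
    (vsK_pos hr hm).le)]

lemma vs_lint {N : ℕ} (S : Fin N → Set ℝ) (hS : ∀ i, MeasurableSet (S i))
    (p : Fin N → ℝ → Prop) [∀ t, DecidablePred fun i => p i t]
    (hp : ∀ i t, p i t ↔ t ∈ S i) :
    ∫⁻ t in Ioi (0 : ℝ), ((Finset.univ.filter fun i => p i t).card : ℝ≥0∞)
      = ∑ i, volume (S i ∩ Ioi 0) := by
  have h1 : ∀ t, ((Finset.univ.filter fun i => p i t).card : ℝ≥0∞)
      = ∑ i, (S i).indicator 1 t := fun t => by
    rw [Finset.card_filter]
    push_cast
    refine Finset.sum_congr rfl fun i _ => ?_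
    by_cases h : t ∈ S i <;> simp [h, hp]
  simp_rw [h1]
  rw [lintegral_finsetSum _ fun i _ => measurable_one.indicator (hS i)]
  refine Finset.sum_congr rfl fun i _ => ?_
  rw [lintegral_indicator_one (hS i), Measure.restrict_apply (hS i)]

end Pool.Agent.Lib.MP_bc3ae6_ag
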